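import Pool.Agent.Lib.MP_47b33c_an.WDeriv

/-!
# The converse of the mean value property
-/

set_option autoImplicit false

open MeasureTheory Metric Set Filter Topology InnerProductSpace
open scoped RealInnerProductSpace Laplacian

namespace Pool.Agent.Lib.MP_47b33c_an

variable {n : ℕ}

theorem a5_wt_neg (k : ℕ) (y : EE n) : wt k (-y) = wt k y := by
  unfold wt
  rw [norm_neg]

/-- a continuous function with the mean value property is of class `C^2` -/
theorem a5_contDiffAt (hn : 2 ≤ n) {Ω : Set (EE n)} (hΩ : IsOpen Ω) {u : EE n → ℝ}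
    (hu : ContinuousOn u Ω) (h : ∀ x : EE n, ∀ r : ℝ, 0 < r → closedBall x r ⊆ Ω →
      ∫ y : EE n, u (x + r • y) * wt 3 y = u x * ∫ y : EE n, wt 3 y) {x₀ : EE n} (hx₀ : x₀ ∈ Ω) :
    ContDiffAt ℝ 2 u x₀ := by
  obtain ⟨s, hs, hsub⟩ := nhds_basis_closedBall.mem_iff.1 (hΩ.mem_nhds hx₀)
  set r := s / 2 with hr
  have hr0 : 0 < r := by positivity
  have hs2 : s = 2 * r := by rw [hr]; ring
  rw [hs2] at hsub
  set f : EE n → ℝ := indicator (closedBall x₀ (2 * r)) u with hf
  have hfi : Integrable f := by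
    rw [hf, integrable_indicator_iff measurableSet_closedBall]
    exact (hu.mono hsub).integrableOn_compact (isCompact_closedBall _ _)
  set g : EE n → ℝ := fun y => wt 3 (r⁻¹ • y) with hg
  have hg2 : ContDiff ℝ 2 g := wt_contDiff.comp (contDiff_const_smul r⁻¹)
  have hgc : HasCompactSupport g := by
    refine HasCompactSupport.intro (isCompact_closedBall (0 : EE n) r) fun y hy => ?_
    rw [mem_closedBall, dist_zero_right, not_le] at hy
    refine wt_eq_zero 3 (by norm_num) ?_
    rw [norm_smul, norm_inv, Real.norm_of_nonneg hr0.le, inv_mul_eq_div, le_div_iff₀ hr0, one_mul]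
    exact hy.le
  have hconv : ContDiff ℝ 2 (convolution f g (ContinuousLinearMap.lsmul ℝ ℝ) volume) :=
    hgc.contDiff_convolution_right (n := 2) _ hfi.locallyIntegrable hg2
  have hpos := wt_integral_pos (n := n) hn 3 (by norm_num)
  set c : ℝ := |(r ^ Module.finrank ℝ (EE n))⁻¹| with hc
  have heq : ∀ x ∈ ball x₀ r,
      u x = (∫ y : EE n, wt 3 y)⁻¹ *
        (c * convolution f g (ContinuousLinearMap.lsmul ℝ ℝ) volume x) := by
    intro x hx
    rw [mem_ball] at hx
    have hxs : closedBall x r ⊆ closedBall x₀ (2 * r) := by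
      intro z hz
      rw [mem_closedBall] at hz ⊢
      linarith [dist_triangle z x x₀]
    have h1 := h x r hr0 (hxs.trans hsub)
    have h2 : ∫ y : EE n, u (x + r • y) * wt 3 y =
        ∫ y : EE n, (fun z => f z * g (x - z)) (x + r • y) := by
      refine integral_congr_ae (Eventually.of_forall fun y => ?_)
      dsimp only
      have h3 : g (x - (x + r • y)) = wt 3 y := by
        rw [hg]
        dsimp only
        rw [sub_add_cancel_left, smul_neg, a5_wt_neg, smul_smul, inv_mul_cancel₀ hr0.ne', one_smul]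
      rw [h3]
      rcases le_or_gt ‖y‖ 1 with hy | hy
      · rw [hf, indicator_of_mem]
        exact hxs (a4_mem (by rw [abs_of_pos hr0]) hy)
      · rw [wt_eq_zero 3 (by norm_num) hy.le, mul_zero, mul_zero]
    have h4 : ∫ y : EE n, (fun z => f z * g (x - z)) (x + r • y) =
        c * ∫ z : EE n, f z * g (x - z) := by
      have h5 := Measure.integral_comp_smul (volume : Measure (EE n))
        (fun w : EE n => (fun z => f z * g (x - z)) (x + w)) r
      dsimp only at h5 ⊢
      rw [h5, smul_eq_mul, ← hc]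
      congr 1
      exact integral_add_left_eq_self (fun z => f z * g (x - z)) x
    have h6 : convolution f g (ContinuousLinearMap.lsmul ℝ ℝ) volume x =
        ∫ z : EE n, f z * g (x - z) := rfl
    rw [h6, ← h4, ← h2, h1]
    field_simp
  have hcd : ContDiffAt ℝ 2 (fun x => (∫ y : EE n, wt 3 y)⁻¹ *
        (c * convolution f g (ContinuousLinearMap.lsmul ℝ ℝ) volume x)) x₀ :=
    (contDiff_const.mul (contDiff_const.mul hconv)).contDiffAt
  exact hcd.congr_of_eventuallyEq (Filter.eventually_of_mem (ball_mem_nhds x₀ hr0) heq)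

theorem a5_continuousAt_laplacian {u : EE n → ℝ} {x : EE n} (hu : ContDiffAt ℝ 2 u x) :
    ContinuousAt (Δ u) x := by
  have h : Δ u = fun x => ∑ i, iteratedFDeriv ℝ 2 u x
      ![EuclideanSpace.basisFun (Fin n) ℝ i, EuclideanSpace.basisFun (Fin n) ℝ i] :=
    funext fun x => a3_laplacian_eq u x
  rw [h]
  refine tendsto_finsetSum _ fun i _ => ?_
  have h1 : ContinuousAt (iteratedFDeriv ℝ 2 u) x := hu.continuousAt_iteratedFDeriv le_rfl
  exact ((continuous_eval_const _).continuousAt.comp h1)

/-- the converse -/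
theorem harmonic_of_mvp (hn : 2 ≤ n) {Ω : Set (EE n)} (hΩ : IsOpen Ω) {u : EE n → ℝ}
    (hu : ContinuousOn u Ω) (h : ∀ x : EE n, ∀ r : ℝ, 0 < r → closedBall x r ⊆ Ω →
      ∫ y : EE n, u (x + r • y) * wt 3 y = u x * ∫ y : EE n, wt 3 y) : HarmonicOnNhd u Ω := by
  have h2 : ∀ x ∈ Ω, ContDiffAt ℝ 2 u x := fun x hx => a5_contDiffAt hn hΩ hu h hx
  have hlap : ∀ x ∈ Ω, Δ u x = 0 := by
    intro x hx
    obtain ⟨R, hR, hsub⟩ := nhds_basis_closedBall.mem_iff.1 (hΩ.mem_nhds hx)
    have hzero : ∀ ρ : ℝ, 0 < ρ → ρ < R → ∫ y : EE n, Δ u (x + ρ • y) * wt 4 y = 0 := by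
      intro ρ hρ hρR
      have h3 := wt_deriv hn 3 (by norm_num) (fun y hy => h2 y (hsub hy))
        (show |ρ| < R by rw [abs_of_pos hρ]; exact hρR)
      have h4 : (fun ρ : ℝ => ∫ y : EE n, u (x + ρ • y) * wt 3 y) =ᶠ[𝓝 ρ]
          fun _ => u x * ∫ y : EE n, wt 3 y := by
        filter_upwards [Ioo_mem_nhds hρ hρR] with t ht
        exact h x t ht.1 ((closedBall_subset_closedBall ht.2.le).trans hsub)
      have h5 := h3.unique ((hasDerivAt_const ρ _).congr_of_eventuallyEq h4)
      rcases mul_eq_zero.1 h5 with h6 | h6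
      · exfalso
        have h7 : 0 < ρ / (2 * (((3 : ℕ) : ℝ) + 1)) := by positivity
        exact h7.ne' h6
      · exact h6
    have hcont := a5_continuousAt_laplacian (h2 x hx)
    have hpos := wt_integral_pos (n := n) hn 4 (by norm_num)
    refine abs_eq_zero.1 (le_antisymm (le_of_forall_pos_le_add fun ε hε => ?_) (abs_nonneg _))
    rw [zero_add]
    obtain ⟨δ, hδ, hδ'⟩ := Metric.continuousAt_iff.1 hcont ε hε
    set ρ := min δ R / 2 with hρ
    have hm : 0 < min δ R := lt_min hδ hR
    have hρ0 : 0 < ρ := by positivity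
    have hρR : ρ < R := by rw [hρ]; linarith [min_le_right δ R]
    have hρδ : ρ < δ := by rw [hρ]; linarith [min_le_left δ R]
    have hz := hzero ρ hρ0 hρR
    have hi1 : Integrable (fun y : EE n => Δ u (x + ρ • y) * wt 4 y) :=
      a4_integrable 4 (by norm_num) (a4_comp_cont (g := Δ u) (R := ρ) (by rw [abs_of_pos hρ0])
        fun y hy => a5_continuousAt_laplacian
          (h2 y (hsub (closedBall_subset_closedBall hρR.le hy))))
    have hi2 : Integrable (fun y : EE n => Δ u x * wt 4 y) :=
      (wt_integrable 4 (by norm_num)).const_mul _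
    have h8 : ∫ y : EE n, (Δ u (x + ρ • y) * wt 4 y - Δ u x * wt 4 y) =
        -(Δ u x * ∫ y : EE n, wt 4 y) := by
      rw [integral_sub hi1 hi2, hz, integral_const_mul, zero_sub]
    have h9 : ‖∫ y : EE n, (Δ u (x + ρ • y) * wt 4 y - Δ u x * wt 4 y)‖ ≤
        ∫ y : EE n, ε * wt 4 y := by
      refine norm_integral_le_of_norm_le ((wt_integrable 4 (by norm_num)).const_mul ε)
        (Eventually.of_forall fun y => ?_)
      rcases le_or_gt ‖y‖ 1 with hy | hy
      · rw [← sub_mul, norm_mul, Real.norm_of_nonneg (wt_nonneg 4 y)]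
        refine mul_le_mul_of_nonneg_right ?_ (wt_nonneg 4 y)
        rw [← dist_eq_norm]
        refine (hδ' ?_).le
        have h10 := a4_mem (x := x) (y := y) (ρ := ρ) (R := ρ) (by rw [abs_of_pos hρ0]) hy
        rw [mem_closedBall] at h10
        linarith
      · simp only [wt_eq_zero 4 (by norm_num) hy.le, mul_zero, sub_self, norm_zero, le_refl]
    rw [h8, norm_neg, norm_mul, Real.norm_of_nonneg hpos.le, integral_const_mul,
      Real.norm_eq_abs] at h9
    exact le_of_mul_le_mul_right h9 hpos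
  intro x hx
  exact ⟨h2 x hx, Filter.eventually_of_mem (hΩ.mem_nhds hx) hlap⟩

end Pool.Agent.Lib.MP_47b33c_an
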