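import Pool.Agent.Lib.MP_47b33c_an.Wt

/-!
# Derivative of the weighted means, and the mean value property
-/

set_option autoImplicit false

open MeasureTheory Metric Set Filter Topology InnerProductSpace
open scoped RealInnerProductSpace Laplacian

namespace Pool.Agent.Lib.MP_47b33c_an

variable {n : ℕ}

theorem a4_mem {x y : EE n} {ρ R : ℝ} (hρ : |ρ| ≤ R) (hy : ‖y‖ ≤ 1) :
    x + ρ • y ∈ closedBall x R := by
  rw [mem_closedBall, dist_eq_norm, add_sub_cancel_left, norm_smul, Real.norm_eq_abs]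
  calc |ρ| * ‖y‖ ≤ |ρ| * 1 := mul_le_mul_of_nonneg_left hy (abs_nonneg _)
    _ ≤ R := by rw [mul_one]; exact hρ

theorem a4_integrable (k : ℕ) (hk : 1 ≤ k) {F : EE n → ℝ}
    (hF : ContinuousOn F (closedBall 0 1)) : Integrable (fun y => F y * wt k y) := by
  refine a3_integrable (isCompact_closedBall (0 : EE n) 1)
    (hF.mul (wt_continuous k).continuousOn) fun y hy => ?_
  rw [mem_closedBall, dist_zero_right, not_le] at hy
  rw [wt_eq_zero k hk hy.le, mul_zero]

theorem a4_comp_cont {g : EE n → ℝ} {x : EE n} {ρ R : ℝ} (hρ : |ρ| ≤ R)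
    (hg : ∀ y ∈ closedBall x R, ContinuousAt g y) :
    ContinuousOn (fun y : EE n => g (x + ρ • y)) (closedBall 0 1) := by
  intro y hy
  rw [mem_closedBall, dist_zero_right] at hy
  have h1 : ContinuousAt (fun y : EE n => x + ρ • y) y := by fun_prop
  exact (ContinuousAt.comp (f := fun y : EE n => x + ρ • y) (hg _ (a4_mem hρ hy))
    h1).continuousWithinAt

/-- differentiation under the integral sign -/
theorem a4_first (k : ℕ) (hk : 1 ≤ k) {u : EE n → ℝ} {x : EE n} {R : ℝ}
    (hu : ∀ y ∈ closedBall x R, ContDiffAt ℝ 2 u y) {ρ : ℝ} (hρ : |ρ| < R) :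
    HasDerivAt (fun ρ : ℝ => ∫ y : EE n, u (x + ρ • y) * wt k y)
      (∫ y : EE n, fderiv ℝ u (x + ρ • y) y * wt k y) ρ := by
  have hd : ∀ y ∈ closedBall x R, DifferentiableAt ℝ u y := fun y hy =>
    (hu y hy).differentiableAt two_ne_zero
  have hc1 : ∀ y ∈ closedBall x R, ContinuousAt (fderiv ℝ u) y := fun y hy =>
    ((hu y hy).fderiv_right (m := 1) (by norm_num)).continuousAt
  obtain ⟨C, hC⟩ := (isCompact_closedBall x R).exists_bound_of_continuousOn
    (f := fderiv ℝ u) (fun y hy => (hc1 y hy).continuousWithinAt)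
  have hs : ball (0 : ℝ) R ∈ 𝓝 ρ := isOpen_ball.mem_nhds (by
    rw [mem_ball, dist_zero_right, Real.norm_eq_abs]; exact hρ)
  have hint : ∀ t : ℝ, |t| < R → Integrable (fun y : EE n => u (x + t • y) * wt k y) :=
    fun t ht => a4_integrable k hk (a4_comp_cont ht.le fun y hy => (hd y hy).continuousAt)
  have hF' : Integrable (fun y : EE n => fderiv ℝ u (x + ρ • y) y * wt k y) := by
    refine a4_integrable k hk fun y hy => ?_
    rw [mem_closedBall, dist_zero_right] at hy
    have h1 : ContinuousAt (fun y : EE n => x + ρ • y) y := by fun_prop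
    have h2 : ContinuousAt (fun y : EE n => fderiv ℝ u (x + ρ • y)) y :=
      ContinuousAt.comp (hc1 _ (a4_mem hρ.le hy)) h1
    exact (h2.clm_apply continuousAt_id).continuousWithinAt
  refine (hasDerivAt_integral_of_dominated_loc_of_deriv_le (μ := volume)
    (F := fun (t : ℝ) (y : EE n) => u (x + t • y) * wt k y)
    (F' := fun (t : ℝ) (y : EE n) => fderiv ℝ u (x + t • y) y * wt k y)
    (bound := fun y : EE n => C * wt k y) hs ?_ (hint ρ hρ) hF'.aestronglyMeasurable
    (Eventually.of_forall fun y t ht => ?_) ((wt_integrable k hk).const_mul C)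
    (Eventually.of_forall fun y t ht => ?_)).2
  · filter_upwards [hs] with t ht
    rw [mem_ball, dist_zero_right, Real.norm_eq_abs] at ht
    exact (hint t ht).aestronglyMeasurable
  · rw [mem_ball, dist_zero_right, Real.norm_eq_abs] at ht
    rcases le_or_gt ‖y‖ 1 with hy | hy
    · rw [norm_mul, Real.norm_of_nonneg (wt_nonneg k y)]
      refine mul_le_mul_of_nonneg_right ?_ (wt_nonneg k y)
      have h1 := (fderiv ℝ u (x + t • y)).le_opNorm y
      have h2 := hC _ (a4_mem (x := x) (y := y) ht.le hy)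
      have h3 : ‖fderiv ℝ u (x + t • y)‖ * ‖y‖ ≤ ‖fderiv ℝ u (x + t • y)‖ * 1 :=
        mul_le_mul_of_nonneg_left hy (norm_nonneg _)
      linarith
    · simp only [wt_eq_zero k hk hy.le, mul_zero, norm_zero, le_refl]
  · rw [mem_ball, dist_zero_right, Real.norm_eq_abs] at ht
    rcases le_or_gt ‖y‖ 1 with hy | hy
    · have h1 : HasDerivAt (fun t : ℝ => x + t • y) y t := by
        simpa using ((hasDerivAt_id t).smul_const y).const_add x
      have h2 := (hd _ (a4_mem (x := x) (y := y) ht.le hy)).hasFDerivAt.comp_hasDerivAt t h1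
      exact h2.mul_const _
    · simp only [wt_eq_zero k hk hy.le, mul_zero]
      exact hasDerivAt_const t 0

theorem a4_sum (L : EE n →L[ℝ] ℝ) (y : EE n) :
    L y = ∑ i, y i * L (EuclideanSpace.basisFun (Fin n) ℝ i) := by
  conv_lhs => rw [← (EuclideanSpace.basisFun (Fin n) ℝ).sum_repr y]
  rw [map_sum]
  refine Finset.sum_congr rfl fun i _ => ?_
  rw [map_smul, smul_eq_mul, EuclideanSpace.basisFun_repr]

theorem a4_fderiv_wt (k : ℕ) (hk : 1 ≤ k) (y : EE n) (i : Fin n) :
    fderiv ℝ (wt (k + 1) : EE n → ℝ) y (EuclideanSpace.basisFun (Fin n) ℝ i) =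
      -(2 * (k + 1)) * (y i * wt k y) := by
  rw [(wt_hasFDerivAt k hk y).fderiv]
  simp [PiLp.inner_apply]
  ring

/-- integration by parts in one direction -/
theorem a4_dir (k : ℕ) (hk : 1 ≤ k) {u : EE n → ℝ} {x : EE n} {R : ℝ}
    (hu : ∀ y ∈ closedBall x R, ContDiffAt ℝ 2 u y) {ρ : ℝ} (hρ : |ρ| < R) (i : Fin n) :
    Integrable (fun y : EE n => fderiv ℝ u (x + ρ • y) (EuclideanSpace.basisFun (Fin n) ℝ i) *
      (y i * wt k y)) ∧
    Integrable (fun y : EE n => fderiv ℝ (fun z => fderiv ℝ u z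
      (EuclideanSpace.basisFun (Fin n) ℝ i)) (x + ρ • y) (EuclideanSpace.basisFun (Fin n) ℝ i) *
      wt (k + 1) y) ∧
    ∫ y : EE n, fderiv ℝ u (x + ρ • y) (EuclideanSpace.basisFun (Fin n) ℝ i) * (y i * wt k y) =
      ρ / (2 * (k + 1)) * ∫ y : EE n, fderiv ℝ (fun z => fderiv ℝ u z
      (EuclideanSpace.basisFun (Fin n) ℝ i)) (x + ρ • y) (EuclideanSpace.basisFun (Fin n) ℝ i) *
      wt (k + 1) y := by
  set v : EE n := EuclideanSpace.basisFun (Fin n) ℝ i with hv
  have hk0 : (2 * ((k : ℝ) + 1)) ≠ 0 := by positivity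
  have h1 : ∀ y ∈ closedBall x R, ContDiffAt ℝ 1 (fun z => fderiv ℝ u z v) y := fun y hy =>
    ((hu y hy).fderiv_right (m := 1) (by norm_num)).clm_apply contDiffAt_const
  have h2 : ∀ y ∈ closedBall x R, ContinuousAt (fun y => fderiv ℝ (fun z => fderiv ℝ u z v) y v) y :=
    fun y hy => (((h1 y hy).fderiv_right (m := 0) (by norm_num)).continuousAt).clm_apply
      continuousAt_const
  have c1 : ContinuousOn (fun y : EE n => fderiv ℝ u (x + ρ • y) v) (closedBall 0 1) :=
    a4_comp_cont (g := fun z => fderiv ℝ u z v) hρ.le fun y hy => (h1 y hy).continuousAt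
  have c2 : ContinuousOn (fun y : EE n => fderiv ℝ (fun z => fderiv ℝ u z v) (x + ρ • y) v)
      (closedBall 0 1) :=
    a4_comp_cont (g := fun y => fderiv ℝ (fun z => fderiv ℝ u z v) y v) hρ.le h2
  have i1 : Integrable (fun y : EE n => fderiv ℝ u (x + ρ • y) v * (y i * wt k y)) := by
    have h := a4_integrable k hk (c1.mul (g := fun y : EE n => y i) (by fun_prop))
    refine h.congr (Eventually.of_forall fun y => ?_)
    simp only [Pi.mul_apply, mul_assoc]
  have i2 := a4_integrable (k + 1) (by omega) c2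
  refine ⟨i1, i2, ?_⟩
  -- the chain rule
  have h3 : ∀ y ∈ closedBall (0 : EE n) 1, HasFDerivAt (fun y : EE n => fderiv ℝ u (x + ρ • y) v)
      (ρ • fderiv ℝ (fun z => fderiv ℝ u z v) (x + ρ • y)) y := by
    intro y hy
    rw [mem_closedBall, dist_zero_right] at hy
    have h4 : HasFDerivAt (fun y : EE n => x + ρ • y) (ρ • ContinuousLinearMap.id ℝ (EE n)) y :=
      ((hasFDerivAt_id y).const_smul ρ).const_add x
    have h5 := ((h1 _ (a4_mem hρ.le hy)).differentiableAt one_ne_zero).hasFDerivAt.comp y h4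
    refine h5.congr_fderiv ?_
    ext w
    simp
  have hsub : tsupport (wt (k + 1) : EE n → ℝ) ⊆ closedBall 0 1 := by
    refine closure_minimal (fun y hy => ?_) isClosed_closedBall
    rw [mem_closedBall, dist_zero_right]
    by_contra hcon
    exact hy (wt_eq_zero (k + 1) (by omega) (not_le.1 hcon).le)
  have e1 : ∫ y : EE n, fderiv ℝ u (x + ρ • y) v * fderiv ℝ (wt (k + 1) : EE n → ℝ) y v =
      -∫ y : EE n, fderiv ℝ (fun y : EE n => fderiv ℝ u (x + ρ • y) v) y v * wt (k + 1) y := by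
    refine integral_mul_fderiv_eq_neg_fderiv_mul_of_integrable ?_ ?_
      (a4_integrable (k + 1) (by omega) c1) (fun y hy => (h3 y (hsub hy)).differentiableAt)
      fun y _ => (wt_hasFDerivAt k hk y).differentiableAt
    · refine a4_integrable (k + 1) (by omega) ((continuousOn_const (c := ρ)).mul c2 |>.congr ?_)
      intro y hy
      change fderiv ℝ (fun y : EE n => fderiv ℝ u (x + ρ • y) v) y v = _
      rw [(h3 y hy).fderiv]
      rfl
    · refine (i1.const_mul (-(2 * (k + 1)))).congr (Eventually.of_forall fun y => ?_)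
      dsimp only
      rw [hv, a4_fderiv_wt k hk y i]
      ring
  have e2 : ∫ y : EE n, fderiv ℝ u (x + ρ • y) v * fderiv ℝ (wt (k + 1) : EE n → ℝ) y v =
      -(2 * (k + 1)) * ∫ y : EE n, fderiv ℝ u (x + ρ • y) v * (y i * wt k y) := by
    rw [← integral_const_mul]
    refine integral_congr_ae (Eventually.of_forall fun y => ?_)
    dsimp only
    rw [hv, a4_fderiv_wt k hk y i]
    ring
  have e3 : ∫ y : EE n, fderiv ℝ (fun y : EE n => fderiv ℝ u (x + ρ • y) v) y v * wt (k + 1) y =
      ρ * ∫ y : EE n, fderiv ℝ (fun z => fderiv ℝ u z v) (x + ρ • y) v * wt (k + 1) y := by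
    rw [← integral_const_mul]
    refine integral_congr_ae (Eventually.of_forall fun y => ?_)
    dsimp only
    rcases le_or_gt ‖y‖ 1 with hy | hy
    · rw [(h3 y (by rw [mem_closedBall, dist_zero_right]; exact hy)).fderiv]
      simp only [FunLike.coe_smul, Pi.smul_apply, smul_eq_mul]
      ring
    · rw [wt_eq_zero (k + 1) (by omega) hy.le, mul_zero, mul_zero, mul_zero]
  rw [e2, e3] at e1
  rw [div_mul_eq_mul_div, eq_div_iff hk0]
  linarith

theorem wt_deriv (hn : 2 ≤ n) (k : ℕ) (hk : 1 ≤ k) {u : EE n → ℝ} {x : EE n} {R : ℝ}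
    (hu : ∀ y ∈ closedBall x R, ContDiffAt ℝ 2 u y) {ρ : ℝ} (hρ : |ρ| < R) :
    HasDerivAt (fun ρ : ℝ => ∫ y : EE n, u (x + ρ • y) * wt k y)
      (ρ / (2 * (k + 1)) * ∫ y : EE n, Δ u (x + ρ • y) * wt (k + 1) y) ρ := by
  have h := a4_first k hk hu hρ
  have e1 : ∫ y : EE n, fderiv ℝ u (x + ρ • y) y * wt k y =
      ∑ i, ∫ y : EE n, fderiv ℝ u (x + ρ • y) (EuclideanSpace.basisFun (Fin n) ℝ i) *
        (y i * wt k y) := by
    rw [← integral_finsetSum _ fun i _ => (a4_dir k hk hu hρ i).1]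
    refine integral_congr_ae (Eventually.of_forall fun y => ?_)
    dsimp only
    rw [a4_sum (fderiv ℝ u (x + ρ • y)) y, Finset.sum_mul]
    exact Finset.sum_congr rfl fun i _ => by ring
  have e2 : ∫ y : EE n, Δ u (x + ρ • y) * wt (k + 1) y =
      ∑ i, ∫ y : EE n, fderiv ℝ (fun z => fderiv ℝ u z
        (EuclideanSpace.basisFun (Fin n) ℝ i)) (x + ρ • y) (EuclideanSpace.basisFun (Fin n) ℝ i) *
        wt (k + 1) y := by
    rw [← integral_finsetSum _ fun i _ => (a4_dir k hk hu hρ i).2.1]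
    refine integral_congr_ae (Eventually.of_forall fun y => ?_)
    dsimp only
    rcases le_or_gt ‖y‖ 1 with hy | hy
    · rw [a3_laplacian_eq, Finset.sum_mul]
      exact Finset.sum_congr rfl fun i _ => by rw [a3_second u (hu _ (a4_mem hρ.le hy))]
    · rw [wt_eq_zero (k + 1) (by omega) hy.le]
      simp
  rw [e1] at h
  rw [e2, Finset.mul_sum]
  simpa only [(a4_dir k hk hu hρ _).2.2] using h

/-- the weighted mean value property -/
theorem mvp (hn : 2 ≤ n) (k : ℕ) (hk : 1 ≤ k) {u : EE n → ℝ} {x : EE n} {r : ℝ} (hr : 0 ≤ r)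
    (hu : HarmonicOnNhd u (closedBall x r)) :
    ∫ y : EE n, u (x + r • y) * wt k y = u x * ∫ y : EE n, wt k y := by
  obtain ⟨δ, hδ, hsub⟩ := (isCompact_closedBall x r).exists_cthickening_subset_open
    (isOpen_setOfPred_harmonicAt (f := u)) fun y hy => hu y hy
  rw [cthickening_closedBall hδ.le hr] at hsub
  have hh : ∀ y ∈ closedBall x (δ + r), HarmonicAt u y := fun y hy => hsub hy
  have hd : ∀ t : ℝ, |t| < δ + r →
      HasDerivAt (fun ρ : ℝ => ∫ y : EE n, u (x + ρ • y) * wt k y) 0 t := by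
    intro t ht
    have h := wt_deriv hn k hk (fun y hy => (hh y hy).1) ht
    have h0 : ∫ y : EE n, Δ u (x + t • y) * wt (k + 1) y = 0 := by
      rw [← integral_zero (EE n) ℝ]
      refine integral_congr_ae (Eventually.of_forall fun y => ?_)
      dsimp only
      rcases le_or_gt ‖y‖ 1 with hy | hy
      · rw [(hh _ (a4_mem ht.le hy)).2.eq_of_nhds, Pi.zero_apply, zero_mul]
      · rw [wt_eq_zero (k + 1) (by omega) hy.le, mul_zero]
    rwa [h0, mul_zero] at h
  have habs : ∀ t ∈ Icc 0 r, |t| < δ + r := fun t ht => by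
    rw [abs_of_nonneg ht.1]; linarith [ht.2]
  have h1 := constant_of_has_deriv_right_zero (a := 0) (b := r)
    (f := fun ρ : ℝ => ∫ y : EE n, u (x + ρ • y) * wt k y)
    (fun t ht => (hd t (habs t ht)).continuousAt.continuousWithinAt)
    (fun t ht => (hd t (habs t ⟨ht.1, ht.2.le⟩)).hasDerivWithinAt) r ⟨hr, le_rfl⟩
  rw [h1]
  simp only [zero_smul, add_zero]
  rw [integral_const_mul]

end Pool.Agent.Lib.MP_47b33c_an
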