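import Pool.Agent.Lib.MP_47b33c_an.Wt
import Pool.Agent.Lib.MP_47b33c_an.WDeriv
import Pool.Agent.Lib.MP_47b33c_an.Conv

set_option autoImplicit false

open MeasureTheory Metric Set Filter Topology InnerProductSpace
open scoped RealInnerProductSpace Laplacian

namespace Pool.Agent.Lib.MP_47b33c_an

variable {n : ℕ}

theorem a6_mem {x y : EE n} {r : ℝ} (hr : 0 ≤ r) (hy : ‖y‖ ≤ 1) : x + r • y ∈ closedBall x r := by
  rw [mem_closedBall, dist_eq_norm, add_sub_cancel_left, norm_smul, Real.norm_eq_abs,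
    abs_of_nonneg hr]
  exact mul_le_of_le_one_right hr hy

theorem a6_eq_indicator (f : EE n → ℝ) (x : EE n) (r : ℝ) :
    (fun y : EE n => f (x + r • y) * wt 3 y) =
      indicator (closedBall (0 : EE n) 1) (fun y : EE n => f (x + r • y) * wt 3 y) := by
  funext y
  by_cases hy : y ∈ closedBall (0 : EE n) 1
  · rw [indicator_of_mem hy]
  · rw [indicator_of_notMem hy]
    rw [mem_closedBall, dist_zero_right, not_le] at hy
    rw [wt_eq_zero 3 (by norm_num) hy.le, mul_zero]

theorem a6_meas {f : EE n → ℝ} {x : EE n} {r : ℝ} (hr : 0 ≤ r)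
    (hf : ContinuousOn f (closedBall x r)) :
    AEStronglyMeasurable (fun y : EE n => f (x + r • y) * wt 3 y) volume := by
  rw [a6_eq_indicator, aestronglyMeasurable_indicator_iff measurableSet_closedBall]
  apply ContinuousOn.aestronglyMeasurable _ measurableSet_closedBall
  apply ContinuousOn.mul
  · apply hf.comp (by fun_prop)
    intro y hy
    exact a6_mem hr (by simpa using hy)
  · exact (wt_continuous 3).continuousOn

theorem a6_bound {f : EE n → ℝ} {x : EE n} {r B : ℝ} (hr : 0 ≤ r)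
    (hB : ∀ z ∈ closedBall x r, |f z| ≤ B) (y : EE n) :
    ‖f (x + r • y) * wt 3 y‖ ≤ B * wt 3 y := by
  rw [Real.norm_eq_abs, abs_mul, abs_of_nonneg (wt_nonneg 3 y)]
  by_cases hy : ‖y‖ ≤ 1
  · exact mul_le_mul_of_nonneg_right (hB _ (a6_mem hr hy)) (wt_nonneg 3 y)
  · rw [wt_eq_zero 3 (by norm_num) (not_le.1 hy).le, mul_zero, mul_zero]

theorem harmonic_of_tendsto (hn : 2 ≤ n) {Ω : Set (EE n)} (hΩ : IsOpen Ω)
    {u : ℕ → EE n → ℝ} {v : EE n → ℝ} (hu : ∀ i, HarmonicOnNhd (u i) Ω)
    (h : TendstoLocallyUniformlyOn u v atTop Ω) : HarmonicOnNhd v Ω := by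
  have hvc : ContinuousOn v Ω :=
    h.continuousOn (Frequently.of_forall fun i => (hu i).continuousOn)
  refine harmonic_of_mvp hn hΩ hvc fun x r hr hx => ?_
  have hK : IsCompact (closedBall x r) := isCompact_closedBall x r
  have hunif : TendstoUniformlyOn u v atTop (closedBall x r) :=
    (tendstoLocallyUniformlyOn_iff_forall_isCompact hΩ).1 h _ hx hK
  obtain ⟨B, hB⟩ : ∃ B : ℝ, ∀ z ∈ closedBall x r, |v z| ≤ B := by
    obtain ⟨B, hB⟩ := hK.exists_bound_of_continuousOn (hvc.mono hx)
    exact ⟨B, fun z hz => by simpa [Real.norm_eq_abs] using hB z hz⟩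
  have hev : ∀ᶠ i in atTop, ∀ z ∈ closedBall x r, |u i z| ≤ B + 1 := by
    have := (Metric.tendstoUniformlyOn_iff.1 hunif) 1 one_pos
    filter_upwards [this] with i hi z hz
    have h1 := hi z hz
    rw [Real.dist_eq] at h1
    have h2 := hB z hz
    have h3 : |u i z| ≤ |v z| + |v z - u i z| := by
      have : u i z = v z - (v z - u i z) := by ring
      calc |u i z| = |v z - (v z - u i z)| := by rw [← this]
        _ ≤ |v z| + |v z - u i z| := abs_sub _ _
    linarith
  have hlim1 : Tendsto (fun i => ∫ y : EE n, u i (x + r • y) * wt 3 y) atTop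
      (𝓝 (∫ y : EE n, v (x + r • y) * wt 3 y)) := by
    apply tendsto_integral_filter_of_dominated_convergence (fun y => (B + 1) * wt 3 y)
    · exact Eventually.of_forall fun i => a6_meas hr.le ((hu i).continuousOn.mono hx)
    · filter_upwards [hev] with i hi
      exact Eventually.of_forall fun y => a6_bound hr.le hi y
    · exact (wt_integrable 3 (by norm_num)).const_mul _
    · refine Eventually.of_forall fun y => ?_
      by_cases hy : ‖y‖ ≤ 1
      · exact (hunif.tendsto_at (a6_mem hr.le hy)).mul_const _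
      · rw [wt_eq_zero 3 (by norm_num) (not_le.1 hy).le]
        simp
  have hlim2 : Tendsto (fun i => ∫ y : EE n, u i (x + r • y) * wt 3 y) atTop
      (𝓝 (v x * ∫ y : EE n, wt 3 y)) := by
    have : (fun i => ∫ y : EE n, u i (x + r • y) * wt 3 y) =
        fun i => u i x * ∫ y : EE n, wt 3 y := by
      funext i
      exact mvp hn 3 (by norm_num) hr.le (fun z hz => hu i z (hx hz))
    rw [this]
    exact (hunif.tendsto_at (mem_closedBall_self hr.le)).mul_const _
  exact tendsto_nhds_unique hlim1 hlim2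

theorem a6_unif {T : Type} {K : T → EE n → ℝ} {Ω : Set (EE n)}
    (hb : ∀ x ∈ Ω, ∃ C : ℝ, ∀ᶠ y in 𝓝 x, ∀ t, |K t y| ≤ C) {S : Set (EE n)} (hS : IsCompact S)
    (hSΩ : S ⊆ Ω) : ∃ C : ℝ, ∀ y ∈ S, ∀ t, |K t y| ≤ C := by
  refine hS.induction_on (p := fun s => ∃ C : ℝ, ∀ y ∈ s, ∀ t, |K t y| ≤ C) ⟨0, by simp⟩
    (fun s s' hss ⟨C, hC⟩ => ⟨C, fun y hy => hC y (hss hy)⟩)
    (fun s s' ⟨C, hC⟩ ⟨C', hC'⟩ => ⟨max C C', ?_⟩) (fun x hx => ?_)
  · rintro y (hy | hy) t
    · exact (hC y hy t).trans (le_max_left _ _)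
    · exact (hC' y hy t).trans (le_max_right _ _)
  · obtain ⟨C, hC⟩ := hb x (hSΩ hx)
    exact ⟨_, mem_nhdsWithin_of_mem_nhds hC, C, fun y hy t => hy t⟩

theorem harmonic_integral (hn : 2 ≤ n) {T : Type} [MeasurableSpace T] (μ : Measure T)
    [IsFiniteMeasure μ] {K : T → EE n → ℝ} (hK : Measurable (Function.uncurry K))
    {Ω : Set (EE n)} (hΩ : IsOpen Ω) (hh : ∀ t, HarmonicOnNhd (K t) Ω)
    (hb : ∀ x ∈ Ω, ∃ C : ℝ, ∀ᶠ y in 𝓝 x, ∀ t, |K t y| ≤ C) :
    HarmonicOnNhd (fun x => ∫ t, K t x ∂μ) Ω := by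
  have hmeas : ∀ x : EE n, Measurable (fun t => K t x) := fun x =>
    hK.comp (measurable_id.prodMk measurable_const)
  have hcont : ContinuousOn (fun x => ∫ t, K t x ∂μ) Ω := by
    intro x hx
    apply ContinuousAt.continuousWithinAt
    obtain ⟨C, hC⟩ := hb x hx
    apply continuousAt_of_dominated (bound := fun _ => C)
    · exact Eventually.of_forall fun y => (hmeas y).aestronglyMeasurable
    · filter_upwards [hC] with y hy
      exact Eventually.of_forall fun t => by rw [Real.norm_eq_abs]; exact hy t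
    · exact integrable_const C
    · exact Eventually.of_forall fun t => (hh t).continuousOn.continuousAt (hΩ.mem_nhds hx)
  refine harmonic_of_mvp hn hΩ hcont fun x r hr hx => ?_
  obtain ⟨C, hC⟩ := a6_unif hb (isCompact_closedBall x r) hx
  have hC' : ∀ t, ∀ z ∈ closedBall x r, |K t z| ≤ C := fun t z hz => hC z hz t
  -- integrability on the product
  have hint : Integrable (Function.uncurry fun (y : EE n) (t : T) => K t (x + r • y) * wt 3 y)
      ((volume : Measure (EE n)).prod μ) := by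
    have hdom : Integrable (fun p : EE n × T => C * wt 3 p.1) ((volume : Measure (EE n)).prod μ) :=
      ((wt_integrable 3 (by norm_num)).comp_fst μ).const_mul C
    refine hdom.mono' ?_ ?_
    · apply Measurable.aestronglyMeasurable
      have h1 : Measurable (fun p : EE n × T => K p.2 (x + r • p.1)) :=
        hK.comp (measurable_snd.prodMk
          ((measurable_const.add (measurable_fst.const_smul r))))
      exact h1.mul ((wt_continuous 3).measurable.comp measurable_fst)
    · exact Eventually.of_forall fun p => a6_bound hr.le (hC' p.2) p.1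
  have hswap := integral_integral_swap hint
  have e1 : ∫ y : EE n, (∫ t, K t (x + r • y) ∂μ) * wt 3 y =
      ∫ y : EE n, ∫ t, K t (x + r • y) * wt 3 y ∂μ := by
    congr 1
    funext y
    rw [integral_mul_const]
  have e2 : ∀ t, ∫ y : EE n, K t (x + r • y) * wt 3 y = K t x * ∫ y : EE n, wt 3 y :=
    fun t => mvp hn 3 (by norm_num) hr.le (fun z hz => hh t z (hx hz))
  rw [e1, hswap]
  simp_rw [e2]
  rw [integral_mul_const]

end Pool.Agent.Lib.MP_47b33c_an
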