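import Pool.Agent.Lib.MP_47b33c_an.Kernel

/-!
# Boundedness and decay of differences of the kernel
-/

set_option autoImplicit false

open MeasureTheory Metric Set Filter Topology InnerProductSpace
open scoped RealInnerProductSpace Laplacian

namespace Pool.Agent.Lib.MP_47b33c_an

variable {n : ℕ}

theorem d2_lip (hn : 2 ≤ n) {m s t : ℝ} (hm : 1 < m) (hs : m ≤ s) (ht : m ≤ t) :
    |gK n s - gK n t| ≤ 1 / m * |s - t| := by
  have h1 : ∀ u ∈ Ici m, ‖deriv (gK n) u‖ ≤ 1 / m := by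
    intro u hu
    have hu' : m ≤ u := hu
    have hu1 : 1 < u := by linarith
    rw [d1_deriv]
    unfold d1_g1
    rw [if_neg (not_le.mpr hu1), norm_neg, Real.norm_eq_abs, abs_of_nonneg (by positivity)]
    have h2 : u ^ (-(n:ℝ)/2) ≤ u ^ (-1:ℝ) := by
      apply Real.rpow_le_rpow_of_exponent_le hu1.le
      have : (2:ℝ) ≤ n := by exact_mod_cast hn
      linarith
    rw [Real.rpow_neg_one] at h2
    refine h2.trans ?_
    rw [one_div]
    exact inv_anti₀ (by linarith) hu'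
  have h2 := Convex.norm_image_sub_le_of_norm_deriv_le
    (fun u _ => (d1_hasDerivAt n u).differentiableAt) h1 (convex_Ici m)
    (mem_Ici.mpr ht) (mem_Ici.mpr hs)
  rwa [Real.norm_eq_abs, Real.norm_eq_abs] at h2

theorem d2_diff (hn : 2 ≤ n) (A B x : EE n) (hA : 2 * ‖A‖ ≤ ‖x‖) (hB : 2 * ‖B‖ ≤ ‖x‖)
    (hx : 2 < ‖x‖) : |KK (x - A) - KK (x - B)| ≤ 12 * ‖A - B‖ / ‖x‖ := by
  unfold KK
  have hA1 : ‖x‖ / 2 ≤ ‖x - A‖ := by
    have := norm_sub_norm_le x A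
    linarith
  have hB1 : ‖x‖ / 2 ≤ ‖x - B‖ := by
    have := norm_sub_norm_le x B
    linarith
  have hA2 : ‖x - A‖ ≤ 3 / 2 * ‖x‖ := by
    have := norm_sub_le x A
    linarith
  have hB2 : ‖x - B‖ ≤ 3 / 2 * ‖x‖ := by
    have := norm_sub_le x B
    linarith
  have hAB : |‖x - A‖ - ‖x - B‖| ≤ ‖A - B‖ := by
    have := abs_norm_sub_norm_le (x - A) (x - B)
    refine this.trans ?_
    rw [show x - A - (x - B) = -(A - B) by abel, norm_neg]
  have h1 := d2_lip hn (m := (‖x‖ / 2) ^ 2) (s := ‖x - A‖ ^ 2) (t := ‖x - B‖ ^ 2)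
    (by nlinarith) (pow_le_pow_left₀ (by positivity) hA1 2)
    (pow_le_pow_left₀ (by positivity) hB1 2)
  refine h1.trans ?_
  have h2 : |‖x - A‖ ^ 2 - ‖x - B‖ ^ 2| ≤ ‖A - B‖ * (3 * ‖x‖) := by
    have e : ‖x - A‖ ^ 2 - ‖x - B‖ ^ 2 = (‖x - A‖ - ‖x - B‖) * (‖x - A‖ + ‖x - B‖) := by ring
    rw [e, abs_mul]
    apply mul_le_mul hAB _ (abs_nonneg _) (norm_nonneg _)
    rw [abs_of_nonneg (by positivity)]
    linarith
  calc 1 / (‖x‖ / 2) ^ 2 * |‖x - A‖ ^ 2 - ‖x - B‖ ^ 2|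
      ≤ 1 / (‖x‖ / 2) ^ 2 * (‖A - B‖ * (3 * ‖x‖)) := by
        apply mul_le_mul_of_nonneg_left h2
        positivity
    _ = 12 * ‖A - B‖ / ‖x‖ := by
        have : ‖x‖ ≠ 0 := by linarith
        field_simp
        ring

theorem KK_sub_small (hn : 2 ≤ n) (A B : EE n) (η : ℝ) (hη : 0 < η) :
    ∃ R : ℝ, ∀ x : EE n, R ≤ ‖x‖ → |KK (x - A) - KK (x - B)| ≤ η := by
  refine ⟨3 + 2 * ‖A‖ + 2 * ‖B‖ + 12 * ‖A - B‖ / η, fun x hx => ?_⟩
  have h0 : 0 ≤ 12 * ‖A - B‖ / η := by positivity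
  have hA := norm_nonneg A
  have hB := norm_nonneg B
  refine (d2_diff hn A B x (by linarith) (by linarith) (by linarith)).trans ?_
  rw [div_le_iff₀ (by linarith)]
  have h1 : 12 * ‖A - B‖ / η ≤ ‖x‖ := by linarith
  rw [div_le_iff₀ hη] at h1
  linarith

theorem KK_sub_bounded (hn : 2 ≤ n) (A B : EE n) :
    ∃ M : ℝ, ∀ x : EE n, |KK (x - A) - KK (x - B)| ≤ M := by
  obtain ⟨R, hR⟩ := KK_sub_small hn A B 1 one_pos
  have hc : Continuous (fun x : EE n => |KK (x - A) - KK (x - B)|) := by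
    have h1 : Continuous (KK : EE n → ℝ) := (KK_contDiff hn).continuous
    exact ((h1.comp (continuous_id.sub continuous_const)).sub
      (h1.comp (continuous_id.sub continuous_const))).abs
  obtain ⟨M, hM⟩ := (isCompact_closedBall (0 : EE n) R).bddAbove_image hc.continuousOn
  refine ⟨max M 1, fun x => ?_⟩
  by_cases hx : R ≤ ‖x‖
  · exact (hR x hx).trans (le_max_right _ _)
  · refine le_trans (hM ?_) (le_max_left _ _)
    refine ⟨x, ?_, rfl⟩
    rw [mem_closedBall_zero_iff]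
    exact le_of_not_ge hx

end Pool.Agent.Lib.MP_47b33c_an
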