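import Pool.Agent.Lib.MP_47b33c_an.Local

set_option autoImplicit false

open MeasureTheory Metric Set Filter Topology InnerProductSpace
open scoped RealInnerProductSpace Laplacian

namespace Pool.Agent.Lib.MP_47b33c_an

variable {n : ℕ}

theorem h4_cr {r : ℝ} (hr : 0 < r) (y : EE n) :
    ∫ x, phr r x y = r ^ n * ∫ y : EE n, wt 3 y := by
  unfold phr
  have h1 : ∫ x : EE n, wt 3 (r⁻¹ • (y - x)) = ∫ x : EE n, wt 3 (r⁻¹ • x) :=
    integral_sub_left_eq_self (fun x : EE n => wt 3 (r⁻¹ • x)) volume y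
  rw [h1, Measure.integral_comp_smul (volume : Measure (EE n)) (wt 3) r⁻¹]
  have hfr : Module.finrank ℝ (EE n) = n := by simp
  rw [hfr, smul_eq_mul, inv_pow, inv_inv, abs_of_pos (by positivity)]

theorem h4_phr_cont2 (r : ℝ) : Continuous (fun p : EE n × EE n => phr r p.1 p.2) := by
  unfold phr
  exact (wt_continuous (n := n) 3).comp (by fun_prop)

theorem h4_cont_left (r : ℝ) (y : EE n) : Continuous (fun x : EE n => phr r x y) := by
  unfold phr
  exact (wt_continuous (n := n) 3).comp (by fun_prop)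

theorem h4_phr_int {r : ℝ} (hr : 0 < r) (y : EE n) : Integrable (fun x : EE n => phr r x y) := by
  refine Continuous.integrable_of_hasCompactSupport (h4_cont_left r y) ?_
  · refine HasCompactSupport.of_support_subset_isCompact (isCompact_closedBall y r) ?_
    intro x hx
    by_contra h
    rw [mem_closedBall, not_le] at h
    exact hx (h3_zero hr (by rw [dist_comm]; exact h.le))

theorem h4_prod_int {r : ℝ} {g : EE n → ℝ} (hg : Continuous g)
    (hgc : HasCompactSupport g) (μ : Measure (EE n)) [IsFiniteMeasure μ] :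
    Integrable (fun p : EE n × EE n => g p.1 * phr r p.1 p.2)
      ((volume : Measure (EE n)).prod μ) := by
  have h1 : Integrable (fun p : EE n × EE n => |g p.1|) ((volume : Measure (EE n)).prod μ) :=
    (hg.integrable_of_hasCompactSupport hgc).abs.comp_fst μ
  refine h1.mono' ?_ (Eventually.of_forall fun p => ?_)
  · exact ((hg.comp continuous_fst).mul (h4_phr_cont2 r)).aestronglyMeasurable
  · rw [norm_mul, Real.norm_eq_abs, Real.norm_eq_abs, abs_of_nonneg (h3_nonneg _ _ _)]
    calc |g p.1| * phr r p.1 p.2 ≤ |g p.1| * 1 :=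
          mul_le_mul_of_nonneg_left (h3_le_one _ _ _) (abs_nonneg _)
      _ = |g p.1| := mul_one _

theorem h4_fubini {r : ℝ} {g : EE n → ℝ} (hg : Continuous g)
    (hgc : HasCompactSupport g) (μ : Measure (EE n)) [IsFiniteMeasure μ] :
    ∫ x, g x * ∫ y, phr r x y ∂μ = ∫ y, (∫ x, g x * phr r x y) ∂μ := by
  have h1 := integral_integral_swap (f := fun x y : EE n => g x * phr r x y)
    (h4_prod_int (r := r) hg hgc μ)
  rw [← h1]
  refine integral_congr_ae (Eventually.of_forall fun x => ?_)
  simp only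
  rw [integral_const_mul]

theorem h4_left_int {r : ℝ} {g : EE n → ℝ} (hg : Continuous g)
    (hgc : HasCompactSupport g) (μ : Measure (EE n)) [IsFiniteMeasure μ] :
    Integrable (fun x => g x * ∫ y, phr r x y ∂μ) := by
  have h1 := (h4_prod_int (r := r) hg hgc μ).integral_prod_left
  refine h1.congr (Eventually.of_forall fun x => ?_)
  simp only
  rw [integral_const_mul]

/-- averaging over the centres -/
theorem h4_conv (hn : 2 ≤ n) {g : EE n → ℝ} (hg : Continuous g) (hgc : HasCompactSupport g)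
    {η : ℝ} (hη : 0 < η) : ∃ r₁ : ℝ, 0 < r₁ ∧ ∀ r : ℝ, 0 < r → r < r₁ →
      ∀ (μ : Measure (EE n)) [IsProbabilityMeasure μ],
      |(∫ x, g x * ∫ y, phr r x y ∂μ) - r ^ n * (∫ y : EE n, wt 3 y) * ∫ y, g y ∂μ| ≤
        η * (r ^ n * ∫ y : EE n, wt 3 y) := by
  have huc : UniformContinuous g := hgc.uniformContinuous_of_continuous hg
  rw [Metric.uniformContinuous_iff] at huc
  obtain ⟨δ, hδ, hδ2⟩ := huc η hη
  refine ⟨δ, hδ, fun r hr hrδ μ hμ => ?_⟩
  rw [h4_fubini hg hgc μ]
  have hc3 : 0 < ∫ y : EE n, wt 3 y := wt_integral_pos hn 3 (by norm_num)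
  have hin : ∀ y : EE n, |(∫ x, g x * phr r x y) - r ^ n * (∫ y : EE n, wt 3 y) * g y| ≤
      η * (r ^ n * ∫ y : EE n, wt 3 y) := by
    intro y
    have hi1 : Integrable (fun x => g x * phr r x y) :=
      Continuous.integrable_of_hasCompactSupport (hg.mul (h4_cont_left r y)) hgc.mul_right
    have e1 : (∫ x, g x * phr r x y) - r ^ n * (∫ y : EE n, wt 3 y) * g y =
        ∫ x, (g x - g y) * phr r x y := by
      rw [← h4_cr hr y, mul_comm (∫ x, phr r x y) (g y), ← integral_const_mul,
        ← integral_sub hi1 ((h4_phr_int hr y).const_mul _)]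
      refine integral_congr_ae (Eventually.of_forall fun x => ?_)
      simp only
      ring
    rw [e1, ← h4_cr hr y, ← integral_const_mul]
    have h2 := norm_integral_le_of_norm_le (f := fun x => (g x - g y) * phr r x y)
      (g := fun x => η * phr r x y) ((h4_phr_int hr y).const_mul _)
      (Eventually.of_forall fun x => ?_)
    · rw [Real.norm_eq_abs] at h2; exact h2
    · rw [norm_mul, Real.norm_eq_abs, Real.norm_eq_abs, abs_of_nonneg (h3_nonneg _ _ _)]
      rcases le_or_gt r (dist y x) with h | h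
      · rw [h3_zero hr h]; simp
      · refine mul_le_mul_of_nonneg_right ?_ (h3_nonneg _ _ _)
        have := hδ2 (a := x) (b := y) (by rw [dist_comm]; linarith)
        rw [Real.dist_eq] at this
        exact this.le
  have hi2 : Integrable (fun y => ∫ x, g x * phr r x y) μ :=
    (h4_prod_int (r := r) hg hgc μ).integral_prod_right
  have hi3 : Integrable g μ := hg.integrable_of_hasCompactSupport hgc
  rw [← integral_const_mul, ← integral_sub hi2 (hi3.const_mul _)]
  have h3 := norm_integral_le_of_norm_le_const (μ := μ)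
    (f := fun y => (∫ x, g x * phr r x y) - r ^ n * (∫ y : EE n, wt 3 y) * g y)
    (C := η * (r ^ n * ∫ y : EE n, wt 3 y)) (Eventually.of_forall fun y => hin y)
  rw [Real.norm_eq_abs] at h3
  simpa using h3

theorem identify_away (hn : 2 ≤ n) {Ω : Set (EE n)} {ν : EE n → EE n} {d : ℝ → EE n}
    {ε : ℝ → ℝ} {P : EE n} (hg : GoodDom Ω ν d ε P) {G k : EE n → ℝ} (hG : Continuous G)
    (hG0 : ∀ x, x ∉ Ω → G x = 0) (hk : BdryExp Ω ν G k) {ω : Measure (EE n)}
    [IsProbabilityMeasure ω] (hsupp : ω (frontier Ω)ᶜ = 0) {c : ℝ} (hc : 0 < c)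
    (hrep : ∀ φ : EE n → ℝ, ContDiff ℝ 2 φ → HasCompactSupport φ →
      (∀ x ∈ tsupport φ, infDist x (frontier Ω) ≤ 2) → c * ∫ x, φ x ∂ω = ∫ x, G x * Δ φ x)
    {H : EE n → ℝ} (hH : Continuous H) (hHk : ∀ z ∈ frontier Ω, z ≠ 0 → H z = k (-z) / k z)
    {f : EE n → ℝ} (hf : Continuous f) (hfc : HasCompactSupport f)
    (hf0 : (0 : EE n) ∉ tsupport f) :
    ∫ y, f y ∂(ω.map (fun y => -y)) = ∫ y, f y * H y ∂ω := by
  haveI : IsProbabilityMeasure (ω.map (fun y : EE n => -y)) :=
    Measure.isProbabilityMeasure_map measurable_neg.aemeasurable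
  obtain ⟨M, hM⟩ := hfc.exists_bound_of_continuous hf
  have hM0 : 0 ≤ M := (norm_nonneg _).trans (hM 0)
  have hfH : Continuous (fun y => f y * H y) := hf.mul hH
  have hfHc : HasCompactSupport (fun y => f y * H y) := hfc.mul_right
  set c3 := ∫ y : EE n, wt 3 y with hc3
  have hc30 : 0 < c3 := wt_integral_pos hn 3 (by norm_num)
  have key : ∀ η : ℝ, 0 < η →
      |(∫ y, f y ∂(ω.map (fun y => -y))) - ∫ y, f y * H y ∂ω| ≤ η * (2 + M * 8 ^ n) := by
    intro η hη
    obtain ⟨r₁, hr₁, h1⟩ := h4_conv hn hf hfc hη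
    obtain ⟨r₂, hr₂, h2⟩ := h4_conv hn hfH hfHc hη
    obtain ⟨r₃, hr₃, h3⟩ := local_compare hn hg hG hG0 hk hsupp hc hrep hfc hf0 hH
      (fun z hz hz0 _ => hHk z hz hz0) η hη
    obtain ⟨r, hr, hrlt⟩ : ∃ r : ℝ, 0 < r ∧ r < min r₁ (min r₂ r₃) :=
      ⟨min r₁ (min r₂ r₃) / 2, by positivity, by
        have : 0 < min r₁ (min r₂ r₃) := by positivity
        linarith⟩
    have a1 := h1 r hr (hrlt.trans_le (min_le_left _ _)) (ω.map (fun y => -y))
    have a2 := h2 r hr (hrlt.trans_le ((min_le_right _ _).trans (min_le_left _ _))) ω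
    have a3 := h3 r hr (hrlt.trans_le ((min_le_right _ _).trans (min_le_right _ _)))
    set R := r ^ n * c3 with hR
    have hR0 : 0 < R := by positivity
    have b3 : |(∫ x, f x * ∫ y, phr r x y ∂(ω.map (fun y => -y))) -
        ∫ x, f x * H x * ∫ y, phr r x y ∂ω| ≤ η * (M * 8 ^ n) * R := by
      rw [← integral_sub (h4_left_int hf hfc _) (h4_left_int hfH hfHc ω)]
      have hi := (h4_left_int (r := 8 * r) hf.abs hfc.abs ω).const_mul η
      have h4 := norm_integral_le_of_norm_le
        (f := fun x => f x * (∫ y, phr r x y ∂(ω.map (fun y => -y))) -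
          f x * H x * ∫ y, phr r x y ∂ω)
        (g := fun x => η * (|f x| * ∫ y, phr (8 * r) x y ∂ω)) hi
        (Eventually.of_forall fun x => ?_)
      · rw [Real.norm_eq_abs] at h4
        refine h4.trans ?_
        rw [integral_const_mul, h4_fubini hf.abs hfc.abs ω]
        have h5 : ∀ y : EE n, ‖∫ x, |f x| * phr (8 * r) x y‖ ≤ M * ((8 * r) ^ n * c3) := by
          intro y
          rw [hc3, ← h4_cr (by positivity : 0 < 8 * r) y, ← integral_const_mul]
          refine norm_integral_le_of_norm_le ((h4_phr_int (by positivity) y).const_mul _)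
            (Eventually.of_forall fun x => ?_)
          rw [norm_mul, Real.norm_eq_abs, Real.norm_eq_abs, abs_abs,
            abs_of_nonneg (h3_nonneg _ _ _)]
          exact mul_le_mul_of_nonneg_right (hM x) (h3_nonneg _ _ _)
        have h6 := norm_integral_le_of_norm_le_const (μ := ω)
          (f := fun y => ∫ x, |f x| * phr (8 * r) x y) (Eventually.of_forall h5)
        have h7 : (∫ y, (∫ x, |f x| * phr (8 * r) x y) ∂ω) ≤ M * ((8 * r) ^ n * c3) := by
          refine (le_abs_self _).trans ?_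
          rw [← Real.norm_eq_abs]
          simpa using h6
        calc η * (∫ y, (∫ x, |f x| * phr (8 * r) x y) ∂ω) ≤ η * (M * ((8 * r) ^ n * c3)) :=
              mul_le_mul_of_nonneg_left h7 hη.le
          _ = η * (M * 8 ^ n) * R := by rw [hR, mul_pow]; ring
      · by_cases hx : x ∈ tsupport f
        · have h5 := a3 x hx
          change |(∫ y, phr r x y ∂(ω.map (fun y => -y))) - H x * ∫ y, phr r x y ∂ω| ≤
            η * ∫ y, phr (8 * r) x y ∂ω at h5
          have e : f x * (∫ y, phr r x y ∂(ω.map (fun y => -y))) -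
              f x * H x * ∫ y, phr r x y ∂ω =
              f x * ((∫ y, phr r x y ∂(ω.map (fun y => -y))) - H x * ∫ y, phr r x y ∂ω) := by
            ring
          rw [Real.norm_eq_abs, e, abs_mul]
          calc |f x| * |(∫ y, phr r x y ∂(ω.map (fun y => -y))) - H x * ∫ y, phr r x y ∂ω| ≤
              |f x| * (η * ∫ y, phr (8 * r) x y ∂ω) :=
                mul_le_mul_of_nonneg_left h5 (abs_nonneg _)
            _ = η * (|f x| * ∫ y, phr (8 * r) x y ∂ω) := by ring
        · rw [image_eq_zero_of_notMem_tsupport hx]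
          simp
    have e1 : R * ((∫ y, f y ∂(ω.map (fun y => -y))) - ∫ y, f y * H y ∂ω) =
        -((∫ x, f x * ∫ y, phr r x y ∂(ω.map (fun y => -y))) -
          R * ∫ y, f y ∂(ω.map (fun y => -y))) +
        ((∫ x, f x * ∫ y, phr r x y ∂(ω.map (fun y => -y))) -
          ∫ x, f x * H x * ∫ y, phr r x y ∂ω) +
        ((∫ x, f x * H x * ∫ y, phr r x y ∂ω) - R * ∫ y, f y * H y ∂ω) := by ring
    have e2 : R * |(∫ y, f y ∂(ω.map (fun y => -y))) - ∫ y, f y * H y ∂ω| ≤
        R * (η * (2 + M * 8 ^ n)) := by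
      rw [← abs_of_pos hR0, ← abs_mul, abs_of_pos hR0, e1]
      refine (abs_add_le _ _).trans ?_
      have := abs_add_le (-((∫ x, f x * ∫ y, phr r x y ∂(ω.map (fun y => -y))) -
          R * ∫ y, f y ∂(ω.map (fun y => -y))))
        ((∫ x, f x * ∫ y, phr r x y ∂(ω.map (fun y => -y))) -
          ∫ x, f x * H x * ∫ y, phr r x y ∂ω)
      rw [abs_neg] at this
      nlinarith
    exact le_of_mul_le_mul_left e2 hR0
  have hz : (∫ y, f y ∂(ω.map (fun y => -y))) - ∫ y, f y * H y ∂ω = 0 := by
    rw [← abs_eq_zero]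
    refine le_antisymm ?_ (abs_nonneg _)
    refine le_of_forall_pos_le_add fun ε' hε' => ?_
    have hB : 0 < 2 + M * 8 ^ n := by positivity
    have := key (ε' / (2 + M * 8 ^ n)) (by positivity)
    rw [div_mul_cancel₀ _ hB.ne'] at this
    linarith
  linarith

end Pool.Agent.Lib.MP_47b33c_an
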