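import Pool.Agent.Lib.MP_47b33c_an.Defs

/-!
# The Laplacian at a local maximum, the weak maximum principle
-/

set_option autoImplicit false

open MeasureTheory Metric Set Filter Topology InnerProductSpace
open scoped RealInnerProductSpace Laplacian

namespace Pool.Agent.Lib.MP_47b33c_an

variable {n : ℕ}

private theorem a2_line (x v : EE n) (t : ℝ) : HasDerivAt (fun t : ℝ => x + t • v) v t := by
  simpa using ((hasDerivAt_id t).smul_const v).const_add x

private theorem a2_first {u : EE n → ℝ} {x : EE n} (hu : ContDiffAt ℝ 2 u x) (v : EE n) :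
    ∀ᶠ t in 𝓝 (0 : ℝ), HasDerivAt (fun t : ℝ => u (x + t • v)) (fderiv ℝ u (x + t • v) v) t := by
  have h1 : ∀ᶠ y in 𝓝 x, ContDiffAt ℝ 2 u y := hu.eventually (by simp)
  have h2 : Tendsto (fun t : ℝ => x + t • v) (𝓝 0) (𝓝 x) := by
    have h : Continuous fun t : ℝ => x + t • v := by fun_prop
    simpa using h.tendsto 0
  filter_upwards [h2.eventually h1] with t ht
  have h3 : HasFDerivAt u (fderiv ℝ u (x + t • v)) (x + t • v) :=
    (ht.differentiableAt (by simp)).hasFDerivAt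
  exact h3.comp_hasDerivAt t (a2_line x v t)

private theorem a2_second {u : EE n → ℝ} {x : EE n} (hu : ContDiffAt ℝ 2 u x) (v : EE n) :
    HasDerivAt (fun t : ℝ => fderiv ℝ u (x + t • v) v) (iteratedFDeriv ℝ 2 u x ![v, v]) 0 := by
  have h1 : DifferentiableAt ℝ (fderiv ℝ u) x :=
    (hu.fderiv_right (m := 1) (by norm_num)).differentiableAt (by simp)
  have h2 : HasFDerivAt (fderiv ℝ u) (fderiv ℝ (fderiv ℝ u) x) (x + (0 : ℝ) • v) := by
    simpa using h1.hasFDerivAt
  have h3 := h2.comp_hasDerivAt (0 : ℝ) (a2_line x v 0)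
  have h4 := h3.clm_apply (hasDerivAt_const (0 : ℝ) v)
  rw [iteratedFDeriv_two_apply]
  simpa using h4

theorem lap_nonpos_of_isLocalMax {u : EE n → ℝ} {x : EE n} (hu : ContDiffAt ℝ 2 u x)
    (h : IsLocalMax u x) : Δ u x ≤ 0 := by
  rw [laplacian_eq_iteratedFDeriv_orthonormalBasis u (EuclideanSpace.basisFun (Fin n) ℝ)]
  refine Finset.sum_nonpos fun i _ => ?_
  set v : EE n := EuclideanSpace.basisFun (Fin n) ℝ i with hv
  set φ : ℝ → ℝ := fun t => u (x + t • v) with hφ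
  have h1 := a2_first hu v
  have h2 := a2_second hu v
  have hcont : Tendsto (fun t : ℝ => x + t • v) (𝓝 0) (𝓝 x) := by
    have h : Continuous fun t : ℝ => x + t • v := by fun_prop
    simpa using h.tendsto 0
  have hmax : IsLocalMax φ 0 := by
    have h3 : ∀ᶠ t in 𝓝 (0 : ℝ), u (x + t • v) ≤ u x := hcont.eventually h
    have h4 : φ 0 = u x := by simp [hφ]
    filter_upwards [h3] with t ht
    rw [h4]
    exact ht
  have hd0 : deriv φ 0 = 0 := hmax.deriv_eq_zero
  have hφ' : deriv φ =ᶠ[𝓝 0] fun t => fderiv ℝ u (x + t • v) v := by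
    filter_upwards [h1] with t ht
    exact ht.deriv
  have hdd : deriv (deriv φ) 0 = iteratedFDeriv ℝ 2 u x ![v, v] := by
    rw [hφ'.deriv_eq]
    exact h2.deriv
  by_contra hpos
  push Not at hpos
  rw [← hdd] at hpos
  have hmin : IsLocalMin φ 0 := isLocalMin_of_deriv_deriv_pos hpos hd0
    (h1.self_of_nhds.continuousAt)
  have hconst : φ =ᶠ[𝓝 0] fun _ => φ 0 := by
    filter_upwards [hmax, hmin] with t ha hb
    exact le_antisymm ha hb
  have hz : deriv φ =ᶠ[𝓝 0] fun _ => 0 := by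
    filter_upwards [hconst.eventuallyEq_nhds] with t ht
    rw [ht.deriv_eq]
    simp
  rw [hz.deriv_eq] at hpos
  simp at hpos

private theorem a2_normsq (x : EE n) : Δ (fun y : EE n => ‖y‖ ^ 2) x = 2 * n := by
  have hc : ContDiff ℝ 2 (fun y : EE n => ‖y‖ ^ 2) := contDiff_norm_sq ℝ
  rw [laplacian_eq_iteratedFDeriv_orthonormalBasis _ (EuclideanSpace.basisFun (Fin n) ℝ)]
  have h : ∀ i : Fin n, iteratedFDeriv ℝ 2 (fun y : EE n => ‖y‖ ^ 2) x
      ![EuclideanSpace.basisFun (Fin n) ℝ i, EuclideanSpace.basisFun (Fin n) ℝ i] = 2 := by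
    intro i
    set v : EE n := EuclideanSpace.basisFun (Fin n) ℝ i with hv
    have hvn : ‖v‖ = 1 := (EuclideanSpace.basisFun (Fin n) ℝ).orthonormal.1 i
    have h1 := a2_second (hc.contDiffAt (x := x)) v
    have h2 : ∀ y : EE n, fderiv ℝ (fun y : EE n => ‖y‖ ^ 2) y v = 2 * ⟪y, v⟫ := by
      intro y
      have h3 := (hasStrictFDerivAt_norm_sq y).hasFDerivAt.fderiv
      rw [h3]
      simp
    have h4 : (fun t : ℝ => fderiv ℝ (fun y : EE n => ‖y‖ ^ 2) (x + t • v) v) =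
        fun t : ℝ => 2 * ⟪x, v⟫ + t * 2 := by
      funext t
      rw [h2, inner_add_left, real_inner_smul_left, real_inner_self_eq_norm_sq, hvn]
      ring
    rw [h4] at h1
    have h5 : HasDerivAt (fun t : ℝ => 2 * ⟪x, v⟫ + t * 2) 2 0 := by
      simpa using ((hasDerivAt_id (0 : ℝ)).mul_const 2).const_add (2 * ⟪x, v⟫)
    exact h1.unique h5
  simp only [h]
  simp [mul_comm]

theorem weak_max (hn : 2 ≤ n) {D : Set (EE n)} (hD : IsOpen D) (hb : Bornology.IsBounded D)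
    {u : EE n → ℝ} (hc : ContinuousOn u (closure D)) (h2 : ∀ x ∈ D, ContDiffAt ℝ 2 u x)
    (hl : ∀ x ∈ D, 0 ≤ Δ u x) (hf : ∀ x ∈ frontier D, u x ≤ 0) : ∀ x ∈ closure D, u x ≤ 0 := by
  intro x0 hx0
  by_contra hpos
  push Not at hpos
  obtain ⟨R, hR⟩ := (isBounded_iff_forall_norm_le.1 hb.closure)
  have hR0 : 0 ≤ R := (norm_nonneg _).trans (hR x0 hx0)
  have hcomp : IsCompact (closure D) := hb.isCompact_closure
  set ε : ℝ := u x0 / (2 * (R ^ 2 + 1)) with hε
  have hε0 : 0 < ε := by positivity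
  set v : EE n → ℝ := u + ε • fun y : EE n => ‖y‖ ^ 2 with hv
  have hvx : ∀ x, v x = u x + ε * ‖x‖ ^ 2 := fun x => rfl
  have hvc : ContinuousOn v (closure D) := by
    have h : Continuous fun y : EE n => ε * ‖y‖ ^ 2 := by fun_prop
    exact hc.add h.continuousOn
  obtain ⟨x1, hx1, hmax⟩ := hcomp.exists_isMaxOn ⟨x0, hx0⟩ hvc
  have hεR : ε * R ^ 2 < u x0 := by
    have h1 : ε * (2 * (R ^ 2 + 1)) = u x0 := by
      rw [hε]
      field_simp
    nlinarith [sq_nonneg R]
  have hnR : ∀ x ∈ closure D, ‖x‖ ^ 2 ≤ R ^ 2 := fun x hx =>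
    pow_le_pow_left₀ (norm_nonneg _) (hR x hx) 2
  have hv1 : ε * R ^ 2 < v x1 := by
    have h1 : v x0 ≤ v x1 := hmax hx0
    have h2 : u x0 ≤ v x0 := by
      rw [hvx]
      have : 0 ≤ ε * ‖x0‖ ^ 2 := by positivity
      linarith
    linarith
  have hxD : x1 ∈ D := by
    by_contra hn'
    have hfr : x1 ∈ frontier D := ⟨hx1, by rwa [hD.interior_eq]⟩
    have h1 := hf x1 hfr
    have h2 := hvx x1
    have h3 : ε * ‖x1‖ ^ 2 ≤ ε * R ^ 2 := mul_le_mul_of_nonneg_left (hnR x1 hx1) hε0.le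
    linarith
  have hloc : IsLocalMax v x1 := by
    filter_upwards [hD.mem_nhds hxD] with y hy
    exact hmax (subset_closure hy)
  have hq : ContDiffAt ℝ 2 (ε • fun y : EE n => ‖y‖ ^ 2) x1 :=
    ((contDiff_norm_sq ℝ).contDiffAt (x := x1)).const_smul ε
  have hle : Δ (u + ε • fun y : EE n => ‖y‖ ^ 2) x1 ≤ 0 :=
    lap_nonpos_of_isLocalMax ((h2 x1 hxD).add hq) hloc
  rw [(h2 x1 hxD).laplacian_add hq] at hle
  have hsm : Δ (ε • fun y : EE n => ‖y‖ ^ 2) x1 = ε * (2 * n) := by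
    rw [laplacian_smul ε ((contDiff_norm_sq ℝ).contDiffAt (x := x1)), a2_normsq, smul_eq_mul]
  rw [hsm] at hle
  have h3 := hl x1 hxD
  have h4 : 0 < ε * (2 * n) := by
    have : (0 : ℝ) < n := by
      have : 0 < n := by omega
      exact_mod_cast this
    positivity
  linarith

end Pool.Agent.Lib.MP_47b33c_an
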