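import Pool.Agent.Lib.MP_47b33c_an.Rad
import Pool.Agent.Lib.MP_47b33c_an.MaxP
import Pool.Agent.Lib.MP_47b33c_an.HLim

/-!
# Normalisation of the Poisson kernel
-/

set_option autoImplicit false

open MeasureTheory Metric Set Filter Topology InnerProductSpace
open scoped RealInnerProductSpace Laplacian

namespace Pool.Agent.Lib.MP_47b33c_an

variable {n : ℕ}

theorem a9_norm {t : EE n} (ht : t ≠ 0) : ‖‖t‖⁻¹ • t‖ = 1 := by
  have h : ‖t‖ ≠ 0 := norm_ne_zero_iff.mpr ht
  rw [norm_smul, norm_inv, norm_norm]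
  exact inv_mul_cancel₀ h

/-- the Poisson kernel, with value `0` at `t = 0` -/
noncomputable def a9_K (t x : EE n) : ℝ :=
  if t = 0 then 0 else (1 - ‖x‖ ^ 2) / ‖x - ‖t‖⁻¹ • t‖ ^ n

theorem a9_K_measurable : Measurable (Function.uncurry (a9_K (n := n))) := by
  unfold a9_K Function.uncurry
  apply Measurable.ite
  · exact measurableSet_eq_fun measurable_fst measurable_const
  · exact measurable_const
  · fun_prop

theorem a9_K_harmonic (hn : 2 ≤ n) (t : EE n) : HarmonicOnNhd (a9_K t) (ball (0 : EE n) 1) := by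
  unfold a9_K
  by_cases ht : t = 0
  · simp only [ht, if_true]
    exact harmonicOnNhd_const 0
  · simp only [ht, if_false]
    apply (harmonic_poisson hn (‖t‖⁻¹ • t) (a9_norm ht)).mono
    intro x hx
    rw [mem_ball_zero_iff] at hx
    intro he
    rw [he, a9_norm ht] at hx
    exact lt_irrefl _ hx

theorem a9_K_bound (t y : EE n) {ρ : ℝ} (hρ : ρ < 1) (hy : ‖y‖ ≤ ρ) :
    |a9_K t y| ≤ 1 / (1 - ρ) ^ n := by
  have hρ0 : 0 ≤ ρ := (norm_nonneg y).trans hy
  unfold a9_K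
  split_ifs with ht
  · rw [abs_zero]
    have : 0 < 1 - ρ := by linarith
    positivity
  · have h1 : 1 - ρ ≤ ‖y - ‖t‖⁻¹ • t‖ := by
      have := norm_sub_norm_le (‖t‖⁻¹ • t) y
      rw [a9_norm ht, norm_sub_rev] at this
      linarith
    have h2 : 0 < 1 - ρ := by linarith
    have h3 : ‖y‖ ^ 2 ≤ 1 := by
      have : ‖y‖ ≤ 1 := by linarith
      nlinarith [norm_nonneg y]
    have h4 : 0 ≤ (1 - ‖y‖ ^ 2) / ‖y - ‖t‖⁻¹ • t‖ ^ n := by
      apply div_nonneg (by linarith)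
      positivity
    rw [abs_of_nonneg h4]
    apply div_le_div₀ (by norm_num)
    · nlinarith [sq_nonneg ‖y‖]
    · positivity
    · exact pow_le_pow_left₀ h2.le h1 n

/-- the Poisson integral of `1` -/
noncomputable def a9_v (x : EE n) : ℝ := ∫ t in ball (0 : EE n) 1, a9_K t x

theorem a9_v_harmonic (hn : 2 ≤ n) : HarmonicOnNhd (a9_v (n := n)) (ball (0 : EE n) 1) := by
  have : IsFiniteMeasure ((volume : Measure (EE n)).restrict (ball (0 : EE n) 1)) :=
    ⟨by rw [Measure.restrict_apply_univ]; exact measure_ball_lt_top⟩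
  apply harmonic_integral hn _ a9_K_measurable isOpen_ball (a9_K_harmonic hn)
  intro x hx
  rw [mem_ball_zero_iff] at hx
  obtain ⟨ρ, hρ1, hρ2⟩ := exists_between hx
  refine ⟨1 / (1 - ρ) ^ n, ?_⟩
  have h1 : ∀ᶠ y in 𝓝 x, ‖y‖ < ρ := (continuous_norm.tendsto x).eventually (gt_mem_nhds hρ1)
  filter_upwards [h1] with y hy t
  exact a9_K_bound t y hρ2 hy.le

theorem a9_v_iso (e : EE n ≃ₗᵢ[ℝ] EE n) (x : EE n) : a9_v (e x) = a9_v x := by
  unfold a9_v
  have h1 := (e.measurePreserving).setIntegral_preimage_emb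
    e.toHomeomorph.measurableEmbedding (fun t => a9_K t (e x)) (ball (0 : EE n) 1)
  have h2 : (e : EE n → EE n) ⁻¹' (ball (0 : EE n) 1) = ball (0 : EE n) 1 := by
    ext y
    simp
  rw [h2] at h1
  rw [← h1]
  congr 1
  ext t
  unfold a9_K
  have h3 : (e t = 0) ↔ t = 0 := by simp
  simp only [h3, e.norm_map]
  rw [← map_smul, ← map_sub, e.norm_map]

theorem a9_v_norm {x y : EE n} (h : ‖x‖ = ‖y‖) : a9_v x = a9_v y := by
  have h1 := Submodule.reflection_sub h
  rw [← h1]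
  exact (a9_v_iso _ x).symm

theorem a9_v_zero (hn : 2 ≤ n) : a9_v (0 : EE n) = (volume (ball (0 : EE n) 1)).toReal := by
  have : Nonempty (Fin n) := ⟨⟨0, by omega⟩⟩
  unfold a9_v
  have h1 : ∀ᵐ t ∂((volume : Measure (EE n)).restrict (ball (0 : EE n) 1)), a9_K t 0 = 1 := by
    apply ae_restrict_of_ae
    have h2 : ∀ᵐ t ∂(volume : Measure (EE n)), t ≠ 0 := by
      rw [ae_iff]
      simp
    filter_upwards [h2] with t ht
    unfold a9_K
    rw [if_neg ht]
    simp only [norm_zero, zero_sub, norm_neg, a9_norm ht]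
    simp
  rw [integral_congr_ae h1]
  simp
  rfl

theorem poisson_norm (hn : 2 ≤ n) {x : EE n} (hx : ‖x‖ < 1) :
    ∫ t in ball (0 : EE n) 1, (1 - ‖x‖ ^ 2) / ‖x - ‖t‖⁻¹ • t‖ ^ n =
      (volume (ball (0 : EE n) 1)).toReal := by
  have : Nonempty (Fin n) := ⟨⟨0, by omega⟩⟩
  have h0 : ∫ t in ball (0 : EE n) 1, (1 - ‖x‖ ^ 2) / ‖x - ‖t‖⁻¹ • t‖ ^ n = a9_v x := by
    unfold a9_v
    apply integral_congr_ae
    apply ae_restrict_of_ae
    have h2 : ∀ᵐ t ∂(volume : Measure (EE n)), t ≠ 0 := by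
      rw [ae_iff]
      simp
    filter_upwards [h2] with t ht
    unfold a9_K
    rw [if_neg ht]
  rw [h0, ← a9_v_zero hn]
  by_cases hx0 : x = 0
  · rw [hx0]
  have hr : 0 < ‖x‖ := norm_pos_iff.mpr hx0
  have hh := a9_v_harmonic hn
  have hsub : closedBall (0 : EE n) ‖x‖ ⊆ ball (0 : EE n) 1 := closedBall_subset_ball hx
  have hcl : closure (ball (0 : EE n) ‖x‖) = closedBall 0 ‖x‖ := closure_ball _ hr.ne'
  have hfr : frontier (ball (0 : EE n) ‖x‖) = sphere 0 ‖x‖ := frontier_ball _ hr.ne'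
  have h1 : HarmonicOnNhd (fun y => a9_v y - a9_v x) (ball (0 : EE n) 1) :=
    hh.sub (harmonicOnNhd_const _)
  have h2 : HarmonicOnNhd (fun y => a9_v x - a9_v y) (ball (0 : EE n) 1) :=
    (harmonicOnNhd_const _).sub hh
  have hz : (0 : EE n) ∈ closure (ball (0 : EE n) ‖x‖) := subset_closure (mem_ball_self hr)
  have hmem : ∀ y ∈ ball (0 : EE n) ‖x‖, y ∈ ball (0 : EE n) 1 :=
    fun y hy => hsub (ball_subset_closedBall hy)
  have e1 := weak_max hn isOpen_ball isBounded_ball (u := fun y => a9_v y - a9_v x)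
    (by rw [hcl]; exact (h1.mono hsub).continuousOn)
    (fun y hy => (h1 y (hmem y hy)).1)
    (fun y hy => (h1 y (hmem y hy)).2.self_of_nhds.ge)
    (fun y hy => by
      rw [hfr, mem_sphere_zero_iff_norm] at hy
      rw [a9_v_norm hy, sub_self]) 0 hz
  have e2 := weak_max hn isOpen_ball isBounded_ball (u := fun y => a9_v x - a9_v y)
    (by rw [hcl]; exact (h2.mono hsub).continuousOn)
    (fun y hy => (h2 y (hmem y hy)).1)
    (fun y hy => (h2 y (hmem y hy)).2.self_of_nhds.ge)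
    (fun y hy => by
      rw [hfr, mem_sphere_zero_iff_norm] at hy
      rw [a9_v_norm hy, sub_self]) 0 hz
  linarith

end Pool.Agent.Lib.MP_47b33c_an
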