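import Pool.Agent.Lib.MP_47b33c_an.Rad
import Pool.Agent.Lib.MP_47b33c_an.HLim
import Pool.Agent.Lib.MP_47b33c_an.PoissonK

/-!
# The Dirichlet problem on balls
-/

set_option autoImplicit false

open MeasureTheory Metric Set Filter Topology InnerProductSpace
open scoped RealInnerProductSpace Laplacian

namespace Pool.Agent.Lib.MP_47b33c_an

variable {n : ℕ}

private theorem a10_inv_norm {t : EE n} (ht : t ≠ 0) : ‖‖t‖⁻¹ • t‖ = 1 := by
  rw [norm_smul, norm_inv, norm_norm, inv_mul_cancel₀ (norm_ne_zero_iff.2 ht)]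

/-- lower bound for the distance to a point of the unit sphere -/
private theorem a10_dist {x ζ : EE n} (hζ : ‖ζ‖ = 1) : 1 - ‖x‖ ≤ ‖x - ζ‖ := by
  have h := norm_sub_norm_le ζ x
  rw [hζ, norm_sub_rev] at h
  exact h

private theorem a10_kernel_nonneg {x ζ : EE n} (hx : ‖x‖ < 1) :
    0 ≤ (1 - ‖x‖ ^ 2) / ‖x - ζ‖ ^ n := by
  have h : 0 ≤ 1 - ‖x‖ ^ 2 := by nlinarith [norm_nonneg x]
  positivity

private theorem a10_kernel_le {x ζ : EE n} {ρ : ℝ} (hρ : 0 < ρ) (hx : ‖x‖ < 1)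
    (h : ρ ≤ ‖x - ζ‖) : (1 - ‖x‖ ^ 2) / ‖x - ζ‖ ^ n ≤ (1 - ‖x‖ ^ 2) * (ρ⁻¹) ^ n := by
  have h0 : 0 ≤ 1 - ‖x‖ ^ 2 := by nlinarith [norm_nonneg x]
  rw [div_eq_mul_inv, inv_pow]
  refine mul_le_mul_of_nonneg_left ?_ h0
  exact inv_anti₀ (by positivity) (pow_le_pow_left₀ hρ.le h n)

private theorem a10_meas (F : EE n → ℝ) (hF : Continuous F) :
    Measurable (Function.uncurry fun (t x : EE n) =>
      if t = 0 then 0 else (1 - ‖x‖ ^ 2) / ‖x - ‖t‖⁻¹ • t‖ ^ n * F (‖t‖⁻¹ • t)) := by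
  have h1 : Measurable fun p : EE n × EE n => ‖p.1‖⁻¹ • p.1 :=
    (measurable_fst.norm.inv).smul measurable_fst
  have h2 : MeasurableSet {p : EE n × EE n | p.1 = 0} :=
    (measurableSet_singleton (0 : EE n)).preimage measurable_fst
  refine Measurable.ite h2 measurable_const ?_
  refine Measurable.mul ?_ (hF.measurable.comp h1)
  refine Measurable.div ?_ ?_
  · exact measurable_const.sub (measurable_snd.norm.pow_const 2)
  · exact (measurable_snd.sub h1).norm.pow_const n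

/-- the unit ball -/
private theorem a10_unit (hn : 2 ≤ n) {f : EE n → ℝ} (hf : ContinuousOn f (sphere 0 1)) :
    ∃ u : EE n → ℝ, ContinuousOn u (closedBall 0 1) ∧
      HarmonicOnNhd u (ball 0 1) ∧ ∀ x ∈ sphere (0 : EE n) 1, u x = f x := by
  have : Nonempty (Fin n) := ⟨⟨0, by omega⟩⟩
  -- a continuous extension
  obtain ⟨F, hF⟩ : ∃ F : C(EE n, ℝ), ∀ x ∈ sphere (0 : EE n) 1, F x = f x := by
    obtain ⟨g, hg⟩ := ContinuousMap.exists_restrict_eq (isClosed_sphere (x := (0 : EE n)) (ε := 1))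
      (⟨_, hf.domRestrict⟩ : C(sphere (0 : EE n) 1, ℝ))
    refine ⟨g, fun x hx => ?_⟩
    have := DFunLike.congr_fun hg ⟨x, hx⟩
    simpa using this
  have hFc : Continuous F := F.continuous
  obtain ⟨M, hM⟩ := (isCompact_sphere (0 : EE n) 1).exists_bound_of_continuousOn hFc.continuousOn
  have hM' : ∀ ζ : EE n, ‖ζ‖ = 1 → |F ζ| ≤ M := fun ζ hζ => by
    have := hM ζ (by simpa using hζ)
    rwa [Real.norm_eq_abs] at this
  have hM0 : 0 ≤ M := by
    let j : Fin n := ⟨0, by omega⟩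
    have h := hM' (EuclideanSpace.single j 1) (by simp)
    exact (abs_nonneg _).trans h
  set V : ℝ := (volume (ball (0 : EE n) 1)).toReal with hV
  have hVpos : 0 < V := ENNReal.toReal_pos (measure_ball_pos _ _ one_pos).ne'
    measure_ball_lt_top.ne
  set μ : Measure (EE n) := volume.restrict (ball (0 : EE n) 1) with hμ
  have : IsFiniteMeasure μ := ⟨by rw [hμ, Measure.restrict_apply_univ]; exact measure_ball_lt_top⟩
  have hμr : μ.real univ = V := by
    rw [Measure.real, hμ, Measure.restrict_apply_univ]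
  set K : EE n → EE n → ℝ := fun t x =>
    if t = 0 then 0 else (1 - ‖x‖ ^ 2) / ‖x - ‖t‖⁻¹ • t‖ ^ n * F (‖t‖⁻¹ • t) with hK
  have hKm : Measurable (Function.uncurry K) := a10_meas F hFc
  -- harmonicity
  have hharm : HarmonicOnNhd (fun x => ∫ t, K t x ∂μ) (ball (0 : EE n) 1) := by
    refine harmonic_integral hn μ hKm isOpen_ball ?_ ?_
    · intro t
      by_cases ht : t = 0
      · have : K t = fun _ => 0 := by
          funext x
          simp [hK, ht]
        rw [this]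
        exact harmonicOnNhd_const _
      · have h := (harmonic_poisson hn (‖t‖⁻¹ • t) (a10_inv_norm ht)).const_smul
          (c := F (‖t‖⁻¹ • t))
        have h' := h.mono (t := ball (0 : EE n) 1) (by
          intro x hx hxe
          rw [mem_ball_zero_iff, hxe, a10_inv_norm ht] at hx
          exact lt_irrefl _ hx)
        have he : K t = (F (‖t‖⁻¹ • t)) • fun x : EE n => (1 - ‖x‖ ^ 2) / ‖x - ‖t‖⁻¹ • t‖ ^ n := by
          funext x
          simp [hK, ht, mul_comm]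
        rw [he]
        exact h'
    · intro x hx
      rw [mem_ball_zero_iff] at hx
      set ρ : ℝ := (1 - ‖x‖) / 2 with hρ
      have hρ0 : 0 < ρ := by rw [hρ]; linarith
      refine ⟨1 * (ρ⁻¹) ^ n * M, ?_⟩
      have hev : ∀ᶠ y in 𝓝 x, ‖y‖ < 1 - ρ :=
        (continuous_norm.tendsto x).eventually_lt_const (by rw [hρ]; linarith)
      filter_upwards [hev] with y hy t
      by_cases ht : t = 0
      · simp only [hK, if_pos ht, abs_zero]
        positivity
      · simp only [hK, if_neg ht, abs_mul]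
        have hy1 : ‖y‖ < 1 := by linarith
        have h1 : |(1 - ‖y‖ ^ 2) / ‖y - ‖t‖⁻¹ • t‖ ^ n| ≤ 1 * (ρ⁻¹) ^ n := by
          rw [abs_of_nonneg (a10_kernel_nonneg hy1)]
          refine (a10_kernel_le hρ0 hy1 ?_).trans ?_
          · have := a10_dist (x := y) (a10_inv_norm ht)
            linarith
          · refine mul_le_mul_of_nonneg_right ?_ (by positivity)
            nlinarith [norm_nonneg y]
        exact mul_le_mul h1 (hM' _ (a10_inv_norm ht)) (abs_nonneg _) (by positivity)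
  -- almost every `t` is nonzero
  have hae : ∀ᵐ t ∂μ, t ≠ (0 : EE n) := by
    refine ae_restrict_of_ae ?_
    rw [ae_iff]
    simp
  -- integrability
  have hint : ∀ (x : EE n), ‖x‖ < 1 → ∀ (G : EE n → ℝ), Continuous G → ∀ M' : ℝ,
      (∀ ζ : EE n, ‖ζ‖ = 1 → |G ζ| ≤ M') →
      Integrable (fun t => (1 - ‖x‖ ^ 2) / ‖x - ‖t‖⁻¹ • t‖ ^ n * G (‖t‖⁻¹ • t)) μ := by
    intro x hx G hG M' hM'
    have h1 : Measurable fun t : EE n => ‖t‖⁻¹ • t := (measurable_norm.inv).smul measurable_id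
    have hmeas : Measurable fun t : EE n =>
        (1 - ‖x‖ ^ 2) / ‖x - ‖t‖⁻¹ • t‖ ^ n * G (‖t‖⁻¹ • t) := by
      refine Measurable.mul ?_ (hG.measurable.comp h1)
      exact measurable_const.div ((measurable_const.sub h1).norm.pow_const n)
    refine Integrable.of_bound hmeas.aestronglyMeasurable
      ((1 - ‖x‖ ^ 2) * ((1 - ‖x‖)⁻¹) ^ n * M') ?_
    filter_upwards [hae] with t ht
    rw [Real.norm_eq_abs, abs_mul, abs_of_nonneg (a10_kernel_nonneg hx)]
    refine mul_le_mul (a10_kernel_le (by linarith) hx (a10_dist (a10_inv_norm ht)))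
      (hM' _ (a10_inv_norm ht)) (abs_nonneg _) ?_
    have h0 : 0 ≤ 1 - ‖x‖ ^ 2 := by nlinarith [norm_nonneg x]
    have h1 : 0 < 1 - ‖x‖ := by linarith
    positivity
  have hpn : ∀ x : EE n, ‖x‖ < 1 →
      ∫ t, (1 - ‖x‖ ^ 2) / ‖x - ‖t‖⁻¹ • t‖ ^ n * (1 : ℝ) ∂μ = V := by
    intro x hx
    simp only [mul_one]
    exact poisson_norm hn hx
  have hKint : ∀ x : EE n, ∫ t, K t x ∂μ =
      ∫ t, (1 - ‖x‖ ^ 2) / ‖x - ‖t‖⁻¹ • t‖ ^ n * F (‖t‖⁻¹ • t) ∂μ := by
    intro x
    refine integral_congr_ae ?_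
    filter_upwards [hae] with t ht
    simp only [hK, if_neg ht]
  -- the solution
  set u : EE n → ℝ := fun x => if ‖x‖ < 1 then V⁻¹ * ∫ t, K t x ∂μ else F x with hu
  have hu1 : HarmonicOnNhd u (ball (0 : EE n) 1) := by
    intro x hx
    have h := (hharm.const_smul (c := V⁻¹)) x hx
    refine (harmonicAt_congr_nhds ?_).1 h
    filter_upwards [isOpen_ball.mem_nhds hx] with y hy
    rw [mem_ball_zero_iff] at hy
    simp only [hu, if_pos hy, Pi.smul_apply, smul_eq_mul]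
  have hu2 : ∀ x : EE n, ‖x‖ = 1 → u x = F x := by
    intro x hx
    have : ¬ ‖x‖ < 1 := by rw [hx]; exact lt_irrefl _
    simp only [hu, if_neg this]
  refine ⟨u, ?_, hu1, ?_⟩
  · intro z hz
    rw [mem_closedBall_zero_iff] at hz
    rcases hz.lt_or_eq with hz1 | hz1
    · have hzb : z ∈ ball (0 : EE n) 1 := by rwa [mem_ball_zero_iff]
      exact (hu1.continuousOn.continuousAt (isOpen_ball.mem_nhds hzb)).continuousWithinAt
    · -- a boundary point
      rw [Metric.continuousWithinAt_iff]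
      intro ε hε
      rw [hu2 z hz1]
      obtain ⟨δ, hδ0, hδ⟩ := Metric.continuousAt_iff.1 (hFc.continuousAt (x := z)) (ε / 2)
        (by positivity)
      -- the second part
      have hlim : Tendsto (fun x : EE n => 2 * M * (1 - ‖x‖ ^ 2) * ((δ / 2)⁻¹) ^ n) (𝓝 z)
          (𝓝 0) := by
        have h : Continuous fun x : EE n => 2 * M * (1 - ‖x‖ ^ 2) * ((δ / 2)⁻¹) ^ n := by
          fun_prop
        have h' := h.tendsto z
        simpa [hz1] using h'
      obtain ⟨η, hη0, hη⟩ := Metric.eventually_nhds_iff.1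
        (hlim.eventually_lt_const (show (0 : ℝ) < ε / 2 by positivity))
      refine ⟨min η (δ / 2), by positivity, ?_⟩
      intro x hx hxz
      rw [mem_closedBall_zero_iff] at hx
      have hxη : dist x z < η := lt_of_lt_of_le hxz (min_le_left _ _)
      have hxδ : dist x z < δ / 2 := lt_of_lt_of_le hxz (min_le_right _ _)
      rcases hx.lt_or_eq with hx1 | hx1
      · have hux : u x = V⁻¹ * ∫ t, (1 - ‖x‖ ^ 2) / ‖x - ‖t‖⁻¹ • t‖ ^ n * F (‖t‖⁻¹ • t) ∂μ := by
          simp only [hu, if_pos hx1]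
          rw [hKint x]
        have hdiff : u x - F z = V⁻¹ * ∫ t, (1 - ‖x‖ ^ 2) / ‖x - ‖t‖⁻¹ • t‖ ^ n *
            (F (‖t‖⁻¹ • t) - F z) ∂μ := by
          have h1 := hint x hx1 F hFc M hM'
          have h2 := hint x hx1 (fun _ => F z) continuous_const (|F z|) (fun _ _ => le_rfl)
          have h3 : ∫ t, (1 - ‖x‖ ^ 2) / ‖x - ‖t‖⁻¹ • t‖ ^ n * F z ∂μ = V * F z := by
            rw [integral_mul_const]
            have h4 := hpn x hx1
            simp only [mul_one] at h4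
            rw [h4]
          simp only [mul_sub]
          rw [integral_sub h1 h2, h3, hux, mul_sub, ← mul_assoc V⁻¹ V, inv_mul_cancel₀ hVpos.ne',
            one_mul]
        rw [Real.dist_eq, hdiff, abs_mul, abs_of_pos (inv_pos.2 hVpos)]
        have hp1 := hint x hx1 (fun _ => (1 : ℝ)) continuous_const 1 (by simp)
        have hbound : |∫ t, (1 - ‖x‖ ^ 2) / ‖x - ‖t‖⁻¹ • t‖ ^ n * (F (‖t‖⁻¹ • t) - F z) ∂μ| ≤
            ∫ t, (ε / 2 * ((1 - ‖x‖ ^ 2) / ‖x - ‖t‖⁻¹ • t‖ ^ n * (1 : ℝ)) +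
              2 * M * (1 - ‖x‖ ^ 2) * ((δ / 2)⁻¹) ^ n) ∂μ := by
          rw [← Real.norm_eq_abs]
          refine norm_integral_le_of_norm_le ((hp1.const_mul _).add (integrable_const _)) ?_
          filter_upwards [hae] with t ht
          have hζ := a10_inv_norm ht
          rw [Real.norm_eq_abs, abs_mul, abs_of_nonneg (a10_kernel_nonneg hx1), mul_one]
          have hk0 := a10_kernel_nonneg (ζ := ‖t‖⁻¹ • t) hx1
          have h0 : 0 ≤ 1 - ‖x‖ ^ 2 := by nlinarith [norm_nonneg x]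
          by_cases hd : dist (‖t‖⁻¹ • t) z < δ
          · have h1 : |F (‖t‖⁻¹ • t) - F z| ≤ ε / 2 := by
              have := hδ hd
              rw [Real.dist_eq] at this
              exact this.le
            have h2 : (1 - ‖x‖ ^ 2) / ‖x - ‖t‖⁻¹ • t‖ ^ n * |F (‖t‖⁻¹ • t) - F z| ≤
                (1 - ‖x‖ ^ 2) / ‖x - ‖t‖⁻¹ • t‖ ^ n * (ε / 2) :=
              mul_le_mul_of_nonneg_left h1 hk0
            have h3 : 0 ≤ 2 * M * (1 - ‖x‖ ^ 2) * ((δ / 2)⁻¹) ^ n := by positivity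
            linarith
          · push Not at hd
            have h1 : |F (‖t‖⁻¹ • t) - F z| ≤ 2 * M := by
              have ha := hM' _ hζ
              have hb := hM' z hz1
              calc |F (‖t‖⁻¹ • t) - F z| ≤ |F (‖t‖⁻¹ • t)| + |F z| := abs_sub _ _
                _ ≤ 2 * M := by linarith
            have h2 : δ / 2 ≤ ‖x - ‖t‖⁻¹ • t‖ := by
              have h3 : dist (‖t‖⁻¹ • t) z ≤ dist (‖t‖⁻¹ • t) x + dist x z := dist_triangle _ _ _
              have h4 : dist (‖t‖⁻¹ • t) x = ‖x - ‖t‖⁻¹ • t‖ := by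
                rw [dist_comm, dist_eq_norm]
              linarith
            have h5 := a10_kernel_le (by positivity) hx1 h2
            have h6 : (1 - ‖x‖ ^ 2) / ‖x - ‖t‖⁻¹ • t‖ ^ n * |F (‖t‖⁻¹ • t) - F z| ≤
                ((1 - ‖x‖ ^ 2) * ((δ / 2)⁻¹) ^ n) * (2 * M) :=
              mul_le_mul h5 h1 (abs_nonneg _) (by positivity)
            have h7 : 0 ≤ ε / 2 * ((1 - ‖x‖ ^ 2) / ‖x - ‖t‖⁻¹ • t‖ ^ n) := by positivity
            linarith
        have hcomp : ∫ t, (ε / 2 * ((1 - ‖x‖ ^ 2) / ‖x - ‖t‖⁻¹ • t‖ ^ n * (1 : ℝ)) +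
              2 * M * (1 - ‖x‖ ^ 2) * ((δ / 2)⁻¹) ^ n) ∂μ =
            V * (ε / 2 + 2 * M * (1 - ‖x‖ ^ 2) * ((δ / 2)⁻¹) ^ n) := by
          rw [integral_add (hp1.const_mul _) (integrable_const _), integral_const_mul, hpn x hx1,
            integral_const, hμr, smul_eq_mul]
          ring
        rw [hcomp] at hbound
        have hsm := hη hxη
        calc V⁻¹ * |∫ t, (1 - ‖x‖ ^ 2) / ‖x - ‖t‖⁻¹ • t‖ ^ n * (F (‖t‖⁻¹ • t) - F z) ∂μ|
            ≤ V⁻¹ * (V * (ε / 2 + 2 * M * (1 - ‖x‖ ^ 2) * ((δ / 2)⁻¹) ^ n)) :=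
              mul_le_mul_of_nonneg_left hbound (inv_pos.2 hVpos).le
          _ = ε / 2 + 2 * M * (1 - ‖x‖ ^ 2) * ((δ / 2)⁻¹) ^ n := by
              rw [← mul_assoc, inv_mul_cancel₀ hVpos.ne', one_mul]
          _ < ε := by linarith
      · rw [hu2 x hx1]
        have := hδ (x := x) (by linarith)
        linarith
  · intro x hx
    rw [mem_sphere_zero_iff_norm] at hx
    rw [hu2 x hx]
    exact hF x (by simpa using hx)

theorem dirichlet_ball (hn : 2 ≤ n) (c : EE n) {r : ℝ} (hr : 0 < r) {f : EE n → ℝ}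
    (hf : ContinuousOn f (sphere c r)) : ∃ u : EE n → ℝ, ContinuousOn u (closedBall c r) ∧
      HarmonicOnNhd u (ball c r) ∧ ∀ x ∈ sphere c r, u x = f x := by
  have hf' : ContinuousOn (fun x : EE n => f (c + r • x)) (sphere 0 1) := by
    refine hf.comp (by fun_prop) ?_
    intro x hx
    rw [mem_sphere_zero_iff_norm] at hx
    rw [mem_sphere_iff_norm, add_sub_cancel_left, norm_smul, hx, mul_one, Real.norm_eq_abs,
      abs_of_pos hr]
  obtain ⟨u, huc, huh, hus⟩ := a10_unit hn hf'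
  have hmap : ∀ x : EE n, -(r⁻¹ • c) + r⁻¹ • x = r⁻¹ • (x - c) := by
    intro x
    rw [smul_sub]
    abel
  have hnorm : ∀ x : EE n, ‖r⁻¹ • (x - c)‖ = r⁻¹ * ‖x - c‖ := by
    intro x
    rw [norm_smul, norm_inv, Real.norm_eq_abs, abs_of_pos hr]
  refine ⟨fun x => u (-(r⁻¹ • c) + r⁻¹ • x), ?_, ?_, ?_⟩
  · refine huc.comp (by fun_prop) ?_
    intro x hx
    rw [mem_closedBall_iff_norm] at hx
    rw [mem_closedBall_zero_iff]
    show ‖-(r⁻¹ • c) + r⁻¹ • x‖ ≤ 1
    rw [hmap, hnorm, inv_mul_le_iff₀ hr, mul_one]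
    exact hx
  · have h := harmonic_comp_affine huh (-(r⁻¹ • c)) (inv_ne_zero hr.ne')
    refine h.mono ?_
    intro x hx
    rw [mem_ball_iff_norm] at hx
    show -(r⁻¹ • c) + r⁻¹ • x ∈ ball (0 : EE n) 1
    rw [mem_ball_zero_iff, hmap, hnorm, inv_mul_lt_iff₀ hr, mul_one]
    exact hx
  · intro x hx
    rw [mem_sphere_iff_norm] at hx
    have h1 : -(r⁻¹ • c) + r⁻¹ • x ∈ sphere (0 : EE n) 1 := by
      rw [mem_sphere_zero_iff_norm, hmap, hnorm, hx, inv_mul_cancel₀ hr.ne']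
    show u (-(r⁻¹ • c) + r⁻¹ • x) = f x
    rw [hus _ h1, hmap, smul_inv_smul₀ hr.ne', add_sub_cancel]

end Pool.Agent.Lib.MP_47b33c_an
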