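import Pool.Agent.Lib.MP_47b33c_an.MaxP
import Pool.Agent.Lib.MP_47b33c_an.Dirichlet

/-!
# Basic properties of subharmonic functions
-/

set_option autoImplicit false

open MeasureTheory Metric Set Filter Topology InnerProductSpace
open scoped RealInnerProductSpace Laplacian

namespace Pool.Agent.Lib.MP_47b33c_an

variable {n : ℕ}

/-- comparison with a harmonic function on a ball -/
theorem b1_compare (hn : 2 ≤ n) {c : EE n} {r : ℝ} (hr : 0 < r) {v h : EE n → ℝ}
    (hv : ContinuousOn v (closedBall c r)) (h2 : ∀ x ∈ ball c r, ContDiffAt ℝ 2 v x)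
    (hl : ∀ x ∈ ball c r, 0 ≤ Δ v x) (hh : ContinuousOn h (closedBall c r))
    (hharm : HarmonicOnNhd h (ball c r)) (hs : ∀ x ∈ sphere c r, v x ≤ h x) :
    ∀ x ∈ closedBall c r, v x ≤ h x := by
  have hcl : closure (ball c r) = closedBall c r := closure_ball c hr.ne'
  have hfr : frontier (ball c r) = sphere c r := frontier_ball c hr.ne'
  have key := weak_max hn (D := ball c r) isOpen_ball isBounded_ball (u := v - h)
    (by rw [hcl]; exact hv.sub hh) (fun x hx => (h2 x hx).sub (hharm x hx).1)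
    (fun x hx => by
      have h0 : Δ h x = 0 := (hharm x hx).2.self_of_nhds
      rw [(h2 x hx).laplacian_sub (hharm x hx).1, h0, sub_zero]
      exact hl x hx)
    (fun x hx => by
      rw [hfr] at hx
      have := hs x hx
      simp only [Pi.sub_apply]
      linarith)
  intro x hx
  have h3 := key x (by rw [hcl]; exact hx)
  simp only [Pi.sub_apply] at h3
  linarith

theorem SubH.mono {v : EE n → ℝ} {Ω Ω' : Set (EE n)} (h : SubH v Ω) (hs : Ω' ⊆ Ω) :
    SubH v Ω' :=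
  ⟨h.1.mono hs, fun c r hr hc => h.2 c r hr (hc.trans hs)⟩

theorem SubH.congr {v w : EE n → ℝ} {Ω : Set (EE n)} (h : SubH v Ω) (hs : ∀ x ∈ Ω, v x = w x) :
    SubH w Ω := by
  refine ⟨h.1.congr fun x hx => (hs x hx).symm, ?_⟩
  intro c r hr hc g hg1 hg2 hg3 x hx
  rw [← hs x (hc hx)]
  refine h.2 c r hr hc g hg1 hg2 (fun y hy => ?_) x hx
  rw [hs y (hc (sphere_subset_closedBall hy))]
  exact hg3 y hy

theorem harmonic_subH (hn : 2 ≤ n) {v : EE n → ℝ} {Ω : Set (EE n)} (hv : HarmonicOnNhd v Ω) :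
    SubH v Ω := by
  refine ⟨hv.continuousOn, ?_⟩
  intro c r hr hc g hg1 hg2 hg3
  have hb : ball c r ⊆ Ω := ball_subset_closedBall.trans hc
  refine b1_compare hn hr (hv.continuousOn.mono hc) (fun x hx => (hv x (hb hx)).1)
    (fun x hx => ?_) hg1 hg2 hg3
  exact ((hv x (hb hx)).2.self_of_nhds).ge

theorem subH_of_lap (hn : 2 ≤ n) {v : EE n → ℝ} {Ω : Set (EE n)} (hΩ : IsOpen Ω)
    (h2 : ∀ x ∈ Ω, ContDiffAt ℝ 2 v x) (hl : ∀ x ∈ Ω, 0 ≤ Δ v x) : SubH v Ω := by
  have hcont : ContinuousOn v Ω := fun x hx => (h2 x hx).continuousAt.continuousWithinAt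
  refine ⟨hcont, ?_⟩
  intro c r hr hc g hg1 hg2 hg3
  have hb : ball c r ⊆ Ω := ball_subset_closedBall.trans hc
  exact b1_compare hn hr (hcont.mono hc) (fun x hx => h2 x (hb hx)) (fun x hx => hl x (hb hx))
    hg1 hg2 hg3

theorem SubH.max {v w : EE n → ℝ} {Ω : Set (EE n)} (hv : SubH v Ω) (hw : SubH w Ω) :
    SubH (fun x => max (v x) (w x)) Ω := by
  refine ⟨hv.1.sup hw.1, ?_⟩
  intro c r hr hc g hg1 hg2 hg3 x hx
  exact max_le
    (hv.2 c r hr hc g hg1 hg2 (fun y hy => (le_max_left _ _).trans (hg3 y hy)) x hx)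
    (hw.2 c r hr hc g hg1 hg2 (fun y hy => (le_max_right _ _).trans (hg3 y hy)) x hx)

theorem SubH.add (hn : 2 ≤ n) {v w : EE n → ℝ} {Ω : Set (EE n)} (hv : SubH v Ω) (hw : SubH w Ω) :
    SubH (fun x => v x + w x) Ω := by
  refine ⟨hv.1.add hw.1, ?_⟩
  intro c r hr hc g hg1 hg2 hg3 x hx
  have hsp : sphere c r ⊆ Ω := sphere_subset_closedBall.trans hc
  obtain ⟨V, hV1, hV2, hV3⟩ := dirichlet_ball hn c hr (hv.1.mono hsp)
  obtain ⟨W, hW1, hW2, hW3⟩ := dirichlet_ball hn c hr (hw.1.mono hsp)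
  have h1 := hv.2 c r hr hc V hV1 hV2 (fun y hy => (hV3 y hy).ge) x hx
  have h2 := hw.2 c r hr hc W hW1 hW2 (fun y hy => (hW3 y hy).ge) x hx
  have hVW : HarmonicOnNhd (V + W) (ball c r) := hV2.add hW2
  have h3 := b1_compare hn hr (v := V + W) (hV1.add hW1) (fun y hy => (hVW y hy).1)
    (fun y hy => ((hVW y hy).2.self_of_nhds).ge) hg1 hg2
    (fun y hy => by
      simp only [Pi.add_apply]
      rw [hV3 y hy, hW3 y hy]
      exact hg3 y hy) x hx
  simp only [Pi.add_apply] at h3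
  linarith

theorem subH_const (b : ℝ) (Ω : Set (EE n)) (hn : 2 ≤ n) : SubH (fun _ => b) Ω :=
  harmonic_subH hn (harmonicOnNhd_const b)

theorem SubH.const_mul (hn : 2 ≤ n) {v : EE n → ℝ} {Ω : Set (EE n)} (hv : SubH v Ω) {a : ℝ} (ha : 0 ≤ a) :
    SubH (fun x => a * v x) Ω := by
  rcases ha.eq_or_lt with h0 | h0
  · refine (subH_const 0 Ω hn).congr fun x _ => ?_
    rw [← h0, zero_mul]
  · refine ⟨hv.1.const_smul a, ?_⟩
    intro c r hr hc g hg1 hg2 hg3 x hx
    have h1 := hv.2 c r hr hc (a⁻¹ • g) (hg1.const_smul a⁻¹) hg2.const_smul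
      (fun y hy => by
        have := hg3 y hy
        simp only [Pi.smul_apply, smul_eq_mul]
        rw [inv_mul_eq_div, le_div_iff₀ h0, mul_comm]
        exact this) x hx
    simp only [Pi.smul_apply, smul_eq_mul] at h1
    rw [inv_mul_eq_div, le_div_iff₀ h0, mul_comm] at h1
    exact h1

end Pool.Agent.Lib.MP_47b33c_an
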