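import Pool.Agent.Lib.MP_47b33c_an.Strong
import Pool.Agent.Lib.MP_47b33c_an.Sub

/-!
# The maximum principle for subharmonic functions
-/

set_option autoImplicit false

open MeasureTheory Metric Set Filter Topology InnerProductSpace
open scoped RealInnerProductSpace Laplacian

namespace Pool.Agent.Lib.MP_47b33c_an

variable {n : ℕ}

/-- the maximum principle -/
theorem SubH.le_zero (hn : 2 ≤ n) {D : Set (EE n)} (hD : IsOpen D)
    (hb : Bornology.IsBounded D) {v : EE n → ℝ} (hv : SubH v D)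
    (h : ∀ ζ ∈ frontier D, BdLe D v 0 ζ) : ∀ x ∈ D, v x ≤ 0 := by
  intro x0 hx0
  by_contra hpos
  push Not at hpos
  set m : ℝ := v x0 / 2 with hm
  have hm0 : 0 < m := by rw [hm]; linarith
  set S : Set (EE n) := {x | x ∈ D ∧ m ≤ v x} with hS
  have hSD : S ⊆ D := fun x hx => hx.1
  have hScl : IsClosed S := by
    rw [isClosed_iff_clusterPt]
    intro x hx
    have hxcl : x ∈ closure S := mem_closure_iff_clusterPt.2 hx
    have hxD : x ∈ D := by
      by_contra hn'
      have hfr : x ∈ frontier D := ⟨closure_mono hSD hxcl, by rwa [hD.interior_eq]⟩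
      have h1 := h x hfr (m / 2) (by positivity)
      rw [eventually_nhdsWithin_iff] at h1
      obtain ⟨U, hU, hUo, hxU⟩ := _root_.eventually_nhds_iff.1 h1
      obtain ⟨y, hyU, hyS⟩ := mem_closure_iff.1 hxcl U hUo hxU
      have h2 := hU y hyU hyS.1
      have h3 := hyS.2
      linarith
    refine ⟨hxD, ?_⟩
    by_contra hlt
    push Not at hlt
    have hc : ContinuousAt v x := hv.1.continuousAt (hD.mem_nhds hxD)
    have h1 : ∀ᶠ y in 𝓝 x, v y < m := hc.eventually_lt_const hlt
    obtain ⟨U, hU, hUo, hxU⟩ := _root_.eventually_nhds_iff.1 h1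
    obtain ⟨y, hyU, hyS⟩ := mem_closure_iff.1 hxcl U hUo hxU
    have h2 := hU y hyU
    have h3 := hyS.2
    linarith
  have hScomp : IsCompact S := isCompact_of_isClosed_isBounded hScl (hb.subset hSD)
  have hx0S : x0 ∈ S := ⟨hx0, by rw [hm]; linarith⟩
  obtain ⟨x1, hx1, hmax⟩ := hScomp.exists_isMaxOn ⟨x0, hx0S⟩ (hv.1.mono hSD)
  set M : ℝ := v x1 with hM
  have hmM : m ≤ M := hx1.2
  have hvM : ∀ x ∈ D, v x ≤ M := by
    intro x hx
    by_cases hxm : m ≤ v x
    · exact hmax (show x ∈ S from ⟨hx, hxm⟩)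
    · push Not at hxm
      linarith
  -- the set of the maximum points
  set K : Set (EE n) := {x | x ∈ S ∧ v x = M} with hK
  have hKcomp : IsCompact K := by
    have h1 : K = S ∩ v ⁻¹' {M} := rfl
    rw [h1]
    exact hScomp.of_isClosed_subset
      ((hv.1.mono hSD).preimage_isClosed_of_isClosed hScl isClosed_singleton) inter_subset_left
  obtain ⟨e, he⟩ : ∃ e : EE n, ‖e‖ = 1 :=
    ⟨EuclideanSpace.single (⟨0, by omega⟩ : Fin n) 1, by simp⟩
  obtain ⟨x2, hx2, hmax2⟩ := hKcomp.exists_isMaxOn ⟨x1, ⟨hx1, rfl⟩⟩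
    (f := fun x : EE n => ⟪x, e⟫) (by fun_prop)
  have hx2D : x2 ∈ D := hSD hx2.1
  obtain ⟨r, hr, hrD⟩ := Metric.nhds_basis_closedBall.mem_iff.1 (hD.mem_nhds hx2D)
  have hsp : sphere x2 r ⊆ D := sphere_subset_closedBall.trans hrD
  obtain ⟨g, hg1, hg2, hg3⟩ := dirichlet_ball hn x2 hr (hv.1.mono hsp)
  have hvg := hv.2 x2 r hr hrD g hg1 hg2 (fun y hy => (hg3 y hy).ge)
  have hgM : ∀ x ∈ closedBall x2 r, g x ≤ M := by
    refine b1_compare hn hr (h := fun _ => M) hg1 (fun y hy => (hg2 y hy).1)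
      (fun y hy => ((hg2 y hy).2.self_of_nhds).ge) continuousOn_const
      (harmonicOnNhd_const M) (fun y hy => ?_)
    rw [hg3 y hy]
    exact hvM y (hsp hy)
  have hgx2 : g x2 = M := by
    refine le_antisymm (hgM x2 (mem_closedBall_self hr.le)) ?_
    have h1 := hvg x2 (mem_closedBall_self hr.le)
    rw [hx2.2] at h1
    exact h1
  have hball := strong_max hn hg2 (fun y hy => hgM y (ball_subset_closedBall hy)) hgx2
  have hclosed : EqOn g (fun _ => M) (closedBall x2 r) :=
    EqOn.of_subset_closure (s := ball x2 r) (fun y hy => hball y hy) hg1 continuousOn_const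
      ball_subset_closedBall (by rw [closure_ball x2 hr.ne'])
  set y : EE n := x2 + r • e with hy
  have hysp : y ∈ sphere x2 r := by
    rw [mem_sphere_iff_norm, hy, add_sub_cancel_left, norm_smul, he, mul_one, Real.norm_eq_abs,
      abs_of_pos hr]
  have hvy : v y = M := by
    rw [← hg3 y hysp]
    exact hclosed (sphere_subset_closedBall hysp)
  have hyK : y ∈ K := ⟨⟨hsp hysp, by rw [hvy]; exact hmM⟩, hvy⟩
  have h1 : ⟪y, e⟫ ≤ ⟪x2, e⟫ := hmax2 hyK
  rw [hy, inner_add_left, real_inner_smul_left, real_inner_self_eq_norm_sq, he] at h1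
  linarith

end Pool.Agent.Lib.MP_47b33c_an
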