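import Pool.Agent.Lib.MP_47b33c_an.Rad
import Pool.Agent.Lib.MP_47b33c_an.Sub
import Pool.Agent.Lib.MP_47b33c_an.SubMax

/-!
# Upper barrier estimate (task E2 of the blueprint for MP_47b33c_an)
-/

set_option autoImplicit false

open MeasureTheory Metric Set Filter Topology InnerProductSpace
open scoped RealInnerProductSpace Laplacian

namespace Pool.Agent.Lib.MP_47b33c_an

variable {n : ℕ}

section E2

/-- `ρ^{-n} - (ρ+t)^{-n} ≤ n t ρ^{-n-1}` -/
theorem e2_pow (m : ℕ) {ρ t : ℝ} (hρ : 0 < ρ) (ht : 0 ≤ t) :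
    (ρ ^ m)⁻¹ - ((ρ + t) ^ m)⁻¹ ≤ (ρ ^ m)⁻¹ * (m * (t / ρ)) := by
  have h1 : 1 + (m : ℝ) * (-(t / (ρ + t))) ≤ (1 + -(t / (ρ + t))) ^ m := by
    apply one_add_mul_le_pow
    have : t / (ρ + t) ≤ 1 := by
      rw [div_le_one (by linarith)]; linarith
    linarith
  have h2 : (1 + -(t / (ρ + t))) = ρ / (ρ + t) := by
    field_simp
    ring
  have h3 : t / (ρ + t) ≤ t / ρ := div_le_div_of_nonneg_left ht hρ (by linarith)
  have h4 : (m : ℝ) * (t / (ρ + t)) ≤ m * (t / ρ) := mul_le_mul_of_nonneg_left h3 (Nat.cast_nonneg _)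
  rw [h2, div_pow] at h1
  have h5 : 0 < (ρ ^ m)⁻¹ := by positivity
  have h6 : (ρ ^ m)⁻¹ * (ρ ^ m / (ρ + t) ^ m) = ((ρ + t) ^ m)⁻¹ := by
    have : ρ ^ m ≠ 0 := by positivity
    field_simp
  have h7 : (ρ ^ m)⁻¹ * (1 - m * (t / ρ)) ≤ (ρ ^ m)⁻¹ * (ρ ^ m / (ρ + t) ^ m) :=
    mul_le_mul_of_nonneg_left (by linarith) h5.le
  rw [h6] at h7
  linarith

theorem e2_beta0 {m : ℕ} (hm : 1 ≤ m) {r : ℝ} (hr : 0 < r) :
    11 / 16 * ((r / 8) ^ m)⁻¹ ≤ ((r / 8) ^ m)⁻¹ - ((2 * r / 5) ^ m)⁻¹ := by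
  have h1 : ((2 * r / 5) ^ m)⁻¹ = ((r / 8) ^ m)⁻¹ * (5 / 16) ^ m := by
    rw [← inv_pow, ← inv_pow, ← mul_pow]
    congr 1
    field_simp
    norm_num
  have h2 : (5 / 16 : ℝ) ^ m ≤ 5 / 16 := by
    calc (5 / 16 : ℝ) ^ m ≤ (5 / 16) ^ 1 := pow_le_pow_of_le_one (by norm_num) (by norm_num) hm
      _ = 5 / 16 := pow_one _
  have h3 : 0 < ((r / 8) ^ m)⁻¹ := by positivity
  rw [h1]
  nlinarith

theorem bar_up (hn : 2 ≤ n) : ∃ C : ℝ, 1 ≤ C ∧ ∀ (V : Set (EE n)) (z e : EE n) (r b M : ℝ)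
    (v : EE n → ℝ), IsOpen V → 0 < r → ‖e‖ = 1 → |b| ≤ r / 100 → 0 ≤ M → V ⊆ ball z r →
    (∀ x ∈ V, 0 < ⟪x - z, e⟫ + b) → SubH v V → (∀ x ∈ V, v x ≤ M) →
    (∀ ζ ∈ frontier V ∩ ball z r, BdLe V v 0 ζ) →
    ∀ x ∈ V, x ∈ ball z (r / 4) → v x ≤ C * (M / r) * (⟪x - z, e⟫ + b) := by
  have hn2 : (2:ℝ) ≤ n := by exact_mod_cast hn
  refine ⟨12 * n, by linarith, ?_⟩
  intro V z e r b M v hV hr he hb hM hVz hL hv hvM hbd x0 hx0 hx0z
  have ht : 0 < ⟪x0 - z, e⟫ + b := hL x0 hx0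
  set t : ℝ := ⟪x0 - z, e⟫ + b with htdef
  have hb' := abs_le.1 hb
  have hx0z' : ‖x0 - z‖ < r / 4 := by rwa [mem_ball, dist_eq_norm] at hx0z
  have htr : t ≤ 26 / 100 * r := by
    have : ⟪x0 - z, e⟫ ≤ ‖x0 - z‖ * ‖e‖ := real_inner_le_norm _ _
    rw [he, mul_one] at this
    linarith
  have hee : ⟪e, e⟫ = (1:ℝ) := by rw [real_inner_self_eq_norm_sq, he]; norm_num
  set ρ : ℝ := r / 8 with hρ
  set R : ℝ := 2 * r / 5 with hR
  have hρ0 : 0 < ρ := by positivity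
  have hR0 : 0 < R := by positivity
  set y : EE n := x0 - t • e with hy
  set c : EE n := y - ρ • e with hc
  have hyz : ‖y - z‖ ≤ 51 / 100 * r := by
    have h1 : y - z = (x0 - z) - t • e := by rw [hy]; abel
    have h2 : ‖t • e‖ = t := by rw [norm_smul, he, mul_one, Real.norm_of_nonneg ht.le]
    have h3 := norm_sub_le (x0 - z) (t • e)
    rw [h1]
    linarith
  have hLy : ∀ x : EE n, ⟪x - y, e⟫ = ⟪x - z, e⟫ + b := by
    intro x
    have : x - y = (x - z) - (x0 - z) + t • e := by rw [hy]; abel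
    rw [this, inner_add_left, inner_sub_left, real_inner_smul_left, hee, htdef]
    ring
  have hLc : ∀ x : EE n, ⟪x - c, e⟫ = ⟪x - z, e⟫ + b + ρ := by
    intro x
    have : x - c = (x - y) + ρ • e := by rw [hc]; abel
    rw [this, inner_add_left, real_inner_smul_left, hee, hLy]
    ring
  have hxc : ∀ x : EE n, 0 ≤ ⟪x - z, e⟫ + b → ρ ≤ ‖x - c‖ := by
    intro x hx
    have h1 : ⟪x - c, e⟫ ≤ ‖x - c‖ * ‖e‖ := real_inner_le_norm _ _
    rw [he, mul_one, hLc] at h1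
    linarith
  have hxR : ∀ x : EE n, 0 ≤ ⟪x - z, e⟫ + b → R ≤ ‖x - y‖ → R ≤ ‖x - c‖ := by
    intro x hx hxy
    have h1 : ‖x - c‖ ^ 2 = ‖x - y‖ ^ 2 + 2 * (ρ * (⟪x - z, e⟫ + b)) + ρ ^ 2 := by
      have : x - c = (x - y) + ρ • e := by rw [hc]; abel
      rw [this, norm_add_sq_real, real_inner_smul_right, hLy, norm_smul, he, mul_one,
        Real.norm_eq_abs, sq_abs]
    have h2 : R ^ 2 ≤ ‖x - y‖ ^ 2 := pow_le_pow_left₀ hR0.le hxy 2
    have h3 : 0 ≤ ρ * (⟪x - z, e⟫ + b) := mul_nonneg hρ0.le hx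
    have h4 : R ^ 2 ≤ ‖x - c‖ ^ 2 := by nlinarith [sq_nonneg ρ]
    exact le_of_sq_le_sq h4 (norm_nonneg _)
  -- the barrier
  set q : EE n → ℝ := fun x => (‖x - c‖ ^ n)⁻¹ with hq
  have hn0 : n ≠ 0 := by omega
  set β0 : ℝ := (ρ ^ n)⁻¹ - (R ^ n)⁻¹ with hβ0
  have hβ0l : 11 / 16 * (ρ ^ n)⁻¹ ≤ β0 := e2_beta0 (by omega) hr
  have hρn : 0 < (ρ ^ n)⁻¹ := by positivity
  have hβ0p : 0 < β0 := lt_of_lt_of_le (by positivity) hβ0l
  have hqle : ∀ x : EE n, 0 ≤ ⟪x - z, e⟫ + b → q x ≤ (ρ ^ n)⁻¹ := fun x hx =>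
    inv_anti₀ (by positivity) (pow_le_pow_left₀ hρ0.le (hxc x hx) n)
  set D : Set (EE n) := V ∩ ball y R with hD
  have hDo : IsOpen D := hV.inter isOpen_ball
  have hDV : D ⊆ V := inter_subset_left
  have hcD : ∀ x ∈ D, x ≠ c := by
    intro x hx hxc'
    have h1 := hxc x (hL x (hDV hx)).le
    rw [hxc', sub_self, norm_zero] at h1
    linarith
  have hqs : SubH q D := subH_of_lap hn hDo (fun x hx => (lap_barrier hn c x (hcD x hx)).1)
    (fun x hx => (lap_barrier hn c x (hcD x hx)).2)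
  have hφ : SubH (fun x => v x + (M / β0 * q x + -(M / β0 * (ρ ^ n)⁻¹))) D :=
    (hv.mono hDV).add hn ((hqs.const_mul hn (by positivity)).add hn (subH_const _ D hn))
  have hbdd : Bornology.IsBounded D := isBounded_ball.subset inter_subset_right
  have hLcont : Continuous (fun x : EE n => ⟪x - z, e⟫ + b) := by fun_prop
  have hmain := hφ.le_zero hn hDo hbdd (fun ζ hζ => by
    have hζD : ζ ∉ D := fun h => by
      rw [hDo.frontier_eq] at hζ
      exact hζ.2 h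
    have hζc : ζ ∈ closure D := frontier_subset_closure hζ
    have hζL : 0 ≤ ⟪ζ - z, e⟫ + b := by
      have : closure D ⊆ {x | 0 ≤ ⟪x - z, e⟫ + b} :=
        closure_minimal (fun x hx => (hL x (hDV hx)).le) (isClosed_le continuous_const hLcont)
      exact this hζc
    by_cases hζy : ζ ∈ ball y R
    · -- a frontier point of `V`
      have hζV : ζ ∉ V := fun h => hζD ⟨h, hζy⟩
      have hζF : ζ ∈ frontier V := by
        rw [hV.frontier_eq]
        exact ⟨closure_mono hDV hζc, hζV⟩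
      have hζz : ζ ∈ ball z r := by
        rw [mem_ball, dist_eq_norm] at hζy ⊢
        have h1 : ζ - z = (ζ - y) + (y - z) := by abel
        rw [h1]
        refine (norm_add_le _ _).trans_lt ?_
        have : R = 2 * r / 5 := hR
        linarith
      intro η hη
      have h1 := hbd ζ ⟨hζF, hζz⟩ η hη
      have h2 : ∀ᶠ x in 𝓝[D] ζ, v x ≤ 0 + η := h1.filter_mono (nhdsWithin_mono _ hDV)
      filter_upwards [h2, self_mem_nhdsWithin] with x hx hxD
      have h3 := hqle x (hL x (hDV hxD)).le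
      have h4 : M / β0 * q x ≤ M / β0 * (ρ ^ n)⁻¹ := mul_le_mul_of_nonneg_left h3 (by positivity)
      linarith
    · have hζR : R ≤ ‖ζ - y‖ := by
        rw [mem_ball, dist_eq_norm] at hζy
        exact not_lt.1 hζy
      have hζcR := hxR ζ hζL hζR
      have hζc0 : ζ ≠ c := by
        intro h
        rw [h, sub_self, norm_zero] at hζcR
        linarith
      have hqc : ContinuousAt q ζ := (lap_barrier hn c ζ hζc0).1.continuousAt
      have hqζ : q ζ ≤ (R ^ n)⁻¹ := inv_anti₀ (by positivity) (pow_le_pow_left₀ hR0.le hζcR n)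
      have hlim : M / β0 * q ζ + -(M / β0 * (ρ ^ n)⁻¹) ≤ -M := by
        have h1 : M / β0 * q ζ ≤ M / β0 * (R ^ n)⁻¹ := mul_le_mul_of_nonneg_left hqζ (by positivity)
        have h2 : M / β0 * (R ^ n)⁻¹ + -(M / β0 * (ρ ^ n)⁻¹) = -(M / β0 * β0) := by
          rw [hβ0]; ring
        have h3 : M / β0 * β0 = M := div_mul_cancel₀ _ hβ0p.ne'
        linarith
      intro η hη
      have hcont : ContinuousAt (fun x => M / β0 * q x + -(M / β0 * (ρ ^ n)⁻¹)) ζ :=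
        (hqc.const_mul _).add continuousAt_const
      have hev : ∀ᶠ x in 𝓝 ζ, M / β0 * q x + -(M / β0 * (ρ ^ n)⁻¹) < -M + η :=
        hcont.eventually (gt_mem_nhds (by linarith))
      filter_upwards [hev.filter_mono nhdsWithin_le_nhds, self_mem_nhdsWithin] with x hx hxD
      have := hvM x (hDV hxD)
      linarith)
  -- evaluate at `x0`
  have hx0y : ‖x0 - y‖ = t := by
    have : x0 - y = t • e := by rw [hy]; abel
    rw [this, norm_smul, he, mul_one, Real.norm_of_nonneg ht.le]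
  have hx0D : x0 ∈ D := by
    refine ⟨hx0, ?_⟩
    rw [mem_ball, dist_eq_norm, hx0y]
    have : R = 2 * r / 5 := hR
    linarith
  have hx0c : ‖x0 - c‖ = ρ + t := by
    have h0 : x0 - y = t • e := by rw [hy]; abel
    have h1 : x0 - c = (x0 - y) + ρ • e := by rw [hc]; abel
    have : x0 - c = (ρ + t) • e := by
      rw [h1, h0, ← add_smul, add_comm t ρ]
    rw [this, norm_smul, he, mul_one, Real.norm_of_nonneg (by linarith)]
  have h1 := hmain x0 hx0D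
  have h2 : q x0 = ((ρ + t) ^ n)⁻¹ := by rw [hq]; simp only [hx0c]
  have h3 := e2_pow n hρ0 ht.le
  have h4 : v x0 ≤ M / β0 * ((ρ ^ n)⁻¹ * (n * (t / ρ))) := by
    have h5 : M / β0 * ((ρ ^ n)⁻¹ - ((ρ + t) ^ n)⁻¹) ≤ M / β0 * ((ρ ^ n)⁻¹ * (n * (t / ρ))) :=
      mul_le_mul_of_nonneg_left h3 (by positivity)
    simp only [h2] at h1
    linarith
  have h6 : (ρ ^ n)⁻¹ / β0 ≤ 16 / 11 := by
    rw [div_le_iff₀ hβ0p]
    linarith
  have h7 : M / β0 * ((ρ ^ n)⁻¹ * (n * (t / ρ))) = ((ρ ^ n)⁻¹ / β0) * (M * (n * (t / ρ))) := by ring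
  have h8 : 0 ≤ M * (n * (t / ρ)) := by positivity
  have h9 : ((ρ ^ n)⁻¹ / β0) * (M * (n * (t / ρ))) ≤ 16 / 11 * (M * (n * (t / ρ))) :=
    mul_le_mul_of_nonneg_right h6 h8
  have h10 : M * (n * (t / ρ)) = 8 * (n * (M / r) * t) := by
    rw [hρ]
    field_simp
  have h11 : 0 ≤ n * (M / r) * t := by positivity
  calc v x0 ≤ 16 / 11 * (8 * (n * (M / r) * t)) := by rw [← h10, ← h7] at *; linarith
    _ ≤ 12 * n * (M / r) * t := by nlinarith

end E2

end Pool.Agent.Lib.MP_47b33c_an
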