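import Pool.Agent.Lib.MP_47b33c_an.Defs

/-!
# Radial Laplacians, the dipole, the Poisson kernel, composition with affine maps
-/

set_option autoImplicit false

open MeasureTheory Metric Set Filter Topology InnerProductSpace
open scoped RealInnerProductSpace Laplacian

namespace Pool.Agent.Lib.MP_47b33c_an

variable {n : ℕ}

theorem a1_second {f : EE n → ℝ} {x : EE n} (hf : ContDiffAt ℝ 2 f x) (v : EE n) :
    iteratedFDeriv ℝ 2 f x ![v, v] = deriv (deriv (fun t : ℝ => f (x + t • v))) 0 := by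
  have h1 : ∀ᶠ y in 𝓝 x, DifferentiableAt ℝ f y := by
    have := hf.eventually (by simp)
    filter_upwards [this] with y hy using hy.differentiableAt (by norm_num)
  have hline : Continuous (fun t : ℝ => x + t • v) := by fun_prop
  have hl : ∀ t : ℝ, HasDerivAt (fun t : ℝ => x + t • v) v t := by
    intro t
    simpa using ((hasDerivAt_id t).smul_const v).const_add x
  have h2 : ∀ᶠ t in 𝓝 (0:ℝ), DifferentiableAt ℝ f (x + t • v) := by
    have h : Tendsto (fun t : ℝ => x + t • v) (𝓝 0) (𝓝 x) := by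
      have := hline.tendsto 0
      simpa using this
    exact h.eventually h1
  have h3 : deriv (fun t : ℝ => f (x + t • v)) =ᶠ[𝓝 0] fun t => fderiv ℝ f (x + t • v) v := by
    filter_upwards [h2] with t ht
    exact (ht.hasFDerivAt.comp_hasDerivAt t (hl t)).deriv
  rw [h3.deriv_eq]
  have h4 : DifferentiableAt ℝ (fderiv ℝ f) x :=
    (hf.fderiv_right (m := 1) (by norm_num)).differentiableAt (by norm_num)
  have h5 : HasDerivAt (fun t : ℝ => fderiv ℝ f (x + t • v)) (fderiv ℝ (fderiv ℝ f) x v) 0 := by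
    have h6 : HasFDerivAt (fderiv ℝ f) (fderiv ℝ (fderiv ℝ f) x) (x + (0:ℝ) • v) := by
      simpa using h4.hasFDerivAt
    exact h6.comp_hasDerivAt 0 (hl 0)
  have h7 : HasDerivAt (fun t : ℝ => fderiv ℝ f (x + t • v) v)
      (fderiv ℝ (fderiv ℝ f) x v v) 0 := by
    simpa using h5.clm_apply (hasDerivAt_const (0:ℝ) v)
  rw [h7.deriv, iteratedFDeriv_two_apply]
  simp

theorem a1_lap {f : EE n → ℝ} {x : EE n} (hf : ContDiffAt ℝ 2 f x) :
    Δ f x = ∑ i, deriv (deriv (fun t : ℝ => f (x + t • EuclideanSpace.basisFun (Fin n) ℝ i))) 0 := by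
  rw [laplacian_eq_iteratedFDeriv_orthonormalBasis f (EuclideanSpace.basisFun (Fin n) ℝ)]
  apply Finset.sum_congr rfl
  intro i _
  exact a1_second hf _

theorem a1_one {g : ℝ → ℝ} {s : ℝ} (a b p : ℝ) (hg : ContDiffAt ℝ 2 g s) :
    deriv (deriv (fun t : ℝ => (a + t * b) * g (s + 2 * t * p + t ^ 2))) 0
      = 4 * b * p * deriv g s + 4 * a * p ^ 2 * deriv (deriv g) s + 2 * a * deriv g s := by
  have h1 : ∀ᶠ y in 𝓝 s, DifferentiableAt ℝ g y := by
    have := hg.eventually (by simp)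
    filter_upwards [this] with y hy using hy.differentiableAt (by norm_num)
  have hq : ∀ t : ℝ, HasDerivAt (fun t : ℝ => s + 2 * t * p + t ^ 2) (2 * p + 2 * t) t := by
    intro t
    have := (((((hasDerivAt_id t).const_mul 2).mul_const p)).const_add s).add
      ((hasDerivAt_id t).pow 2)
    refine this.congr_deriv ?_
    simp
  have hq0 : Tendsto (fun t : ℝ => s + 2 * t * p + t ^ 2) (𝓝 0) (𝓝 s) := by
    have := (hq 0).continuousAt.tendsto
    simpa using this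
  have hl : ∀ t : ℝ, HasDerivAt (fun t : ℝ => a + t * b) b t := by
    intro t
    simpa using ((hasDerivAt_id t).mul_const b).const_add a
  have h2 : ∀ᶠ t in 𝓝 (0:ℝ), DifferentiableAt ℝ g (s + 2 * t * p + t ^ 2) := hq0.eventually h1
  have h3 : deriv (fun t : ℝ => (a + t * b) * g (s + 2 * t * p + t ^ 2)) =ᶠ[𝓝 0]
      fun t => b * g (s + 2 * t * p + t ^ 2) +
        (a + t * b) * (deriv g (s + 2 * t * p + t ^ 2) * (2 * p + 2 * t)) := by
    filter_upwards [h2] with t ht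
    exact ((hl t).mul (ht.hasDerivAt.comp t (hq t))).deriv
  rw [h3.deriv_eq]
  have hgd : DifferentiableAt ℝ g s := hg.differentiableAt (by norm_num)
  have hgd2 : DifferentiableAt ℝ (deriv g) s := by
    have h4 : DifferentiableAt ℝ (fderiv ℝ g) s :=
      (hg.fderiv_right (m := 1) (by norm_num)).differentiableAt (by norm_num)
    have : deriv g = fun y => fderiv ℝ g y 1 := by
      ext y
      simp
    rw [this]
    exact h4.clm_apply (differentiableAt_const _)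
  have e1 : HasDerivAt (fun t : ℝ => g (s + 2 * t * p + t ^ 2)) (deriv g s * (2 * p)) 0 := by
    have h5 : HasDerivAt g (deriv g s) (s + 2 * 0 * p + 0 ^ 2) := by simpa using hgd.hasDerivAt
    have := h5.comp (0:ℝ) (hq 0)
    refine this.congr_deriv ?_
    simp
  have e2 : HasDerivAt (fun t : ℝ => deriv g (s + 2 * t * p + t ^ 2))
      (deriv (deriv g) s * (2 * p)) 0 := by
    have h5 : HasDerivAt (deriv g) (deriv (deriv g) s) (s + 2 * 0 * p + 0 ^ 2) := by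
      simpa using hgd2.hasDerivAt
    have := h5.comp (0:ℝ) (hq 0)
    refine this.congr_deriv ?_
    simp
  have e3 : HasDerivAt (fun t : ℝ => 2 * p + 2 * t) 2 0 := by
    simpa using ((hasDerivAt_id (0:ℝ)).const_mul 2).const_add (2 * p)
  have e4 := (e1.const_mul b).add ((hl 0).mul (e2.mul e3))
  refine e4.deriv.trans ?_
  simp
  ring

theorem a1_lap_mul {g : ℝ → ℝ} (c e x : EE n) (b : ℝ) (hg : ContDiffAt ℝ 2 g (‖x - c‖ ^ 2)) :
    ContDiffAt ℝ 2 (fun y : EE n => (⟪y - c, e⟫ + b) * g (‖y - c‖ ^ 2)) x ∧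
      Δ (fun y : EE n => (⟪y - c, e⟫ + b) * g (‖y - c‖ ^ 2)) x =
        4 * ⟪x - c, e⟫ * deriv g (‖x - c‖ ^ 2) + (⟪x - c, e⟫ + b) *
          (4 * ‖x - c‖ ^ 2 * deriv (deriv g) (‖x - c‖ ^ 2) + 2 * n * deriv g (‖x - c‖ ^ 2)) := by
  have hc : ContDiffAt ℝ 2 (fun y : EE n => (⟪y - c, e⟫ + b) * g (‖y - c‖ ^ 2)) x := by
    have h1 : ContDiffAt ℝ 2 (fun y : EE n => (⟪y - c, e⟫ + b)) x :=
      ((contDiffAt_id.sub contDiffAt_const).inner ℝ contDiffAt_const).add contDiffAt_const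
    have h2 : ContDiffAt ℝ 2 (fun y : EE n => ‖y - c‖ ^ 2) x := by
      exact ((contDiff_norm_sq ℝ).comp (contDiff_id.sub contDiff_const)).contDiffAt
    exact h1.mul (hg.comp x h2)
  refine ⟨hc, ?_⟩
  rw [a1_lap hc]
  have key : ∀ i : Fin n, deriv (deriv (fun t : ℝ =>
      (⟪x + t • EuclideanSpace.basisFun (Fin n) ℝ i - c, e⟫ + b) *
        g (‖x + t • EuclideanSpace.basisFun (Fin n) ℝ i - c‖ ^ 2))) 0 =
      4 * ⟪EuclideanSpace.basisFun (Fin n) ℝ i, e⟫ * ⟪x - c, EuclideanSpace.basisFun (Fin n) ℝ i⟫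
        * deriv g (‖x - c‖ ^ 2)
      + 4 * (⟪x - c, e⟫ + b) * ⟪x - c, EuclideanSpace.basisFun (Fin n) ℝ i⟫ ^ 2
        * deriv (deriv g) (‖x - c‖ ^ 2) + 2 * (⟪x - c, e⟫ + b) * deriv g (‖x - c‖ ^ 2) := by
    intro i
    rw [← a1_one (⟪x - c, e⟫ + b) ⟪EuclideanSpace.basisFun (Fin n) ℝ i, e⟫
      ⟪x - c, EuclideanSpace.basisFun (Fin n) ℝ i⟫ hg]
    congr 2
    ext t
    have e1 : x + t • EuclideanSpace.basisFun (Fin n) ℝ i - c
        = (x - c) + t • EuclideanSpace.basisFun (Fin n) ℝ i := by abel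
    have e2 : ‖(x - c) + t • EuclideanSpace.basisFun (Fin n) ℝ i‖ ^ 2
        = ‖x - c‖ ^ 2 + 2 * t * ⟪x - c, EuclideanSpace.basisFun (Fin n) ℝ i⟫ + t ^ 2 := by
      rw [norm_add_sq_real, inner_smul_right, norm_smul,
        (EuclideanSpace.basisFun (Fin n) ℝ).norm_eq_one]
      simp
      ring
    rw [e1, e2, inner_add_left, inner_smul_left]
    simp
    left
    ring
  rw [Finset.sum_congr rfl (fun i _ => key i)]
  rw [Finset.sum_add_distrib, Finset.sum_add_distrib]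
  have s1 : ∑ i : Fin n, 4 * ⟪EuclideanSpace.basisFun (Fin n) ℝ i, e⟫ *
      ⟪x - c, EuclideanSpace.basisFun (Fin n) ℝ i⟫ * deriv g (‖x - c‖ ^ 2)
      = 4 * ⟪x - c, e⟫ * deriv g (‖x - c‖ ^ 2) := by
    rw [← (EuclideanSpace.basisFun (Fin n) ℝ).sum_inner_mul_inner (x - c) e, Finset.mul_sum,
      Finset.sum_mul]
    apply Finset.sum_congr rfl
    intro i _
    ring
  have s2 : ∑ i : Fin n, 4 * (⟪x - c, e⟫ + b) *
      ⟪x - c, EuclideanSpace.basisFun (Fin n) ℝ i⟫ ^ 2 * deriv (deriv g) (‖x - c‖ ^ 2)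
      = 4 * (⟪x - c, e⟫ + b) * ‖x - c‖ ^ 2 * deriv (deriv g) (‖x - c‖ ^ 2) := by
    rw [← real_inner_self_eq_norm_sq (x - c),
      ← (EuclideanSpace.basisFun (Fin n) ℝ).sum_inner_mul_inner (x - c) (x - c), Finset.mul_sum,
      Finset.sum_mul]
    apply Finset.sum_congr rfl
    intro i _
    rw [real_inner_comm (x - c) (EuclideanSpace.basisFun (Fin n) ℝ i)]
    ring
  rw [s1, s2]
  simp
  ring

theorem lap_radial {g : ℝ → ℝ} (c x : EE n) (hg : ContDiffAt ℝ 2 g (‖x - c‖ ^ 2)) :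
    ContDiffAt ℝ 2 (fun y : EE n => g (‖y - c‖ ^ 2)) x ∧
      Δ (fun y : EE n => g (‖y - c‖ ^ 2)) x =
        4 * ‖x - c‖ ^ 2 * deriv (deriv g) (‖x - c‖ ^ 2) + 2 * n * deriv g (‖x - c‖ ^ 2) := by
  have h := a1_lap_mul c 0 x 1 hg
  simp only [inner_zero_right, zero_add, one_mul, mul_zero, zero_mul] at h
  exact h

theorem harmonic_affine (e a : EE n) (b : ℝ) (s : Set (EE n)) :
    HarmonicOnNhd (fun x : EE n => ⟪x - a, e⟫ + b) s := by
  intro x _
  have h : ∀ y : EE n, ContDiffAt ℝ 2 (fun x : EE n => ⟪x - a, e⟫ + b) y ∧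
      Δ (fun x : EE n => ⟪x - a, e⟫ + b) y = 0 := by
    intro y
    have h := a1_lap_mul (g := fun _ => 1) a e y b contDiffAt_const
    simpa using h
  refine ⟨(h x).1, ?_⟩
  exact Eventually.of_forall (fun y => (h y).2)

theorem a1_deriv_rpow (α : ℝ) {s : ℝ} (hs : 0 < s) :
    deriv (fun s : ℝ => s ^ α) s = α * s ^ (α - 1) ∧
    deriv (deriv (fun s : ℝ => s ^ α)) s = α * ((α - 1) * s ^ (α - 2)) := by
  have h1 : ∀ t : ℝ, 0 < t → deriv (fun s : ℝ => s ^ α) t = α * t ^ (α - 1) := fun t ht =>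
    (Real.hasDerivAt_rpow_const (Or.inl ht.ne')).deriv
  refine ⟨h1 s hs, ?_⟩
  have h2 : deriv (fun s : ℝ => s ^ α) =ᶠ[𝓝 s] fun t => α * t ^ (α - 1) := by
    filter_upwards [lt_mem_nhds hs] with t ht using h1 t ht
  rw [h2.deriv_eq]
  have h3 : HasDerivAt (fun t : ℝ => α * t ^ (α - 1)) (α * ((α - 1) * s ^ (α - 1 - 1))) s :=
    (Real.hasDerivAt_rpow_const (Or.inl hs.ne')).const_mul α
  rw [h3.deriv]
  congr 3
  ring

/-- Laplacian of `(⟪y - c, e⟫ + b) ‖y - c‖ ^ (2 α)` -/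
theorem a1_lap_rpow (c e x : EE n) (b α : ℝ) (hx : x ≠ c) :
    ContDiffAt ℝ 2 (fun y : EE n => (⟪y - c, e⟫ + b) * (‖y - c‖ ^ 2) ^ α) x ∧
      Δ (fun y : EE n => (⟪y - c, e⟫ + b) * (‖y - c‖ ^ 2) ^ α) x =
        (⟪x - c, e⟫ * (4 * α + 2 * α * (2 * (α - 1) + n)) + b * (2 * α * (2 * (α - 1) + n)))
          * (‖x - c‖ ^ 2) ^ (α - 1) := by
  have hs : 0 < ‖x - c‖ ^ 2 := by
    have : 0 < ‖x - c‖ := norm_pos_iff.mpr (sub_ne_zero.mpr hx)
    positivity
  have hg : ContDiffAt ℝ 2 (fun s : ℝ => s ^ α) (‖x - c‖ ^ 2) :=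
    Real.contDiffAt_rpow_const (Or.inl hs.ne')
  have h := a1_lap_mul c e x b hg
  refine ⟨h.1, ?_⟩
  rw [h.2, (a1_deriv_rpow α hs).1, (a1_deriv_rpow α hs).2]
  have h3 : (‖x - c‖ ^ 2) ^ (α - 1) = ‖x - c‖ ^ 2 * (‖x - c‖ ^ 2) ^ (α - 2) := by
    have h4 := Real.rpow_add hs 1 (α - 2)
    rw [Real.rpow_one] at h4
    rw [← h4]
    congr 1
    ring
  rw [h3]
  ring

theorem a1_pow_eq (y : EE n) : ((‖y‖ ^ n)⁻¹ : ℝ) = (‖y‖ ^ 2) ^ (-(n:ℝ)/2) := by
  rw [← Real.rpow_natCast ‖y‖ n, ← Real.rpow_natCast ‖y‖ 2, ← Real.rpow_mul (norm_nonneg _),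
    ← Real.rpow_neg (norm_nonneg _)]
  congr 1
  push_cast
  ring

/-- the barrier function -/
theorem lap_barrier (hn : 2 ≤ n) (c x : EE n) (hx : x ≠ c) :
    ContDiffAt ℝ 2 (fun y : EE n => (‖y - c‖ ^ n)⁻¹) x ∧
      0 ≤ Δ (fun y : EE n => (‖y - c‖ ^ n)⁻¹) x := by
  have h := a1_lap_rpow c 0 x 1 (-(n:ℝ)/2) hx
  have h1 : (fun y : EE n => (‖y - c‖ ^ n)⁻¹)
      = fun y : EE n => (⟪y - c, (0 : EE n)⟫ + 1) * (‖y - c‖ ^ 2) ^ (-(n:ℝ)/2) := by
    ext y
    rw [a1_pow_eq]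
    simp
  rw [h1]
  refine ⟨h.1, ?_⟩
  rw [h.2]
  apply mul_nonneg
  · simp
    have : -(n:ℝ) / 2 * 2 * (2 * (-(n:ℝ) / 2 - 1) + n) = 2 * n := by ring
    nlinarith
  · positivity

/-- a harmonic function on the complement of a point, positive in a half space, decaying -/
theorem harmonic_dipole (hn : 2 ≤ n) (c e : EE n) :
    HarmonicOnNhd (fun x : EE n => ⟪x - c, e⟫ / ‖x - c‖ ^ n) {x | x ≠ c} := by
  have h1 : (fun x : EE n => ⟪x - c, e⟫ / ‖x - c‖ ^ n)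
      = fun y : EE n => (⟪y - c, e⟫ + 0) * (‖y - c‖ ^ 2) ^ (-(n:ℝ)/2) := by
    ext y
    rw [div_eq_mul_inv, a1_pow_eq]
    simp
  rw [h1]
  intro x hx
  have hx' : x ≠ c := hx
  have h : ∀ y : EE n, y ≠ c → _ := fun y hy => a1_lap_rpow c e y 0 (-(n:ℝ)/2) hy
  refine ⟨(h x hx').1, ?_⟩
  filter_upwards [isOpen_ne.mem_nhds hx'] with y hy
  rw [(h y hy).2]
  simp only [Pi.zero_apply]
  have : 4 * (-(n:ℝ) / 2) + 2 * (-(n:ℝ) / 2) * (2 * (-(n:ℝ) / 2 - 1) + n) = 0 := by ring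
  rw [this]
  simp

/-- the Poisson kernel of the unit ball -/
theorem harmonic_poisson (hn : 2 ≤ n) (ζ : EE n) (hζ : ‖ζ‖ = 1) :
    HarmonicOnNhd (fun x : EE n => (1 - ‖x‖ ^ 2) / ‖x - ζ‖ ^ n) {x | x ≠ ζ} := by
  have h2 : HarmonicOnNhd (fun y : EE n => (⟪y - ζ, (0 : EE n)⟫ + 1) * (‖y - ζ‖ ^ 2) ^ (1 - (n:ℝ)/2))
      {x | x ≠ ζ} := by
    intro x hx
    have hx' : x ≠ ζ := hx
    have h : ∀ y : EE n, y ≠ ζ → _ := fun y hy => a1_lap_rpow ζ 0 y 1 (1 - (n:ℝ)/2) hy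
    refine ⟨(h x hx').1, ?_⟩
    filter_upwards [isOpen_ne.mem_nhds hx'] with y hy
    rw [(h y hy).2]
    simp only [Pi.zero_apply, inner_zero_right, zero_mul, zero_add, one_mul]
    have : 2 * (1 - (n:ℝ) / 2) * (2 * (1 - (n:ℝ) / 2 - 1) + n) = 0 := by ring
    rw [this]
    simp
  have h3 := harmonic_dipole hn ζ ζ
  have h4 := (h2.add (h3.const_smul (c := (2:ℝ)))).neg
  intro x hx
  have hx' : x ≠ ζ := hx
  refine (harmonicAt_congr_nhds ?_).mp (h4 x hx)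
  filter_upwards [isOpen_ne.mem_nhds hx'] with y hy
  have hs : 0 < ‖y - ζ‖ := norm_pos_iff.mpr (sub_ne_zero.mpr hy)
  have e1 : ‖y‖ ^ 2 = ‖y - ζ‖ ^ 2 + 2 * ⟪y - ζ, ζ⟫ + 1 := by
    have : y = (y - ζ) + ζ := by abel
    conv_lhs => rw [this]
    rw [norm_add_sq_real, hζ]
    ring
  have e2 : (‖y - ζ‖ ^ 2) ^ (1 - (n:ℝ)/2) = ‖y - ζ‖ ^ 2 * (‖y - ζ‖ ^ n)⁻¹ := by
    rw [a1_pow_eq]
    have h5 := Real.rpow_add (show 0 < ‖y - ζ‖ ^ 2 by positivity) 1 (-(n:ℝ)/2)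
    rw [Real.rpow_one] at h5
    rw [← h5]
    congr 1
    ring
  simp only [Pi.neg_apply, Pi.add_apply, Pi.smul_apply, smul_eq_mul, inner_zero_right, zero_add,
    one_mul]
  rw [e1, e2]
  field_simp
  ring

theorem harmonic_comp_affine {u : EE n → ℝ} {s : Set (EE n)} (hu : HarmonicOnNhd u s) (c : EE n)
    {r : ℝ} (hr : r ≠ 0) : HarmonicOnNhd (fun x => u (c + r • x)) {x | c + r • x ∈ s} := by
  have hc : ∀ x : EE n, ContDiffAt ℝ 2 u (c + r • x) →
      ContDiffAt ℝ 2 (fun x => u (c + r • x)) x := by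
    intro x hx
    have h1 : ContDiffAt ℝ 2 (fun x : EE n => c + r • x) x := by fun_prop
    exact ContDiffAt.comp x hx h1
  have hl : ∀ x : EE n, ContDiffAt ℝ 2 u (c + r • x) →
      Δ (fun x => u (c + r • x)) x = r ^ 2 * Δ u (c + r • x) := by
    intro x hx
    rw [a1_lap (hc x hx), a1_lap hx, Finset.mul_sum]
    apply Finset.sum_congr rfl
    intro i _
    have h1 : (fun t : ℝ => u (c + r • (x + t • EuclideanSpace.basisFun (Fin n) ℝ i)))
        = fun t : ℝ => (fun τ : ℝ => u (c + r • x + τ • EuclideanSpace.basisFun (Fin n) ℝ i))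
          (r * t) := by
      ext t
      simp only
      congr 1
      rw [smul_add, smul_smul]
      abel
    rw [h1]
    set φ : ℝ → ℝ := fun τ : ℝ => u (c + r • x + τ • EuclideanSpace.basisFun (Fin n) ℝ i) with hφ
    have h2 : deriv (fun t : ℝ => φ (r * t)) = fun t : ℝ => r • (deriv φ) (r * t) := by
      ext t
      exact deriv_comp_mul_left r φ t
    rw [h2]
    have h3 : deriv (fun t : ℝ => r • (deriv φ) (r * t)) 0
        = r • (r • deriv (deriv φ) (r * 0)) := by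
      rw [← deriv_comp_mul_left r (deriv φ) 0]
      exact deriv_const_smul_field r (fun t => deriv φ (r * t))
    rw [h3]
    simp
    ring
  intro x hx
  have hx' : c + r • x ∈ s := hx
  refine ⟨hc x (hu _ hx').1, ?_⟩
  have hcont : Tendsto (fun x : EE n => c + r • x) (𝓝 x) (𝓝 (c + r • x)) :=
    (by fun_prop : Continuous (fun x : EE n => c + r • x)).tendsto x
  have h1 : ∀ᶠ y in 𝓝 (c + r • x), HarmonicAt u y := (hu _ hx').eventually
  filter_upwards [hcont.eventually h1] with y hy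
  rw [hl y hy.1, hy.2.self_of_nhds]
  simp

theorem harmonic_comp_neg {u : EE n → ℝ} {s : Set (EE n)} (hu : HarmonicOnNhd u s) :
    HarmonicOnNhd (fun x => u (-x)) {x | -x ∈ s} := by
  have h := harmonic_comp_affine hu 0 (r := -1) (by norm_num)
  simpa using h

end Pool.Agent.Lib.MP_47b33c_an
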