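import Pool.Agent.Lib.MP_47b33c_an.Defs
import Pool.Agent.Lib.MP_47b33c_an.Rad
import Pool.Agent.Lib.MP_47b33c_an.Sub
import Pool.Agent.Lib.MP_47b33c_an.SubMax

/-!
# Decay near exterior corkscrews and the maximum principle in unbounded sets (task B5)
-/

set_option autoImplicit false

open MeasureTheory Metric Set Filter Topology InnerProductSpace
open scoped RealInnerProductSpace Laplacian

namespace Pool.Agent.Lib.MP_47b33c_an

variable {n : ℕ}

theorem decay (hn : 2 ≤ n) (c : ℝ) (hc : 0 < c) : ∃ θ : ℝ, 0 < θ ∧ θ < 1 ∧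
    ∀ (D : Set (EE n)) (z : EE n) (r : ℝ) (v : EE n → ℝ) (M : ℝ), IsOpen D → 0 < r →
      ExtAt c D z r → 0 ≤ M → SubH v (D ∩ ball z (6 * r)) →
      (∀ x ∈ D ∩ ball z (6 * r), v x ≤ M) →
      (∀ ζ ∈ frontier D ∩ ball z (6 * r), BdLe D v 0 ζ) →
      ∀ x ∈ D ∩ ball z r, v x ≤ (1 - θ) * M := by
  have hκ : 0 < c ^ n * (((2 : ℝ) ^ n)⁻¹ - ((5 : ℝ) ^ n)⁻¹) := by
    refine mul_pos (pow_pos hc n) (sub_pos.2 ?_)
    exact inv_strictAnti₀ (by positivity) (pow_lt_pow_left₀ (by norm_num) (by norm_num) (by omega))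
  refine ⟨min (c ^ n * (((2 : ℝ) ^ n)⁻¹ - ((5 : ℝ) ^ n)⁻¹)) (1 / 2), lt_min hκ (by norm_num),
    (min_le_right _ _).trans_lt (by norm_num), ?_⟩
  intro D z r v M hD hr hext hM hv hvM hbd
  obtain ⟨a, ha1, ha2⟩ := hext
  have hcr : 0 < c * r := mul_pos hc hr
  have haz : dist a z < r := ha1 (mem_closedBall_self hcr.le)
  have hD1 : ∀ x ∈ D, c * r < ‖x - a‖ := by
    intro x hx
    by_contra hcon
    push Not at hcon
    refine disjoint_left.1 ha2 ?_ hx
    rw [mem_closedBall, dist_eq_norm]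
    exact hcon
  have h5 : 0 < 5 * r := by linarith
  -- the barrier
  set K : ℝ := M * (c * r) ^ n with hK
  have hK0 : 0 ≤ K := mul_nonneg hM (pow_nonneg hcr.le n)
  set b : ℝ := -(M + K * ((5 * r) ^ n)⁻¹) with hb
  have hball : closedBall a (5 * r) ⊆ ball z (6 * r) := by
    intro x hx
    rw [mem_closedBall] at hx
    rw [mem_ball]
    linarith [dist_triangle x a z]
  have hDsub : D ∩ ball a (5 * r) ⊆ D ∩ ball z (6 * r) :=
    inter_subset_inter_right _ (ball_subset_closedBall.trans hball)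
  have hs1 : SubH (fun x : EE n => (‖x - a‖ ^ n)⁻¹) (D ∩ ball a (5 * r)) := by
    have hne : ∀ x ∈ D ∩ ball a (5 * r), x ≠ a := by
      intro x hx hxa
      have := hD1 x hx.1
      rw [hxa, sub_self, norm_zero] at this
      linarith
    exact subH_of_lap hn (hD.inter isOpen_ball) (fun x hx => (lap_barrier hn a x (hne x hx)).1)
      (fun x hx => (lap_barrier hn a x (hne x hx)).2)
  have hs2 : SubH (fun x : EE n => v x + (K * (‖x - a‖ ^ n)⁻¹ + b)) (D ∩ ball a (5 * r)) :=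
    SubH.add hn (hv.mono hDsub) (SubH.add hn (SubH.const_mul hn hs1 hK0) (subH_const b _ hn))
  have hneg : ∀ x ∈ D, K * (‖x - a‖ ^ n)⁻¹ + b ≤ 0 := by
    intro x hx
    have h1 : K * (‖x - a‖ ^ n)⁻¹ ≤ M := by
      have h2 : (c * r) ^ n * (‖x - a‖ ^ n)⁻¹ ≤ 1 := by
        rw [← div_eq_mul_inv]
        exact div_le_one_of_le₀ (pow_le_pow_left₀ hcr.le (hD1 x hx).le n) (by positivity)
      calc K * (‖x - a‖ ^ n)⁻¹ = M * ((c * r) ^ n * (‖x - a‖ ^ n)⁻¹) := by rw [hK]; ring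
        _ ≤ M * 1 := mul_le_mul_of_nonneg_left h2 hM
        _ = M := mul_one M
    have h3 : 0 ≤ K * ((5 * r) ^ n)⁻¹ := by positivity
    rw [hb]
    linarith
  have hle : ∀ x ∈ D ∩ ball a (5 * r), v x + (K * (‖x - a‖ ^ n)⁻¹ + b) ≤ 0 := by
    refine SubH.le_zero hn (hD.inter isOpen_ball) (isBounded_ball.subset inter_subset_right) hs2 ?_
    intro ζ hζ
    have hζ1 : ζ ∈ closure (D ∩ ball a (5 * r)) := frontier_subset_closure hζ
    have hζ2 : ζ ∉ D ∩ ball a (5 * r) := by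
      rw [(hD.inter isOpen_ball).frontier_eq] at hζ
      exact hζ.2
    have hζ3 : ζ ∈ closure D := closure_mono inter_subset_left hζ1
    have hζ4 : ζ ∈ closedBall a (5 * r) :=
      closure_ball_subset_closedBall (closure_mono inter_subset_right hζ1)
    by_cases hζD : ζ ∈ D
    · -- on the sphere
      have hζ5 : ‖ζ - a‖ = 5 * r := by
        have h1 : ζ ∉ ball a (5 * r) := fun h => hζ2 ⟨hζD, h⟩
        rw [mem_ball, dist_eq_norm, not_lt] at h1
        rw [mem_closedBall, dist_eq_norm] at hζ4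
        exact le_antisymm hζ4 h1
      intro η hη
      have hne : ‖ζ - a‖ ^ n ≠ 0 := by rw [hζ5]; positivity
      have hcont : ContinuousAt (fun x : EE n => K * (‖x - a‖ ^ n)⁻¹ + b) ζ := by
        have h1 : ContinuousAt (fun x : EE n => ‖x - a‖ ^ n) ζ := by fun_prop
        exact (continuousAt_const.mul (h1.inv₀ hne)).add continuousAt_const
      have hval : K * (‖ζ - a‖ ^ n)⁻¹ + b = -M := by rw [hζ5, hb]; ring
      have h2 : ∀ᶠ x in 𝓝 ζ, K * (‖x - a‖ ^ n)⁻¹ + b < -M + η := by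
        have h3 := hcont.eventually (gt_mem_nhds (show K * (‖ζ - a‖ ^ n)⁻¹ + b < -M + η by
          rw [hval]; linarith))
        exact h3
      filter_upwards [h2.filter_mono nhdsWithin_le_nhds, self_mem_nhdsWithin] with x hx hxD
      have h4 := hvM x (hDsub hxD)
      linarith
    · -- on the frontier of `D`
      have hζ6 : ζ ∈ frontier D := by
        rw [hD.frontier_eq]
        exact ⟨hζ3, hζD⟩
      intro η hη
      have h1 := hbd ζ ⟨hζ6, hball hζ4⟩ η hη
      have h2 : ∀ᶠ x in 𝓝[D ∩ ball a (5 * r)] ζ, v x ≤ 0 + η :=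
        h1.filter_mono (nhdsWithin_mono _ inter_subset_left)
      filter_upwards [h2, self_mem_nhdsWithin] with x hx hxD
      have h3 := hneg x hxD.1
      linarith
  -- conclusion
  intro x hx
  have hxa : ‖x - a‖ < 2 * r := by
    have h1 := hx.2
    rw [mem_ball] at h1
    rw [← dist_eq_norm]
    rw [dist_comm a z] at haz
    linarith [dist_triangle x z a]
  have hxD : x ∈ D ∩ ball a (5 * r) := by
    refine ⟨hx.1, ?_⟩
    rw [mem_ball, dist_eq_norm]
    linarith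
  have h1 := hle x hxD
  have hx0 : 0 < ‖x - a‖ := hcr.trans (hD1 x hx.1)
  have h2 : K * ((2 * r) ^ n)⁻¹ ≤ K * (‖x - a‖ ^ n)⁻¹ := by
    refine mul_le_mul_of_nonneg_left ?_ hK0
    exact inv_anti₀ (pow_pos hx0 n) (pow_le_pow_left₀ hx0.le hxa.le n)
  have h3 : K * ((2 * r) ^ n)⁻¹ = M * (c ^ n * ((2 : ℝ) ^ n)⁻¹) := by
    rw [hK, mul_pow, mul_pow, mul_inv]
    have : r ^ n ≠ 0 := (pow_pos hr n).ne'
    field_simp
  have h4 : K * ((5 * r) ^ n)⁻¹ = M * (c ^ n * ((5 : ℝ) ^ n)⁻¹) := by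
    rw [hK, mul_pow, mul_pow, mul_inv]
    have : r ^ n ≠ 0 := (pow_pos hr n).ne'
    field_simp
  have h5 : v x ≤ (1 - c ^ n * (((2 : ℝ) ^ n)⁻¹ - ((5 : ℝ) ^ n)⁻¹)) * M := by
    rw [h3] at h2
    rw [hb, h4] at h1
    nlinarith
  refine h5.trans (mul_le_mul_of_nonneg_right ?_ hM)
  have := min_le_left (c ^ n * (((2 : ℝ) ^ n)⁻¹ - ((5 : ℝ) ^ n)⁻¹)) (1 / 2)
  linarith

/-- maximum principle for unbounded sets with exterior corkscrews at all large scales -/
theorem max_unbounded (hn : 2 ≤ n) {D : Set (EE n)} (hD : IsOpen D) {c r₀ : ℝ} (hc : 0 < c)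
    (z : EE n) (hext : ∀ r : ℝ, r₀ ≤ r → 0 < r → ExtAt c D z r) {v : EE n → ℝ} (hv : SubH v D)
    {M : ℝ} (hM : ∀ x ∈ D, v x ≤ M) (h : ∀ ζ ∈ frontier D, BdLe D v 0 ζ) :
    ∀ x ∈ D, v x ≤ 0 := by
  obtain ⟨θ, hθ0, hθ1, hdec⟩ := decay hn c hc
  have hM0 : 0 ≤ max M 0 := le_max_right _ _
  have key : ∀ k : ℕ, ∀ x ∈ D, v x ≤ (1 - θ) ^ k * max M 0 := by
    intro k
    induction k with
    | zero =>
      intro x hx
      rw [pow_zero, one_mul]
      exact (hM x hx).trans (le_max_left _ _)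
    | succ k ih =>
      intro x hx
      set r : ℝ := max r₀ (dist x z + 1) with hr
      have hr1 : dist x z + 1 ≤ r := le_max_right _ _
      have hr0 : 0 < r := by linarith [dist_nonneg (x := x) (y := z)]
      have h1 := hdec D z r v ((1 - θ) ^ k * max M 0) hD hr0 (hext r (le_max_left _ _) hr0)
        (mul_nonneg (pow_nonneg (by linarith) k) hM0) (hv.mono inter_subset_left)
        (fun y hy => ih y hy.1) (fun ζ hζ => h ζ hζ.1) x ⟨hx, by rw [mem_ball]; linarith⟩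
      rw [pow_succ]
      linarith
  intro x hx
  have hlim : Tendsto (fun k : ℕ => (1 - θ) ^ k * max M 0) atTop (𝓝 (0 * max M 0)) :=
    (tendsto_pow_atTop_nhds_zero_of_lt_one (by linarith) (by linarith)).mul_const _
  rw [zero_mul] at hlim
  exact ge_of_tendsto hlim (Eventually.of_forall fun k => key k x hx)

end Pool.Agent.Lib.MP_47b33c_an
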