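import Pool.Agent.Lib.MP_47b33c_an.Defs

/-!
# The radial weights, and integration by parts
-/

set_option autoImplicit false

open MeasureTheory Metric Set Filter Topology InnerProductSpace
open scoped RealInnerProductSpace Laplacian

namespace Pool.Agent.Lib.MP_47b33c_an

variable {n : ℕ}

/-! ### The one-dimensional profile -/

theorem a3_hasDerivAt_pow (k : ℕ) (hk : 1 ≤ k) (s : ℝ) :
    HasDerivAt (fun t : ℝ => (max 0 t) ^ (k + 1)) ((k + 1) * (max 0 s) ^ k) s := by
  rcases lt_trichotomy s 0 with hs | hs | hs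
  · have h1 : (fun t : ℝ => (max 0 t) ^ (k + 1)) =ᶠ[𝓝 s] fun _ => (0 : ℝ) := by
      filter_upwards [Iio_mem_nhds hs] with t ht
      rw [max_eq_left (le_of_lt ht), zero_pow (by omega)]
    rw [max_eq_left hs.le, zero_pow (by omega), mul_zero]
    exact (hasDerivAt_const s (0 : ℝ)).congr_of_eventuallyEq h1
  · subst hs
    rw [max_self, zero_pow (by omega), mul_zero]
    rw [hasDerivAt_iff_isLittleO_nhds_zero]
    simp only [zero_add, max_self, smul_zero, sub_zero]
    rw [zero_pow (by omega : k + 1 ≠ 0)]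
    simp only [sub_zero]
    have h1 : (fun t : ℝ => (max 0 t) ^ (k + 1)) =O[𝓝 0] fun t : ℝ => t ^ (k + 1) := by
      refine Asymptotics.IsBigO.of_bound 1 (Eventually.of_forall fun t => ?_)
      rw [one_mul, norm_pow, norm_pow]
      refine pow_le_pow_left₀ (norm_nonneg _) ?_ _
      rw [Real.norm_eq_abs, Real.norm_eq_abs, abs_of_nonneg (le_max_left _ _)]
      exact max_le (abs_nonneg _) (le_abs_self _)
    refine h1.trans_isLittleO ?_
    have h2 : (fun t : ℝ => t ^ (k + 1)) =o[𝓝 0] fun t : ℝ => t ^ 1 :=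
      Asymptotics.isLittleO_pow_pow (by omega)
    simpa using h2
  · have h1 : (fun t : ℝ => (max 0 t) ^ (k + 1)) =ᶠ[𝓝 s] fun t => t ^ (k + 1) := by
      filter_upwards [Ioi_mem_nhds hs] with t ht
      rw [max_eq_right (le_of_lt ht)]
    rw [max_eq_right hs.le]
    have h2 := (hasDerivAt_pow (k + 1) s).congr_of_eventuallyEq h1
    simpa using h2

theorem a3_continuous_pow (k : ℕ) : Continuous (fun t : ℝ => (max 0 t) ^ k) := by fun_prop

theorem a3_contDiff_one : ContDiff ℝ 1 (fun t : ℝ => (max 0 t) ^ 2) := by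
  rw [contDiff_one_iff_deriv]
  refine ⟨fun s => (a3_hasDerivAt_pow 1 le_rfl s).differentiableAt, ?_⟩
  have h : deriv (fun t : ℝ => (max 0 t) ^ 2) = fun s : ℝ => ((1 : ℕ) + 1 : ℝ) * (max 0 s) ^ 1 :=
    funext fun s => (a3_hasDerivAt_pow 1 le_rfl s).deriv
  rw [h]
  fun_prop

theorem a3_contDiff_two : ContDiff ℝ 2 (fun t : ℝ => (max 0 t) ^ 3) := by
  rw [show (2 : WithTop ℕ∞) = 1 + 1 from one_add_one_eq_two.symm, contDiff_succ_iff_deriv]
  refine ⟨fun s => (a3_hasDerivAt_pow 2 (by norm_num) s).differentiableAt, by simp, ?_⟩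
  have h : deriv (fun t : ℝ => (max 0 t) ^ 3) = fun s : ℝ => ((2 : ℕ) + 1 : ℝ) * (max 0 s) ^ 2 :=
    funext fun s => (a3_hasDerivAt_pow 2 (by norm_num) s).deriv
  rw [h]
  exact contDiff_const.mul a3_contDiff_one

/-! ### The weights -/

theorem wt_continuous (k : ℕ) : Continuous (wt k : EE n → ℝ) := by
  unfold wt
  fun_prop

theorem wt_contDiff : ContDiff ℝ 2 (wt 3 : EE n → ℝ) := by
  have h : (wt 3 : EE n → ℝ) = (fun t : ℝ => (max 0 t) ^ 3) ∘ fun y : EE n => 1 - ‖y‖ ^ 2 := rfl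
  rw [h]
  exact a3_contDiff_two.comp (contDiff_const.sub (contDiff_norm_sq ℝ))

theorem wt_nonneg (k : ℕ) (y : EE n) : 0 ≤ wt k y := pow_nonneg (le_max_left _ _) _

theorem wt_le_one (k : ℕ) (y : EE n) : wt k y ≤ 1 := by
  refine pow_le_one₀ (le_max_left _ _) (max_le zero_le_one ?_)
  have := sq_nonneg ‖y‖
  linarith

theorem wt_eq_zero (k : ℕ) (hk : 1 ≤ k) {y : EE n} (hy : 1 ≤ ‖y‖) : wt k y = 0 := by
  have h : 1 - ‖y‖ ^ 2 ≤ 0 := by nlinarith
  unfold wt
  rw [max_eq_left h, zero_pow (by omega)]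

theorem a3_wt_hasCompactSupport (k : ℕ) (hk : 1 ≤ k) : HasCompactSupport (wt k : EE n → ℝ) := by
  refine HasCompactSupport.intro (isCompact_closedBall (0 : EE n) 1) fun y hy => ?_
  rw [mem_closedBall, dist_zero_right, not_le] at hy
  exact wt_eq_zero k hk hy.le

theorem wt_integrable (k : ℕ) (hk : 1 ≤ k) : Integrable (wt k : EE n → ℝ) :=
  (wt_continuous k).integrable_of_hasCompactSupport (a3_wt_hasCompactSupport k hk)

theorem wt_integral_pos (hn : 2 ≤ n) (k : ℕ) (hk : 1 ≤ k) : 0 < ∫ y : EE n, wt k y := by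
  refine (wt_continuous k).integral_pos_of_hasCompactSupport_nonneg_nonzero
    (a3_wt_hasCompactSupport k hk) (wt_nonneg k) (x := 0) ?_
  simp [wt]

theorem wt_hasFDerivAt (k : ℕ) (hk : 1 ≤ k) (y : EE n) :
    HasFDerivAt (wt (k + 1) : EE n → ℝ) ((-(2 * (k + 1)) * wt k y) • innerSL ℝ y) y := by
  have h1 : HasFDerivAt (fun z : EE n => 1 - ‖z‖ ^ 2) (-(2 • innerSL ℝ y)) y := by
    have h2 := (hasStrictFDerivAt_norm_sq y).hasFDerivAt
    have h4 := (hasFDerivAt_const (1 : ℝ) y).sub h2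
    rw [zero_sub] at h4
    exact h4
  have h3 := (a3_hasDerivAt_pow k hk (1 - ‖y‖ ^ 2)).comp_hasFDerivAt y h1
  refine h3.congr_fderiv ?_
  ext v
  simp [wt]
  ring

theorem a3_laplacian_eq (f : EE n → ℝ) (x : EE n) :
    Δ f x = ∑ i, iteratedFDeriv ℝ 2 f x
      ![EuclideanSpace.basisFun (Fin n) ℝ i, EuclideanSpace.basisFun (Fin n) ℝ i] :=
  congrFun (laplacian_eq_iteratedFDeriv_orthonormalBasis f (EuclideanSpace.basisFun (Fin n) ℝ)) x

theorem a3_laplacian_continuous {f : EE n → ℝ} (hf : ContDiff ℝ 2 f) : Continuous (Δ f) := by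
  have h : Δ f = fun x => ∑ i, iteratedFDeriv ℝ 2 f x
      ![EuclideanSpace.basisFun (Fin n) ℝ i, EuclideanSpace.basisFun (Fin n) ℝ i] :=
    funext fun x => a3_laplacian_eq f x
  rw [h]
  refine continuous_finsetSum _ fun i _ => ?_
  exact (continuous_eval_const _).comp (hf.continuous_iteratedFDeriv le_rfl)

theorem lap_wt_continuous : Continuous (Δ (wt 3 : EE n → ℝ)) := a3_laplacian_continuous wt_contDiff

theorem lap_wt_eq_zero {y : EE n} (hy : 1 < ‖y‖) : Δ (wt 3 : EE n → ℝ) y = 0 := by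
  have h : (wt 3 : EE n → ℝ) =ᶠ[𝓝 y] fun _ => (0 : ℝ) := by
    filter_upwards [continuous_norm.continuousAt.eventually (lt_mem_nhds hy)] with z hz
    exact wt_eq_zero 3 (by norm_num) (le_of_lt hz)
  rw [laplacian_congr_nhds h |>.eq_of_nhds]
  simp

/-! ### Integration by parts -/

theorem a3_integrable {K : Set (EE n)} (hK : IsCompact K) {F : EE n → ℝ} (hF : ContinuousOn F K)
    (hz : ∀ x, x ∉ K → F x = 0) : Integrable F :=
  (hF.integrableOn_compact hK).integrable_of_forall_notMem_eq_zero hz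

theorem a3_fderiv_dir {f : EE n → ℝ} {x : EE n} (hf : ContDiffAt ℝ 2 f x) (v : EE n) :
    HasFDerivAt (fun y => fderiv ℝ f y v)
      ((ContinuousLinearMap.apply ℝ ℝ v).comp (fderiv ℝ (fderiv ℝ f) x)) x := by
  have h1 : ContDiffAt ℝ 1 (fderiv ℝ f) x := hf.fderiv_right (m := 1) (by norm_num)
  have h2 : HasFDerivAt (fderiv ℝ f) (fderiv ℝ (fderiv ℝ f) x) x :=
    (h1.differentiableAt one_ne_zero).hasFDerivAt
  exact (ContinuousLinearMap.apply ℝ ℝ v).hasFDerivAt.comp x h2

theorem a3_second (f : EE n → ℝ) {x : EE n} (hf : ContDiffAt ℝ 2 f x) (v : EE n) :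
    iteratedFDeriv ℝ 2 f x ![v, v] = fderiv ℝ (fun y => fderiv ℝ f y v) x v := by
  rw [iteratedFDeriv_two_apply, (a3_fderiv_dir hf v).fderiv]
  rfl

/-- the second directional derivative is symmetric with respect to integration -/
theorem a3_ibp_dir {Ω : Set (EE n)} {u φ : EE n → ℝ}
    (hu : ∀ x ∈ Ω, ContDiffAt ℝ 2 u x) (hφ : ContDiff ℝ 2 φ) (hc : HasCompactSupport φ)
    (hs : tsupport φ ⊆ Ω) (v : EE n) :
    Integrable (fun x => u x * fderiv ℝ (fun y => fderiv ℝ φ y v) x v) ∧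
    Integrable (fun x => φ x * fderiv ℝ (fun y => fderiv ℝ u y v) x v) ∧
    ∫ x, u x * fderiv ℝ (fun y => fderiv ℝ φ y v) x v =
      ∫ x, φ x * fderiv ℝ (fun y => fderiv ℝ u y v) x v := by
  set K := tsupport φ with hKdef
  have hK : IsCompact K := hc
  -- derivatives of `φ`
  have hφ1 : ContDiff ℝ 1 (fun y => fderiv ℝ φ y v) :=
    (hφ.fderiv_right (m := 1) (by norm_num)).clm_apply contDiff_const
  have hφ2 : Continuous (fun x => fderiv ℝ (fun y => fderiv ℝ φ y v) x v) :=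
    ((hφ1.continuous_fderiv one_ne_zero).clm_apply continuous_const)
  have hz0 : ∀ x, x ∉ K → φ =ᶠ[𝓝 x] fun _ => (0 : ℝ) := fun x hx =>
    notMem_tsupport_iff_eventuallyEq.1 hx
  have hz1 : ∀ x, x ∉ K → (fun y => fderiv ℝ φ y v) =ᶠ[𝓝 x] fun _ => (0 : ℝ) := by
    intro x hx
    filter_upwards [(hz0 x hx).fderiv (𝕜 := ℝ)] with y hy
    rw [hy]
    simp
  have hz2 : ∀ x, x ∉ K → fderiv ℝ (fun y => fderiv ℝ φ y v) x v = 0 := by
    intro x hx
    rw [(hz1 x hx).fderiv_eq]
    simp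
  -- derivatives of `u`
  have hu0 : ContinuousOn u K := fun x hx => (hu x (hs hx)).continuousAt.continuousWithinAt
  have hu1 : ∀ x ∈ K, ContDiffAt ℝ 1 (fun y => fderiv ℝ u y v) x := fun x hx =>
    ((hu x (hs hx)).fderiv_right (m := 1) (by norm_num)).clm_apply contDiffAt_const
  have hu1c : ContinuousOn (fun y => fderiv ℝ u y v) K := fun x hx =>
    (hu1 x hx).continuousAt.continuousWithinAt
  have hu2c : ContinuousOn (fun x => fderiv ℝ (fun y => fderiv ℝ u y v) x v) K := by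
    intro x hx
    have h := ((hu1 x hx).fderiv_right (m := 0) (by norm_num)).continuousAt
    exact ((h.clm_apply continuousAt_const)).continuousWithinAt
  have hφd : Differentiable ℝ φ := hφ.differentiable two_ne_zero
  have i1 : Integrable (fun x => u x * fderiv ℝ (fun y => fderiv ℝ φ y v) x v) :=
    a3_integrable hK (hu0.mul hφ2.continuousOn) fun x hx => by rw [hz2 x hx, mul_zero]
  have i2 : Integrable (fun x => fderiv ℝ u x v * fderiv ℝ φ x v) :=
    a3_integrable hK (hu1c.mul hφ1.continuous.continuousOn) fun x hx => by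
      rw [(hz1 x hx).eq_of_nhds, mul_zero]
  have i3 : Integrable (fun x => u x * fderiv ℝ φ x v) :=
    a3_integrable hK (hu0.mul hφ1.continuous.continuousOn) fun x hx => by
      rw [(hz1 x hx).eq_of_nhds, mul_zero]
  have i4 : Integrable (fun x => fderiv ℝ (fun y => fderiv ℝ u y v) x v * φ x) :=
    a3_integrable hK (hu2c.mul hφ.continuous.continuousOn) fun x hx => by
      rw [(hz0 x hx).eq_of_nhds, mul_zero]
  have i5 : Integrable (fun x => fderiv ℝ u x v * φ x) :=
    a3_integrable hK (hu1c.mul hφ.continuous.continuousOn) fun x hx => by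
      rw [(hz0 x hx).eq_of_nhds, mul_zero]
  refine ⟨i1, by simpa only [mul_comm] using i4, ?_⟩
  have e1 : ∫ x, u x * fderiv ℝ (fun y => fderiv ℝ φ y v) x v =
      -∫ x, fderiv ℝ u x v * fderiv ℝ φ x v := by
    refine integral_mul_fderiv_eq_neg_fderiv_mul_of_integrable i2 i1 i3 (fun x hx => ?_)
      fun x _ => (hφ1.differentiable one_ne_zero) x
    have hxK : x ∈ K := by
      by_contra h
      exact notMem_tsupport_iff_eventuallyEq.2 (hz1 x h) hx
    exact (hu x (hs hxK)).differentiableAt two_ne_zero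
  have e2 : ∫ x, fderiv ℝ u x v * fderiv ℝ φ x v =
      -∫ x, fderiv ℝ (fun y => fderiv ℝ u y v) x v * φ x :=
    integral_mul_fderiv_eq_neg_fderiv_mul_of_integrable i4 i2 i5
      (fun x hx => (hu1 x hx).differentiableAt one_ne_zero) fun x _ => hφd x
  rw [e1, e2, neg_neg]
  exact integral_congr_ae (Eventually.of_forall fun x => mul_comm _ _)

/-- integration by parts -/
theorem green_ibp {Ω : Set (EE n)} (hΩ : IsOpen Ω) {u φ : EE n → ℝ}
    (hu : ∀ x ∈ Ω, ContDiffAt ℝ 2 u x) (hφ : ContDiff ℝ 2 φ) (hc : HasCompactSupport φ)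
    (hs : tsupport φ ⊆ Ω) : ∫ x, u x * Δ φ x = ∫ x, φ x * Δ u x := by
  set e : Fin n → EE n := fun i => EuclideanSpace.basisFun (Fin n) ℝ i with he
  have h1 : ∀ x, u x * Δ φ x = ∑ i, u x * fderiv ℝ (fun y => fderiv ℝ φ y (e i)) x (e i) := by
    intro x
    rw [a3_laplacian_eq, Finset.mul_sum]
    exact Finset.sum_congr rfl fun i _ => by rw [a3_second φ hφ.contDiffAt]
  have h2 : ∀ x, φ x * Δ u x = ∑ i, φ x * fderiv ℝ (fun y => fderiv ℝ u y (e i)) x (e i) := by
    intro x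
    by_cases hx : x ∈ tsupport φ
    · rw [a3_laplacian_eq, Finset.mul_sum]
      exact Finset.sum_congr rfl fun i _ => by rw [a3_second u (hu x (hs hx))]
    · rw [image_eq_zero_of_notMem_tsupport hx]
      simp
  simp only [h1, h2]
  rw [integral_finsetSum _ fun i _ => (a3_ibp_dir hu hφ hc hs (e i)).1,
    integral_finsetSum _ fun i _ => (a3_ibp_dir hu hφ hc hs (e i)).2.1]
  exact Finset.sum_congr rfl fun i _ => (a3_ibp_dir hu hφ hc hs (e i)).2.2

end Pool.Agent.Lib.MP_47b33c_an
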