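import Pool.Agent.Lib.MP_47b33c_an.Defs
import Pool.Agent.Lib.MP_47b33c_an.Wt
import Pool.Agent.Lib.MP_47b33c_an.WDeriv

/-!
# Harnack inequality on balls and chains
-/

set_option autoImplicit false

open MeasureTheory Metric Set Filter Topology InnerProductSpace
open scoped RealInnerProductSpace Laplacian

namespace Pool.Agent.Lib.MP_47b33c_an

variable {n : ℕ}

/-- change of variables in the weighted ball means -/
theorem a7_cv (k : ℕ) (u : EE n → ℝ) (x : EE n) {ρ : ℝ} (hρ : 0 < ρ) :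
    ∫ y : EE n, u (x + ρ • y) * wt k y = (ρ ^ n)⁻¹ * ∫ w : EE n, u w * wt k (ρ⁻¹ • (w - x)) := by
  have h1 : (fun y : EE n => u (x + ρ • y) * wt k y) =
      fun y => (fun v : EE n => u (x + v) * wt k (ρ⁻¹ • v)) (ρ • y) := by
    funext y
    simp only [smul_smul, inv_mul_cancel₀ hρ.ne', one_smul]
  rw [h1, Measure.integral_comp_smul volume (fun v : EE n => u (x + v) * wt k (ρ⁻¹ • v)) ρ]
  have h2 : ∫ v : EE n, u (x + v) * wt k (ρ⁻¹ • v) =
      ∫ w : EE n, u w * wt k (ρ⁻¹ • (w - x)) := by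
    rw [← integral_add_left_eq_self (fun w : EE n => u w * wt k (ρ⁻¹ • (w - x))) x]
    simp only [add_sub_cancel_left]
  rw [h2, finrank_euclideanSpace_fin, abs_of_pos (by positivity), smul_eq_mul]

theorem a7_integrable {k : ℕ} (hk : 1 ≤ k) {u : EE n → ℝ} {x : EE n} {ρ : ℝ} (hρ : 0 < ρ)
    (hu : ContinuousOn u (closedBall x ρ)) :
    Integrable (fun w : EE n => u w * wt k (ρ⁻¹ • (w - x))) := by
  have hs : Function.support (fun w : EE n => u w * wt k (ρ⁻¹ • (w - x))) ⊆ closedBall x ρ := by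
    intro w hw
    by_contra hcon
    apply hw
    have h1 : 1 ≤ ‖ρ⁻¹ • (w - x)‖ := by
      rw [norm_smul, norm_inv, Real.norm_of_nonneg hρ.le, ← div_eq_inv_mul, one_le_div hρ,
        ← dist_eq_norm]
      rw [mem_closedBall, not_le] at hcon
      exact hcon.le
    simp only [wt_eq_zero k hk h1, mul_zero]
  rw [← integrableOn_iff_integrable_of_support_subset hs]
  refine ContinuousOn.integrableOn_compact (isCompact_closedBall x ρ) ?_
  have hc : Continuous fun w : EE n => wt k (ρ⁻¹ • (w - x)) :=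
    (wt_continuous k).comp (by fun_prop : Continuous fun w : EE n => ρ⁻¹ • (w - x))
  exact hu.mul hc.continuousOn

/-- comparison of the values at two near points -/
theorem a7_cmp (hn : 2 ≤ n) {u : EE n → ℝ} {p q : EE n} {r : ℝ} (hr : 0 < r)
    (hpq : dist p q ≤ r) (hu : HarmonicOnNhd u (closedBall q (5 / 2 * r)))
    (h0 : ∀ w ∈ closedBall q (5 / 2 * r), 0 ≤ u w) :
    u p ≤ 25 / 9 * (5 / 2) ^ n * u q := by
  have hsub : closedBall p r ⊆ closedBall q (5 / 2 * r) :=
    closedBall_subset_closedBall' (by linarith)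
  have hI := wt_integral_pos (n := n) hn 1 le_rfl
  have m1 := mvp hn 1 le_rfl hr.le (hu.mono hsub)
  have m2 := mvp hn 1 le_rfl (by positivity) hu
  rw [a7_cv 1 u p hr] at m1
  rw [a7_cv 1 u q (show (0 : ℝ) < 5 / 2 * r by positivity)] at m2
  set I := ∫ y : EE n, wt 1 y with hIdef
  have hpt : ∀ w : EE n, u w * wt 1 (r⁻¹ • (w - p)) ≤
      25 / 9 * (u w * wt 1 ((5 / 2 * r)⁻¹ • (w - q))) ∧ 0 ≤ u w * wt 1 (r⁻¹ • (w - p)) := by
    intro w
    by_cases hw : dist w p < r
    · have hwq : dist w q < 2 * r := by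
        have := dist_triangle w p q
        linarith
      have huw : 0 ≤ u w := h0 w (by rw [mem_closedBall]; linarith)
      have e1 : 9 / 25 ≤ wt 1 ((5 / 2 * r)⁻¹ • (w - q)) := by
        unfold wt
        rw [pow_one, norm_smul, norm_inv, Real.norm_of_nonneg (by positivity), ← dist_eq_norm]
        refine le_max_of_le_right ?_
        have e2 : (5 / 2 * r)⁻¹ * dist w q ≤ 4 / 5 := by
          rw [inv_mul_le_iff₀ (by positivity)]
          linarith
        have e3 : 0 ≤ (5 / 2 * r)⁻¹ * dist w q := by positivity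
        nlinarith
      have e4 : wt 1 (r⁻¹ • (w - p)) ≤ 1 := wt_le_one 1 _
      have e5 : 0 ≤ wt 1 (r⁻¹ • (w - p)) := wt_nonneg 1 _
      constructor
      · have e6 : u w * wt 1 (r⁻¹ • (w - p)) ≤ u w * 1 := mul_le_mul_of_nonneg_left e4 huw
        have e7 : u w * (9 / 25) ≤ u w * wt 1 ((5 / 2 * r)⁻¹ • (w - q)) :=
          mul_le_mul_of_nonneg_left e1 huw
        linarith
      · exact mul_nonneg huw e5
    · have h1 : 1 ≤ ‖r⁻¹ • (w - p)‖ := by
        rw [norm_smul, norm_inv, Real.norm_of_nonneg hr.le, ← div_eq_inv_mul, one_le_div hr,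
          ← dist_eq_norm]
        exact not_lt.1 hw
      rw [wt_eq_zero 1 le_rfl h1, mul_zero]
      refine ⟨?_, le_rfl⟩
      by_cases hw2 : dist w q < 5 / 2 * r
      · exact mul_nonneg (by norm_num) (mul_nonneg (h0 w hw2.le) (wt_nonneg 1 _))
      · have h2 : 1 ≤ ‖(5 / 2 * r)⁻¹ • (w - q)‖ := by
          rw [norm_smul, norm_inv, Real.norm_of_nonneg (by positivity), ← div_eq_inv_mul,
            one_le_div (by positivity), ← dist_eq_norm]
          exact not_lt.1 hw2
        rw [wt_eq_zero 1 le_rfl h2]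
        simp
  have hle : ∫ w : EE n, u w * wt 1 (r⁻¹ • (w - p)) ≤
      ∫ w : EE n, 25 / 9 * (u w * wt 1 ((5 / 2 * r)⁻¹ • (w - q))) := by
    refine integral_mono_of_nonneg (Eventually.of_forall fun w => (hpt w).2) ?_
      (Eventually.of_forall fun w => (hpt w).1)
    exact (a7_integrable le_rfl (by positivity) hu.continuousOn).const_mul _
  rw [integral_const_mul] at hle
  set A := ∫ w : EE n, u w * wt 1 (r⁻¹ • (w - p)) with hA
  set B := ∫ w : EE n, u w * wt 1 ((5 / 2 * r)⁻¹ • (w - q)) with hB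
  have hrn : 0 < r ^ n := by positivity
  have e1 : A = u p * I * r ^ n := by
    rw [← m1]
    field_simp
  have e2 : B = u q * I * ((5 / 2) ^ n * r ^ n) := by
    rw [← m2, mul_pow]
    field_simp
  rw [e1, e2] at hle
  have e3 : u p * (I * r ^ n) ≤ (25 / 9 * (5 / 2) ^ n * u q) * (I * r ^ n) := by linarith
  exact le_of_mul_le_mul_right e3 (by positivity)

theorem harnack_ball (hn : 2 ≤ n) : ∃ C : ℝ, 1 ≤ C ∧ ∀ (u : EE n → ℝ) (x : EE n) (r : ℝ),
    0 < r → HarmonicOnNhd u (ball x (4 * r)) → (∀ y ∈ ball x (4 * r), 0 ≤ u y) →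
    ∀ y ∈ closedBall x r, u y ≤ C * u x ∧ u x ≤ C * u y := by
  refine ⟨25 / 9 * (5 / 2) ^ n, ?_, fun u x r hr hu h0 y hy => ?_⟩
  · have : (1 : ℝ) ≤ (5 / 2) ^ n := one_le_pow₀ (by norm_num)
    linarith
  · rw [mem_closedBall] at hy
    have s1 : closedBall x (5 / 2 * r) ⊆ ball x (4 * r) :=
      closedBall_subset_ball (by linarith)
    have s2 : closedBall y (5 / 2 * r) ⊆ ball x (4 * r) := by
      intro w hw
      rw [mem_closedBall] at hw
      rw [mem_ball]
      have := dist_triangle w y x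
      linarith
    exact ⟨a7_cmp hn hr hy (hu.mono s1) fun w hw => h0 w (s1 hw),
      a7_cmp hn hr (by rw [dist_comm]; exact hy) (hu.mono s2) fun w hw => h0 w (s2 hw)⟩

theorem harnack_chain (hn : 2 ≤ n) : ∃ C : ℝ, 1 ≤ C ∧ ∀ (u : EE n → ℝ) (U : Set (EE n))
    (p q : EE n) (ρ : ℝ) (m : ℕ), IsOpen U → 0 < ρ → HarmonicOnNhd u U → (∀ y ∈ U, 0 ≤ u y) →
    (∀ x ∈ segment ℝ p q, ball x (4 * ρ) ⊆ U) → dist p q ≤ m * ρ → u q ≤ C ^ m * u p := by
  obtain ⟨C, hC, h⟩ := harnack_ball (n := n) hn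
  refine ⟨C, hC, fun u U p q ρ m hU hρ hu h0 hs hd => ?_⟩
  induction m generalizing p with
  | zero =>
    have h1 : dist p q = 0 := le_antisymm (by simpa using hd) dist_nonneg
    rw [eq_of_dist_eq_zero h1, pow_zero, one_mul]
  | succ m ih =>
    set p' : EE n := AffineMap.lineMap p q ((1 : ℝ) / (m + 1)) with hp'
    have ht0 : (0 : ℝ) ≤ 1 / (m + 1) := by positivity
    have ht1 : (1 : ℝ) / (m + 1) ≤ 1 := by
      rw [div_le_one (by positivity)]
      have : (0 : ℝ) ≤ m := Nat.cast_nonneg m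
      linarith
    have hmem : p' ∈ segment ℝ p q := by
      rw [segment_eq_image_lineMap]
      exact ⟨_, ⟨ht0, ht1⟩, rfl⟩
    have hd1 : dist p' p ≤ ρ := by
      rw [hp', dist_lineMap_left, Real.norm_of_nonneg ht0, div_mul_eq_mul_div, one_mul,
        div_le_iff₀ (by positivity)]
      push_cast at hd
      linarith
    have hd2 : dist p' q ≤ m * ρ := by
      rw [hp', dist_lineMap_right, Real.norm_of_nonneg (by linarith)]
      have e : (1 : ℝ) - 1 / (m + 1) = m / (m + 1) := by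
        field_simp
        ring
      rw [e, div_mul_eq_mul_div, div_le_iff₀ (by positivity)]
      push_cast at hd
      nlinarith [mul_le_mul_of_nonneg_left hd (Nat.cast_nonneg (α := ℝ) m)]
    have hsub : segment ℝ p' q ⊆ segment ℝ p q :=
      (convex_segment p q).segment_subset hmem (right_mem_segment ℝ p q)
    have h2 := ih p' (fun x hx => hs x (hsub hx)) hd2
    have hball := hs p (left_mem_segment ℝ p q)
    have h3 := (h u p ρ hρ (hu.mono hball) (fun y hy => h0 y (hball hy)) p'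
      (by rw [mem_closedBall]; exact hd1)).1
    calc u q ≤ C ^ m * u p' := h2
      _ ≤ C ^ m * (C * u p) := mul_le_mul_of_nonneg_left h3 (by positivity)
      _ = C ^ (m + 1) * u p := by ring

end Pool.Agent.Lib.MP_47b33c_an
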