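import Pool.Agent.Lib.MP_47b33c_an.Defs
import Pool.Agent.Lib.MP_47b33c_an.Wt
import Pool.Agent.Lib.MP_47b33c_an.WDeriv
import Pool.Agent.Lib.MP_47b33c_an.HLim
import Pool.Agent.Lib.MP_47b33c_an.Harnack

/-!
# Strong maximum principle and Harnack's principle
-/

set_option autoImplicit false

open MeasureTheory Metric Set Filter Topology InnerProductSpace
open scoped RealInnerProductSpace Laplacian

namespace Pool.Agent.Lib.MP_47b33c_an

variable {n : ℕ}

theorem a8_continuous {k : ℕ} (hk : 1 ≤ k) {u : EE n → ℝ} {x : EE n} {ρ r : ℝ} (hρ : 0 < ρ)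
    (hr : ρ < r) (hu : ContinuousOn u (ball x r)) :
    Continuous fun z : EE n => u (x + ρ • z) * wt k z := by
  rw [continuous_iff_continuousAt]
  intro z
  by_cases hz : x + ρ • z ∈ ball x r
  · have h1 : ContinuousAt u (x + ρ • z) := hu.continuousAt (isOpen_ball.mem_nhds hz)
    have h2 : ContinuousAt (fun z : EE n => x + ρ • z) z := by fun_prop
    exact (ContinuousAt.comp (f := fun z : EE n => x + ρ • z) h1 h2).mul
      (wt_continuous k).continuousAt
  · have hz1 : 1 < ‖z‖ := by
      rw [mem_ball, dist_eq_norm, add_sub_cancel_left, norm_smul, Real.norm_of_nonneg hρ.le,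
        not_lt] at hz
      by_contra hcon
      push Not at hcon
      nlinarith
    have h3 : (fun z : EE n => u (x + ρ • z) * wt k z) =ᶠ[𝓝 z] fun _ => 0 := by
      have h4 : ∀ᶠ y in 𝓝 z, 1 < ‖y‖ :=
        (isOpen_lt continuous_const continuous_norm).mem_nhds hz1
      filter_upwards [h4] with y hy
      rw [wt_eq_zero k hk hy.le, mul_zero]
    exact continuousAt_const.congr h3.symm

theorem a8_compact {k : ℕ} (hk : 1 ≤ k) (g : EE n → ℝ) :
    HasCompactSupport fun z : EE n => g z * wt k z := by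
  refine HasCompactSupport.intro (isCompact_closedBall (0 : EE n) 1) fun z hz => ?_
  rw [mem_closedBall_zero_iff, not_le] at hz
  rw [wt_eq_zero k hk hz.le, mul_zero]

theorem strong_max (hn : 2 ≤ n) {u : EE n → ℝ} {x : EE n} {r M : ℝ}
    (hu : HarmonicOnNhd u (ball x r)) (hM : ∀ y ∈ ball x r, u y ≤ M) (hx : u x = M) :
    ∀ y ∈ ball x r, u y = M := by
  intro y hy
  rw [mem_ball] at hy
  have hr : 0 < r := dist_nonneg.trans_lt hy
  have hd := dist_nonneg (x := y) (y := x)
  set ρ := (dist y x + r) / 2 with hρdef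
  have hρ : 0 < ρ := by linarith
  have hρr : ρ < r := by linarith
  have hdρ : dist y x < ρ := by linarith
  have hm := mvp hn 1 le_rfl hρ.le (hu.mono (closedBall_subset_ball hρr))
  set f : EE n → ℝ := fun z => (M - u (x + ρ • z)) * wt 1 z with hfdef
  have hf : Continuous f := a8_continuous (u := fun w => M - u w) le_rfl hρ hρr
    (continuousOn_const.sub hu.continuousOn)
  have hc1 : Continuous fun z : EE n => u (x + ρ • z) * wt 1 z :=
    a8_continuous le_rfl hρ hρr hu.continuousOn
  have hi1 : Integrable fun z : EE n => u (x + ρ • z) * wt 1 z :=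
    hc1.integrable_of_hasCompactSupport (a8_compact le_rfl _)
  have hfi : Integrable f := hf.integrable_of_hasCompactSupport (a8_compact le_rfl _)
  have h0 : ∀ z, 0 ≤ f z := by
    intro z
    by_cases hz : ‖z‖ < 1
    · refine mul_nonneg ?_ (wt_nonneg 1 z)
      have : x + ρ • z ∈ ball x r := by
        rw [mem_ball, dist_eq_norm, add_sub_cancel_left, norm_smul, Real.norm_of_nonneg hρ.le]
        nlinarith
      linarith [hM _ this]
    · simp only [hfdef, wt_eq_zero 1 le_rfl (not_lt.1 hz), mul_zero, le_refl]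
  have hint : ∫ z, f z = 0 := by
    have e : f = fun z => M * wt 1 z - u (x + ρ • z) * wt 1 z := by
      funext z
      simp only [hfdef]
      ring
    rw [e, integral_sub ((wt_integrable 1 le_rfl).const_mul M) hi1, integral_const_mul, hm, hx,
      sub_self]
  have hae : f =ᵐ[volume] 0 := (integral_eq_zero_iff_of_nonneg h0 hfi).1 hint
  have hf0 : f = 0 := (hf.ae_eq_iff_eq volume continuous_zero).1 hae
  have hz := congrFun hf0 (ρ⁻¹ • (y - x))
  simp only [hfdef, Pi.zero_apply, smul_smul, mul_inv_cancel₀ hρ.ne', one_smul,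
    add_sub_cancel] at hz
  have hw : 0 < wt 1 (ρ⁻¹ • (y - x)) := by
    unfold wt
    rw [pow_one]
    refine lt_max_of_lt_right ?_
    have h1 : ‖ρ⁻¹ • (y - x)‖ < 1 := by
      rw [norm_smul, norm_inv, Real.norm_of_nonneg hρ.le, ← div_eq_inv_mul, div_lt_one hρ,
        ← dist_eq_norm]
      exact hdρ
    have h2 := norm_nonneg (ρ⁻¹ • (y - x))
    nlinarith
  rcases mul_eq_zero.1 hz with h | h
  · linarith
  · exact absurd h hw.ne'

/-- Harnack's principle for increasing sequences -/
theorem harnack_principle (hn : 2 ≤ n) {Ω : Set (EE n)} (hΩ : IsOpen Ω) {u : ℕ → EE n → ℝ}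
    (hu : ∀ i, HarmonicOnNhd (u i) Ω) (hm : ∀ i, ∀ x ∈ Ω, u i x ≤ u (i + 1) x) {M : ℝ}
    (hb : ∀ i, ∀ x ∈ Ω, u i x ≤ M) : ∃ v : EE n → ℝ, HarmonicOnNhd v Ω ∧
      ∀ x ∈ Ω, Tendsto (fun i => u i x) atTop (𝓝 (v x)) := by
  obtain ⟨C, hC, hH⟩ := harnack_ball (n := n) hn
  set v : EE n → ℝ := fun x => ⨆ i, u i x with hv
  have hmono : ∀ x ∈ Ω, Monotone fun i => u i x := fun x hx => monotone_nat_of_le_succ fun i => hm i x hx
  have hlim : ∀ x ∈ Ω, Tendsto (fun i => u i x) atTop (𝓝 (v x)) := by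
    intro x hx
    refine tendsto_atTop_ciSup (hmono x hx) ⟨M, ?_⟩
    rintro _ ⟨i, rfl⟩
    exact hb i x hx
  refine ⟨v, ?_, hlim⟩
  refine harmonic_of_tendsto hn hΩ hu ?_
  rw [Metric.tendstoLocallyUniformlyOn_iff]
  intro ε hε x hx
  obtain ⟨R, hR, hRs⟩ := Metric.isOpen_iff.1 hΩ x hx
  have hball : ball x (4 * (R / 4)) ⊆ Ω := by
    rw [show 4 * (R / 4) = R by ring]
    exact hRs
  have hcb : closedBall x (R / 4) ⊆ Ω := (closedBall_subset_ball (by linarith)).trans hRs
  refine ⟨closedBall x (R / 4), mem_nhdsWithin_of_mem_nhds (closedBall_mem_nhds x (by positivity)),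
    ?_⟩
  have h1 : ∀ᶠ i in atTop, dist (u i x) (v x) < ε / C :=
    (Metric.tendsto_nhds.1 (hlim x hx)) (ε / C) (by positivity)
  filter_upwards [h1] with i hi y hy
  have hyΩ := hcb hy
  have h2 : ∀ j, i ≤ j → u j y - u i y ≤ C * (u j x - u i x) := by
    intro j hij
    have h3 := hH (u j - u i) x (R / 4) (by positivity) (((hu j).sub (hu i)).mono hball)
      (fun w hw => by
        have := hmono w (hball hw) hij
        simp only [Pi.sub_apply]
        linarith) y hy
    simpa using h3.1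
  have h4 : v y - u i y ≤ C * (v x - u i x) := by
    refine le_of_tendsto_of_tendsto ((hlim y hyΩ).sub_const _)
      (((hlim x hx).sub_const _).const_mul C) ?_
    filter_upwards [eventually_ge_atTop i] with j hj
    exact h2 j hj
  have h5 : u i y ≤ v y := (hmono y hyΩ).ge_of_tendsto (hlim y hyΩ) i
  have h6 : u i x ≤ v x := (hmono x hx).ge_of_tendsto (hlim x hx) i
  rw [Real.dist_eq, abs_of_nonneg (by linarith)]
  rw [Real.dist_eq, abs_sub_comm, abs_of_nonneg (by linarith), lt_div_iff₀ (by positivity)] at hi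
  linarith

end Pool.Agent.Lib.MP_47b33c_an
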