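import Pool.Agent.Lib.MP_47b33c_an.MaxP
import Pool.Agent.Lib.MP_47b33c_an.Dirichlet
import Pool.Agent.Lib.MP_47b33c_an.Sub
import Pool.Agent.Lib.MP_47b33c_an.SubMax

/-!
# Extension by zero, gluing and Poisson modification of subharmonic functions
-/

set_option autoImplicit false

open MeasureTheory Metric Set Filter Topology InnerProductSpace
open scoped RealInnerProductSpace Laplacian

namespace Pool.Agent.Lib.MP_47b33c_an

variable {n : ℕ}

theorem b3_weak (hn : 2 ≤ n) {D : Set (EE n)} (hD : IsOpen D) (hb : Bornology.IsBounded D)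
    {u h : EE n → ℝ} (hcu : ContinuousOn u (closure D)) (hch : ContinuousOn h (closure D))
    (hu : HarmonicOnNhd u D) (hh : HarmonicOnNhd h D) (hf : ∀ x ∈ frontier D, u x ≤ h x) :
    ∀ x ∈ closure D, u x ≤ h x := by
  intro x hx
  have hd : ∀ y ∈ D, HarmonicAt (u - h) y := fun y hy => (hu y hy).sub (hh y hy)
  have := weak_max hn hD hb (hcu.sub hch) (fun y hy => (hd y hy).1)
    (fun y hy => (((hd y hy).2).eq_of_nhds).ge) (fun y hy => by
      have := hf y hy
      simp only [Pi.sub_apply]; linarith) x hx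
  simp only [Pi.sub_apply] at this
  linarith

/-- extension by zero -/
theorem subH_extend (hn : 2 ≤ n) {Ω B : Set (EE n)} (hΩ : IsOpen Ω) (hB : IsOpen B)
    {u : EE n → ℝ} (hc : ContinuousOn u B) (h0 : ∀ x ∈ B, 0 ≤ u x)
    (hz : ∀ x ∈ B, x ∉ Ω → u x = 0) (hh : HarmonicOnNhd u (Ω ∩ B)) : SubH u B := by
  refine ⟨hc, fun c r hr hcr h hch hhh hsp => ?_⟩
  have hcl : closure (ball c r) = closedBall c r := closure_ball c hr.ne'
  have hfr : frontier (ball c r) = sphere c r := frontier_ball c hr.ne'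
  have hpos : ∀ x ∈ closedBall c r, 0 ≤ h x := by
    intro x hx
    rw [← hcl] at hx
    refine b3_weak hn isOpen_ball isBounded_ball (u := fun _ => (0 : ℝ)) continuousOn_const
      (by rw [hcl]; exact hch) (harmonicOnNhd_const 0) hhh (fun y hy => ?_) x hx
    rw [hfr] at hy
    exact (h0 y (hcr (sphere_subset_closedBall hy))).trans (hsp y hy)
  have hD : IsOpen (Ω ∩ ball c r) := hΩ.inter isOpen_ball
  have hDc : closure (Ω ∩ ball c r) ⊆ closedBall c r :=
    (closure_mono inter_subset_right).trans hcl.subset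
  have hkey : ∀ x ∈ closure (Ω ∩ ball c r), u x ≤ h x := by
    refine b3_weak hn hD (isBounded_ball.subset inter_subset_right)
      (hc.mono (hDc.trans hcr)) (hch.mono hDc)
      (hh.mono fun y hy => ⟨hy.1, hcr (ball_subset_closedBall hy.2)⟩)
      (hhh.mono inter_subset_right) fun z hz' => ?_
    have hzc : z ∈ closedBall c r := hDc (frontier_subset_closure hz')
    by_cases hzb : z ∈ ball c r
    · have hzΩ : z ∉ Ω := fun hzΩ => by
        rw [hD.frontier_eq] at hz'
        exact hz'.2 ⟨hzΩ, hzb⟩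
      rw [hz z (hcr hzc) hzΩ]
      exact hpos z hzc
    · refine hsp z ?_
      rw [mem_sphere]
      rw [mem_closedBall] at hzc
      rw [mem_ball, not_lt] at hzb
      exact le_antisymm hzc hzb
  intro x hx
  by_cases hxb : x ∈ ball c r
  · by_cases hxΩ : x ∈ Ω
    · exact hkey x (subset_closure ⟨hxΩ, hxb⟩)
    · rw [hz x (hcr hx) hxΩ]
      exact hpos x hx
  · refine hsp x ?_
    rw [mem_sphere]
    rw [mem_closedBall] at hx
    rw [mem_ball, not_lt] at hxb
    exact le_antisymm hx hxb

/-- gluing with a constant -/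
theorem subH_glue (hn : 2 ≤ n) {Ω D : Set (EE n)} (hΩ : IsOpen Ω) (hD : IsOpen D)
    {v w : EE n → ℝ} {b : ℝ} (hw : ContinuousOn w Ω) (hv : SubH v (Ω ∩ D))
    (h1 : ∀ x ∈ Ω ∩ D, w x = max (v x) b) (h2 : ∀ x ∈ Ω \ D, w x = b)
    (h3 : ∀ ζ ∈ frontier D ∩ Ω, BdLe (Ω ∩ D) v b ζ) : SubH w Ω := by
  refine ⟨hw, fun c r hr hcr h hch hhh hsp => ?_⟩
  have hcl : closure (ball c r) = closedBall c r := closure_ball c hr.ne'
  have hfr : frontier (ball c r) = sphere c r := frontier_ball c hr.ne'
  have hwb : ∀ x ∈ Ω, b ≤ w x := by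
    intro x hx
    by_cases hxD : x ∈ D
    · rw [h1 x ⟨hx, hxD⟩]; exact le_max_right _ _
    · rw [h2 x ⟨hx, hxD⟩]
  have hpos : ∀ x ∈ closedBall c r, b ≤ h x := by
    intro x hx
    rw [← hcl] at hx
    refine b3_weak hn isOpen_ball isBounded_ball (u := fun _ => b) continuousOn_const
      (by rw [hcl]; exact hch) (harmonicOnNhd_const b) hhh (fun y hy => ?_) x hx
    rw [hfr] at hy
    exact (hwb y (hcr (sphere_subset_closedBall hy))).trans (hsp y hy)
  set D' := D ∩ ball c r with hD'
  have hD'o : IsOpen D' := hD.inter isOpen_ball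
  have hD'b : D' ⊆ ball c r := inter_subset_right
  have hD'Ω : D' ⊆ Ω ∩ D := fun y hy => ⟨hcr (ball_subset_closedBall hy.2), hy.1⟩
  have hD'c : closure D' ⊆ closedBall c r := (closure_mono hD'b).trans hcl.subset
  have hsub : SubH (fun x => v x + (-h) x) D' :=
    (hv.mono hD'Ω).add hn (harmonic_subH hn ((hhh.mono hD'b).neg))
  have hkey : ∀ x ∈ D', v x + (-h) x ≤ 0 := by
    refine hsub.le_zero hn hD'o (isBounded_ball.subset hD'b) fun z hz η hη => ?_
    have hzc : z ∈ closedBall c r := hD'c (frontier_subset_closure hz)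
    have hη2 : 0 < η / 2 := by positivity
    have hlow : ∀ᶠ x in 𝓝[D'] z, h z - η / 2 < h x := by
      have h4 : Tendsto h (𝓝[closedBall c r] z) (𝓝 (h z)) := hch z hzc
      exact (h4.eventually (lt_mem_nhds (by linarith))).filter_mono
        (nhdsWithin_mono z (hD'b.trans ball_subset_closedBall))
    by_cases hzb : z ∈ ball c r
    · have hzD : z ∉ D := fun hzD => by
        rw [hD'o.frontier_eq] at hz
        exact hz.2 ⟨hzD, hzb⟩
      have hzfr : z ∈ frontier D := by
        rw [hD.frontier_eq]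
        exact ⟨closure_mono inter_subset_left (frontier_subset_closure hz), hzD⟩
      have h5 : ∀ᶠ x in 𝓝[D'] z, v x ≤ b + η / 2 :=
        (h3 z ⟨hzfr, hcr hzc⟩ (η / 2) hη2).filter_mono (nhdsWithin_mono z hD'Ω)
      filter_upwards [hlow, h5] with x hx1 hx2
      have := hpos z hzc
      simp only [Pi.neg_apply]
      linarith
    · have hzs : z ∈ sphere c r := by
        rw [mem_sphere]
        rw [mem_closedBall] at hzc
        rw [mem_ball, not_lt] at hzb
        exact le_antisymm hzc hzb
      have h6 : ∀ᶠ x in 𝓝[D'] z, w x < w z + η / 2 := by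
        have h4 : Tendsto w (𝓝[Ω] z) (𝓝 (w z)) := hw z (hcr hzc)
        exact (h4.eventually (gt_mem_nhds (by linarith))).filter_mono
          (nhdsWithin_mono z (hD'Ω.trans inter_subset_left))
      filter_upwards [hlow, h6, self_mem_nhdsWithin] with x hx1 hx2 hx3
      have h7 := hsp z hzs
      have h8 : v x ≤ w x := by rw [h1 x (hD'Ω hx3)]; exact le_max_left _ _
      simp only [Pi.neg_apply]
      linarith
  intro x hx
  by_cases hxb : x ∈ ball c r
  · by_cases hxD : x ∈ D
    · rw [h1 x ⟨hcr hx, hxD⟩]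
      refine max_le ?_ (hpos x hx)
      have := hkey x ⟨hxD, hxb⟩
      simp only [Pi.neg_apply] at this
      linarith
    · rw [h2 x ⟨hcr hx, hxD⟩]
      exact hpos x hx
  · refine hsp x ?_
    rw [mem_sphere]
    rw [mem_closedBall] at hx
    rw [mem_ball, not_lt] at hxb
    exact le_antisymm hx hxb

/-- Poisson modification -/
theorem subH_poisson (hn : 2 ≤ n) {Ω : Set (EE n)} (hΩ : IsOpen Ω) {v : EE n → ℝ}
    (hv : SubH v Ω) {c : EE n} {r : ℝ} (hr : 0 < r) (hc : closedBall c r ⊆ Ω) :
    ∃ w : EE n → ℝ, SubH w Ω ∧ (∀ x ∈ Ω, v x ≤ w x) ∧ (∀ x, x ∉ ball c r → w x = v x) ∧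
      HarmonicOnNhd w (ball c r) ∧ ∀ h : EE n → ℝ, ContinuousOn h (closedBall c r) →
        HarmonicOnNhd h (ball c r) → (∀ x ∈ sphere c r, v x ≤ h x) →
        ∀ x ∈ closedBall c r, w x ≤ h x := by
  classical
  have hcl : ∀ (c : EE n) (r : ℝ), 0 < r → closure (ball c r) = closedBall c r :=
    fun c r hr => closure_ball c hr.ne'
  have hfr : ∀ (c : EE n) (r : ℝ), 0 < r → frontier (ball c r) = sphere c r :=
    fun c r hr => frontier_ball c hr.ne'
  have hmem : ∀ (c : EE n) (r : ℝ) (x : EE n), x ∈ closedBall c r → x ∉ ball c r →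
      x ∈ sphere c r := by
    intro c r x h1 h2
    rw [mem_closedBall] at h1
    rw [mem_ball, not_lt] at h2
    exact le_antisymm h1 h2
  obtain ⟨u, hu1, hu2, hu3⟩ := dirichlet_ball hn c hr
    (hv.1.mono (sphere_subset_closedBall.trans hc))
  set w : EE n → ℝ := fun x => if x ∈ ball c r then u x else v x with hw
  have hwb : ∀ x ∈ ball c r, w x = u x := fun x hx => if_pos hx
  have hwn : ∀ x, x ∉ ball c r → w x = v x := fun x hx => if_neg hx
  have hwcl : ∀ x ∈ closedBall c r, w x = u x := by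
    intro x hx
    by_cases hxb : x ∈ ball c r
    · exact hwb x hxb
    · rw [hwn x hxb, hu3 x (hmem c r x hx hxb)]
  have hvw : ∀ x ∈ Ω, v x ≤ w x := by
    intro x hx
    by_cases hxb : x ∈ ball c r
    · rw [hwb x hxb]
      exact hv.2 c r hr hc u hu1 hu2 (fun y hy => (hu3 y hy).ge) x (ball_subset_closedBall hxb)
    · exact (hwn x hxb).ge
  have hwh : HarmonicOnNhd w (ball c r) := by
    intro x hx
    exact (harmonicAt_congr_nhds (Filter.eventually_of_mem (isOpen_ball.mem_nhds hx) hwb)).2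
      (hu2 x hx)
  have hwc : ContinuousOn w Ω := by
    intro x hx
    by_cases hxb : x ∈ ball c r
    · exact (hwh x hxb).1.continuousAt.continuousWithinAt
    · by_cases hxc : x ∈ closedBall c r
      · have h1 : ContinuousWithinAt w (closedBall c r) x :=
          (hu1 x hxc).congr hwcl (hwcl x hxc)
        have h2 : ContinuousWithinAt w (Ω \ ball c r) x :=
          ((hv.1 x hx).mono sdiff_subset).congr (fun y hy => hwn y hy.2) (hwn x hxb)
        refine (h1.union h2).mono fun y hy => ?_
        by_cases hyb : y ∈ ball c r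
        · exact Or.inl (ball_subset_closedBall hyb)
        · exact Or.inr ⟨hy, hyb⟩
      · have h3 : w =ᶠ[𝓝 x] v := by
          refine Filter.eventually_of_mem (isClosed_closedBall.isOpen_compl.mem_nhds hxc)
            fun y hy => hwn y fun hyb => hy (ball_subset_closedBall hyb)
        exact (hv.1 x hx).congr_of_eventuallyEq (h3.filter_mono nhdsWithin_le_nhds)
          (hwn x hxb)
  refine ⟨w, ⟨hwc, fun c' r' hr' hcr' H hH1 hH2 hH3 => ?_⟩, hvw, hwn, hwh, ?_⟩
  · have hvH : ∀ x ∈ closedBall c' r', v x ≤ H x :=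
      hv.2 c' r' hr' hcr' H hH1 hH2 fun y hy =>
        (hvw y (hcr' (sphere_subset_closedBall hy))).trans (hH3 y hy)
    have hDo : IsOpen (ball c r ∩ ball c' r') := isOpen_ball.inter isOpen_ball
    have hDc' : closure (ball c r ∩ ball c' r') ⊆ closedBall c' r' :=
      (closure_mono inter_subset_right).trans (hcl c' r' hr').subset
    have hkey : ∀ x ∈ closure (ball c r ∩ ball c' r'), w x ≤ H x := by
      refine b3_weak hn hDo (isBounded_ball.subset inter_subset_left)
        (hwc.mono (hDc'.trans hcr')) (hH1.mono hDc') (hwh.mono inter_subset_left)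
        (hH2.mono inter_subset_right) fun z hz => ?_
      have hzc := hDc' (frontier_subset_closure hz)
      by_cases hzb : z ∈ ball c' r'
      · have hzn : z ∉ ball c r := fun hzn => by
          rw [hDo.frontier_eq] at hz
          exact hz.2 ⟨hzn, hzb⟩
        rw [hwn z hzn]
        exact hvH z hzc
      · exact hH3 z (hmem c' r' z hzc hzb)
    intro x hx
    by_cases hxb' : x ∈ ball c' r'
    · by_cases hxb : x ∈ ball c r
      · exact hkey x (subset_closure ⟨hxb, hxb'⟩)
      · rw [hwn x hxb]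
        exact hvH x hx
    · exact hH3 x (hmem c' r' x hx hxb')
  · intro h hh1 hh2 hh3 x hx
    rw [hwcl x hx]
    rw [← hcl c r hr] at hx hu1 hh1
    refine b3_weak hn isOpen_ball isBounded_ball hu1 hh1 hu2 hh2 (fun y hy => ?_) x hx
    rw [hfr c r hr] at hy
    rw [hu3 y hy]
    exact hh3 y hy

end Pool.Agent.Lib.MP_47b33c_an
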