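import Pool.Agent.Lib.MP_47b33c_an.Defs
import Pool.Agent.Lib.MP_47b33c_an.Strong
import Pool.Agent.Lib.MP_47b33c_an.Sub
import Pool.Agent.Lib.MP_47b33c_an.SubGlue

/-!
# Perron solutions
-/

set_option autoImplicit false

open MeasureTheory Metric Set Filter Topology InnerProductSpace
open scoped RealInnerProductSpace Laplacian

namespace Pool.Agent.Lib.MP_47b33c_an

variable {n : ℕ}

/-- the class is closed under maxima -/
theorem b4_max {Ω : Set (EE n)} {f : EE n → ℝ} {M : ℝ} {v w : EE n → ℝ}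
    (hv : v ∈ PClass Ω f M) (hw : w ∈ PClass Ω f M) :
    (fun x => max (v x) (w x)) ∈ PClass Ω f M := by
  refine ⟨hv.1.max hw.1, fun x hx => max_le (hv.2.1 x hx) (hw.2.1 x hx), ?_⟩
  intro ζ hζ η hη
  filter_upwards [hv.2.2 ζ hζ η hη, hw.2.2 ζ hζ η hη] with x h1 h2
  exact max_le h1 h2

/-- Poisson modification inside the class -/
theorem b4_mod (hn : 2 ≤ n) {Ω : Set (EE n)} (hΩ : IsOpen Ω) {f : EE n → ℝ} {M : ℝ}
    {v : EE n → ℝ} (hv : v ∈ PClass Ω f M) {c : EE n} {r : ℝ} (hr : 0 < r)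
    (hc : closedBall c r ⊆ Ω) :
    ∃ w ∈ PClass Ω f M, (∀ x ∈ Ω, v x ≤ w x) ∧ (∀ x, x ∉ ball c r → w x = v x) ∧
      HarmonicOnNhd w (ball c r) ∧ ∀ h : EE n → ℝ, ContinuousOn h (closedBall c r) →
        HarmonicOnNhd h (ball c r) → (∀ x ∈ sphere c r, v x ≤ h x) →
        ∀ x ∈ closedBall c r, w x ≤ h x := by
  obtain ⟨w, hw1, hw2, hw3, hw4, hw5⟩ := subH_poisson hn hΩ hv.1 hr hc
  refine ⟨w, ⟨hw1, ?_, ?_⟩, hw2, hw3, hw4, hw5⟩
  · intro x hx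
    by_cases hxb : x ∈ ball c r
    · refine hw5 (fun _ => M) continuousOn_const (harmonicOnNhd_const M) ?_ x
        (ball_subset_closedBall hxb)
      intro y hy
      exact hv.2.1 y (hc (sphere_subset_closedBall hy))
    · rw [hw3 x hxb]
      exact hv.2.1 x hx
  · intro ζ hζ η hη
    have h1 : ζ ∉ closedBall c r := by
      intro h
      rw [hΩ.frontier_eq] at hζ
      exact hζ.2 (hc h)
    have h2 : ∀ᶠ x in 𝓝[Ω] ζ, x ∉ closedBall c r := by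
      apply mem_nhdsWithin_of_mem_nhds
      exact isClosed_closedBall.isOpen_compl.mem_nhds h1
    filter_upwards [hv.2.2 ζ hζ η hη, h2] with x h3 h4
    rw [hw3 x fun h => h4 (ball_subset_closedBall h)]
    exact h3

/-- the maxima of a sequence -/
noncomputable def b4_run (v : ℕ → EE n → ℝ) : ℕ → EE n → ℝ
  | 0 => v 0
  | k + 1 => fun x => max (b4_run v k x) (v (k + 1) x)

theorem b4_run_mem {Ω : Set (EE n)} {f : EE n → ℝ} {M : ℝ} {v : ℕ → EE n → ℝ}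
    (hv : ∀ k, v k ∈ PClass Ω f M) (k : ℕ) : b4_run v k ∈ PClass Ω f M := by
  induction k with
  | zero => exact hv 0
  | succ k ih => exact b4_max ih (hv (k + 1))

theorem b4_le_run (v : ℕ → EE n → ℝ) (k : ℕ) (x : EE n) : v k x ≤ b4_run v k x := by
  cases k with
  | zero => exact le_rfl
  | succ k => exact le_max_right _ _

/-- an increasing sequence in the class, harmonic in a ball -/
theorem b4_seq (hn : 2 ≤ n) {Ω : Set (EE n)} (hΩ : IsOpen Ω) {f : EE n → ℝ} {M : ℝ}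
    {v : ℕ → EE n → ℝ} (hv : ∀ k, v k ∈ PClass Ω f M) {c : EE n} {r : ℝ} (hr : 0 < r)
    (hc : closedBall c r ⊆ Ω) :
    ∃ V : ℕ → EE n → ℝ, (∀ k, V k ∈ PClass Ω f M) ∧ (∀ k, HarmonicOnNhd (V k) (ball c r)) ∧
      (∀ k, ∀ x ∈ Ω, V k x ≤ V (k + 1) x) ∧ ∀ k, ∀ x ∈ Ω, v k x ≤ V k x := by
  choose V hV using fun k => b4_mod hn hΩ (b4_run_mem hv k) hr hc
  refine ⟨V, fun k => (hV k).1, fun k => (hV k).2.2.2.1, ?_, fun k x hx =>
    (b4_le_run v k x).trans ((hV k).2.1 x hx)⟩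
  intro k x hx
  have hle : ∀ y ∈ Ω, b4_run v k y ≤ V (k + 1) y := fun y hy =>
    (le_max_left _ _).trans ((hV (k + 1)).2.1 y hy)
  by_cases hxb : x ∈ ball c r
  · refine (hV k).2.2.2.2 (V (k + 1)) ((hV (k + 1)).1.1.1.mono hc) (hV (k + 1)).2.2.2.1 ?_ x
      (ball_subset_closedBall hxb)
    exact fun y hy => hle y (hc (sphere_subset_closedBall hy))
  · rw [(hV k).2.2.1 x hxb]
    exact hle x hx

theorem perron (hn : 2 ≤ n) {Ω : Set (EE n)} (hΩ : IsOpen Ω) (f : EE n → ℝ) (M : ℝ)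
    (v₀ : EE n → ℝ) (h₀ : v₀ ∈ PClass Ω f M) : ∃ u : EE n → ℝ, HarmonicOnNhd u Ω ∧
      ∀ x ∈ Ω, IsLUB {y | ∃ v ∈ PClass Ω f M, v x = y} (u x) := by
  set u : EE n → ℝ := fun x => sSup {y | ∃ v ∈ PClass Ω f M, v x = y} with hu
  have hlub : ∀ x ∈ Ω, IsLUB {y | ∃ v ∈ PClass Ω f M, v x = y} (u x) := by
    intro x hx
    refine isLUB_csSup ⟨v₀ x, v₀, h₀, rfl⟩ ⟨M, ?_⟩
    rintro y ⟨v, hv, rfl⟩
    exact hv.2.1 x hx
  refine ⟨u, ?_, hlub⟩
  have hleu : ∀ x ∈ Ω, ∀ v ∈ PClass Ω f M, v x ≤ u x := fun x hx v hv =>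
    (hlub x hx).1 ⟨v, hv, rfl⟩
  -- sequences converging to the supremum
  have hseq : ∀ x ∈ Ω, ∃ v : ℕ → EE n → ℝ, (∀ k, v k ∈ PClass Ω f M) ∧
      ∀ k : ℕ, u x - 1 / ((k : ℝ) + 1) < v k x := by
    intro x hx
    have : ∀ k : ℕ, ∃ v ∈ PClass Ω f M, u x - 1 / ((k : ℝ) + 1) < v x := by
      intro k
      have hpos : (0 : ℝ) < 1 / ((k : ℝ) + 1) := Nat.one_div_pos_of_nat
      obtain ⟨y, ⟨v, hv, rfl⟩, h1, -⟩ := (hlub x hx).exists_between
        (show u x - 1 / ((k : ℝ) + 1) < u x by linarith)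
      exact ⟨v, hv, h1⟩
    choose v hv using this
    exact ⟨v, fun k => (hv k).1, fun k => (hv k).2⟩
  have hlim : ∀ a : ℝ, Tendsto (fun k : ℕ => a - 1 / ((k : ℝ) + 1)) atTop (𝓝 a) := by
    intro a
    have h1 := tendsto_one_div_add_atTop_nhds_zero_nat (𝕜 := ℝ)
    have h2 := (tendsto_const_nhds (x := a)).sub h1
    simpa using h2
  intro x₀ hx₀
  obtain ⟨r, hr, hrΩ⟩ := Metric.nhds_basis_closedBall.mem_iff.1 (hΩ.mem_nhds hx₀)
  have hbΩ : ball x₀ r ⊆ Ω := ball_subset_closedBall.trans hrΩ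
  obtain ⟨v, hv, hvu⟩ := hseq x₀ hx₀
  obtain ⟨V, hV1, hV2, hV3, hV4⟩ := b4_seq hn hΩ hv hr hrΩ
  obtain ⟨Vl, hVl, hVt⟩ := harnack_principle hn isOpen_ball hV2
    (fun k x hx => hV3 k x (hbΩ hx)) (fun k x hx => (hV1 k).2.1 x (hbΩ hx))
  have hVu : ∀ x ∈ ball x₀ r, Vl x ≤ u x := fun x hx =>
    le_of_tendsto' (hVt x hx) fun k => hleu x (hbΩ hx) _ (hV1 k)
  have hVx : Vl x₀ = u x₀ := by
    refine le_antisymm (hVu x₀ (mem_ball_self hr)) ?_
    exact le_of_tendsto_of_tendsto' (hlim (u x₀)) (hVt x₀ (mem_ball_self hr)) fun k =>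
      (hvu k).le.trans (hV4 k x₀ hx₀)
  have hmain : ∀ y ∈ ball x₀ r, Vl y = u y := by
    intro y₀ hy₀
    obtain ⟨w, hw, hwu⟩ := hseq y₀ (hbΩ hy₀)
    obtain ⟨W, hW1, hW2, hW3, hW4⟩ := b4_seq hn hΩ (fun k => b4_max (hV1 k) (hw k)) hr hrΩ
    obtain ⟨Wl, hWl, hWt⟩ := harnack_principle hn isOpen_ball hW2
      (fun k x hx => hW3 k x (hbΩ hx)) (fun k x hx => (hW1 k).2.1 x (hbΩ hx))
    have hWu : ∀ x ∈ ball x₀ r, Wl x ≤ u x := fun x hx =>
      le_of_tendsto' (hWt x hx) fun k => hleu x (hbΩ hx) _ (hW1 k)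
    have hVW : ∀ x ∈ ball x₀ r, Vl x ≤ Wl x := fun x hx =>
      le_of_tendsto_of_tendsto' (hVt x hx) (hWt x hx) fun k =>
        (le_max_left _ _).trans (hW4 k x (hbΩ hx))
    have hWy : Wl y₀ = u y₀ := by
      refine le_antisymm (hWu y₀ hy₀) ?_
      exact le_of_tendsto_of_tendsto' (hlim (u y₀)) (hWt y₀ hy₀) fun k =>
        (hwu k).le.trans ((le_max_right _ _).trans (hW4 k y₀ (hbΩ hy₀)))
    have hx0b := mem_ball_self (x := x₀) hr
    have hzero : (Vl - Wl) x₀ = 0 := by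
      have h1 := hVW x₀ hx0b
      have h2 := hWu x₀ hx0b
      rw [Pi.sub_apply]
      linarith
    have h3 := strong_max hn (hVl.sub hWl) (M := 0)
      (fun y hy => by rw [Pi.sub_apply]; linarith [hVW y hy]) hzero y₀ hy₀
    rw [Pi.sub_apply] at h3
    linarith
  have heq : Vl =ᶠ[𝓝 x₀] u := by
    filter_upwards [isOpen_ball.mem_nhds (mem_ball_self hr)] with y hy
    exact hmain y hy
  exact (harmonicAt_congr_nhds heq).1 (hVl x₀ (mem_ball_self hr))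

end Pool.Agent.Lib.MP_47b33c_an
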