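import Pool.Agent.Lib.MP_47b33c_an.Rad
import Pool.Agent.Lib.MP_47b33c_an.Sub
import Pool.Agent.Lib.MP_47b33c_an.SubGlue
import Pool.Agent.Lib.MP_47b33c_an.Perron
import Pool.Agent.Lib.MP_47b33c_an.Decay

/-!
# The barrier at a boundary point
-/

set_option autoImplicit false

open MeasureTheory Metric Set Filter Topology InnerProductSpace
open scoped RealInnerProductSpace Laplacian

namespace Pool.Agent.Lib.MP_47b33c_an

variable {n : ℕ}

/-- the square of the distance to `z` is in the class of subsolutions -/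
theorem b6_class (hn : 2 ≤ n) {Ω : Set (EE n)} (hΩ : IsOpen Ω) (z : EE n) :
    (fun x : EE n => ‖x - z‖ ^ 2) ∈
      PClass (Ω ∩ ball z 1) (fun x : EE n => ‖x - z‖ ^ 2) 1 := by
  refine ⟨?_, ?_, ?_⟩
  · apply subH_of_lap hn (hΩ.inter isOpen_ball)
    · intro x _
      exact (lap_radial (g := fun s => s) z x contDiffAt_id).1
    · intro x _
      rw [(lap_radial (g := fun s => s) z x contDiffAt_id).2]
      have h1 : deriv (fun s : ℝ => s) = fun _ => 1 := by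
        funext s
        exact deriv_id s
      rw [h1, deriv_const]
      positivity
  · rintro x ⟨_, hx⟩
    rw [mem_ball, dist_eq_norm] at hx
    have h0 := norm_nonneg (x - z)
    change ‖x - z‖ ^ 2 ≤ 1
    nlinarith
  · intro ζ _ η hη
    have hc : Continuous fun x : EE n => ‖x - z‖ ^ 2 := by fun_prop
    have h1 : ∀ᶠ x in 𝓝 ζ, ‖x - z‖ ^ 2 < ‖ζ - z‖ ^ 2 + η :=
      hc.continuousAt.eventually_lt continuousAt_const (by linarith)
    exact (h1.filter_mono nhdsWithin_le_nhds).mono fun x hx => hx.le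

/-- one step of the decay of the subsolutions at `z` -/
theorem b6_step (hn : 2 ≤ n) {Ω : Set (EE n)} (hΩ : IsOpen Ω) {c : ℝ} {z : EE n}
    (hext : ∀ r : ℝ, 0 < r → ExtAt c Ω z r) {θ : ℝ}
    (hθ : ∀ (D : Set (EE n)) (z : EE n) (r : ℝ) (v : EE n → ℝ) (M : ℝ), IsOpen D → 0 < r →
      ExtAt c D z r → 0 ≤ M → SubH v (D ∩ ball z (6 * r)) →
      (∀ x ∈ D ∩ ball z (6 * r), v x ≤ M) →
      (∀ ζ ∈ frontier D ∩ ball z (6 * r), BdLe D v 0 ζ) →
      ∀ x ∈ D ∩ ball z r, v x ≤ (1 - θ) * M) {m r : ℝ} (hm : 0 ≤ m) (hr : 0 < r)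
    (h : ∀ v ∈ PClass (Ω ∩ ball z 1) (fun x : EE n => ‖x - z‖ ^ 2) 1,
      ∀ x ∈ (Ω ∩ ball z 1) ∩ ball z r, v x ≤ m) {ε : ℝ} (hε : 0 < ε) :
    ∃ r' : ℝ, 0 < r' ∧ ∀ v ∈ PClass (Ω ∩ ball z 1) (fun x : EE n => ‖x - z‖ ^ 2) 1,
      ∀ x ∈ (Ω ∩ ball z 1) ∩ ball z r', v x ≤ ε + (1 - θ) * m := by
  obtain ⟨δ, hδ, hδr, hδ1, hδε⟩ : ∃ δ : ℝ, 0 < δ ∧ δ ≤ r ∧ δ ≤ 1 ∧ δ ≤ ε :=
    ⟨min r (min 1 ε), by positivity, min_le_left _ _,
      (min_le_right _ _).trans (min_le_left _ _), (min_le_right _ _).trans (min_le_right _ _)⟩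
  refine ⟨δ / 6, by positivity, fun v hv x hx => ?_⟩
  obtain ⟨hv1, hv2, hv3⟩ := hv
  have h6 : 6 * (δ / 6) = δ := by ring
  have hD : IsOpen (Ω ∩ ball z 1) := hΩ.inter isOpen_ball
  have key := hθ (Ω ∩ ball z 1) z (δ / 6) (fun x => v x + -ε) m hD (by positivity) ?_ hm ?_ ?_ ?_
    x hx
  · linarith
  · obtain ⟨a, ha1, ha2⟩ := hext (δ / 6) (by positivity)
    exact ⟨a, ha1, ha2.mono_right inter_subset_left⟩
  · exact (hv1.add hn (subH_const (-ε) _ hn)).mono inter_subset_left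
  · intro y hy
    rw [h6] at hy
    have := h v ⟨hv1, hv2, hv3⟩ y ⟨hy.1, ball_subset_ball hδr hy.2⟩
    linarith
  · rintro ζ ⟨hζ1, hζ2⟩
    rw [h6, mem_ball, dist_eq_norm] at hζ2
    intro η hη
    refine (hv3 ζ hζ1 η hη).mono fun y hy => ?_
    have h0 := norm_nonneg (ζ - z)
    have h1 : ‖ζ - z‖ ^ 2 ≤ ε := by nlinarith
    change v y ≤ ‖ζ - z‖ ^ 2 + η at hy
    linarith

theorem barrier (hn : 2 ≤ n) {Ω : Set (EE n)} (hΩ : IsOpen Ω) {c : ℝ} (hc : 0 < c) {z : EE n}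
    (hz : z ∈ frontier Ω) (hext : ∀ r : ℝ, 0 < r → ExtAt c Ω z r) :
    ∃ b : EE n → ℝ, SubH (fun x => -b x) Ω ∧ (∀ x ∈ Ω, 0 ≤ b x) ∧ (∀ x ∈ Ω, b x ≤ 1) ∧
      BdLe Ω b 0 z ∧ ∀ ρ : ℝ, 0 < ρ → ∃ m : ℝ, 0 < m ∧ ∀ x ∈ Ω, ρ ≤ dist x z → m ≤ b x := by
  classical
  have hD : IsOpen (Ω ∩ ball z 1) := hΩ.inter isOpen_ball
  have hcls := b6_class hn hΩ z
  obtain ⟨w, hw, hlub⟩ := perron hn hD (fun x : EE n => ‖x - z‖ ^ 2) 1 _ hcls
  have hwlow : ∀ x ∈ Ω ∩ ball z 1, ‖x - z‖ ^ 2 ≤ w x := fun x hx => (hlub x hx).1 ⟨_, hcls, rfl⟩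
  obtain ⟨θ, hθ0, hθ1, hθ⟩ := decay (n := n) hn c hc
  -- the bounds near `z`
  set S : Set ℝ := {m | 0 ≤ m ∧ ∃ r : ℝ, 0 < r ∧
    ∀ v ∈ PClass (Ω ∩ ball z 1) (fun x : EE n => ‖x - z‖ ^ 2) 1,
      ∀ x ∈ (Ω ∩ ball z 1) ∩ ball z r, v x ≤ m} with hS
  have hSne : S.Nonempty := ⟨1, zero_le_one, 1, one_pos, fun v hv x hx => hv.2.1 x hx.1⟩
  have hSb : BddBelow S := ⟨0, fun m hm => hm.1⟩
  have hstep : ∀ m ∈ S, ∀ ε : ℝ, 0 < ε → ε + (1 - θ) * m ∈ S := by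
    rintro m ⟨hm, r, hr, h⟩ ε hε
    refine ⟨?_, b6_step hn hΩ hext hθ hm hr h hε⟩
    have : 0 ≤ (1 - θ) * m := mul_nonneg (by linarith) hm
    linarith
  have hL0 : 0 ≤ sInf S := le_csInf hSne fun m hm => hm.1
  have hL : sInf S = 0 := by
    by_contra hne
    have hpos : 0 < sInf S := lt_of_le_of_ne hL0 (Ne.symm hne)
    obtain ⟨m, hm, hmL⟩ := exists_lt_of_csInf_lt hSne
      (show sInf S < sInf S + θ * sInf S / 2 by
        have : 0 < θ * sInf S := mul_pos hθ0 hpos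
        linarith)
    have h1 := csInf_le hSb (hstep m hm (θ * sInf S / 4) (by
      have : 0 < θ * sInf S := mul_pos hθ0 hpos
      linarith))
    have h2 : (1 - θ) * m ≤ (1 - θ) * (sInf S + θ * sInf S / 2) :=
      mul_le_mul_of_nonneg_left hmL.le (by linarith)
    nlinarith [mul_pos hθ0 hpos, mul_pos hθ0 (mul_pos hθ0 hpos)]
  -- the barrier
  set b : EE n → ℝ := fun x => if x ∈ ball z 1 then min (w x) (1 / 4) else 1 / 4 with hb
  have hb1 : ∀ x ∈ Ω ∩ ball z 1, b x = min (w x) (1 / 4) := fun x hx => if_pos hx.2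
  have hb2 : ∀ x ∈ Ω, 1 / 2 ≤ ‖x - z‖ → b x = 1 / 4 := by
    intro x hx hxz
    by_cases h1 : x ∈ ball z 1
    · rw [hb1 x ⟨hx, h1⟩]
      apply min_eq_right
      have := hwlow x ⟨hx, h1⟩
      nlinarith
    · exact if_neg h1
  have hb3 : ∀ x ∈ Ω, min (‖x - z‖ ^ 2) (1 / 4) ≤ b x := by
    intro x hx
    by_cases h1 : x ∈ ball z 1
    · rw [hb1 x ⟨hx, h1⟩]
      exact min_le_min_right _ (hwlow x ⟨hx, h1⟩)
    · change min (‖x - z‖ ^ 2) (1 / 4) ≤ if x ∈ ball z 1 then min (w x) (1 / 4) else 1 / 4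
      rw [if_neg h1]
      exact min_le_right _ _
  refine ⟨b, ?_, ?_, ?_, ?_, ?_⟩
  · apply subH_glue hn (Ω := Ω) (D := ball z 1) (v := fun x => -w x) (b := -(1 / 4)) hΩ isOpen_ball
    · -- continuity
      apply ContinuousOn.neg
      intro x hx
      by_cases hxz : ‖x - z‖ < 1
      · have hxD : x ∈ Ω ∩ ball z 1 := ⟨hx, by rwa [mem_ball, dist_eq_norm]⟩
        have h1 : ContinuousAt (fun y => min (w y) (1 / 4)) x :=
          ((hw x hxD).1.continuousAt).min continuousAt_const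
        have h2 : b =ᶠ[𝓝 x] fun y => min (w y) (1 / 4) := by
          filter_upwards [hD.mem_nhds hxD] with y hy
          exact hb1 y hy
        exact (h1.congr h2.symm).continuousWithinAt
      · have h1 : (1 / 2 : ℝ) < ‖x - z‖ := by
          push Not at hxz
          linarith
        have hc2 : Continuous fun y : EE n => ‖y - z‖ := by fun_prop
        have h2 : b =ᶠ[𝓝[Ω] x] fun _ => 1 / 4 := by
          have h3 : ∀ᶠ y in 𝓝[Ω] x, (1 / 2 : ℝ) < ‖y - z‖ :=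
            (continuousAt_const.eventually_lt hc2.continuousAt h1).filter_mono nhdsWithin_le_nhds
          filter_upwards [h3, self_mem_nhdsWithin] with y hy1 hy2
          exact hb2 y hy2 hy1.le
        exact continuousWithinAt_const.congr_of_eventuallyEq h2 (hb2 x hx h1.le)
    · exact harmonic_subH hn hw.neg
    · intro x hx
      rw [hb1 x hx, max_neg_neg]
    · rintro x ⟨hx, hx1⟩
      rw [mem_ball, dist_eq_norm, not_lt] at hx1
      rw [hb2 x hx (by linarith)]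
    · rintro ζ ⟨hζ1, hζ2⟩ η hη
      have hζ : ‖ζ - z‖ = 1 := by
        rw [frontier_ball z one_ne_zero, mem_sphere, dist_eq_norm] at hζ1
        exact hζ1
      have hc2 : Continuous fun y : EE n => ‖y - z‖ := by fun_prop
      have h3 : ∀ᶠ y in 𝓝[Ω ∩ ball z 1] ζ, (1 / 2 : ℝ) < ‖y - z‖ :=
        (continuousAt_const.eventually_lt hc2.continuousAt (by rw [hζ]; norm_num)).filter_mono
          nhdsWithin_le_nhds
      filter_upwards [h3, self_mem_nhdsWithin] with y hy1 hy2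
      have := hwlow y hy2
      nlinarith
  · intro x hx
    exact (le_min (by positivity) (by norm_num)).trans (hb3 x hx)
  · intro x hx
    by_cases h1 : x ∈ ball z 1
    · rw [hb1 x ⟨hx, h1⟩]
      exact (min_le_right _ _).trans (by norm_num)
    · change (if x ∈ ball z 1 then min (w x) (1 / 4) else 1 / 4) ≤ 1
      rw [if_neg h1]
      norm_num
  · intro η hη
    obtain ⟨m, ⟨hm0, r, hr, hmr⟩, hmη⟩ := exists_lt_of_csInf_lt hSne (show sInf S < η by rwa [hL])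
    have h1 : ∀ᶠ x in 𝓝[Ω] z, x ∈ ball z 1 ∩ ball z r :=
      (inter_mem (ball_mem_nhds z one_pos) (ball_mem_nhds z hr) : ball z 1 ∩ ball z r ∈ 𝓝 z)
        |> mem_nhdsWithin_of_mem_nhds
    filter_upwards [h1, self_mem_nhdsWithin] with x hx1 hx2
    rw [hb1 x ⟨hx2, hx1.1⟩]
    refine (min_le_left _ _).trans ?_
    have h2 : w x ≤ m := by
      apply (hlub x ⟨hx2, hx1.1⟩).2
      rintro y ⟨v, hv, rfl⟩
      exact hmr v hv x ⟨⟨hx2, hx1.1⟩, hx1.2⟩
    linarith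
  · intro ρ hρ
    refine ⟨min (ρ ^ 2) (1 / 4), by positivity, fun x hx hxρ => ?_⟩
    refine le_trans ?_ (hb3 x hx)
    rw [dist_eq_norm] at hxρ
    exact min_le_min_right _ (by gcongr)

end Pool.Agent.Lib.MP_47b33c_an
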