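import Pool.Agent.Lib.MP_47b33c_an.Harnack

set_option autoImplicit false

open MeasureTheory Metric Set Filter Topology InnerProductSpace
open scoped RealInnerProductSpace Laplacian

namespace Pool.Agent.Lib.MP_47b33c_an

variable {n : ℕ}

theorem e1_theta_nonneg {Ω : Set (EE n)} {z e : EE n} {r θ : ℝ} (hr : 0 < r)
    (h : Flat Ω z r e θ) : 0 ≤ θ := by
  by_contra hcon
  push Not at hcon
  have h1 : θ * r < 0 := mul_neg_of_neg_of_pos hcon hr
  have hz : z ∈ Ω := h.inn z (mem_ball_self hr) (by rw [sub_self, inner_zero_left]; exact h1)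
  have h2 := h.out z (mem_ball_self hr) hz
  rw [sub_self, inner_zero_left] at h2
  linarith

theorem two_planes {Ω : Set (EE n)} {z e e' : EE n} {r r' θ θ' : ℝ} (hr' : 0 < r')
    (hrr : r' ≤ r) (h : Flat Ω z r e θ) (h' : Flat Ω z r' e' θ') :
    ‖e - e'‖ ≤ 2 * max (θ * r / r') θ' := by
  have hr : 0 < r := by linarith
  have hθ := e1_theta_nonneg hr h
  have hθ' := e1_theta_nonneg hr' h'
  by_contra hcon
  push Not at hcon
  set δ := ‖e - e'‖ with hδ
  have h1 : θ * r / r' < δ / 2 := by
    have := le_max_left (θ * r / r') θ'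
    linarith
  have h2 : θ' < δ / 2 := by
    have := le_max_right (θ * r / r') θ'
    linarith
  have hδ0 : 0 < δ := by linarith
  rw [div_lt_iff₀ hr'] at h1
  -- T
  set T := max (θ * r) (θ' * r') with hT
  have hT0 : 0 ≤ T := le_max_of_le_left (by positivity)
  have hT1 : T < δ / 2 * r' := by
    apply max_lt h1
    gcongr
  have hT2 : 2 * T / δ < r' := by
    rw [div_lt_iff₀ hδ0]; linarith
  set s := (2 * T / δ + r') / 2 with hs
  have hs0 : 0 < s := by positivity
  have hs1 : s < r' := by linarith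
  have hs2 : 2 * T / δ < s := by linarith
  have hs3 : T < s * (δ / 2) := by
    rw [div_lt_iff₀ hδ0] at hs2; linarith
  have hee : ⟪e, e⟫ = (1:ℝ) := by rw [real_inner_self_eq_norm_sq, h.unit]; norm_num
  have hee' : ⟪e', e'⟫ = (1:ℝ) := by rw [real_inner_self_eq_norm_sq, h'.unit]; norm_num
  have hsq : δ ^ 2 = 2 - 2 * ⟪e, e'⟫ := by
    rw [hδ, @norm_sub_sq_real, h.unit, h'.unit]; ring
  set x := z + (s / δ) • (e - e') with hx
  have hxz : x - z = (s / δ) • (e - e') := by rw [hx]; abel
  have hdist : dist x z = s := by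
    rw [dist_eq_norm, hxz, norm_smul, Real.norm_eq_abs, abs_of_pos (by positivity), ← hδ]
    field_simp
  have hi1 : ⟪x - z, e⟫ = s * (δ / 2) := by
    rw [hxz, real_inner_smul_left, inner_sub_left, hee, real_inner_comm]
    have : (1:ℝ) - ⟪e, e'⟫ = δ ^ 2 / 2 := by linarith
    rw [this]
    field_simp
  have hi2 : ⟪x - z, e'⟫ = -(s * (δ / 2)) := by
    rw [hxz, real_inner_smul_left, inner_sub_left, hee']
    have : ⟪e, e'⟫ - (1:ℝ) = -(δ ^ 2 / 2) := by linarith
    rw [this]
    field_simp
  have hxr' : x ∈ ball z r' := by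
    have : dist x z < r' := by rw [hdist]; exact hs1
    exact this
  have hxr : x ∈ ball z r := ball_subset_ball hrr hxr'
  have hxΩ : x ∈ Ω := by
    apply h.inn x hxr
    rw [hi1]
    exact lt_of_le_of_lt (le_max_left _ _) hs3
  have h5 := h'.out x hxr' hxΩ
  rw [hi2] at h5
  have h6 : θ' * r' ≤ T := le_max_right _ _
  linarith

theorem harnack_mid (hn : 2 ≤ n) : ∃ c : ℝ, 0 < c ∧ c ≤ 1 ∧ ∀ (V : Set (EE n)) (z e : EE n)
    (r b : ℝ) (w : EE n → ℝ), IsOpen V → 0 < r → ‖e‖ = 1 → |b| ≤ r / 100 →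
    (∀ x ∈ ball z r, r / 32 ≤ ⟪x - z, e⟫ + b → x ∈ V) → HarmonicOnNhd w V →
    (∀ x ∈ V, 0 ≤ w x) →
    ∀ x ∈ ball z (3 * r / 4), r / 16 ≤ ⟪x - z, e⟫ + b → c * w (z + (r / 2) • e) ≤ w x := by
  obtain ⟨C, hC1, hC⟩ := harnack_chain hn
  have hC0 : 0 < C := by linarith
  refine ⟨(C ^ 160)⁻¹, by positivity, inv_le_one_of_one_le₀ (one_le_pow₀ hC1), ?_⟩
  intro V z e r b w hV hr he hb hVin hw hw0 x hx hxL
  have hxz : dist x z < 3 * r / 4 := hx
  have hpz : dist (z + (r / 2) • e) z = r / 2 := by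
    rw [dist_eq_norm, add_sub_cancel_left, norm_smul, he, mul_one, Real.norm_eq_abs,
      abs_of_pos (by positivity)]
  have hpL : ⟪z + (r / 2) • e - z, e⟫ = r / 2 := by
    rw [add_sub_cancel_left, real_inner_smul_left, real_inner_self_eq_norm_sq, he]; ring
  have hb' := abs_le.1 hb
  have key := hC w V x (z + (r / 2) • e) (r / 128) 160 hV (by positivity) hw hw0 ?_ ?_
  · rw [inv_mul_le_iff₀ (by positivity)]
    exact key
  · intro y hy v hv
    have hyR : dist y z ≤ 3 * r / 4 :=
      (convex_closedBall z (3 * r / 4)).segment_subset (show dist x z ≤ _ from hxz.le)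
        (show dist (z + (r / 2) • e) z ≤ _ by rw [hpz]; linarith) hy
    have hyA : r / 16 - b ≤ ⟪y - z, e⟫ := by
      obtain ⟨s, t, hs, ht, hst, rfl⟩ := hy
      have e1 : s • x + t • (z + (r / 2) • e) - z = s • (x - z) + t • (z + (r / 2) • e - z) := by
        have : z = (s + t) • z := by rw [hst, one_smul]
        nth_rw 2 [this]
        module
      rw [e1, inner_add_left, real_inner_smul_left, real_inner_smul_left, hpL]
      have h1 : s * (r / 16 - b) ≤ s * ⟪x - z, e⟫ := by
        apply mul_le_mul_of_nonneg_left _ hs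
        linarith
      have h2 : t * (r / 16 - b) ≤ t * (r / 2) := by
        apply mul_le_mul_of_nonneg_left _ ht
        linarith
      have h3 : r / 16 - b = s * (r / 16 - b) + t * (r / 16 - b) := by
        rw [← add_mul, hst, one_mul]
      linarith
    have hvy : dist v y < 4 * (r / 128) := hv
    have hvz := dist_triangle v y z
    apply hVin v
    · have : dist v z < r := by linarith
      exact this
    · have e1 : ⟪v - z, e⟫ = ⟪y - z, e⟫ + ⟪v - y, e⟫ := by
        rw [← inner_add_left]; congr 1; abel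
      have e2 := abs_real_inner_le_norm (v - y) e
      rw [he, mul_one, ← dist_eq_norm] at e2
      have e3 := (abs_le.1 e2).1
      rw [e1]
      linarith
  · have := dist_triangle_right x (z + (r / 2) • e) z
    push_cast
    linarith

end Pool.Agent.Lib.MP_47b33c_an
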