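import Pool.Agent.Lib.MP_47b33c_an.Harnack
import Pool.Agent.Lib.MP_47b33c_an.Planes

set_option autoImplicit false

open MeasureTheory Metric Set Filter Topology InnerProductSpace
open scoped RealInnerProductSpace Laplacian

namespace Pool.Agent.Lib.MP_47b33c_an

variable {n : ℕ}

/-- a ball not meeting the frontier is contained in the set -/
theorem e7_ball_subset {Ω : Set (EE n)} (hΩ : IsOpen Ω) {x : EE n} (hx : x ∈ Ω) :
    ball x (infDist x (frontier Ω)) ⊆ Ω := by
  intro y hy
  by_contra hcon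
  have hd : 0 < infDist x (frontier Ω) := lt_of_le_of_lt dist_nonneg hy
  have hpc : IsPreconnected (ball x (infDist x (frontier Ω))) :=
    (convex_ball x _).isPreconnected
  have hnf : ∀ w ∈ ball x (infDist x (frontier Ω)), w ∉ frontier Ω := by
    intro w hw hwf
    have h1 := infDist_le_dist_of_mem (x := x) hwf
    have h2 : dist w x < infDist x (frontier Ω) := hw
    rw [dist_comm] at h2
    linarith
  have hcl : ∀ w ∈ ball x (infDist x (frontier Ω)), w ∉ Ω → w ∉ closure Ω := by
    intro w hw hwΩ hwc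
    apply hnf w hw
    rw [hΩ.frontier_eq]
    exact ⟨hwc, hwΩ⟩
  obtain ⟨w, -, hw1, hw2⟩ := hpc Ω (closure Ω)ᶜ hΩ isClosed_closure.isOpen_compl
    (by
      intro w hw
      by_cases h : w ∈ Ω
      · exact Or.inl h
      · exact Or.inr (hcl w hw h))
    ⟨x, mem_ball_self hd, hx⟩ ⟨y, hy, hcl y hy hcon⟩
  exact hw2 (subset_closure hw1)

theorem e7_inner_ge {a b : EE n} (hb : ‖b‖ = 1) : 1 - ‖a - b‖ ≤ ⟪a, b⟫ := by
  have h1 : ⟪a, b⟫ = ⟪b, b⟫ + ⟪a - b, b⟫ := by rw [inner_sub_left]; ring
  have h2 : ⟪b, b⟫ = (1:ℝ) := by rw [real_inner_self_eq_norm_sq, hb]; norm_num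
  have h3 := abs_real_inner_le_norm (a - b) b
  rw [hb, mul_one] at h3
  have h4 := (abs_le.1 h3).1
  linarith

/-- one step along a segment in a flat region -/
theorem e7_step {Ω : Set (EE n)} (hΩ : IsOpen Ω) {u : EE n → ℝ} {z : EE n} {r : ℝ}
    (hu : LocPos Ω u z (16 * r)) {C : ℝ}
    (hC : ∀ (u : EE n → ℝ) (U : Set (EE n)) (p q : EE n) (ρ : ℝ) (m : ℕ), IsOpen U → 0 < ρ →
      HarmonicOnNhd u U → (∀ y ∈ U, 0 ≤ u y) →
      (∀ x ∈ segment ℝ p q, ball x (4 * ρ) ⊆ U) → dist p q ≤ m * ρ → u q ≤ C ^ m * u p)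
    {a f : EE n} {s θ R A ρ : ℝ} (m : ℕ) {p q : EE n} (hf : Flat Ω a s f θ)
    (hp : dist p a ≤ R) (hq : dist q a ≤ R) (hpA : A ≤ ⟪p - a, f⟫) (hqA : A ≤ ⟪q - a, f⟫)
    (hρ : 0 < ρ) (h1 : R + 4 * ρ ≤ s) (h2 : θ * s + 4 * ρ ≤ A)
    (h3 : dist a z + R + 4 * ρ ≤ 16 * r) (hm : dist p q ≤ m * ρ) : u q ≤ C ^ m * u p := by
  refine hC u (Ω ∩ ball z (16 * r)) p q ρ m (hΩ.inter isOpen_ball) hρ hu.harm
    (fun y hy => hu.nonneg y hy.2) ?_ hm
  intro w hw y hy
  have hwR : dist w a ≤ R := (convex_closedBall a R).segment_subset hp hq hw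
  have hwA : A ≤ ⟪w - a, f⟫ := by
    obtain ⟨s', t, hs, ht, hst, rfl⟩ := hw
    have e1 : s' • p + t • q - a = s' • (p - a) + t • (q - a) := by
      have : a = (s' + t) • a := by rw [hst, one_smul]
      nth_rw 1 [this]
      module
    rw [e1, inner_add_left, real_inner_smul_left, real_inner_smul_left]
    have : A = s' * A + t * A := by rw [← add_mul, hst, one_mul]
    rw [this]
    gcongr
  have hyw : dist y w < 4 * ρ := hy
  have hya : dist y a < s := by
    have := dist_triangle y w a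
    linarith
  refine ⟨hf.inn y hya ?_, ?_⟩
  · have e1 : ⟪y - a, f⟫ = ⟪w - a, f⟫ + ⟪y - w, f⟫ := by
      rw [← inner_add_left]; congr 1; abel
    have e2 := abs_real_inner_le_norm (y - w) f
    rw [hf.unit, mul_one, ← dist_eq_norm] at e2
    have e3 := (abs_le.1 e2).1
    rw [e1]
    linarith
  · have t1 := dist_triangle y a z
    have t2 := dist_triangle y w a
    have : dist y z < 16 * r := by linarith
    exact this


theorem carleson_power (hn : 2 ≤ n) : ∃ C p : ℝ, 1 ≤ C ∧ 1 ≤ p ∧ ∀ (Ω : Set (EE n))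
    (u : EE n → ℝ) (z e : EE n) (r : ℝ), IsOpen Ω → AllFlat Ω th0 → z ∈ frontier Ω → 0 < r →
    Flat Ω z r e th0 → LocPos Ω u z (16 * r) → ∀ x ∈ Ω ∩ ball z (4 * r),
      u x ≤ C * (r / infDist x (frontier Ω)) ^ p * u (z + (r / 2) • e) := by
  obtain ⟨C, hC1, hC⟩ := harnack_chain hn
  have hC0 : 0 < C := by linarith
  set p : ℝ := max 1 (24 * Real.logb 2 C) with hp
  refine ⟨C ^ 216 * 4 ^ p, p, ?_, le_max_left _ _, ?_⟩
  · have h1 : (1:ℝ) ≤ C ^ 216 := one_le_pow₀ hC1
    have h2 : (1:ℝ) ≤ 4 ^ p := Real.one_le_rpow (by norm_num) (le_trans zero_le_one (le_max_left _ _))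
    nlinarith
  intro Ω u z e r hΩ hflat hz hr he hu x hx
  obtain ⟨hxΩ, hxz⟩ := hx
  have hxz' : dist x z < 4 * r := hxz
  have hne : (frontier Ω).Nonempty := ⟨z, hz⟩
  obtain ⟨y, hyf, hyd⟩ := isClosed_frontier.exists_infDist_eq_dist hne x
  set d := infDist x (frontier Ω) with hd
  have hxnf : x ∉ frontier Ω := by
    rw [hΩ.frontier_eq]; exact fun h => h.2 hxΩ
  have hd0 : 0 < d := by
    rw [hyd]
    exact dist_pos.2 (fun h => hxnf (h ▸ hyf))
  have hd4 : d < 4 * r := lt_of_le_of_lt (infDist_le_dist_of_mem hz) hxz'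
  have hball : ball x d ⊆ Ω := e7_ball_subset hΩ hxΩ
  have hyz : dist y z < 8 * r := by
    have := dist_triangle y x z
    rw [dist_comm y x, ← hyd] at this
    linarith
  have hth : th0 = 1 / 10000 := rfl
  -- normals at y
  have hcho : ∀ j : ℕ, ∃ f : EE n, Flat Ω y (2 ^ (j + 1) * d) f th0 :=
    fun j => hflat y hyf _ (by positivity)
  choose f hf using hcho
  -- the points
  set q : ℕ → EE n := fun j => y + ((2:ℝ) ^ j * d) • f j with hq
  have hqd : ∀ j, dist (q j) y = 2 ^ j * d := by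
    intro j
    simp only [hq, dist_eq_norm, add_sub_cancel_left, norm_smul, (hf j).unit, mul_one,
      Real.norm_eq_abs]
    exact abs_of_pos (by positivity)
  have hqf : ∀ j, ⟪q j - y, f j⟫ = 2 ^ j * d := by
    intro j
    simp only [hq, add_sub_cancel_left, real_inner_smul_left, real_inner_self_eq_norm_sq,
      (hf j).unit]
    ring
  -- step 0
  have hx0 : d * (1 - 3 * th0) ≤ ⟪x - y, f 0⟫ := by
    set w : EE n := x - (d * (1 - th0)) • f 0 with hw
    have hwx : dist w x < d := by
      rw [hw, dist_eq_norm, sub_sub_cancel_left, norm_neg, norm_smul, (hf 0).unit, mul_one,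
        Real.norm_eq_abs, abs_of_pos (by rw [hth]; positivity)]
      rw [hth]; nlinarith
    have hwΩ : w ∈ Ω := hball hwx
    have hwy : w ∈ ball y (2 ^ (0 + 1) * d) := by
      have := dist_triangle w x y
      rw [← hyd] at this
      have h3 : dist w y < 2 ^ (0 + 1) * d := by norm_num; linarith
      exact h3
    have h1 := (hf 0).out w hwy hwΩ
    have h2 : ⟪w - y, f 0⟫ = ⟪x - y, f 0⟫ - d * (1 - th0) := by
      have : w - y = (x - y) - (d * (1 - th0)) • f 0 := by rw [hw]; abel
      rw [this, inner_sub_left, real_inner_smul_left, real_inner_self_eq_norm_sq, (hf 0).unit]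
      ring
    rw [h2] at h1
    norm_num at h1
    nlinarith
  have hstep0 : u x ≤ C ^ 8 * u (q 0) := by
    refine e7_step hΩ hu hC (a := y) (R := d) (A := d * (1 - 3 * th0)) (ρ := d / 8) 8 (hf 0)
      ?_ ?_ ?_ ?_ (by positivity) ?_ ?_ ?_ ?_
    · rw [hqd]; simp
    · rw [← hyd]
    · rw [hqf]; rw [hth]; norm_num; nlinarith
    · exact hx0
    · norm_num; linarith
    · rw [hth]; norm_num; nlinarith
    · linarith
    · have h1 : dist (q 0) x ^ 2 ≤ d ^ 2 := by
        have e1 : q 0 - x = (q 0 - y) - (x - y) := by abel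
        rw [dist_eq_norm, e1, @norm_sub_sq_real]
        have e2 : ‖q 0 - y‖ = d := by rw [← dist_eq_norm, hqd]; simp
        have e3 : ‖x - y‖ = d := by rw [← dist_eq_norm, ← hyd]
        have e4 : ⟪q 0 - y, x - y⟫ = d * ⟪x - y, f 0⟫ := by
          simp only [hq, add_sub_cancel_left, real_inner_smul_left, pow_zero, one_mul]
          rw [real_inner_comm]
        rw [e2, e3, e4]
        have h5 : d * (d * (1 - 3 * th0)) ≤ d * ⟪x - y, f 0⟫ := by gcongr
        rw [hth] at h5
        nlinarith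
      have h2 : dist (q 0) x ≤ d := abs_le_of_sq_le_sq' h1 hd0.le |>.2
      push_cast
      linarith
  -- step j
  have hstepj : ∀ j : ℕ, 2 ^ (j + 1) * d < 4 * r → u (q j) ≤ C ^ 24 * u (q (j + 1)) := by
    intro j hj
    set R : ℝ := 2 ^ (j + 1) * d with hR
    have hR0 : 0 < R := by positivity
    have hR1 : (2:ℝ) ^ j * d = R / 2 := by rw [hR]; ring
    have hR2 : (2:ℝ) ^ (j + 1 + 1) * d = 2 * R := by rw [hR]; ring
    have hff : ‖f (j + 1) - f j‖ ≤ 4 * th0 := by
      have := two_planes (r := 2 * R) (r' := R) hR0 (by linarith) (hR2 ▸ hf (j + 1)) (hf j)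
      refine this.trans ?_
      have : th0 * (2 * R) / R = 2 * th0 := by field_simp
      rw [this, max_eq_left (by rw [hth]; norm_num)]
      linarith
    refine e7_step hΩ hu hC (a := y) (R := R) (A := R / 2 * (1 - 4 * th0)) (ρ := R / 16) 24
      (hf (j + 1)) ?_ ?_ ?_ ?_ (by positivity) ?_ ?_ ?_ ?_
    · rw [hqd]
    · rw [hqd, hR1]; linarith
    · rw [hqf]; rw [hth]; nlinarith
    · have e1 : ⟪q j - y, f (j + 1)⟫ = R / 2 * ⟪f j, f (j + 1)⟫ := by
        simp only [hq, add_sub_cancel_left, real_inner_smul_left]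
        rw [hR1]
      rw [e1]
      have e2 := e7_inner_ge (a := f j) (hf (j + 1)).unit
      rw [norm_sub_rev] at e2
      have e3 : 1 - 4 * th0 ≤ ⟪f j, f (j + 1)⟫ := by linarith
      gcongr
    · rw [hR2]; linarith
    · rw [hR2, hth]; nlinarith
    · linarith
    · have := dist_triangle_right (q (j + 1)) (q j) y
      rw [hqd, hqd, hR1] at this
      push_cast
      linarith
  -- the number of steps
  have hex : ∃ J : ℕ, r ≤ 2 ^ J * d := by
    obtain ⟨J, hJ⟩ := pow_unbounded_of_one_lt (r / d) (by norm_num : (1:ℝ) < 2)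
    refine ⟨J, ?_⟩
    rw [div_lt_iff₀ hd0] at hJ
    exact hJ.le
  classical
  set J := Nat.find hex with hJdef
  have hJ1 : r ≤ 2 ^ J * d := Nat.find_spec hex
  have hJmin : ∀ j < J, 2 ^ j * d < r := fun j hj => not_le.1 (Nat.find_min hex hj)
  have hJ2 : 2 ^ J * d < 4 * r := by
    rcases Nat.eq_zero_or_pos J with h0 | h0
    · rw [h0]; norm_num; exact hd4
    · obtain ⟨k, hk⟩ := Nat.exists_eq_succ_of_ne_zero h0.ne'
      have := hJmin k (by omega)
      rw [hk, Nat.succ_eq_add_one, pow_succ]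
      linarith
  set S : ℝ := 2 ^ J * d with hS
  have hchain : ∀ j ≤ J, u x ≤ C ^ (8 + 24 * j) * u (q j) := by
    intro j
    induction j with
    | zero => intro _; simpa using hstep0
    | succ j ih =>
      intro hj
      have h1 := ih (by omega)
      have h2 := hJmin j (by omega)
      have h3 := hstepj j (by rw [pow_succ]; linarith)
      refine h1.trans ?_
      have h4 : C ^ (8 + 24 * (j + 1)) * u (q (j + 1))
          = C ^ (8 + 24 * j) * (C ^ 24 * u (q (j + 1))) := by ring
      rw [h4]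
      gcongr
  -- the large scale
  obtain ⟨g, hg⟩ := hflat z hz (16 * r) (by positivity)
  have hyΩ : y ∉ Ω := by
    rw [hΩ.frontier_eq] at hyf; exact hyf.2
  have hyg1 : ⟪y - z, g⟫ ≤ th0 * (16 * r) := by
    by_contra hcon
    push Not at hcon
    exact hyΩ (hg.inn y (by have h3 : dist y z < 16 * r := by linarith
                            exact h3) hcon)
  have hyg2 : -(th0 * (16 * r)) ≤ ⟪y - z, g⟫ := by
    by_contra hcon
    push Not at hcon
    have hopen : IsOpen ({w : EE n | ⟪w - z, g⟫ < -(th0 * (16 * r))} ∩ ball z (16 * r)) :=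
      (isOpen_lt (by fun_prop) continuous_const).inter isOpen_ball
    have hyc : y ∈ closure Ω := by
      rw [hΩ.frontier_eq] at hyf; exact hyf.1
    obtain ⟨w, ⟨hw1, hw2⟩, hw3⟩ := mem_closure_iff.1 hyc _ hopen
      ⟨hcon, by have h3 : dist y z < 16 * r := by linarith
                exact h3⟩
    have := hg.out w hw2 hw3
    have h4 : ⟪w - z, g⟫ < -(th0 * (16 * r)) := hw1
    linarith
  have hS0 : 0 < S := by positivity
  have hflatg : Flat Ω y (2 * S) g (16 * th0) := by
    refine ⟨hg.unit, ?_, ?_⟩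
    · intro w hw h1
      have hwy : dist w y < 2 * S := hw
      have e1 : ⟪w - z, g⟫ = ⟪w - y, g⟫ + ⟪y - z, g⟫ := by
        rw [← inner_add_left]; congr 1; abel
      refine hg.inn w ?_ ?_
      · have := dist_triangle w y z
        have h3 : dist w z < 16 * r := by linarith
        exact h3
      · rw [e1]; rw [hth] at *; linarith
    · intro w hw hwΩ
      have hwy : dist w y < 2 * S := hw
      have e1 : ⟪w - z, g⟫ = ⟪w - y, g⟫ + ⟪y - z, g⟫ := by
        rw [← inner_add_left]; congr 1; abel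
      have h2 := hg.out w (by
        have := dist_triangle w y z
        have h3 : dist w z < 16 * r := by linarith
        exact h3) hwΩ
      rw [e1] at h2
      rw [hth] at *; linarith
  have hfg : ‖f J - g‖ ≤ 32 * th0 := by
    have h1 : Flat Ω y (2 * S) (f J) th0 := by
      have := hf J
      have e1 : (2:ℝ) ^ (J + 1) * d = 2 * S := by rw [hS]; ring
      rwa [e1] at this
    have := two_planes (by positivity) le_rfl h1 hflatg
    refine this.trans ?_
    rw [mul_div_assoc, div_self (by positivity), mul_one,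
      max_eq_right (by rw [hth]; norm_num)]
    linarith
  have hge : ‖g - e‖ ≤ 32 * th0 := by
    have := two_planes hr (by linarith) hg he
    refine this.trans ?_
    have : th0 * (16 * r) / r = 16 * th0 := by field_simp
    rw [this, max_eq_left (by rw [hth]; norm_num)]
    linarith
  have hlast : u (q J) ≤ C ^ 208 * u (z + (r / 2) • e) := by
    have hpz : dist (z + (r / 2) • e) z = r / 2 := by
      rw [dist_eq_norm, add_sub_cancel_left, norm_smul, he.unit, mul_one, Real.norm_eq_abs,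
        abs_of_pos (by positivity)]
    have hqz : dist (q J) z ≤ 12 * r := by
      have := dist_triangle (q J) y z
      rw [hqd] at this
      linarith
    refine e7_step hΩ hu hC (a := z) (R := 12 * r) (A := 49 / 100 * r) (ρ := r / 16) 208 hg
      ?_ hqz ?_ ?_ (by positivity) ?_ ?_ ?_ ?_
    · rw [hpz]; linarith
    · have e1 : ⟪z + (r / 2) • e - z, g⟫ = r / 2 * ⟪g, e⟫ := by
        rw [add_sub_cancel_left, real_inner_smul_left, real_inner_comm]
      have e2 := e7_inner_ge (a := g) he.unit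
      have e3 : 1 - 32 * th0 ≤ ⟪g, e⟫ := by linarith
      rw [e1]
      have e4 : r / 2 * (1 - 32 * th0) ≤ r / 2 * ⟪g, e⟫ := by gcongr
      rw [hth] at e4
      linarith
    · have e1 : ⟪q J - z, g⟫ = S * ⟪f J, g⟫ + ⟪y - z, g⟫ := by
        have : q J - z = S • f J + (y - z) := by
          simp only [hq]; rw [hS]; abel
        rw [this, inner_add_left, real_inner_smul_left]
      have e2 := e7_inner_ge (a := f J) hg.unit
      have e3 : 1 - 32 * th0 ≤ ⟪f J, g⟫ := by linarith
      have e4 : S * (1 - 32 * th0) ≤ S * ⟪f J, g⟫ := by gcongr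
      rw [e1]
      rw [hth] at *
      nlinarith
    · linarith
    · rw [hth]; linarith
    · rw [dist_self]; linarith
    · have := dist_triangle_right (z + (r / 2) • e) (q J) z
      push_cast
      linarith
  have hP0 : 0 ≤ u (z + (r / 2) • e) := by
    apply hu.nonneg
    have h3 : dist (z + (r / 2) • e) z < 16 * r := by
      rw [dist_eq_norm, add_sub_cancel_left, norm_smul, he.unit, mul_one, Real.norm_eq_abs,
        abs_of_pos (by positivity)]
      linarith
    exact h3
  have hpow : C ^ (24 * J) ≤ 4 ^ p * (r / d) ^ p := by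
    have h2J : (1:ℝ) ≤ 2 ^ J := one_le_pow₀ (by norm_num)
    have hCe : C = (2:ℝ) ^ (Real.logb 2 C) := (Real.rpow_logb (by norm_num) (by norm_num) hC0).symm
    have e1 : C ^ (24 * J) = ((2:ℝ) ^ J) ^ (24 * Real.logb 2 C) := by
      rw [← Real.rpow_natCast 2 J, ← Real.rpow_mul (by norm_num)]
      nth_rw 1 [hCe]
      rw [← Real.rpow_natCast, ← Real.rpow_mul (by norm_num)]
      congr 1
      push_cast
      ring
    rw [e1, ← Real.mul_rpow (by norm_num) (by positivity)]
    calc ((2:ℝ) ^ J) ^ (24 * Real.logb 2 C) ≤ ((2:ℝ) ^ J) ^ p :=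
          Real.rpow_le_rpow_of_exponent_le h2J (le_max_right _ _)
      _ ≤ (4 * (r / d)) ^ p := by
          apply Real.rpow_le_rpow (by positivity) _ (le_trans zero_le_one (le_max_left _ _))
          rw [← mul_div_assoc, le_div_iff₀ hd0]
          exact hJ2.le
  calc u x ≤ C ^ (8 + 24 * J) * u (q J) := hchain J le_rfl
    _ ≤ C ^ (8 + 24 * J) * (C ^ 208 * u (z + (r / 2) • e)) := by gcongr
    _ = C ^ 216 * C ^ (24 * J) * u (z + (r / 2) • e) := by ring
    _ ≤ C ^ 216 * (4 ^ p * (r / d) ^ p) * u (z + (r / 2) • e) := by gcongr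
    _ = C ^ 216 * 4 ^ p * (r / d) ^ p * u (z + (r / 2) • e) := by ring

end Pool.Agent.Lib.MP_47b33c_an
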