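import Pool.Agent.Lib.MP_47b33c_an.Sub
import Pool.Agent.Lib.MP_47b33c_an.Decay
import Pool.Agent.Lib.MP_47b33c_an.CarP

set_option autoImplicit false

open MeasureTheory Metric Set Filter Topology InnerProductSpace
open scoped RealInnerProductSpace Laplacian

namespace Pool.Agent.Lib.MP_47b33c_an

variable {n : ℕ}

theorem e8_ext {Ω : Set (EE n)} {z e : EE n} {r : ℝ} (hr : 0 < r)
    (h : Flat Ω z r e th0) : ExtAt (1 / 4) Ω z r := by
  have hth : th0 = 1 / 10000 := rfl
  refine ⟨z - (r / 2) • e, ?_, ?_⟩
  · intro w hw
    have h1 : dist w (z - (r / 2) • e) ≤ 1 / 4 * r := hw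
    have h2 : dist (z - (r / 2) • e) z = r / 2 := by
      rw [dist_eq_norm, sub_sub_cancel_left, norm_neg, norm_smul, h.unit, mul_one,
        Real.norm_eq_abs, abs_of_pos (by positivity)]
    have h3 := dist_triangle w (z - (r / 2) • e) z
    have h4 : dist w z < r := by linarith
    exact h4
  · rw [Set.disjoint_left]
    intro w hw hwΩ
    have h1 : dist w (z - (r / 2) • e) ≤ 1 / 4 * r := hw
    have h2 : dist (z - (r / 2) • e) z = r / 2 := by
      rw [dist_eq_norm, sub_sub_cancel_left, norm_neg, norm_smul, h.unit, mul_one,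
        Real.norm_eq_abs, abs_of_pos (by positivity)]
    have h3 := dist_triangle w (z - (r / 2) • e) z
    have h4 : dist w z < r := by linarith
    have h5 := h.out w h4 hwΩ
    have h6 : ⟪w - z, e⟫ = ⟪w - (z - (r / 2) • e), e⟫ - r / 2 := by
      have : w - z = (w - (z - (r / 2) • e)) - (r / 2) • e := by abel
      rw [this, inner_sub_left, real_inner_smul_left, real_inner_self_eq_norm_sq, h.unit]
      ring
    have h7 := abs_real_inner_le_norm (w - (z - (r / 2) • e)) e
    rw [h.unit, mul_one, ← dist_eq_norm] at h7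
    have h8 := (abs_le.1 h7).2
    rw [hth] at h5
    linarith

theorem carleson (hn : 2 ≤ n) : ∃ C : ℝ, 1 ≤ C ∧ ∀ (Ω : Set (EE n)) (u : EE n → ℝ)
    (z e : EE n) (r : ℝ), IsOpen Ω → AllFlat Ω th0 → z ∈ frontier Ω → 0 < r →
    Flat Ω z r e th0 → LocPos Ω u z (16 * r) → ∀ x ∈ ball z r,
      u x ≤ C * u (z + (r / 2) • e) := by
  obtain ⟨C₁, p, hC₁, hp, hE7⟩ := carleson_power hn
  obtain ⟨θ, hθ0, hθ1, hdec⟩ := decay hn (1 / 4) (by norm_num)
  have hp0 : 0 < p := by linarith
  have h2p : (0:ℝ) < 2 ^ p := by positivity
  obtain ⟨k, hk⟩ := exists_pow_lt_of_lt_one (inv_pos.2 h2p) (by linarith : 1 - θ < 1)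
  have hk' : (1 - θ) ^ k * 2 ^ p < 1 := by
    rwa [← lt_div_iff₀ h2p, one_div]
  have h6k : (1:ℝ) ≤ 6 ^ k := one_le_pow₀ (by norm_num)
  have h6k1 : (1:ℝ) ≤ 6 ^ (k + 1) := one_le_pow₀ (by norm_num)
  refine ⟨C₁ * (6 ^ (k + 1)) ^ p, ?_, ?_⟩
  · have := Real.one_le_rpow h6k1 hp0.le
    nlinarith
  intro Ω u z e r hΩ hflat hz hr he hu x hx
  have hP0 : 0 ≤ u (z + (r / 2) • e) := by
    apply hu.nonneg
    have h3 : dist (z + (r / 2) • e) z < 16 * r := by
      rw [dist_eq_norm, add_sub_cancel_left, norm_smul, he.unit, mul_one, Real.norm_eq_abs,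
        abs_of_pos (by positivity)]
      linarith
    exact h3
  set N := u (z + (r / 2) • e) with hN
  have hxz : dist x z < r := hx
  -- the maximum point
  set G : EE n → ℝ := fun y => u y * (2 * r - dist y z) ^ p with hG
  have hsub : closedBall z (2 * r) ⊆ ball z (16 * r) := closedBall_subset_ball (by linarith)
  have hGc : ContinuousOn G (closedBall z (2 * r)) := by
    refine (hu.cont.mono hsub).mul ?_
    refine ContinuousOn.rpow_const (by fun_prop) ?_
    intro y hy
    exact Or.inr hp0.le
  obtain ⟨xs, hxs, hmax⟩ := (isCompact_closedBall z (2 * r)).exists_isMaxOn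
    ⟨z, mem_closedBall_self (by linarith)⟩ hGc
  have hxs' : dist xs z ≤ 2 * r := hxs
  have hmax' : ∀ y : EE n, dist y z ≤ 2 * r → G y ≤ G xs := fun y hy => hmax hy
  have hGx := hmax' x (by linarith)
  have hux0 : 0 ≤ u x := hu.nonneg x (by
    have h3 : dist x z < 16 * r := by linarith
    exact h3)
  have hrx : r ^ p ≤ (2 * r - dist x z) ^ p :=
    Real.rpow_le_rpow hr.le (by linarith) hp0.le
  have h1 : u x * r ^ p ≤ G xs := by
    refine le_trans ?_ hGx
    simp only [hG]
    gcongr
  have hrp : 0 < r ^ p := Real.rpow_pos_of_pos hr p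
  -- main claim
  have hclaim : G xs ≤ C₁ * (6 ^ (k + 1)) ^ p * N * r ^ p := by
    have hR0 : 0 ≤ C₁ * (6 ^ (k + 1)) ^ p * N * r ^ p := by positivity
    rcases le_or_gt (G xs) 0 with h0 | h0
    · exact h0.trans hR0
    set ρ := 2 * r - dist xs z with hρ
    have hρ0 : 0 < ρ := by
      rcases lt_or_eq_of_le (by linarith : 0 ≤ ρ) with h | h
      · exact h
      · exfalso
        simp only [hG] at h0
        rw [← hρ, ← h, Real.zero_rpow hp0.ne', mul_zero] at h0
        exact lt_irrefl _ h0
    have hρp : 0 < ρ ^ p := Real.rpow_pos_of_pos hρ0 p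
    have hus : 0 < u xs := by
      by_contra hcon
      push Not at hcon
      have : G xs ≤ 0 := mul_nonpos_of_nonpos_of_nonneg hcon hρp.le
      linarith
    have hxsΩ : xs ∈ Ω := by
      by_contra hcon
      have := hu.zero xs (hsub hxs) hcon
      linarith
    have hne : (frontier Ω).Nonempty := ⟨z, hz⟩
    obtain ⟨y, hyf, hyd⟩ := isClosed_frontier.exists_infDist_eq_dist hne xs
    set d := infDist xs (frontier Ω) with hd
    have hxnf : xs ∉ frontier Ω := by
      rw [hΩ.frontier_eq]; exact fun h => h.2 hxsΩ
    have hd0 : 0 < d := by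
      rw [hyd]
      exact dist_pos.2 (fun h => hxnf (h ▸ hyf))
    have hdbig : ρ / 2 < 3 * 6 ^ k * d := by
      by_contra hcon
      push Not at hcon
      -- bound near xs
      have hb : ∀ w : EE n, dist w xs < ρ / 2 → u w ≤ 2 ^ p * u xs := by
        intro w hw
        have h2 := dist_triangle w xs z
        have h3 : ρ / 2 ≤ 2 * r - dist w z := by linarith
        have h4 := hmax' w (by linarith)
        simp only [hG] at h4
        rw [← hρ] at h4
        have hw0 : 0 ≤ u w := hu.nonneg w (by
          have h3 : dist w z < 16 * r := by linarith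
          exact h3)
        have h5 : u w * (ρ / 2) ^ p ≤ u xs * ρ ^ p := by
          refine le_trans ?_ h4
          gcongr
        have h6 : ρ ^ p = 2 ^ p * (ρ / 2) ^ p := by
          rw [← Real.mul_rpow (by norm_num) (by positivity)]
          congr 1; ring
        rw [h6] at h5
        have h7 : 0 < (ρ / 2) ^ p := by positivity
        nlinarith
      have hyxs : dist y xs = d := by rw [dist_comm, ← hyd]
      have hyz : dist y z ≤ d + 2 * r := by
        have := dist_triangle y xs z
        linarith
      have hdr : 3 * 6 ^ k * d ≤ r := by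
        have : dist xs z ≥ 0 := dist_nonneg
        linarith
      have hdr' : d ≤ r / 3 := by nlinarith
      have hballs : ball y (6 ^ k * (2 * d)) ⊆ ball z (16 * r) := by
        intro w hw
        have hw' : dist w y < 6 ^ k * (2 * d) := hw
        have := dist_triangle w y z
        have h3 : dist w z < 16 * r := by nlinarith
        exact h3
      have hiter : ∀ i ≤ k, ∀ w ∈ Ω ∩ ball y (6 ^ (k - i) * (2 * d)),
          u w ≤ (1 - θ) ^ i * (2 ^ p * u xs) := by
        intro i
        induction i with
        | zero =>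
          intro _ w hw
          have hw' : dist w y < 6 ^ (k - 0) * (2 * d) := hw.2
          rw [Nat.sub_zero] at hw'
          rw [pow_zero, one_mul]
          apply hb
          have := dist_triangle w y xs
          nlinarith
        | succ i ih =>
          intro hi
          have hi' := ih (by omega)
          have hki : (6:ℝ) ^ (k - i) = 6 * 6 ^ (k - (i + 1)) := by
            rw [← pow_succ']
            congr 1
            omega
          have hsub2 : ball y (6 * (6 ^ (k - (i + 1)) * (2 * d))) ⊆ ball z (16 * r) := by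
            refine Subset.trans (ball_subset_ball ?_) hballs
            rw [← mul_assoc, ← hki]
            gcongr
            · norm_num
            · omega
          obtain ⟨f, hf⟩ := hflat y hyf (6 ^ (k - (i + 1)) * (2 * d)) (by positivity)
          have := hdec Ω y (6 ^ (k - (i + 1)) * (2 * d)) u ((1 - θ) ^ i * (2 ^ p * u xs)) hΩ
            (by positivity) (e8_ext (by positivity) hf)
            (by have : 0 < 1 - θ := by linarith
                positivity)
            (harmonic_subH hn (hu.harm.mono (by
              intro w hw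
              exact ⟨hw.1, hsub2 hw.2⟩)))
            (by
              intro w hw
              apply hi' w
              refine ⟨hw.1, ?_⟩
              rw [hki, mul_assoc]
              exact hw.2)
            (by
              intro ζ hζ η hη
              have hζz : ζ ∈ ball z (16 * r) := hsub2 hζ.2
              have hζΩ : ζ ∉ Ω := by
                have := hζ.1
                rw [hΩ.frontier_eq] at this
                exact this.2
              have hζ0 := hu.zero ζ hζz hζΩ
              have hcont : ContinuousAt u ζ :=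
                hu.cont.continuousAt (isOpen_ball.mem_nhds hζz)
              have h1 : ∀ᶠ w in 𝓝 ζ, u w < 0 + η := by
                apply hcont.eventually_lt_const
                rw [hζ0]; linarith
              exact (h1.filter_mono nhdsWithin_le_nhds).mono fun w hw => hw.le)
          intro w hw
          refine (this w hw).trans (le_of_eq ?_)
          ring
      have hfin := hiter k le_rfl xs ⟨hxsΩ, by
        have h3 : dist xs y < 6 ^ (k - k) * (2 * d) := by
          rw [Nat.sub_self, pow_zero, one_mul, ← hyd]; linarith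
        exact h3⟩
      have h9 : (1 - θ) ^ k * (2 ^ p * u xs) < u xs := by
        have : (1 - θ) ^ k * (2 ^ p * u xs) = ((1 - θ) ^ k * 2 ^ p) * u xs := by ring
        rw [this]
        nlinarith
      linarith
    -- conclude with the power bound
    have hE := hE7 Ω u z e r hΩ hflat hz hr he hu xs ⟨hxsΩ, by
      have h3 : dist xs z < 4 * r := by linarith
      exact h3⟩
    rw [← hN, ← hd] at hE
    have hrd : r / d ≤ 6 ^ (k + 1) * (r / ρ) := by
      rw [div_le_iff₀ hd0]
      have e1 : 6 ^ (k + 1) * (r / ρ) * d = (6 * 6 ^ k * d) * (r / ρ) := by ring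
      rw [e1]
      have e2 : ρ ≤ 6 * 6 ^ k * d := by linarith
      calc r = ρ * (r / ρ) := by field_simp
        _ ≤ 6 * 6 ^ k * d * (r / ρ) := by gcongr
    have hpow : (r / d) ^ p ≤ (6 ^ (k + 1)) ^ p * (r / ρ) ^ p := by
      rw [← Real.mul_rpow (by positivity) (by positivity)]
      exact Real.rpow_le_rpow (by positivity) hrd hp0.le
    have hcancel : (r / ρ) ^ p * ρ ^ p = r ^ p := by
      rw [← Real.mul_rpow (by positivity) hρ0.le]
      congr 1
      field_simp
    calc G xs = u xs * ρ ^ p := rfl
      _ ≤ (C₁ * (r / d) ^ p * N) * ρ ^ p := by gcongr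
      _ ≤ (C₁ * ((6 ^ (k + 1)) ^ p * (r / ρ) ^ p) * N) * ρ ^ p := by gcongr
      _ = C₁ * (6 ^ (k + 1)) ^ p * N * ((r / ρ) ^ p * ρ ^ p) := by ring
      _ = C₁ * (6 ^ (k + 1)) ^ p * N * r ^ p := by rw [hcancel]
  have h2 := h1.trans hclaim
  exact le_of_mul_le_mul_right h2 hrp

end Pool.Agent.Lib.MP_47b33c_an
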