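import Pool.Agent.Lib.MP_47b33c_an.Rad
import Pool.Agent.Lib.MP_47b33c_an.Sub
import Pool.Agent.Lib.MP_47b33c_an.SubMax

/-!
# Lower barrier estimate (task E3 of the blueprint for MP_47b33c_an)
-/

set_option autoImplicit false

open MeasureTheory Metric Set Filter Topology InnerProductSpace
open scoped RealInnerProductSpace Laplacian

namespace Pool.Agent.Lib.MP_47b33c_an

variable {n : ℕ}

section E3

/-- `s^{-m} - (s+t)^{-m} ≤ m t s^{-m-1}` -/
theorem e3_pow (m : ℕ) {s t : ℝ} (hs : 0 < s) (ht : 0 ≤ t) :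
    (s ^ m)⁻¹ - ((s + t) ^ m)⁻¹ ≤ (s ^ m)⁻¹ * (m * (t / s)) := by
  have h1 : 1 + (m : ℝ) * (-(t / (s + t))) ≤ (1 + -(t / (s + t))) ^ m := by
    apply one_add_mul_le_pow
    have : t / (s + t) ≤ 1 := by
      rw [div_le_one (by linarith)]; linarith
    linarith
  have h2 : (1 + -(t / (s + t))) = s / (s + t) := by
    field_simp
    ring
  have h3 : t / (s + t) ≤ t / s := div_le_div_of_nonneg_left ht hs (by linarith)
  have h4 : (m : ℝ) * (t / (s + t)) ≤ m * (t / s) := mul_le_mul_of_nonneg_left h3 (Nat.cast_nonneg _)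
  rw [h2, div_pow] at h1
  have h5 : 0 < (s ^ m)⁻¹ := by positivity
  have h6 : (s ^ m)⁻¹ * (s ^ m / (s + t) ^ m) = ((s + t) ^ m)⁻¹ := by
    have : s ^ m ≠ 0 := by positivity
    field_simp
  have h7 : (s ^ m)⁻¹ * (1 - m * (t / s)) ≤ (s ^ m)⁻¹ * (s ^ m / (s + t) ^ m) :=
    mul_le_mul_of_nonneg_left (by linarith) h5.le
  rw [h6] at h7
  linarith

/-- `(ρ-t)^{-m} - ρ^{-m} ≥ m t ρ^{-m-1}` -/
theorem e3_pow' (m : ℕ) {ρ t : ℝ} (hρ : 0 < ρ) (ht : 0 ≤ t) (htρ : t < ρ) :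
    (ρ ^ m)⁻¹ * (m * (t / ρ)) ≤ ((ρ - t) ^ m)⁻¹ - (ρ ^ m)⁻¹ := by
  have h0 : 0 < ρ - t := by linarith
  have h1 : 1 + (m : ℝ) * (t / ρ) ≤ (1 + t / ρ) ^ m := by
    apply one_add_mul_le_pow
    have : 0 ≤ t / ρ := by positivity
    linarith
  have h2 : (1 + t / ρ) ≤ ρ / (ρ - t) := by
    rw [le_div_iff₀ h0]
    have : (1 + t / ρ) * (ρ - t) = ρ - t * (t / ρ) := by
      field_simp
      ring
    rw [this]
    have : 0 ≤ t * (t / ρ) := by positivity
    linarith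
  have h3 : (1 + t / ρ) ^ m ≤ (ρ / (ρ - t)) ^ m := pow_le_pow_left₀ (by positivity) h2 m
  rw [div_pow] at h3
  have h5 : 0 < (ρ ^ m)⁻¹ := by positivity
  have h6 : (ρ ^ m)⁻¹ * (ρ ^ m / (ρ - t) ^ m) = ((ρ - t) ^ m)⁻¹ := by
    have h7 : ρ ^ m ≠ 0 := by positivity
    have h8 : (ρ - t) ^ m ≠ 0 := by positivity
    field_simp
  have h7 : (ρ ^ m)⁻¹ * (1 + m * (t / ρ)) ≤ (ρ ^ m)⁻¹ * (ρ ^ m / (ρ - t) ^ m) :=
    mul_le_mul_of_nonneg_left (h1.trans h3) h5.le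
  rw [h6] at h7
  linarith

theorem e3_num {m r P T t ρ N : ℝ} (hN : 2 ≤ N) (hr : 0 < r) (hm : 0 ≤ m) (hP : 0 < P)
    (hT : 4 ≤ T) (ht : 0 ≤ t) (hρ : ρ = r / 8) :
    T⁻¹ * (m / r) * t ≤ m / (P * (T - 1)) * (P * (N * (t / ρ))) := by
  have hT0 : 0 < T := by linarith
  have hT1 : 0 < T - 1 := by linarith
  have h6 : T⁻¹ ≤ (T - 1)⁻¹ := inv_anti₀ hT1 (by linarith)
  have h7 : m / (P * (T - 1)) * (P * (N * (t / ρ))) = (T - 1)⁻¹ * (8 * N * (m / r) * t) := by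
    rw [hρ]
    field_simp
  have h10 : 0 ≤ (m / r) * t := by positivity
  have h9 : (m / r) * t ≤ 8 * N * (m / r) * t := by
    have : 8 * N * (m / r) * t = 8 * N * ((m / r) * t) := by ring
    rw [this]
    have : 1 * ((m / r) * t) ≤ 8 * N * ((m / r) * t) := mul_le_mul_of_nonneg_right (by linarith) h10
    linarith
  have h8 : 0 ≤ 8 * N * (m / r) * t := h10.trans h9
  rw [h7, mul_assoc]
  exact mul_le_mul h6 h9 h10 (inv_nonneg.2 hT1.le)

theorem hopf_low (hn : 2 ≤ n) : ∃ c C : ℝ, 0 < c ∧ 1 ≤ C ∧ ∀ (V : Set (EE n)) (z e : EE n)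
    (r b m κ : ℝ) (w : EE n → ℝ), IsOpen V → 0 < r → ‖e‖ = 1 → |b| ≤ r / 100 → 0 ≤ m →
    V ⊆ ball z r → (∀ x ∈ V, 0 < ⟪x - z, e⟫ + b) → SubH (fun x => -w x) V →
    (∀ x ∈ V, 0 ≤ w x) →
    (∀ x ∈ ball z (3 * r / 4), r / 16 ≤ ⟪x - z, e⟫ + b → x ∈ V ∧ m ≤ w x) →
    C * (m / r) ≤ κ →
    (∀ ζ ∈ frontier V ∩ ball z r, BdLe V (fun x => κ * (⟪x - z, e⟫ + b) - w x) 0 ζ) →
    ∀ x ∈ V, x ∈ ball z (r / 8) → c * (m / r) * (⟪x - z, e⟫ + b) ≤ w x := by
  have hn2 : (2:ℝ) ≤ n := by exact_mod_cast hn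
  have h2n : (4:ℝ) ≤ 2 ^ n := by
    calc (4:ℝ) = 2 ^ 2 := by norm_num
      _ ≤ 2 ^ n := pow_le_pow_right₀ (by norm_num) hn
  refine ⟨(2 ^ n)⁻¹, 32 * n, by positivity, by linarith, ?_⟩
  intro V z e r b m κ w hV hr he hb hm hVz hL hw hw0 hup hκ hbd x0 hx0 hx0z
  have ht : 0 < ⟪x0 - z, e⟫ + b := hL x0 hx0
  set t : ℝ := ⟪x0 - z, e⟫ + b with htdef
  have hb' := abs_le.1 hb
  have hx0z' : ‖x0 - z‖ < r / 8 := by rwa [mem_ball, dist_eq_norm] at hx0z
  have htr : t ≤ 27 / 200 * r := by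
    have : ⟪x0 - z, e⟫ ≤ ‖x0 - z‖ * ‖e‖ := real_inner_le_norm _ _
    rw [he, mul_one] at this
    linarith
  have hmr : 0 ≤ m / r := by positivity
  have hc1 : ((2:ℝ) ^ n)⁻¹ ≤ 1 := inv_le_one_of_one_le₀ (by linarith)
  have hc0 : 0 < ((2:ℝ) ^ n)⁻¹ := by positivity
  by_cases htc : r / 16 ≤ t
  · have h1 := (hup x0 (by rw [mem_ball, dist_eq_norm]; linarith) htc).2
    calc ((2:ℝ) ^ n)⁻¹ * (m / r) * t ≤ 1 * (m / r) * t :=
          mul_le_mul_of_nonneg_right (mul_le_mul_of_nonneg_right hc1 hmr) ht.le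
      _ ≤ 1 * (m / r) * r := mul_le_mul_of_nonneg_left (by linarith) (by linarith)
      _ = m := by field_simp
      _ ≤ w x0 := h1
  push Not at htc
  have hee : ⟪e, e⟫ = (1:ℝ) := by rw [real_inner_self_eq_norm_sq, he]; norm_num
  set ρ : ℝ := r / 8 with hρ
  have hρ0 : 0 < ρ := by positivity
  set a : EE n := x0 + (ρ - t) • e with ha
  have htρ : t < ρ / 2 := by rw [hρ]; linarith
  have hax : ‖x0 - a‖ = ρ - t := by
    have : x0 - a = -((ρ - t) • e) := by rw [ha]; abel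
    rw [this, norm_neg, norm_smul, he, mul_one, Real.norm_of_nonneg (by linarith)]
  have haz : ‖a - z‖ ≤ r / 4 := by
    have h1 : a - z = (x0 - z) - (x0 - a) := by abel
    have h3 := norm_sub_le (x0 - z) (x0 - a)
    rw [h1]
    rw [hax] at h3
    have : ρ = r / 8 := hρ
    linarith
  have hLa : ∀ x : EE n, ⟪x - z, e⟫ + b = ρ + ⟪x - a, e⟫ := by
    intro x
    have h1 : x - a = (x - z) - (x0 - z) - (ρ - t) • e := by rw [ha]; abel
    have h3 : ⟪x - a, e⟫ = ⟪x - z, e⟫ - ⟪x0 - z, e⟫ - (ρ - t) := by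
      rw [h1, inner_sub_left (x - z - (x0 - z)), inner_sub_left (x - z), real_inner_smul_left, hee,
        mul_one]
    have h2 : ⟪x0 - z, e⟫ = t - b := by rw [htdef]; ring
    rw [h3, h2]
    ring
  have hLlow : ∀ x : EE n, ρ - ‖x - a‖ ≤ ⟪x - z, e⟫ + b := by
    intro x
    have h1 : -⟪x - a, e⟫ ≤ ‖x - a‖ * ‖e‖ := by
      rw [← inner_neg_left]
      have := real_inner_le_norm (-(x - a)) e
      rwa [norm_neg] at this
    rw [he, mul_one] at h1
    rw [hLa]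
    linarith
  -- the barrier
  set q : EE n → ℝ := fun x => (‖x - a‖ ^ n)⁻¹ with hq
  set β1 : ℝ := ((ρ / 2) ^ n)⁻¹ - (ρ ^ n)⁻¹ with hβ1
  have hρn : 0 < (ρ ^ n)⁻¹ := by positivity
  have hhalf : ((ρ / 2) ^ n)⁻¹ = (ρ ^ n)⁻¹ * 2 ^ n := by
    rw [div_pow, inv_div]
    field_simp
  have hβ1e : β1 = (ρ ^ n)⁻¹ * (2 ^ n - 1) := by rw [hβ1, hhalf]; ring
  have hβ1p : 0 < β1 := by rw [hβ1e]; exact mul_pos hρn (by linarith)
  have hmβ : 0 ≤ m / β1 := by positivity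
  set D : Set (EE n) := V ∩ {x | ρ / 2 < ‖x - a‖ ∧ ‖x - a‖ < ρ} with hD
  have hnc : Continuous (fun x : EE n => ‖x - a‖) := by fun_prop
  have hDo : IsOpen D := hV.inter ((isOpen_lt continuous_const hnc).inter
    (isOpen_lt hnc continuous_const))
  have hDV : D ⊆ V := inter_subset_left
  have haD : ∀ x ∈ D, x ≠ a := by
    intro x hx hxa
    have h1 := hx.2.1
    rw [hxa, sub_self, norm_zero] at h1
    linarith
  have hqs : SubH q D := subH_of_lap hn hDo (fun x hx => (lap_barrier hn a x (haD x hx)).1)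
    (fun x hx => (lap_barrier hn a x (haD x hx)).2)
  have hφ : SubH (fun x => -w x + (m / β1 * q x + -(m / β1 * (ρ ^ n)⁻¹))) D :=
    (hw.mono hDV).add hn ((hqs.const_mul hn hmβ).add hn (subH_const _ D hn))
  have hbdd : Bornology.IsBounded D := by
    refine (isBounded_ball (x := a) (r := ρ)).subset (fun x hx => ?_)
    rw [mem_ball, dist_eq_norm]
    exact hx.2.2
  -- the barrier is dominated by the linear function inside the annulus
  have hdom : ∀ x ∈ D, m / β1 * q x + -(m / β1 * (ρ ^ n)⁻¹) ≤ κ * (⟪x - z, e⟫ + b) := by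
    intro x hx
    obtain ⟨hs1, hs2⟩ := hx.2
    set s : ℝ := ‖x - a‖ with hs
    have hs0 : 0 < s := by linarith
    have h1 := e3_pow n hs0 (show 0 ≤ ρ - s by linarith)
    rw [show s + (ρ - s) = ρ by ring] at h1
    have h2 : (s ^ n)⁻¹ ≤ (ρ ^ n)⁻¹ * 2 ^ n := by
      rw [← hhalf]
      exact inv_anti₀ (by positivity) (pow_le_pow_left₀ (by positivity) hs1.le n)
    have h3 : (ρ - s) / s ≤ (ρ - s) / (ρ / 2) :=
      div_le_div_of_nonneg_left (by linarith) (by positivity) hs1.le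
    have h4 : (s ^ n)⁻¹ * (n * ((ρ - s) / s)) ≤ (ρ ^ n)⁻¹ * 2 ^ n * (n * ((ρ - s) / (ρ / 2))) := by
      apply mul_le_mul h2 (mul_le_mul_of_nonneg_left h3 (by linarith))
      · have : 0 ≤ (ρ - s) / s := div_nonneg (by linarith) hs0.le
        positivity
      · positivity
    have h5 : (ρ ^ n)⁻¹ * 2 ^ n ≤ 2 * β1 := by
      rw [hβ1e]
      nlinarith
    have h6 : 0 ≤ (n:ℝ) * ((ρ - s) / (ρ / 2)) := by
      have : 0 ≤ (ρ - s) / (ρ / 2) := div_nonneg (by linarith) (by positivity)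
      positivity
    have h7 : q x - (ρ ^ n)⁻¹ ≤ 2 * β1 * (n * ((ρ - s) / (ρ / 2))) :=
      (h1.trans h4).trans (mul_le_mul_of_nonneg_right h5 h6)
    have h8 : m / β1 * (q x - (ρ ^ n)⁻¹) ≤ m / β1 * (2 * β1 * (n * ((ρ - s) / (ρ / 2)))) :=
      mul_le_mul_of_nonneg_left h7 hmβ
    have h9 : m / β1 * (2 * β1 * (n * ((ρ - s) / (ρ / 2)))) = 32 * n * (m / r) * (ρ - s) := by
      rw [hρ]
      field_simp
      ring
    have h10 : 32 * n * (m / r) * (ρ - s) ≤ κ * (ρ - s) :=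
      mul_le_mul_of_nonneg_right hκ (by linarith)
    have hκ0 : 0 ≤ κ := le_trans (by positivity) hκ
    have h11 : κ * (ρ - s) ≤ κ * (⟪x - z, e⟫ + b) := mul_le_mul_of_nonneg_left (hLlow x) hκ0
    linarith
  have hmain := hφ.le_zero hn hDo hbdd (fun ζ hζ => by
    have hζD : ζ ∉ D := fun h => by
      rw [hDo.frontier_eq] at hζ
      exact hζ.2 h
    have hζc : ζ ∈ closure D := frontier_subset_closure hζ
    have hζ1 : ρ / 2 ≤ ‖ζ - a‖ ∧ ‖ζ - a‖ ≤ ρ := by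
      have : closure D ⊆ {x | ρ / 2 ≤ ‖x - a‖ ∧ ‖x - a‖ ≤ ρ} :=
        closure_minimal (fun x hx => ⟨hx.2.1.le, hx.2.2.le⟩)
          ((isClosed_le continuous_const hnc).inter (isClosed_le hnc continuous_const))
      exact this hζc
    have hζa : ζ ≠ a := by
      intro h
      have h1 := hζ1.1
      rw [h, sub_self, norm_zero] at h1
      linarith
    have hqc : ContinuousAt q ζ := (lap_barrier hn a ζ hζa).1.continuousAt
    have hζz : ‖ζ - z‖ ≤ r / 4 + ‖ζ - a‖ := by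
      have h1 : ζ - z = (ζ - a) + (a - z) := by abel
      rw [h1]
      have := norm_add_le (ζ - a) (a - z)
      linarith
    have hcont : ContinuousAt (fun x => m / β1 * q x + -(m / β1 * (ρ ^ n)⁻¹)) ζ :=
      (hqc.const_mul _).add continuousAt_const
    intro η hη
    by_cases hc2 : ‖ζ - a‖ = ρ / 2
    · -- inner sphere
      have hmem : ζ ∈ ball z (3 * r / 4) := by
        rw [mem_ball, dist_eq_norm]
        rw [hc2] at hζz
        have : ρ = r / 8 := hρ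
        linarith
      have hLζ : r / 16 ≤ ⟪ζ - z, e⟫ + b := by
        have := hLlow ζ
        rw [hc2] at this
        have : ρ = r / 8 := hρ
        linarith
      obtain ⟨hζV, hmw⟩ := hup ζ hmem hLζ
      have hwc : ContinuousAt (fun x => -w x) ζ := hw.1.continuousAt (hV.mem_nhds hζV)
      have hval : m / β1 * q ζ + -(m / β1 * (ρ ^ n)⁻¹) = m := by
        have h1 : q ζ = ((ρ / 2) ^ n)⁻¹ := by rw [hq]; simp only [hc2]
        rw [h1]
        have h2 : m / β1 * ((ρ / 2) ^ n)⁻¹ + -(m / β1 * (ρ ^ n)⁻¹) = m / β1 * β1 := by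
          rw [hβ1]; ring
        rw [h2, div_mul_cancel₀ _ hβ1p.ne']
      have hev : ∀ᶠ x in 𝓝 ζ, -w x + (m / β1 * q x + -(m / β1 * (ρ ^ n)⁻¹)) < 0 + η := by
        apply (hwc.add hcont).eventually (gt_mem_nhds _)
        change -w ζ + (m / β1 * q ζ + -(m / β1 * (ρ ^ n)⁻¹)) < 0 + η
        rw [hval]
        linarith
      exact (hev.filter_mono nhdsWithin_le_nhds).mono (fun x hx => hx.le)
    by_cases hc3 : ‖ζ - a‖ = ρ
    · -- outer sphere
      have hval : m / β1 * q ζ + -(m / β1 * (ρ ^ n)⁻¹) = 0 := by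
        have h1 : q ζ = (ρ ^ n)⁻¹ := by rw [hq]; simp only [hc3]
        rw [h1]
        ring
      have hev : ∀ᶠ x in 𝓝 ζ, m / β1 * q x + -(m / β1 * (ρ ^ n)⁻¹) < η := by
        apply hcont.eventually (gt_mem_nhds _)
        change m / β1 * q ζ + -(m / β1 * (ρ ^ n)⁻¹) < η
        rw [hval]
        exact hη
      filter_upwards [hev.filter_mono nhdsWithin_le_nhds, self_mem_nhdsWithin] with x hx hxD
      have := hw0 x (hDV hxD)
      linarith
    -- inside the annulus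
    have hann : ρ / 2 < ‖ζ - a‖ ∧ ‖ζ - a‖ < ρ :=
      ⟨lt_of_le_of_ne hζ1.1 (Ne.symm hc2), lt_of_le_of_ne hζ1.2 hc3⟩
    have hζV : ζ ∉ V := fun h => hζD ⟨h, hann⟩
    have hζF : ζ ∈ frontier V := by
      rw [hV.frontier_eq]
      exact ⟨closure_mono hDV hζc, hζV⟩
    have hζzr : ζ ∈ ball z r := by
      rw [mem_ball, dist_eq_norm]
      have : ρ = r / 8 := hρ
      linarith [hann.2]
    have h1 := hbd ζ ⟨hζF, hζzr⟩ η hη
    filter_upwards [h1.filter_mono (nhdsWithin_mono _ hDV), self_mem_nhdsWithin] with x hx hxD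
    have := hdom x hxD
    linarith)
  -- evaluate at `x0`
  have hx0D : x0 ∈ D := by
    refine ⟨hx0, ?_, ?_⟩
    · rw [hax]; linarith
    · rw [hax]; linarith
  have h1 := hmain x0 hx0D
  have h2 : q x0 = ((ρ - t) ^ n)⁻¹ := by rw [hq]; simp only [hax]
  have h3 := e3_pow' n hρ0 ht.le (by linarith)
  have h4 : m / β1 * ((ρ ^ n)⁻¹ * (n * (t / ρ))) ≤ w x0 := by
    have h5 : m / β1 * ((ρ ^ n)⁻¹ * (n * (t / ρ))) ≤ m / β1 * (((ρ - t) ^ n)⁻¹ - (ρ ^ n)⁻¹) :=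
      mul_le_mul_of_nonneg_left h3 hmβ
    simp only [h2] at h1
    linarith
  refine le_trans ?_ h4
  rw [hβ1e]
  exact e3_num (by linarith) hr hm hρn h2n ht.le hρ

end E3

end Pool.Agent.Lib.MP_47b33c_an
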