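import Pool.Agent.Lib.MP_47b33c_an.Sub
import Pool.Agent.Lib.MP_47b33c_an.Planes
import Pool.Agent.Lib.MP_47b33c_an.BarUp
import Pool.Agent.Lib.MP_47b33c_an.Hopf
import Pool.Agent.Lib.MP_47b33c_an.Carl

set_option autoImplicit false

open MeasureTheory Metric Set Filter Topology InnerProductSpace
open scoped RealInnerProductSpace Laplacian

namespace Pool.Agent.Lib.MP_47b33c_an

variable {n : ℕ}

theorem e9_flat_mono {Ω : Set (EE n)} {z e : EE n} {r θ θ' : ℝ} (hr : 0 < r) (hθ : θ ≤ θ')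
    (h : Flat Ω z r e θ) : Flat Ω z r e θ' := by
  have h1 : θ * r ≤ θ' * r := mul_le_mul_of_nonneg_right hθ hr.le
  exact ⟨h.unit, fun x hx hh => h.inn x hx (lt_of_le_of_lt h1 hh),
    fun x hx hh => lt_of_le_of_lt (neg_le_neg h1) (h.out x hx hh)⟩

theorem e9_notMem_of_frontier {V : Set (EE n)} (hV : IsOpen V) {ζ : EE n} (h : ζ ∈ frontier V) :
    ζ ∉ V := by
  rw [hV.frontier_eq] at h
  exact h.2

theorem e9_abs_b {r θ : ℝ} (hr : 0 < r) (h0 : 0 ≤ θ) (h1 : θ ≤ th0) : θ * r ≤ r / 100 := by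
  have h2 : θ ≤ 1 / 10000 := h1
  have h3 : θ * r ≤ 1 / 10000 * r := mul_le_mul_of_nonneg_right h2 hr.le
  linarith

theorem e9_continuous_lin (z e : EE n) (b : ℝ) : Continuous (fun x : EE n => ⟪x - z, e⟫ + b) := by
  fun_prop

theorem base_prof (hn : 2 ≤ n) : ∃ c C : ℝ, 0 < c ∧ c ≤ 1 ∧ 1 ≤ C ∧ ∀ (Ω : Set (EE n))
    (u : EE n → ℝ) (z e : EE n) (r θ : ℝ), IsOpen Ω → AllFlat Ω th0 → z ∈ frontier Ω → 0 < r →
    0 ≤ θ → θ ≤ th0 → Flat Ω z r e θ → LocPos Ω u z (16 * r) →
    Prof Ω u z r e θ (c * (u (z + (r / 2) • e) / r)) (C * (u (z + (r / 2) • e) / r)) := by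
  obtain ⟨C1, hC1, H1⟩ := carleson hn
  obtain ⟨C2, hC2, H2⟩ := bar_up hn
  obtain ⟨c3, hc3, hc3', H3⟩ := harnack_mid hn
  obtain ⟨c4, C4, hc4, hC4, H4⟩ := hopf_low hn
  refine ⟨min 1 (c4 * c3), C2 * C1, lt_min one_pos (mul_pos hc4 hc3), min_le_left _ _,
    one_le_mul_of_one_le_of_one_le hC2 hC1, ?_⟩
  intro Ω u z e r θ hΩ hA hz hr hθ0 hθ1 hF hu
  have he := hF.unit
  have hsub : ball z r ⊆ ball z (16 * r) := ball_subset_ball (by linarith)
  have hb : θ * r ≤ r / 100 := e9_abs_b hr hθ0 hθ1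
  have hb0 : 0 ≤ θ * r := mul_nonneg hθ0 hr.le
  set N : ℝ := u (z + (r / 2) • e) with hN
  have hN0 : 0 ≤ N := by
    apply hu.nonneg
    rw [mem_ball, dist_eq_norm, add_sub_cancel_left, norm_smul, he, mul_one, Real.norm_eq_abs,
      abs_of_pos (by linarith)]
    linarith
  have hNr : 0 ≤ N / r := div_nonneg hN0 hr.le
  constructor
  · -- lower
    intro x hx hxe
    set V : Set (EE n) := ball z r ∩ {x | 0 < ⟪x - z, e⟫ + -(θ * r)} with hV
    have hVo : IsOpen V := isOpen_ball.inter (isOpen_lt continuous_const (e9_continuous_lin z e _))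
    have hVsub : V ⊆ Ω ∩ ball z (16 * r) := by
      intro y hy
      refine ⟨hF.inn y hy.1 ?_, hsub hy.1⟩
      have := hy.2
      simp only [mem_setOf_eq] at this
      linarith
    have hbabs : |-(θ * r)| ≤ r / 100 := by rw [abs_neg, abs_of_nonneg hb0]; exact hb
    have hharm : HarmonicOnNhd u V := fun y hy => hu.harm y (hVsub hy)
    have hnn : ∀ y ∈ V, 0 ≤ u y := fun y hy => hu.nonneg y (hVsub hy).2
    have h3 := H3 V z e r (-(θ * r)) u hVo hr he hbabs
      (fun y hy hh => ⟨hy, by simp only [mem_setOf_eq]; linarith⟩) hharm hnn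
    have hneg : SubH (fun x => -u x) V := by
      apply harmonic_subH hn
      intro y hy
      exact (hharm y hy).neg
    have h4 := H4 V z e r (-(θ * r)) (c3 * N) (C4 * ((c3 * N) / r)) u hVo hr he hbabs
      (mul_nonneg hc3.le hN0) inter_subset_left (fun y hy => hy.2) hneg hnn
      (fun y hy hh => ⟨⟨?_, by simp only [mem_setOf_eq]; linarith⟩, h3 y hy hh⟩) le_rfl ?_ x
      ⟨?_, by simp only [mem_setOf_eq]; linarith⟩ hx
    · have hL : 0 ≤ ⟪x - z, e⟫ - θ * r := by linarith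
      have e1 : c4 * ((c3 * N) / r) * (⟪x - z, e⟫ + -(θ * r))
          = (c4 * c3) * ((N / r) * (⟪x - z, e⟫ - θ * r)) := by ring
      rw [e1] at h4
      have e2 : min 1 (c4 * c3) * (N / r) * (⟪x - z, e⟫ - θ * r)
          = min 1 (c4 * c3) * ((N / r) * (⟪x - z, e⟫ - θ * r)) := by ring
      rw [e2]
      exact le_trans (mul_le_mul_of_nonneg_right (min_le_right _ _) (mul_nonneg hNr hL)) h4
    · exact ball_subset_ball (by linarith) hy
    · intro ζ hζ η hη
      have hζV : ζ ∉ V := e9_notMem_of_frontier hVo hζ.1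
      have hL : ⟪ζ - z, e⟫ + -(θ * r) ≤ 0 := by
        by_contra hc
        push Not at hc
        exact hζV ⟨hζ.2, hc⟩
      have hκ : 0 ≤ C4 * ((c3 * N) / r) :=
        mul_nonneg (by linarith) (div_nonneg (mul_nonneg hc3.le hN0) hr.le)
      have hcont : Continuous (fun x : EE n => C4 * ((c3 * N) / r) * (⟪x - z, e⟫ + -(θ * r))) :=
        continuous_const.mul (e9_continuous_lin z e _)
      have hlt : C4 * ((c3 * N) / r) * (⟪ζ - z, e⟫ + -(θ * r)) < 0 + η := by
        have := mul_nonpos_of_nonneg_of_nonpos hκ hL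
        linarith
      have hev := (hcont.continuousAt (x := ζ)).eventually_lt_const hlt
      filter_upwards [mem_nhdsWithin_of_mem_nhds hev, self_mem_nhdsWithin] with y hy hyV
      have := hnn y hyV
      linarith
    · exact ball_subset_ball (by linarith) hx
  · -- upper
    intro x hx hxΩ
    set V : Set (EE n) := Ω ∩ ball z r with hV
    have hVo : IsOpen V := hΩ.inter isOpen_ball
    have hharm : HarmonicOnNhd u V := fun y hy => hu.harm y ⟨hy.1, hsub hy.2⟩
    have hF' : Flat Ω z r e th0 := e9_flat_mono hr hθ1 hF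
    have hcar := H1 Ω u z e r hΩ hA hz hr hF' hu
    have h2 := H2 V z e r (θ * r) (C1 * N) u hVo hr he (by rw [abs_of_nonneg hb0]; exact hb)
      (mul_nonneg (by linarith) hN0) inter_subset_right
      (fun y hy => by have := hF.out y hy.2 hy.1; linarith) (harmonic_subH hn hharm)
      (fun y hy => hcar y hy.2) ?_ x ⟨hxΩ, ball_subset_ball (by linarith) hx⟩
      (ball_subset_ball (by linarith) hx)
    · have e1 : C2 * ((C1 * N) / r) * (⟪x - z, e⟫ + θ * r)
          = C2 * C1 * (N / r) * (⟪x - z, e⟫ + θ * r) := by ring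
      rw [e1] at h2
      exact h2
    · intro ζ hζ η hη
      have hζV : ζ ∉ V := e9_notMem_of_frontier hVo hζ.1
      have hζΩ : ζ ∉ Ω := fun hh => hζV ⟨hh, hζ.2⟩
      have hu0 : u ζ = 0 := hu.zero ζ (hsub hζ.2) hζΩ
      have hca : ContinuousAt u ζ := hu.cont.continuousAt (isOpen_ball.mem_nhds (hsub hζ.2))
      have hev := hca.eventually_lt_const (show u ζ < 0 + η by rw [hu0]; linarith)
      filter_upwards [mem_nhdsWithin_of_mem_nhds hev] with y hy
      exact hy.le

end Pool.Agent.Lib.MP_47b33c_an
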