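import Pool.Agent.Lib.MP_47b33c_an.Defs

set_option autoImplicit false

open MeasureTheory Metric Set Filter Topology InnerProductSpace
open scoped RealInnerProductSpace Laplacian

namespace Pool.Agent.Lib.MP_47b33c_an

variable {n : ℕ}

theorem f1_inducing (n : ℕ) : IsInducing (fun H : Hyp n => H.1.starProjection) := ⟨rfl⟩

theorem f1_span {v : EE n} {H : Submodule ℝ (EE n)}
    (hH : (H : Set (EE n)) = {x | ⟪x, v⟫ = 0}) : H = (ℝ ∙ v)ᗮ := by
  ext x
  rw [Submodule.mem_orthogonal_singleton_iff_inner_left]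
  have : x ∈ (H : Set (EE n)) ↔ ⟪x, v⟫ = 0 := by rw [hH]; exact Iff.rfl
  exact this

theorem f1_proj {v : EE n} (hv : ‖v‖ = 1) {H : Submodule ℝ (EE n)}
    (hH : (H : Set (EE n)) = {x | ⟪x, v⟫ = 0}) (x : EE n) :
    H.starProjection x = x - ⟪v, x⟫ • v := by
  have h1 := f1_span hH
  subst h1
  rw [Submodule.starProjection_orthogonal_val, Submodule.starProjection_unit_singleton ℝ hv]

theorem normal_exists (H : Hyp n) : ∃ v : EE n, ‖v‖ = 1 ∧ (H.1 : Set (EE n)) = {x | ⟪x, v⟫ = 0} := by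
  have h1 : Module.finrank ℝ H.1ᗮ = 1 := by
    apply Submodule.finrank_add_finrank_orthogonal'
    rw [finrank_euclideanSpace_fin]
    exact H.2
  obtain ⟨w, hw, hspan⟩ := finrank_eq_one_iff'.1 h1
  have hw' : (w : EE n) ≠ 0 := by
    intro h
    exact hw (Subtype.ext h)
  have hn0 : ‖(w : EE n)‖ ≠ 0 := norm_ne_zero_iff.2 hw'
  refine ⟨‖(w : EE n)‖⁻¹ • (w : EE n), ?_, ?_⟩
  · rw [norm_smul, norm_inv, norm_norm, inv_mul_cancel₀ hn0]
  · ext x
    constructor
    · intro hx
      change ⟪x, ‖(w : EE n)‖⁻¹ • (w : EE n)⟫ = 0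
      rw [inner_smul_right, (Submodule.mem_orthogonal _ _).1 w.2 x hx, mul_zero]
    · intro hx
      change ⟪x, ‖(w : EE n)‖⁻¹ • (w : EE n)⟫ = 0 at hx
      rw [inner_smul_right] at hx
      have hx' : ⟪x, (w : EE n)⟫ = 0 := by
        rcases mul_eq_zero.1 hx with h | h
        · exact absurd h (inv_ne_zero hn0)
        · exact h
      have : x ∈ H.1ᗮᗮ := by
        rw [Submodule.mem_orthogonal]
        intro u hu
        obtain ⟨c, hc⟩ := hspan ⟨u, hu⟩
        have hc' : c • (w : EE n) = u := congrArg Subtype.val hc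
        rw [← hc', inner_smul_left, real_inner_comm, hx', mul_zero]
      rwa [Submodule.orthogonal_orthogonal] at this

theorem hyp_of_normal (v : EE n) (hv : ‖v‖ = 1) : ∃ H : Hyp n, (H.1 : Set (EE n)) =
    {x | ⟪x, v⟫ = 0} := by
  have hv0 : v ≠ 0 := by
    intro h
    rw [h, norm_zero] at hv
    exact zero_ne_one hv
  have h1 := Submodule.finrank_add_finrank_orthogonal (ℝ ∙ v)
  rw [finrank_span_singleton hv0, finrank_euclideanSpace_fin] at h1
  refine ⟨⟨(ℝ ∙ v)ᗮ, by omega⟩, ?_⟩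
  ext x
  exact Submodule.mem_orthogonal_singleton_iff_inner_left

/-- the projection onto the orthogonal complement of `v` as a continuous function of `v` -/
noncomputable def f1P (v : EE n) : EE n →L[ℝ] EE n :=
  ContinuousLinearMap.id ℝ (EE n) - (innerSL ℝ v).smulRight v

theorem f1P_apply (v x : EE n) : f1P v x = x - ⟪v, x⟫ • v := by
  simp [f1P]

theorem f1P_continuous : Continuous (f1P : EE n → (EE n →L[ℝ] EE n)) := by
  unfold f1P
  apply Continuous.sub continuous_const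
  have h := (ContinuousLinearMap.smulRightL ℝ (EE n) (EE n)).continuous₂
  exact h.comp ((innerSL ℝ).continuous.prodMk continuous_id)

theorem f1P_eq {v : EE n} (hv : ‖v‖ = 1) {H : Hyp n}
    (hH : (H.1 : Set (EE n)) = {x | ⟪x, v⟫ = 0}) : H.1.starProjection = f1P v := by
  ext x : 1
  rw [f1_proj hv hH, f1P_apply]

/-- limits of normals of hyperplanes in a compact set are normals of such hyperplanes -/
theorem normals_closed {C : Set (Hyp n)} (hC : IsCompact C) {v : ℕ → EE n} {w : EE n}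
    (hv : ∀ j, ‖v j‖ = 1) (h : ∀ j, ∃ H ∈ C, (H.1 : Set (EE n)) = {x | ⟪x, v j⟫ = 0})
    (hw : Tendsto v atTop (𝓝 w)) : ∃ H ∈ C, (H.1 : Set (EE n)) = {x | ⟪x, w⟫ = 0} := by
  have hw1 : ‖w‖ = 1 := by
    have h1 : Tendsto (fun j => ‖v j‖) atTop (𝓝 ‖w‖) := hw.norm
    have h2 : (fun j => ‖v j‖) = fun _ => 1 := funext hv
    rw [h2] at h1
    exact tendsto_nhds_unique h1 tendsto_const_nhds |>.symm ▸ rfl
  have himg : IsClosed ((fun H : Hyp n => H.1.starProjection) '' C) :=
    (hC.image (f1_inducing n).continuous).isClosed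
  have hlim : Tendsto (fun j => f1P (v j)) atTop (𝓝 (f1P w)) :=
    (f1P_continuous.tendsto w).comp hw
  have hmem : f1P w ∈ (fun H : Hyp n => H.1.starProjection) '' C := by
    apply himg.mem_of_tendsto hlim
    refine Eventually.of_forall fun j => ?_
    obtain ⟨H, hH, hHv⟩ := h j
    exact ⟨H, hH, f1P_eq (hv j) hHv⟩
  obtain ⟨H, hH, hHw⟩ := hmem
  refine ⟨H, hH, ?_⟩
  ext x
  have h1 : H.1.starProjection x = x - ⟪w, x⟫ • w := by
    have : H.1.starProjection = f1P w := hHw
    rw [this, f1P_apply]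
  have hw0 : w ≠ 0 := by
    intro h0
    rw [h0, norm_zero] at hw1
    exact zero_ne_one hw1
  change x ∈ H.1 ↔ ⟪x, w⟫ = 0
  rw [← Submodule.starProjection_eq_self_iff, h1, sub_eq_self, smul_eq_zero, real_inner_comm]
  simp [hw0]

/-- normals of nearby hyperplanes can be chosen close -/
theorem normals_close (H : Hyp n) (η : ℝ) (hη : 0 < η) : ∃ U : Set (Hyp n), IsOpen U ∧ H ∈ U ∧
    ∀ H' ∈ U, ∀ v' : EE n, ‖v'‖ = 1 → (H'.1 : Set (EE n)) = {x | ⟪x, v'⟫ = 0} →
      ∃ v : EE n, ‖v‖ = 1 ∧ (H.1 : Set (EE n)) = {x | ⟪x, v⟫ = 0} ∧ ‖v' - v‖ ≤ η := by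
  obtain ⟨v0, hv0, hH⟩ := normal_exists H
  refine ⟨{H' | ‖H'.1.starProjection - H.1.starProjection‖ < η / 2}, ?_, ?_, ?_⟩
  · have hc : Continuous (fun H' : Hyp n => ‖H'.1.starProjection - H.1.starProjection‖) :=
      ((f1_inducing n).continuous.sub continuous_const).norm
    exact isOpen_lt hc continuous_const
  · change ‖H.1.starProjection - H.1.starProjection‖ < η / 2
    rw [sub_self, norm_zero]
    linarith
  · intro H' hH' v' hv' hHv'
    change ‖H'.1.starProjection - H.1.starProjection‖ < η / 2 at hH'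
    set t : ℝ := ⟪v0, v'⟫ with ht
    have e1 : (H'.1.starProjection - H.1.starProjection) v' = -(v' - t • v0) := by
      change H'.1.starProjection v' - H.1.starProjection v' = _
      rw [f1_proj hv' hHv', f1_proj hv0 hH, real_inner_self_eq_norm_sq, hv']
      simp [ht]
    have e2 : ‖v' - t • v0‖ ≤ η / 2 := by
      have h1 := (H'.1.starProjection - H.1.starProjection).le_opNorm v'
      rw [e1, norm_neg, hv', mul_one] at h1
      exact h1.trans hH'.le
    have e3 : ‖v' - t • v0‖ ^ 2 = 1 - t ^ 2 := by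
      rw [norm_sub_sq_real, norm_smul, hv', hv0, inner_smul_right, real_inner_comm, ← ht,
        Real.norm_eq_abs, mul_one, sq_abs]
      ring
    have ht1 : |t| ≤ 1 := by
      have := abs_real_inner_le_norm v0 v'
      rwa [hv0, hv', mul_one] at this
    have e4 : 1 - t ^ 2 ≤ (η / 2) ^ 2 := by
      rw [← e3]
      exact pow_le_pow_left₀ (norm_nonneg _) e2 2
    have hsq : t ^ 2 = |t| ^ 2 := (sq_abs t).symm
    have habs0 := abs_nonneg t
    obtain ⟨s, hs, hst⟩ : ∃ s : ℝ, (s = 1 ∨ s = -1) ∧ s * t = |t| := by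
      rcases le_total 0 t with h | h
      · exact ⟨1, Or.inl rfl, by rw [abs_of_nonneg h, one_mul]⟩
      · exact ⟨-1, Or.inr rfl, by rw [abs_of_nonpos h]; ring⟩
    have hs2 : s ^ 2 = 1 := by rcases hs with h | h <;> rw [h] <;> norm_num
    have hsabs : |s| = 1 := by rcases hs with h | h <;> rw [h] <;> norm_num
    have hs0 : s ≠ 0 := by
      intro h
      rw [h, abs_zero] at hsabs
      exact zero_ne_one hsabs
    refine ⟨s • v0, ?_, ?_, ?_⟩
    · rw [norm_smul, Real.norm_eq_abs, hsabs, hv0, mul_one]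
    · rw [hH]
      ext x
      change ⟪x, v0⟫ = 0 ↔ ⟪x, s • v0⟫ = 0
      rw [inner_smul_right, mul_eq_zero]
      simp [hs0]
    · have e5 : ‖v' - s • v0‖ ^ 2 = 2 - 2 * |t| := by
        rw [norm_sub_sq_real, norm_smul, hv', hv0, inner_smul_right, real_inner_comm, ← ht,
          Real.norm_eq_abs, hst, hsabs]
        ring
      have e6 : ‖v' - s • v0‖ ^ 2 ≤ η ^ 2 := by
        rw [e5]
        nlinarith
      exact (pow_le_pow_iff_left₀ (norm_nonneg _) hη.le two_ne_zero).1 e6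

/-- a countable dense subset -/
theorem exists_dense_seq {C : Set (Hyp n)} (hC : IsCompact C) (hne : C.Nonempty) :
    ∃ H : ℕ → Hyp n, (∀ i, H i ∈ C) ∧ ∀ H' ∈ C, ∀ U : Set (Hyp n), IsOpen U → H' ∈ U →
      ∃ i, H i ∈ U := by
  have : SecondCountableTopology (Hyp n) := (f1_inducing n).secondCountableTopology
  have : Nonempty C := hne.to_subtype
  obtain ⟨s, hs⟩ := TopologicalSpace.exists_dense_seq C
  refine ⟨fun i => (s i : Hyp n), fun i => (s i).2, fun H' hH' U hU hHU => ?_⟩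
  obtain ⟨i, hi⟩ := hs.exists_mem_open (hU.preimage continuous_subtype_val) ⟨⟨H', hH'⟩, hHU⟩
  exact ⟨i, hi⟩

end Pool.Agent.Lib.MP_47b33c_an
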