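import Pool.Agent.Lib.MP_47b33c_an.Defs
import Pool.Agent.Lib.MP_47b33c_an.Normals

/-!
# Finite chains of normals
-/

set_option autoImplicit false

open MeasureTheory Metric Set Filter Topology InnerProductSpace
open scoped RealInnerProductSpace Laplacian

namespace Pool.Agent.Lib.MP_47b33c_an

variable {n : ℕ}

/-- the unit normal of a hyperplane is unique up to the sign -/
theorem f2_sign {v w : EE n} (hv : ‖v‖ = 1) (hw : ‖w‖ = 1)
    (h : {x : EE n | ⟪x, v⟫ = 0} = {x | ⟪x, w⟫ = 0}) : w = v ∨ w = -v := by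
  have hvv : ⟪v, v⟫ = (1 : ℝ) := by
    rw [real_inner_self_eq_norm_sq, hv]
    norm_num
  set c : ℝ := ⟪w, v⟫ with hc
  have h1 : w - c • v ∈ {x : EE n | ⟪x, v⟫ = 0} := by
    show ⟪w - c • v, v⟫ = 0
    rw [inner_sub_left, real_inner_smul_left, hvv, mul_one, ← hc, sub_self]
  have h2 : w - c • v ∈ {x : EE n | ⟪x, w⟫ = 0} := h ▸ h1
  have h1' : ⟪w - c • v, v⟫ = 0 := h1
  have h2' : ⟪w - c • v, w⟫ = 0 := h2
  have h3 : ⟪w - c • v, w - c • v⟫ = 0 := by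
    rw [inner_sub_right, real_inner_smul_right, h1', h2']
    ring
  have h4 : w = c • v := by
    rw [inner_self_eq_zero, sub_eq_zero] at h3
    exact h3
  have h5 : |c| = 1 := by
    have := congrArg norm h4
    rw [norm_smul, hv, hw, mul_one, Real.norm_eq_abs] at this
    exact this.symm
  rcases (abs_eq zero_le_one).1 h5 with h6 | h6
  · left
    rw [h4, h6, one_smul]
  · right
    rw [h4, h6, neg_one_smul]

/-- the unit normals of the hyperplanes in `C` -/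
def f2_N (C : Set (Hyp n)) : Set (EE n) :=
  {w | ‖w‖ = 1 ∧ ∃ H ∈ C, (H.1 : Set (EE n)) = {x | ⟪x, w⟫ = 0}}

/-- reachable unit normals -/
def f2_reach (C : Set (Hyp n)) (δ : ℝ) (v w : EE n) : Prop :=
  ∃ (m : ℕ) (q : ℕ → EE n), q 0 = v ∧ (∀ i, q i ∈ f2_N C) ∧ (∀ i, ‖q (i + 1) - q i‖ ≤ δ) ∧
    q m = w

theorem f2_reach_refl {C : Set (Hyp n)} {δ : ℝ} (hδ : 0 < δ) {v : EE n} (hv : v ∈ f2_N C) :
    f2_reach C δ v v :=
  ⟨0, fun _ => v, rfl, fun _ => hv, fun _ => by rw [sub_self, norm_zero]; exact hδ.le, rfl⟩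

theorem f2_reach_step {C : Set (Hyp n)} {δ : ℝ} (hδ : 0 < δ) {v w w' : EE n}
    (h : f2_reach C δ v w) (hw' : w' ∈ f2_N C) (hd : ‖w' - w‖ ≤ δ) : f2_reach C δ v w' := by
  obtain ⟨m, q, h0, hN, hs, hm⟩ := h
  refine ⟨m + 1, fun i => if i ≤ m then q i else w', ?_, ?_, ?_, ?_⟩
  · simp only [zero_le, if_true]
    exact h0
  · intro i
    by_cases hi : i ≤ m
    · simp only [hi, if_true]
      exact hN i
    · simp only [hi, if_false]
      exact hw'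
  · intro i
    rcases lt_trichotomy i m with hi | hi | hi
    · have h1 : i + 1 ≤ m := hi
      have h2 : i ≤ m := hi.le
      simp only [h1, h2, if_true]
      exact hs i
    · subst hi
      have h1 : ¬ i + 1 ≤ i := by omega
      simp only [h1, le_refl, if_true, if_false]
      rw [hm]
      exact hd
    · have h1 : ¬ i + 1 ≤ m := by omega
      have h2 : ¬ i ≤ m := by omega
      simp only [h1, h2, if_false, sub_self, norm_zero]
      exact hδ.le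
  · have h1 : ¬ m + 1 ≤ m := by omega
    simp only [h1, if_false]

theorem chain_finite {C : Set (Hyp n)} (hC' : IsConnected C) {δ : ℝ} (hδ : 0 < δ) {v : EE n}
    (hv : ‖v‖ = 1) (hvC : ∃ H ∈ C, (H.1 : Set (EE n)) = {x | ⟪x, v⟫ = 0}) {H : Hyp n}
    (hH : H ∈ C) : ∃ (m : ℕ) (q : ℕ → EE n), q 0 = v ∧ (∀ i, ‖q i‖ = 1) ∧
      (∀ i, ∃ H ∈ C, (H.1 : Set (EE n)) = {x | ⟪x, q i⟫ = 0}) ∧
      (∀ i, ‖q (i + 1) - q i‖ ≤ δ) ∧ (H.1 : Set (EE n)) = {x | ⟪x, q m⟫ = 0} := by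
  set A : Set (Hyp n) := {H | H ∈ C ∧ ∃ w : EE n, ‖w‖ = 1 ∧
    (H.1 : Set (EE n)) = {x | ⟪x, w⟫ = 0} ∧ f2_reach C δ v w} with hA
  choose U hUo hUm hU using fun H : Hyp n => normals_close H (δ / 2) (by positivity)
  -- from a neighbour to the centre
  have hcen : ∀ H1 ∈ C, ∀ H' ∈ U H1, H' ∈ A → H1 ∈ A := by
    rintro H1 hH1 H' hH' ⟨-, w, hw, hwH, hre⟩
    obtain ⟨w1, hw1, hw1H, hd⟩ := hU H1 H' hH' w hw hwH
    refine ⟨hH1, w1, hw1, hw1H, f2_reach_step hδ hre ⟨hw1, H1, hH1, hw1H⟩ ?_⟩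
    rw [norm_sub_rev]
    linarith
  -- from the centre to a neighbour
  have hnei : ∀ H1 ∈ A, ∀ H' ∈ U H1, H' ∈ C → H' ∈ A := by
    rintro H1 ⟨hH1, w, hw, hwH, hre⟩ H' hH' hH'C
    obtain ⟨w', hw', hw'H⟩ := normal_exists H'
    obtain ⟨w1, hw1, hw1H, hd⟩ := hU H1 H' hH' w' hw' hw'H
    rcases f2_sign hw hw1 (hwH.symm.trans hw1H) with h1 | h1
    · refine ⟨hH'C, w', hw', hw'H, f2_reach_step hδ hre ⟨hw', H', hH'C, hw'H⟩ ?_⟩
      rw [← h1]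
      linarith
    · have e1 : {x : EE n | ⟪x, w'⟫ = 0} = {x | ⟪x, -w'⟫ = 0} := by
        ext x
        simp only [mem_ofPred_eq, inner_neg_right, neg_eq_zero]
      refine ⟨hH'C, -w', by rwa [norm_neg], hw'H.trans e1, f2_reach_step hδ hre
        ⟨by rwa [norm_neg], H', hH'C, hw'H.trans e1⟩ ?_⟩
      rw [h1] at hd
      have e2 : -w' - w = -(w' - -w) := by abel
      rw [e2, norm_neg]
      linarith
  have hall : H ∈ A := by
    by_contra hHA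
    have h1 : IsOpen (⋃ H1 ∈ A, U H1) := isOpen_biUnion fun H1 _ => hUo H1
    have h2 : IsOpen (⋃ H1 ∈ C \ A, U H1) := isOpen_biUnion fun H1 _ => hUo H1
    have h3 : C ⊆ (⋃ H1 ∈ A, U H1) ∪ ⋃ H1 ∈ C \ A, U H1 := by
      intro H1 hH1
      by_cases h : H1 ∈ A
      · exact Or.inl (mem_biUnion h (hUm H1))
      · exact Or.inr (mem_biUnion (⟨hH1, h⟩ : H1 ∈ C \ A) (hUm H1))
    obtain ⟨H0, hH0, hH0v⟩ := hvC
    have hH0A : H0 ∈ A := ⟨hH0, v, hv, hH0v, f2_reach_refl hδ ⟨hv, H0, hH0, hH0v⟩⟩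
    obtain ⟨H', hH'C, hH'1, hH'2⟩ := hC'.isPreconnected _ _ h1 h2 h3
      ⟨H0, hH0, mem_biUnion hH0A (hUm H0)⟩
      ⟨H, hH, mem_biUnion (⟨hH, hHA⟩ : H ∈ C \ A) (hUm H)⟩
    rw [mem_iUnion₂] at hH'1 hH'2
    obtain ⟨H1, hH1, hH'1⟩ := hH'1
    obtain ⟨H2, hH2, hH'2⟩ := hH'2
    exact hH2.2 (hcen H2 hH2.1 H' hH'2 (hnei H1 hH1 H' hH'1 hH'C))
  obtain ⟨-, w, hw, hwH, m, q, h0, hN, hs, hm⟩ := hall
  refine ⟨m, q, h0, fun i => (hN i).1, fun i => (hN i).2, hs, ?_⟩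
  rw [hm]
  exact hwH

end Pool.Agent.Lib.MP_47b33c_an
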