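import Pool.Agent.Lib.MP_47b33c_an.Defs

/-!
# Concatenation of chains
-/

set_option autoImplicit false

open MeasureTheory Metric Set Filter Topology InnerProductSpace
open scoped RealInnerProductSpace Laplacian

namespace Pool.Agent.Lib.MP_47b33c_an

variable {n : ℕ}

/-- concatenation of chains -/
theorem exists_concat {S : Set (EE n)} {T : ℕ → Set (EE n)} (hne : S.Nonempty)
    (h : ∀ δ : ℝ, 0 < δ → ∀ v ∈ S, ∀ i, ∃ (m : ℕ) (q : ℕ → EE n), q 0 = v ∧ (∀ j, q j ∈ S) ∧
      (∀ j, ‖q (j + 1) - q j‖ ≤ δ) ∧ q m ∈ T i) {δs : ℝ} (hδs : 0 < δs) :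
    ∃ (p : ℕ → EE n) (δ : ℕ → ℝ), (∀ j, p j ∈ S) ∧ (∀ j, ‖p (j + 1) - p j‖ ≤ δ j) ∧
      Antitone δ ∧ (∀ j, 0 < δ j) ∧ (∀ j, δ j ≤ δs) ∧ Tendsto δ atTop (𝓝 0) ∧
      ∀ i N : ℕ, ∃ j, N ≤ j ∧ p j ∈ T i := by
  classical
  obtain ⟨v₀, hv₀⟩ := hne
  have h' : ∀ (k : ℕ) (v : S), ∃ (m : ℕ) (q : ℕ → EE n), q 0 = v ∧ (∀ j, q j ∈ S) ∧
      (∀ j, ‖q (j + 1) - q j‖ ≤ δs / (k + 1)) ∧ q m ∈ T (Nat.unpair k).1 := fun k v =>
    h _ (by positivity) v v.2 _
  choose m q hq0 hqS hqd hqT using h'
  let next : ℕ × S × ℕ → ℕ × S × ℕ := fun s =>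
    if s.2.2 < m s.1 s.2.1 then (s.1, s.2.1, s.2.2 + 1)
    else (s.1 + 1, ⟨q s.1 s.2.1 (m s.1 s.2.1), hqS _ _ _⟩, 0)
  let st : ℕ → ℕ × S × ℕ := fun t => next^[t] (0, ⟨v₀, hv₀⟩, 0)
  have hst : ∀ t, st (t + 1) = next (st t) := fun t => Function.iterate_succ_apply' _ _ _
  have hinv : ∀ t, (st t).2.2 ≤ m (st t).1 (st t).2.1 := by
    intro t
    induction t with
    | zero => exact Nat.zero_le _
    | succ t ih =>
      rw [hst]
      by_cases hc : (st t).2.2 < m (st t).1 (st t).2.1
      · simp only [next, hc, if_true]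
        exact hc
      · simp only [next, hc, if_false]
        exact Nat.zero_le _
  have hstage : ∀ t, (st t).1 ≤ (st (t + 1)).1 ∧ (st (t + 1)).1 ≤ (st t).1 + 1 := by
    intro t
    rw [hst]
    by_cases hc : (st t).2.2 < m (st t).1 (st t).2.1
    · simp only [next, hc, if_true]
      omega
    · simp only [next, hc, if_false]
      omega
  have hmono : Monotone (fun t => (st t).1) := monotone_nat_of_le_succ fun t => (hstage t).1
  have hle : ∀ t, (st t).1 ≤ t := by
    intro t
    induction t with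
    | zero => exact le_rfl
    | succ t ih => exact (hstage t).2.trans (by omega)
  let p : ℕ → EE n := fun t => q (st t).1 (st t).2.1 (st t).2.2
  have hrun : ∀ (k : ℕ) (v : S) (t : ℕ), st t = (k, v, 0) → ∀ j ≤ m k v, st (t + j) = (k, v, j) := by
    intro k v t ht j
    induction j with
    | zero => intro _; simpa using ht
    | succ j ih =>
      intro hj
      have h1 := ih (by omega)
      rw [show t + (j + 1) = (t + j) + 1 by ring, hst, h1]
      have hc : j < m k v := by omega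
      simp only [next, hc, if_true]
  have hreach : ∀ k : ℕ, ∃ (t : ℕ) (v : S), st t = (k, v, 0) := by
    intro k
    induction k with
    | zero => exact ⟨0, ⟨v₀, hv₀⟩, rfl⟩
    | succ k ih =>
      obtain ⟨t, v, ht⟩ := ih
      have h1 := hrun k v t ht (m k v) le_rfl
      refine ⟨t + m k v + 1, ⟨q k v (m k v), hqS _ _ _⟩, ?_⟩
      rw [hst, h1]
      simp only [next, lt_irrefl, if_false]
  have htend : Tendsto (fun t => (st t).1) atTop atTop := by
    apply tendsto_atTop_atTop_of_monotone hmono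
    intro k
    obtain ⟨t, v, ht⟩ := hreach k
    exact ⟨t, by rw [ht]⟩
  refine ⟨p, fun t => δs / ((st t).1 + 1), fun t => hqS _ _ _, ?_, ?_, ?_, ?_, ?_, ?_⟩
  · intro t
    by_cases hc : (st t).2.2 < m (st t).1 (st t).2.1
    · have h1 : st (t + 1) = ((st t).1, (st t).2.1, (st t).2.2 + 1) := by
        rw [hst]; simp only [next, hc, if_true]
      simp only [p, h1]
      exact hqd _ _ _
    · have h1 : st (t + 1) = ((st t).1 + 1,
          ⟨q (st t).1 (st t).2.1 (m (st t).1 (st t).2.1), hqS _ _ _⟩, 0) := by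
        rw [hst]; simp only [next, hc, if_false]
      have h2 : (st t).2.2 = m (st t).1 (st t).2.1 := le_antisymm (hinv t) (not_lt.mp hc)
      simp only [p, h1]
      rw [hq0, h2]
      simp only [sub_self, norm_zero]
      positivity
  · intro s t hst'
    have h1 : ((st s).1 : ℝ) ≤ (st t).1 := by exact_mod_cast hmono hst'
    exact div_le_div_of_nonneg_left hδs.le (by positivity) (by linarith)
  · intro t
    positivity
  · intro t
    exact div_le_self hδs.le (by have : (0 : ℝ) ≤ (st t).1 := Nat.cast_nonneg _; linarith)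
  · have h1 : Tendsto (fun k : ℕ => δs / ((k : ℝ) + 1)) atTop (𝓝 0) := by
      apply Tendsto.div_atTop tendsto_const_nhds
      exact tendsto_atTop_add_const_right _ _ tendsto_natCast_atTop_atTop
    exact h1.comp htend
  · intro i N
    obtain ⟨t, v, ht⟩ := hreach (Nat.pair i N)
    have h1 := hrun _ v t ht _ le_rfl
    refine ⟨t + m (Nat.pair i N) v, ?_, ?_⟩
    · have h2 := hle t
      rw [ht] at h2
      have h3 := Nat.right_le_pair i N
      simp only at h2
      omega
    · simp only [p, h1]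
      have := hqT (Nat.pair i N) v
      rwa [Nat.unpair_pair] at this

end Pool.Agent.Lib.MP_47b33c_an
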