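import Pool.Agent.Lib.MP_47b33c_an.Defs
import Pool.Agent.Lib.MP_47b33c_an.Normals
import Pool.Agent.Lib.MP_47b33c_an.ChainFin
import Pool.Agent.Lib.MP_47b33c_an.Concat

/-!
# The infinite chain of normals
-/

set_option autoImplicit false

open MeasureTheory Metric Set Filter Topology InnerProductSpace
open scoped RealInnerProductSpace Laplacian

namespace Pool.Agent.Lib.MP_47b33c_an

variable {n : ℕ}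

theorem exists_chain {C : Set (Hyp n)} (hC : IsCompact C) (hC' : IsConnected C) (δs : ℝ)
    (hδs : 0 < δs) : ∃ (p : ℕ → EE n) (δ : ℕ → ℝ), (∀ j, ‖p j‖ = 1) ∧
      (∀ j, ‖p (j + 1) - p j‖ ≤ δ j) ∧ Antitone δ ∧ (∀ j, 0 < δ j) ∧ (∀ j, δ j ≤ δs) ∧
      Tendsto δ atTop (𝓝 0) ∧ (∀ j, ∃ H ∈ C, (H.1 : Set (EE n)) = {x | ⟪x, p j⟫ = 0}) ∧
      ∀ H ∈ C, ∀ η : ℝ, 0 < η → ∀ N : ℕ, ∃ j, N ≤ j ∧ ∃ v : EE n, ‖v‖ = 1 ∧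
        (H.1 : Set (EE n)) = {x | ⟪x, v⟫ = 0} ∧ ‖p j - v‖ ≤ η := by
  obtain ⟨Hs, hHs, hdense⟩ := exists_dense_seq hC hC'.nonempty
  obtain ⟨H0, hH0⟩ := hC'.nonempty
  obtain ⟨v0, hv0, hv0H⟩ := normal_exists H0
  obtain ⟨p, δ, h1, h2, h3, h4, h5, h6, h7⟩ := exists_concat
    (S := {w : EE n | ‖w‖ = 1 ∧ ∃ H ∈ C, (H.1 : Set (EE n)) = {x | ⟪x, w⟫ = 0}})
    (T := fun i => {w : EE n | ((Hs i).1 : Set (EE n)) = {x | ⟪x, w⟫ = 0}})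
    ⟨v0, hv0, H0, hH0, hv0H⟩ (fun δ hδ v hv i => by
      obtain ⟨m, q, hq0, hq1, hq2, hq3, hq4⟩ := chain_finite hC' hδ hv.1 hv.2 (hHs i)
      exact ⟨m, q, hq0, fun j => ⟨hq1 j, hq2 j⟩, hq3, hq4⟩) hδs
  refine ⟨p, δ, fun j => (h1 j).1, h2, h3, h4, h5, h6, fun j => (h1 j).2, ?_⟩
  intro H hH η hη N
  obtain ⟨U, hUo, hUm, hU⟩ := normals_close H η hη
  obtain ⟨i, hi⟩ := hdense H hH U hUo hUm
  obtain ⟨j, hj, hjT⟩ := h7 i N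
  obtain ⟨v, hv, hvH, hd⟩ := hU (Hs i) hi (p j) (h1 j).1 hjT
  exact ⟨j, hj, v, hv, hvH, hd⟩

end Pool.Agent.Lib.MP_47b33c_an
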