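import Pool.Agent.Lib.MP_47b33c_an.Defs

/-!
# The smooth curve of normals
-/

set_option autoImplicit false

open MeasureTheory Metric Set Filter Topology InnerProductSpace
open scoped RealInnerProductSpace Laplacian

namespace Pool.Agent.Lib.MP_47b33c_an

variable {n : ℕ}

/-! ### the transition function and its derivatives -/

/-- the transition function -/
private noncomputable def f5X (x : ℝ) : ℝ := Real.smoothTransition x

private noncomputable def f5X1 (x : ℝ) : ℝ := deriv f5X x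

private noncomputable def f5X2 (x : ℝ) : ℝ := deriv f5X1 x

private lemma f5_contDiff : ContDiff ℝ 3 f5X := Real.smoothTransition.contDiff

private lemma f5_nonneg (x : ℝ) : 0 ≤ f5X x := Real.smoothTransition.nonneg x

private lemma f5_le_one (x : ℝ) : f5X x ≤ 1 := Real.smoothTransition.le_one x

private lemma f5_zero {x : ℝ} (h : x ≤ 0) : f5X x = 0 := Real.smoothTransition.zero_of_nonpos h

private lemma f5_one {x : ℝ} (h : 1 ≤ x) : f5X x = 1 := Real.smoothTransition.one_of_one_le h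

private lemma f5_hasDeriv (x : ℝ) : HasDerivAt f5X (f5X1 x) x :=
  (f5_contDiff.differentiable (by norm_num)).differentiableAt.hasDerivAt

private lemma f5_contDiff1 : ContDiff ℝ 2 f5X1 := by
  have h : ContDiff ℝ (2 + 1) f5X := by
    have := f5_contDiff
    norm_num
    exact this
  exact (contDiff_succ_iff_deriv.mp h).2.2

private lemma f5_hasDeriv1 (x : ℝ) : HasDerivAt f5X1 (f5X2 x) x :=
  (f5_contDiff1.differentiable (by norm_num)).differentiableAt.hasDerivAt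

private lemma f5_cont2 : Continuous f5X2 := f5_contDiff1.continuous_deriv (by norm_num)

private lemma f5_bound : ∃ M : ℝ, 1 ≤ M ∧ ∀ x ∈ Icc (0:ℝ) 1, |f5X1 x| ≤ M ∧ |f5X2 x| ≤ M := by
  obtain ⟨M1, h1⟩ := (isCompact_Icc (a := (0:ℝ)) (b := 1)).exists_bound_of_continuousOn
    f5_contDiff1.continuous.continuousOn
  obtain ⟨M2, h2⟩ := (isCompact_Icc (a := (0:ℝ)) (b := 1)).exists_bound_of_continuousOn
    f5_cont2.continuousOn
  refine ⟨max 1 (max M1 M2), le_max_left _ _, fun x hx => ⟨?_, ?_⟩⟩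
  · exact (h1 x hx).trans ((le_max_left _ _).trans (le_max_right _ _))
  · exact (h2 x hx).trans ((le_max_right _ _).trans (le_max_right _ _))

/-! ### the coefficient functions -/

private noncomputable def f5R (a x : ℝ) : ℝ := 1 - a * (f5X x * (1 - f5X x))

private noncomputable def f5R1 (a x : ℝ) : ℝ := -(a * (f5X1 x * (1 - 2 * f5X x)))

private noncomputable def f5R2 (a x : ℝ) : ℝ :=
  -(a * (f5X2 x * (1 - 2 * f5X x) - 2 * f5X1 x * f5X1 x))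

private noncomputable def f5f (a x : ℝ) : ℝ := f5R a x ^ (-(1/2) : ℝ)

private noncomputable def f5f1 (a x : ℝ) : ℝ := -(1/2) * (f5R1 a x * f5R a x ^ (-(3/2) : ℝ))

private noncomputable def f5f2 (a x : ℝ) : ℝ :=
  -(1/2) * (f5R2 a x * f5R a x ^ (-(3/2) : ℝ)
    + f5R1 a x * (-(3/2) * (f5R1 a x * f5R a x ^ (-(5/2) : ℝ))))

private lemma f5_kappa (x : ℝ) : 0 ≤ f5X x * (1 - f5X x) ∧ f5X x * (1 - f5X x) ≤ 1/4 := by
  have h0 := f5_nonneg x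
  have h1 := f5_le_one x
  constructor
  · exact mul_nonneg h0 (by linarith)
  · nlinarith [sq_nonneg (f5X x - 1/2)]

private lemma f5_R_bd {a : ℝ} (ha0 : 0 ≤ a) (ha : a ≤ 1/4) (x : ℝ) :
    15/16 ≤ f5R a x ∧ f5R a x ≤ 1 := by
  obtain ⟨h1, h2⟩ := f5_kappa x
  unfold f5R
  constructor
  · have : a * (f5X x * (1 - f5X x)) ≤ 1/4 * (1/4) := mul_le_mul ha h2 h1 (by norm_num)
    linarith
  · have : 0 ≤ a * (f5X x * (1 - f5X x)) := mul_nonneg ha0 h1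
    linarith

private lemma f5_R_deriv (a x : ℝ) : HasDerivAt (f5R a) (f5R1 a x) x := by
  have h := f5_hasDeriv x
  have h2 := ((h.mul (h.const_sub 1)).const_mul a).const_sub 1
  have h3 : HasDerivAt (f5R a) _ x := h2
  exact h3.congr_deriv (by unfold f5R1; ring)

private lemma f5_R1_deriv (a x : ℝ) : HasDerivAt (f5R1 a) (f5R2 a x) x := by
  have h := f5_hasDeriv x
  have h1 := f5_hasDeriv1 x
  have h2 := ((h1.mul ((h.const_mul 2).const_sub 1)).const_mul a).neg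
  have h3 : HasDerivAt (f5R1 a) _ x := h2
  exact h3.congr_deriv (by unfold f5R2; ring)

private lemma f5_pow_le {a : ℝ} (ha0 : 0 ≤ a) (ha : a ≤ 1/4) (x : ℝ) {s : ℝ} (hs : -3 ≤ s)
    (_ : s ≤ 0) : 0 ≤ f5R a x ^ s ∧ f5R a x ^ s ≤ 2 := by
  obtain ⟨h1, h2⟩ := f5_R_bd ha0 ha x
  have hpos : 0 < f5R a x := by linarith
  refine ⟨Real.rpow_nonneg hpos.le _, ?_⟩
  calc f5R a x ^ s ≤ f5R a x ^ (-3 : ℝ) := Real.rpow_le_rpow_of_exponent_ge hpos h2 hs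
    _ ≤ (15/16 : ℝ) ^ (-3 : ℝ) := Real.rpow_le_rpow_of_nonpos (by norm_num) h1 (by norm_num)
    _ ≤ 2 := by
      rw [Real.rpow_neg (by norm_num)]
      norm_num

private lemma f5_f_deriv {a : ℝ} (ha0 : 0 ≤ a) (ha : a ≤ 1/4) (x : ℝ) :
    HasDerivAt (f5f a) (f5f1 a x) x := by
  have hpos : 0 < f5R a x := by linarith [(f5_R_bd ha0 ha x).1]
  have h := (f5_R_deriv a x).rpow_const (p := -(1/2)) (Or.inl hpos.ne')
  have h3 : HasDerivAt (f5f a) _ x := h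
  refine h3.congr_deriv ?_
  unfold f5f1
  rw [show (-(1/2) - 1 : ℝ) = -(3/2) by norm_num]
  ring

private lemma f5_f1_deriv {a : ℝ} (ha0 : 0 ≤ a) (ha : a ≤ 1/4) (x : ℝ) :
    HasDerivAt (f5f1 a) (f5f2 a x) x := by
  have hpos : 0 < f5R a x := by linarith [(f5_R_bd ha0 ha x).1]
  have h := (f5_R_deriv a x).rpow_const (p := -(3/2)) (Or.inl hpos.ne')
  have h2 := ((f5_R1_deriv a x).mul h).const_mul (-(1/2))
  have h3 : HasDerivAt (f5f1 a) _ x := h2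
  refine h3.congr_deriv ?_
  unfold f5f2
  rw [show (-(3/2) - 1 : ℝ) = -(5/2) by norm_num]
  ring

private noncomputable def f5g (a x : ℝ) : ℝ := f5X x * f5f a x

private noncomputable def f5g1 (a x : ℝ) : ℝ := f5X1 x * f5f a x + f5X x * f5f1 a x

private noncomputable def f5g2 (a x : ℝ) : ℝ :=
  (f5X2 x * f5f a x + f5X1 x * f5f1 a x) + (f5X1 x * f5f1 a x + f5X x * f5f2 a x)

private lemma f5_g_deriv {a : ℝ} (ha0 : 0 ≤ a) (ha : a ≤ 1/4) (x : ℝ) :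
    HasDerivAt (f5g a) (f5g1 a x) x :=
  (f5_hasDeriv x).mul (f5_f_deriv ha0 ha x)

private lemma f5_g1_deriv {a : ℝ} (ha0 : 0 ≤ a) (ha : a ≤ 1/4) (x : ℝ) :
    HasDerivAt (f5g1 a) (f5g2 a x) x :=
  ((f5_hasDeriv1 x).mul (f5_f_deriv ha0 ha x)).add ((f5_hasDeriv x).mul (f5_f1_deriv ha0 ha x))

private lemma f5_bounds {a M : ℝ} (ha0 : 0 ≤ a) (ha : a ≤ 1/4) (hM : 1 ≤ M) {x : ℝ}
    (h1 : |f5X1 x| ≤ M) (h2 : |f5X2 x| ≤ M) :
    |f5f1 a x| ≤ a * M ∧ |f5f2 a x| ≤ 4 * a * M^2 ∧ |f5g1 a x| ≤ 3 * M ∧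
      |f5g2 a x| ≤ 4 * M^2 := by
  have hX0 := f5_nonneg x
  have hX1 := f5_le_one x
  have hM0 : 0 < M := by linarith
  have hMM : M ≤ M^2 := by nlinarith
  have ht : |1 - 2 * f5X x| ≤ 1 := by rw [abs_le]; constructor <;> linarith
  have hXa : |f5X x| ≤ 1 := by rw [abs_le]; constructor <;> linarith
  have hR1 : |f5R1 a x| ≤ a * M := by
    unfold f5R1
    rw [abs_neg, abs_mul, abs_mul, abs_of_nonneg ha0]
    apply mul_le_mul_of_nonneg_left _ ha0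
    calc |f5X1 x| * |1 - 2 * f5X x| ≤ M * 1 := mul_le_mul h1 ht (abs_nonneg _) hM0.le
      _ = M := mul_one M
  have hR2 : |f5R2 a x| ≤ a * (3 * M^2) := by
    unfold f5R2
    rw [abs_neg, abs_mul, abs_of_nonneg ha0]
    apply mul_le_mul_of_nonneg_left _ ha0
    have e1 : |f5X2 x * (1 - 2 * f5X x)| ≤ M := by
      rw [abs_mul]
      calc |f5X2 x| * |1 - 2 * f5X x| ≤ M * 1 := mul_le_mul h2 ht (abs_nonneg _) hM0.le
        _ = M := mul_one M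
    have e2 : |2 * f5X1 x * f5X1 x| ≤ 2 * M^2 := by
      rw [abs_mul, abs_mul, abs_two]
      have := mul_le_mul h1 h1 (abs_nonneg _) hM0.le
      nlinarith
    calc |f5X2 x * (1 - 2 * f5X x) - 2 * f5X1 x * f5X1 x|
        ≤ |f5X2 x * (1 - 2 * f5X x)| + |2 * f5X1 x * f5X1 x| := abs_sub _ _
      _ ≤ 3 * M^2 := by linarith
  obtain ⟨p1, p1'⟩ := f5_pow_le ha0 ha x (s := -(1/2)) (by norm_num) (by norm_num)
  obtain ⟨p3, p3'⟩ := f5_pow_le ha0 ha x (s := -(3/2)) (by norm_num) (by norm_num)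
  obtain ⟨p5, p5'⟩ := f5_pow_le ha0 ha x (s := -(5/2)) (by norm_num) (by norm_num)
  have hf : |f5f a x| ≤ 2 := by
    unfold f5f
    rw [abs_of_nonneg p1]
    exact p1'
  have hf1 : |f5f1 a x| ≤ a * M := by
    unfold f5f1
    rw [abs_mul, abs_mul, abs_of_nonneg p3]
    have e : |(-(1/2) : ℝ)| = 1/2 := by norm_num
    rw [e]
    have := mul_le_mul hR1 p3' p3 (by positivity)
    linarith
  have hf2 : |f5f2 a x| ≤ 4 * a * M^2 := by
    unfold f5f2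
    rw [abs_mul]
    have e : |(-(1/2) : ℝ)| = 1/2 := by norm_num
    rw [e]
    have e1 : |f5R2 a x * f5R a x ^ (-(3/2) : ℝ)| ≤ a * (3 * M^2) * 2 := by
      rw [abs_mul, abs_of_nonneg p3]
      exact mul_le_mul hR2 p3' p3 (by positivity)
    have e2 : |f5R1 a x * (-(3/2) * (f5R1 a x * f5R a x ^ (-(5/2) : ℝ)))|
        ≤ a * M * (3/2 * (a * M * 2)) := by
      rw [abs_mul, abs_mul, abs_mul, abs_of_nonneg p5]
      have e : |(-(3/2) : ℝ)| = 3/2 := by norm_num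
      rw [e]
      have e3 := mul_le_mul hR1 p5' p5 (by positivity)
      exact mul_le_mul hR1 (mul_le_mul_of_nonneg_left e3 (by norm_num)) (by positivity)
        (by positivity)
    have e4 : a * M * (3/2 * (a * M * 2)) ≤ 2 * (a * M^2) := by
      have : a * M * (3/2 * (a * M * 2)) = (3 * a) * (a * M^2) := by ring
      rw [this]
      apply mul_le_mul_of_nonneg_right _ (by positivity)
      linarith
    have := abs_add_le (f5R2 a x * f5R a x ^ (-(3/2) : ℝ))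
      (f5R1 a x * (-(3/2) * (f5R1 a x * f5R a x ^ (-(5/2) : ℝ))))
    linarith
  have haM : a * M ≤ M := by nlinarith
  have haM2 : a * M^2 ≤ 1/4 * M^2 := mul_le_mul_of_nonneg_right ha (by positivity)
  refine ⟨hf1, hf2, ?_, ?_⟩
  · unfold f5g1
    have e1 : |f5X1 x * f5f a x| ≤ M * 2 := by
      rw [abs_mul]
      exact mul_le_mul h1 hf (abs_nonneg _) hM0.le
    have e2 : |f5X x * f5f1 a x| ≤ 1 * (a * M) := by
      rw [abs_mul]
      exact mul_le_mul hXa hf1 (abs_nonneg _) zero_le_one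
    have := abs_add_le (f5X1 x * f5f a x) (f5X x * f5f1 a x)
    linarith
  · unfold f5g2
    have e1 : |f5X2 x * f5f a x| ≤ M * 2 := by
      rw [abs_mul]
      exact mul_le_mul h2 hf (abs_nonneg _) hM0.le
    have e2 : |f5X1 x * f5f1 a x| ≤ M * (a * M) := by
      rw [abs_mul]
      exact mul_le_mul h1 hf1 (abs_nonneg _) hM0.le
    have e3 : |f5X x * f5f2 a x| ≤ 1 * (4 * a * M^2) := by
      rw [abs_mul]
      exact mul_le_mul hXa hf2 (abs_nonneg _) zero_le_one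
    have t1 := abs_add_le (f5X2 x * f5f a x + f5X1 x * f5f1 a x)
      (f5X1 x * f5f1 a x + f5X x * f5f2 a x)
    have t2 := abs_add_le (f5X2 x * f5f a x) (f5X1 x * f5f1 a x)
    have t3 := abs_add_le (f5X1 x * f5f1 a x) (f5X x * f5f2 a x)
    have e4 : M * (a * M) = a * M^2 := by ring
    have e5 : 1 * (4 * a * M^2) = 4 * (a * M^2) := by ring
    rw [e4] at e2
    rw [e5] at e3
    nlinarith

private lemma f5_f_sub_one {a : ℝ} (ha0 : 0 ≤ a) (ha : a ≤ 1/4) (x : ℝ) : |f5f a x - 1| ≤ a := by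
  obtain ⟨h1, h2⟩ := f5_R_bd ha0 ha x
  obtain ⟨k1, k2⟩ := f5_kappa x
  have hpos : 0 < f5R a x := by linarith
  have hle : f5f a x ≤ (f5R a x)⁻¹ := by
    unfold f5f
    rw [← Real.rpow_neg_one]
    exact Real.rpow_le_rpow_of_exponent_ge hpos h2 (by norm_num)
  have hge : 1 ≤ f5f a x := by
    unfold f5f
    exact Real.one_le_rpow_of_pos_of_le_one_of_nonpos hpos h2 (by norm_num)
  have h3 : (f5R a x)⁻¹ ≤ 1 + a := by
    rw [inv_le_comm₀ hpos (by linarith)]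
    have h4 : 1 - a * (1/4) ≤ f5R a x := by
      unfold f5R
      have := mul_le_mul_of_nonneg_left k2 ha0
      linarith
    refine le_trans ?_ h4
    rw [inv_le_iff_one_le_mul₀ (by linarith)]
    nlinarith
  rw [abs_of_nonneg (by linarith)]
  linarith

/-! ### the piecewise curve -/

private noncomputable def f5Q (p : ℕ → EE n) (N : ℕ) (t : ℝ) : EE n :=
  p 0 + ∑ i ∈ Finset.range N, f5X (t - i) • (p (i + 1) - p i)

private lemma f5Q_stable (p : ℕ → EE n) {N M : ℕ} (h : N ≤ M) {t : ℝ} (ht : t ≤ N) :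
    f5Q p M t = f5Q p N t := by
  unfold f5Q
  congr 1
  refine (Finset.sum_subset (Finset.range_mono h) ?_).symm
  intro i _ hi
  have h1 : N ≤ i := by simpa using hi
  have h2 : (N:ℝ) ≤ i := by exact_mod_cast h1
  rw [f5_zero (by linarith), zero_smul]

private lemma f5Q_local (p : ℕ → EE n) (j : ℕ) {t : ℝ} (hj : (j:ℝ) ≤ t) :
    f5Q p (j + 1) t = p j + f5X (t - j) • (p (j + 1) - p j) := by
  unfold f5Q
  rw [Finset.sum_range_succ, ← add_assoc]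
  congr 1
  have h1 : ∑ i ∈ Finset.range j, f5X (t - i) • (p (i + 1) - p i)
      = ∑ i ∈ Finset.range j, (p (i + 1) - p i) := by
    apply Finset.sum_congr rfl
    intro i hi
    have h2 : (i:ℝ) + 1 ≤ j := by exact_mod_cast Finset.mem_range.mp hi
    rw [f5_one (by linarith), one_smul]
  rw [h1, Finset.sum_range_sub]
  abel

private noncomputable def f5E (p : ℕ → EE n) (N : ℕ) (t : ℝ) : EE n :=
  (‖f5Q p N t‖ ^ 2) ^ (-(1/2) : ℝ) • f5Q p N t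

private noncomputable def f5e (p : ℕ → EE n) (t : ℝ) : EE n := f5E p (⌊t⌋₊ + 1) t

private noncomputable def f5L (p w : EE n) (x : ℝ) : EE n :=
  f5f (‖w‖ ^ 2) x • p + f5g (‖w‖ ^ 2) x • w

private lemma f5_normsq {p w : EE n} (hp : ‖p‖ = 1) (hw : ‖p + w‖ = 1) (x : ℝ) :
    ‖p + f5X x • w‖ ^ 2 = f5R (‖w‖ ^ 2) x := by
  have h1 : ‖p + w‖ ^ 2 = ‖p‖ ^ 2 + 2 * ⟪p, w⟫ + ‖w‖ ^ 2 := norm_add_sq_real p w
  have h2 : ‖p + f5X x • w‖ ^ 2 = ‖p‖ ^ 2 + 2 * ⟪p, f5X x • w⟫ + ‖f5X x • w‖ ^ 2 :=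
    norm_add_sq_real p _
  rw [h2, inner_smul_right, norm_smul, mul_pow, Real.norm_eq_abs, sq_abs]
  rw [hw, hp] at h1
  rw [hp]
  unfold f5R
  have h3 : 2 * ⟪p, w⟫ = -‖w‖ ^ 2 := by linarith
  have h4 : 2 * (f5X x * ⟪p, w⟫) = f5X x * (2 * ⟪p, w⟫) := by ring
  rw [h4, h3]
  ring

section curve

variable {p : ℕ → EE n} {δ : ℕ → ℝ}

private lemma f5_Q_normsq (hp : ∀ j, ‖p j‖ = 1) (j : ℕ) {t : ℝ} (hj : (j:ℝ) ≤ t) :
    ‖f5Q p (j + 1) t‖ ^ 2 = f5R (‖p (j + 1) - p j‖ ^ 2) (t - j) := by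
  rw [f5Q_local p j hj]
  exact f5_normsq (hp j) (by rw [add_sub_cancel]; exact hp (j + 1)) _

private lemma f5_E_local (hp : ∀ j, ‖p j‖ = 1) (j : ℕ) {t : ℝ} (hj : (j:ℝ) ≤ t) :
    f5E p (j + 1) t = f5L (p j) (p (j + 1) - p j) (t - j) := by
  unfold f5E f5L
  rw [f5_Q_normsq hp j hj, f5Q_local p j hj, smul_add, smul_smul]
  unfold f5g f5f
  rw [mul_comm (f5X (t - j))]

private lemma f5_e_eq_E {N : ℕ} {t : ℝ} (hN : 1 ≤ N) (ht : t < N) : f5e p t = f5E p N t := by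
  unfold f5e f5E
  have h1 : ⌊t⌋₊ + 1 ≤ N := by
    rcases le_or_gt 0 t with h0 | h0
    · exact (Nat.floor_lt h0).mpr ht
    · rw [Nat.floor_of_nonpos h0.le]
      exact hN
  have h2 : t ≤ ((⌊t⌋₊ + 1 : ℕ) : ℝ) := by
    push_cast
    exact (Nat.lt_floor_add_one t).le
  rw [f5Q_stable p h1 h2]

private lemma f5_e_local (hp : ∀ j, ‖p j‖ = 1) (j : ℕ) {t : ℝ} (hj : (j:ℝ) ≤ t) (hj1 : t ≤ j + 1) :
    f5e p t = f5L (p j) (p (j + 1) - p j) (t - j) := by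
  rw [← f5_E_local hp j hj]
  unfold f5e f5E
  have h1 : j + 1 ≤ ⌊t⌋₊ + 1 := Nat.succ_le_succ (Nat.le_floor hj)
  have h2 : t ≤ ((j + 1 : ℕ) : ℝ) := by
    push_cast
    exact hj1
  rw [f5Q_stable p h1 h2]

private lemma f5_e_neg {t : ℝ} (hp : ∀ j, ‖p j‖ = 1) (ht : t ≤ 0) : f5e p t = p 0 := by
  unfold f5e f5E
  rw [Nat.floor_of_nonpos ht]
  have h1 : f5Q p (0 + 1) t = p 0 := by
    unfold f5Q
    simp [f5_zero ht]
  rw [h1, hp 0]
  simp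

private lemma f5_w_sq (hδ : ∀ j, ‖p (j + 1) - p j‖ ≤ δ j) (hδ2 : ∀ j, δ j ≤ 1 / 2) (j : ℕ) :
    ‖p (j + 1) - p j‖ ^ 2 ≤ 1/4 := by
  have h1 := (hδ j).trans (hδ2 j)
  have h2 := norm_nonneg (p (j + 1) - p j)
  nlinarith

private lemma f5_Q_pos (hp : ∀ j, ‖p j‖ = 1) (hδ : ∀ j, ‖p (j + 1) - p j‖ ≤ δ j)
    (hδ2 : ∀ j, δ j ≤ 1 / 2) {N : ℕ} {t : ℝ} (hN : 1 ≤ N) (ht : t < N) :
    0 < ‖f5Q p N t‖ ^ 2 := by
  rcases le_or_gt 0 t with h0 | h0
  · have h1 : ⌊t⌋₊ + 1 ≤ N := (Nat.floor_lt h0).mpr ht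
    have h2 : t ≤ ((⌊t⌋₊ + 1 : ℕ) : ℝ) := by
      push_cast
      exact (Nat.lt_floor_add_one t).le
    rw [f5Q_stable p h1 h2, f5_Q_normsq hp ⌊t⌋₊ (Nat.floor_le h0)]
    have := (f5_R_bd (sq_nonneg _) (f5_w_sq hδ hδ2 ⌊t⌋₊) (t - ⌊t⌋₊)).1
    linarith
  · have h1 : f5Q p N t = p 0 := by
      rw [f5Q_stable p (Nat.zero_le N) (by simpa using h0.le)]
      unfold f5Q
      simp
    rw [h1, hp 0]
    norm_num

private lemma f5_e_contDiff (hp : ∀ j, ‖p j‖ = 1) (hδ : ∀ j, ‖p (j + 1) - p j‖ ≤ δ j)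
    (hδ2 : ∀ j, δ j ≤ 1 / 2) : ContDiff ℝ 2 (f5e p) := by
  rw [contDiff_iff_contDiffAt]
  intro t
  have hX : ContDiff ℝ 2 f5X := f5_contDiff.of_le (by norm_num)
  have hlt : t < ((⌊t⌋₊ + 1 : ℕ) : ℝ) := by
    push_cast
    exact Nat.lt_floor_add_one t
  have hev : f5e p =ᶠ[𝓝 t] f5E p (⌊t⌋₊ + 1) := by
    filter_upwards [Iio_mem_nhds hlt] with s hs
    exact f5_e_eq_E (by omega) hs
  refine ContDiffAt.congr_of_eventuallyEq ?_ hev
  have hQ : ContDiff ℝ 2 (f5Q p (⌊t⌋₊ + 1)) := by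
    unfold f5Q
    refine contDiff_const.add (ContDiff.sum fun i _ => ?_)
    exact (hX.comp (contDiff_id.sub contDiff_const)).smul contDiff_const
  have hpos := f5_Q_pos hp hδ hδ2 (N := ⌊t⌋₊ + 1) (by omega) hlt
  unfold f5E
  exact ((hQ.norm_sq ℝ).contDiffAt.rpow_const_of_ne hpos.ne').smul hQ.contDiffAt

private lemma f5_e_norm (hp : ∀ j, ‖p j‖ = 1) (hδ : ∀ j, ‖p (j + 1) - p j‖ ≤ δ j)
    (hδ2 : ∀ j, δ j ≤ 1 / 2) (t : ℝ) : ‖f5e p t‖ = 1 := by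
  have hlt : t < ((⌊t⌋₊ + 1 : ℕ) : ℝ) := by
    push_cast
    exact Nat.lt_floor_add_one t
  have hpos := f5_Q_pos hp hδ hδ2 (N := ⌊t⌋₊ + 1) (by omega) hlt
  unfold f5e f5E
  set y := ‖f5Q p (⌊t⌋₊ + 1) t‖ with hy
  have hy0 : 0 < y := by
    have h0 : 0 ≤ y := norm_nonneg _
    rcases h0.lt_or_eq with h | h
    · exact h
    · rw [← h] at hpos
      norm_num at hpos
  rw [norm_smul, ← hy, Real.norm_eq_abs, abs_of_nonneg (Real.rpow_nonneg hpos.le _)]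
  rw [← Real.rpow_natCast, ← Real.rpow_mul hy0.le]
  norm_num
  rw [Real.rpow_neg_one]
  exact inv_mul_cancel₀ hy0.ne'

private lemma f5_L_deriv (q w : EE n) (hw : ‖w‖ ^ 2 ≤ 1/4) (x : ℝ) :
    HasDerivAt (f5L q w) (f5f1 (‖w‖ ^ 2) x • q + f5g1 (‖w‖ ^ 2) x • w) x :=
  ((f5_f_deriv (sq_nonneg _) hw x).smul_const q).add ((f5_g_deriv (sq_nonneg _) hw x).smul_const w)

private lemma f5_L_deriv1 (q w : EE n) (hw : ‖w‖ ^ 2 ≤ 1/4) (x : ℝ) :
    HasDerivAt (fun x => f5f1 (‖w‖ ^ 2) x • q + f5g1 (‖w‖ ^ 2) x • w)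
      (f5f2 (‖w‖ ^ 2) x • q + f5g2 (‖w‖ ^ 2) x • w) x :=
  ((f5_f1_deriv (sq_nonneg _) hw x).smul_const q).add
    ((f5_g1_deriv (sq_nonneg _) hw x).smul_const w)

private lemma f5_deriv_Ioo (hp : ∀ j, ‖p j‖ = 1) (hδ : ∀ j, ‖p (j + 1) - p j‖ ≤ δ j)
    (hδ2 : ∀ j, δ j ≤ 1 / 2) {M : ℝ} (hM : 1 ≤ M)
    (hb : ∀ x ∈ Icc (0:ℝ) 1, |f5X1 x| ≤ M ∧ |f5X2 x| ≤ M) (j : ℕ) {t : ℝ}
    (ht : t ∈ Ioo (j:ℝ) (j + 1)) :
    ‖deriv (f5e p) t‖ ≤ 8 * M ^ 2 * δ j ∧ ‖deriv (deriv (f5e p)) t‖ ≤ 8 * M ^ 2 * δ j := by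
  set w := p (j + 1) - p j with hw
  have hwsq : ‖w‖ ^ 2 ≤ 1/4 := f5_w_sq hδ hδ2 j
  have hw0 := norm_nonneg w
  have hwδ : ‖w‖ ≤ δ j := hδ j
  have hw2 : ‖w‖ ^ 2 ≤ ‖w‖ := by
    have := (hδ j).trans (hδ2 j)
    nlinarith
  have hloc : ∀ s ∈ Ioo (j:ℝ) (j + 1), f5e p =ᶠ[𝓝 s] fun s => f5L (p j) w (s - j) := by
    intro s hs
    filter_upwards [isOpen_Ioo.mem_nhds hs] with u hu
    exact f5_e_local hp j hu.1.le hu.2.le
  have hd1 : ∀ s ∈ Ioo (j:ℝ) (j + 1), deriv (f5e p) s =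
      f5f1 (‖w‖ ^ 2) (s - j) • p j + f5g1 (‖w‖ ^ 2) (s - j) • w := by
    intro s hs
    rw [(hloc s hs).deriv_eq]
    exact ((f5_L_deriv (p j) w hwsq (s - j)).comp_sub_const s (j:ℝ)).deriv
  have hd2 : deriv (deriv (f5e p)) t =
      f5f2 (‖w‖ ^ 2) (t - j) • p j + f5g2 (‖w‖ ^ 2) (t - j) • w := by
    have hev : deriv (f5e p) =ᶠ[𝓝 t] fun s =>
        (fun x => f5f1 (‖w‖ ^ 2) x • p j + f5g1 (‖w‖ ^ 2) x • w) (s - j) := by
      filter_upwards [isOpen_Ioo.mem_nhds ht] with u hu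
      exact hd1 u hu
    rw [hev.deriv_eq]
    exact ((f5_L_deriv1 (p j) w hwsq (t - j)).comp_sub_const t (j:ℝ)).deriv
  have hx : t - j ∈ Icc (0:ℝ) 1 := ⟨by linarith [ht.1], by linarith [ht.2]⟩
  obtain ⟨hb1, hb2⟩ := hb _ hx
  obtain ⟨c1, c2, c3, c4⟩ := f5_bounds (sq_nonneg ‖w‖) hwsq hM hb1 hb2
  have hM2 : M ≤ M ^ 2 := by nlinarith
  have hMp : 0 ≤ M ^ 2 := by positivity
  have hMw : ‖w‖ ^ 2 * M ≤ ‖w‖ * M ^ 2 := by
    calc ‖w‖ ^ 2 * M ≤ ‖w‖ * M := mul_le_mul_of_nonneg_right hw2 (by linarith)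
      _ ≤ ‖w‖ * M ^ 2 := mul_le_mul_of_nonneg_left hM2 hw0
  have hMw2 : ‖w‖ ^ 2 * M ^ 2 ≤ ‖w‖ * M ^ 2 := mul_le_mul_of_nonneg_right hw2 hMp
  have hMw3 : M * ‖w‖ ≤ M ^ 2 * ‖w‖ := mul_le_mul_of_nonneg_right hM2 hw0
  have hfin : M ^ 2 * ‖w‖ ≤ M ^ 2 * δ j := mul_le_mul_of_nonneg_left hwδ hMp
  constructor
  · rw [hd1 t ht]
    refine (norm_add_le _ _).trans ?_
    rw [norm_smul, norm_smul, hp j, mul_one, Real.norm_eq_abs, Real.norm_eq_abs]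
    have := mul_le_mul_of_nonneg_right c3 hw0
    nlinarith
  · rw [hd2]
    refine (norm_add_le _ _).trans ?_
    rw [norm_smul, norm_smul, hp j, mul_one, Real.norm_eq_abs, Real.norm_eq_abs]
    have := mul_le_mul_of_nonneg_right c4 hw0
    nlinarith

end curve

/-! ### the theorem -/

theorem exists_curve : ∃ C : ℝ, 1 ≤ C ∧ ∀ (p : ℕ → EE n) (δ : ℕ → ℝ), (∀ j, ‖p j‖ = 1) →
    (∀ j, ‖p (j + 1) - p j‖ ≤ δ j) → Antitone δ → (∀ j, 0 < δ j) → (∀ j, δ j ≤ 1 / 2) →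
    Tendsto δ atTop (𝓝 0) → C * δ 0 ≤ 1 / 100000000 →
    ∃ (e : ℝ → EE n) (δ' : ℝ → ℝ), GoodCurve e δ' (p 0) ∧ (∀ j : ℕ, e j = p j) ∧
      ∀ j : ℕ, ∀ t : ℝ, (j : ℝ) ≤ t → t ≤ j + 1 → ‖e t - p j‖ ≤ C * δ j := by
  obtain ⟨M, hM, hb⟩ := f5_bound
  have hM2 : 1 ≤ M ^ 2 := by nlinarith
  refine ⟨8 * M ^ 2, by linarith, ?_⟩
  intro p δ hp hδ hanti hpos hδ2 htend hsmall
  have hC : ContDiff ℝ 2 (f5e p) := f5_e_contDiff hp hδ hδ2
  have hC1 : Continuous (deriv (f5e p)) := hC.continuous_deriv (by norm_num)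
  have hC2 : Continuous (deriv (deriv (f5e p))) := by
    have h : ContDiff ℝ (1 + 1) (f5e p) := by
      norm_num
      exact hC
    have h1 : ContDiff ℝ 1 (deriv (f5e p)) := (contDiff_succ_iff_deriv.mp h).2.2
    exact h1.continuous_deriv (by norm_num)
  have hIcc : ∀ (j : ℕ) (t : ℝ), t ∈ Icc (j:ℝ) (j + 1) →
      ‖deriv (f5e p) t‖ ≤ 8 * M ^ 2 * δ j ∧ ‖deriv (deriv (f5e p)) t‖ ≤ 8 * M ^ 2 * δ j := by
    intro j t ht
    have hcl : IsClosed {s | ‖deriv (f5e p) s‖ ≤ 8 * M ^ 2 * δ j ∧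
        ‖deriv (deriv (f5e p)) s‖ ≤ 8 * M ^ 2 * δ j} :=
      (isClosed_le hC1.norm continuous_const).inter (isClosed_le hC2.norm continuous_const)
    have hsub : Ioo (j:ℝ) (j + 1) ⊆ {s | ‖deriv (f5e p) s‖ ≤ 8 * M ^ 2 * δ j ∧
        ‖deriv (deriv (f5e p)) s‖ ≤ 8 * M ^ 2 * δ j} :=
      fun s hs => f5_deriv_Ioo hp hδ hδ2 hM hb j hs
    have := hcl.closure_subset_iff.mpr hsub
    rw [closure_Ioo (by linarith)] at this
    exact this ht
  have hneg : ∀ t : ℝ, t < 0 → deriv (f5e p) t = 0 ∧ deriv (deriv (f5e p)) t = 0 := by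
    have h1 : ∀ t : ℝ, t < 0 → deriv (f5e p) t = 0 := by
      intro t ht
      have hev : f5e p =ᶠ[𝓝 t] fun _ => p 0 := by
        filter_upwards [Iio_mem_nhds ht] with s hs
        exact f5_e_neg hp (le_of_lt hs)
      rw [hev.deriv_eq, deriv_const]
    intro t ht
    refine ⟨h1 t ht, ?_⟩
    have hev : deriv (f5e p) =ᶠ[𝓝 t] fun _ => 0 := by
      filter_upwards [Iio_mem_nhds ht] with s hs
      exact h1 s hs
    rw [hev.deriv_eq, deriv_const]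
  have hall : ∀ t : ℝ, ‖deriv (f5e p) t‖ ≤ 8 * M ^ 2 * δ ⌊t⌋₊ ∧
      ‖deriv (deriv (f5e p)) t‖ ≤ 8 * M ^ 2 * δ ⌊t⌋₊ := by
    intro t
    rcases le_or_gt 0 t with h0 | h0
    · exact hIcc ⌊t⌋₊ t ⟨Nat.floor_le h0, (Nat.lt_floor_add_one t).le⟩
    · obtain ⟨h1, h2⟩ := hneg t h0
      rw [h1, h2, norm_zero]
      have := hpos ⌊t⌋₊
      constructor <;> positivity
  refine ⟨f5e p, fun t => 8 * M ^ 2 * δ ⌊t⌋₊, ⟨hC, f5_e_norm hp hδ hδ2, fun t ht => f5_e_neg hp ht,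
    ?_, ?_, ?_, ?_, fun t => (hall t).1, fun t => (hall t).2⟩, ?_, ?_⟩
  · intro t
    have := hpos ⌊t⌋₊
    positivity
  · intro s t hst
    exact mul_le_mul_of_nonneg_left (hanti (Nat.floor_mono hst)) (by positivity)
  · intro t
    refine le_trans ?_ hsmall
    exact mul_le_mul_of_nonneg_left (hanti (Nat.zero_le _)) (by positivity)
  · have := (htend.comp (tendsto_nat_floor_atTop (α := ℝ))).const_mul (8 * M ^ 2)
    simpa using this
  · intro j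
    rw [f5_e_local hp j le_rfl (by linarith)]
    unfold f5L f5g f5f f5R
    rw [sub_self, f5_zero le_rfl]
    simp
  · intro j t h1 h2
    rw [f5_e_local hp j h1 h2]
    set w := p (j + 1) - p j with hw
    have hwsq : ‖w‖ ^ 2 ≤ 1/4 := f5_w_sq hδ hδ2 j
    have hw0 := norm_nonneg w
    have hwδ : ‖w‖ ≤ δ j := hδ j
    have hw2 : ‖w‖ ^ 2 ≤ ‖w‖ := by
      have := (hδ j).trans (hδ2 j)
      nlinarith
    have e1 : f5L (p j) w (t - j) - p j =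
        (f5f (‖w‖ ^ 2) (t - j) - 1) • p j + f5g (‖w‖ ^ 2) (t - j) • w := by
      unfold f5L
      rw [sub_smul, one_smul]
      abel
    rw [e1]
    refine (norm_add_le _ _).trans ?_
    rw [norm_smul, norm_smul, hp j, mul_one, Real.norm_eq_abs, Real.norm_eq_abs]
    have h3 := f5_f_sub_one (sq_nonneg ‖w‖) hwsq (t - j)
    have h4 : |f5g (‖w‖ ^ 2) (t - j)| ≤ 1 * 2 := by
      unfold f5g
      rw [abs_mul]
      have ha : |f5X (t - j)| ≤ 1 := by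
        rw [abs_le]
        constructor <;> linarith [f5_nonneg (t - j), f5_le_one (t - j)]
      have hb' : |f5f (‖w‖ ^ 2) (t - j)| ≤ 2 := by
        obtain ⟨q1, q2⟩ := f5_pow_le (sq_nonneg ‖w‖) hwsq (t - j) (s := -(1/2)) (by norm_num)
          (by norm_num)
        unfold f5f
        rw [abs_of_nonneg q1]
        exact q2
      exact mul_le_mul ha hb' (abs_nonneg _) zero_le_one
    have h5 := mul_le_mul_of_nonneg_right h4 hw0
    have h6 : 1 * δ j ≤ M ^ 2 * δ j := mul_le_mul_of_nonneg_right hM2 (hpos j).le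
    nlinarith

end Pool.Agent.Lib.MP_47b33c_an
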