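import Pool.Agent.Lib.MP_47b33c_an.Defs

set_option autoImplicit false

open MeasureTheory Metric Set Filter Topology InnerProductSpace
open scoped RealInnerProductSpace Laplacian

namespace Pool.Agent.Lib.MP_47b33c_an

variable {n : ℕ}

theorem d5_hasDerivAt_pos (k : ℕ) (s : ℝ) :
    HasDerivAt (fun s : ℝ => (max 0 s) ^ (k + 2)) ((k + 2) * (max 0 s) ^ (k + 1)) s := by
  rcases lt_trichotomy s 0 with h | h | h
  · have h1 : (fun s : ℝ => (max 0 s) ^ (k + 2)) =ᶠ[𝓝 s] fun _ => (0 : ℝ) := by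
      filter_upwards [Iio_mem_nhds h] with t ht
      rw [max_eq_left (le_of_lt ht)]; simp
    have h2 := (hasDerivAt_const s (0:ℝ)).congr_of_eventuallyEq h1
    rw [max_eq_left h.le]; simpa using h2
  · subst h
    have h1 : (fun s : ℝ => (max 0 s) ^ (k + 2)) =O[𝓝 (0:ℝ)] fun x => ‖x - 0‖ ^ 2 := by
      refine Asymptotics.IsBigO.of_bound 1 ?_
      filter_upwards [Metric.ball_mem_nhds (0:ℝ) one_pos] with t ht
      rw [mem_ball_zero_iff] at ht
      have h3 : |max 0 t| ≤ ‖t‖ := by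
        rw [Real.norm_eq_abs, abs_of_nonneg (le_max_left _ _)]
        exact max_le (abs_nonneg _) (le_abs_self _)
      rw [sub_zero, one_mul, norm_pow, norm_pow, norm_norm, Real.norm_eq_abs (max 0 t)]
      calc |max 0 t| ^ (k + 2) ≤ ‖t‖ ^ (k + 2) := by gcongr
        _ ≤ ‖t‖ ^ 2 := pow_le_pow_of_le_one (norm_nonneg _) ht.le (by omega)
    have h2 := (h1.hasFDerivAt (by norm_num)).hasDerivAt
    simpa using h2
  · have h1 : (fun s : ℝ => (max 0 s) ^ (k + 2)) =ᶠ[𝓝 s] fun t => t ^ (k + 2) := by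
      filter_upwards [Ioi_mem_nhds h] with t ht
      rw [max_eq_right (le_of_lt ht)]
    have h2 := (hasDerivAt_pow (k + 2) s).congr_of_eventuallyEq h1
    rw [max_eq_right h.le]
    refine h2.congr_deriv ?_
    push_cast
    simp

theorem d5_contDiff_two {f f' f'' : ℝ → ℝ} (h : ∀ x, HasDerivAt f (f' x) x)
    (h' : ∀ x, HasDerivAt f' (f'' x) x) (hc : Continuous f'') : ContDiff ℝ 2 f := by
  have e1 : deriv f = f' := funext fun x => (h x).deriv
  have e2 : deriv f' = f'' := funext fun x => (h' x).deriv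
  have h1 : ContDiff ℝ 1 f' := by
    rw [contDiff_one_iff_deriv]
    exact ⟨fun x => (h' x).differentiableAt, by rw [e2]; exact hc⟩
  have h2 : ContDiff ℝ (1 + 1) f := by
    rw [contDiff_succ_iff_deriv]
    refine ⟨fun x => (h x).differentiableAt, by simp, ?_⟩
    rw [e1]; exact h1
  exact h2.of_le (by norm_num)

/-- the cut off function -/
noncomputable def d5_psi (t : ℝ) : ℝ :=
  (max 0 (t - 1)) ^ (1 + 2) - (max 0 (t - 1)) ^ (2 + 2) / 2 + (max 0 (t - 2)) ^ (1 + 2)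
    + (max 0 (t - 2)) ^ (2 + 2) / 2

/-- its derivative -/
noncomputable def d5_psi1 (t : ℝ) : ℝ :=
  3 * (max 0 (t - 1)) ^ (0 + 2) - 2 * (max 0 (t - 1)) ^ (1 + 2) + 3 * (max 0 (t - 2)) ^ (0 + 2)
    + 2 * (max 0 (t - 2)) ^ (1 + 2)

/-- its second derivative -/
noncomputable def d5_psi2 (t : ℝ) : ℝ :=
  6 * (max 0 (t - 1)) - 6 * (max 0 (t - 1)) ^ 2 + 6 * (max 0 (t - 2)) + 6 * (max 0 (t - 2)) ^ 2

theorem d5_psi_deriv (t : ℝ) : HasDerivAt d5_psi (d5_psi1 t) t := by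
  have a := fun k (c : ℝ) => (d5_hasDerivAt_pos k (t - c)).comp_sub_const t c
  have h := (((a 1 1).sub ((a 2 1).div_const 2)).add (a 1 2)).add ((a 2 2).div_const 2)
  refine (h.congr_of_eventuallyEq (Filter.Eventually.of_forall fun s => ?_)).congr_deriv ?_
  · simp [d5_psi]
  · simp only [d5_psi1]; push_cast; ring

theorem d5_psi1_deriv (t : ℝ) : HasDerivAt d5_psi1 (d5_psi2 t) t := by
  have a := fun k (c : ℝ) => (d5_hasDerivAt_pos k (t - c)).comp_sub_const t c
  have h := ((((a 0 1).const_mul 3).sub ((a 1 1).const_mul 2)).add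
    ((a 0 2).const_mul 3)).add ((a 1 2).const_mul 2)
  refine (h.congr_of_eventuallyEq (Filter.Eventually.of_forall fun s => ?_)).congr_deriv ?_
  · simp [d5_psi1]
  · simp only [d5_psi2]; push_cast; ring

theorem d5_psi2_cont : Continuous d5_psi2 := by
  unfold d5_psi2; fun_prop

theorem exists_psi : ∃ Ψ : ℝ → ℝ, ContDiff ℝ 2 Ψ ∧ (∀ t ≤ 1, Ψ t = 0) ∧
    (∀ t, 2 ≤ t → deriv Ψ t = 1) ∧ (∀ t, 2 ≤ t → deriv (deriv Ψ) t = 0) ∧
    (∀ t, 0 ≤ deriv (deriv Ψ) t) ∧ (∀ t, 0 ≤ t → Ψ t ≤ t) ∧ (∀ t, 0 ≤ t → t - 2 ≤ Ψ t) := by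
  have e1 : deriv d5_psi = d5_psi1 := funext fun x => (d5_psi_deriv x).deriv
  have e2 : deriv d5_psi1 = d5_psi2 := funext fun x => (d5_psi1_deriv x).deriv
  have h2 : ∀ t : ℝ, 2 ≤ t → max 0 (t - 1) = t - 1 ∧ max 0 (t - 2) = t - 2 := fun t ht =>
    ⟨max_eq_right (by linarith), max_eq_right (by linarith)⟩
  have h1 : ∀ t : ℝ, t ≤ 1 → max 0 (t - 1) = 0 ∧ max 0 (t - 2) = 0 := fun t ht =>
    ⟨max_eq_left (by linarith), max_eq_left (by linarith)⟩
  have h12 : ∀ t : ℝ, 1 ≤ t → t ≤ 2 → max 0 (t - 1) = t - 1 ∧ max 0 (t - 2) = 0 := fun t ht ht' =>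
    ⟨max_eq_right (by linarith), max_eq_left (by linarith)⟩
  refine ⟨d5_psi, d5_contDiff_two d5_psi_deriv d5_psi1_deriv d5_psi2_cont, ?_, ?_, ?_, ?_, ?_, ?_⟩
  · intro t ht
    simp [d5_psi, (h1 t ht).1, (h1 t ht).2]
  · intro t ht
    rw [e1, d5_psi1, (h2 t ht).1, (h2 t ht).2]; ring
  · intro t ht
    rw [e1, e2, d5_psi2, (h2 t ht).1, (h2 t ht).2]; ring
  · intro t
    rw [e1, e2, d5_psi2]
    rcases le_total t 1 with h | h
    · rw [(h1 t h).1, (h1 t h).2]; norm_num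
    rcases le_total t 2 with h' | h'
    · rw [(h12 t h h').1, (h12 t h h').2]; nlinarith
    · rw [(h2 t h').1, (h2 t h').2]; nlinarith
  · intro t ht
    rw [d5_psi]
    rcases le_total t 1 with h | h
    · rw [(h1 t h).1, (h1 t h).2]; norm_num; exact ht
    rcases le_total t 2 with h' | h'
    · rw [(h12 t h h').1, (h12 t h h').2]
      have hs0 : 0 ≤ t - 1 := by linarith
      have hs1 : t - 1 ≤ 1 := by linarith
      have h3 : (t - 1) ^ 3 ≤ 1 := pow_le_one₀ hs0 hs1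
      have h4 : 0 ≤ (t - 1) ^ 4 := by positivity
      norm_num
      linarith
    · rw [(h2 t h').1, (h2 t h').2]
      nlinarith
  · intro t ht
    rw [d5_psi]
    rcases le_total t 1 with h | h
    · rw [(h1 t h).1, (h1 t h).2]; norm_num; linarith
    rcases le_total t 2 with h' | h'
    · rw [(h12 t h h').1, (h12 t h h').2]
      have hs0 : 0 ≤ t - 1 := by linarith
      have hs1 : t - 1 ≤ 1 := by linarith
      have h3 : 0 ≤ (t - 1) ^ 3 := by positivity
      have h4 : (t - 1) ^ 4 ≤ (t - 1) ^ 3 := by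
        calc (t - 1) ^ 4 = (t - 1) ^ 3 * (t - 1) := by ring
          _ ≤ (t - 1) ^ 3 * 1 := by gcongr
          _ = _ := by ring
      norm_num
      linarith
    · rw [(h2 t h').1, (h2 t h').2]
      nlinarith

theorem d5_lap_eq (f : EE n → ℝ) (x : EE n) :
    Δ f x = ∑ i, fderiv ℝ (fderiv ℝ f) x (EuclideanSpace.basisFun (Fin n) ℝ i)
      (EuclideanSpace.basisFun (Fin n) ℝ i) := by
  rw [laplacian_eq_iteratedFDeriv_orthonormalBasis f (EuclideanSpace.basisFun (Fin n) ℝ)]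
  simp only [iteratedFDeriv_two_apply]
  rfl

theorem d5_lap_comp {φ : ℝ → ℝ} {G : EE n → ℝ} {x : EE n} (hφ : ContDiff ℝ 2 φ)
    (hG : ContDiffAt ℝ 2 G x) : Δ (fun y => φ (G y)) x = deriv φ (G x) * Δ G x +
      deriv (deriv φ) (G x) * ∑ i, (fderiv ℝ G x (EuclideanSpace.basisFun (Fin n) ℝ i)) ^ 2 := by
  have h1 : ∀ᶠ y in 𝓝 x, DifferentiableAt ℝ G y := by
    have := hG.eventually (by simp)
    filter_upwards [this] with y hy
    exact hy.differentiableAt (by norm_num)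
  have hφ1 : ContDiff ℝ 1 (deriv φ) := by
    have : ContDiff ℝ (1 + 1) φ := hφ.of_le (by norm_num)
    exact (contDiff_succ_iff_deriv.mp this).2.2
  have h2 : fderiv ℝ (fun y => φ (G y)) =ᶠ[𝓝 x] fun y => deriv φ (G y) • fderiv ℝ G y := by
    filter_upwards [h1] with y hy
    exact (((hφ.differentiable (by norm_num) (G y)).hasDerivAt).comp_hasFDerivAt y
      hy.hasFDerivAt).fderiv
  have h3 : DifferentiableAt ℝ (fderiv ℝ G) x := by
    have : ContDiffAt ℝ 1 (fderiv ℝ G) x := hG.fderiv_right (by norm_num)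
    exact this.differentiableAt (by norm_num)
  have h4 : HasFDerivAt (fun y => deriv φ (G y)) (deriv (deriv φ) (G x) • fderiv ℝ G x) x :=
    ((hφ1.differentiable (by norm_num) (G x)).hasDerivAt).comp_hasFDerivAt x
      (hG.differentiableAt (by norm_num)).hasFDerivAt
  have h5 := (h4.smul h3.hasFDerivAt).congr_of_eventuallyEq h2
  rw [d5_lap_eq, d5_lap_eq, h5.fderiv, Finset.mul_sum, Finset.mul_sum, ← Finset.sum_add_distrib]
  refine Finset.sum_congr rfl fun i _ => ?_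
  simp
  ring

theorem d5_lap_cont {F : EE n → ℝ} (hF : ContDiff ℝ 2 F) : Continuous (Δ F) := by
  have h1 : ContDiff ℝ 1 (fderiv ℝ F) := hF.fderiv_right (by norm_num)
  have h2 : Continuous (fderiv ℝ (fderiv ℝ F)) := h1.continuous_fderiv (by norm_num)
  have h3 : Δ F = fun x => ∑ i, fderiv ℝ (fderiv ℝ F) x (EuclideanSpace.basisFun (Fin n) ℝ i)
      (EuclideanSpace.basisFun (Fin n) ℝ i) := funext fun x => d5_lap_eq F x
  rw [h3]
  fun_prop

theorem d5_lap_zero {F : EE n → ℝ} {x : EE n} (hx : x ∉ tsupport F) : Δ F x = 0 := by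
  have h1 : F =ᶠ[𝓝 x] fun _ => (0 : ℝ) := notMem_tsupport_iff_eventuallyEq.mp hx
  have h2 := (laplacian_congr_nhds h1).eq_of_nhds
  rw [h2, laplacian_const]; rfl

/-- the cut off Green potential -/
theorem cut_green {Ω : Set (EE n)} (hΩ : IsOpen Ω) {A : EE n} (hA : closedBall A 1 ⊆ Ω)
    {G : EE n → ℝ} (hG : GreenPot Ω A G) : ∃ δ₀ : ℝ, 0 < δ₀ ∧ ∀ δ : ℝ, 0 < δ → δ < δ₀ →
      ∃ F ν : EE n → ℝ, ContDiff ℝ 2 F ∧ HasCompactSupport F ∧ tsupport F ⊆ Ω ∧ Continuous ν ∧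
        HasCompactSupport ν ∧ (∀ x, 0 ≤ ν x) ∧ (∀ x, ν x ≠ 0 → x ∈ Ω ∧ G x ≤ 2 * δ) ∧
        (∀ x, Δ F x = ν x - max 0 (1 - ‖x - A‖ ^ 2)) ∧ ∀ x, |F x - G x| ≤ 2 * δ := by
  obtain ⟨Ψ, hΨ, hΨ0, hΨ1, hΨ2, hΨ3, hΨ4, hΨ5⟩ := exists_psi
  refine ⟨1, one_pos, fun δ hδ _ => ?_⟩
  have hG0 : ∀ x, 0 ≤ G x := by
    intro x
    by_cases hx : x ∈ Ω
    · exact (hG.pos x hx).le
    · exact (hG.zero x hx).ge
  -- Ψ' ≤ 1
  have hΨ' : ∀ t, deriv Ψ t ≤ 1 := by
    have hφ1 : ContDiff ℝ 1 (deriv Ψ) := by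
      have : ContDiff ℝ (1 + 1) Ψ := hΨ.of_le (by norm_num)
      exact (contDiff_succ_iff_deriv.mp this).2.2
    have hm : Monotone (deriv Ψ) := monotone_of_deriv_nonneg (hφ1.differentiable (by norm_num)) hΨ3
    intro t
    calc deriv Ψ t ≤ deriv Ψ (max t 2) := hm (le_max_left _ _)
      _ = 1 := hΨ1 _ (le_max_right _ _)
  set φ : ℝ → ℝ := fun s => δ * Ψ (s / δ) with hφd
  have hφ : ContDiff ℝ 2 φ := by
    have : ContDiff ℝ 2 fun s : ℝ => s / δ := contDiff_id.div_const δ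
    exact contDiff_const.mul (hΨ.comp this)
  have hΨd : ∀ s, HasDerivAt Ψ (deriv Ψ s) s := fun s =>
    (hΨ.differentiable (by norm_num) s).hasDerivAt
  have hφ1 : ContDiff ℝ 1 (deriv Ψ) := by
    have : ContDiff ℝ (1 + 1) Ψ := hΨ.of_le (by norm_num)
    exact (contDiff_succ_iff_deriv.mp this).2.2
  have hΨdd : ∀ s, HasDerivAt (deriv Ψ) (deriv (deriv Ψ) s) s := fun s =>
    (hφ1.differentiable (by norm_num) s).hasDerivAt
  have hdiv : ∀ s : ℝ, HasDerivAt (fun s : ℝ => s / δ) (1 / δ) s := fun s =>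
    (hasDerivAt_id s).div_const δ
  have hd1 : deriv φ = fun s => deriv Ψ (s / δ) := by
    funext s
    have := (((hΨd (s / δ)).comp s (hdiv s)).const_mul δ).deriv
    rw [hφd]
    refine this.trans ?_
    field_simp
  have hd2 : deriv (deriv φ) = fun s => deriv (deriv Ψ) (s / δ) * (1 / δ) := by
    rw [hd1]
    funext s
    exact ((hΨdd (s / δ)).comp s (hdiv s)).deriv
  set F : EE n → ℝ := fun x => φ (G x) with hFd
  have hφ0 : ∀ s, s ≤ δ → φ s = 0 := by
    intro s hs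
    have : s / δ ≤ 1 := by rw [div_le_one hδ]; exact hs
    simp only [hφd]
    rw [hΨ0 _ this, mul_zero]
  have hFc : ContDiff ℝ 2 F := by
    rw [contDiff_iff_contDiffAt]
    intro x
    by_cases hx : x ∈ Ω
    · exact hφ.contDiffAt.comp x (hG.diff x hx)
    · have h1 : ∀ᶠ y in 𝓝 x, G y < δ := by
        have := hG.cont.continuousAt (x := x)
        refine this.eventually_lt_const ?_
        rw [hG.zero x hx]; exact hδ
      have h2 : F =ᶠ[𝓝 x] fun _ => (0 : ℝ) := by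
        filter_upwards [h1] with y hy
        exact hφ0 _ hy.le
      exact contDiffAt_const.congr_of_eventuallyEq h2
  have hKc : IsCompact {x | δ ≤ G x} := by
    obtain ⟨R, hR⟩ := hG.vanish (δ / 2) (half_pos hδ)
    refine (isCompact_closedBall (0 : EE n) R).of_isClosed_subset
      (isClosed_le continuous_const hG.cont) ?_
    intro x hx
    by_contra hx'
    rw [mem_closedBall_zero_iff, not_le] at hx'
    have := hR x hx'.le
    have hx2 : δ ≤ G x := hx
    linarith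
  have hts : tsupport F ⊆ {x | δ ≤ G x} := by
    refine closure_minimal ?_ hKc.isClosed
    intro x hx
    by_contra hx'
    have hx2 : ¬ δ ≤ G x := hx'
    exact hx (hφ0 _ (not_le.mp hx2).le)
  have hKΩ : {x | δ ≤ G x} ⊆ Ω := by
    intro x hx
    by_contra hx'
    have hx2 : δ ≤ G x := hx
    rw [hG.zero x hx'] at hx2
    linarith
  set bump : EE n → ℝ := fun x => max 0 (1 - ‖x - A‖ ^ 2) with hbump
  have hbc : Continuous bump := by simp only [hbump]; fun_prop
  have hb0 : ∀ x, x ∉ closedBall A 1 → bump x = 0 := by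
    intro x hx
    rw [mem_closedBall, dist_eq_norm, not_le] at hx
    simp only [hbump]
    refine max_eq_left ?_
    nlinarith
  have hbn : ∀ x, 0 ≤ bump x := fun x => le_max_left _ _
  refine ⟨F, fun x => Δ F x + bump x, hFc, hKc.of_isClosed_subset (isClosed_tsupport _) hts,
    hts.trans hKΩ, (d5_lap_cont hFc).add hbc, ?_, ?_, ?_, ?_, ?_⟩
  · refine HasCompactSupport.intro (hKc.union (isCompact_closedBall A 1)) ?_
    intro x hx
    rw [mem_union, not_or] at hx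
    rw [d5_lap_zero fun h => hx.1 (hts h), hb0 x hx.2, add_zero]
  · intro x
    by_cases hx : x ∈ Ω
    · have h1 := d5_lap_comp hφ (hG.diff x hx)
      have h2 : Δ F x = deriv Ψ (G x / δ) * (-bump x) + deriv (deriv Ψ) (G x / δ) * (1 / δ) *
          ∑ i, (fderiv ℝ G x (EuclideanSpace.basisFun (Fin n) ℝ i)) ^ 2 := by
        rw [hFd, h1, hd2, hd1, hG.lap x hx]
      have h3 : 0 ≤ deriv (deriv Ψ) (G x / δ) * (1 / δ) *
          ∑ i, (fderiv ℝ G x (EuclideanSpace.basisFun (Fin n) ℝ i)) ^ 2 :=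
        mul_nonneg (mul_nonneg (hΨ3 _) (by positivity)) (Finset.sum_nonneg fun i _ => sq_nonneg _)
      have h4 : 0 ≤ (1 - deriv Ψ (G x / δ)) * bump x :=
        mul_nonneg (by linarith [hΨ' (G x / δ)]) (hbn x)
      simp only
      rw [h2]
      linarith
    · have h1 : Δ F x = 0 := d5_lap_zero fun h => hx (hKΩ (hts h))
      simp only
      rw [h1, zero_add]
      exact hbn x
  · intro x hx
    have hxΩ : x ∈ Ω := by
      by_contra hx'
      refine hx ?_
      simp only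
      rw [d5_lap_zero fun h => hx' (hKΩ (hts h)), hb0 x fun h => hx' (hA h), add_zero]
    refine ⟨hxΩ, ?_⟩
    by_contra hx'
    rw [not_le] at hx'
    refine hx ?_
    have h5 : 2 ≤ G x / δ := by rw [le_div_iff₀ hδ]; exact hx'.le
    have h1 := d5_lap_comp hφ (hG.diff x hxΩ)
    simp only
    rw [show Δ F x = _ from h1, hd2, hd1, hG.lap x hxΩ]
    simp only
    rw [hΨ1 _ h5, hΨ2 _ h5]
    simp only [hbump]
    ring
  · intro x
    simp only [hbump]
    ring
  · intro x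
    have ht : 0 ≤ G x / δ := div_nonneg (hG0 x) hδ.le
    have h1 := hΨ4 _ ht
    have h2 := hΨ5 _ ht
    have h3 : δ * (G x / δ) = G x := by field_simp
    have h4 : F x ≤ G x := by
      calc F x = δ * Ψ (G x / δ) := rfl
        _ ≤ δ * (G x / δ) := by gcongr
        _ = G x := h3
    have h5 : G x - 2 * δ ≤ F x := by
      calc G x - 2 * δ = δ * (G x / δ - 2) := by rw [mul_sub, h3]; ring
        _ ≤ δ * Ψ (G x / δ) := by gcongr
        _ = F x := rfl
    rw [abs_le]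
    constructor <;> linarith

end Pool.Agent.Lib.MP_47b33c_an
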