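import Mathlib

/-!
# Hyperplane blow-ups in two-phase problems for harmonic measure: definitions
-/

set_option autoImplicit false

open MeasureTheory Metric Set Filter Topology InnerProductSpace
open scoped RealInnerProductSpace Laplacian

namespace Pool.Agent.Lib.MP_47b33c_an

/-- Euclidean space -/
abbrev EE (n : ℕ) := EuclideanSpace ℝ (Fin n)

/-! ### The notions of the problem -/

/-- `ball c ρ` is an `M`-nontangential ball in `Ω`: its radius is comparable to its distance to the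
boundary -/
def NTBall {n : ℕ} (Ω : Set (EE n)) (M : ℝ) (c : EE n) (ρ : ℝ) : Prop :=
  0 < ρ ∧ ball c ρ ⊆ Ω ∧ (∀ x ∈ ball c ρ, ρ / M ≤ infDist x (frontier Ω)) ∧
    ∃ x ∈ ball c ρ, infDist x (frontier Ω) ≤ M * ρ

/-- nontangentially accessible domains of Jerison and Kenig (corkscrews and Harnack chains at all
scales) -/
structure IsNTA {n : ℕ} (Ω : Set (EE n)) : Prop where
  isOpen : IsOpen Ω
  isConnected : IsConnected Ω
  const : ∃ M : ℝ, 1 < M ∧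
    (∀ Q ∈ frontier Ω, ∀ r : ℝ, 0 < r → ∃ A ∈ Ω, r / M < dist A Q ∧ dist A Q < r ∧
      r / M < infDist A (frontier Ω)) ∧
    (∀ Q ∈ frontier Ω, ∀ r : ℝ, 0 < r → ∃ A ∈ (closure Ω)ᶜ, r / M < dist A Q ∧ dist A Q < r ∧
      r / M < infDist A (frontier Ω)) ∧
    ∀ K : ℝ, 0 < K → ∃ N : ℕ, ∀ ε : ℝ, 0 < ε → ∀ X ∈ Ω, ∀ Y ∈ Ω,
      ε < infDist X (frontier Ω) → ε < infDist Y (frontier Ω) → dist X Y < K * ε →
      ∃ (m : ℕ) (c : ℕ → EE n) (ρ : ℕ → ℝ), m ≤ N ∧ (∀ i ≤ m, NTBall Ω M (c i) (ρ i)) ∧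
        X ∈ ball (c 0) (ρ 0) ∧ Y ∈ ball (c m) (ρ m) ∧
        ∀ i < m, (ball (c i) (ρ i) ∩ ball (c (i + 1)) (ρ (i + 1))).Nonempty

/-- `u` is a bounded solution of the Dirichlet problem in `Ω` with boundary values `f` -/
structure IsDir {n : ℕ} (Ω : Set (EE n)) (f u : EE n → ℝ) : Prop where
  cont : ContinuousOn u (closure Ω)
  harm : HarmonicOnNhd u Ω
  bdd : ∃ M : ℝ, ∀ x ∈ Ω, |u x| ≤ M
  eq : ∀ x ∈ frontier Ω, u x = f x

/-- `ω` is the harmonic measure of `Ω` with pole `A` -/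
structure IsHarmonicMeasure {n : ℕ} (Ω : Set (EE n)) (A : EE n) (ω : Measure (EE n)) : Prop where
  prob : IsProbabilityMeasure ω
  supp : ω (frontier Ω)ᶜ = 0
  exist : ∀ f : EE n → ℝ, Continuous f → (∃ M : ℝ, ∀ x, |f x| ≤ M) → ∃ u, IsDir Ω f u
  eq : ∀ f u : EE n → ℝ, Continuous f → (∃ M : ℝ, ∀ x, |f x| ≤ M) → IsDir Ω f u →
    u A = ∫ x, f x ∂ω

/-- the two measures are mutually absolutely continuous and the density has a continuous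
logarithm on `S` -/
def LogContDensity {n : ℕ} (S : Set (EE n)) (ωp ωm : Measure (EE n)) : Prop :=
  ωp ≪ ωm ∧ ωm ≪ ωp ∧ ∃ h : EE n → ℝ, (∀ x ∈ S, 0 < h x) ∧
    ContinuousOn (fun x => Real.log (h x)) S ∧ ωm = ωp.withDensity (fun x => ENNReal.ofReal (h x))

/-- convergence of sets in the Attouch-Wets topology -/
def AWTendsto {n : ℕ} (S : ℕ → Set (EE n)) (T : Set (EE n)) : Prop :=
  ∀ R : ℝ, 0 < R → ∀ η : ℝ, 0 < η → ∀ᶠ i in atTop,
    (∀ x ∈ S i, ‖x‖ ≤ R → ∃ y ∈ T, dist x y < η) ∧ (∀ y ∈ T, ‖y‖ ≤ R → ∃ x ∈ S i, dist x y < η)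

/-- the tangent sets (blow-ups) of `S` at `Q` -/
def Tan {n : ℕ} (S : Set (EE n)) (Q : EE n) : Set (Set (EE n)) :=
  {T | IsClosed T ∧ ∃ r : ℕ → ℝ, (∀ i, 0 < r i) ∧ StrictAnti r ∧ Tendsto r atTop (𝓝 0) ∧
    AWTendsto (fun i => {y | Q + r i • y ∈ S}) T}

/-- the Grassmannian of hyperplanes through the origin -/
def Hyp (n : ℕ) := {H : Submodule ℝ (EE n) // Module.finrank ℝ H + 1 = n}

/-- its topology, given by the distance of the orthogonal projections -/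
noncomputable instance {n : ℕ} : TopologicalSpace (Hyp n) :=
  TopologicalSpace.induced (fun H : Hyp n => H.1.starProjection) inferInstance

/-! ### Tools -/

/-- the radial weights -/
noncomputable def wt {n : ℕ} (k : ℕ) (y : EE n) : ℝ := (max 0 (1 - ‖y‖ ^ 2)) ^ k

/-- continuous subharmonic functions -/
def SubH {n : ℕ} (v : EE n → ℝ) (Ω : Set (EE n)) : Prop :=
  ContinuousOn v Ω ∧ ∀ (c : EE n) (r : ℝ), 0 < r → closedBall c r ⊆ Ω → ∀ h : EE n → ℝ,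
    ContinuousOn h (closedBall c r) → HarmonicOnNhd h (ball c r) →
    (∀ x ∈ sphere c r, v x ≤ h x) → ∀ x ∈ closedBall c r, v x ≤ h x

/-- the upper limit of `v` at `ζ` from `D` is at most `b` -/
def BdLe {n : ℕ} (D : Set (EE n)) (v : EE n → ℝ) (b : ℝ) (ζ : EE n) : Prop :=
  ∀ η : ℝ, 0 < η → ∀ᶠ x in 𝓝[D] ζ, v x ≤ b + η

/-- the class of Perron subsolutions -/
def PClass {n : ℕ} (Ω : Set (EE n)) (f : EE n → ℝ) (M : ℝ) : Set (EE n → ℝ) :=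
  {v | SubH v Ω ∧ (∀ x ∈ Ω, v x ≤ M) ∧ ∀ ζ ∈ frontier Ω, BdLe Ω v (f ζ) ζ}

/-- a ball of radius `c * r` in `ball z r` disjoint from `D` -/
def ExtAt {n : ℕ} (c : ℝ) (D : Set (EE n)) (z : EE n) (r : ℝ) : Prop :=
  ∃ a : EE n, closedBall a (c * r) ⊆ ball z r ∧ Disjoint (closedBall a (c * r)) D

/-- the profile of the regularised Newtonian kernel, as a function of the squared norm -/
noncomputable def gK (n : ℕ) (s : ℝ) : ℝ :=
  if s ≤ 1 then (1 - s) + n / 4 * (1 - s) ^ 2 else -∫ t in (1 : ℝ)..s, t ^ (-(n : ℝ) / 2)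

/-- the regularised Newtonian kernel -/
noncomputable def KK {n : ℕ} (x : EE n) : ℝ := gK n (‖x‖ ^ 2)

/-- the potential of the bump at `A` in `Ω`, with zero boundary values -/
structure GreenPot {n : ℕ} (Ω : Set (EE n)) (A : EE n) (G : EE n → ℝ) : Prop where
  cont : Continuous G
  zero : ∀ x, x ∉ Ω → G x = 0
  pos : ∀ x ∈ Ω, 0 < G x
  diff : ∀ x ∈ Ω, ContDiffAt ℝ 2 G x
  lap : ∀ x ∈ Ω, Δ G x = -max 0 (1 - ‖x - A‖ ^ 2)
  vanish : ∀ η : ℝ, 0 < η → ∃ R : ℝ, ∀ x, R ≤ ‖x‖ → G x ≤ η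

/-- `u` is nonnegative in `ball z r`, harmonic in `Ω` and zero outside -/
structure LocPos {n : ℕ} (Ω : Set (EE n)) (u : EE n → ℝ) (z : EE n) (r : ℝ) : Prop where
  cont : ContinuousOn u (ball z r)
  nonneg : ∀ x ∈ ball z r, 0 ≤ u x
  zero : ∀ x ∈ ball z r, x ∉ Ω → u x = 0
  harm : HarmonicOnNhd u (Ω ∩ ball z r)

/-- in `ball z r` the set `Ω` is squeezed between two half spaces with normal `e` -/
structure Flat {n : ℕ} (Ω : Set (EE n)) (z : EE n) (r : ℝ) (e : EE n) (θ : ℝ) : Prop where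
  unit : ‖e‖ = 1
  inn : ∀ x ∈ ball z r, θ * r < ⟪x - z, e⟫ → x ∈ Ω
  out : ∀ x ∈ ball z r, x ∈ Ω → -(θ * r) < ⟪x - z, e⟫

/-- the universal flatness constant -/
noncomputable def th0 : ℝ := 1 / 10000

/-- flatness at all boundary points and scales -/
def AllFlat {n : ℕ} (Ω : Set (EE n)) (θ : ℝ) : Prop :=
  ∀ z ∈ frontier Ω, ∀ r : ℝ, 0 < r → ∃ e, Flat Ω z r e θ

/-- linear profiles in `ball z (r / 8)` -/
structure Prof {n : ℕ} (Ω : Set (EE n)) (u : EE n → ℝ) (z : EE n) (r : ℝ) (e : EE n)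
    (θ α β : ℝ) : Prop where
  lower : ∀ x ∈ ball z (r / 8), θ * r < ⟪x - z, e⟫ → α * (⟪x - z, e⟫ - θ * r) ≤ u x
  upper : ∀ x ∈ ball z (r / 8), x ∈ Ω → u x ≤ β * (⟪x - z, e⟫ + θ * r)

/-- the geometric properties of the domains of the construction -/
structure GoodDom {n : ℕ} (Ω : Set (EE n)) (ν : EE n → EE n) (d : ℝ → EE n) (ε : ℝ → ℝ)
    (P : EE n) : Prop where
  isOpen : IsOpen Ω
  preconn : IsPreconnected Ω
  disj : ∀ x ∈ Ω, -x ∉ Ω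
  front : ∀ x, x ∈ frontier Ω ↔ x ∉ Ω ∧ -x ∉ Ω
  zero_mem : (0 : EE n) ∈ frontier Ω
  allFlat : AllFlat Ω th0
  eps_nonneg : ∀ r, 0 ≤ ε r
  eps_le : ∀ r, ε r ≤ th0
  eps_tendsto : Tendsto ε (𝓝[>] 0) (𝓝 0)
  flat_zero : ∀ r : ℝ, 0 < r → Flat Ω 0 r (d r) (ε r)
  flat_at : ∀ z ∈ frontier Ω, z ≠ 0 → ∀ r : ℝ, 0 < r → r ≤ ‖z‖ / 2 →
    Flat Ω z r (ν z) (ε ‖z‖ * (r / ‖z‖))
  nu_cont : ContinuousOn ν (frontier Ω \ {0})
  nu_neg : ∀ z, ν (-z) = ν z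
  half : ∀ x, 1 ≤ ‖x‖ → (x ∈ Ω ↔ 0 < ⟪x, P⟫)
  unit : ‖P‖ = 1

/-- what is known about the behaviour at the boundary of a positive solution -/
structure BdryExp {n : ℕ} (Ω : Set (EE n)) (ν : EE n → EE n) (u k : EE n → ℝ) : Prop where
  pos : ∀ z ∈ frontier Ω, z ≠ 0 → 0 < k z
  cont : ContinuousOn k (frontier Ω \ {0})
  exp : ∀ K : Set (EE n), K ⊆ frontier Ω \ {0} → IsCompact K → ∀ η : ℝ, 0 < η →
    ∃ r₀ : ℝ, 0 < r₀ ∧ ∀ z ∈ K, ∀ x ∈ ball z r₀,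
      |u x - k z * max 0 ⟪x - z, ν z⟫| ≤ η * ‖x - z‖
  ratio : ∀ η : ℝ, 0 < η → ∃ s : ℝ, 0 < s ∧ ∀ z ∈ frontier Ω, z ≠ 0 → ‖z‖ < s →
    |k (-z) / k z - 1| ≤ η

/-- the defining function of the domains -/
noncomputable def Ff {n : ℕ} (e : ℝ → EE n) (x : EE n) : ℝ := ⟪x, e (-Real.log ‖x‖)⟫

/-- the domains of the construction -/
def Dom {n : ℕ} (e : ℝ → EE n) : Set (EE n) := {x | 0 < Ff e x}

/-- what is required of the curve of normals -/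
structure GoodCurve {n : ℕ} (e : ℝ → EE n) (δ : ℝ → ℝ) (P : EE n) : Prop where
  smooth : ContDiff ℝ 2 e
  unit : ∀ t, ‖e t‖ = 1
  start : ∀ t ≤ 0, e t = P
  nonneg : ∀ t, 0 ≤ δ t
  anti : Antitone δ
  small : ∀ t, δ t ≤ 1 / 100000000
  tendsto : Tendsto δ atTop (𝓝 0)
  deriv1 : ∀ t, ‖deriv e t‖ ≤ δ t
  deriv2 : ∀ t, ‖deriv (deriv e) t‖ ≤ δ t

end Pool.Agent.Lib.MP_47b33c_an
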