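import Pool.Agent.Lib.MP_47b33c_an.Defs
import Pool.Agent.Lib.MP_47b33c_an.Sub
import Pool.Agent.Lib.MP_47b33c_an.Perron
import Pool.Agent.Lib.MP_47b33c_an.Decay
import Pool.Agent.Lib.MP_47b33c_an.Barrier

/-!
# The Dirichlet problem (task B7)
-/

set_option autoImplicit false

open MeasureTheory Metric Set Filter Topology InnerProductSpace
open scoped RealInnerProductSpace Laplacian

namespace Pool.Agent.Lib.MP_47b33c_an

variable {n : ℕ}

/-- comparison of the Perron solution with the barrier -/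
private theorem b7_compare (hn : 2 ≤ n) {Ω : Set (EE n)} (hΩ : IsOpen Ω) {c : ℝ} (hc : 0 < c)
    (hext : ∀ z ∈ frontier Ω, ∀ r : ℝ, 0 < r → ExtAt c Ω z r) {f : EE n → ℝ}
    (hf : Continuous f) {M : ℝ} (hM : ∀ x, |f x| ≤ M) {u : EE n → ℝ}
    (hu : ∀ x ∈ Ω, IsLUB {y | ∃ v ∈ PClass Ω f M, v x = y} (u x)) {ζ : EE n}
    (hζ : ζ ∈ frontier Ω) {η : ℝ} (hη : 0 < η) :
    ∃ (b : EE n → ℝ) (K : ℝ), 0 ≤ K ∧ BdLe Ω b 0 ζ ∧
      ∀ x ∈ Ω, u x ≤ f ζ + η + K * b x ∧ f ζ - η - K * b x ≤ u x := by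
  have hM0 : 0 ≤ M := (abs_nonneg _).trans (hM 0)
  obtain ⟨b, hbs, hb0, hb1, hbζ, hbm⟩ := barrier hn hΩ hc hζ (hext ζ hζ)
  -- the radius
  obtain ⟨ρ, hρ, hρf⟩ : ∃ ρ : ℝ, 0 < ρ ∧ ∀ x, dist x ζ < 2 * ρ → |f x - f ζ| ≤ η := by
    obtain ⟨δ, hδ, h1⟩ := Metric.continuousAt_iff.1 (hf.continuousAt (x := ζ)) η hη
    refine ⟨δ / 2, by positivity, fun x hx => ?_⟩
    have h2 := h1 (show dist x ζ < δ by linarith)
    rw [Real.dist_eq] at h2
    exact h2.le
  obtain ⟨m, hm, hmb⟩ := hbm ρ hρ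
  have hK0 : 0 ≤ 2 * M / m := by positivity
  have hKm : 2 * M / m * m = 2 * M := by field_simp
  refine ⟨b, 2 * M / m, hK0, hbζ, ?_⟩
  -- far points
  have hfar : ∀ ξ : EE n, 2 * ρ ≤ dist ξ ζ → ∀ᶠ x in 𝓝[Ω] ξ, 2 * M ≤ 2 * M / m * b x := by
    intro ξ hξ
    have h1 : ∀ᶠ x in 𝓝 ξ, ρ < dist x ζ := by
      have h2 : ContinuousAt (fun x => dist x ζ) ξ := by fun_prop
      exact h2.eventually (lt_mem_nhds (show ρ < dist ξ ζ by linarith))
    filter_upwards [h1.filter_mono nhdsWithin_le_nhds, self_mem_nhdsWithin] with x hx hxΩ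
    have h3 := hmb x hxΩ hx.le
    calc 2 * M = 2 * M / m * m := hKm.symm
      _ ≤ 2 * M / m * b x := mul_le_mul_of_nonneg_left h3 hK0
  -- upper bound for the elements of the class
  have hup : ∀ v ∈ PClass Ω f M, ∀ x ∈ Ω, v x ≤ f ζ + η + 2 * M / m * b x := by
    intro v hv x hx
    obtain ⟨hv1, hv2, hv3⟩ := hv
    have hsub : SubH (fun x => v x + (2 * M / m * (-b x) + -(f ζ + η))) Ω :=
      SubH.add hn hv1 (SubH.add hn (SubH.const_mul hn hbs hK0) (subH_const _ _ hn))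
    have hle := max_unbounded (r₀ := 0) hn hΩ hc ζ (fun r _ hr => hext ζ hζ r hr) hsub
      (M := 2 * M)
      (fun y hy => by
        have h1 := hv2 y hy
        have h2 := mul_nonneg hK0 (hb0 y hy)
        have h3 := (abs_le.1 (hM ζ)).1
        have h4 : 2 * M / m * (-b y) = -(2 * M / m * b y) := by ring
        rw [h4]
        linarith)
      (fun ξ hξ => by
        intro η' hη'
        have h1 := hv3 ξ hξ η' hη'
        by_cases hξρ : dist ξ ζ < 2 * ρ
        · filter_upwards [h1, self_mem_nhdsWithin] with y hy hyΩ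
          have h2 := (abs_le.1 (hρf ξ hξρ)).2
          have h3 := mul_nonneg hK0 (hb0 y hyΩ)
          have h4 : 2 * M / m * (-b y) = -(2 * M / m * b y) := by ring
          rw [h4]
          linarith
        · push Not at hξρ
          filter_upwards [hfar ξ hξρ, self_mem_nhdsWithin] with y hy hyΩ
          have h2 := hv2 y hyΩ
          have h3 := (abs_le.1 (hM ζ)).1
          have h4 : 2 * M / m * (-b y) = -(2 * M / m * b y) := by ring
          rw [h4]
          linarith) x hx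
    have h4 : 2 * M / m * (-b x) = -(2 * M / m * b x) := by ring
    rw [h4] at hle
    linarith
  -- the lower function is in the class
  have hlow : (fun x => 2 * M / m * (-b x) + (f ζ - η)) ∈ PClass Ω f M := by
    refine ⟨SubH.add hn (SubH.const_mul hn hbs hK0) (subH_const _ _ hn), fun y hy => ?_,
      fun ξ hξ => ?_⟩
    · have h2 := mul_nonneg hK0 (hb0 y hy)
      have h3 := (abs_le.1 (hM ζ)).2
      have h4 : 2 * M / m * (-b y) = -(2 * M / m * b y) := by ring
      simp only [h4]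
      linarith
    · intro η' hη'
      by_cases hξρ : dist ξ ζ < 2 * ρ
      · filter_upwards [self_mem_nhdsWithin] with y hyΩ
        have h2 := (abs_le.1 (hρf ξ hξρ)).1
        have h3 := mul_nonneg hK0 (hb0 y hyΩ)
        have h4 : 2 * M / m * (-b y) = -(2 * M / m * b y) := by ring
        simp only [h4]
        linarith
      · push Not at hξρ
        filter_upwards [hfar ξ hξρ] with y hy
        have h2 := (abs_le.1 (hM ξ)).1
        have h3 := (abs_le.1 (hM ζ)).2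
        have h4 : 2 * M / m * (-b y) = -(2 * M / m * b y) := by ring
        simp only [h4]
        linarith
  intro x hx
  constructor
  · refine (hu x hx).2 ?_
    rintro y ⟨v, hv, rfl⟩
    exact hup v hv x hx
  · have h1 := (hu x hx).1 ⟨_, hlow, rfl⟩
    have h4 : 2 * M / m * (-b x) = -(2 * M / m * b x) := by ring
    simp only [h4] at h1
    linarith

/-- the Dirichlet problem -/
theorem dirichlet (hn : 2 ≤ n) {Ω : Set (EE n)} (hΩ : IsOpen Ω) {c : ℝ} (hc : 0 < c)
    (hext : ∀ z ∈ frontier Ω, ∀ r : ℝ, 0 < r → ExtAt c Ω z r) (f : EE n → ℝ)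
    (hf : Continuous f) (M : ℝ) (hM : ∀ x, |f x| ≤ M) : ∃ u : EE n → ℝ,
      IsDir Ω f u ∧ ∀ x ∈ Ω, |u x| ≤ M := by
  classical
  have hM0 : 0 ≤ M := (abs_nonneg _).trans (hM 0)
  have h₀ : (fun _ => -M) ∈ PClass Ω f M := by
    refine ⟨subH_const _ _ hn, fun x _ => by linarith, fun ζ _ η hη => ?_⟩
    refine Eventually.of_forall fun x => ?_
    have := (abs_le.1 (hM ζ)).1
    linarith
  obtain ⟨u₀, hharm, hlub⟩ := perron hn hΩ f M _ h₀
  set u : EE n → ℝ := fun x => if x ∈ Ω then u₀ x else f x with hu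
  have huΩ : ∀ x ∈ Ω, u x = u₀ x := fun x hx => if_pos hx
  have huc : ∀ x, x ∉ Ω → u x = f x := fun x hx => if_neg hx
  have hharm' : HarmonicOnNhd u Ω := by
    intro x hx
    have h1 : u =ᶠ[𝓝 x] u₀ := by
      filter_upwards [hΩ.mem_nhds hx] with y hy
      exact huΩ y hy
    exact (harmonicAt_congr_nhds h1).2 (hharm x hx)
  have hbd : ∀ x ∈ Ω, |u x| ≤ M := by
    intro x hx
    rw [huΩ x hx, abs_le]
    constructor
    · exact (hlub x hx).1 ⟨_, h₀, rfl⟩
    · refine (hlub x hx).2 ?_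
      rintro y ⟨v, hv, rfl⟩
      exact hv.2.1 x hx
  have hfront : ∀ x ∈ frontier Ω, x ∉ Ω := by
    intro x hx
    rw [hΩ.frontier_eq] at hx
    exact hx.2
  refine ⟨u, ⟨?_, hharm', ⟨M, hbd⟩, fun x hx => huc x (hfront x hx)⟩, hbd⟩
  intro ζ hζ
  by_cases hζΩ : ζ ∈ Ω
  · exact (hharm' ζ hζΩ).1.continuousAt.continuousWithinAt
  · have hζf : ζ ∈ frontier Ω := by
      rw [hΩ.frontier_eq]
      exact ⟨hζ, hζΩ⟩
    refine ContinuousAt.continuousWithinAt ?_
    rw [Metric.continuousAt_iff']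
    intro η hη
    obtain ⟨b, K, hK0, hbζ, hcmp⟩ := b7_compare hn hΩ hc hext hf hM hlub hζf
      (show 0 < η / 3 by positivity)
    have h1 : ∀ᶠ x in 𝓝 ζ, x ∈ Ω → b x ≤ 0 + η / (3 * (K + 1)) :=
      eventually_nhdsWithin_iff.1 (hbζ (η / (3 * (K + 1))) (by positivity))
    have h2 : ∀ᶠ x in 𝓝 ζ, dist (f x) (f ζ) < η :=
      Metric.continuousAt_iff'.1 hf.continuousAt η hη
    filter_upwards [h1, h2] with x hx1 hx2
    rw [huc ζ hζΩ]
    by_cases hx : x ∈ Ω
    · rw [huΩ x hx, Real.dist_eq]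
      obtain ⟨h3, h4⟩ := hcmp x hx
      have h5 : K * b x ≤ η / 3 := by
        have h6 := mul_le_mul_of_nonneg_left (hx1 hx) hK0
        have h7 : K * (0 + η / (3 * (K + 1))) ≤ η / 3 := by
          rw [zero_add, ← mul_div_assoc, div_le_div_iff₀ (by positivity) (by norm_num)]
          nlinarith
        exact h6.trans h7
      rw [abs_lt]
      constructor <;> linarith
    · rw [huc x hx]
      exact hx2

end Pool.Agent.Lib.MP_47b33c_an
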