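import Pool.Agent.Lib.MP_47b33c_an.Rad
import Pool.Agent.Lib.MP_47b33c_an.Sub
import Pool.Agent.Lib.MP_47b33c_an.Decay

/-!
# Comparison of bounded solutions, reflection of harmonic measure
-/

set_option autoImplicit false

open MeasureTheory Metric Set Filter Topology InnerProductSpace
open scoped RealInnerProductSpace Laplacian

namespace Pool.Agent.Lib.MP_47b33c_an

variable {n : ℕ}

theorem dir_unique (hn : 2 ≤ n) {Ω : Set (EE n)} (hΩ : IsOpen Ω) {c : ℝ} (hc : 0 < c)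
    (hne : (frontier Ω).Nonempty) (hext : ∀ z ∈ frontier Ω, ∀ r : ℝ, 0 < r → ExtAt c Ω z r)
    {f g u v : EE n → ℝ} (hu : IsDir Ω f u) (hv : IsDir Ω g v)
    (hfg : ∀ x ∈ frontier Ω, f x ≤ g x) : ∀ x ∈ Ω, u x ≤ v x := by
  obtain ⟨z, hz⟩ := hne
  obtain ⟨M, hM⟩ := hu.bdd
  obtain ⟨M', hM'⟩ := hv.bdd
  have hsub : SubH (u - v) Ω := harmonic_subH hn (hu.harm.sub hv.harm)
  have hb : ∀ x ∈ Ω, (u - v) x ≤ M + M' := by
    intro x hx
    have h1 := abs_le.1 (hM x hx)
    have h2 := abs_le.1 (hM' x hx)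
    simp only [Pi.sub_apply]
    linarith [h1.2, h2.1]
  have hbd : ∀ ζ ∈ frontier Ω, BdLe Ω (u - v) 0 ζ := by
    intro ζ hζ η hη
    have h1 : ContinuousWithinAt (u - v) (closure Ω) ζ :=
      (hu.cont ζ hζ.1).sub (hv.cont ζ hζ.1)
    have h2 : (u - v) ζ < 0 + η := by
      simp only [Pi.sub_apply]
      rw [hu.eq ζ hζ, hv.eq ζ hζ]
      have := hfg ζ hζ
      linarith
    have h3 : ∀ᶠ x in 𝓝[closure Ω] ζ, (u - v) x < 0 + η := h1.eventually_lt_const h2
    filter_upwards [h3.filter_mono (nhdsWithin_mono ζ subset_closure)] with x hx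
    exact hx.le
  intro x hx
  have h := max_unbounded hn hΩ (r₀ := 0) hc z (fun r _ hr => hext z hz r hr) hsub hb hbd x hx
  simp only [Pi.sub_apply] at h
  linarith

private theorem c1_frontier (Ω : Set (EE n)) (x : EE n) :
    x ∈ frontier {x : EE n | -x ∈ Ω} ↔ -x ∈ frontier Ω := by
  have h := (Homeomorph.neg (EE n)).preimage_frontier Ω
  have h1 : {x : EE n | -x ∈ Ω} = (Homeomorph.neg (EE n)) ⁻¹' Ω := rfl
  rw [h1, ← h]
  rfl

private theorem c1_closure (Ω : Set (EE n)) (x : EE n) :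
    x ∈ closure {x : EE n | -x ∈ Ω} ↔ -x ∈ closure Ω := by
  have h := (Homeomorph.neg (EE n)).preimage_closure Ω
  have h1 : {x : EE n | -x ∈ Ω} = (Homeomorph.neg (EE n)) ⁻¹' Ω := rfl
  rw [h1, ← h]
  rfl

private theorem c1_isDir {Ω : Set (EE n)} {f u : EE n → ℝ} (h : IsDir Ω f u) :
    IsDir {x : EE n | -x ∈ Ω} (fun x => f (-x)) (fun x => u (-x)) where
  cont := by
    refine h.cont.comp (by fun_prop) ?_
    intro x hx
    exact (c1_closure Ω x).1 hx
  harm := harmonic_comp_neg h.harm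
  bdd := by
    obtain ⟨M, hM⟩ := h.bdd
    exact ⟨M, fun x hx => hM (-x) hx⟩
  eq := fun x hx => h.eq (-x) ((c1_frontier Ω x).1 hx)

private theorem c1_isDir' {Ω : Set (EE n)} {f u : EE n → ℝ}
    (h : IsDir {x : EE n | -x ∈ Ω} f u) : IsDir Ω (fun x => f (-x)) (fun x => u (-x)) := by
  have h1 := c1_isDir h
  have h2 : {x : EE n | -x ∈ {x : EE n | -x ∈ Ω}} = Ω := by
    ext x
    simp
  rwa [h2] at h1

theorem harmonicMeasure_neg {Ω : Set (EE n)} {A : EE n} {ω : Measure (EE n)}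
    (h : IsHarmonicMeasure Ω A ω) :
    IsHarmonicMeasure {x | -x ∈ Ω} (-A) (ω.map (fun x => -x)) := by
  have hprob := h.prob
  have hm : Measurable fun x : EE n => -x := measurable_neg
  refine ⟨Measure.isProbabilityMeasure_map hm.aemeasurable, ?_, ?_, ?_⟩
  · rw [Measure.map_apply hm isClosed_frontier.measurableSet.compl]
    have h1 : (fun x : EE n => -x) ⁻¹' (frontier {x : EE n | -x ∈ Ω})ᶜ = (frontier Ω)ᶜ := by
      ext x
      simp only [mem_preimage, mem_compl_iff]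
      rw [c1_frontier, neg_neg]
    rw [h1]
    exact h.supp
  · rintro f hf ⟨M, hM⟩
    obtain ⟨u, hu⟩ := h.exist (fun x => f (-x)) (by fun_prop) ⟨M, fun x => hM (-x)⟩
    refine ⟨fun x => u (-x), ?_⟩
    have h1 := c1_isDir hu
    simpa using h1
  · rintro f u hf ⟨M, hM⟩ hu
    have h1 := h.eq (fun x => f (-x)) (fun x => u (-x)) (by fun_prop) ⟨M, fun x => hM (-x)⟩
      (c1_isDir' hu)
    rw [integral_map hm.aemeasurable hf.aestronglyMeasurable]
    exact h1

end Pool.Agent.Lib.MP_47b33c_an
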