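import Pool.Agent.Lib.MP_47b33c_an.Defs

set_option autoImplicit false

open MeasureTheory Metric Set Filter Topology InnerProductSpace
open scoped RealInnerProductSpace Laplacian

namespace Pool.Agent.Lib.MP_47b33c_an

variable {n : ℕ}
variable {e : ℝ → EE n} {δ : ℝ → ℝ} {P : EE n}

/-- the gradient of the defining function -/
noncomputable def f6_g (e : ℝ → EE n) (z : EE n) : EE n :=
  e (-Real.log ‖z‖) - (⟪z, deriv e (-Real.log ‖z‖)⟫ / ‖z‖ ^ 2) • z

theorem f6_diff (h : GoodCurve e δ P) (t : ℝ) : HasDerivAt e (deriv e t) t :=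
  ((h.smooth.differentiable (by norm_num)) t).hasDerivAt

/-- rewriting with unit vectors -/
theorem f6_g_eq (e : ℝ → EE n) (z : EE n) :
    f6_g e z = e (-Real.log ‖z‖) -
      ⟪‖z‖⁻¹ • z, deriv e (-Real.log ‖z‖)⟫ • (‖z‖⁻¹ • z) := by
  unfold f6_g
  rw [real_inner_smul_left, smul_smul]
  congr 2
  field_simp

theorem f6_unit {z : EE n} (hz : z ≠ 0) : ‖(‖z‖⁻¹ • z : EE n)‖ = 1 := by
  rw [norm_smul, norm_inv, norm_norm, inv_mul_cancel₀ (norm_ne_zero_iff.2 hz)]

theorem f6_g_sub (h : GoodCurve e δ P) {z : EE n} (hz : z ≠ 0) :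
    ‖f6_g e z - e (-Real.log ‖z‖)‖ ≤ 1 / 100000000 := by
  rw [f6_g_eq, sub_sub_cancel_left, norm_neg, norm_smul, f6_unit hz, mul_one]
  refine (norm_inner_le_norm _ _).trans ?_
  rw [f6_unit hz, one_mul]
  exact (h.deriv1 _).trans (h.small _)

theorem f6_g_norm (h : GoodCurve e δ P) {z : EE n} (hz : z ≠ 0) : 1 / 2 ≤ ‖f6_g e z‖ := by
  have h1 := f6_g_sub h hz
  have h2 := h.unit (-Real.log ‖z‖)
  have h3 : ‖e (-Real.log ‖z‖)‖ ≤ ‖f6_g e z‖ + ‖f6_g e z - e (-Real.log ‖z‖)‖ := by
    have := norm_sub_le (f6_g e z) (f6_g e z - e (-Real.log ‖z‖))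
    rwa [sub_sub_cancel] at this
  linarith

theorem f6_hasDeriv (h : GoodCurve e δ P) (z w : EE n) (t : ℝ) (hne : z + t • w ≠ 0) :
    HasDerivAt (fun t : ℝ => Ff e (z + t • w)) ⟪w, f6_g e (z + t • w)⟫ t := by
  have g1 : HasDerivAt (fun t : ℝ => z + t • w) w t := by
    simpa using ((hasDerivAt_id t).smul_const w).const_add z
  have g2 : HasDerivAt (fun t : ℝ => ‖z + t • w‖ ^ 2) (2 * ⟪z + t • w, w⟫) t := g1.norm_sq
  have hpos : 0 < ‖z + t • w‖ := norm_pos_iff.2 hne
  have hne2 : ‖z + t • w‖ ^ 2 ≠ 0 := by positivity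
  have g3 : HasDerivAt (fun t : ℝ => -Real.log ‖z + t • w‖)
      (-(⟪z + t • w, w⟫ / ‖z + t • w‖ ^ 2)) t := by
    have := (g2.log hne2).const_mul (-(1 / 2 : ℝ))
    have e1 : (fun t : ℝ => -Real.log ‖z + t • w‖) =
        fun y => -(1 / 2) * Real.log (‖z + y • w‖ ^ 2) := by
      funext s
      rw [Real.log_pow]; push_cast; ring
    have e2 : -(⟪z + t • w, w⟫ / ‖z + t • w‖ ^ 2) =
        -(1 / 2) * (2 * ⟪z + t • w, w⟫ / ‖z + t • w‖ ^ 2) := by ring
    rw [e1, e2]
    exact this
  have g4 : HasDerivAt (fun t : ℝ => e (-Real.log ‖z + t • w‖))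
      ((-(⟪z + t • w, w⟫ / ‖z + t • w‖ ^ 2)) • deriv e (-Real.log ‖z + t • w‖)) t :=
    (f6_diff h _).scomp t g3
  have g5 := g1.inner ℝ g4
  have e3 : ⟪w, f6_g e (z + t • w)⟫ =
      ⟪z + t • w, (-(⟪z + t • w, w⟫ / ‖z + t • w‖ ^ 2)) • deriv e (-Real.log ‖z + t • w‖)⟫ +
        ⟪w, e (-Real.log ‖z + t • w‖)⟫ := by
    unfold f6_g
    rw [inner_sub_right, inner_smul_right, inner_smul_right, real_inner_comm w (z + t • w)]
    ring
  rw [e3]
  exact g5

theorem Ff_neg (e : ℝ → EE n) (x : EE n) : Ff e (-x) = -Ff e x := by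
  unfold Ff
  rw [norm_neg, inner_neg_left]

theorem f6_abs_le (h : GoodCurve e δ P) (x : EE n) : ‖Ff e x‖ ≤ ‖x‖ := by
  unfold Ff
  refine (norm_inner_le_norm _ _).trans ?_
  rw [h.unit, mul_one]

theorem Ff_continuous (h : GoodCurve e δ P) : Continuous (Ff e) := by
  rw [continuous_iff_continuousAt]
  intro x
  by_cases hx : x = 0
  · subst hx
    have h0 : Ff e (0 : EE n) = 0 := by unfold Ff; rw [inner_zero_left]
    rw [ContinuousAt, h0]
    refine squeeze_zero_norm (f6_abs_le h) ?_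
    have := (continuous_norm (E := EE n)).tendsto 0
    rwa [norm_zero] at this
  · have hlog : ContinuousAt (fun z : EE n => -Real.log ‖z‖) x :=
      (ContinuousAt.log continuous_norm.continuousAt (norm_ne_zero_iff.2 hx)).neg
    have he : ContinuousAt (fun z : EE n => e (-Real.log ‖z‖)) x :=
      h.smooth.continuous.continuousAt.comp_of_eq hlog rfl
    have hid : ContinuousAt (fun z : EE n => z) x := continuousAt_id
    exact hid.inner he

theorem dom_isOpen (h : GoodCurve e δ P) : IsOpen (Dom e) :=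
  isOpen_lt continuous_const (Ff_continuous h)

theorem f6_mem_closure (h : GoodCurve e δ P) {x : EE n} (hx : Ff e x = 0) :
    x ∈ closure (Dom e) := by
  by_cases h0 : x = 0
  · subst h0
    refine mem_closure_of_tendsto (f := fun t : ℝ => t • e (-Real.log t)) (b := 𝓝[>] 0) ?_ ?_
    · refine squeeze_zero_norm' (a := fun t : ℝ => t) ?_ ?_
      · filter_upwards [self_mem_nhdsWithin] with t ht
        rw [norm_smul, h.unit, mul_one, Real.norm_eq_abs, abs_of_pos ht]
      · exact tendsto_id.mono_left nhdsWithin_le_nhds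
    · filter_upwards [self_mem_nhdsWithin] with t ht
      have ht' : 0 < t := ht
      change 0 < Ff e (t • e (-Real.log t))
      unfold Ff
      rw [norm_smul, h.unit, mul_one, Real.norm_eq_abs, abs_of_pos ht', real_inner_smul_left,
        real_inner_self_eq_norm_sq, h.unit]
      simpa using ht'
  · have hne : x + (0 : ℝ) • f6_g e x ≠ 0 := by simpa using h0
    have hd := f6_hasDeriv h x (f6_g e x) 0 hne
    rw [zero_smul, add_zero, real_inner_self_eq_norm_sq] at hd
    have hg := f6_g_norm h h0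
    have hpos : 0 < ‖f6_g e x‖ ^ 2 := by positivity
    have hs := eventually_nhdsWithin_sign_eq_of_deriv_pos (f := fun t : ℝ => Ff e (x + t • f6_g e x))
      (x₀ := 0) (by rw [hd.deriv]; exact hpos) (by simpa using hx)
    refine mem_closure_of_tendsto (f := fun t : ℝ => x + t • f6_g e x) (b := 𝓝[>] 0) ?_ ?_
    · have : Tendsto (fun t : ℝ => x + t • f6_g e x) (𝓝 0) (𝓝 (x + (0 : ℝ) • f6_g e x)) := by
        apply Continuous.tendsto
        fun_prop
      rw [zero_smul, add_zero] at this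
      exact this.mono_left nhdsWithin_le_nhds
    · filter_upwards [self_mem_nhdsWithin, nhdsWithin_le_nhds hs] with t ht hst
      have ht' : 0 < t := ht
      rw [sub_zero, sign_pos ht'] at hst
      exact sign_eq_one_iff.1 hst

/-- the boundary is the zero set -/
theorem dom_frontier (hn : 2 ≤ n) (h : GoodCurve e δ P) : frontier (Dom e) = {x | Ff e x = 0} := by
  have _ := hn
  apply Subset.antisymm
  · intro x hx
    have := frontier_lt_subset_eq continuous_const (Ff_continuous h) hx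
    exact (mem_ofPred_eq ▸ this).symm
  · intro x hx
    rw [mem_ofPred_eq] at hx
    rw [(dom_isOpen h).frontier_eq]
    refine ⟨f6_mem_closure h hx, ?_⟩
    intro h1
    have : 0 < Ff e x := h1
    linarith

theorem dom_closure_compl (hn : 2 ≤ n) (h : GoodCurve e δ P) :
    (closure (Dom e))ᶜ = {x | -x ∈ Dom e} := by
  have _ := hn
  ext x
  rw [mem_compl_iff, mem_ofPred_eq]
  change x ∉ closure (Dom e) ↔ 0 < Ff e (-x)
  rw [Ff_neg]
  constructor
  · intro h1
    by_contra h2
    push Not at h2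
    rcases eq_or_lt_of_le h2 with h3 | h3
    · exact h1 (f6_mem_closure h (by linarith))
    · exact h1 (subset_closure (show 0 < Ff e x by linarith))
  · intro h1 h2
    have : x ∈ {x | 0 ≤ Ff e x} :=
      closure_minimal (fun y hy => le_of_lt hy) (isClosed_le continuous_const (Ff_continuous h)) h2
    rw [mem_ofPred_eq] at this
    linarith

end Pool.Agent.Lib.MP_47b33c_an
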