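import Pool.Agent.Lib.MP_47b33c_an.DomA

set_option autoImplicit false

open MeasureTheory Metric Set Filter Topology InnerProductSpace
open scoped RealInnerProductSpace Laplacian

namespace Pool.Agent.Lib.MP_47b33c_an

variable {n : ℕ}
variable {e : ℝ → EE n} {δ : ℝ → ℝ} {P : EE n}

/-- the gradient of the defining function -/
noncomputable def f8_g (e : ℝ → EE n) (z : EE n) : EE n :=
  e (-Real.log ‖z‖) - (⟪z, deriv e (-Real.log ‖z‖)⟫ / ‖z‖ ^ 2) • z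

theorem f8_diff (h : GoodCurve e δ P) (t : ℝ) : HasDerivAt e (deriv e t) t :=
  ((h.smooth.differentiable (by norm_num)) t).hasDerivAt

theorem f8_diff2 (h : GoodCurve e δ P) (t : ℝ) : HasDerivAt (deriv e) (deriv (deriv e) t) t := by
  have h1 : ContDiff ℝ 1 (deriv e) := by
    have h2 : ContDiff ℝ (1 + 1) e := by
      have := h.smooth
      rwa [show (2 : WithTop ℕ∞) = 1 + 1 by norm_num] at this
    exact (contDiff_succ_iff_deriv.1 h2).2.2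
  exact ((h1.differentiable (by norm_num)) t).hasDerivAt

theorem f8_lip_e (h : GoodCurve e δ P) {a s t : ℝ} (hs : a ≤ s) (ht : a ≤ t) :
    ‖e s - e t‖ ≤ δ a * |s - t| := by
  have := (convex_Ici a).norm_image_sub_le_of_norm_hasDerivWithin_le (f := e) (f' := deriv e)
    (C := δ a) (fun x _ => (f8_diff h x).hasDerivWithinAt)
    (fun x hx => (h.deriv1 x).trans (h.anti hx)) ht hs
  simpa [Real.norm_eq_abs] using this

theorem f8_lip_e' (h : GoodCurve e δ P) {a s t : ℝ} (hs : a ≤ s) (ht : a ≤ t) :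
    ‖deriv e s - deriv e t‖ ≤ δ a * |s - t| := by
  have := (convex_Ici a).norm_image_sub_le_of_norm_hasDerivWithin_le (f := deriv e)
    (f' := deriv (deriv e))
    (C := δ a) (fun x _ => (f8_diff2 h x).hasDerivWithinAt)
    (fun x hx => (h.deriv2 x).trans (h.anti hx)) ht hs
  simpa [Real.norm_eq_abs] using this

/-- rewriting with unit vectors -/
theorem f8_g_eq (e : ℝ → EE n) (z : EE n) :
    f8_g e z = e (-Real.log ‖z‖) -
      ⟪‖z‖⁻¹ • z, deriv e (-Real.log ‖z‖)⟫ • (‖z‖⁻¹ • z) := by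
  unfold f8_g
  rw [real_inner_smul_left, smul_smul]
  congr 2
  field_simp

theorem f8_unit {z : EE n} (hz : z ≠ 0) : ‖(‖z‖⁻¹ • z : EE n)‖ = 1 := by
  rw [norm_smul, norm_inv, norm_norm, inv_mul_cancel₀ (norm_ne_zero_iff.2 hz)]

theorem f8_g_sub (h : GoodCurve e δ P) {z : EE n} (hz : z ≠ 0) :
    ‖f8_g e z - e (-Real.log ‖z‖)‖ ≤ 1 / 100000000 := by
  rw [f8_g_eq, sub_sub_cancel_left, norm_neg, norm_smul, f8_unit hz, mul_one]
  refine (norm_inner_le_norm _ _).trans ?_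
  rw [f8_unit hz, one_mul]
  exact (h.deriv1 _).trans (h.small _)

theorem f8_g_norm (h : GoodCurve e δ P) {z : EE n} (hz : z ≠ 0) : 1 / 2 ≤ ‖f8_g e z‖ := by
  have h1 := f8_g_sub h hz
  have h2 := h.unit (-Real.log ‖z‖)
  have h3 : ‖e (-Real.log ‖z‖)‖ ≤ ‖f8_g e z‖ + ‖f8_g e z - e (-Real.log ‖z‖)‖ := by
    have := norm_sub_le (f8_g e z) (f8_g e z - e (-Real.log ‖z‖))
    rwa [sub_sub_cancel] at this
  linarith

theorem f8_unit_lip {y z : EE n} (hy : y ≠ 0) (hz : z ≠ 0) :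
    ‖(‖y‖⁻¹ • y : EE n) - ‖z‖⁻¹ • z‖ ≤ 2 * (‖y - z‖ / ‖z‖) := by
  have hz' : 0 < ‖z‖ := norm_pos_iff.2 hz
  have hy' : 0 < ‖y‖ := norm_pos_iff.2 hy
  have h1 : (‖y‖⁻¹ • y : EE n) - ‖z‖⁻¹ • z = (‖y‖⁻¹ - ‖z‖⁻¹) • y + ‖z‖⁻¹ • (y - z) := by
    rw [sub_smul, smul_sub]; abel
  rw [h1]
  refine (norm_add_le _ _).trans ?_
  rw [norm_smul, norm_smul, norm_inv, norm_norm]
  have h2 : ‖‖y‖⁻¹ - ‖z‖⁻¹‖ * ‖y‖ = |‖z‖ - ‖y‖| / ‖z‖ := by
    rw [inv_sub_inv hy'.ne' hz'.ne', Real.norm_eq_abs, abs_div, abs_of_pos (mul_pos hy' hz')]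
    field_simp
  rw [h2]
  have h3 : |‖z‖ - ‖y‖| ≤ ‖y - z‖ := by
    rw [norm_sub_rev y z]; exact abs_norm_sub_norm_le z y
  have h4 : |‖z‖ - ‖y‖| / ‖z‖ ≤ ‖y - z‖ / ‖z‖ := by gcongr
  have h5 : ‖z‖⁻¹ * ‖y - z‖ = ‖y - z‖ / ‖z‖ := by field_simp
  linarith

theorem f8_log_lip {y z : EE n} (hz : z ≠ 0) (hyz : ‖y - z‖ ≤ ‖z‖ / 2) :
    |(-Real.log ‖y‖) - (-Real.log ‖z‖)| ≤ 2 * (‖y - z‖ / ‖z‖) := by
  have hz' : 0 < ‖z‖ := norm_pos_iff.2 hz
  have h3 : |‖y‖ - ‖z‖| ≤ ‖y - z‖ := abs_norm_sub_norm_le y z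
  have h4 := abs_le.1 h3
  have hy2 : ‖z‖ / 2 ≤ ‖y‖ := by linarith [h4.1]
  have hy' : 0 < ‖y‖ := by linarith
  have hd : 0 ≤ ‖y - z‖ := norm_nonneg _
  have e1 : (-Real.log ‖y‖) - (-Real.log ‖z‖) = Real.log (‖z‖ / ‖y‖) := by
    rw [Real.log_div hz'.ne' hy'.ne']; ring
  have e2 : (-Real.log ‖y‖) - (-Real.log ‖z‖) = -Real.log (‖y‖ / ‖z‖) := by
    rw [Real.log_div hy'.ne' hz'.ne']; ring
  have key : ‖y - z‖ / ‖y‖ ≤ 2 * (‖y - z‖ / ‖z‖) := by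
    rw [div_le_iff₀ hy']
    have : 2 * (‖y - z‖ / ‖z‖) * ‖y‖ = ‖y - z‖ * (2 * ‖y‖ / ‖z‖) := by ring
    rw [this]
    have : 1 ≤ 2 * ‖y‖ / ‖z‖ := by rw [le_div_iff₀ hz']; linarith
    nlinarith
  rw [abs_le]
  constructor
  · rw [e2]
    have := Real.log_le_sub_one_of_pos (div_pos hy' hz')
    have h5 : ‖y‖ / ‖z‖ - 1 = (‖y‖ - ‖z‖) / ‖z‖ := by field_simp
    have h6 : (‖y‖ - ‖z‖) / ‖z‖ ≤ ‖y - z‖ / ‖z‖ := by gcongr; exact h4.2
    have h7 : 0 ≤ ‖y - z‖ / ‖z‖ := by positivity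
    linarith
  · rw [e1]
    have := Real.log_le_sub_one_of_pos (div_pos hz' hy')
    have h5 : ‖z‖ / ‖y‖ - 1 = (‖z‖ - ‖y‖) / ‖y‖ := by field_simp
    have h6 : (‖z‖ - ‖y‖) / ‖y‖ ≤ ‖y - z‖ / ‖y‖ := by gcongr; linarith [h4.1]
    linarith

theorem f8_log_ge {y z : EE n} (hz : z ≠ 0) (hyz : ‖y - z‖ ≤ ‖z‖ / 2) :
    -Real.log ‖z‖ - 1 ≤ -Real.log ‖y‖ := by
  have h1 := f8_log_lip hz hyz
  have hz' : 0 < ‖z‖ := norm_pos_iff.2 hz
  have h2 : ‖y - z‖ / ‖z‖ ≤ 1 / 2 := by rw [div_le_iff₀ hz']; linarith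
  have h3 := (abs_le.1 h1).1
  linarith

theorem f8_g_lip (h : GoodCurve e δ P) {y z : EE n} (hz : z ≠ 0) (hyz : ‖y - z‖ ≤ ‖z‖ / 2) :
    ‖f8_g e y - f8_g e z‖ ≤ 8 * δ (-Real.log ‖z‖ - 1) * (‖y - z‖ / ‖z‖) := by
  have hz' : 0 < ‖z‖ := norm_pos_iff.2 hz
  have h4 := abs_le.1 (abs_norm_sub_norm_le y z)
  have hy' : 0 < ‖y‖ := by linarith [h4.1]
  have hy : y ≠ 0 := norm_pos_iff.1 hy'
  set D := δ (-Real.log ‖z‖ - 1) with hD
  have hD0 : 0 ≤ D := h.nonneg _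
  set t := ‖y - z‖ / ‖z‖ with ht
  have ht0 : 0 ≤ t := by positivity
  have hl := f8_log_lip hz hyz
  have hs1 := f8_log_ge hz hyz
  have hs2 : -Real.log ‖z‖ - 1 ≤ -Real.log ‖z‖ := by linarith
  have a1 : ‖e (-Real.log ‖y‖) - e (-Real.log ‖z‖)‖ ≤ D * (2 * t) :=
    (f8_lip_e h hs1 hs2).trans (by gcongr)
  have a2 : ‖deriv e (-Real.log ‖y‖) - deriv e (-Real.log ‖z‖)‖ ≤ D * (2 * t) :=
    (f8_lip_e' h hs1 hs2).trans (by gcongr)
  have a3 : ‖deriv e (-Real.log ‖y‖)‖ ≤ D := (h.deriv1 _).trans (h.anti hs1)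
  have a4 : ‖deriv e (-Real.log ‖z‖)‖ ≤ D := (h.deriv1 _).trans (h.anti hs2)
  have u1 := f8_unit hy
  have u2 := f8_unit hz
  have u3 := f8_unit_lip hy hz
  rw [f8_g_eq, f8_g_eq]
  generalize (‖y‖⁻¹ • y : EE n) = yh at *
  generalize (‖z‖⁻¹ • z : EE n) = zh at *
  generalize deriv e (-Real.log ‖y‖) = ey' at *
  generalize deriv e (-Real.log ‖z‖) = ez' at *
  generalize e (-Real.log ‖y‖) = ey at *
  generalize e (-Real.log ‖z‖) = ez at *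
  have hdec : (ey - ⟪yh, ey'⟫ • yh) - (ez - ⟪zh, ez'⟫ • zh) =
      (ey - ez) - (⟪yh - zh, ey'⟫ • yh + ⟪zh, ey' - ez'⟫ • yh + ⟪zh, ez'⟫ • (yh - zh)) := by
    rw [inner_sub_left, inner_sub_right, sub_smul, sub_smul, smul_sub]
    abel
  rw [hdec]
  have b1 : ‖⟪yh - zh, ey'⟫ • yh‖ ≤ (2 * t) * D := by
    rw [norm_smul, u1, mul_one]
    refine (norm_inner_le_norm _ _).trans ?_
    gcongr
  have b2 : ‖⟪zh, ey' - ez'⟫ • yh‖ ≤ D * (2 * t) := by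
    rw [norm_smul, u1, mul_one]
    refine (norm_inner_le_norm _ _).trans ?_
    rw [u2, one_mul]; exact a2
  have b3 : ‖⟪zh, ez'⟫ • (yh - zh)‖ ≤ D * (2 * t) := by
    rw [norm_smul]
    have : ‖⟪zh, ez'⟫‖ ≤ D := by
      refine (norm_inner_le_norm _ _).trans ?_
      rw [u2, one_mul]; exact a4
    gcongr
  have c1 := norm_sub_le (ey - ez)
    (⟪yh - zh, ey'⟫ • yh + ⟪zh, ey' - ez'⟫ • yh + ⟪zh, ez'⟫ • (yh - zh))
  have c2 := norm_add_le (⟪yh - zh, ey'⟫ • yh + ⟪zh, ey' - ez'⟫ • yh) (⟪zh, ez'⟫ • (yh - zh))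
  have c3 := norm_add_le (⟪yh - zh, ey'⟫ • yh) (⟪zh, ey' - ez'⟫ • yh)
  nlinarith

theorem f8_hasDeriv (h : GoodCurve e δ P) (z w : EE n) (t : ℝ) (hne : z + t • w ≠ 0) :
    HasDerivAt (fun t : ℝ => Ff e (z + t • w)) ⟪w, f8_g e (z + t • w)⟫ t := by
  have g1 : HasDerivAt (fun t : ℝ => z + t • w) w t := by
    simpa using ((hasDerivAt_id t).smul_const w).const_add z
  have g2 : HasDerivAt (fun t : ℝ => ‖z + t • w‖ ^ 2) (2 * ⟪z + t • w, w⟫) t := g1.norm_sq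
  have hpos : 0 < ‖z + t • w‖ := norm_pos_iff.2 hne
  have hne2 : ‖z + t • w‖ ^ 2 ≠ 0 := by positivity
  have g3 : HasDerivAt (fun t : ℝ => -Real.log ‖z + t • w‖)
      (-(⟪z + t • w, w⟫ / ‖z + t • w‖ ^ 2)) t := by
    have := (g2.log hne2).const_mul (-(1 / 2 : ℝ))
    have e1 : (fun t : ℝ => -Real.log ‖z + t • w‖) =
        fun y => -(1 / 2) * Real.log (‖z + y • w‖ ^ 2) := by
      funext s
      rw [Real.log_pow]; push_cast; ring
    have e2 : -(⟪z + t • w, w⟫ / ‖z + t • w‖ ^ 2) =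
        -(1 / 2) * (2 * ⟪z + t • w, w⟫ / ‖z + t • w‖ ^ 2) := by ring
    rw [e1, e2]
    exact this
  have g4 : HasDerivAt (fun t : ℝ => e (-Real.log ‖z + t • w‖))
      ((-(⟪z + t • w, w⟫ / ‖z + t • w‖ ^ 2)) • deriv e (-Real.log ‖z + t • w‖)) t :=
    (f8_diff h _).scomp t g3
  have g5 := g1.inner ℝ g4
  have e3 : ⟪w, f8_g e (z + t • w)⟫ =
      ⟪z + t • w, (-(⟪z + t • w, w⟫ / ‖z + t • w‖ ^ 2)) • deriv e (-Real.log ‖z + t • w‖)⟫ +
        ⟪w, e (-Real.log ‖z + t • w‖)⟫ := by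
    unfold f8_g
    rw [inner_sub_right, inner_smul_right, inner_smul_right, real_inner_comm w (z + t • w)]
    ring
  rw [e3]
  exact g5

theorem f8_taylor (h : GoodCurve e δ P) {x z : EE n} (hz : z ≠ 0) (hxz : ‖x - z‖ ≤ ‖z‖ / 2) :
    |Ff e x - Ff e z - ⟪x - z, f8_g e z⟫| ≤
      8 * δ (-Real.log ‖z‖ - 1) * (‖x - z‖ / ‖z‖) * ‖x - z‖ := by
  have hz' : 0 < ‖z‖ := norm_pos_iff.2 hz
  set w := x - z with hw
  set K := 8 * δ (-Real.log ‖z‖ - 1) * (‖w‖ / ‖z‖) * ‖w‖ with hK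
  have hD0 : 0 ≤ δ (-Real.log ‖z‖ - 1) := h.nonneg _
  have hin : ∀ t ∈ Icc (0 : ℝ) 1, ‖(z + t • w) - z‖ ≤ ‖w‖ := by
    intro t ht
    rw [add_sub_cancel_left, norm_smul, Real.norm_eq_abs, abs_of_nonneg ht.1]
    have := norm_nonneg w
    nlinarith [ht.2]
  have hne : ∀ t ∈ Icc (0 : ℝ) 1, z + t • w ≠ 0 := by
    intro t ht h0
    have h1 := hin t ht
    rw [h0, zero_sub, norm_neg] at h1
    linarith
  have hd : ∀ t ∈ Icc (0 : ℝ) 1, HasDerivWithinAt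
      (fun t : ℝ => Ff e (z + t • w) - t * ⟪w, f8_g e z⟫)
      (⟪w, f8_g e (z + t • w)⟫ - ⟪w, f8_g e z⟫) (Icc 0 1) t := by
    intro t ht
    have h1 := f8_hasDeriv h z w t (hne t ht)
    have h2 : HasDerivAt (fun t : ℝ => t * ⟪w, f8_g e z⟫) (1 * ⟪w, f8_g e z⟫) t :=
      (hasDerivAt_id t).mul_const _
    rw [one_mul] at h2
    exact (h1.sub h2).hasDerivWithinAt
  have hb : ∀ t ∈ Icc (0 : ℝ) 1, ‖⟪w, f8_g e (z + t • w)⟫ - ⟪w, f8_g e z⟫‖ ≤ K := by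
    intro t ht
    rw [← inner_sub_right]
    refine (norm_inner_le_norm _ _).trans ?_
    have h1 := f8_g_lip h hz ((hin t ht).trans hxz)
    have h2 : ‖f8_g e (z + t • w) - f8_g e z‖ ≤ 8 * δ (-Real.log ‖z‖ - 1) * (‖w‖ / ‖z‖) := by
      refine h1.trans ?_
      have := hin t ht
      gcongr
    rw [hK, mul_comm]
    gcongr
  have := (convex_Icc (0 : ℝ) 1).norm_image_sub_le_of_norm_hasDerivWithin_le hd hb
    (left_mem_Icc.2 zero_le_one) (right_mem_Icc.2 zero_le_one)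
  simp only [one_smul, zero_smul, add_zero, one_mul, zero_mul, sub_zero, norm_one, mul_one,
    Real.norm_eq_abs] at this
  rw [hw, add_sub_cancel] at this
  rw [← hw] at this
  have e2 : Ff e x - Ff e z - ⟪w, f8_g e z⟫ = Ff e x - ⟪w, f8_g e z⟫ - Ff e z := by ring
  rw [e2]
  exact this

theorem f8_g_cont (h : GoodCurve e δ P) : ContinuousOn (f8_g e) ({0}ᶜ : Set (EE n)) := by
  have hlog : ContinuousOn (fun z : EE n => -Real.log ‖z‖) ({0}ᶜ : Set (EE n)) := by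
    refine ContinuousOn.neg (ContinuousOn.log continuous_norm.continuousOn ?_)
    intro z hz
    exact norm_ne_zero_iff.2 hz
  have hde : Continuous (deriv e) := by
    rw [continuous_iff_continuousAt]
    intro t
    exact (f8_diff2 h t).continuousAt
  unfold f8_g
  refine ContinuousOn.sub (h.smooth.continuous.comp_continuousOn hlog) ?_
  have hid : ContinuousOn (fun z : EE n => z) ({0}ᶜ : Set (EE n)) := continuousOn_id
  have i1 : ContinuousOn (fun z : EE n => ⟪z, deriv e (-Real.log ‖z‖)⟫) ({0}ᶜ : Set (EE n)) :=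
    hid.inner (hde.comp_continuousOn hlog)
  have i2 : ContinuousOn (fun z : EE n => ‖z‖ ^ 2) ({0}ᶜ : Set (EE n)) := by
    fun_prop
  refine ContinuousOn.smul (ContinuousOn.div i1 i2 ?_) hid
  intro z hz
  have := norm_ne_zero_iff.2 hz
  positivity

theorem f8_g_neg (e : ℝ → EE n) (z : EE n) : f8_g e (-z) = f8_g e z := by
  unfold f8_g
  rw [norm_neg, inner_neg_left, smul_neg, neg_div, neg_smul, neg_neg]

/-- flatness at small scales -/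
theorem dom_flat_small (hn : 2 ≤ n) (h : GoodCurve e δ P) : ∃ ν : EE n → EE n,
    ContinuousOn ν {0}ᶜ ∧ (∀ z, ν (-z) = ν z) ∧ ∀ z ∈ frontier (Dom e), z ≠ 0 → ∀ r : ℝ, 0 < r →
      r ≤ ‖z‖ / 2 → Flat (Dom e) z r (ν z) (10000 * δ (-Real.log ‖z‖ - 1) * (r / ‖z‖)) := by
  refine ⟨fun z => ‖f8_g e z‖⁻¹ • f8_g e z, ?_, ?_, ?_⟩
  · refine ContinuousOn.smul (ContinuousOn.inv₀ (f8_g_cont h).norm ?_) (f8_g_cont h)
    intro z hz
    have := f8_g_norm h hz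
    positivity
  · intro z
    simp only [f8_g_neg]
  · intro z hzf hz r hr hrz
    have hFz : Ff e z = 0 := by
      rw [dom_frontier hn h] at hzf; exact hzf
    have hz' : 0 < ‖z‖ := norm_pos_iff.2 hz
    have hD0 : 0 ≤ δ (-Real.log ‖z‖ - 1) := h.nonneg _
    have hg := f8_g_norm h hz
    have hgpos : 0 < ‖f8_g e z‖ := by linarith
    have key : ∀ x ∈ ball z r, |Ff e x - ⟪x - z, f8_g e z⟫| ≤
        8 * δ (-Real.log ‖z‖ - 1) * (r / ‖z‖) * r := by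
      intro x hx
      have hx' : ‖x - z‖ < r := by rwa [mem_ball, dist_eq_norm] at hx
      have h1 := f8_taylor h hz (hx'.le.trans hrz)
      rw [hFz, sub_zero] at h1
      refine h1.trans ?_
      gcongr
    have hE : 0 ≤ δ (-Real.log ‖z‖ - 1) * (r / ‖z‖) * r := by positivity
    have hin : ∀ x : EE n, ⟪x - z, ‖f8_g e z‖⁻¹ • f8_g e z⟫ * ‖f8_g e z‖ = ⟪x - z, f8_g e z⟫ := by
      intro x
      rw [inner_smul_right]
      field_simp
    refine ⟨?_, ?_, ?_⟩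
    · rw [norm_smul, norm_inv, norm_norm, inv_mul_cancel₀ hgpos.ne']
    · intro x hx hlt
      have h1 := abs_le.1 (key x hx)
      have h2 := hin x
      change 0 < Ff e x
      simp only at hlt
      generalize ⟪x - z, ‖f8_g e z‖⁻¹ • f8_g e z⟫ = A at *
      rw [← h2] at h1
      have h3 : 0 ≤ 10000 * δ (-Real.log ‖z‖ - 1) * (r / ‖z‖) * r := by positivity
      nlinarith [h1.1]
    · intro x hx hF
      have h1 := abs_le.1 (key x hx)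
      have h2 := hin x
      change 0 < Ff e x at hF
      simp only
      generalize ⟪x - z, ‖f8_g e z‖⁻¹ • f8_g e z⟫ = A at *
      rw [← h2] at h1
      have h3 : 0 ≤ 10000 * δ (-Real.log ‖z‖ - 1) * (r / ‖z‖) * r := by positivity
      by_contra hcon
      push Not at hcon
      nlinarith [h1.1]

end Pool.Agent.Lib.MP_47b33c_an
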