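import Pool.Agent.Lib.MP_47b33c_an.Defs

/-!
# Flat domains are NTA
-/

set_option autoImplicit false

open MeasureTheory Metric Set Filter Topology InnerProductSpace
open scoped RealInnerProductSpace Laplacian

namespace Pool.Agent.Lib.MP_47b33c_an

variable {n : ℕ}

namespace NTAaux

/-- distance to the frontier -/
noncomputable def dd (Ω : Set (EE n)) (x : EE n) : ℝ := infDist x (frontier Ω)

theorem dd_nonneg (Ω : Set (EE n)) (x : EE n) : 0 ≤ dd Ω x := infDist_nonneg

theorem not_mem_of_frontier {Ω : Set (EE n)} (hΩ : IsOpen Ω) {z : EE n} (hz : z ∈ frontier Ω) :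
    z ∉ Ω := by
  rw [hΩ.frontier_eq] at hz
  exact hz.2

theorem le_dd_of_ball {Ω : Set (EE n)} (hΩ : IsOpen Ω) (hfr : (frontier Ω).Nonempty) {x : EE n}
    {ρ : ℝ} (h : ball x ρ ⊆ Ω) : ρ ≤ dd Ω x := by
  by_contra hlt
  push Not at hlt
  obtain ⟨z, hz, hd⟩ := (infDist_lt_iff hfr).mp hlt
  exact not_mem_of_frontier hΩ hz (h (by rw [mem_ball, dist_comm]; exact hd))

theorem le_dd_of_ball_compl {Ω : Set (EE n)} (hfr : (frontier Ω).Nonempty) {x : EE n}
    {ρ : ℝ} (h : ball x ρ ⊆ Ωᶜ) : ρ ≤ dd Ω x := by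
  by_contra hlt
  push Not at hlt
  obtain ⟨z, hz, hd⟩ := (infDist_lt_iff hfr).mp hlt
  have h1 : z ∈ closure Ω := frontier_subset_closure hz
  obtain ⟨y, hy, hyΩ⟩ := mem_closure_iff.mp h1 (ball x ρ) isOpen_ball
    (by rw [mem_ball, dist_comm]; exact hd)
  exact h hy hyΩ

theorem ball_dd_subset {Ω : Set (EE n)} (hΩ : IsOpen Ω) {x : EE n} (hx : x ∈ Ω) :
    ball x (dd Ω x) ⊆ Ω := by
  intro y hy
  by_contra hyΩ
  have hpre : IsPreconnected (ball x (dd Ω x)) := (convex_ball x _).isPreconnected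
  have hpos : 0 < dd Ω x := lt_of_le_of_lt dist_nonneg hy
  have hno : ∀ z ∈ ball x (dd Ω x), z ∉ frontier Ω := by
    intro z hz hzf
    have := infDist_le_dist_of_mem (x := x) hzf
    rw [mem_ball, dist_comm] at hz
    unfold dd at hz
    linarith
  have hcl : ∀ z ∈ ball x (dd Ω x), z ∉ Ω → z ∈ (closure Ω)ᶜ := by
    intro z hz hzΩ hzc
    apply hno z hz
    rw [hΩ.frontier_eq]
    exact ⟨hzc, hzΩ⟩
  obtain ⟨z, _, hz1, hz2⟩ := hpre Ω (closure Ω)ᶜ hΩ isClosed_closure.isOpen_compl
    (fun z hz => by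
      by_cases hzΩ : z ∈ Ω
      · exact Or.inl hzΩ
      · exact Or.inr (hcl z hz hzΩ))
    ⟨x, mem_ball_self hpos, hx⟩ ⟨y, hy, hcl y hy hyΩ⟩
  exact hz2 (subset_closure hz1)

theorem dd_pos {Ω : Set (EE n)} (hΩ : IsOpen Ω) (hfr : (frontier Ω).Nonempty) {x : EE n}
    (hx : x ∈ Ω) : 0 < dd Ω x := by
  obtain ⟨ρ, hρ, hb⟩ := Metric.isOpen_iff.mp hΩ x hx
  exact lt_of_lt_of_le hρ (le_dd_of_ball hΩ hfr hb)

/-- the balls of the chains -/
theorem ntBall {Ω : Set (EE n)} (hΩ : IsOpen Ω) (hfr : (frontier Ω).Nonempty) {x : EE n}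
    (hx : x ∈ Ω) : NTBall Ω 100 x (dd Ω x / 2) := by
  have hp := dd_pos hΩ hfr hx
  refine ⟨by linarith, ?_, ?_, x, mem_ball_self (by linarith), ?_⟩
  · exact (ball_subset_ball (by linarith)).trans (ball_dd_subset hΩ hx)
  · intro y hy
    rw [mem_ball] at hy
    have h1 : infDist x (frontier Ω) ≤ infDist y (frontier Ω) + dist x y := infDist_le_infDist_add_dist
    rw [dist_comm] at h1
    unfold dd at *
    linarith
  · unfold dd at *
    linarith

/-- one step of a chain -/
def Step (Ω : Set (EE n)) (x y : EE n) : Prop := dist x y < dd Ω x / 2 ∨ dist x y < dd Ω y / 2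

/-- chains of `k` steps -/
def Ch (Ω : Set (EE n)) (k : ℕ) (X Y : EE n) : Prop :=
  ∃ c : ℕ → EE n, c 0 = X ∧ c k = Y ∧ (∀ i ≤ k, c i ∈ Ω) ∧ ∀ i < k, Step Ω (c i) (c (i + 1))

theorem Ch.symm {Ω : Set (EE n)} {k : ℕ} {X Y : EE n} (h : Ch Ω k X Y) : Ch Ω k Y X := by
  obtain ⟨c, h0, hk, hm, hs⟩ := h
  refine ⟨fun i => c (k - i), by simpa using hk, by simpa using h0, fun i _ => hm _ (by omega), ?_⟩
  intro i hi
  have := hs (k - (i + 1)) (by omega)
  rw [show k - (i + 1) + 1 = k - i by omega] at this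
  unfold Step at *
  rw [dist_comm] at this
  exact this.symm

theorem Ch.trans {Ω : Set (EE n)} {k l : ℕ} {X Y Z : EE n} (h : Ch Ω k X Y) (h' : Ch Ω l Y Z) :
    Ch Ω (k + l) X Z := by
  obtain ⟨c, h0, hk, hm, hs⟩ := h
  obtain ⟨c', h0', hk', hm', hs'⟩ := h'
  refine ⟨fun i => if i ≤ k then c i else c' (i - k), by simpa using h0, ?_, ?_, ?_⟩
  · by_cases hl : l = 0
    · subst hl
      simp only [add_zero, le_refl, if_true]
      rw [hk, ← h0', hk']
    · simp only [show ¬ (k + l ≤ k) by omega, if_false, Nat.add_sub_cancel_left]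
      exact hk'
  · intro i hi
    by_cases h1 : i ≤ k
    · simp only [h1, if_true]; exact hm i h1
    · simp only [h1, if_false]; exact hm' _ (by omega)
  · intro i hi
    by_cases h1 : i + 1 ≤ k
    · simp only [h1, show i ≤ k by omega, if_true]; exact hs i (by omega)
    · by_cases h2 : i ≤ k
      · have h3 : i = k := by omega
        subst h3
        simp only [le_refl, if_true, h1, if_false, Nat.add_sub_cancel_left]
        rw [hk, ← h0']
        exact hs' 0 (by omega)
      · simp only [h1, h2, if_false]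
        have := hs' (i - k) (by omega)
        rwa [show i - k + 1 = i + 1 - k by omega] at this

theorem Ch.refl {Ω : Set (EE n)} {X : EE n} (h : X ∈ Ω) : Ch Ω 0 X X :=
  ⟨fun _ => X, rfl, rfl, fun _ _ => h, fun i hi => absurd hi (by omega)⟩

theorem Ch.one {Ω : Set (EE n)} {X Y : EE n} (hX : X ∈ Ω) (hY : Y ∈ Ω) (h : Step Ω X Y) :
    Ch Ω 1 X Y := by
  refine ⟨fun i => if i = 0 then X else Y, by simp, by simp, ?_, ?_⟩
  · intro i _
    by_cases h0 : i = 0 <;> simp [h0, hX, hY]
  · intro i hi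
    have : i = 0 := by omega
    subst this
    simpa using h

theorem Ch.seg {Ω : Set (EE n)} (hΩ : IsOpen Ω) (hfr : (frontier Ω).Nonempty) {p q : EE n} {a : ℝ}
    (ha : 0 < a) {k : ℕ} (hk : dist p q < k * (a / 2))
    (hd : ∀ t : ℝ, 0 ≤ t → t ≤ 1 → ball (p + t • (q - p)) a ⊆ Ω) : Ch Ω k p q := by
  have hk0 : (0 : ℝ) < k := by
    by_contra h
    have h1 : (k : ℝ) * (a / 2) ≤ 0 := mul_nonpos_of_nonpos_of_nonneg (not_lt.mp h) (by linarith)
    linarith [dist_nonneg (x := p) (y := q)]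
  refine ⟨fun i => p + ((i : ℝ) / k) • (q - p), by simp, ?_, ?_, ?_⟩
  · simp only [div_self hk0.ne', one_smul]
    abel
  · intro i hi
    have hi' : (i : ℝ) ≤ k := by exact_mod_cast hi
    exact hd _ (by positivity) ((div_le_one hk0).mpr hi') (mem_ball_self ha)
  · intro i hi
    have hi' : (i : ℝ) + 1 ≤ k := by exact_mod_cast hi
    left
    have h1 : a ≤ dd Ω (p + ((i : ℝ) / k) • (q - p)) :=
      le_dd_of_ball hΩ hfr (hd _ (by positivity) ((div_le_one hk0).mpr (by linarith)))
    have h2 : dist (p + ((i : ℝ) / k) • (q - p)) (p + (((i + 1 : ℕ) : ℝ) / k) • (q - p))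
        = dist p q / k := by
      rw [dist_add_left, dist_eq_norm, ← sub_smul, norm_smul]
      push_cast
      rw [show (i : ℝ) / k - (i + 1) / k = -(1 / k) by ring, norm_neg, Real.norm_eq_abs,
        abs_of_pos (by positivity), dist_comm p q, dist_eq_norm]
      ring
    rw [h2]
    calc dist p q / k < a / 2 := by rw [div_lt_iff₀ hk0]; linarith
      _ ≤ _ := by linarith

/-- height of frontier points -/
theorem frontier_height {Ω : Set (EE n)} (hΩ : IsOpen Ω) {z z' e' : EE n} {R' : ℝ}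
    (hz : z ∈ frontier Ω) (h' : Flat Ω z' R' e' th0) (hzb : z ∈ ball z' R') :
    -(th0 * R') ≤ ⟪z - z', e'⟫ ∧ ⟪z - z', e'⟫ ≤ th0 * R' := by
  constructor
  · by_contra hlt
    push Not at hlt
    have hopen : IsOpen (ball z' R' ∩ {x : EE n | ⟪x - z', e'⟫ < -(th0 * R')}) := by
      apply isOpen_ball.inter
      exact isOpen_lt (by fun_prop) continuous_const
    obtain ⟨y, ⟨hy1, hy2⟩, hyΩ⟩ := mem_closure_iff.mp (frontier_subset_closure hz) _ hopen ⟨hzb, hlt⟩
    have := h'.out y hy1 hyΩ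
    exact absurd hy2 (not_lt.mpr this.le)
  · by_contra hlt
    push Not at hlt
    exact not_mem_of_frontier hΩ hz (h'.inn z hzb hlt)

/-- the normals at comparable balls are close -/
theorem normals {Ω : Set (EE n)} (hΩ : IsOpen Ω) {z z' e e' : EE n} {R R' : ℝ} (hR : 0 < R)
    (hz : z ∈ frontier Ω) (h : Flat Ω z R e th0) (h' : Flat Ω z' R' e' th0)
    (hb : ball z R ⊆ ball z' R') (hRR : R' ≤ 8 * R) : (9 / 10 : ℝ) ≤ ⟪e, e'⟫ := by
  by_contra hlt
  push Not at hlt
  have hθ : th0 = 1 / 10000 := rfl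
  set c : ℝ := ⟪e, e'⟫ with hc
  set β : ℝ := max c 0 + 64 * th0 with hβ
  have hm0 : 0 ≤ max c 0 := le_max_right _ _
  have hm1 : max c 0 ≤ 9 / 10 := max_le hlt.le (by norm_num)
  have hmc : c ≤ max c 0 := le_max_left _ _
  have hβ0 : 0 ≤ β := by rw [hβ, hθ]; linarith
  have hβ1 : β ≤ 1 := by rw [hβ, hθ]; linarith
  have hee : ⟪e, e⟫ = (1 : ℝ) := by rw [real_inner_self_eq_norm_sq, h.unit]; norm_num
  have hee' : ⟪e', e'⟫ = (1 : ℝ) := by rw [real_inner_self_eq_norm_sq, h'.unit]; norm_num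
  have hce : ⟪e', e⟫ = c := by rw [real_inner_comm]
  have hcβ : β * c ≤ 9 / 10 := by
    rcases le_total c 0 with h0 | h0
    · nlinarith
    · have : max c 0 = c := max_eq_left h0
      rw [hβ, this, hθ]
      nlinarith
  set x : EE n := z + (R / 4) • (e - β • e') with hx
  have hxb : x ∈ ball z R := by
    rw [mem_ball, hx, dist_eq_norm, add_sub_cancel_left, norm_smul, Real.norm_eq_abs,
      abs_of_pos (by linarith)]
    have : ‖e - β • e'‖ ≤ 2 := by
      refine (norm_sub_le _ _).trans ?_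
      rw [norm_smul, h.unit, h'.unit, Real.norm_eq_abs, abs_of_nonneg hβ0]
      linarith
    nlinarith
  have h1 : th0 * R < ⟪x - z, e⟫ := by
    rw [hx, add_sub_cancel_left, real_inner_smul_left, inner_sub_left, real_inner_smul_left, hee,
      hce, hθ]
    nlinarith
  have h2 := h'.out x (hb hxb) (h.inn x hxb h1)
  have h3 : ⟪x - z', e'⟫ = ⟪z - z', e'⟫ + (R / 4) * (c - β) := by
    have : x - z' = (z - z') + (R / 4) • (e - β • e') := by rw [hx]; abel
    rw [this, inner_add_left, real_inner_smul_left, inner_sub_left e (β • e') e',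
      real_inner_smul_left, hee']
    ring
  have h4 := (frontier_height hΩ hz h' (hb (mem_ball_self hR))).2
  have h5 : c - β ≤ -(64 * th0) := by rw [hβ]; linarith
  have h6 : (R / 4) * (c - β) ≤ (R / 4) * (-(64 * th0)) :=
    mul_le_mul_of_nonneg_left h5 (by linarith)
  rw [h3] at h2
  rw [hθ] at *
  nlinarith

/-- the point `p` of height `≥ h` in the flat ball is the centre of a ball in `Ω` -/
theorem ball_in {Ω : Set (EE n)} {z e : EE n} {R : ℝ} (h : Flat Ω z R e th0) {p : EE n} {ρ : ℝ}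
    (hp : dist p z + ρ ≤ R) (hh : th0 * R + ρ ≤ ⟪p - z, e⟫) : ball p ρ ⊆ Ω := by
  intro y hy
  rw [mem_ball] at hy
  apply h.inn y
  · rw [mem_ball]
    have := dist_triangle y p z
    linarith
  · have h1 : ⟪y - z, e⟫ = ⟪p - z, e⟫ + ⟪y - p, e⟫ := by
      rw [← inner_add_left]; congr 1; abel
    have h2 : |⟪y - p, e⟫| ≤ ‖y - p‖ * ‖e‖ := abs_real_inner_le_norm _ _
    rw [h.unit, mul_one, ← dist_eq_norm] at h2
    have := neg_abs_le (⟪y - p, e⟫ : ℝ)
    linarith

/-- going up from `X` -/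
theorem vertical {Ω : Set (EE n)} (hΩ : IsOpen Ω) (hfr : (frontier Ω).Nonempty)
    (hflat : AllFlat Ω th0) {X : EE n} (hX : X ∈ Ω) {z : EE n} (hz : z ∈ frontier Ω)
    (hzd : dd Ω X = dist X z) (j : ℕ) :
    ∃ e : EE n, Flat Ω z (4 * (2 ^ j * dd Ω X)) e th0 ∧
      Ch Ω (1 + 13 * j) X (z + (2 ^ j * dd Ω X) • e) := by
  have hθ : th0 = 1 / 10000 := rfl
  have hd := dd_pos hΩ hfr hX
  induction j with
  | zero =>
    obtain ⟨e, he⟩ := hflat z hz (4 * (2 ^ 0 * dd Ω X)) (by simpa using hd)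
    refine ⟨e, he, ?_⟩
    simp only [pow_zero, one_mul] at he ⊢
    have hee : ⟪e, e⟫ = (1 : ℝ) := by rw [real_inner_self_eq_norm_sq, he.unit]; norm_num
    set d := dd Ω X with hdd
    -- height of X
    have hy : X - (999 / 1000 * d) • e ∈ ball X d := by
      rw [mem_ball, dist_eq_norm, sub_sub_cancel_left, norm_neg, norm_smul, he.unit, mul_one,
        Real.norm_eq_abs, abs_of_pos (by positivity)]
      linarith
    have hyΩ := ball_dd_subset hΩ hX hy
    have hyb : X - (999 / 1000 * d) • e ∈ ball z (4 * d) := by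
      rw [mem_ball] at hy ⊢
      have := dist_triangle (X - (999 / 1000 * d) • e) X z
      linarith
    have h1 := he.out _ hyb hyΩ
    have h2 : ⟪X - (999 / 1000 * d) • e - z, e⟫ = ⟪X - z, e⟫ - 999 / 1000 * d := by
      have : X - (999 / 1000 * d) • e - z = (X - z) - (999 / 1000 * d) • e := by abel
      rw [this, inner_sub_left, real_inner_smul_left, hee, mul_one]
    rw [h2, hθ] at h1
    have h3 : 998 / 1000 * d ≤ ⟪X - z, e⟫ := by linarith
    -- distance of X to the new point
    have h4 : dist X (z + d • e) ^ 2 = 2 * d ^ 2 - 2 * d * ⟪X - z, e⟫ := by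
      rw [dist_eq_norm, show X - (z + d • e) = (X - z) - d • e by abel, norm_sub_sq_real,
        norm_smul, he.unit, real_inner_smul_right, ← dist_eq_norm, ← hzd, mul_one,
        Real.norm_eq_abs, sq_abs]
      ring
    have h5 : dist X (z + d • e) < d / 2 := by
      apply lt_of_pow_lt_pow_left₀ 2 (by linarith)
      rw [h4]
      nlinarith
    have hq : z + d • e ∈ Ω := by
      apply ball_dd_subset hΩ hX
      rw [mem_ball, dist_comm]
      linarith
    exact Ch.one hX hq (Or.inl h5)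
  | succ j ih =>
    obtain ⟨e, he, hch⟩ := ih
    obtain ⟨e', he'⟩ := hflat z hz (4 * (2 ^ (j + 1) * dd Ω X)) (by positivity)
    refine ⟨e', he', ?_⟩
    have hs : 2 ^ (j + 1) * dd Ω X = 2 * (2 ^ j * dd Ω X) := by ring
    rw [hs] at he' ⊢
    set s := 2 ^ j * dd Ω X with hsdef
    have hs0 : 0 < s := by positivity
    have hn := normals hΩ (by positivity) hz he he' (ball_subset_ball (by linarith)) (by linarith)
    have hcomm : ⟪e', e⟫ = (⟪e, e'⟫ : ℝ) := real_inner_comm _ _
    have hee' : ⟪e', e'⟫ = (1 : ℝ) := by rw [real_inner_self_eq_norm_sq, he'.unit]; norm_num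
    have hseg : Ch Ω 13 (z + s • e) (z + (2 * s) • e') := by
      apply Ch.seg hΩ hfr (a := s / 2) (by positivity)
      · have : dist (z + s • e) (z + (2 * s) • e') ≤ s + 2 * s := by
          rw [dist_add_left, dist_eq_norm]
          refine (norm_sub_le _ _).trans ?_
          rw [norm_smul, norm_smul, he.unit, he'.unit, Real.norm_eq_abs, Real.norm_eq_abs,
            abs_of_pos hs0, abs_of_pos (by positivity)]
          linarith
        push_cast
        linarith
      · intro t ht0 ht1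
        have hpt : z + s • e + t • (z + (2 * s) • e' - (z + s • e))
            = z + (((1 - t) * s) • e + (t * (2 * s)) • e') := by
          rw [add_sub_add_left_eq_sub, smul_sub, smul_smul, smul_smul, sub_mul, one_mul, sub_smul]
          abel
        rw [hpt]
        apply ball_in he'
        · rw [dist_eq_norm, add_sub_cancel_left]
          have : ‖((1 - t) * s) • e + (t * (2 * s)) • e'‖ ≤ (1 - t) * s + t * (2 * s) := by
            refine (norm_add_le _ _).trans ?_
            rw [norm_smul, norm_smul, he.unit, he'.unit, Real.norm_eq_abs, Real.norm_eq_abs,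
              abs_of_nonneg (mul_nonneg (by linarith) hs0.le), abs_of_nonneg (by positivity)]
            linarith
          nlinarith
        · rw [add_sub_cancel_left, inner_add_left, real_inner_smul_left, real_inner_smul_left,
            hee', hθ]
          have : (1 - t) * s * (9 / 10) ≤ (1 - t) * s * ⟪e, e'⟫ :=
            mul_le_mul_of_nonneg_left hn (mul_nonneg (by linarith) hs0.le)
          nlinarith
    have := hch.trans hseg
    rwa [show 1 + 13 * j + 13 = 1 + 13 * (j + 1) by ring] at this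

/-- nearest frontier points -/
theorem exists_nearest {Ω : Set (EE n)} (hfr : (frontier Ω).Nonempty) (X : EE n) :
    ∃ z ∈ frontier Ω, dd Ω X = dist X z :=
  isClosed_frontier.exists_infDist_eq_dist hfr X

/-- the connection at the top level -/
theorem top {Ω : Set (EE n)} (hΩ : IsOpen Ω) (hfr : (frontier Ω).Nonempty)
    (hflat : AllFlat Ω th0) {z w e f : EE n} {S s t : ℝ} (hz : z ∈ frontier Ω)
    (hw : w ∈ frontier Ω) (hs1 : S / 2 < s) (hs2 : s ≤ S) (ht1 : S / 2 < t) (ht2 : t ≤ S)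
    (hzw : dist z w ≤ 5 / 16 * S) (he : Flat Ω z (4 * s) e th0) (hf : Flat Ω w (4 * t) f th0) :
    Ch Ω 25 (z + s • e) (w + t • f) := by
  have hθ : th0 = 1 / 10000 := rfl
  have hS : 0 < S := by linarith
  obtain ⟨g, hg⟩ := hflat z hz (8 * S) (by positivity)
  have h1 := normals hΩ (by linarith) hz he hg (ball_subset_ball (by linarith)) (by linarith)
  have hwb : ball w (4 * t) ⊆ ball z (8 * S) := by
    intro y hy
    rw [mem_ball] at hy ⊢
    have := dist_triangle y w z
    rw [dist_comm w z] at this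
    linarith
  have h2 := normals hΩ (by linarith) hw hf hg hwb (by linarith)
  have h3 := (frontier_height hΩ hw hg (hwb (mem_ball_self (by linarith)))).1
  have hnz : ‖w - z‖ ≤ 5 / 16 * S := by rw [← dist_eq_norm, dist_comm]; exact hzw
  apply Ch.seg hΩ hfr (a := S / 5) (by positivity)
  · have : dist (z + s • e) (w + t • f) ≤ s + 5 / 16 * S + t := by
      have h4 := dist_triangle4 (z + s • e) z w (w + t • f)
      have h5 : dist (z + s • e) z = s := by
        rw [dist_eq_norm, add_sub_cancel_left, norm_smul, he.unit, Real.norm_eq_abs,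
          abs_of_pos (by linarith), mul_one]
      have h6 : dist w (w + t • f) = t := by
        rw [dist_comm, dist_eq_norm, add_sub_cancel_left, norm_smul, hf.unit, Real.norm_eq_abs,
          abs_of_pos (by linarith), mul_one]
      linarith
    push_cast
    linarith
  · intro c hc0 hc1
    have hpt : z + s • e + c • (w + t • f - (z + s • e))
        = z + (((1 - c) * s) • e + (c • (w - z) + (c * t) • f)) := by
      rw [show w + t • f - (z + s • e) = (w - z) + t • f - s • e by abel, smul_sub, smul_add,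
        smul_smul, smul_smul, sub_mul, one_mul, sub_smul]
      abel
    rw [hpt]
    have hcs : 0 ≤ (1 - c) * s := mul_nonneg (by linarith) (by linarith)
    have hct : 0 ≤ c * t := mul_nonneg hc0 (by linarith)
    apply ball_in hg
    · rw [dist_eq_norm, add_sub_cancel_left]
      have : ‖((1 - c) * s) • e + (c • (w - z) + (c * t) • f)‖
          ≤ (1 - c) * s + (c * (5 / 16 * S) + c * t) := by
        refine (norm_add_le _ _).trans (add_le_add ?_ ((norm_add_le _ _).trans (add_le_add ?_ ?_)))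
        · rw [norm_smul, he.unit, Real.norm_eq_abs, abs_of_nonneg hcs, mul_one]
        · rw [norm_smul, Real.norm_eq_abs, abs_of_nonneg hc0]
          exact mul_le_mul_of_nonneg_left hnz hc0
        · rw [norm_smul, hf.unit, Real.norm_eq_abs, abs_of_nonneg hct, mul_one]
      nlinarith
    · rw [add_sub_cancel_left, inner_add_left, inner_add_left, real_inner_smul_left,
        real_inner_smul_left, real_inner_smul_left]
      have a1 : (1 - c) * s * (9 / 10) ≤ (1 - c) * s * ⟪e, g⟫ := mul_le_mul_of_nonneg_left h1 hcs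
      have a2 : c * t * (9 / 10) ≤ c * t * ⟪f, g⟫ := mul_le_mul_of_nonneg_left h2 hct
      have a3 : c * (-(th0 * (8 * S))) ≤ c * ⟪w - z, g⟫ := mul_le_mul_of_nonneg_left h3 hc0
      have a4 : (1 - c) * (S / 2) ≤ (1 - c) * s := mul_le_mul_of_nonneg_left hs1.le (by linarith)
      have a5 : c * (S / 2) ≤ c * t := mul_le_mul_of_nonneg_left ht1.le hc0
      rw [hθ] at *
      nlinarith

/-- Harnack chains -/
theorem chains {Ω : Set (EE n)} (hΩ : IsOpen Ω) (hfr : (frontier Ω).Nonempty)
    (hflat : AllFlat Ω th0) (K : ℝ) (hK : 0 < K) :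
    ∃ N : ℕ, ∀ ε : ℝ, 0 < ε → ∀ X ∈ Ω, ∀ Y ∈ Ω, ε < dd Ω X → ε < dd Ω Y →
      dist X Y < K * ε → ∃ m ≤ N, Ch Ω m X Y := by
  obtain ⟨J₀, hJ₀⟩ := pow_unbounded_of_one_lt (16 * K) (one_lt_two : (1 : ℝ) < 2)
  refine ⟨1 + 13 * J₀ + 25 + (1 + 13 * J₀), fun ε hε X hX Y hY hdX hdY hXY => ?_⟩
  by_cases h1 : dist X Y < dd Ω X / 2
  · exact ⟨1, by omega, Ch.one hX hY (Or.inl h1)⟩
  by_cases h2 : dist X Y < dd Ω Y / 2
  · exact ⟨1, by omega, Ch.one hX hY (Or.inr h2)⟩
  push Not at h1 h2
  set S := 16 * dist X Y with hS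
  have hX0 : 0 < dd Ω X := by linarith
  have hY0 : 0 < dd Ω Y := by linarith
  have hS0 : 0 < S := by linarith
  have key : ∀ Z : EE n, 0 < dd Ω Z → ε < dd Ω Z → dd Ω Z / 2 ≤ dist X Y →
      ∃ j : ℕ, j ≤ J₀ ∧ S / 2 < 2 ^ j * dd Ω Z ∧ 2 ^ j * dd Ω Z ≤ S := by
    intro Z hZ0 hZε hZ
    obtain ⟨j, hj1, hj2⟩ := exists_nat_pow_near (x := S / dd Ω Z) (y := 2)
      (by rw [le_div_iff₀ hZ0]; linarith) one_lt_two
    rw [le_div_iff₀ hZ0] at hj1
    rw [div_lt_iff₀ hZ0, pow_succ] at hj2
    refine ⟨j, ?_, by linarith, hj1⟩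
    by_contra hlt
    push Not at hlt
    have h3 : (2 : ℝ) ^ J₀ ≤ 2 ^ j := pow_le_pow_right₀ (by norm_num) hlt.le
    have h4 : 16 * K * dd Ω Z < 2 ^ j * dd Ω Z :=
      mul_lt_mul_of_pos_right (lt_of_lt_of_le hJ₀ h3) hZ0
    have h5 : K * ε ≤ K * dd Ω Z := mul_le_mul_of_nonneg_left hZε.le hK.le
    linarith
  obtain ⟨j, hj, hj1, hj2⟩ := key X hX0 hdX h1
  obtain ⟨l, hl, hl1, hl2⟩ := key Y hY0 hdY h2
  obtain ⟨z, hz, hzd⟩ := exists_nearest hfr X
  obtain ⟨w, hw, hwd⟩ := exists_nearest hfr Y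
  obtain ⟨e, he, hce⟩ := vertical hΩ hfr hflat hX hz hzd j
  obtain ⟨f, hf, hcf⟩ := vertical hΩ hfr hflat hY hw hwd l
  have hzw : dist z w ≤ 5 / 16 * S := by
    have := dist_triangle4 z X Y w
    rw [dist_comm z X] at this
    linarith
  have ht := top hΩ hfr hflat hz hw hj1 hj2 hl1 hl2 hzw he hf
  refine ⟨1 + 13 * j + 25 + (1 + 13 * l), by omega, (hce.trans ht).trans hcf.symm⟩

end NTAaux

open NTAaux

theorem extAt_of_flat {Ω : Set (EE n)} {z e : EE n} {r : ℝ} (hr : 0 < r)
    (h : Flat Ω z r e th0) : ExtAt (1 / 4) Ω z r := by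
  have hθ : th0 = 1 / 10000 := rfl
  have hee : ⟪e, e⟫ = (1 : ℝ) := by rw [real_inner_self_eq_norm_sq, h.unit]; norm_num
  have hsub : closedBall (z - (r / 2) • e) (1 / 4 * r) ⊆ ball z r := by
    intro x hx
    rw [mem_closedBall] at hx
    rw [mem_ball]
    have h1 := dist_triangle x (z - (r / 2) • e) z
    have h2 : dist (z - (r / 2) • e) z = r / 2 := by
      rw [dist_eq_norm, sub_sub_cancel_left, norm_neg, norm_smul, h.unit, Real.norm_eq_abs,
        abs_of_pos (by linarith), mul_one]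
    linarith
  refine ⟨z - (r / 2) • e, hsub, ?_⟩
  rw [Set.disjoint_left]
  intro x hx hxΩ
  have h1 := h.out x (hsub hx) hxΩ
  rw [mem_closedBall] at hx
  have h2 : ⟪x - z, e⟫ = ⟪x - (z - (r / 2) • e), e⟫ - r / 2 := by
    have : x - z = (x - (z - (r / 2) • e)) - (r / 2) • e := by abel
    rw [this, inner_sub_left, real_inner_smul_left, hee, mul_one]
  have h3 : |⟪x - (z - (r / 2) • e), e⟫| ≤ ‖x - (z - (r / 2) • e)‖ * ‖e‖ :=
    abs_real_inner_le_norm _ _
  rw [h.unit, mul_one, ← dist_eq_norm] at h3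
  have h4 := le_abs_self (⟪x - (z - (r / 2) • e), e⟫ : ℝ)
  rw [h2, hθ] at h1
  linarith

theorem nta_of_allFlat (hn : 2 ≤ n) {Ω : Set (EE n)} (hΩ : IsOpen Ω) (hne : Ω.Nonempty)
    (hfr : (frontier Ω).Nonempty) (hflat : AllFlat Ω th0) : IsNTA Ω := by
  have hθ : th0 = 1 / 10000 := rfl
  refine ⟨hΩ, ?_, 100, by norm_num, ?_, ?_, ?_⟩
  · -- connectedness
    obtain ⟨X, hX⟩ := hne
    apply IsPathConnected.isConnected
    refine ⟨X, hX, fun {Y} hY => ?_⟩
    have hX0 := dd_pos hΩ hfr hX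
    have hY0 := dd_pos hΩ hfr hY
    set ε := min (dd Ω X) (dd Ω Y) / 2 with hε
    have hm : 0 < min (dd Ω X) (dd Ω Y) := lt_min hX0 hY0
    have hε0 : 0 < ε := by positivity
    have h1 : ε < dd Ω X := by have := min_le_left (dd Ω X) (dd Ω Y); linarith
    have h2 : ε < dd Ω Y := by have := min_le_right (dd Ω X) (dd Ω Y); linarith
    obtain ⟨N, hN⟩ := chains hΩ hfr hflat (dist X Y / ε + 1) (by positivity)
    obtain ⟨m, _, c, hc0, hcm, hcΩ, hcs⟩ := hN ε hε0 X hX Y hY h1 h2
      (by rw [add_mul, div_mul_cancel₀ _ hε0.ne']; linarith)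
    have key : ∀ i ≤ m, JoinedIn Ω X (c i) := by
      intro i
      induction i with
      | zero => intro _; rw [hc0]; exact JoinedIn.refl hX
      | succ i ih =>
        intro hi
        refine (ih (by omega)).trans ?_
        have hci := hcΩ i (by omega)
        have hci' := hcΩ (i + 1) hi
        rcases hcs i (by omega) with hs | hs
        · have hb : c (i + 1) ∈ ball (c i) (dd Ω (c i)) := by
            rw [mem_ball, dist_comm]
            have := dd_nonneg Ω (c i)
            linarith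
          exact JoinedIn.of_segment_subset
            (((convex_ball _ _).segment_subset (mem_ball_self (dd_pos hΩ hfr hci)) hb).trans
              (ball_dd_subset hΩ hci))
        · have hb : c i ∈ ball (c (i + 1)) (dd Ω (c (i + 1))) := by
            rw [mem_ball]
            have := dd_nonneg Ω (c (i + 1))
            linarith
          exact JoinedIn.of_segment_subset
            (((convex_ball _ _).segment_subset hb (mem_ball_self (dd_pos hΩ hfr hci'))).trans
              (ball_dd_subset hΩ hci'))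
    have := key m le_rfl
    rwa [hcm] at this
  · -- interior corkscrews
    intro Q hQ r hr
    obtain ⟨e, he⟩ := hflat Q hQ r hr
    have hee : ⟪e, e⟫ = (1 : ℝ) := by rw [real_inner_self_eq_norm_sq, he.unit]; norm_num
    have hd : dist (Q + (r / 2) • e) Q = r / 2 := by
      rw [dist_eq_norm, add_sub_cancel_left, norm_smul, he.unit, Real.norm_eq_abs,
        abs_of_pos (by linarith), mul_one]
    have hb : ball (Q + (r / 2) • e) (r / 4) ⊆ Ω := by
      apply ball_in he
      · rw [hd]; linarith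
      · rw [add_sub_cancel_left, real_inner_smul_left, hee, hθ]; linarith
    refine ⟨Q + (r / 2) • e, hb (mem_ball_self (by linarith)), ?_, ?_, ?_⟩
    · rw [hd]; linarith
    · rw [hd]; linarith
    · have := le_dd_of_ball hΩ hfr hb
      unfold dd at this
      linarith
  · -- exterior corkscrews
    intro Q hQ r hr
    obtain ⟨e, he⟩ := hflat Q hQ r hr
    have hee : ⟪e, e⟫ = (1 : ℝ) := by rw [real_inner_self_eq_norm_sq, he.unit]; norm_num
    have hd : dist (Q - (r / 2) • e) Q = r / 2 := by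
      rw [dist_eq_norm, sub_sub_cancel_left, norm_neg, norm_smul, he.unit, Real.norm_eq_abs,
        abs_of_pos (by linarith), mul_one]
    have hb : ball (Q - (r / 2) • e) (r / 4) ⊆ Ωᶜ := by
      intro x hx hxΩ
      rw [mem_ball] at hx
      have h0 := dist_triangle x (Q - (r / 2) • e) Q
      have h1 := he.out x (by rw [mem_ball]; linarith) hxΩ
      have h2 : ⟪x - Q, e⟫ = ⟪x - (Q - (r / 2) • e), e⟫ - r / 2 := by
        have : x - Q = (x - (Q - (r / 2) • e)) - (r / 2) • e := by abel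
        rw [this, inner_sub_left, real_inner_smul_left, hee, mul_one]
      have h3 : |⟪x - (Q - (r / 2) • e), e⟫| ≤ ‖x - (Q - (r / 2) • e)‖ * ‖e‖ :=
        abs_real_inner_le_norm _ _
      rw [he.unit, mul_one, ← dist_eq_norm] at h3
      have h4 := le_abs_self (⟪x - (Q - (r / 2) • e), e⟫ : ℝ)
      rw [h2, hθ] at h1
      linarith
    refine ⟨Q - (r / 2) • e, ?_, ?_, ?_, ?_⟩
    · intro hcl
      obtain ⟨y, hy, hyΩ⟩ := mem_closure_iff.mp hcl _ isOpen_ball
        (mem_ball_self (show (0 : ℝ) < r / 4 by linarith))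
      exact hb hy hyΩ
    · rw [hd]; linarith
    · rw [hd]; linarith
    · have := le_dd_of_ball_compl hfr hb
      unfold dd at this
      linarith
  · -- Harnack chains
    intro K hK
    obtain ⟨N, hN⟩ := chains hΩ hfr hflat K hK
    refine ⟨N, fun ε hε X hX Y hY hdX hdY hXY => ?_⟩
    obtain ⟨m, hm, c, hc0, hcm, hcΩ, hcs⟩ := hN ε hε X hX Y hY hdX hdY hXY
    refine ⟨m, c, fun i => dd Ω (c i) / 2, hm, fun i hi => ntBall hΩ hfr (hcΩ i hi), ?_, ?_, ?_⟩
    · change X ∈ ball (c 0) (dd Ω (c 0) / 2)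
      rw [hc0]
      exact mem_ball_self (by have := dd_pos hΩ hfr hX; linarith)
    · change Y ∈ ball (c m) (dd Ω (c m) / 2)
      rw [hcm]
      exact mem_ball_self (by have := dd_pos hΩ hfr hY; linarith)
    · intro i hi
      have h1 := dd_pos hΩ hfr (hcΩ i (by omega))
      have h2 := dd_pos hΩ hfr (hcΩ (i + 1) (by omega))
      rcases hcs i hi with hs | hs
      · exact ⟨c (i + 1), by rw [mem_ball, dist_comm]; exact hs, mem_ball_self (by linarith)⟩
      · exact ⟨c i, mem_ball_self (by linarith), by rw [mem_ball]; exact hs⟩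

end Pool.Agent.Lib.MP_47b33c_an
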