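import Pool.Agent.Lib.MP_47b33c_an.DomFlat
import Pool.Agent.Lib.MP_47b33c_an.DomB
import Pool.Agent.Lib.MP_47b33c_an.NTA

set_option autoImplicit false

open MeasureTheory Metric Set Filter Topology InnerProductSpace
open scoped RealInnerProductSpace Laplacian

namespace Pool.Agent.Lib.MP_47b33c_an

variable {n : ℕ}

variable {e : ℝ → EE n} {δ : ℝ → ℝ} {P : EE n}

theorem f10_mono {Ω : Set (EE n)} {z : EE n} {r : ℝ} {e : EE n} {θ θ' : ℝ} (hr : 0 < r)
    (h : Flat Ω z r e θ) (hθ : θ ≤ θ') : Flat Ω z r e θ' := by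
  have h1 : θ * r ≤ θ' * r := by gcongr
  refine ⟨h.unit, ?_, ?_⟩
  · intro x hx hlt
    exact h.inn x hx (lt_of_le_of_lt h1 hlt)
  · intro x hx hxΩ
    have := h.out x hx hxΩ
    linarith

theorem f10_allFlat (hn : 2 ≤ n) (h : GoodCurve e δ P) : AllFlat (Dom e) th0 := by
  obtain ⟨ν, -, -, hν⟩ := dom_flat_small hn h
  intro z hz r hr
  by_cases hzr : ‖z‖ / 2 ≤ r
  · exact dom_flat_large hn h z hz r hr hzr
  · push Not at hzr
    have hz0 : z ≠ 0 := by
      intro h0
      rw [h0, norm_zero] at hzr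
      linarith
    have hz' : 0 < ‖z‖ := norm_pos_iff.2 hz0
    refine ⟨ν z, f10_mono hr (hν z hz hz0 r hr hzr.le) ?_⟩
    have h1 := h.small (-Real.log ‖z‖ - 1)
    have h2 := h.nonneg (-Real.log ‖z‖ - 1)
    have h3 : r / ‖z‖ ≤ 1 := by rw [div_le_one hz']; linarith
    have h4 : 0 ≤ r / ‖z‖ := by positivity
    unfold th0
    calc 10000 * δ (-Real.log ‖z‖ - 1) * (r / ‖z‖)
        ≤ 10000 * (1 / 100000000) * 1 := by gcongr
      _ = 1 / 10000 := by norm_num

theorem f10_zero (hn : 2 ≤ n) (h : GoodCurve e δ P) : (0 : EE n) ∈ frontier (Dom e) := by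
  rw [dom_frontier hn h]
  change Ff e 0 = 0
  unfold Ff
  rw [inner_zero_left]

theorem f10_unit (h : GoodCurve e δ P) : ‖P‖ = 1 := by
  rw [← h.start 0 le_rfl]; exact h.unit 0

theorem f10_half (h : GoodCurve e δ P) (x : EE n) (hx : 1 ≤ ‖x‖) :
    x ∈ Dom e ↔ 0 < ⟪x, P⟫ := by
  change 0 < Ff e x ↔ _
  unfold Ff
  rw [h.start]
  have := Real.log_nonneg hx
  linarith

theorem goodDom (hn : 2 ≤ n) (h : GoodCurve e δ P) :
    ∃ (ν : EE n → EE n) (ε : ℝ → ℝ), GoodDom (Dom e) ν (fun r => e (-Real.log r)) ε P := by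
  obtain ⟨ν, hν1, hν2, hν3⟩ := dom_flat_small hn h
  refine ⟨ν, fun r => 10000 * δ (-Real.log r - 1), ?_⟩
  have hF : ∀ x, x ∈ Dom e ↔ 0 < Ff e x := fun x => Iff.rfl
  have hPd : P ∈ Dom e := by
    rw [f10_half h P (f10_unit h).ge, real_inner_self_eq_norm_sq, f10_unit h]
    norm_num
  refine
    { isOpen := dom_isOpen h
      preconn := (nta_of_allFlat hn (dom_isOpen h) ⟨P, hPd⟩ ⟨0, f10_zero hn h⟩
        (f10_allFlat hn h)).isConnected.isPreconnected
      disj := ?_
      front := ?_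
      zero_mem := f10_zero hn h
      allFlat := f10_allFlat hn h
      eps_nonneg := ?_
      eps_le := ?_
      eps_tendsto := ?_
      flat_zero := ?_
      flat_at := hν3
      nu_cont := hν1.mono (fun x hx => hx.2)
      nu_neg := hν2
      half := f10_half h
      unit := f10_unit h }
  · intro x hx hx'
    rw [hF] at hx hx'
    rw [Ff_neg] at hx'
    linarith
  · intro x
    rw [dom_frontier hn h, hF, hF, Ff_neg]
    change Ff e x = 0 ↔ _
    constructor
    · intro h0
      rw [h0]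
      constructor <;> simp
    · rintro ⟨h1, h2⟩
      linarith
  · intro r
    have := h.nonneg (-Real.log r - 1)
    positivity
  · intro r
    have := h.small (-Real.log r - 1)
    unfold th0
    linarith
  · have h1 : Tendsto (fun r : ℝ => -Real.log r - 1) (𝓝[>] 0) atTop := by
      have := tendsto_neg_atBot_atTop.comp Real.tendsto_log_nhdsGT_zero
      exact tendsto_atTop_add_const_right _ (-1) this
    have h2 := (h.tendsto.comp h1).const_mul (10000 : ℝ)
    rw [mul_zero] at h2
    exact h2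
  · intro r hr
    refine f10_mono hr (dom_flat_zero h r hr) ?_
    have h1 : δ (-Real.log r) ≤ δ (-Real.log r - 1) := h.anti (by linarith)
    have h2 := h.nonneg (-Real.log r - 1)
    linarith

end Pool.Agent.Lib.MP_47b33c_an
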