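import Pool.Agent.Lib.MP_47b33c_an.DomA

set_option autoImplicit false

open MeasureTheory Metric Set Filter Topology InnerProductSpace
open scoped RealInnerProductSpace Laplacian

namespace Pool.Agent.Lib.MP_47b33c_an

variable {n : ℕ}
variable {e : ℝ → EE n} {δ : ℝ → ℝ} {P : EE n}

theorem f7_lip (h : GoodCurve e δ P) {a s t : ℝ} (hs : a ≤ s) (ht : a ≤ t) :
    ‖e s - e t‖ ≤ δ a * |s - t| := by
  have := (convex_Ici a).norm_image_sub_le_of_norm_hasDerivWithin_le (f := e) (f' := deriv e)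
    (C := δ a) (fun x _ => (f6_diff h x).hasDerivWithinAt)
    (fun x hx => (h.deriv1 x).trans (h.anti hx)) ht hs
  simpa [Real.norm_eq_abs] using this

theorem f7_key (h : GoodCurve e δ P) {R : ℝ} (hR : 0 < R) {x : EE n} (hx : ‖x‖ ≤ R) :
    |Ff e x - ⟪x, e (-Real.log R)⟫| ≤ δ (-Real.log R) * R := by
  have hδ : 0 ≤ δ (-Real.log R) := h.nonneg _
  by_cases h0 : x = 0
  · subst h0
    unfold Ff
    rw [inner_zero_left, inner_zero_left, sub_zero, abs_zero]
    positivity
  · have hx' : 0 < ‖x‖ := norm_pos_iff.2 h0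
    have hlog : Real.log ‖x‖ ≤ Real.log R := Real.log_le_log hx' hx
    unfold Ff
    rw [← inner_sub_right]
    refine (abs_real_inner_le_norm _ _).trans ?_
    have h1 := f7_lip h (a := -Real.log R) (s := -Real.log ‖x‖) (t := -Real.log R)
      (by linarith) le_rfl
    have h2 : |(-Real.log ‖x‖) - (-Real.log R)| = Real.log (R / ‖x‖) := by
      rw [Real.log_div hR.ne' hx'.ne', abs_of_nonneg (by linarith)]
      ring
    rw [h2] at h1
    have h3 : Real.log (R / ‖x‖) ≤ R / ‖x‖ - 1 := Real.log_le_sub_one_of_pos (by positivity)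
    have h4 : ‖x‖ * Real.log (R / ‖x‖) ≤ R := by
      have : ‖x‖ * (R / ‖x‖ - 1) = R - ‖x‖ := by field_simp
      nlinarith
    calc ‖x‖ * ‖e (-Real.log ‖x‖) - e (-Real.log R)‖
        ≤ ‖x‖ * (δ (-Real.log R) * Real.log (R / ‖x‖)) := by gcongr
      _ = δ (-Real.log R) * (‖x‖ * Real.log (R / ‖x‖)) := by ring
      _ ≤ δ (-Real.log R) * R := by gcongr

/-- flatness at the origin -/
theorem dom_flat_zero (h : GoodCurve e δ P) (r : ℝ) (hr : 0 < r) :
    Flat (Dom e) 0 r (e (-Real.log r)) (δ (-Real.log r)) := by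
  refine ⟨h.unit _, ?_, ?_⟩
  · intro x hx hlt
    have hx' : ‖x‖ < r := by simpa using hx
    have h1 := abs_le.1 (f7_key h hr hx'.le)
    rw [sub_zero] at hlt
    change 0 < Ff e x
    linarith [h1.1]
  · intro x hx hF
    have hx' : ‖x‖ < r := by simpa using hx
    have h1 := abs_le.1 (f7_key h hr hx'.le)
    change 0 < Ff e x at hF
    rw [sub_zero]
    linarith [h1.2]

/-- flatness at large scales -/
theorem dom_flat_large (hn : 2 ≤ n) (h : GoodCurve e δ P) (z : EE n) (hz : z ∈ frontier (Dom e))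
    (r : ℝ) (hr : 0 < r) (hzr : ‖z‖ / 2 ≤ r) : ∃ e', Flat (Dom e) z r e' (1 / 10000) := by
  have hFz : Ff e z = 0 := by
    rw [dom_frontier hn h] at hz; exact hz
  have hR : 0 < 3 * r := by positivity
  have hδ : δ (-Real.log (3 * r)) ≤ 1 / 100000000 := h.small _
  have hz1 := f7_key h hR (x := z) (by linarith)
  rw [hFz] at hz1
  have hz2 := abs_le.1 hz1
  have hsm : δ (-Real.log (3 * r)) * (3 * r) ≤ 1 / 100000000 * (3 * r) := by gcongr
  have key : ∀ x ∈ ball z r, |Ff e x - ⟪x - z, e (-Real.log (3 * r))⟫| ≤ 1 / 20000 * r := by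
    intro x hx
    have hx' : ‖x - z‖ < r := by rwa [mem_ball, dist_eq_norm] at hx
    have hx3 : ‖x‖ ≤ 3 * r := by
      have := norm_add_le (x - z) z
      rw [sub_add_cancel] at this
      linarith
    have h1 := abs_le.1 (f7_key h hR hx3)
    rw [inner_sub_left, abs_le]
    constructor <;> linarith [h1.1, h1.2, hz2.1, hz2.2]
  refine ⟨e (-Real.log (3 * r)), h.unit _, ?_, ?_⟩
  · intro x hx hlt
    have h1 := abs_le.1 (key x hx)
    change 0 < Ff e x
    linarith [h1.1]
  · intro x hx hF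
    have h1 := abs_le.1 (key x hx)
    change 0 < Ff e x at hF
    linarith [h1.2]

end Pool.Agent.Lib.MP_47b33c_an
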