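import Pool.Agent.Lib.MP_47b33c_an.Defs

/-!
# Real sequences of the iteration, limit version
-/

set_option autoImplicit false

open MeasureTheory Metric Set Filter Topology InnerProductSpace
open scoped RealInnerProductSpace Laplacian

namespace Pool.Agent.Lib.MP_47b33c_an

variable {n : ℕ}

theorem seq_limit {c C : ℝ} (hc : 0 < c) (hc1 : c ≤ 1 / 2) (hC : 1 ≤ C) :
    ∃ C' μ : ℝ, 1 ≤ C' ∧ 0 < μ ∧ μ < 1 ∧ ∀ (α β : ℕ → ℝ) (τ₀ : ℝ),
      (∀ j, 0 ≤ α j) → (∀ j, α j ≤ β j) → 0 ≤ τ₀ → τ₀ ≤ 1 →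
      (∀ j, α j * (1 - C * (τ₀ / 64 ^ j)) ≤ α (j + 1)) →
      (∀ j, β (j + 1) ≤ β j * (1 + C * (τ₀ / 64 ^ j))) →
      (∀ j, β (j + 1) - α (j + 1) ≤ (1 - c) * (β j - α j) + C * (τ₀ / 64 ^ j) * β j) →
      ∃ k : ℝ, α 0 * (1 - C' * τ₀) ≤ k ∧ k ≤ β 0 * (1 + C' * τ₀) ∧
        (∀ j, |α j - k| ≤ C' * μ ^ j * β 0) ∧ ∀ j, |β j - k| ≤ C' * μ ^ j * β 0 := by
  have hCp : 0 < C := by linarith
  set E : ℝ := Real.exp (2 * C) with hE
  have hE0 : 0 < E := Real.exp_pos _
  set K : ℝ := 4 * C * E with hK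
  have hK0 : 0 < K := by positivity
  set M : ℝ := 1 + K + C * E with hM
  have hM0 : 0 < M := by positivity
  set C' : ℝ := 2 * C * E + (1 + K) + M / c + 2 * C + 1 with hC'
  have hMc : 0 < M / c := by positivity
  have hCE : 0 < C * E := by positivity
  refine ⟨C', 1 - c, ?_, by linarith, by linarith, ?_⟩
  · rw [hC']; nlinarith
  intro α β τ₀ hα hαβ ht0 ht1 h1 h2 h3
  have hβ : ∀ j, 0 ≤ β j := fun j => (hα j).trans (hαβ j)
  have hp : ∀ j : ℕ, (0 : ℝ) < 1 / 64 ^ j := fun j => by positivity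
  have hτ : ∀ j : ℕ, 0 ≤ C * (τ₀ / 64 ^ j) := fun j => by positivity
  -- growth of `β`
  have hb : ∀ j : ℕ, β j ≤ β 0 * Real.exp (C * (2 * τ₀ * (1 - 1 / 64 ^ j))) := by
    intro j
    induction j with
    | zero => simp
    | succ j ih =>
      have h4 : β (j + 1) ≤ β j * Real.exp (C * (τ₀ / 64 ^ j)) := by
        refine (h2 j).trans (mul_le_mul_of_nonneg_left ?_ (hβ j))
        have := Real.add_one_le_exp (C * (τ₀ / 64 ^ j))
        linarith
      have h5 : β j * Real.exp (C * (τ₀ / 64 ^ j)) ≤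
          β 0 * Real.exp (C * (2 * τ₀ * (1 - 1 / 64 ^ j))) * Real.exp (C * (τ₀ / 64 ^ j)) :=
        mul_le_mul_of_nonneg_right ih (Real.exp_pos _).le
      have h6 : β 0 * Real.exp (C * (2 * τ₀ * (1 - 1 / 64 ^ j))) * Real.exp (C * (τ₀ / 64 ^ j))
          = β 0 * Real.exp (C * (2 * τ₀ * (1 - 1 / 64 ^ j)) + C * (τ₀ / 64 ^ j)) := by
        rw [Real.exp_add]; ring
      have h7 : C * (2 * τ₀ * (1 - 1 / 64 ^ j)) + C * (τ₀ / 64 ^ j)
          ≤ C * (2 * τ₀ * (1 - 1 / 64 ^ (j + 1))) := by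
        have e : C * (2 * τ₀ * (1 - 1 / 64 ^ (j + 1)))
            - (C * (2 * τ₀ * (1 - 1 / 64 ^ j)) + C * (τ₀ / 64 ^ j))
            = C * τ₀ * (31 / 32) * (1 / 64 ^ j) := by
          rw [pow_succ]; field_simp; ring
        have : 0 ≤ C * τ₀ * (31 / 32) * (1 / 64 ^ j) := by positivity
        linarith
      have h8 : β 0 * Real.exp (C * (2 * τ₀ * (1 - 1 / 64 ^ j)) + C * (τ₀ / 64 ^ j))
          ≤ β 0 * Real.exp (C * (2 * τ₀ * (1 - 1 / 64 ^ (j + 1)))) :=
        mul_le_mul_of_nonneg_left (Real.exp_le_exp.mpr h7) (hβ 0)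
      linarith
  have hb1 : ∀ j : ℕ, β j ≤ β 0 * Real.exp (2 * C * τ₀) := by
    intro j
    refine (hb j).trans (mul_le_mul_of_nonneg_left (Real.exp_le_exp.mpr ?_) (hβ 0))
    have e : 2 * C * τ₀ - C * (2 * τ₀ * (1 - 1 / 64 ^ j)) = 2 * C * τ₀ * (1 / 64 ^ j) := by ring
    have : 0 ≤ 2 * C * τ₀ * (1 / 64 ^ j) := by positivity
    linarith
  have hexpE : Real.exp (2 * C * τ₀) ≤ E := by
    rw [hE]; apply Real.exp_le_exp.mpr; nlinarith
  have hb2 : ∀ j : ℕ, β j ≤ E * β 0 := by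
    intro j
    have := mul_le_mul_of_nonneg_left hexpE (hβ 0)
    linarith [hb1 j]
  have hexp1 : Real.exp (2 * C * τ₀) ≤ 1 + 2 * C * E * τ₀ := by
    -- `1 - y ≤ exp (-y)`, so `exp y - 1 ≤ y exp y`
    have h4 := Real.add_one_le_exp (-(2 * C * τ₀))
    have h5 : Real.exp (2 * C * τ₀) * Real.exp (-(2 * C * τ₀)) = 1 := by
      rw [← Real.exp_add]; simp
    have h6 : Real.exp (2 * C * τ₀) * (-(2 * C * τ₀) + 1) ≤ 1 :=
      (mul_le_mul_of_nonneg_left h4 (Real.exp_pos _).le).trans h5.le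
    have h7 : 2 * C * τ₀ * Real.exp (2 * C * τ₀) ≤ 2 * C * τ₀ * E :=
      mul_le_mul_of_nonneg_left hexpE (by positivity)
    nlinarith
  -- powers
  have hμ : ∀ j : ℕ, (1 / 64 ^ j : ℝ) ≤ (1 - c) ^ j := by
    intro j
    rw [one_div, ← inv_pow]
    exact pow_le_pow_left₀ (by norm_num) (by norm_num; linarith) j
  have hμ0 : ∀ j : ℕ, 0 < (1 - c) ^ j := fun j => pow_pos (by linarith) j
  -- forcing term
  have hf : ∀ j : ℕ, C * (τ₀ / 64 ^ j) * β j ≤ C * E * β 0 * (1 / 64 ^ j) := by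
    intro j
    have h4 : C * (τ₀ / 64 ^ j) ≤ C * (1 / 64 ^ j) := by
      apply mul_le_mul_of_nonneg_left _ hCp.le
      exact div_le_div_of_nonneg_right ht1 (by positivity)
    have h5 := mul_le_mul h4 (hb2 j) (hβ j) (by positivity)
    have e : C * (1 / 64 ^ j) * (E * β 0) = C * E * β 0 * (1 / 64 ^ j) := by ring
    linarith
  -- the gap
  have hg : ∀ j : ℕ, β j - α j ≤ β 0 * ((1 + K) * (1 - c) ^ j - K * (1 / 64 ^ j)) := by
    intro j
    induction j with
    | zero => simp; exact hα 0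
    | succ j ih =>
      have h4 := h3 j
      have h5 := hf j
      have h6 : (1 - c) * (β j - α j) ≤
          (1 - c) * (β 0 * ((1 + K) * (1 - c) ^ j - K * (1 / 64 ^ j))) :=
        mul_le_mul_of_nonneg_left ih (by linarith)
      have e : β 0 * ((1 + K) * (1 - c) ^ (j + 1) - K * (1 / 64 ^ (j + 1)))
          - ((1 - c) * (β 0 * ((1 + K) * (1 - c) ^ j - K * (1 / 64 ^ j)))
            + C * E * β 0 * (1 / 64 ^ j))
          = β 0 * (1 / 64 ^ j) * (K * (1 - c - 1 / 64) - C * E) := by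
        rw [pow_succ, pow_succ]; field_simp; ring
      have h7 : 0 ≤ K * (1 - c - 1 / 64) - C * E := by
        have : K * (31 / 64) ≤ K * (1 - c - 1 / 64) :=
          mul_le_mul_of_nonneg_left (by linarith) hK0.le
        have : C * E ≤ K * (31 / 64) := by rw [hK]; nlinarith
        linarith
      have h8 : 0 ≤ β 0 * (1 / 64 ^ j) * (K * (1 - c - 1 / 64) - C * E) :=
        mul_nonneg (mul_nonneg (hβ 0) (hp j).le) h7
      linarith
  have hg1 : ∀ j : ℕ, β j - α j ≤ (1 + K) * (1 - c) ^ j * β 0 := by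
    intro j
    have h4 := hg j
    have h5 : 0 ≤ β 0 * (K * (1 / 64 ^ j)) := mul_nonneg (hβ 0) (by positivity)
    nlinarith
  have hstep : ∀ j : ℕ, dist (α j) (α (j + 1)) ≤ M * β 0 * (1 - c) ^ j := by
    intro j
    have h4 := h1 j
    have h5 := h2 j
    have h6 := hf j
    have h7 := hg1 j
    have h8 : C * E * β 0 * (1 / 64 ^ j) ≤ C * E * β 0 * (1 - c) ^ j :=
      mul_le_mul_of_nonneg_left (hμ j) (mul_nonneg hCE.le (hβ 0))
    have h9 : C * (τ₀ / 64 ^ j) * α j ≤ C * (τ₀ / 64 ^ j) * β j :=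
      mul_le_mul_of_nonneg_left (hαβ j) (hτ j)
    have e : M * β 0 * (1 - c) ^ j = (1 + K) * (1 - c) ^ j * β 0 + C * E * β 0 * (1 - c) ^ j := by
      rw [hM]; ring
    have h10 : 0 ≤ (1 + K) * (1 - c) ^ j * β 0 :=
      mul_nonneg (mul_nonneg (by linarith) (hμ0 j).le) (hβ 0)
    have h11 := hαβ (j + 1)
    rw [Real.dist_eq, abs_le, e]
    constructor
    · nlinarith
    · nlinarith
  obtain ⟨k, hk⟩ : ∃ k, Tendsto α atTop (𝓝 k) := by
    apply cauchySeq_tendsto_of_complete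
    exact cauchySeq_of_le_geometric (1 - c) (M * β 0) (by linarith) hstep
  have hαk : ∀ j : ℕ, |α j - k| ≤ M / c * (1 - c) ^ j * β 0 := by
    intro j
    have h4 := dist_le_of_le_geometric_of_tendsto (1 - c) (M * β 0) (by linarith) hstep hk j
    rw [Real.dist_eq] at h4
    have e : M * β 0 * (1 - c) ^ j / (1 - (1 - c)) = M / c * (1 - c) ^ j * β 0 := by
      rw [sub_sub_cancel]; ring
    rw [e] at h4
    exact h4
  have hβk : ∀ j : ℕ, |β j - k| ≤ (1 + K + M / c) * (1 - c) ^ j * β 0 := by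
    intro j
    have h4 := hg1 j
    have h5 := hαk j
    have h6 := hαβ j
    rw [abs_le] at h5 ⊢
    have e : (1 + K + M / c) * (1 - c) ^ j * β 0 =
      (1 + K) * (1 - c) ^ j * β 0 + M / c * (1 - c) ^ j * β 0 := by ring
    have h10 : 0 ≤ (1 + K) * (1 - c) ^ j * β 0 :=
      mul_nonneg (mul_nonneg (by linarith) (hμ0 j).le) (hβ 0)
    rw [e]
    constructor <;> linarith [h5.1, h5.2]
  have hkβ : k ≤ β 0 * Real.exp (2 * C * τ₀) :=
    le_of_tendsto hk (Eventually.of_forall fun j => (hαβ j).trans (hb1 j))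
  have hk0 : 0 ≤ k := ge_of_tendsto hk (Eventually.of_forall hα)
  refine ⟨k, ?_, ?_, ?_, ?_⟩
  · by_cases hbig : 1 ≤ C' * τ₀
    · have : α 0 * (1 - C' * τ₀) ≤ 0 := mul_nonpos_of_nonneg_of_nonpos (hα 0) (by linarith)
      linarith
    · push Not at hbig
      have h2C : 2 * C * τ₀ ≤ C' * τ₀ := by
        apply mul_le_mul_of_nonneg_right _ ht0
        rw [hC']; nlinarith
      have ha : ∀ j : ℕ, α 0 * (1 - 2 * C * τ₀ * (1 - 1 / 64 ^ j)) ≤ α j := by
        intro j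
        induction j with
        | zero => simp
        | succ j ih =>
          have h4 := h1 j
          have hle1 : (1 : ℝ) / 64 ^ j ≤ 1 := by
            rw [div_le_one (by positivity)]
            exact one_le_pow₀ (by norm_num)
          have h5 : C * (τ₀ / 64 ^ j) = C * τ₀ * (1 / 64 ^ j) := by ring
          have h6 : C * (τ₀ / 64 ^ j) ≤ C * τ₀ := by
            rw [h5]
            have : C * τ₀ * (1 / 64 ^ j) ≤ C * τ₀ * 1 :=
              mul_le_mul_of_nonneg_left hle1 (by positivity)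
            linarith
          have h7 : α 0 * (1 - 2 * C * τ₀ * (1 - 1 / 64 ^ j)) * (1 - C * (τ₀ / 64 ^ j))
              ≤ α j * (1 - C * (τ₀ / 64 ^ j)) :=
            mul_le_mul_of_nonneg_right ih (by nlinarith)
          have h8 : α 0 * (1 - 2 * C * τ₀ * (1 - 1 / 64 ^ (j + 1))) ≤
              α 0 * (1 - 2 * C * τ₀ * (1 - 1 / 64 ^ j)) * (1 - C * (τ₀ / 64 ^ j)) := by
            have e : α 0 * (1 - 2 * C * τ₀ * (1 - 1 / 64 ^ j)) * (1 - C * (τ₀ / 64 ^ j))
                - α 0 * (1 - 2 * C * τ₀ * (1 - 1 / 64 ^ (j + 1)))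
                = α 0 * (C * τ₀ * (1 / 64 ^ j) * (31 / 32)
                  + 2 * C * τ₀ * (1 - 1 / 64 ^ j) * (C * (τ₀ / 64 ^ j))) := by
              rw [pow_succ]; field_simp; ring
            have : 0 ≤ α 0 * (C * τ₀ * (1 / 64 ^ j) * (31 / 32)
                  + 2 * C * τ₀ * (1 - 1 / 64 ^ j) * (C * (τ₀ / 64 ^ j))) := by
              apply mul_nonneg (hα 0)
              apply add_nonneg (by positivity)
              apply mul_nonneg _ (hτ j)
              apply mul_nonneg (by positivity) (by linarith)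
            linarith
          linarith
      have ha2 : ∀ j : ℕ, α 0 * (1 - C' * τ₀) ≤ α j := by
        intro j
        refine le_trans ?_ (ha j)
        apply mul_le_mul_of_nonneg_left _ (hα 0)
        have : 2 * C * τ₀ * (1 - 1 / 64 ^ j) ≤ 2 * C * τ₀ * 1 :=
          mul_le_mul_of_nonneg_left (by linarith [hp j]) (by positivity)
        linarith
      exact ge_of_tendsto hk (Eventually.of_forall ha2)
  · refine hkβ.trans (mul_le_mul_of_nonneg_left (hexp1.trans ?_) (hβ 0))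
    have : 2 * C * E * τ₀ ≤ C' * τ₀ := by
      apply mul_le_mul_of_nonneg_right _ ht0
      rw [hC']; nlinarith
    linarith
  · intro j
    refine (hαk j).trans ?_
    apply mul_le_mul_of_nonneg_right _ (hβ 0)
    apply mul_le_mul_of_nonneg_right _ (hμ0 j).le
    rw [hC']; nlinarith
  · intro j
    refine (hβk j).trans ?_
    apply mul_le_mul_of_nonneg_right _ (hβ 0)
    apply mul_le_mul_of_nonneg_right _ (hμ0 j).le
    rw [hC']; nlinarith

end Pool.Agent.Lib.MP_47b33c_an
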