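import Pool.Agent.Lib.MP_47b33c_an.Step
import Pool.Agent.Lib.MP_47b33c_an.SeqL

set_option autoImplicit false

open MeasureTheory Metric Set Filter Topology InnerProductSpace
open scoped RealInnerProductSpace Laplacian

namespace Pool.Agent.Lib.MP_47b33c_an

variable {n : ℕ}

theorem e12_locPos_mono {Ω : Set (EE n)} {u : EE n → ℝ} {z : EE n} {r r' : ℝ}
    (h : LocPos Ω u z r) (hr : r' ≤ r) : LocPos Ω u z r' where
  cont := h.cont.mono (ball_subset_ball hr)
  nonneg := fun x hx => h.nonneg x (ball_subset_ball hr hx)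
  zero := fun x hx => h.zero x (ball_subset_ball hr hx)
  harm := h.harm.mono (inter_subset_inter_right _ (ball_subset_ball hr))

/-- dependent choice -/
theorem e12_seq {X : Type} {Inv : ℕ → X → Prop} {Rel : ℕ → X → X → Prop} (x0 : X)
    (h0 : Inv 0 x0) (hs : ∀ j x, Inv j x → ∃ y, Inv (j + 1) y ∧ Rel j x y) :
    ∃ s : ℕ → X, s 0 = x0 ∧ (∀ j, Inv j (s j)) ∧ ∀ j, Rel j (s j) (s (j + 1)) := by
  choose g hg hg' using hs
  let t : ∀ j, {x // Inv j x} := fun j =>
    Nat.rec ⟨x0, h0⟩ (fun j p => ⟨g j p.1 p.2, hg j p.1 p.2⟩) j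
  exact ⟨fun j => (t j).1, rfl, fun j => (t j).2, fun j => hg' j (t j).1 (t j).2⟩

/-- linear expansion at a boundary point different from the origin, starting from a profile -/
theorem exp_at (hn : 2 ≤ n) : ∃ C μ : ℝ, 1 ≤ C ∧ 0 < μ ∧ μ < 1 ∧ ∀ (Ω : Set (EE n))
    (u : EE n → ℝ) (z e : EE n) (r κ α β : ℝ), IsOpen Ω → 0 < r → 0 ≤ κ → κ ≤ th0 →
    (∀ j : ℕ, Flat Ω z (r / 64 ^ j) e (κ / 64 ^ j)) → LocPos Ω u z r → 0 ≤ α → α ≤ β →
    Prof Ω u z r e κ α β →
    ∃ k : ℝ, α * (1 - C * κ) ≤ k ∧ k ≤ β * (1 + C * κ) ∧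
      ∀ j : ℕ, ∀ x ∈ ball z (r / 64 ^ j / 8),
        |u x - k * max 0 ⟪x - z, e⟫| ≤ C * μ ^ j * β * (r / 64 ^ j) := by
  obtain ⟨c, C₀, hc, hc1, hC₀, hstep⟩ := prof_step (n := n) hn
  obtain ⟨C', μ', hC', hμ', hμ'1, hlim⟩ := seq_limit hc hc1 (C := 2 * C₀) (by linarith)
  refine ⟨1 + 3 * C', max μ' (1 / 64), by linarith, lt_max_of_lt_left hμ',
    max_lt hμ'1 (by norm_num), ?_⟩
  intro Ω u z e r κ α β hΩ hr hκ hκth hflat hloc hα hαβ hprof
  have hth : th0 ≤ 1 := by norm_num [th0]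
  have hκ1 : κ ≤ 1 := hκth.trans hth
  have hκj : ∀ j : ℕ, κ / 64 ^ j ≤ κ := fun j => div_le_self hκ (one_le_pow₀ (by norm_num))
  have hκj0 : ∀ j : ℕ, 0 ≤ κ / 64 ^ j := fun j => by positivity
  have hrj : ∀ j : ℕ, 0 < r / 64 ^ j := fun j => by positivity
  have hrjle : ∀ j : ℕ, r / 64 ^ j ≤ r := fun j => div_le_self hr.le (one_le_pow₀ (by norm_num))
  have hrs : ∀ j : ℕ, r / 64 ^ j / 64 = r / 64 ^ (j + 1) := fun j => by
    rw [pow_succ, div_div]
  have hκs : ∀ j : ℕ, κ / 64 ^ (j + 1) ≤ κ / 64 ^ j := fun j => by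
    rw [pow_succ, ← div_div]
    exact div_le_self (hκj0 j) (by norm_num)
  obtain ⟨s, hs0, hs1, hs2⟩ := e12_seq (X := ℝ × ℝ)
    (Inv := fun j p => Prof Ω u z (r / 64 ^ j) e (κ / 64 ^ j) p.1 p.2 ∧ 0 ≤ p.1 ∧ p.1 ≤ p.2)
    (Rel := fun j p q => p.1 * (1 - 2 * C₀ * (κ / 64 ^ j)) ≤ q.1 ∧
      q.2 ≤ p.2 * (1 + 2 * C₀ * (κ / 64 ^ j)) ∧
      q.2 - q.1 ≤ (1 - c) * (p.2 - p.1) + 2 * C₀ * (κ / 64 ^ j) * p.2)
    (α, β) (by simpa using ⟨hprof, hα, hαβ⟩) (by
      rintro j ⟨a, b⟩ ⟨hp, ha, hab⟩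
      simp only at hp ha hab ⊢
      have hf' := hflat (j + 1)
      rw [← hrs j] at hf'
      obtain ⟨a', b', hp', ha', hab', h1, h2, h3⟩ := hstep Ω u z e e (r / 64 ^ j) (κ / 64 ^ j)
        (κ / 64 ^ (j + 1)) a b hΩ (hrj j) (hκj0 j) ((hκj j).trans hκth) (hκj0 (j + 1))
        ((hκj (j + 1)).trans hκth) (hflat j) hf' (e12_locPos_mono hloc (hrjle j)) ha hab hp
      rw [hrs j] at hp'
      have hb : 0 ≤ b := ha.trans hab
      have h4 : C₀ * (κ / 64 ^ j + κ / 64 ^ (j + 1)) ≤ 2 * C₀ * (κ / 64 ^ j) := by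
        have := hκs j
        nlinarith
      refine ⟨(a', b'), ⟨hp', ha', hab'⟩, ?_, ?_, ?_⟩
      · refine le_trans ?_ h1
        exact mul_le_mul_of_nonneg_left (by linarith) ha
      · refine h2.trans ?_
        exact mul_le_mul_of_nonneg_left (by linarith) hb
      · refine h3.trans ?_
        have := mul_le_mul_of_nonneg_right h4 hb
        linarith)
  obtain ⟨k, hk1, hk2, hk3, hk4⟩ := hlim (fun j => (s j).1) (fun j => (s j).2) κ
    (fun j => (hs1 j).2.1) (fun j => (hs1 j).2.2) hκ hκ1 (fun j => (hs2 j).1)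
    (fun j => (hs2 j).2.1) (fun j => (hs2 j).2.2)
  simp only [hs0] at hk1 hk2 hk3 hk4
  have hβ : 0 ≤ β := hα.trans hαβ
  have hC'κ : C' * κ ≤ C' := by nlinarith
  have hkabs : |k| ≤ (1 + C') * β := by
    rw [abs_le]
    constructor
    · have h1 : α * (1 - C' * κ) ≥ -(C' * β) := by nlinarith
      nlinarith
    · have h1 : β * (1 + C' * κ) ≤ β * (1 + C') := by gcongr
      linarith
  refine ⟨k, ?_, ?_, ?_⟩
  · refine le_trans (mul_le_mul_of_nonneg_left ?_ hα) hk1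
    nlinarith
  · refine hk2.trans (mul_le_mul_of_nonneg_left ?_ hβ)
    nlinarith
  intro j x hx
  set R : ℝ := r / 64 ^ j with hR
  have hRpos : 0 < R := hrj j
  set θ : ℝ := κ / 64 ^ j with hθ
  have hθ0 : 0 ≤ θ := hκj0 j
  set μ : ℝ := max μ' (1 / 64) with hμ
  have hμj : μ' ^ j ≤ μ ^ j := by
    have : μ' ≤ μ := le_max_left _ _
    gcongr
  have hθμ : θ ≤ μ ^ j := by
    have h1 : (1 / 64 : ℝ) ^ j ≤ μ ^ j := by
      have : (1 / 64 : ℝ) ≤ μ := le_max_right _ _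
      gcongr
    have h2 : θ ≤ (1 / 64) ^ j := by
      rw [hθ, one_div, inv_pow, div_eq_mul_inv]
      have : 0 ≤ ((64 : ℝ) ^ j)⁻¹ := by positivity
      nlinarith
    exact h2.trans h1
  have hμj0 : 0 ≤ μ ^ j := hθ0.trans hθμ
  set t : ℝ := ⟪x - z, e⟫ with ht
  have hfl := hflat j
  have htR : |t| ≤ R / 8 := by
    have h1 := abs_real_inner_le_norm (x - z) e
    rw [hfl.unit, mul_one] at h1
    have h2 : ‖x - z‖ < R / 8 := by
      rw [← dist_eq_norm]; exact mem_ball.mp hx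
    exact h1.trans h2.le
  have htp : max 0 t ≤ R / 8 := max_le (by positivity) ((le_abs_self t).trans htR)
  have htp0 : 0 ≤ max 0 t := le_max_left _ _
  have hxR : x ∈ ball z R := ball_subset_ball (by linarith) hx
  have hxr : x ∈ ball z r := ball_subset_ball (hrjle j) hxR
  have hu0 : 0 ≤ u x := hloc.nonneg x hxr
  have hpj := (hs1 j).1
  have haj := hk3 j
  have hbj := hk4 j
  set a := (s j).1 with ha
  set b := (s j).2 with hb
  have ha0 : 0 ≤ a := (hs1 j).2.1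
  have hab : a ≤ b := (hs1 j).2.2
  have hμ'j1 : μ' ^ j ≤ 1 := pow_le_one₀ hμ'.le hμ'1.le
  have hbβ : b ≤ (1 + 2 * C') * β := by
    have h1 := (abs_le.mp hbj).2
    have h2 := (abs_le.mp hkabs).2
    have h3 : C' * μ' ^ j * β ≤ C' * 1 * β := by gcongr
    linarith
  have hsmall : ∀ q : ℝ, q ≤ C' * μ' ^ j * β → q * max 0 t ≤ C' * μ ^ j * β * R := by
    intro q hq
    have h0 : 0 ≤ C' * μ' ^ j * β := by positivity
    calc q * max 0 t ≤ C' * μ' ^ j * β * max 0 t := by gcongr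
      _ ≤ C' * μ ^ j * β * R := by
        have h8 : max 0 t ≤ R := htp.trans (by linarith)
        gcongr
  have hθR : ∀ q : ℝ, 0 ≤ q → q ≤ (1 + 2 * C') * β → q * (θ * R) ≤ (1 + 2 * C') * μ ^ j * β * R := by
    intro q hq0 hq
    calc q * (θ * R) ≤ (1 + 2 * C') * β * (μ ^ j * R) := by gcongr
      _ = _ := by ring
  have htot : C' * μ ^ j * β * R + (1 + 2 * C') * μ ^ j * β * R =
      (1 + 3 * C') * μ ^ j * β * R := by ring
  have hCpos : 0 ≤ C' * μ ^ j * β * R := by positivity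
  -- the case of small t
  have hk' : |k| * (θ * R) ≤ (1 + 2 * C') * μ ^ j * β * R :=
    hθR _ (abs_nonneg _) (hkabs.trans (by nlinarith))
  have hlow : k * max 0 t - u x ≤ (1 + 3 * C') * μ ^ j * β * R := by
    rcases le_or_gt t (θ * R) with h | h
    · have h1 : k * max 0 t ≤ |k| * (θ * R) := by
        calc k * max 0 t ≤ |k| * max 0 t := by gcongr; exact le_abs_self k
          _ ≤ |k| * (θ * R) := by
            gcongr
            exact max_le (by positivity) h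
      linarith
    · have h1 := hpj.lower x hx h
      have ht0 : 0 ≤ t := le_trans (by positivity) h.le
      have h2 : max 0 t = t := max_eq_right ht0
      have h3 := hsmall (k - a) (by have := (abs_le.mp haj).1; linarith)
      have h4 := hθR a ha0 (hab.trans hbβ)
      rw [h2] at h3 ⊢
      have h5 : k * t - a * (t - θ * R) = (k - a) * t + a * (θ * R) := by ring
      linarith
  have hup : u x - k * max 0 t ≤ (1 + 3 * C') * μ ^ j * β * R := by
    by_cases hxΩ : x ∈ Ω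
    · have h1 := hpj.upper x hx hxΩ
      have h3 := hsmall (b - k) (by have := (abs_le.mp hbj).2; linarith)
      have h4 := hθR b (ha0.trans hab) hbβ
      have h5 : b * (t + θ * R) ≤ b * (max 0 t + θ * R) := by
        have : 0 ≤ b := ha0.trans hab
        gcongr
        exact le_max_right _ _
      have h6 : b * (max 0 t + θ * R) - k * max 0 t = (b - k) * max 0 t + b * (θ * R) := by ring
      linarith
    · have h1 : u x = 0 := hloc.zero x hxr hxΩ
      have h2 : t ≤ θ * R := by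
        by_contra hcon
        exact hxΩ (hfl.inn x hxR (not_le.mp hcon))
      have h3 : -(k * max 0 t) ≤ |k| * (θ * R) := by
        calc -(k * max 0 t) = (-k) * max 0 t := by ring
          _ ≤ |k| * max 0 t := by gcongr; exact neg_le_abs k
          _ ≤ |k| * (θ * R) := by
            gcongr
            exact max_le (by positivity) h2
      linarith
  rw [abs_le]
  constructor <;> linarith

end Pool.Agent.Lib.MP_47b33c_an
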