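import Pool.Agent.Lib.MP_47b33c_an.Rad

/-!
# The regularised Newtonian kernel
-/

set_option autoImplicit false

open MeasureTheory Metric Set Filter Topology InnerProductSpace
open scoped RealInnerProductSpace Laplacian

namespace Pool.Agent.Lib.MP_47b33c_an

variable {n : ℕ}

theorem d1_glue {f h f' h' : ℝ → ℝ} (hf : ∀ s, s ≤ 1 → HasDerivAt f (f' s) s)
    (hh : ∀ s, 1 ≤ s → HasDerivAt h (h' s) s) (e0 : f 1 = h 1) (e1 : f' 1 = h' 1) (s : ℝ) :
    HasDerivAt (fun s => if s ≤ 1 then f s else h s) (if s ≤ 1 then f' s else h' s) s := by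
  rcases lt_trichotomy s 1 with h1 | h1 | h1
  · rw [if_pos h1.le]
    apply (hf s h1.le).congr_of_eventuallyEq
    filter_upwards [gt_mem_nhds h1] with t ht
    rw [if_pos ht.le]
  · subst h1
    rw [if_pos le_rfl]
    have a1 : HasDerivWithinAt (fun s => if s ≤ 1 then f s else h s) (f' 1) (Iic 1) 1 := by
      apply (hf 1 le_rfl).hasDerivWithinAt.congr
      · intro t ht
        exact if_pos ht
      · exact if_pos le_rfl
    have a2 : HasDerivWithinAt (fun s => if s ≤ 1 then f s else h s) (f' 1) (Ici 1) 1 := by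
      rw [e1]
      apply (hh 1 le_rfl).hasDerivWithinAt.congr
      · intro t ht
        by_cases h2 : t ≤ 1
        · have h3 : t = 1 := le_antisymm h2 ht
          simp [h3, e0]
        · exact if_neg h2
      · simp [e0]
    have a3 := a1.union a2
    rw [Iic_union_Ici] at a3
    exact a3.hasDerivAt univ_mem
  · rw [if_neg (not_le.mpr h1)]
    apply (hh s h1.le).congr_of_eventuallyEq
    filter_upwards [lt_mem_nhds h1] with t ht
    rw [if_neg (not_le.mpr ht)]

/-- first derivative of `gK` -/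
noncomputable def d1_g1 (n : ℕ) (s : ℝ) : ℝ :=
  if s ≤ 1 then -(1 + n / 2 * (1 - s)) else -s ^ (-(n : ℝ) / 2)

/-- second derivative of `gK` -/
noncomputable def d1_g2 (n : ℕ) (s : ℝ) : ℝ :=
  if s ≤ 1 then (n : ℝ) / 2 else (n : ℝ) / 2 * s ^ (-(n : ℝ) / 2 - 1)

theorem d1_hasDerivAt (n : ℕ) (s : ℝ) : HasDerivAt (gK n) (d1_g1 n s) s := by
  unfold gK d1_g1
  apply d1_glue (f := fun s => (1 - s) + (n:ℝ) / 4 * (1 - s) ^ 2)
    (h := fun s => -∫ t in (1 : ℝ)..s, t ^ (-(n : ℝ) / 2))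
    (f' := fun s => -(1 + (n:ℝ) / 2 * (1 - s))) (h' := fun s => -s ^ (-(n : ℝ) / 2))
  · intro s _
    have h1 : HasDerivAt (fun s : ℝ => 1 - s) (-1) s := by
      simpa using (hasDerivAt_id s).const_sub 1
    have h2 := h1.add ((h1.pow 2).const_mul ((n:ℝ)/4))
    refine h2.congr_deriv ?_
    simp
    ring
  · intro s hs
    have hs0 : 0 < s := by linarith
    apply HasDerivAt.neg
    have hcont : ∀ t : ℝ, 0 < t → ContinuousAt (fun t : ℝ => t ^ (-(n : ℝ) / 2)) t :=
      fun t ht => Real.continuousAt_rpow_const t _ (Or.inl ht.ne')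
    apply intervalIntegral.integral_hasDerivAt_right
    · apply ContinuousOn.intervalIntegrable
      intro t ht
      rw [uIcc_of_le hs] at ht
      exact (hcont t (by linarith [ht.1])).continuousWithinAt
    · exact (ContinuousAt.stronglyMeasurableAtFilter isOpen_Ioi
        (fun t ht => hcont t ht) s hs0)
    · exact hcont s hs0
  · simp
  · simp

theorem d1_hasDerivAt2 (n : ℕ) (s : ℝ) : HasDerivAt (d1_g1 n) (d1_g2 n s) s := by
  unfold d1_g1 d1_g2
  apply d1_glue (f := fun s => -(1 + (n:ℝ) / 2 * (1 - s))) (h := fun s => -s ^ (-(n : ℝ) / 2))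
    (f' := fun _ => (n:ℝ) / 2) (h' := fun s => (n : ℝ) / 2 * s ^ (-(n : ℝ) / 2 - 1))
  · intro s _
    have h1 : HasDerivAt (fun s : ℝ => 1 - s) (-1) s := by
      simpa using (hasDerivAt_id s).const_sub 1
    have h2 := ((h1.const_mul ((n:ℝ)/2)).const_add 1).neg
    refine h2.congr_deriv ?_
    ring
  · intro s hs
    have hs0 : 0 < s := by linarith
    have h1 : HasDerivAt (fun s : ℝ => s ^ (-(n : ℝ) / 2))
        (-(n : ℝ) / 2 * s ^ (-(n : ℝ) / 2 - 1)) s :=
      Real.hasDerivAt_rpow_const (Or.inl hs0.ne')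
    refine h1.neg.congr_deriv ?_
    ring
  · simp
  · simp

theorem d1_g2_continuous (n : ℕ) : Continuous (d1_g2 n) := by
  have h1 : d1_g2 n = fun s => (n : ℝ) / 2 * (max 1 s) ^ (-(n : ℝ) / 2 - 1) := by
    ext s
    unfold d1_g2
    split_ifs with h
    · rw [max_eq_left h]
      simp
    · rw [max_eq_right (le_of_not_ge h)]
  rw [h1]
  apply Continuous.mul continuous_const
  apply Continuous.rpow_const (by fun_prop)
  intro s
  left
  have : (1:ℝ) ≤ max 1 s := le_max_left _ _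
  linarith

theorem d1_deriv (n : ℕ) : deriv (gK n) = d1_g1 n := by
  ext s
  exact (d1_hasDerivAt n s).deriv

theorem d1_deriv2 (n : ℕ) : deriv (d1_g1 n) = d1_g2 n := by
  ext s
  exact (d1_hasDerivAt2 n s).deriv

theorem d1_contDiff (n : ℕ) : ContDiff ℝ 2 (gK n) := by
  have h1 : ContDiff ℝ 1 (d1_g1 n) := by
    rw [contDiff_one_iff_deriv]
    refine ⟨fun s => (d1_hasDerivAt2 n s).differentiableAt, ?_⟩
    rw [d1_deriv2]
    exact d1_g2_continuous n
  have h2 : ContDiff ℝ (1 + 1) (gK n) := by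
    rw [contDiff_succ_iff_deriv]
    refine ⟨fun s => (d1_hasDerivAt n s).differentiableAt, by simp, ?_⟩
    rw [d1_deriv]
    exact h1
  exact h2

theorem KK_contDiff (hn : 2 ≤ n) : ContDiff ℝ 2 (KK : EE n → ℝ) := by
  unfold KK
  exact (d1_contDiff n).comp (contDiff_norm_sq ℝ)

theorem lap_KK (hn : 2 ≤ n) (x : EE n) :
    Δ (KK : EE n → ℝ) x = -(n * (n + 2)) * max 0 (1 - ‖x‖ ^ 2) := by
  have h := (lap_radial (0 : EE n) x (g := gK n) (d1_contDiff n).contDiffAt).2
  simp only [sub_zero] at h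
  have h0 : (KK : EE n → ℝ) = fun y : EE n => gK n (‖y‖ ^ 2) := rfl
  rw [h0, h, d1_deriv, d1_deriv2]
  unfold d1_g1 d1_g2
  split_ifs with h1
  · rw [max_eq_right (by linarith)]
    ring
  · have h2 : 0 < ‖x‖ ^ 2 := by linarith
    rw [max_eq_left (by linarith)]
    have h3 : (‖x‖ ^ 2) ^ (-(n:ℝ)/2) = ‖x‖ ^ 2 * (‖x‖ ^ 2) ^ (-(n:ℝ)/2 - 1) := by
      have h4 := Real.rpow_add h2 1 (-(n:ℝ)/2 - 1)
      rw [Real.rpow_one] at h4
      rw [← h4]
      congr 1
      ring
    rw [h3]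
    ring

end Pool.Agent.Lib.MP_47b33c_an
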