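import Pool.Agent.Lib.MP_47b33c_an.Rad
import Pool.Agent.Lib.MP_47b33c_an.Sub
import Pool.Agent.Lib.MP_47b33c_an.Decay

set_option autoImplicit false

open MeasureTheory Metric Set Filter Topology InnerProductSpace
open scoped RealInnerProductSpace Laplacian

namespace Pool.Agent.Lib.MP_47b33c_an

variable {n : ℕ}

/-- decay at infinity -/
theorem vanish_infty (hn : 2 ≤ n) {Ω : Set (EE n)} (hΩ : IsOpen Ω) {P : EE n} (hP : ‖P‖ = 1)
    (hhalf : ∀ x ∈ Ω, 1 ≤ ‖x‖ → 0 < ⟪x, P⟫) {v f : EE n → ℝ} (hv : SubH v Ω) {M : ℝ}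
    (hM : ∀ x ∈ Ω, v x ≤ M) (hf : ∀ η : ℝ, 0 < η → ∃ R : ℝ, ∀ x : EE n, R ≤ ‖x‖ → |f x| ≤ η)
    (h : ∀ ζ ∈ frontier Ω, BdLe Ω v (f ζ) ζ) :
    ∀ η : ℝ, 0 < η → ∃ R : ℝ, ∀ x ∈ Ω, R ≤ ‖x‖ → v x ≤ η := by
  intro η hη
  obtain ⟨R0, hR0⟩ := hf (η / 2) (half_pos hη)
  set R : ℝ := max R0 1 with hR
  have hR1 : 1 ≤ R := le_max_right _ _
  have hRpos : 0 < R := by linarith
  have hRf : ∀ x : EE n, R ≤ ‖x‖ → |f x| ≤ η / 2 := fun x hx => hR0 x ((le_max_left _ _).trans hx)
  set D : Set (EE n) := Ω ∩ {x | R < ‖x‖} with hD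
  have hUo : IsOpen {x : EE n | R < ‖x‖} := isOpen_lt continuous_const continuous_norm
  have hDo : IsOpen D := hΩ.inter hUo
  have hPP : ⟪P, P⟫ = (1 : ℝ) := by rw [real_inner_self_eq_norm_sq, hP]; norm_num
  set β : EE n → ℝ := fun x => ⟪x - (-(R • P)), P⟫ / ‖x - (-(R • P))‖ ^ n with hβ
  have hin : ∀ x : EE n, ⟪x - (-(R • P)), P⟫ = ⟪x, P⟫ + R := by
    intro x
    rw [sub_neg_eq_add, inner_add_left, inner_smul_left, hPP]
    simp
  have hDP : ∀ x ∈ D, 0 < ⟪x, P⟫ := fun x hx => hhalf x hx.1 (hR1.trans hx.2.le)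
  have hny : ∀ x ∈ D, R ≤ ‖x - (-(R • P))‖ := by
    intro x hx
    have h1 : ⟪x - (-(R • P)), P⟫ ≤ ‖x - (-(R • P))‖ * ‖P‖ := real_inner_le_norm _ _
    rw [hin, hP, mul_one] at h1
    linarith [hDP x hx]
  have hβ0 : ∀ x ∈ D, 0 ≤ β x := by
    intro x hx
    simp only [hβ]
    rw [hin]
    exact div_nonneg (by linarith [hDP x hx]) (by positivity)
  have hβh : HarmonicOnNhd β D := by
    refine (harmonic_dipole hn (-(R • P)) P).mono ?_
    intro x hx hx'
    have h1 := hny x hx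
    rw [hx', sub_self, norm_zero] at h1
    linarith
  set β₀ : ℝ := R / (3 * R) ^ n with hβ₀
  have hβ₀pos : 0 < β₀ := by positivity
  have hβlow : ∀ x ∈ D, ‖x‖ ≤ 2 * R → β₀ ≤ β x := by
    intro x hx hx2
    simp only [hβ, hβ₀]
    rw [hin]
    have h1 : ‖x - (-(R • P))‖ ≤ 3 * R := by
      calc ‖x - (-(R • P))‖ ≤ ‖x‖ + ‖-(R • P)‖ := norm_sub_le _ _
        _ = ‖x‖ + R := by rw [norm_neg, norm_smul, hP, Real.norm_of_nonneg hRpos.le, mul_one]
        _ ≤ 3 * R := by linarith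
    have h2 : 0 < ‖x - (-(R • P))‖ := hRpos.trans_le (hny x hx)
    refine div_le_div₀ (by linarith [hDP x hx]) (by linarith [hDP x hx]) (by positivity) ?_
    gcongr
  set M' : ℝ := max M 0 with hM'
  have hM'0 : 0 ≤ M' := le_max_right _ _
  set K : ℝ := M' / β₀ with hK
  have hK0 : 0 ≤ K := div_nonneg hM'0 hβ₀pos.le
  set w : EE n → ℝ := fun x => v x + (-(η / 2) - K * β x) with hw
  have hwh : HarmonicOnNhd (fun x => -(η / 2) - K * β x) D := by
    have h1 : (fun x => -(η / 2) - K * β x) = (fun _ => -(η / 2)) - K • β := by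
      funext x; simp
    rw [h1]
    exact (harmonicOnNhd_const _).sub hβh.const_smul
  have hws : SubH w D := (hv.mono inter_subset_left).add hn (harmonic_subH hn hwh)
  have hwle : ∀ x ∈ D, w x ≤ v x := by
    intro x hx
    have := mul_nonneg hK0 (hβ0 x hx)
    simp only [hw]
    linarith
  have hmax := max_unbounded hn hDo (c := 1 / 4) (r₀ := 0) (by norm_num) (0 : EE n) (v := w)
    (fun r _ hr => by
      refine ⟨-((r / 2) • P), ?_, ?_⟩
      · intro x hx
        rw [mem_closedBall, dist_eq_norm] at hx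
        rw [mem_ball_zero_iff]
        have h1 : ‖-((r / 2) • P)‖ = r / 2 := by
          rw [norm_neg, norm_smul, hP, Real.norm_of_nonneg (by linarith), mul_one]
        have h2 : x = (x - -((r / 2) • P)) + -((r / 2) • P) := by abel
        calc ‖x‖ = ‖(x - -((r / 2) • P)) + -((r / 2) • P)‖ := by rw [← h2]
          _ ≤ _ := norm_add_le _ _
          _ < r := by rw [h1]; linarith
      · rw [Set.disjoint_left]
        intro x hx hxD
        rw [mem_closedBall, dist_eq_norm] at hx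
        have h1 : ⟪x - -((r / 2) • P), P⟫ ≤ ‖x - -((r / 2) • P)‖ * ‖P‖ := real_inner_le_norm _ _
        have h2 : ⟪x - -((r / 2) • P), P⟫ = ⟪x, P⟫ + r / 2 := by
          rw [sub_neg_eq_add, inner_add_left, inner_smul_left, hPP]
          simp
        rw [h2, hP, mul_one] at h1
        linarith [hDP x hxD]) hws (M := M) (fun x hx => (hwle x hx).trans (hM x hx.1)) (by
      intro ζ hζ
      have hζR : R ≤ ‖ζ‖ := by
        have h1 : ζ ∈ closure {x : EE n | R < ‖x‖} :=
          closure_mono inter_subset_right (frontier_subset_closure hζ)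
        exact closure_lt_subset_le continuous_const continuous_norm h1
      rcases hζR.eq_or_lt with hζe | hζl
      · intro η' hη'
        have h1 : ∀ᶠ x in 𝓝[D] ζ, ‖x‖ ≤ 2 * R := by
          have h2 : Tendsto (fun x : EE n => ‖x‖) (𝓝[D] ζ) (𝓝 ‖ζ‖) :=
            (continuous_norm.tendsto ζ).mono_left nhdsWithin_le_nhds
          refine h2.eventually_le_const ?_
          rw [← hζe]; linarith
        filter_upwards [h1, self_mem_nhdsWithin] with x hx hxD
        have h3 := hβlow x hxD hx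
        have h4 : M' ≤ K * β x := by
          calc M' = K * β₀ := by rw [hK, div_mul_cancel₀ _ hβ₀pos.ne']
            _ ≤ K * β x := by gcongr
        have h5 := hM x hxD.1
        have h6 : M ≤ M' := le_max_left _ _
        simp only [hw]
        linarith
      · intro η' hη'
        have hζΩ : ζ ∈ frontier Ω := by
          rw [hΩ.frontier_eq]
          rw [hDo.frontier_eq] at hζ
          refine ⟨closure_mono inter_subset_left hζ.1, fun hx => hζ.2 ⟨hx, hζl⟩⟩
        have h1 := h ζ hζΩ η' hη'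
        have h2 : ∀ᶠ x in 𝓝[D] ζ, v x ≤ f ζ + η' := h1.filter_mono (nhdsWithin_mono ζ inter_subset_left)
        filter_upwards [h2, self_mem_nhdsWithin] with x hx hxD
        have h3 := mul_nonneg hK0 (hβ0 x hxD)
        have h4 := (abs_le.mp (hRf ζ hζR)).2
        simp only [hw]
        linarith)
  refine ⟨R + 1 + 2 * K / η, fun x hx hxR => ?_⟩
  have hKη : 0 ≤ 2 * K / η := by positivity
  have hxD : x ∈ D := ⟨hx, by show R < ‖x‖; linarith⟩
  have h1 := hmax x hxD
  have h2 : 1 + 2 * K / η ≤ ‖x - (-(R • P))‖ := by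
    have h3 : ‖x‖ ≤ ‖x - (-(R • P))‖ + ‖-(R • P)‖ := by
      calc ‖x‖ = ‖(x - (-(R • P))) + (-(R • P))‖ := by congr 1; abel
        _ ≤ _ := norm_add_le _ _
    rw [norm_neg, norm_smul, hP, Real.norm_of_nonneg hRpos.le, mul_one] at h3
    linarith
  have h4 : β x ≤ 1 / ‖x - (-(R • P))‖ := by
    simp only [hβ]
    set y := x - (-(R • P)) with hy
    have hy1 : 1 ≤ ‖y‖ := by linarith
    have hy0 : 0 < ‖y‖ := by linarith
    have h5 : ⟪y, P⟫ ≤ ‖y‖ := by
      have := real_inner_le_norm y P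
      rwa [hP, mul_one] at this
    rw [div_le_div_iff₀ (by positivity) hy0, one_mul]
    calc ⟪y, P⟫ * ‖y‖ ≤ ‖y‖ * ‖y‖ := by gcongr
      _ = ‖y‖ ^ 2 := by ring
      _ ≤ ‖y‖ ^ n := pow_le_pow_right₀ hy1 hn
  have h5 : K * β x ≤ η / 2 := by
    have hy0 : 0 < ‖x - (-(R • P))‖ := by linarith
    calc K * β x ≤ K * (1 / ‖x - (-(R • P))‖) := by gcongr
      _ = K / ‖x - (-(R • P))‖ := by ring
      _ ≤ η / 2 := by
        rw [div_le_iff₀ hy0]
        have h6 : η / 2 * (1 + 2 * K / η) ≤ η / 2 * ‖x - (-(R • P))‖ := by gcongr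
        have h7 : η / 2 * (1 + 2 * K / η) = η / 2 + K := by field_simp
        linarith
  simp only [hw] at h1
  linarith

end Pool.Agent.Lib.MP_47b33c_an
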