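import Pool.Agent.Lib.MP_47b33c_an.MaxP
import Pool.Agent.Lib.MP_47b33c_an.Strong
import Pool.Agent.Lib.MP_47b33c_an.Dirichlet
import Pool.Agent.Lib.MP_47b33c_an.Sub
import Pool.Agent.Lib.MP_47b33c_an.Decay
import Pool.Agent.Lib.MP_47b33c_an.DirProb
import Pool.Agent.Lib.MP_47b33c_an.Kernel
import Pool.Agent.Lib.MP_47b33c_an.KernelB
import Pool.Agent.Lib.MP_47b33c_an.Vanish

set_option autoImplicit false

open MeasureTheory Metric Set Filter Topology InnerProductSpace
open scoped RealInnerProductSpace Laplacian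

namespace Pool.Agent.Lib.MP_47b33c_an

variable {n : ℕ}

theorem d4_lap_shift (f : EE n → ℝ) (a x : EE n) : Δ (fun y => f (y - a)) x = Δ f (x - a) := by
  rw [laplacian_eq_iteratedFDeriv_orthonormalBasis _ (EuclideanSpace.basisFun (Fin n) ℝ),
    laplacian_eq_iteratedFDeriv_orthonormalBasis _ (EuclideanSpace.basisFun (Fin n) ℝ)]
  simp only
  refine Finset.sum_congr rfl fun i _ => ?_
  rw [iteratedFDeriv_comp_sub]

/-- a nonpositive subharmonic function on a preconnected open set which vanishes at a point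
vanishes identically -/
theorem d4_strong (hn : 2 ≤ n) {Ω : Set (EE n)} (hΩ : IsOpen Ω) (hcon : IsPreconnected Ω)
    {v : EE n → ℝ} (hv : SubH v Ω) (h0 : ∀ x ∈ Ω, v x ≤ 0) {p : EE n} (hp : p ∈ Ω)
    (hvp : v p = 0) : ∀ x ∈ Ω, v x = 0 := by
  set Z : Set (EE n) := {x | x ∈ Ω ∧ v x = 0} with hZ
  set W : Set (EE n) := {x | x ∈ Ω ∧ v x ≠ 0} with hW
  have hWo : IsOpen W := by
    have h1 : W = Ω ∩ v ⁻¹' {(0 : ℝ)}ᶜ := by ext x; simp [hW]
    rw [h1]
    exact hv.1.isOpen_inter_preimage hΩ isClosed_singleton.isOpen_compl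
  have hZo : IsOpen Z := by
    rw [Metric.isOpen_iff]
    intro x hx
    obtain ⟨r, hr, hrΩ⟩ := Metric.isOpen_iff.mp hΩ x hx.1
    refine ⟨r, hr, fun y hy => ⟨hrΩ hy, ?_⟩⟩
    rcases eq_or_ne y x with rfl | hyx
    · exact hx.2
    have hρ : 0 < dist y x := dist_pos.mpr hyx
    have hsub : closedBall x (dist y x) ⊆ Ω := (closedBall_subset_ball (mem_ball.mp hy)).trans hrΩ
    obtain ⟨h, hhc, hhh, hhe⟩ := dirichlet_ball hn x hρ (hv.1.mono
      (sphere_subset_closedBall.trans hsub))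
    have h1 : ∀ w ∈ closedBall x (dist y x), v w ≤ h w :=
      hv.2 x _ hρ hsub h hhc hhh fun w hw => (hhe w hw).ge
    have h2 : ∀ w ∈ closedBall x (dist y x), h w ≤ 0 := by
      have := (harmonic_subH hn hhh)
      intro w hw
      have h3 := weak_max hn isOpen_ball isBounded_ball (u := h)
        (by rw [closure_ball x hρ.ne']; exact hhc) (fun a ha => (hhh a ha).1)
        (fun a ha => by rw [(hhh a ha).2.eq_of_nhds]; exact le_rfl)
        (fun a ha => by
          rw [frontier_ball x hρ.ne'] at ha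
          rw [hhe a ha]
          exact h0 a (hsub (sphere_subset_closedBall ha)))
      exact h3 w (by rw [closure_ball x hρ.ne']; exact hw)
    have h3 : h x = 0 := le_antisymm (h2 x (mem_closedBall_self hρ.le))
      (by rw [← hx.2]; exact h1 x (mem_closedBall_self hρ.le))
    have h4 : ∀ w ∈ ball x (dist y x), h w = 0 :=
      strong_max hn hhh (fun w hw => h2 w (ball_subset_closedBall hw)) h3
    have h5 : h y = 0 := by
      have hyc : y ∈ closure (ball x (dist y x)) := by
        rw [closure_ball x hρ.ne']; exact mem_closedBall.mpr le_rfl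
      have h6 : EqOn h (fun _ => 0) (closure (ball x (dist y x))) :=
        EqOn.of_subset_closure (s := ball x (dist y x)) (fun w hw => h4 w hw)
          (by rw [closure_ball x hρ.ne']; exact hhc) continuousOn_const subset_closure
          subset_rfl
      exact h6 hyc
    rw [← hhe y (mem_sphere.mpr rfl)]
    exact h5
  have hcov : Ω ⊆ Z ∪ W := by
    intro x hx
    by_cases h : v x = 0
    · exact Or.inl ⟨hx, h⟩
    · exact Or.inr ⟨hx, h⟩
  have hdis : Disjoint Z W := by
    rw [Set.disjoint_left]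
    intro x hx hx'
    exact hx'.2 hx.2
  have hsub := hcon.subset_left_of_subset_union hZo hWo hdis hcov ⟨p, hp, hp, hvp⟩
  intro x hx
  exact (hsub hx).2

theorem exists_greenPot (hn : 2 ≤ n) {Ω : Set (EE n)} (hΩ : IsOpen Ω)
    (hcon : IsPreconnected Ω) {c : ℝ} (hc : 0 < c)
    (hext : ∀ z ∈ frontier Ω, ∀ r : ℝ, 0 < r → ExtAt c Ω z r) {P : EE n} (hP : ‖P‖ = 1)
    (hhalf : ∀ x ∈ Ω, 1 ≤ ‖x‖ → 0 < ⟪x, P⟫) {A B : EE n} (hA : closedBall A 1 ⊆ Ω)
    (hB : ∀ x ∈ Ω, 1 ≤ ‖x - B‖) : ∃ G : EE n → ℝ, GreenPot Ω A G := by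
  classical
  set N : ℝ := n * (n + 2) with hN
  have hN0 : 0 < N := by
    have : (0:ℝ) < n := by exact_mod_cast (by omega : 0 < n)
    positivity
  set f : EE n → ℝ := fun x => KK (x - A) - KK (x - B) with hf
  have hKc : Continuous (KK : EE n → ℝ) := (KK_contDiff hn).continuous
  have hfc : Continuous f := by
    simp only [hf]
    exact (hKc.comp (continuous_id.sub continuous_const)).sub
      (hKc.comp (continuous_id.sub continuous_const))
  obtain ⟨M, hM⟩ := KK_sub_bounded hn A B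
  obtain ⟨u, hu, huM⟩ := dirichlet hn hΩ hc hext f hfc M hM
  have hAΩ : A ∈ Ω := hA (mem_closedBall_self zero_le_one)
  have hBΩ : B ∉ Ω := by
    intro h
    have := hB B h
    rw [sub_self, norm_zero] at this
    linarith
  obtain ⟨z, hz⟩ : (frontier Ω).Nonempty :=
    nonempty_frontier_iff.mpr ⟨⟨A, hAΩ⟩, fun h => hBΩ (by rw [h]; exact mem_univ _)⟩
  set G : EE n → ℝ := Ω.piecewise (fun x => (f x - u x) / N) (fun _ => 0) with hG
  have hGin : ∀ x ∈ Ω, G x = (f x - u x) / N := fun x hx => piecewise_eq_of_mem _ _ _ hx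
  have hGout : ∀ x, x ∉ Ω → G x = 0 := fun x hx => piecewise_eq_of_notMem _ _ _ hx
  have hGcont : Continuous G := by
    rw [← continuousOn_univ, hG]
    refine ContinuousOn.piecewise ?_ ?_ continuousOn_const
    · intro x hx
      rw [hu.eq x hx.2, sub_self, zero_div]
    · rw [univ_inter]
      exact (hfc.continuousOn.sub hu.cont).div_const N
  have hev : ∀ x ∈ Ω, G =ᶠ[𝓝 x] fun y => (f y - u y) / N := by
    intro x hx
    filter_upwards [hΩ.mem_nhds hx] with y hy
    exact hGin y hy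
  have hfd : ContDiff ℝ 2 f := by
    have h1 : ContDiff ℝ 2 (KK : EE n → ℝ) := KK_contDiff hn
    simp only [hf]
    exact (h1.comp (contDiff_id.sub contDiff_const)).sub
      (h1.comp (contDiff_id.sub contDiff_const))
  have hdiff : ∀ x ∈ Ω, ContDiffAt ℝ 2 G x := by
    intro x hx
    refine ContDiffAt.congr_of_eventuallyEq ?_ (hev x hx)
    exact (hfd.contDiffAt.sub (hu.harm x hx).1).div_const N
  have hlapf : ∀ x ∈ Ω, Δ f x = -(N * max 0 (1 - ‖x - A‖ ^ 2)) := by
    intro x hx
    have h1 : ContDiff ℝ 2 (KK : EE n → ℝ) := KK_contDiff hn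
    have ha : ContDiffAt ℝ 2 (fun y : EE n => KK (y - A)) x :=
      (h1.comp (contDiff_id.sub contDiff_const)).contDiffAt
    have hb : ContDiffAt ℝ 2 (fun y : EE n => KK (y - B)) x :=
      (h1.comp (contDiff_id.sub contDiff_const)).contDiffAt
    have h2 : f = (fun y : EE n => KK (y - A)) - fun y : EE n => KK (y - B) := rfl
    rw [h2, ContDiffAt.laplacian_sub ha hb, d4_lap_shift, d4_lap_shift, lap_KK hn, lap_KK hn]
    have h3 : max 0 (1 - ‖x - B‖ ^ 2) = 0 := by
      refine max_eq_left ?_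
      have := hB x hx
      nlinarith
    rw [h3, hN]
    ring
  have hlap : ∀ x ∈ Ω, Δ G x = -max 0 (1 - ‖x - A‖ ^ 2) := by
    intro x hx
    rw [(laplacian_congr_nhds (hev x hx)).eq_of_nhds]
    have h1 : (fun y => (f y - u y) / N) = (N⁻¹ : ℝ) • (f - u) := by
      funext y
      simp [div_eq_inv_mul]
    rw [h1, laplacian_smul, ContDiffAt.laplacian_sub hfd.contDiffAt (hu.harm x hx).1,
      (hu.harm x hx).2.eq_of_nhds, hlapf x hx]
    · simp only [Pi.zero_apply, sub_zero, smul_eq_mul]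
      field_simp
    · exact hfd.contDiffAt.sub (hu.harm x hx).1
  -- nonnegativity
  have hnegdiff : ∀ x ∈ Ω, ContDiffAt ℝ 2 (fun y => -G y) x := fun x hx => (hdiff x hx).neg
  have hneglap : ∀ x ∈ Ω, Δ (fun y => -G y) x = max 0 (1 - ‖x - A‖ ^ 2) := by
    intro x hx
    have h1 : (fun y => -G y) = -G := rfl
    rw [h1, laplacian_neg, Pi.neg_apply, hlap x hx, neg_neg]
  have hsub : SubH (fun y => -G y) Ω := by
    refine subH_of_lap hn hΩ hnegdiff fun x hx => ?_
    rw [hneglap x hx]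
    exact le_max_left _ _
  have hM0 : 0 ≤ M := (abs_nonneg _).trans (hM 0)
  have hGb : ∀ x ∈ Ω, -G x ≤ 2 * M / N := by
    intro x hx
    rw [hGin x hx, ← neg_div]
    refine div_le_div_of_nonneg_right ?_ hN0.le
    have h1 := (abs_le.mp (hM x)).1
    have h2 := (abs_le.mp (huM x hx)).2
    simp only [hf]
    linarith
  have hle : ∀ x ∈ Ω, -G x ≤ 0 := by
    refine max_unbounded hn hΩ hc z (r₀ := 0) (fun r _ hr => hext z hz r hr) hsub hGb ?_
    intro ζ hζ η hη
    have h1 : Tendsto (fun y => -G y) (𝓝 ζ) (𝓝 (-G ζ)) := hGcont.neg.continuousAt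
    have h2 : G ζ = 0 := by
      refine hGout ζ ?_
      rw [hΩ.frontier_eq] at hζ
      exact hζ.2
    rw [h2, neg_zero] at h1
    refine (h1.mono_left nhdsWithin_le_nhds).eventually_le_const ?_
    linarith
  have hne0 : ∀ x ∈ Ω, G x ≠ 0 := by
    intro x hx h0
    have h1 := d4_strong hn hΩ hcon hsub hle hx (by rw [h0, neg_zero])
    have h2 : (fun y => -G y) =ᶠ[𝓝 A] fun _ => (0 : ℝ) := by
      filter_upwards [hΩ.mem_nhds hAΩ] with y hy
      exact h1 y hy
    have h3 := (laplacian_congr_nhds h2).eq_of_nhds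
    rw [hneglap A hAΩ, laplacian_const] at h3
    simp at h3
  refine ⟨G, hGcont, hGout, fun x hx => ?_, hdiff, hlap, ?_⟩
  · have h1 := hle x hx
    have h2 := hne0 x hx
    exact lt_of_le_of_ne (by linarith) (Ne.symm h2)
  · intro η hη
    have hNη : 0 < N * η / 2 := by positivity
    have hbd : ∀ ζ ∈ frontier Ω, BdLe Ω (-u) ((-f) ζ) ζ := by
      intro ζ hζ η hη
      have h1 : Tendsto (-u) (𝓝[Ω] ζ) (𝓝 (-u ζ)) :=
        ((hu.cont ζ (frontier_subset_closure hζ)).mono subset_closure).neg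
      rw [hu.eq ζ hζ] at h1
      filter_upwards [h1.eventually_lt_const (lt_add_of_pos_right (-f ζ) hη)] with x hx
      exact hx.le
    obtain ⟨R1, hR1⟩ := vanish_infty hn hΩ hP hhalf (harmonic_subH hn hu.harm.neg)
      (M := M) (fun x hx => (neg_le_abs _).trans (huM x hx)) (f := -f)
      (fun η hη => by simpa [hf, abs_sub_comm] using KK_sub_small hn B A η hη) hbd
      (N * η / 2) hNη
    obtain ⟨R2, hR2⟩ := KK_sub_small hn A B (N * η / 2) hNη
    refine ⟨max R1 R2, fun x hx => ?_⟩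
    by_cases hxΩ : x ∈ Ω
    · rw [hGin x hxΩ, div_le_iff₀ hN0]
      have h1 := hR1 x hxΩ ((le_max_left _ _).trans hx)
      have h2 := hR2 x ((le_max_right _ _).trans hx)
      rw [Pi.neg_apply] at h1
      have h3 := (abs_le.mp h2).2
      simp only [hf]
      linarith
    · rw [hGout x hxΩ]
      exact hη.le

end Pool.Agent.Lib.MP_47b33c_an
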