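import Pool.Agent.Lib.MP_47b33c_an.Sub
import Pool.Agent.Lib.MP_47b33c_an.Decay
import Pool.Agent.Lib.MP_47b33c_an.DirProb
import Pool.Agent.Lib.MP_47b33c_an.DirUniq

/-!
# Existence of harmonic measure (task C2 of the blueprint for MP_47b33c_an)
-/

set_option autoImplicit false

open MeasureTheory Metric Set Filter Topology InnerProductSpace
open scoped RealInnerProductSpace Laplacian CompactlySupported

namespace Pool.Agent.Lib.MP_47b33c_an

variable {n : ℕ}

section C2

theorem c2_add {Ω : Set (EE n)} {f g u v : EE n → ℝ} (hu : IsDir Ω f u) (hv : IsDir Ω g v) :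
    IsDir Ω (fun x => f x + g x) (fun x => u x + v x) where
  cont := hu.cont.add hv.cont
  harm := hu.harm.add hv.harm
  bdd := by
    obtain ⟨M, hM⟩ := hu.bdd
    obtain ⟨N, hN⟩ := hv.bdd
    exact ⟨M + N, fun x hx => (abs_add_le _ _).trans (add_le_add (hM x hx) (hN x hx))⟩
  eq := fun x hx => by rw [hu.eq x hx, hv.eq x hx]

theorem c2_smul {Ω : Set (EE n)} {f u : EE n → ℝ} (a : ℝ) (hu : IsDir Ω f u) :
    IsDir Ω (fun x => a * f x) (fun x => a * u x) where
  cont := continuousOn_const.mul hu.cont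
  harm := hu.harm.const_smul (c := a)
  bdd := by
    obtain ⟨M, hM⟩ := hu.bdd
    refine ⟨|a| * M, fun x hx => ?_⟩
    rw [abs_mul]
    exact mul_le_mul_of_nonneg_left (hM x hx) (abs_nonneg _)
  eq := fun x hx => by rw [hu.eq x hx]

theorem c2_sub {Ω : Set (EE n)} {f g u v : EE n → ℝ} (hu : IsDir Ω f u) (hv : IsDir Ω g v) :
    IsDir Ω (fun x => f x - g x) (fun x => u x - v x) where
  cont := hu.cont.sub hv.cont
  harm := hu.harm.sub hv.harm
  bdd := by
    obtain ⟨M, hM⟩ := hu.bdd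
    obtain ⟨N, hN⟩ := hv.bdd
    exact ⟨M + N, fun x hx => (abs_sub _ _).trans (add_le_add (hM x hx) (hN x hx))⟩
  eq := fun x hx => by rw [hu.eq x hx, hv.eq x hx]

theorem c2_const (b : ℝ) (Ω : Set (EE n)) : IsDir Ω (fun _ => b) (fun _ => b) where
  cont := continuousOn_const
  harm := harmonicOnNhd_const b
  bdd := ⟨|b|, fun _ _ => le_rfl⟩
  eq := fun _ _ => rfl

/-- the positive functional `f ↦ u_f A` -/
theorem c2_functional (hn : 2 ≤ n) {Ω : Set (EE n)} (hΩ : IsOpen Ω) {c : ℝ} (hc : 0 < c)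
    (hne : (frontier Ω).Nonempty) (hext : ∀ z ∈ frontier Ω, ∀ r : ℝ, 0 < r → ExtAt c Ω z r)
    {A : EE n} (hA : A ∈ Ω) :
    ∃ Λ : C_c(EE n, ℝ) →ₚ[ℝ] ℝ, ∀ (f : C_c(EE n, ℝ)) (u : EE n → ℝ),
      IsDir Ω (fun x => f x) u → Λ f = u A := by
  have ex : ∀ f : C_c(EE n, ℝ), ∃ u, IsDir Ω (fun x => f x) u := by
    intro f
    obtain ⟨M, hM⟩ := f.continuous.bounded_above_of_compact_support f.hasCompactSupport
    obtain ⟨u, hu, -⟩ := dirichlet hn hΩ hc hext (fun x => f x) f.continuous M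
      (fun x => by simpa using hM x)
    exact ⟨u, hu⟩
  have uniq : ∀ f g u v : EE n → ℝ, IsDir Ω f u → IsDir Ω g v → (∀ x ∈ frontier Ω, f x = g x) →
      u A = v A := fun f g u v hu hv hfg =>
    le_antisymm (dir_unique hn hΩ hc hne hext hu hv (fun x hx => (hfg x hx).le) A hA)
      (dir_unique hn hΩ hc hne hext hv hu (fun x hx => (hfg x hx).ge) A hA)
  choose U hU using ex
  let L : C_c(EE n, ℝ) →ₗ[ℝ] ℝ :=
    { toFun := fun f => U f A
      map_add' := fun f g => uniq _ _ _ (fun x => U f x + U g x) (hU (f + g))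
        (c2_add (hU f) (hU g)) (fun x _ => rfl)
      map_smul' := fun a f => uniq _ _ _ (fun x => a * U f x) (hU (a • f))
        (c2_smul a (hU f)) (fun x _ => rfl) }
  refine ⟨PositiveLinearMap.mk₀ L (fun f hf => ?_), fun f u hu => ?_⟩
  · exact dir_unique hn hΩ hc hne hext (c2_const 0 Ω) (hU f) (fun x _ => hf x) A hA
  · exact uniq _ _ _ _ (hU f) hu (fun x _ => rfl)

/-- decay towards a boundary point over many scales -/
theorem c2_decay (hn : 2 ≤ n) {Ω : Set (EE n)} (hΩ : IsOpen Ω) {c : ℝ} (hc : 0 < c) {z : EE n}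
    (hext : ∀ r : ℝ, 0 < r → ExtAt c Ω z r) :
    ∃ θ : ℝ, 0 < θ ∧ θ < 1 ∧ ∀ (k : ℕ) (r : ℝ) (g u : EE n → ℝ), 0 < r → IsDir Ω g u →
      (∀ x ∈ Ω, u x ≤ 1) → (∀ ζ ∈ frontier Ω ∩ ball z (6 ^ k * r), g ζ ≤ 0) →
      ∀ x ∈ Ω ∩ ball z r, u x ≤ (1 - θ) ^ k := by
  obtain ⟨θ, h0, h1, hdec⟩ := decay hn c hc
  refine ⟨θ, h0, h1, ?_⟩
  intro k
  induction k with
  | zero =>
    intro r g u _ _ hu1 _ x hx
    simpa using hu1 x hx.1
  | succ k ih =>
    intro r g u hr hu hu1 hg x hx
    have hM : 0 ≤ (1 - θ) ^ k := pow_nonneg (by linarith) k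
    have hstep : ∀ x ∈ Ω ∩ ball z (6 * r), u x ≤ (1 - θ) ^ k := by
      refine ih (6 * r) g u (by positivity) hu hu1 ?_
      intro ζ hζ
      refine hg ζ ⟨hζ.1, ?_⟩
      have : (6:ℝ) ^ (k + 1) * r = 6 ^ k * (6 * r) := by ring
      rw [this]
      exact hζ.2
    have hsub : ball z (6 * r) ⊆ ball z (6 ^ (k + 1) * r) := by
      apply ball_subset_ball
      have h6 : (1:ℝ) ≤ 6 ^ k := one_le_pow₀ (by norm_num)
      have : (6:ℝ) ^ (k + 1) * r = 6 ^ k * (6 * r) := by ring
      rw [this]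
      nlinarith
    have := hdec Ω z r u ((1 - θ) ^ k) hΩ hr (hext r hr) hM
      (harmonic_subH hn (hu.harm.mono inter_subset_left)) hstep ?_ x hx
    · rw [pow_succ']
      exact this
    · intro ζ hζ
      have hζg : u ζ ≤ 0 := by
        rw [hu.eq ζ hζ.1]
        exact hg ζ ⟨hζ.1, hsub hζ.2⟩
      have hcont : Tendsto u (𝓝[Ω] ζ) (𝓝 (u ζ)) :=
        (hu.cont ζ (frontier_subset_closure hζ.1)).mono subset_closure
      intro η hη
      have : ∀ᶠ x in 𝓝[Ω] ζ, u x < 0 + η := hcont.eventually (gt_mem_nhds (by linarith))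
      exact this.mono (fun x hx => hx.le)

/-- a radial cutoff function -/
noncomputable def c2_chi (R : ℝ) (x : EE n) : ℝ := max 0 (min 1 (R + 1 - ‖x‖))

theorem c2_chi_cont (R : ℝ) : Continuous (c2_chi R : EE n → ℝ) := by
  unfold c2_chi
  fun_prop

theorem c2_chi_nonneg (R : ℝ) (x : EE n) : 0 ≤ c2_chi R x := le_max_left _ _

theorem c2_chi_le (R : ℝ) (x : EE n) : c2_chi R x ≤ 1 := max_le zero_le_one (min_le_left _ _)

theorem c2_chi_one {R : ℝ} {x : EE n} (h : ‖x‖ ≤ R) : c2_chi R x = 1 := by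
  unfold c2_chi
  rw [min_eq_left (by linarith), max_eq_right zero_le_one]

theorem c2_chi_supp (R : ℝ) : HasCompactSupport (c2_chi R : EE n → ℝ) := by
  apply HasCompactSupport.of_support_subset_isCompact (isCompact_closedBall (0 : EE n) (R + 1))
  intro x hx
  rw [mem_closedBall_zero_iff]
  by_contra hcon
  push Not at hcon
  apply hx
  unfold c2_chi
  rw [max_eq_left]
  exact (min_le_right _ _).trans (by linarith)

/-- the mass near infinity is small -/
theorem c2_tail (hn : 2 ≤ n) {Ω : Set (EE n)} (hΩ : IsOpen Ω) {c : ℝ} (hc : 0 < c)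
    (hne : (frontier Ω).Nonempty) (hext : ∀ z ∈ frontier Ω, ∀ r : ℝ, 0 < r → ExtAt c Ω z r)
    {A : EE n} (hA : A ∈ Ω) {η : ℝ} (hη : 0 < η) :
    ∃ R : ℝ, ∀ R' : ℝ, R ≤ R' → ∀ u : EE n → ℝ, IsDir Ω (fun x => 1 - c2_chi R' x) u →
      u A ≤ η := by
  obtain ⟨z, hz⟩ := hne
  obtain ⟨θ, h0, h1, hdec⟩ := c2_decay hn hΩ hc (hext z hz)
  obtain ⟨k, hk⟩ := exists_pow_lt_of_lt_one hη (show 1 - θ < 1 by linarith)
  refine ⟨‖z‖ + 6 ^ k * (dist A z + 1), fun R' hR' u hu => ?_⟩
  have hd : 0 < dist A z + 1 := by positivity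
  refine (hdec k (dist A z + 1) (fun x => 1 - c2_chi R' x) u hd hu ?_ ?_ A
    ⟨hA, by rw [mem_ball]; linarith⟩).trans hk.le
  · exact dir_unique hn hΩ hc ⟨z, hz⟩ hext hu (c2_const 1 Ω)
      (fun x _ => by have := c2_chi_nonneg R' x; linarith)
  · intro ζ hζ
    have h2 : ‖ζ‖ ≤ R' := by
      have h3 := hζ.2
      rw [mem_ball, dist_eq_norm] at h3
      have h4 : ‖ζ‖ ≤ ‖ζ - z‖ + ‖z‖ := by
        calc ‖ζ‖ = ‖(ζ - z) + z‖ := by rw [sub_add_cancel]
          _ ≤ _ := norm_add_le _ _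
      linarith
    change 1 - c2_chi R' ζ ≤ 0
    rw [c2_chi_one h2]
    simp

theorem exists_harmonicMeasure (hn : 2 ≤ n) {Ω : Set (EE n)} (hΩ : IsOpen Ω) {c : ℝ} (hc : 0 < c)
    (hne : (frontier Ω).Nonempty) (hext : ∀ z ∈ frontier Ω, ∀ r : ℝ, 0 < r → ExtAt c Ω z r)
    {A : EE n} (hA : A ∈ Ω) : ∃ ω : Measure (EE n), IsHarmonicMeasure Ω A ω := by
  obtain ⟨Λ, hΛ⟩ := c2_functional hn hΩ hc hne hext hA
  have hint : ∀ f : C_c(EE n, ℝ), ∫ x, f x ∂(RealRMK.rieszMeasure Λ) = Λ f :=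
    RealRMK.integral_rieszMeasure Λ
  have hreg : (RealRMK.rieszMeasure Λ).Regular := inferInstance
  set ω := RealRMK.rieszMeasure Λ with hω
  have hsolc : ∀ f : C_c(EE n, ℝ), ∃ u, IsDir Ω (fun x => f x) u := by
    intro f
    obtain ⟨M, hM⟩ := f.continuous.bounded_above_of_compact_support f.hasCompactSupport
    obtain ⟨u, hu, -⟩ := dirichlet hn hΩ hc hext (fun x => f x) f.continuous M
      (fun x => by simpa using hM x)
    exact ⟨u, hu⟩
  have hle1 : ∀ f : C_c(EE n, ℝ), (∀ x, f x ≤ 1) → Λ f ≤ 1 := by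
    intro f hf
    obtain ⟨u, hu⟩ := hsolc f
    rw [hΛ f u hu]
    exact dir_unique hn hΩ hc hne hext hu (c2_const 1 Ω) (fun x _ => hf x) A hA
  have hK : ∀ K : Set (EE n), IsCompact K → ω K ≤ 1 := by
    intro K hK
    obtain ⟨f, hf1, hfc, -, hf01⟩ :=
      exists_continuousMap_one_of_isCompact_subset_isOpen hK isOpen_univ (subset_univ K)
    let g : C_c(EE n, ℝ) := ⟨f, hfc⟩
    calc ω K ≤ ENNReal.ofReal (Λ g) :=
          RealRMK.rieszMeasure_le_of_eq_one Λ (f := g) (fun x => (hf01 x).1) hK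
            (fun x hx => hf1 hx)
      _ ≤ 1 := ENNReal.ofReal_le_one.2 (hle1 g (fun x => (hf01 x).2))
  have hmass : ω univ ≤ 1 := by
    rw [isOpen_univ.measure_eq_iSup_isCompact ω]
    exact iSup_le fun K => iSup_le fun _ => iSup_le fun hK' => hK K hK'
  have hfin : IsFiniteMeasure ω := ⟨lt_of_le_of_lt hmass ENNReal.one_lt_top⟩
  -- the representation formula
  have heq : ∀ f u : EE n → ℝ, Continuous f → (∃ M : ℝ, ∀ x, |f x| ≤ M) → IsDir Ω f u →
      u A = ∫ x, f x ∂ω := by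
    intro f u hf ⟨M, hM⟩ hu
    have hM0 : 0 ≤ M := (abs_nonneg _).trans (hM 0)
    -- the truncated functions
    let g : ℕ → C_c(EE n, ℝ) := fun m =>
      ⟨⟨fun x => f x * c2_chi m x, hf.mul (c2_chi_cont m)⟩, (c2_chi_supp m).mul_left⟩
    have hg : ∀ m x, g m x = f x * c2_chi m x := fun m x => rfl
    choose v hv using fun m => hsolc (g m)
    have hvA : ∀ m, v m A = ∫ x, g m x ∂ω := fun m => by rw [hint, hΛ (g m) (v m) (hv m)]
    have hw : ∀ m : ℕ, ∃ w, IsDir Ω (fun x => 1 - c2_chi m x) w := by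
      intro m
      obtain ⟨w, hw, -⟩ := dirichlet hn hΩ hc hext (fun x => 1 - c2_chi m x)
        (continuous_const.sub (c2_chi_cont m)) 1 (fun x => by
          have h1 := c2_chi_nonneg (m:ℝ) x
          have h2 := c2_chi_le (m:ℝ) x
          rw [abs_le]; constructor <;> linarith)
      exact ⟨w, hw⟩
    choose w hw' using hw
    have hdiff : ∀ m, |v m A - u A| ≤ M * w m A := by
      intro m
      have hb : ∀ x, |f x * c2_chi m x - f x| ≤ M * (1 - c2_chi m x) := by
        intro x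
        have h1 := c2_chi_le (m:ℝ) x
        have : f x * c2_chi m x - f x = -(f x * (1 - c2_chi m x)) := by ring
        rw [this, abs_neg, abs_mul, abs_of_nonneg (show 0 ≤ 1 - c2_chi (m:ℝ) x by linarith)]
        exact mul_le_mul_of_nonneg_right (hM x) (by linarith)
      have e1 := dir_unique hn hΩ hc hne hext (c2_sub (hv m) hu) (c2_smul M (hw' m))
        (fun x _ => (le_abs_self _).trans (hb x)) A hA
      have e2 := dir_unique hn hΩ hc hne hext (c2_sub hu (hv m)) (c2_smul M (hw' m))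
        (fun x _ => by
          have := (neg_le_abs _).trans (hb x)
          rw [neg_sub] at this
          exact this) A hA
      rw [abs_le]
      constructor <;> linarith
    have hlim1 : Tendsto (fun m => v m A) atTop (𝓝 (u A)) := by
      rw [Metric.tendsto_atTop]
      intro ε hε
      obtain ⟨R, hR⟩ := c2_tail hn hΩ hc hne hext hA (show 0 < ε / (M + 1) by positivity)
      obtain ⟨m₀, hm₀⟩ := exists_nat_ge R
      refine ⟨m₀, fun m hm => ?_⟩
      have h1 : w m A ≤ ε / (M + 1) := hR m (hm₀.trans (by exact_mod_cast hm)) (w m) (hw' m)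
      rw [Real.dist_eq]
      refine (hdiff m).trans_lt ?_
      have h2 : M * w m A ≤ M * (ε / (M + 1)) := mul_le_mul_of_nonneg_left h1 hM0
      have h3 : M * (ε / (M + 1)) < ε := by
        rw [← mul_div_assoc, div_lt_iff₀ (by linarith)]
        nlinarith
      linarith
    have hlim2 : Tendsto (fun m => v m A) atTop (𝓝 (∫ x, f x ∂ω)) := by
      have : (fun m => v m A) = fun m => ∫ x, g m x ∂ω := funext hvA
      rw [this]
      refine tendsto_integral_of_dominated_convergence (fun _ => M)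
        (fun m => (g m).continuous.aestronglyMeasurable) (integrable_const M) ?_ ?_
      · intro m
        refine Eventually.of_forall fun x => ?_
        rw [hg, Real.norm_eq_abs, abs_mul, abs_of_nonneg (c2_chi_nonneg _ x)]
        calc |f x| * c2_chi m x ≤ |f x| * 1 :=
              mul_le_mul_of_nonneg_left (c2_chi_le _ x) (abs_nonneg _)
          _ ≤ M := by rw [mul_one]; exact hM x
      · refine Eventually.of_forall fun x => ?_
        obtain ⟨m₀, hm₀⟩ := exists_nat_ge ‖x‖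
        apply tendsto_const_nhds.congr'
        filter_upwards [eventually_ge_atTop m₀] with m hm
        rw [hg, c2_chi_one (hm₀.trans (by exact_mod_cast hm)), mul_one]
    exact tendsto_nhds_unique hlim1 hlim2
  refine ⟨ω, ⟨?_, ?_, ?_, heq⟩⟩
  · -- mass one
    have h1 := heq (fun _ => 1) (fun _ => 1) continuous_const ⟨1, fun _ => by simp⟩ (c2_const 1 Ω)
    rw [integral_const, smul_eq_mul, mul_one, measureReal_def] at h1
    constructor
    have h2 : (ω univ).toReal = 1 := h1.symm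
    rw [← ENNReal.toReal_eq_one_iff]
    exact h2
  · -- support
    have hopen : IsOpen (frontier Ω)ᶜ := isClosed_frontier.isOpen_compl
    rw [hopen.measure_eq_iSup_isCompact ω]
    refine le_antisymm (iSup_le fun K => iSup_le fun hKs => iSup_le fun hK' => ?_) zero_le
    obtain ⟨f, hf1, hfc, hfs, hf01⟩ :=
      exists_continuousMap_one_of_isCompact_subset_isOpen hK' hopen hKs
    let g : C_c(EE n, ℝ) := ⟨f, hfc⟩
    have hg0 : Λ g = 0 := by
      have hd : IsDir Ω (fun x => g x) (fun _ => 0) :=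
        { cont := continuousOn_const
          harm := harmonicOnNhd_const 0
          bdd := ⟨0, fun _ _ => by simp⟩
          eq := fun x hx => by
            by_contra hcon
            have hxs : x ∈ tsupport f := subset_tsupport _ (by
              rw [Function.mem_support]
              exact fun h => hcon h.symm)
            exact hfs hxs hx }
      rw [hΛ g _ hd]
    calc ω K ≤ ENNReal.ofReal (Λ g) :=
          RealRMK.rieszMeasure_le_of_eq_one Λ (f := g) (fun x => (hf01 x).1) hK'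
            (fun x hx => hf1 hx)
      _ = 0 := by rw [hg0, ENNReal.ofReal_zero]
  · intro f hf ⟨M, hM⟩
    obtain ⟨u, hu, -⟩ := dirichlet hn hΩ hc hext f hf M hM
    exact ⟨u, hu⟩

end C2

end Pool.Agent.Lib.MP_47b33c_an
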