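import Pool.Agent.Lib.MP_47b33c_an.Away

set_option autoImplicit false

open MeasureTheory Metric Set Filter Topology InnerProductSpace
open scoped RealInnerProductSpace Laplacian CompactlySupported

namespace Pool.Agent.Lib.MP_47b33c_an

variable {n : ℕ}

theorem zero_mass (hn : 2 ≤ n) {Ω : Set (EE n)} (h0 : (0 : EE n) ∈ frontier Ω) {G : EE n → ℝ}
    (hG : Continuous G) (hG0 : ∀ x, x ∉ Ω → G x = 0) (hΩ : IsOpen Ω) {ω : Measure (EE n)}
    [IsProbabilityMeasure ω] {c : ℝ} (hc : 0 < c)
    (hrep : ∀ φ : EE n → ℝ, ContDiff ℝ 2 φ → HasCompactSupport φ →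
      (∀ x ∈ tsupport φ, infDist x (frontier Ω) ≤ 2) → c * ∫ x, φ x ∂ω = ∫ x, G x * Δ φ x) :
    ω {0} = 0 := by
  have hG00 : G 0 = 0 := by
    refine hG0 0 fun h => ?_
    have : (0 : EE n) ∈ Ω ∩ frontier Ω := ⟨h, h0⟩
    rw [hΩ.inter_frontier_eq] at this
    exact this
  set I := ∫ y : EE n, |Δ (wt 3 : EE n → ℝ) y| with hI
  have hI0 : 0 ≤ I := integral_nonneg fun y => abs_nonneg _
  have key : ∀ η : ℝ, 0 < η → c * (ω {0}).toReal ≤ η * I := by
    intro η hη
    obtain ⟨δ, hδ, hδ2⟩ := Metric.continuous_iff.1 hG 0 η hη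
    obtain ⟨r, hr, hr1, hrδ⟩ : ∃ r : ℝ, 0 < r ∧ r ≤ 1 ∧ r < δ :=
      ⟨min 1 (δ / 2), by positivity, min_le_left _ _, (min_le_right _ _).trans_lt (by linarith)⟩
    have h1 := hrep (phr r 0) (h3_contDiff r 0) (h3_compact hr 0) (fun x hx => by
      have h2 := h3_tsupport hr 0 hx
      rw [mem_closedBall] at h2
      exact (infDist_le_dist_of_mem h0).trans (by linarith))
    rw [h3_int_change hr] at h1
    have h2 : (ω {0}).toReal ≤ ∫ y, phr r 0 y ∂ω := by
      have h3 : ∫ y, ({0} : Set (EE n)).indicator (fun _ => (1 : ℝ)) y ∂ω = (ω {0}).toReal := by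
        rw [integral_indicator_const _ (measurableSet_singleton _)]
        simp [Measure.real]
      rw [← h3]
      refine integral_mono ?_ ((h3_cont r 0).integrable_of_hasCompactSupport (h3_compact hr 0)) ?_
      · exact (integrable_const (1 : ℝ)).indicator (measurableSet_singleton _)
      · intro y
        by_cases hy : y ∈ ({0} : Set (EE n))
        · rw [indicator_of_mem hy]
          rw [mem_singleton_iff] at hy
          rw [hy]
          unfold phr wt
          simp
        · rw [indicator_of_notMem hy]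
          exact h3_nonneg _ _ _
    have h4 : r ^ n * (r⁻¹) ^ 2 ≤ 1 := by
      obtain ⟨m, rfl⟩ : ∃ m, n = m + 2 := ⟨n - 2, by omega⟩
      have : r ^ (m + 2) * (r⁻¹) ^ 2 = r ^ m := by rw [pow_add]; field_simp
      rw [this]
      exact pow_le_one₀ hr.le hr1
    have h5 : (∫ y, G (0 + r • y) * Δ (wt 3 : EE n → ℝ) y) ≤ η * I := by
      refine (le_abs_self _).trans ?_
      rw [← Real.norm_eq_abs, hI, ← integral_const_mul]
      refine norm_integral_le_of_norm_le (h3_lap_integrable.const_mul _)
        (Eventually.of_forall fun y => ?_)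
      rw [norm_mul, Real.norm_eq_abs, Real.norm_eq_abs]
      rcases lt_or_ge 1 ‖y‖ with hy | hy
      · rw [lap_wt_eq_zero hy]; simp
      · refine mul_le_mul_of_nonneg_right ?_ (abs_nonneg _)
        have h6 := hδ2 (0 + r • y) (by
          rw [zero_add, dist_zero_right, norm_smul, Real.norm_eq_abs, abs_of_pos hr]
          nlinarith [norm_nonneg y])
        rw [hG00, Real.dist_eq, sub_zero] at h6
        exact h6.le
    calc c * (ω {0}).toReal ≤ c * ∫ y, phr r 0 y ∂ω := mul_le_mul_of_nonneg_left h2 hc.le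
      _ = r ^ n * (r⁻¹) ^ 2 * ∫ y, G (0 + r • y) * Δ (wt 3 : EE n → ℝ) y := h1
      _ ≤ r ^ n * (r⁻¹) ^ 2 * (η * I) := mul_le_mul_of_nonneg_left h5 (by positivity)
      _ ≤ 1 * (η * I) := mul_le_mul_of_nonneg_right h4 (by positivity)
      _ = η * I := one_mul _
  have h1 : c * (ω {0}).toReal ≤ 0 := by
    refine le_of_forall_pos_le_add fun ε hε => ?_
    have h2 := key (ε / (I + 1)) (by positivity)
    have h3 : ε / (I + 1) * I ≤ ε := by
      rw [div_mul_eq_mul_div, div_le_iff₀ (by positivity)]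
      nlinarith
    linarith
  have h2 : (ω {0}).toReal = 0 := by
    refine le_antisymm ?_ ENNReal.toReal_nonneg
    by_contra h
    push Not at h
    nlinarith [mul_pos hc h]
  rw [ENNReal.toReal_eq_zero_iff] at h2
  exact h2.resolve_right (measure_ne_top _ _)

/-- cutoff near the origin -/
noncomputable def h5_chi (j : ℕ) (y : EE n) : ℝ := min 1 (max 0 (j * ‖y‖ - 1))

theorem h5_chi_cont (j : ℕ) : Continuous (h5_chi j : EE n → ℝ) := by
  unfold h5_chi; fun_prop

theorem h5_chi_abs (j : ℕ) (y : EE n) : |h5_chi j y| ≤ 1 := by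
  unfold h5_chi
  rw [abs_of_nonneg (le_min zero_le_one (le_max_left _ _))]
  exact min_le_left _ _

theorem h5_chi_tendsto {y : EE n} (hy : y ≠ 0) :
    Tendsto (fun j : ℕ => h5_chi j y) atTop (𝓝 1) := by
  have hy0 : 0 < ‖y‖ := norm_pos_iff.2 hy
  refine tendsto_const_nhds.congr' ?_
  obtain ⟨N, hN⟩ := exists_nat_ge (2 / ‖y‖)
  filter_upwards [eventually_ge_atTop N] with j hj
  have h1 : 2 ≤ (j : ℝ) * ‖y‖ := by
    rw [div_le_iff₀ hy0] at hN
    have : (N : ℝ) ≤ j := by exact_mod_cast hj
    nlinarith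
  unfold h5_chi
  rw [min_eq_left]
  exact le_max_of_le_right (by linarith)

theorem h5_chi_zero {j : ℕ} {y : EE n} (hy : (j : ℝ) * ‖y‖ < 1) : h5_chi j y = 0 := by
  unfold h5_chi
  rw [max_eq_left (by linarith)]
  simp

theorem h5_tsupport {f : EE n → ℝ} (j : ℕ) : (0 : EE n) ∉ tsupport (fun y => f y * h5_chi j y) := by
  rw [notMem_tsupport_iff_eventuallyEq]
  have h1 : ∀ᶠ y : EE n in 𝓝 0, (j : ℝ) * ‖y‖ < 1 := by
    have : Continuous fun y : EE n => (j : ℝ) * ‖y‖ := by fun_prop
    exact this.continuousAt.eventually_lt continuousAt_const (by simp)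
  filter_upwards [h1] with y hy
  rw [h5_chi_zero hy, mul_zero]
  rfl

theorem identify (hn : 2 ≤ n) {Ω : Set (EE n)} {ν : EE n → EE n} {d : ℝ → EE n}
    {ε : ℝ → ℝ} {P : EE n} (hg : GoodDom Ω ν d ε P) {G k : EE n → ℝ} (hG : Continuous G)
    (hG0 : ∀ x, x ∉ Ω → G x = 0) (hk : BdryExp Ω ν G k) {ω : Measure (EE n)}
    [IsProbabilityMeasure ω] (hsupp : ω (frontier Ω)ᶜ = 0) {c : ℝ} (hc : 0 < c)
    (hrep : ∀ φ : EE n → ℝ, ContDiff ℝ 2 φ → HasCompactSupport φ →
      (∀ x ∈ tsupport φ, infDist x (frontier Ω) ≤ 2) → c * ∫ x, φ x ∂ω = ∫ x, G x * Δ φ x) :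
    LogContDensity (frontier Ω) ω (ω.map (fun y => -y)) := by
  haveI : IsProbabilityMeasure (ω.map (fun y : EE n => -y)) :=
    Measure.isProbabilityMeasure_map measurable_neg.aemeasurable
  have hfneg : ∀ z, z ∈ frontier Ω → -z ∈ frontier Ω := by
    intro z hz
    rw [hg.front] at hz ⊢
    rw [neg_neg]
    exact ⟨hz.2, hz.1⟩
  -- the density on the frontier
  classical
  set h : EE n → ℝ := fun z => if z = 0 then 1 else k (-z) / k z with hh
  have hcont : ContinuousOn h (frontier Ω) := by
    intro z hz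
    by_cases hz0 : z = 0
    · rw [hz0]
      have h1 : h 0 = 1 := by rw [hh]; simp
      rw [ContinuousWithinAt, h1, Metric.tendsto_nhdsWithin_nhds]
      intro η hη
      obtain ⟨s, hs, hs2⟩ := hk.ratio (η / 2) (by positivity)
      refine ⟨s, hs, fun w hw hws => ?_⟩
      rw [dist_zero_right] at hws
      by_cases hw0 : w = 0
      · rw [hw0, h1, dist_self]; exact hη
      · have h2 := hs2 w hw hw0 hws
        rw [Real.dist_eq, hh]
        simp only [hw0, if_false]
        linarith
    · have h1 : ContinuousWithinAt (fun z => k (-z) / k z) (frontier Ω \ {0}) z := by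
        have hzm : z ∈ frontier Ω \ {0} := ⟨hz, hz0⟩
        have h2 : ContinuousWithinAt k (frontier Ω \ {0}) z := hk.cont z hzm
        have h3 : ContinuousWithinAt (fun z => k (-z)) (frontier Ω \ {0}) z := by
          have h4 : ContinuousWithinAt k (frontier Ω \ {0}) (-z) :=
            hk.cont (-z) ⟨hfneg z hz, by simpa using hz0⟩
          refine h4.comp continuous_neg.continuousWithinAt ?_
          intro w hw
          exact ⟨hfneg w hw.1, by simpa using hw.2⟩
        exact h3.div h2 (hk.pos z hz hz0).ne'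
      have h2 : ContinuousWithinAt h (frontier Ω \ {0}) z := by
        refine h1.congr (fun w hw => ?_) ?_
        · have : w ≠ 0 := hw.2
          rw [hh]; simp only [this, if_false]
        · rw [hh]; simp only [hz0, if_false]
      have h3 : frontier Ω \ {0} ∈ 𝓝[frontier Ω] z := by
        rw [diff_eq]
        exact inter_mem self_mem_nhdsWithin
          (mem_nhdsWithin_of_mem_nhds (isOpen_compl_singleton.mem_nhds hz0))
      exact h2.mono_of_mem_nhdsWithin h3
  have hpos : ∀ z ∈ frontier Ω, 0 < h z := by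
    intro z hz
    by_cases hz0 : z = 0
    · rw [hz0, hh]; simp
    · rw [hh]; simp only [hz0, if_false]
      exact div_pos (hk.pos (-z) (hfneg z hz) (neg_ne_zero.2 hz0)) (hk.pos z hz hz0)
  obtain ⟨g, hgr⟩ := ContinuousMap.exists_restrict_eq (Y := ℝ) isClosed_frontier
    (⟨(frontier Ω).restrict h, continuousOn_iff_continuous_restrict.1 hcont⟩ : C(frontier Ω, ℝ))
  have hgh : ∀ z ∈ frontier Ω, g z = h z := by
    intro z hz
    have := congrArg (fun φ : C(frontier Ω, ℝ) => φ ⟨z, hz⟩) hgr
    exact this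
  set H : EE n → ℝ := fun z => g z with hHdef
  have hH : Continuous H := g.continuous
  have hHk : ∀ z ∈ frontier Ω, z ≠ 0 → H z = k (-z) / k z := by
    intro z hz hz0
    rw [hHdef]
    simp only
    rw [hgh z hz, hh]
    simp only [hz0, if_false]
  have hHpos : ∀ z ∈ frontier Ω, 0 < H z := by
    intro z hz
    rw [hHdef]; simp only
    rw [hgh z hz]; exact hpos z hz
  have hae : ∀ᵐ y ∂ω, y ∈ frontier Ω := by rw [ae_iff]; exact hsupp
  have hz1 : ω {0} = 0 := zero_mass hn hg.zero_mem hG hG0 hg.isOpen hc hrep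
  have hz2 : (ω.map (fun y : EE n => -y)) {0} = 0 := by
    rw [Measure.map_apply measurable_neg (measurableSet_singleton _)]
    have : (fun y : EE n => -y) ⁻¹' {0} = {0} := by
      ext y; simp
    rw [this]; exact hz1
  have hne1 : ∀ᵐ y ∂ω, y ≠ 0 := by
    rw [ae_iff]
    simpa using hz1
  have hne2 : ∀ᵐ y ∂(ω.map (fun y : EE n => -y)), y ≠ 0 := by
    rw [ae_iff]
    simpa using hz2
  haveI : IsLocallyFiniteMeasure (ω.withDensity fun x => ENNReal.ofReal (H x)) :=
    IsLocallyFiniteMeasure.withDensity_ofReal hH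
  have hmeas : ω.map (fun y : EE n => -y) = ω.withDensity (fun x => ENNReal.ofReal (H x)) := by
    refine Measure.ext_of_integral_eq_on_compactlySupported fun f => ?_
    have hf : Continuous f := f.continuous
    have hfc : HasCompactSupport f := f.hasCompactSupport
    have e1 : ∫ x, f x ∂(ω.withDensity (fun x => ENNReal.ofReal (H x))) = ∫ x, f x * H x ∂ω := by
      have h1 := integral_withDensity_eq_integral_smul (μ := ω) (f := fun x => (H x).toNNReal)
        (hH.measurable.real_toNNReal) (f : EE n → ℝ)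
      have h2 : (fun x => ((H x).toNNReal : ENNReal)) = fun x => ENNReal.ofReal (H x) := rfl
      rw [h2] at h1
      rw [h1]
      refine integral_congr_ae ?_
      filter_upwards [hae] with x hx
      rw [NNReal.smul_def, Real.coe_toNNReal _ (hHpos x hx).le, smul_eq_mul, mul_comm]
    rw [e1]
    have hj : ∀ j : ℕ, ∫ y, f y * h5_chi j y ∂(ω.map (fun y => -y)) =
        ∫ y, f y * h5_chi j y * H y ∂ω := fun j =>
      identify_away hn hg hG hG0 hk hsupp hc hrep hH hHk (hf.mul (h5_chi_cont j)) hfc.mul_right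
        (h5_tsupport j)
    have t1 : Tendsto (fun j : ℕ => ∫ y, f y * h5_chi j y ∂(ω.map (fun y => -y))) atTop
        (𝓝 (∫ y, f y ∂(ω.map (fun y => -y)))) := by
      refine tendsto_integral_of_dominated_convergence (fun y => |f y|)
        (fun j => (hf.mul (h5_chi_cont j)).aestronglyMeasurable)
        (hf.integrable_of_hasCompactSupport hfc).abs (fun j => Eventually.of_forall fun y => ?_) ?_
      · rw [norm_mul, Real.norm_eq_abs, Real.norm_eq_abs]
        calc |f y| * |h5_chi j y| ≤ |f y| * 1 :=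
              mul_le_mul_of_nonneg_left (h5_chi_abs j y) (abs_nonneg _)
          _ = |f y| := mul_one _
      · filter_upwards [hne2] with y hy
        have := (h5_chi_tendsto hy).const_mul (f y)
        rwa [mul_one] at this
    have t2 : Tendsto (fun j : ℕ => ∫ y, f y * h5_chi j y * H y ∂ω) atTop
        (𝓝 (∫ y, f y * H y ∂ω)) := by
      refine tendsto_integral_of_dominated_convergence (fun y => |f y * H y|)
        (fun j => ((hf.mul (h5_chi_cont j)).mul hH).aestronglyMeasurable)
        ((hf.mul hH).integrable_of_hasCompactSupport hfc.mul_right).abs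
        (fun j => Eventually.of_forall fun y => ?_) ?_
      · have : f y * h5_chi j y * H y = f y * H y * h5_chi j y := by ring
        rw [this, norm_mul, Real.norm_eq_abs, Real.norm_eq_abs]
        calc |f y * H y| * |h5_chi j y| ≤ |f y * H y| * 1 :=
              mul_le_mul_of_nonneg_left (h5_chi_abs j y) (abs_nonneg _)
          _ = |f y * H y| := mul_one _
      · filter_upwards [hne1] with y hy
        have := ((h5_chi_tendsto hy).const_mul (f y)).mul_const (H y)
        rwa [mul_one] at this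
    exact tendsto_nhds_unique t1 (t2.congr fun j => (hj j).symm)
  have hac : ω ≪ ω.withDensity (fun x => ENNReal.ofReal (H x)) := by
    refine withDensity_absolutelyContinuous' hH.measurable.ennreal_ofReal.aemeasurable ?_
    filter_upwards [hae] with x hx
    rw [Ne, ENNReal.ofReal_eq_zero, not_le]
    exact hHpos x hx
  refine ⟨hmeas ▸ hac, ?_, H, hHpos, ?_, hmeas⟩
  · rw [hmeas]
    exact withDensity_absolutelyContinuous _ _
  · exact hH.continuousOn.log fun x hx => (hHpos x hx).ne'

end Pool.Agent.Lib.MP_47b33c_an
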