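import Pool.Agent.Lib.MP_47b33c_an.Rad
import Pool.Agent.Lib.MP_47b33c_an.Sub
import Pool.Agent.Lib.MP_47b33c_an.Planes
import Pool.Agent.Lib.MP_47b33c_an.Hopf

set_option autoImplicit false

open MeasureTheory Metric Set Filter Topology InnerProductSpace
open scoped RealInnerProductSpace Laplacian

namespace Pool.Agent.Lib.MP_47b33c_an

variable {n : ℕ}

/-- a linear function is nonnegative on the closure of the set where it is positive -/
theorem e4_frontier_nonneg {V : Set (EE n)} {z e : EE n} {b : ℝ}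
    (hL : ∀ x ∈ V, 0 < ⟪x - z, e⟫ + b) {ζ : EE n} (hζ : ζ ∈ frontier V) :
    0 ≤ ⟪ζ - z, e⟫ + b := by
  have hcl : IsClosed {x : EE n | 0 ≤ ⟪x - z, e⟫ + b} :=
    isClosed_le continuous_const (by fun_prop)
  have : closure V ⊆ {x : EE n | 0 ≤ ⟪x - z, e⟫ + b} :=
    closure_minimal (fun x hx => (hL x hx).le) hcl
  exact this (frontier_subset_closure hζ)

/-- upper limits of functions continuous at the point -/
theorem e4_bdLe {V : Set (EE n)} {v : EE n → ℝ} {b : ℝ} {ζ : EE n} (hv : ContinuousAt v ζ)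
    (hb : v ζ ≤ b) : BdLe V v b ζ := by
  intro η hη
  have h1 : ∀ᶠ w in 𝓝 ζ, v w < b + η := hv.eventually_lt_const (by linarith)
  exact (h1.filter_mono nhdsWithin_le_nhds).mono fun w hw => hw.le

theorem e4_harm {S V : Set (EE n)} {u : EE n → ℝ} {z e : EE n} {α b : ℝ}
    (hu : HarmonicOnNhd u S) (hV : V ⊆ S) :
    HarmonicOnNhd (fun x => u x - α * (⟪x - z, e⟫ + b)) V := by
  have h1 : HarmonicOnNhd (fun x : EE n => ⟪x - z, α • e⟫ + α * b) V := harmonic_affine _ _ _ _
  have h2 := (hu.mono hV).sub h1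
  convert h2 using 2
  simp only [Pi.sub_apply, real_inner_smul_right]
  ring

theorem e4_harm' {S V : Set (EE n)} {u : EE n → ℝ} {z e : EE n} {α b : ℝ}
    (hu : HarmonicOnNhd u S) (hV : V ⊆ S) :
    HarmonicOnNhd (fun x => α * (⟪x - z, e⟫ + b) - u x) V := by
  have h1 : HarmonicOnNhd (fun x : EE n => ⟪x - z, α • e⟫ + α * b) V := harmonic_affine _ _ _ _
  have h2 := h1.sub (hu.mono hV)
  convert h2 using 2
  simp only [Pi.sub_apply, real_inner_smul_right]
  ring

/-- improvement of a profile -/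
theorem od_improve (hn : 2 ≤ n) : ∃ c : ℝ, 0 < c ∧ c ≤ 1 / 2 ∧ ∀ (Ω : Set (EE n))
    (u : EE n → ℝ) (z e : EE n) (r θ α β : ℝ), IsOpen Ω → 0 < r → 0 ≤ θ → θ ≤ th0 →
    Flat Ω z r e θ → LocPos Ω u z r → 0 ≤ α → α ≤ β → Prof Ω u z r e θ α β →
    ∃ α' β' : ℝ, α ≤ α' ∧ α' ≤ β' ∧ β' ≤ β ∧ β' - α' ≤ (1 - c) * (β - α) ∧
      (∀ x ∈ ball z (r / 64), θ * r < ⟪x - z, e⟫ → α' * (⟪x - z, e⟫ - θ * r) ≤ u x) ∧
      (∀ x ∈ ball z (r / 64), x ∈ Ω → u x ≤ β' * (⟪x - z, e⟫ + θ * r)) := by
  obtain ⟨c₁, hc₁0, hc₁1, hmid⟩ := harnack_mid hn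
  obtain ⟨c₂, C₂, hc₂0, hC₂1, hhopf⟩ := hopf_low hn
  have hC₂0 : 0 < C₂ := by linarith
  set c : ℝ := min (1 / 2) (c₂ * (c₁ / C₂ / 4)) with hc
  have hc0 : 0 < c := lt_min (by norm_num) (by positivity)
  have hc2 : c ≤ c₂ * (c₁ / C₂ / 4) := min_le_right _ _
  have hc1 : c ≤ 1 / 2 := min_le_left _ _
  refine ⟨c, hc0, hc1, ?_⟩
  intro Ω u z e r θ α β hΩ hr hθ0 hθ hf hu hα hαβ hprof
  have hβ : 0 ≤ β := hα.trans hαβ
  have hth : th0 = 1 / 10000 := rfl
  rw [hth] at hθ
  set R : ℝ := r / 8 with hR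
  have hR0 : 0 < R := by positivity
  have hrR : r = 8 * R := by rw [hR]; ring
  have hR8 : R / 8 = r / 64 := by rw [hR]; ring
  have hθr : 0 ≤ θ * r := by positivity
  have hθr' : θ * r ≤ R / 100 := by
    rw [hrR]; nlinarith
  have hsubR : ball z R ⊆ ball z r := ball_subset_ball (by linarith)
  have hsub8 : ball z (r / 64) ⊆ ball z R := by rw [← hR8]; exact ball_subset_ball (by linarith)
  set p : EE n := z + (R / 2) • e with hp
  have hpz : p - z = (R / 2) • e := by rw [hp]; abel
  have hpL : ⟪p - z, e⟫ = R / 2 := by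
    rw [hpz, real_inner_smul_left, real_inner_self_eq_norm_sq, hf.unit]; ring
  set m : ℝ := c₁ / C₂ * ((β - α) * R / 4) with hm
  have hba : 0 ≤ β - α := by linarith
  have hm0 : 0 ≤ m := by positivity
  have hmC : m ≤ c₁ * ((β - α) * R / 4) := by
    rw [hm]
    have : c₁ / C₂ ≤ c₁ := div_le_self hc₁0.le hC₂1
    gcongr
  have hCm : C₂ * (m / R) ≤ β := by
    have e1 : C₂ * (m / R) = c₁ * (β - α) / 4 := by rw [hm]; field_simp
    rw [e1]
    nlinarith
  have hcm : c₂ * (m / R) = c₂ * (c₁ / C₂ / 4) * (β - α) := by rw [hm]; field_simp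
  rcases le_or_gt ((α + β) / 2 * (R / 2)) (u p) with hcase | hcase
  · -- case 1
    refine ⟨α + c * (β - α), β, ?_, ?_, le_rfl, ?_, ?_, ?_⟩
    · have : 0 ≤ c * (β - α) := by positivity
      linarith
    · nlinarith
    · apply le_of_eq; ring
    · intro x hx hxL
      set V : Set (EE n) := {y : EE n | θ * r < ⟪y - z, e⟫} ∩ ball z R with hV
      have hVo : IsOpen V := (isOpen_lt continuous_const (by fun_prop)).inter isOpen_ball
      have hVΩ : V ⊆ Ω ∩ ball z r := fun y hy => ⟨hf.inn y (hsubR hy.2) hy.1, hsubR hy.2⟩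
      have hVL : ∀ y ∈ V, 0 < ⟪y - z, e⟫ + -(θ * r) := by
        intro y hy
        have : θ * r < ⟪y - z, e⟫ := hy.1
        linarith
      have hw0 : ∀ y ∈ V, 0 ≤ u y - α * (⟪y - z, e⟫ + -(θ * r)) := by
        intro y hy
        have h1 := hprof.lower y hy.2 hy.1
        have h2 : ⟪y - z, e⟫ + -(θ * r) = ⟪y - z, e⟫ - θ * r := by ring
        rw [h2]; linarith
      have hharm := e4_harm (z := z) (e := e) (α := α) (b := -(θ * r)) hu.harm hVΩ
      have hb : |-(θ * r)| ≤ R / 100 := by rw [abs_neg, abs_of_nonneg hθr]; exact hθr'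
      have hm1 : ∀ y ∈ ball z (3 * R / 4), R / 16 ≤ ⟪y - z, e⟫ + -(θ * r) →
          y ∈ V ∧ m ≤ u y - α * (⟪y - z, e⟫ + -(θ * r)) := by
        intro y hy hyL
        refine ⟨⟨?_, ball_subset_ball (by linarith) hy⟩, ?_⟩
        · have : θ * r < ⟪y - z, e⟫ := by linarith
          exact this
        · have h1 := hmid V z e R (-(θ * r)) (fun x => u x - α * (⟪x - z, e⟫ + -(θ * r))) hVo hR0
            hf.unit hb (by
              intro v hv hvL
              exact ⟨by have : θ * r < ⟪v - z, e⟫ := by linarith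
                        exact this, hv⟩) hharm hw0 y hy hyL
          refine le_trans ?_ h1
          rw [← hp]
          show m ≤ c₁ * (u p - α * (⟪p - z, e⟫ + -(θ * r)))
          rw [hpL]
          refine hmC.trans ?_
          apply mul_le_mul_of_nonneg_left _ hc₁0.le
          have : 0 ≤ α * (θ * r) := by positivity
          nlinarith
      have key := hhopf V z e R (-(θ * r)) m (C₂ * (m / R))
        (fun x => u x - α * (⟪x - z, e⟫ + -(θ * r))) hVo hR0 hf.unit hb hm0 (fun y hy => hy.2) hVL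
        (by
          have h1 := harmonic_subH hn (e4_harm' (z := z) (e := e) (α := α) (b := -(θ * r)) hu.harm hVΩ)
          refine h1.congr ?_
          intro y hy
          ring)
        hw0 hm1 le_rfl
        (by
          intro ζ hζ
          have hζR : ζ ∈ ball z R := hζ.2
          have hζr : ζ ∈ ball z r := hsubR hζR
          have h1 := e4_frontier_nonneg hVL hζ.1
          have h2 : ⟪ζ - z, e⟫ + -(θ * r) ≤ 0 := by
            by_contra hcon
            push Not at hcon
            have : ζ ∈ V := ⟨by have : θ * r < ⟪ζ - z, e⟫ := by linarith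
                                exact this, hζR⟩
            have h3 := hζ.1
            rw [hVo.frontier_eq] at h3
            exact h3.2 this
          have h3 : ⟪ζ - z, e⟫ + -(θ * r) = 0 := le_antisymm h2 h1
          apply e4_bdLe
          · have : ContinuousAt u ζ := hu.cont.continuousAt (isOpen_ball.mem_nhds hζr)
            fun_prop
          · show C₂ * (m / R) * (⟪ζ - z, e⟫ + -(θ * r)) - (u ζ - α * (⟪ζ - z, e⟫ + -(θ * r))) ≤ 0
            rw [h3]
            have := hu.nonneg ζ hζr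
            linarith)
      have hxV : x ∈ V := ⟨hxL, hsub8 hx⟩
      have h1 := key x hxV (by rw [hR8]; exact hx)
      have h2 := hVL x hxV
      rw [hcm] at h1
      have h3 : c * (β - α) * (⟪x - z, e⟫ + -(θ * r)) ≤
          c₂ * (c₁ / C₂ / 4) * (β - α) * (⟪x - z, e⟫ + -(θ * r)) := by gcongr
      have h4 : (α + c * (β - α)) * (⟪x - z, e⟫ - θ * r) =
        α * (⟪x - z, e⟫ + -(θ * r)) + c * (β - α) * (⟪x - z, e⟫ + -(θ * r)) := by ring
      rw [h4]
      linarith
    · intro x hx hxΩ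
      exact hprof.upper x (hsub8 hx) hxΩ
  · -- case 2
    refine ⟨α, β - c * (β - α), le_rfl, ?_, ?_, ?_, ?_, ?_⟩
    · nlinarith
    · have : 0 ≤ c * (β - α) := by positivity
      linarith
    · apply le_of_eq; ring
    · intro x hx hxL
      exact hprof.lower x (hsub8 hx) hxL
    · intro x hx hxΩ
      set V : Set (EE n) := Ω ∩ ball z R with hV
      have hVo : IsOpen V := hΩ.inter isOpen_ball
      have hVΩ : V ⊆ Ω ∩ ball z r := fun y hy => ⟨hy.1, hsubR hy.2⟩
      have hVL : ∀ y ∈ V, 0 < ⟪y - z, e⟫ + θ * r := by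
        intro y hy
        have := hf.out y (hsubR hy.2) hy.1
        linarith
      have hw0 : ∀ y ∈ V, 0 ≤ β * (⟪y - z, e⟫ + θ * r) - u y := by
        intro y hy
        have h1 := hprof.upper y hy.2 hy.1
        linarith
      have hharm := e4_harm' (z := z) (e := e) (α := β) (b := θ * r) hu.harm hVΩ
      have hb : |θ * r| ≤ R / 100 := by rw [abs_of_nonneg hθr]; exact hθr'
      have hin : ∀ v ∈ ball z R, R / 32 ≤ ⟪v - z, e⟫ + θ * r → v ∈ V := by
        intro v hv hvL
        exact ⟨hf.inn v (hsubR hv) (by linarith), hv⟩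
      have hm1 : ∀ y ∈ ball z (3 * R / 4), R / 16 ≤ ⟪y - z, e⟫ + θ * r →
          y ∈ V ∧ m ≤ β * (⟪y - z, e⟫ + θ * r) - u y := by
        intro y hy hyL
        refine ⟨hin y (ball_subset_ball (by linarith) hy) (by linarith), ?_⟩
        have h1 := hmid V z e R (θ * r) (fun x => β * (⟪x - z, e⟫ + θ * r) - u x) hVo hR0
            hf.unit hb hin hharm hw0 y hy hyL
        refine le_trans ?_ h1
        rw [← hp]
        show m ≤ c₁ * (β * (⟪p - z, e⟫ + θ * r) - u p)
        rw [hpL]
        refine hmC.trans ?_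
        apply mul_le_mul_of_nonneg_left _ hc₁0.le
        have : 0 ≤ β * (θ * r) := by positivity
        nlinarith
      have key := hhopf V z e R (θ * r) m β
        (fun x => β * (⟪x - z, e⟫ + θ * r) - u x) hVo hR0 hf.unit hb hm0 (fun y hy => hy.2) hVL
        (by
          have h1 := harmonic_subH hn (e4_harm (z := z) (e := e) (α := β) (b := θ * r) hu.harm hVΩ)
          refine h1.congr ?_
          intro y hy
          ring)
        hw0 hm1 hCm
        (by
          intro ζ hζ
          have hζR : ζ ∈ ball z R := hζ.2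
          have hζr : ζ ∈ ball z r := hsubR hζR
          have hζΩ : ζ ∉ Ω := by
            intro hcon
            have h3 := hζ.1
            rw [hVo.frontier_eq] at h3
            exact h3.2 ⟨hcon, hζR⟩
          apply e4_bdLe
          · have : ContinuousAt u ζ := hu.cont.continuousAt (isOpen_ball.mem_nhds hζr)
            fun_prop
          · show β * (⟪ζ - z, e⟫ + θ * r) - (β * (⟪ζ - z, e⟫ + θ * r) - u ζ) ≤ 0
            rw [hu.zero ζ hζr hζΩ]
            linarith)
      have hxV : x ∈ V := ⟨hxΩ, hsub8 hx⟩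
      have h1 := key x hxV (by rw [hR8]; exact hx)
      have h2 := hVL x hxV
      rw [hcm] at h1
      have h3 : c * (β - α) * (⟪x - z, e⟫ + θ * r) ≤
          c₂ * (c₁ / C₂ / 4) * (β - α) * (⟪x - z, e⟫ + θ * r) := by gcongr
      have h4 : (β - c * (β - α)) * (⟪x - z, e⟫ + θ * r) =
        β * (⟪x - z, e⟫ + θ * r) - c * (β - α) * (⟪x - z, e⟫ + θ * r) := by ring
      rw [h4]
      linarith

end Pool.Agent.Lib.MP_47b33c_an
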