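import Pool.Agent.Lib.MP_47b33c_an.Wt
import Pool.Agent.Lib.MP_47b33c_an.Rad

/-!
# The functional of a linear profile
-/

set_option autoImplicit false

open MeasureTheory Metric Set Filter Topology InnerProductSpace
open scoped RealInnerProductSpace Laplacian

namespace Pool.Agent.Lib.MP_47b33c_an

variable {n : ℕ}

theorem h1_lap_zero_outside {y : EE n} (hy : y ∉ closedBall (0 : EE n) 1) :
    Δ (wt 3 : EE n → ℝ) y = 0 := by
  apply lap_wt_eq_zero
  by_contra hcon
  push Not at hcon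
  exact hy (by simpa using hcon)

theorem h1_integrable {u : EE n → ℝ} (hu : Continuous u) :
    Integrable (fun y : EE n => u y * Δ (wt 3 : EE n → ℝ) y) := by
  refine Continuous.integrable_of_hasCompactSupport (hu.mul lap_wt_continuous) ?_
  refine HasCompactSupport.intro (isCompact_closedBall (0 : EE n) 1) ?_
  intro y hy
  rw [h1_lap_zero_outside hy, mul_zero]

/-- affine functions integrate to zero -/
theorem h1_affine (ν : EE n) (q : ℝ) :
    ∫ y : EE n, (⟪y, ν⟫ + q) * Δ (wt 3 : EE n → ℝ) y = 0 := by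
  have hh := harmonic_affine ν (0 : EE n) q (univ : Set (EE n))
  simp only [sub_zero] at hh
  have h1 := green_ibp (Ω := (univ : Set (EE n))) isOpen_univ (u := fun y : EE n => ⟪y, ν⟫ + q)
    (φ := (wt 3 : EE n → ℝ)) (fun x hx => (hh x hx).1) wt_contDiff
    (a3_wt_hasCompactSupport 3 (by norm_num)) (subset_univ _)
  rw [h1]
  have h2 : ∀ x : EE n, Δ (fun y : EE n => ⟪y, ν⟫ + q) x = 0 := fun x =>
    (hh x (mem_univ x)).2.self_of_nhds
  simp only [h2, mul_zero, integral_zero]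

/-- the functional of the profile is the same on both sides -/
theorem J_symm (hn : 2 ≤ n) (ν : EE n) (q : ℝ) :
    ∫ y : EE n, max 0 (⟪y, ν⟫ + q) * Δ (wt 3 : EE n → ℝ) y =
      ∫ y : EE n, max 0 (-⟪y, ν⟫ - q) * Δ (wt 3 : EE n → ℝ) y := by
  have _ := hn
  have c1 : Continuous (fun y : EE n => max 0 (⟪y, ν⟫ + q)) := by fun_prop
  have c2 : Continuous (fun y : EE n => max 0 (-⟪y, ν⟫ - q)) := by fun_prop
  rw [← sub_eq_zero, ← integral_sub (h1_integrable c1) (h1_integrable c2)]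
  refine Eq.trans ?_ (h1_affine ν q)
  congr 1
  funext y
  rw [← sub_mul]
  congr 1
  rcases le_total 0 (⟪y, ν⟫ + q) with h | h
  · rw [max_eq_right h, max_eq_left (by linarith)]
    ring
  · rw [max_eq_left h, max_eq_right (by linarith)]
    ring

theorem J_bound (hn : 2 ≤ n) : ∃ C : ℝ, ∀ (ν : EE n) (q : ℝ), ‖ν‖ = 1 → |q| ≤ 1 →
    |∫ y : EE n, max 0 (⟪y, ν⟫ + q) * Δ (wt 3 : EE n → ℝ) y| ≤ C := by
  have _ := hn
  refine ⟨∫ y : EE n, |2 * Δ (wt 3 : EE n → ℝ) y|, ?_⟩
  intro ν q hν hq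
  have hint : Integrable (fun y : EE n => |2 * Δ (wt 3 : EE n → ℝ) y|) :=
    (h1_integrable (u := fun _ => (2 : ℝ)) continuous_const).abs
  rw [← Real.norm_eq_abs]
  refine norm_integral_le_of_norm_le hint (Eventually.of_forall ?_)
  intro y
  by_cases hy : y ∈ closedBall (0 : EE n) 1
  · have hy' : ‖y‖ ≤ 1 := by simpa using hy
    rw [norm_mul, Real.norm_eq_abs, Real.norm_eq_abs, abs_mul, abs_of_nonneg (le_max_left _ _)]
    have h1 := (abs_le.1 ((abs_real_inner_le_norm y ν).trans (by rw [hν, mul_one]))).2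
    have h2 := (abs_le.1 hq).2
    have h3 : max 0 (⟪y, ν⟫ + q) ≤ |(2 : ℝ)| := by
      rw [abs_of_pos (by norm_num : (0 : ℝ) < 2)]
      exact max_le (by norm_num) (by linarith)
    gcongr
  · rw [h1_lap_zero_outside hy]
    simp

end Pool.Agent.Lib.MP_47b33c_an
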