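import Pool.Agent.Lib.MP_47b33c_an.Wt

/-!
# Positivity of the functional of the linear profile
-/

set_option autoImplicit false

open MeasureTheory Metric Set Filter Topology InnerProductSpace
open scoped RealInnerProductSpace Laplacian

namespace Pool.Agent.Lib.MP_47b33c_an

variable {n : ℕ}

theorem h2_wt_mul (y : EE n) : wt 1 y * ‖y‖ ^ 2 = wt 1 y - wt 2 y := by
  unfold wt
  rcases le_total (1 - ‖y‖ ^ 2) 0 with h | h
  · rw [max_eq_left h]; simp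
  · rw [max_eq_right h]; ring

/-- the Laplacian of the weight -/
theorem h2_lap (x : EE n) : Δ (wt 3 : EE n → ℝ) x = 24 * wt 1 x - (6 * n + 24) * wt 2 x := by
  rw [a3_laplacian_eq]
  have h1 : ∀ i : Fin n, iteratedFDeriv ℝ 2 (wt 3 : EE n → ℝ) x
      ![EuclideanSpace.basisFun (Fin n) ℝ i, EuclideanSpace.basisFun (Fin n) ℝ i]
      = 24 * wt 1 x * (x i) ^ 2 - 6 * wt 2 x := by
    intro i
    rw [a3_second (wt 3) wt_contDiff.contDiffAt]
    set v : EE n := EuclideanSpace.basisFun (Fin n) ℝ i with hv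
    have hxv : ∀ y : EE n, ⟪y, v⟫ = y i := by
      intro y
      rw [hv, real_inner_comm, ← EuclideanSpace.basisFun_repr (Fin n) ℝ y i,
        OrthonormalBasis.repr_apply_apply]
    have hvv : ⟪v, v⟫ = (1 : ℝ) := by
      rw [real_inner_self_eq_norm_sq, hv, (EuclideanSpace.basisFun (Fin n) ℝ).norm_eq_one]; norm_num
    have h2 : (fun y : EE n => fderiv ℝ (wt 3 : EE n → ℝ) y v) =
        fun y => (-6 * wt 2 y) * ⟪y, v⟫ := by
      funext y
      rw [(wt_hasFDerivAt 2 (by norm_num) y).fderiv]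
      simp only [ContinuousLinearMap.smul_apply, innerSL_apply_apply, smul_eq_mul]
      push_cast
      ring
    rw [h2]
    have h3 : HasFDerivAt (fun y : EE n => (-6 * wt 2 y) * ⟪y, v⟫)
        ((-6 * wt 2 x) • (innerSL ℝ v) + ⟪x, v⟫ • ((-6 : ℝ) • ((-(2 * ((1 : ℕ) + 1)) * wt 1 x) • innerSL ℝ x))) x := by
      have h4 : HasFDerivAt (fun y : EE n => -6 * wt 2 y)
          ((-6 : ℝ) • ((-(2 * ((1 : ℕ) + 1)) * wt 1 x) • innerSL ℝ x)) x :=
        (wt_hasFDerivAt 1 le_rfl x).const_mul (-6)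
      have h5 : HasFDerivAt (fun y : EE n => ⟪y, v⟫) (innerSL ℝ v) x := by
        have h6 := (innerSL ℝ v).hasFDerivAt (x := x)
        have h7 : (fun y : EE n => ⟪y, v⟫) = fun y => innerSL ℝ v y := by
          funext y; rw [innerSL_apply_apply, real_inner_comm]
        rw [h7]; exact h6
      exact h4.mul h5
    rw [h3.fderiv]
    simp only [ContinuousLinearMap.add_apply, ContinuousLinearMap.smul_apply, innerSL_apply_apply,
      smul_eq_mul, hvv, hxv]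
    push_cast
    ring
  simp_rw [h1]
  rw [Finset.sum_sub_distrib, ← Finset.mul_sum, Finset.sum_const, Finset.card_univ,
    Fintype.card_fin, nsmul_eq_mul]
  have h2 : ∑ i, (x i) ^ 2 = ‖x‖ ^ 2 := by
    rw [EuclideanSpace.norm_sq_eq]
    exact Finset.sum_congr rfl fun i _ => by rw [Real.norm_eq_abs, sq_abs]
  rw [h2]
  have h3 := h2_wt_mul x
  nlinarith [h3]

/-- the one-dimensional inequality behind the scaling argument -/
theorem h2_geom (m : ℕ) (ρ : ℝ) (h0 : 0 ≤ ρ) (h1 : ρ ≤ 1) :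
    (1 - ρ) * (m * ρ ^ m) ≤ 1 - ρ ^ m := by
  induction m with
  | zero => simp
  | succ m ih =>
    have h2 : ρ * ((1 - ρ) * (m * ρ ^ m)) ≤ ρ * (1 - ρ ^ m) := mul_le_mul_of_nonneg_left ih h0
    have h3 : (1 - ρ) * ρ ^ (m + 1) ≤ (1 - ρ) * 1 :=
      mul_le_mul_of_nonneg_left (pow_le_one₀ h0 h1) (by linarith)
    push_cast
    have e : (1 - ρ) * ((m + 1) * ρ ^ (m + 1)) =
        ρ * ((1 - ρ) * (m * ρ ^ m)) + (1 - ρ) * ρ ^ (m + 1) := by ring
    rw [e]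
    have e2 : 1 - ρ ^ (m + 1) = ρ * (1 - ρ ^ m) + (1 - ρ) * 1 := by ring
    rw [e2]
    linarith

theorem h2_int1 (ν : EE n) (k : ℕ) (hk : 1 ≤ k) :
    Integrable (fun y : EE n => max 0 ⟪y, ν⟫ * wt k y) := by
  have hc : Continuous (fun y : EE n => max 0 ⟪y, ν⟫ * wt k y) :=
    (continuous_const.max (continuous_id.inner continuous_const)).mul (wt_continuous k)
  exact hc.integrable_of_hasCompactSupport ((a3_wt_hasCompactSupport k hk).mul_left)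

/-- scaling -/
theorem h2_scale (ν : EE n) (ρ : ℝ) (h0 : 0 < ρ) :
    ∫ y : EE n, max 0 ⟪y, ν⟫ * (max 0 (ρ ^ 2 - ‖y‖ ^ 2)) ^ 2 =
      ρ ^ (n + 5) * ∫ y : EE n, max 0 ⟪y, ν⟫ * wt 2 y := by
  have h := Measure.integral_comp_smul (μ := (volume : Measure (EE n)))
    (fun y : EE n => max 0 ⟪y, ν⟫ * (max 0 (ρ ^ 2 - ‖y‖ ^ 2)) ^ 2) ρ
  rw [finrank_euclideanSpace_fin] at h
  have e : ∀ y : EE n, max 0 ⟪ρ • y, ν⟫ * (max 0 (ρ ^ 2 - ‖ρ • y‖ ^ 2)) ^ 2 =
      ρ ^ 5 * (max 0 ⟪y, ν⟫ * wt 2 y) := by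
    intro y
    have e1 : max 0 ⟪ρ • y, ν⟫ = ρ * max 0 ⟪y, ν⟫ := by
      rw [real_inner_smul_left, mul_max_of_nonneg _ _ h0.le, mul_zero]
    have e2 : max 0 (ρ ^ 2 - ‖ρ • y‖ ^ 2) = ρ ^ 2 * max 0 (1 - ‖y‖ ^ 2) := by
      rw [norm_smul, Real.norm_eq_abs, abs_of_pos h0, mul_max_of_nonneg _ _ (by positivity),
        mul_zero]
      congr 1; ring
    rw [e1, e2]
    unfold wt
    ring
  simp_rw [e] at h
  rw [integral_const_mul, smul_eq_mul, abs_of_pos (by positivity)] at h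
  have h5 : (ρ ^ n)⁻¹ ≠ 0 := by positivity
  field_simp at h
  rw [pow_add]
  linarith

/-- the two first moments -/
theorem h2_moments (ν : EE n) : (n + 5 : ℝ) / 4 * ∫ y : EE n, max 0 ⟪y, ν⟫ * wt 2 y ≤
    ∫ y : EE n, max 0 ⟪y, ν⟫ * wt 1 y := by
  set A := ∫ y : EE n, max 0 ⟪y, ν⟫ * wt 2 y with hA
  set B := ∫ y : EE n, max 0 ⟪y, ν⟫ * wt 1 y with hB
  have hA0 : 0 ≤ A := integral_nonneg fun y => mul_nonneg (le_max_left _ _) (wt_nonneg 2 y)
  have hB0 : 0 ≤ B := integral_nonneg fun y => mul_nonneg (le_max_left _ _) (wt_nonneg 1 y)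
  have key : ∀ ρ ∈ Ioo (0 : ℝ) 1, (n + 5 : ℝ) / 4 * ρ ^ (n + 5) * A ≤ B := by
    intro ρ hρ
    have h1 : A - 2 * (1 - ρ ^ 2) * B ≤ ρ ^ (n + 5) * A := by
      rw [hA, ← h2_scale ν ρ hρ.1, hB, ← integral_const_mul, ← integral_sub (h2_int1 ν 2 (by norm_num))
        ((h2_int1 ν 1 le_rfl).const_mul _)]
      have hc : Continuous (fun y : EE n => max 0 ⟪y, ν⟫ * (max 0 (ρ ^ 2 - ‖y‖ ^ 2)) ^ 2) := by
        fun_prop
      have hi : Integrable (fun y : EE n => max 0 ⟪y, ν⟫ * (max 0 (ρ ^ 2 - ‖y‖ ^ 2)) ^ 2) := by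
        refine hc.integrable_of_hasCompactSupport ?_
        refine HasCompactSupport.intro (isCompact_closedBall (0 : EE n) 1) fun y hy => ?_
        rw [mem_closedBall, dist_zero_right, not_le] at hy
        have : ρ ^ 2 - ‖y‖ ^ 2 ≤ 0 := by nlinarith [hρ.1, hρ.2]
        rw [max_eq_left this]; simp
      refine integral_mono (((h2_int1 ν 2 (by norm_num)).sub ((h2_int1 ν 1 le_rfl).const_mul _))) hi ?_
      intro y
      have hmax : 0 ≤ max 0 ⟪y, ν⟫ := le_max_left _ _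
      have hin : (max 0 (1 - ‖y‖ ^ 2)) ^ 2 - 2 * (1 - ρ ^ 2) * (max 0 (1 - ‖y‖ ^ 2)) ≤
          (max 0 (ρ ^ 2 - ‖y‖ ^ 2)) ^ 2 := by
        have hρ2 : ρ ^ 2 ≤ 1 := by nlinarith [hρ.1, hρ.2]
        rcases le_total (1 - ‖y‖ ^ 2) 0 with h | h
        · rw [max_eq_left h]
          nlinarith [sq_nonneg (max 0 (ρ ^ 2 - ‖y‖ ^ 2))]
        · rw [max_eq_right h]
          rcases le_total (ρ ^ 2 - ‖y‖ ^ 2) 0 with h' | h'
          · rw [max_eq_left h']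
            nlinarith
          · rw [max_eq_right h']
            nlinarith [sq_nonneg (1 - ρ ^ 2)]
      have := mul_le_mul_of_nonneg_left hin hmax
      simp only
      unfold wt
      calc _ = max 0 ⟪y, ν⟫ * ((max 0 (1 - ‖y‖ ^ 2)) ^ 2 -
            2 * (1 - ρ ^ 2) * (max 0 (1 - ‖y‖ ^ 2))) := by ring
        _ ≤ _ := this
    have h2 := h2_geom (n + 5) ρ hρ.1.le hρ.2.le
    push_cast at h2
    have h3 : (1 - ρ) * ((n + 5) * ρ ^ (n + 5)) * A ≤ (1 - ρ ^ (n + 5)) * A :=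
      mul_le_mul_of_nonneg_right h2 hA0
    have h4 : (1 - ρ) * ((n + 5) * ρ ^ (n + 5) * A) ≤ (1 - ρ) * (4 * B) := by
      have h5 : 2 * (1 - ρ ^ 2) * B ≤ (1 - ρ) * (4 * B) := by
        have : 2 * (1 - ρ ^ 2) * B = (1 - ρ) * (2 * (1 + ρ)) * B := by ring
        rw [this]
        have h6 : (1 - ρ) * (2 * (1 + ρ)) ≤ (1 - ρ) * 4 :=
          mul_le_mul_of_nonneg_left (by linarith [hρ.2]) (by linarith [hρ.2])
        nlinarith [mul_le_mul_of_nonneg_right h6 hB0]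
      nlinarith
    have h5 : (n + 5) * ρ ^ (n + 5) * A ≤ 4 * B :=
      le_of_mul_le_mul_left h4 (by linarith [hρ.2])
    nlinarith
  have hcont : Continuous (fun ρ : ℝ => (n + 5 : ℝ) / 4 * ρ ^ (n + 5) * A) := by fun_prop
  have hlim : Tendsto (fun ρ : ℝ => (n + 5 : ℝ) / 4 * ρ ^ (n + 5) * A) (𝓝[<] 1)
      (𝓝 ((n + 5 : ℝ) / 4 * 1 ^ (n + 5) * A)) :=
    (hcont.tendsto 1).mono_left nhdsWithin_le_nhds
  rw [one_pow, mul_one] at hlim
  refine le_of_tendsto hlim ?_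
  filter_upwards [Ioo_mem_nhdsLT (show (0 : ℝ) < 1 by norm_num)] with ρ hρ
  exact key ρ hρ

/-- rotation invariance of the first moment -/
theorem h2_rot (ν ν' : EE n) (h : ‖ν‖ = 1) (h' : ‖ν'‖ = 1) :
    ∫ y : EE n, max 0 ⟪y, ν⟫ * wt 2 y = ∫ y : EE n, max 0 ⟪y, ν'⟫ * wt 2 y := by
  set T : EE n ≃ₗᵢ[ℝ] EE n := (ℝ ∙ (ν - ν'))ᗮ.reflection with hT
  have hTν : T ν = ν' := Submodule.reflection_sub (by rw [h, h'])
  have h1 := (T.measurePreserving).integral_comp (T.toHomeomorph.measurableEmbedding)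
    (fun y : EE n => max 0 ⟪y, ν'⟫ * wt 2 y)
  rw [← h1]
  refine integral_congr_ae (Eventually.of_forall fun y => ?_)
  have e1 : ⟪T y, ν'⟫ = ⟪y, ν⟫ := by rw [← hTν, T.inner_map_map]
  have e2 : wt 2 (T y) = wt 2 y := by unfold wt; rw [T.norm_map]
  simp only
  rw [e1, e2]

theorem J_pos (hn : 2 ≤ n) : ∃ c : ℝ, 0 < c ∧ ∀ ν : EE n, ‖ν‖ = 1 →
    c ≤ ∫ y : EE n, max 0 ⟪y, ν⟫ * Δ (wt 3 : EE n → ℝ) y := by
  have : NeZero n := ⟨by omega⟩
  set ν₀ : EE n := EuclideanSpace.basisFun (Fin n) ℝ 0 with hν₀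
  have hν₀1 : ‖ν₀‖ = 1 := (EuclideanSpace.basisFun (Fin n) ℝ).norm_eq_one 0
  have hpos : 0 < ∫ y : EE n, max 0 ⟪y, ν₀⟫ * wt 2 y := by
    have hc : Continuous (fun y : EE n => max 0 ⟪y, ν₀⟫ * wt 2 y) :=
      (continuous_const.max (continuous_id.inner continuous_const)).mul (wt_continuous 2)
    refine hc.integral_pos_of_hasCompactSupport_nonneg_nonzero
      ((a3_wt_hasCompactSupport 2 (by norm_num)).mul_left)
      (fun y => mul_nonneg (le_max_left _ _) (wt_nonneg 2 y)) (x := (1 / 2 : ℝ) • ν₀) ?_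
    have e1 : ⟪(1 / 2 : ℝ) • ν₀, ν₀⟫ = 1 / 2 := by
      rw [real_inner_smul_left, real_inner_self_eq_norm_sq, hν₀1]; norm_num
    have e2 : ‖(1 / 2 : ℝ) • ν₀‖ = 1 / 2 := by
      rw [norm_smul, hν₀1]; norm_num
    rw [e1]
    unfold wt
    rw [e2]
    norm_num
  refine ⟨6 * ∫ y : EE n, max 0 ⟪y, ν₀⟫ * wt 2 y, by positivity, fun ν hν => ?_⟩
  rw [h2_rot ν₀ ν hν₀1 hν]
  have h1 := h2_moments ν
  have h2 : ∫ y : EE n, max 0 ⟪y, ν⟫ * Δ (wt 3 : EE n → ℝ) y =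
      24 * (∫ y : EE n, max 0 ⟪y, ν⟫ * wt 1 y) -
        (6 * n + 24) * ∫ y : EE n, max 0 ⟪y, ν⟫ * wt 2 y := by
    rw [← integral_const_mul, ← integral_const_mul, ← integral_sub
      ((h2_int1 ν 1 le_rfl).const_mul _) ((h2_int1 ν 2 (by norm_num)).const_mul _)]
    refine integral_congr_ae (Eventually.of_forall fun y => ?_)
    simp only
    rw [h2_lap]
    ring
  rw [h2]
  linarith

end Pool.Agent.Lib.MP_47b33c_an
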