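import Pool.Agent.Lib.MP_47b33c_an.Base
import Pool.Agent.Lib.MP_47b33c_an.ExpAt

set_option autoImplicit false

open MeasureTheory Metric Set Filter Topology InnerProductSpace
open scoped RealInnerProductSpace Laplacian

namespace Pool.Agent.Lib.MP_47b33c_an

variable {n : ℕ}

theorem e15_locPos_mono {Ω : Set (EE n)} {u : EE n → ℝ} {z : EE n} {r r' : ℝ}
    (h : LocPos Ω u z r) (hr : r' ≤ r) : LocPos Ω u z r' where
  cont := h.cont.mono (ball_subset_ball hr)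
  nonneg := fun x hx => h.nonneg x (ball_subset_ball hr hx)
  zero := fun x hx => h.zero x (ball_subset_ball hr hx)
  harm := h.harm.mono (inter_subset_inter_right _ (ball_subset_ball hr))

/-- the expansion at a single point -/
theorem e15_point (hn : 2 ≤ n) {Ω : Set (EE n)} {ν : EE n → EE n} {d : ℝ → EE n}
    {ε : ℝ → ℝ} {P : EE n} (hg : GoodDom Ω ν d ε P) {u : EE n → ℝ}
    (hu : ∀ z ∈ frontier Ω, LocPos Ω u z 8) (hpos : ∀ x ∈ Ω, 0 < u x) :
    ∃ C C₁ μ : ℝ, 1 ≤ C ∧ 1 ≤ C₁ ∧ 0 < μ ∧ μ < 1 ∧ ∀ z ∈ frontier Ω, z ≠ 0 →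
      ∃ k : ℝ, 0 < k ∧ ∀ j : ℕ, ∀ x ∈ ball z (min (‖z‖ / (2 * C)) (1 / 2) / 64 ^ j / 8),
        |u x - k * max 0 ⟪x - z, ν z⟫| ≤
          C * μ ^ j * (C₁ * (u (z + (min (‖z‖ / (2 * C)) (1 / 2) / 2) • ν z) /
            min (‖z‖ / (2 * C)) (1 / 2))) * (min (‖z‖ / (2 * C)) (1 / 2) / 64 ^ j) := by
  obtain ⟨C, μ, hC, hμ, hμ1, hexp⟩ := exp_at (n := n) hn
  obtain ⟨c₁, C₁, hc₁, hc₁1, hC₁, hbase⟩ := base_prof (n := n) hn
  refine ⟨C, C₁, μ, hC, hC₁, hμ, hμ1, fun z hz hz0 => ?_⟩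
  have hC0 : 0 < C := by linarith
  have hzn : 0 < ‖z‖ := norm_pos_iff.mpr hz0
  set r : ℝ := min (‖z‖ / (2 * C)) (1 / 2) with hr
  have hrpos : 0 < r := lt_min (by positivity) (by norm_num)
  have hrz : r ≤ ‖z‖ / 2 := by
    refine (min_le_left _ _).trans ?_
    rw [div_le_div_iff₀ (by positivity) (by norm_num)]
    nlinarith
  have hr2 : r ≤ 1 / 2 := min_le_right _ _
  have hCr : C * (r / ‖z‖) ≤ 1 / 2 := by
    have h1 : r ≤ ‖z‖ / (2 * C) := min_le_left _ _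
    rw [le_div_iff₀ (by positivity)] at h1
    rw [← mul_div_assoc, div_le_iff₀ hzn]
    linarith
  set κ : ℝ := ε ‖z‖ * (r / ‖z‖) with hκ
  have hε0 := hg.eps_nonneg ‖z‖
  have hε1 := hg.eps_le ‖z‖
  have hrz1 : r / ‖z‖ ≤ 1 / 2 := by
    rw [div_le_iff₀ hzn]; linarith
  have hrz0 : 0 < r / ‖z‖ := by positivity
  have hκ0 : 0 ≤ κ := by positivity
  have hth : th0 ≤ 1 := by norm_num [th0]
  have hκth : κ ≤ th0 := by
    calc κ ≤ th0 * 1 := by
          rw [hκ]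
          have : (0:ℝ) ≤ th0 := by norm_num [th0]
          gcongr
          linarith
      _ = th0 := mul_one _
  have hflat : ∀ j : ℕ, Flat Ω z (r / 64 ^ j) (ν z) (κ / 64 ^ j) := by
    intro j
    have hle : r / 64 ^ j ≤ r := div_le_self hrpos.le (one_le_pow₀ (by norm_num))
    have h1 := hg.flat_at z hz hz0 (r / 64 ^ j) (by positivity) (hle.trans hrz)
    have h2 : ε ‖z‖ * (r / 64 ^ j / ‖z‖) = κ / 64 ^ j := by
      rw [hκ]; ring
    rwa [h2] at h1
  have hloc := hu z hz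
  have hfl0 : Flat Ω z r (ν z) κ := by simpa using hflat 0
  have hprof := hbase Ω u z (ν z) r κ hg.isOpen hg.allFlat hz hrpos hκ0 hκth hfl0
    (e15_locPos_mono hloc (by linarith))
  set N : ℝ := u (z + (r / 2) • ν z) with hN
  have hNpos : 0 < N := by
    refine hpos _ (hfl0.inn _ ?_ ?_)
    · rw [mem_ball, dist_eq_norm, add_sub_cancel_left, norm_smul, hfl0.unit,
        Real.norm_of_nonneg (by linarith), mul_one]
      linarith
    · rw [add_sub_cancel_left, inner_smul_left, real_inner_self_eq_norm_sq, hfl0.unit]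
      have h1 : κ ≤ 1 / 10000 := hκth
      simp
      nlinarith
  have hNr : 0 < N / r := div_pos hNpos hrpos
  obtain ⟨k, hk1, hk2, hk3⟩ := hexp Ω u z (ν z) r κ (c₁ * (N / r)) (C₁ * (N / r)) hg.isOpen hrpos
    hκ0 hκth hflat (e15_locPos_mono hloc (by linarith)) (by positivity)
    (mul_le_mul_of_nonneg_right (by linarith) hNr.le) hprof
  refine ⟨k, lt_of_lt_of_le ?_ hk1, hk3⟩
  have h1 : C * κ ≤ 1 / 2 := by
    calc C * κ = ε ‖z‖ * (C * (r / ‖z‖)) := by rw [hκ]; ring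
      _ ≤ 1 * (1 / 2) := by
        have := hε1.trans hth
        gcongr
      _ = 1 / 2 := by norm_num
  have h2 : 0 < 1 - C * κ := by linarith
  positivity

/-- the two first properties in BdryExp -/
theorem kfun_exists (hn : 2 ≤ n) {Ω : Set (EE n)} {ν : EE n → EE n} {d : ℝ → EE n}
    {ε : ℝ → ℝ} {P : EE n} (hg : GoodDom Ω ν d ε P) {u : EE n → ℝ} (hc : Continuous u)
    (hu : ∀ z ∈ frontier Ω, LocPos Ω u z 8) (hpos : ∀ x ∈ Ω, 0 < u x) :
    ∃ k : EE n → ℝ, (∀ z ∈ frontier Ω, z ≠ 0 → 0 < k z) ∧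
      ∀ K : Set (EE n), K ⊆ frontier Ω \ {0} → IsCompact K → ∀ η : ℝ, 0 < η →
        ∃ r₀ : ℝ, 0 < r₀ ∧ ∀ z ∈ K, ∀ x ∈ ball z r₀,
          |u x - k z * max 0 ⟪x - z, ν z⟫| ≤ η * ‖x - z‖ := by
  classical
  obtain ⟨C, C₁, μ, hC, hC₁, hμ, hμ1, hpt⟩ := e15_point hn hg hu hpos
  choose! k hk using hpt
  refine ⟨k, fun z hz hz0 => (hk z hz hz0).1, ?_⟩
  intro K hK hKc η hη
  rcases K.eq_empty_or_nonempty with rfl | hKn
  · exact ⟨1, one_pos, fun z hz => absurd hz (notMem_empty z)⟩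
  have hC0 : 0 < C := by linarith
  -- lower bound for the norm
  obtain ⟨z₁, hz₁, hz₁min⟩ := hKc.exists_isMinOn hKn continuous_norm.continuousOn
  have hm : 0 < ‖z₁‖ := norm_pos_iff.mpr (hK hz₁).2
  set m : ℝ := ‖z₁‖ with hmd
  obtain ⟨R, hR⟩ := hKc.isBounded.subset_closedBall (0 : EE n)
  obtain ⟨B, hB⟩ := (isCompact_closedBall (0 : EE n) (R + 1)).exists_bound_of_continuousOn
    hc.continuousOn
  set ρ : EE n → ℝ := fun z => min (‖z‖ / (2 * C)) (1 / 2) with hρ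
  set r₁ : ℝ := min (m / (2 * C)) (1 / 2) with hr₁
  have hr₁pos : 0 < r₁ := lt_min (by positivity) (by norm_num)
  have hρ1 : ∀ z ∈ K, r₁ ≤ ρ z := by
    intro z hz
    have : m ≤ ‖z‖ := hz₁min hz
    simp only [hr₁, hρ]
    gcongr
  have hρ2 : ∀ z, ρ z ≤ 1 / 2 := fun z => min_le_right _ _
  have hB0 : 0 ≤ B := by
    have h1 : z₁ ∈ closedBall (0 : EE n) (R + 1) := closedBall_subset_closedBall (by linarith) (hR hz₁)
    exact (norm_nonneg _).trans (hB z₁ h1)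
  have hβ : ∀ z ∈ K, C₁ * (u (z + (ρ z / 2) • ν z) / ρ z) ≤ C₁ * (B / r₁) := by
    intro z hz
    have hz' := hK hz
    have hz0 : z ≠ 0 := hz'.2
    have hρz : 0 < ρ z := hr₁pos.trans_le (hρ1 z hz)
    have hunit : ‖ν z‖ = 1 := by
      have hzn : 0 < ‖z‖ := norm_pos_iff.mpr hz0
      exact (hg.flat_at z hz'.1 hz0 (‖z‖ / 2) (by positivity) le_rfl).unit
    have h1 : z + (ρ z / 2) • ν z ∈ closedBall (0 : EE n) (R + 1) := by
      rw [mem_closedBall_zero_iff]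
      have h2 := hR hz
      rw [mem_closedBall_zero_iff] at h2
      calc ‖z + (ρ z / 2) • ν z‖ ≤ ‖z‖ + ‖(ρ z / 2) • ν z‖ := norm_add_le _ _
        _ = ‖z‖ + ρ z / 2 := by
          rw [norm_smul, hunit, Real.norm_of_nonneg (by linarith), mul_one]
        _ ≤ R + 1 := by linarith [hρ2 z]
    have h2 : u (z + (ρ z / 2) • ν z) ≤ B := (le_abs_self _).trans (hB _ h1)
    have h3 : u (z + (ρ z / 2) • ν z) / ρ z ≤ B / r₁ := by
      calc u (z + (ρ z / 2) • ν z) / ρ z ≤ B / ρ z := by gcongr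
        _ ≤ B / r₁ := by
          have := hρ1 z hz
          gcongr
    have hC₁0 : 0 ≤ C₁ := by linarith
    gcongr
  set β : ℝ := C₁ * (B / r₁) with hβd
  have hβ0 : 0 ≤ β := by positivity
  -- the choice of the level
  obtain ⟨j₀, hj₀⟩ : ∃ j₀ : ℕ, C * μ ^ j₀ * β * 512 ≤ η := by
    have h1 : Tendsto (fun j : ℕ => C * μ ^ j * β * 512) atTop (𝓝 (C * 0 * β * 512)) :=
      (((tendsto_pow_atTop_nhds_zero_of_lt_one hμ.le hμ1).const_mul C).mul_const β).mul_const 512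
    have h2 : C * 0 * β * 512 < η := by simpa using hη
    obtain ⟨j, hj⟩ := (h1.eventually_le_const h2).exists
    exact ⟨j, hj⟩
  refine ⟨r₁ / 64 ^ j₀ / 8, by positivity, fun z hz x hx => ?_⟩
  have hz' := hK hz
  have hz0 : z ≠ 0 := hz'.2
  have hkz := (hk z hz'.1 hz0).2
  have hρz : 0 < ρ z := hr₁pos.trans_le (hρ1 z hz)
  rcases eq_or_ne x z with rfl | hxz
  · have hux : u x = 0 := by
      refine (hu x hz'.1).zero x (mem_ball_self (by norm_num)) ?_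
      have := hz'.1
      rw [hg.isOpen.frontier_eq] at this
      exact this.2
    simp [hux]
  have hdist : 0 < ‖x - z‖ := norm_pos_iff.mpr (sub_ne_zero.mpr hxz)
  -- the largest admissible level
  have hex : ∃ j : ℕ, ρ z / 64 ^ (j + 1) / 8 ≤ ‖x - z‖ := by
    have h1 : Tendsto (fun j : ℕ => ρ z * (1 / 64 : ℝ) ^ j) atTop (𝓝 (ρ z * 0)) :=
      (tendsto_pow_atTop_nhds_zero_of_lt_one (by norm_num) (by norm_num)).const_mul _
    rw [mul_zero] at h1
    obtain ⟨j, hj⟩ := (h1.eventually_le_const hdist).exists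
    refine ⟨j, le_trans ?_ hj⟩
    rw [one_div, inv_pow, ← div_eq_mul_inv, pow_succ, ← div_div]
    have : 0 ≤ ρ z / 64 ^ j := by positivity
    linarith
  set j := Nat.find hex with hj
  have hj1 : ρ z / 64 ^ (j + 1) / 8 ≤ ‖x - z‖ := Nat.find_spec hex
  have hxj₀ : ‖x - z‖ < ρ z / 64 ^ j₀ / 8 := by
    rw [mem_ball, dist_eq_norm] at hx
    refine hx.trans_le ?_
    have := hρ1 z hz
    gcongr
  have hj0le : j₀ ≤ j := by
    by_contra hcon
    rw [not_le] at hcon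
    have h1 : ρ z / 64 ^ j₀ / 8 ≤ ρ z / 64 ^ (j + 1) / 8 := by
      have h2 : (64 : ℝ) ^ (j + 1) ≤ 64 ^ j₀ := pow_le_pow_right₀ (by norm_num) hcon
      gcongr
    linarith
  have hxj : ‖x - z‖ < ρ z / 64 ^ j / 8 := by
    rcases Nat.eq_zero_or_pos j with h0 | h0
    · have h1 : j₀ = 0 := by omega
      rw [h0, ← h1]; exact hxj₀
    · obtain ⟨i, hi⟩ : ∃ i, j = i + 1 := ⟨j - 1, by omega⟩
      have h1 := Nat.find_min hex (m := i) (by omega)
      rw [not_le] at h1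
      rw [hi]; exact h1
  have hxball : x ∈ ball z (ρ z / 64 ^ j / 8) := by
    rw [mem_ball, dist_eq_norm]; exact hxj
  have h1 := hkz j x hxball
  refine h1.trans ?_
  have h2 : ρ z / 64 ^ j ≤ 512 * ‖x - z‖ := by
    have h3 : ρ z / 64 ^ (j + 1) / 8 = ρ z / 64 ^ j / 512 := by
      rw [pow_succ]; field_simp; ring
    rw [h3] at hj1
    linarith
  have h3 : C₁ * (u (z + (ρ z / 2) • ν z) / ρ z) ≤ β := hβ z hz
  have h4 : μ ^ j ≤ μ ^ j₀ := pow_le_pow_of_le_one hμ.le hμ1.le hj0le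
  calc C * μ ^ j * (C₁ * (u (z + (ρ z / 2) • ν z) / ρ z)) * (ρ z / 64 ^ j)
      ≤ C * μ ^ j * β * (ρ z / 64 ^ j) := by gcongr
    _ ≤ C * μ ^ j₀ * β * (512 * ‖x - z‖) := by gcongr
    _ = C * μ ^ j₀ * β * 512 * ‖x - z‖ := by ring
    _ ≤ η * ‖x - z‖ := by gcongr

theorem kfun_cont {Ω : Set (EE n)} {ν : EE n → EE n} {d : ℝ → EE n}
    {ε : ℝ → ℝ} {P : EE n} (hg : GoodDom Ω ν d ε P) {u k : EE n → ℝ} (hc : Continuous u)
    (hk : ∀ K : Set (EE n), K ⊆ frontier Ω \ {0} → IsCompact K → ∀ η : ℝ, 0 < η →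
        ∃ r₀ : ℝ, 0 < r₀ ∧ ∀ z ∈ K, ∀ x ∈ ball z r₀,
          |u x - k z * max 0 ⟪x - z, ν z⟫| ≤ η * ‖x - z‖) :
    ContinuousOn k (frontier Ω \ {0}) := by
  intro z₀ hz₀
  have hz₀n : 0 < ‖z₀‖ := norm_pos_iff.mpr hz₀.2
  set K : Set (EE n) := frontier Ω ∩ closedBall z₀ (‖z₀‖ / 2) with hK
  have hKsub : K ⊆ frontier Ω \ {0} := by
    intro z hz
    refine ⟨hz.1, fun h0 => ?_⟩
    have h1 := hz.2
    rw [mem_singleton_iff] at h0
    rw [h0, mem_closedBall, dist_zero_left] at h1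
    linarith
  have hKc : IsCompact K := (isCompact_closedBall z₀ _).inter_left isClosed_frontier
  have hunit : ∀ z ∈ frontier Ω \ {0}, ‖ν z‖ = 1 := by
    intro z hz
    have hzn : 0 < ‖z‖ := norm_pos_iff.mpr hz.2
    exact (hg.flat_at z hz.1 hz.2 (‖z‖ / 2) (by positivity) le_rfl).unit
  rw [ContinuousWithinAt, Metric.tendsto_nhds]
  intro η hη
  obtain ⟨r₀, hr₀, hr₀'⟩ := hk K hKsub hKc (η / 4) (by positivity)
  set t : ℝ := r₀ / 2 with ht
  have htpos : 0 < t := by positivity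
  set g : EE n → ℝ := fun z => u (z + t • ν z) / t with hgd
  have happ : ∀ z ∈ K, |g z - k z| ≤ η / 4 := by
    intro z hz
    have hu1 := hunit z (hKsub hz)
    have h1 := hr₀' z hz (z + t • ν z) (by
      rw [mem_ball, dist_eq_norm, add_sub_cancel_left, norm_smul, hu1,
        Real.norm_of_nonneg htpos.le, mul_one]
      linarith)
    rw [add_sub_cancel_left, inner_smul_left, real_inner_self_eq_norm_sq, hu1, norm_smul, hu1,
      Real.norm_of_nonneg htpos.le] at h1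
    simp only [conj_trivial, one_pow, mul_one] at h1
    rw [max_eq_right htpos.le] at h1
    have h2 : g z - k z = (u (z + t • ν z) - k z * t) / t := by
      simp only [hgd]; field_simp
    rw [h2, abs_div, abs_of_pos htpos, div_le_iff₀ htpos]
    exact h1
  have hgc : ContinuousWithinAt g (frontier Ω \ {0}) z₀ := by
    have h1 : ContinuousWithinAt ν (frontier Ω \ {0}) z₀ := hg.nu_cont z₀ hz₀
    exact (hc.continuousAt.comp_continuousWithinAt
      (continuousWithinAt_id.add (h1.const_smul t))).div_const t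
  have h2 := Metric.tendsto_nhds.mp hgc (η / 4) (by positivity)
  have h3 : ∀ᶠ z in 𝓝[frontier Ω \ {0}] z₀, z ∈ closedBall z₀ (‖z₀‖ / 2) :=
    mem_nhdsWithin_of_mem_nhds (closedBall_mem_nhds z₀ (by positivity))
  filter_upwards [h2, h3, self_mem_nhdsWithin] with z hz1 hz2 hz3
  have h4 := happ z ⟨hz3.1, hz2⟩
  have h5 := happ z₀ ⟨hz₀.1, mem_closedBall_self (by positivity)⟩
  rw [Real.dist_eq] at hz1 ⊢
  rw [abs_le] at h4 h5
  rw [abs_lt] at hz1 ⊢
  constructor <;> linarith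

end Pool.Agent.Lib.MP_47b33c_an
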