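import Pool.Agent.Lib.MP_47b33c_an.Wt
import Pool.Agent.Lib.MP_47b33c_an.Jfun
import Pool.Agent.Lib.MP_47b33c_an.Jpos

set_option autoImplicit false

open MeasureTheory Metric Set Filter Topology InnerProductSpace
open scoped RealInnerProductSpace Laplacian

namespace Pool.Agent.Lib.MP_47b33c_an

variable {n : ℕ}

/-- the Laplacian and affine changes of variables -/
theorem h3_lap_comp {f : EE n → ℝ} (hf : ContDiff ℝ 2 f) (a : ℝ) (b x : EE n) :
    Δ (fun y : EE n => f (a • (y - b))) x = a ^ 2 * Δ f (a • (x - b)) := by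
  have h1 : (fun y : EE n => f (a • (y - b))) =
      fun y : EE n => (f ∘ (a • ContinuousLinearMap.id ℝ (EE n))) (y - b) := by
    ext y; simp
  rw [laplacian_eq_iteratedFDeriv_orthonormalBasis _ (EuclideanSpace.basisFun (Fin n) ℝ),
    laplacian_eq_iteratedFDeriv_orthonormalBasis f (EuclideanSpace.basisFun (Fin n) ℝ)]
  simp only [Finset.mul_sum]
  refine Finset.sum_congr rfl fun i _ => ?_
  rw [h1, iteratedFDeriv_comp_sub]
  rw [ContinuousLinearMap.iteratedFDeriv_comp_right (a • ContinuousLinearMap.id ℝ (EE n)) hf _ le_rfl]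
  have h2 : (fun j : Fin 2 => (a • ContinuousLinearMap.id ℝ (EE n)) (![(EuclideanSpace.basisFun (Fin n) ℝ) i, (EuclideanSpace.basisFun (Fin n) ℝ) i] j)) =
      fun j => (fun _ : Fin 2 => a) j • (![(EuclideanSpace.basisFun (Fin n) ℝ) i, (EuclideanSpace.basisFun (Fin n) ℝ) i] : Fin 2 → EE n) j := by
    ext j : 1
    simp
  rw [ContinuousMultilinearMap.compContinuousLinearMap_apply]
  have h3 : (fun j : Fin 2 => (fun _ : Fin 2 => (a • ContinuousLinearMap.id ℝ (EE n))) j (![(EuclideanSpace.basisFun (Fin n) ℝ) i, (EuclideanSpace.basisFun (Fin n) ℝ) i] j)) = fun j => (fun _ : Fin 2 => a) j • (![(EuclideanSpace.basisFun (Fin n) ℝ) i, (EuclideanSpace.basisFun (Fin n) ℝ) i] : Fin 2 → EE n) j := h2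
  rw [h3, ContinuousMultilinearMap.map_smul_univ]
  simp [sq]

theorem h3_wt_neg (k : ℕ) (y : EE n) : wt k (-y) = wt k y := by
  unfold wt; rw [norm_neg]

theorem h3_lap_neg (y : EE n) : Δ (wt 3 : EE n → ℝ) (-y) = Δ (wt 3 : EE n → ℝ) y := by
  have h := h3_lap_comp (wt_contDiff (n := n)) (-1) 0 y
  have h2 : (fun y : EE n => wt 3 ((-1 : ℝ) • (y - 0)) : EE n → ℝ) = wt 3 := by
    ext y
    rw [sub_zero, neg_one_smul, h3_wt_neg]
  rw [h2] at h
  simp only [sub_zero, neg_one_smul] at h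
  linarith

/-- the test functions -/
noncomputable def phr (r : ℝ) (x : EE n) (y : EE n) : ℝ := wt 3 (r⁻¹ • (y - x))

theorem h3_contDiff (r : ℝ) (x : EE n) : ContDiff ℝ 2 (phr r x) := by
  unfold phr
  exact (wt_contDiff (n := n)).comp (by fun_prop)

theorem h3_cont (r : ℝ) (x : EE n) : Continuous (phr r x) := (h3_contDiff r x).continuous

theorem h3_zero {r : ℝ} (hr : 0 < r) {x y : EE n} (h : r ≤ dist y x) : phr r x y = 0 := by
  unfold phr
  refine wt_eq_zero 3 (by norm_num) ?_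
  rw [norm_smul, norm_inv, Real.norm_eq_abs, abs_of_pos hr, ← dist_eq_norm]
  rw [← div_eq_inv_mul, le_div_iff₀ hr]; linarith

theorem h3_tsupport {r : ℝ} (hr : 0 < r) (x : EE n) : tsupport (phr r x) ⊆ closedBall x r := by
  refine closure_minimal ?_ isClosed_closedBall
  intro y hy
  by_contra h
  rw [mem_closedBall, not_le] at h
  exact hy (h3_zero hr h.le)

theorem h3_compact {r : ℝ} (hr : 0 < r) (x : EE n) : HasCompactSupport (phr r x) :=
  HasCompactSupport.of_support_subset_isCompact (isCompact_closedBall x r)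
    ((subset_tsupport _).trans (h3_tsupport hr x))

theorem h3_nonneg (r : ℝ) (x y : EE n) : 0 ≤ phr r x y := wt_nonneg 3 _

theorem h3_le_one (r : ℝ) (x y : EE n) : phr r x y ≤ 1 := wt_le_one 3 _

theorem h3_lap (r : ℝ) (x y : EE n) :
    Δ (phr r x) y = (r⁻¹) ^ 2 * Δ (wt 3 : EE n → ℝ) (r⁻¹ • (y - x)) := by
  unfold phr
  exact h3_lap_comp (wt_contDiff (n := n)) r⁻¹ x y

theorem h3_int_change {r : ℝ} (hr : 0 < r) (x : EE n) (G : EE n → ℝ) :
    ∫ y, G y * Δ (phr r x) y =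
      r ^ n * (r⁻¹) ^ 2 * ∫ y, G (x + r • y) * Δ (wt 3 : EE n → ℝ) y := by
  have h1 : ∫ y, G y * Δ (phr r x) y = ∫ y, G (x + y) * Δ (phr r x) (x + y) :=
    (integral_add_left_eq_self (fun y => G y * Δ (phr r x) y) x).symm
  have h2 := Measure.integral_comp_smul (volume : Measure (EE n))
    (fun y => G (x + y) * Δ (phr r x) (x + y)) r
  have hfr : Module.finrank ℝ (EE n) = n := by simp
  rw [hfr] at h2
  have h3 : |(r ^ n)⁻¹| = (r ^ n)⁻¹ := abs_of_pos (by positivity)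
  rw [h3, smul_eq_mul] at h2
  have h4 : ∫ y, G (x + y) * Δ (phr r x) (x + y) =
      r ^ n * ∫ y, G (x + r • y) * Δ (phr r x) (x + r • y) := by
    rw [h2]; field_simp
  rw [h1, h4, mul_assoc]
  congr 1
  rw [← integral_const_mul]
  refine integral_congr_ae (Eventually.of_forall fun y => ?_)
  simp only [h3_lap]
  have h5 : r⁻¹ • (x + r • y - x) = y := by
    rw [add_sub_cancel_left, smul_smul, inv_mul_cancel₀ hr.ne', one_smul]
  rw [h5]; ring

theorem h3_lap_zero {y : EE n} (hy : 1 < ‖y‖) : Δ (wt 3 : EE n → ℝ) y = 0 := lap_wt_eq_zero hy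

theorem h3_lap_compact : HasCompactSupport (Δ (wt 3 : EE n → ℝ)) := by
  refine HasCompactSupport.of_support_subset_isCompact (isCompact_closedBall 0 1) ?_
  intro y hy
  by_contra h
  rw [mem_closedBall, dist_zero_right, not_le] at h
  exact hy (lap_wt_eq_zero h)

theorem h3_lap_integrable : Integrable (fun y : EE n => |Δ (wt 3 : EE n → ℝ) y|) :=
  ((lap_wt_continuous (n := n)).integrable_of_hasCompactSupport h3_lap_compact).abs

theorem h3_mul_integrable {g : EE n → ℝ} (hg : Continuous g) :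
    Integrable (fun y : EE n => g y * Δ (wt 3 : EE n → ℝ) y) :=
  (hg.mul lap_wt_continuous).integrable_of_hasCompactSupport h3_lap_compact.mul_left

/-- the asymptotic expansion of the measure of the test functions -/
theorem h3_expand {Ω : Set (EE n)} {G : EE n → ℝ} (hG : Continuous G) {ω : Measure (EE n)}
    {c : ℝ} (hrep : ∀ φ : EE n → ℝ, ContDiff ℝ 2 φ → HasCompactSupport φ →
      (∀ x ∈ tsupport φ, infDist x (frontier Ω) ≤ 2) → c * ∫ x, φ x ∂ω = ∫ x, G x * Δ φ x)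
    {z x νz : EE n} {κ τ r r₁ : ℝ} (hr : 0 < r) (hr1 : r ≤ 1) (hr₁ : 2 * r < r₁)
    (hxz : dist x z < r) (hz : z ∈ frontier Ω) (hτ : 0 ≤ τ)
    (hexp : ∀ y ∈ ball z r₁, |G y - κ * max 0 ⟪y - z, νz⟫| ≤ τ * ‖y - z‖) :
    |c * ∫ y, phr r x y ∂ω - r ^ n * r⁻¹ * (κ * ∫ y : EE n,
      max 0 (⟪y, νz⟫ + r⁻¹ * ⟪x - z, νz⟫) * Δ (wt 3 : EE n → ℝ) y)| ≤
      r ^ n * r⁻¹ * (2 * τ * ∫ y : EE n, |Δ (wt 3 : EE n → ℝ) y|) := by
  rw [hrep (phr r x) (h3_contDiff r x) (h3_compact hr x) ?_, h3_int_change hr]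
  · have hR : r ^ n * (r⁻¹) ^ 2 = r ^ n * r⁻¹ * r⁻¹ := by ring
    have hcm : Continuous (fun y : EE n => max 0 (⟪y, νz⟫ + r⁻¹ * ⟪x - z, νz⟫)) := by fun_prop
    have hcG : Continuous (fun y : EE n => G (x + r • y)) := hG.comp (by fun_prop)
    have h1 : r ^ n * (r⁻¹) ^ 2 * (∫ y, G (x + r • y) * Δ (wt 3 : EE n → ℝ) y) -
        r ^ n * r⁻¹ * (κ * ∫ y : EE n, max 0 (⟪y, νz⟫ + r⁻¹ * ⟪x - z, νz⟫) *
          Δ (wt 3 : EE n → ℝ) y) = r ^ n * r⁻¹ * ∫ y : EE n, (r⁻¹ * G (x + r • y) -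
          κ * max 0 (⟪y, νz⟫ + r⁻¹ * ⟪x - z, νz⟫)) * Δ (wt 3 : EE n → ℝ) y := by
      have e1 : ∫ y : EE n, (r⁻¹ * G (x + r • y) -
          κ * max 0 (⟪y, νz⟫ + r⁻¹ * ⟪x - z, νz⟫)) * Δ (wt 3 : EE n → ℝ) y =
          r⁻¹ * (∫ y, G (x + r • y) * Δ (wt 3 : EE n → ℝ) y) -
          κ * ∫ y : EE n, max 0 (⟪y, νz⟫ + r⁻¹ * ⟪x - z, νz⟫) * Δ (wt 3 : EE n → ℝ) y := by
        rw [← integral_const_mul, ← integral_const_mul, ← integral_sub
          ((h3_mul_integrable hcG).const_mul _) ((h3_mul_integrable hcm).const_mul _)]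
        refine integral_congr_ae (Eventually.of_forall fun y => ?_)
        simp only
        ring
      rw [e1, hR]; ring
    rw [h1, abs_mul, abs_of_nonneg (by positivity : 0 ≤ r ^ n * r⁻¹)]
    refine mul_le_mul_of_nonneg_left ?_ (by positivity)
    rw [← integral_const_mul]
    have h2 := norm_integral_le_of_norm_le (f := fun y : EE n => (r⁻¹ * G (x + r • y) -
          κ * max 0 (⟪y, νz⟫ + r⁻¹ * ⟪x - z, νz⟫)) * Δ (wt 3 : EE n → ℝ) y)
        (g := fun y : EE n => 2 * τ * |Δ (wt 3 : EE n → ℝ) y|)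
        (h3_lap_integrable.const_mul _) (Eventually.of_forall fun y => ?_)
    · rw [Real.norm_eq_abs] at h2
      exact h2
    · rw [norm_mul, Real.norm_eq_abs, Real.norm_eq_abs]
      rcases lt_or_ge 1 ‖y‖ with hy | hy
      · rw [lap_wt_eq_zero hy]; simp
      · refine mul_le_mul_of_nonneg_right ?_ (abs_nonneg _)
        have hd : ‖x + r • y - z‖ ≤ 2 * r := by
          have : x + r • y - z = (x - z) + r • y := by abel
          rw [this]
          refine (norm_add_le _ _).trans ?_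
          rw [norm_smul, Real.norm_eq_abs, abs_of_pos hr, ← dist_eq_norm]
          nlinarith
        have hb : x + r • y ∈ ball z r₁ := by
          rw [mem_ball, dist_eq_norm]; linarith
        have h3 := hexp _ hb
        have h4 : max 0 ⟪x + r • y - z, νz⟫ = r * max 0 (⟪y, νz⟫ + r⁻¹ * ⟪x - z, νz⟫) := by
          rw [mul_max_of_nonneg _ _ hr.le, mul_zero]
          congr 1
          have : x + r • y - z = (x - z) + r • y := by abel
          rw [this, inner_add_left, inner_smul_left]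
          simp only [conj_trivial]
          field_simp
          ring
        rw [h4] at h3
        have h5 : r⁻¹ * G (x + r • y) - κ * max 0 (⟪y, νz⟫ + r⁻¹ * ⟪x - z, νz⟫) =
            r⁻¹ * (G (x + r • y) - κ * (r * max 0 (⟪y, νz⟫ + r⁻¹ * ⟪x - z, νz⟫))) := by
          field_simp
        rw [h5, abs_mul, abs_of_pos (by positivity : 0 < r⁻¹)]
        calc r⁻¹ * |G (x + r • y) - κ * (r * max 0 (⟪y, νz⟫ + r⁻¹ * ⟪x - z, νz⟫))| ≤
            r⁻¹ * (τ * (2 * r)) := mul_le_mul_of_nonneg_left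
              (h3.trans (mul_le_mul_of_nonneg_left hd hτ)) (by positivity)
          _ = 2 * τ := by field_simp
  · intro y hy
    have h1 := h3_tsupport hr x hy
    rw [mem_closedBall] at h1
    calc infDist y (frontier Ω) ≤ dist y z := infDist_le_dist_of_mem hz
      _ ≤ dist y x + dist x z := dist_triangle _ _ _
      _ ≤ 2 := by linarith

theorem h3_phr_neg (r : ℝ) (x y : EE n) : phr r x (-y) = phr r (-x) y := by
  unfold phr
  rw [← h3_wt_neg]
  congr 1
  rw [← smul_neg]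
  congr 1
  abel

theorem h3_reflect (ω : Measure (EE n)) (r : ℝ) (x : EE n) :
    ∫ y, phr r x y ∂(ω.map (fun y => -y)) = ∫ y, phr r (-x) y ∂ω := by
  rw [integral_map measurable_neg.aemeasurable (h3_cont r x).aestronglyMeasurable]
  simp only [h3_phr_neg]

theorem h3_mono {r : ℝ} (hr : 0 < r) (x y : EE n) : phr r x y ≤ phr (8 * r) x y := by
  unfold phr wt
  refine pow_le_pow_left₀ (le_max_left _ _) ?_ 3
  refine max_le_max le_rfl ?_
  rw [norm_smul, norm_smul, norm_inv, norm_inv, Real.norm_eq_abs, Real.norm_eq_abs,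
    abs_of_pos hr, abs_of_pos (by positivity : 0 < 8 * r)]
  have h1 : (8 * r)⁻¹ * ‖y - x‖ ≤ r⁻¹ * ‖y - x‖ := by
    refine mul_le_mul_of_nonneg_right ?_ (norm_nonneg _)
    exact inv_anti₀ hr (by linarith)
  have h2 : 0 ≤ (8 * r)⁻¹ * ‖y - x‖ := by positivity
  nlinarith

theorem h3_lower {r : ℝ} (hr : 0 < r) {x z y : EE n} (hxz : dist x z < r) :
    phr (4 * r) z y ≤ (64 / 39) ^ 3 * phr (8 * r) x y := by
  rcases le_or_gt (4 * r) (dist y z) with h | h
  · rw [h3_zero (by linarith) h]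
    have := h3_nonneg (8 * r) x y
    positivity
  · refine (h3_le_one _ _ _).trans ?_
    have h1 : dist y x < 5 * r := by
      have := dist_triangle y z x
      rw [dist_comm z x] at this
      linarith
    have h2 : (39 / 64 : ℝ) ≤ 1 - ‖(8 * r)⁻¹ • (y - x)‖ ^ 2 := by
      rw [norm_smul, norm_inv, Real.norm_eq_abs, abs_of_pos (by positivity : 0 < 8 * r),
        ← dist_eq_norm]
      have h3 : (8 * r)⁻¹ * dist y x ≤ 5 / 8 := by
        rw [← div_eq_inv_mul, div_le_iff₀ (by positivity)]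
        linarith
      have h4 : 0 ≤ (8 * r)⁻¹ * dist y x := by positivity
      nlinarith
    have h3 : (39 / 64 : ℝ) ^ 3 ≤ phr (8 * r) x y := by
      unfold phr wt
      exact pow_le_pow_left₀ (by norm_num) (h2.trans (le_max_right _ _)) 3
    calc (1 : ℝ) = (64 / 39) ^ 3 * (39 / 64) ^ 3 := by norm_num
      _ ≤ _ := mul_le_mul_of_nonneg_left h3 (by norm_num)

theorem h3_J2 (hn : 2 ≤ n) (v : EE n) (q : ℝ) :
    ∫ y : EE n, max 0 (⟪y, v⟫ + -q) * Δ (wt 3 : EE n → ℝ) y =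
      ∫ y : EE n, max 0 (⟪y, v⟫ + q) * Δ (wt 3 : EE n → ℝ) y := by
  rw [J_symm hn v q, ← integral_neg_eq_self
    (fun y : EE n => max 0 (⟪y, v⟫ + -q) * Δ (wt 3 : EE n → ℝ) y)]
  refine integral_congr_ae (Eventually.of_forall fun y => ?_)
  simp only [h3_lap_neg, inner_neg_left]
  rfl

/-- comparison of the two measures at small scales -/
theorem local_compare (hn : 2 ≤ n) {Ω : Set (EE n)} {ν : EE n → EE n} {d : ℝ → EE n}
    {ε : ℝ → ℝ} {P : EE n} (hg : GoodDom Ω ν d ε P) {G k : EE n → ℝ} (hG : Continuous G)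
    (hG0 : ∀ x, x ∉ Ω → G x = 0) (hk : BdryExp Ω ν G k) {ω : Measure (EE n)}
    [IsProbabilityMeasure ω] (hsupp : ω (frontier Ω)ᶜ = 0) {c : ℝ} (hc : 0 < c)
    (hrep : ∀ φ : EE n → ℝ, ContDiff ℝ 2 φ → HasCompactSupport φ →
      (∀ x ∈ tsupport φ, infDist x (frontier Ω) ≤ 2) → c * ∫ x, φ x ∂ω = ∫ x, G x * Δ φ x)
    {K : Set (EE n)} (hK : IsCompact K) (hK0 : (0 : EE n) ∉ K) {H : EE n → ℝ}
    (hH : Continuous H) (hHk : ∀ z ∈ frontier Ω, z ≠ 0 → (∃ x ∈ K, dist x z ≤ 1 / 2 * ‖z‖) →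
      H z = k (-z) / k z) (η : ℝ) (hη : 0 < η) :
    ∃ r₀ : ℝ, 0 < r₀ ∧ ∀ r : ℝ, 0 < r → r < r₀ → ∀ x ∈ K,
      |(∫ y, wt 3 (r⁻¹ • (y - x)) ∂(ω.map (fun y => -y))) -
        H x * ∫ y, wt 3 (r⁻¹ • (y - x)) ∂ω| ≤ η * ∫ y, wt 3 ((8 * r)⁻¹ • (y - x)) ∂ω := by
  rcases K.eq_empty_or_nonempty with rfl | hKne
  · exact ⟨1, one_pos, fun r _ _ x hx => absurd hx (notMem_empty x)⟩
  have hfneg : ∀ z, z ∈ frontier Ω → -z ∈ frontier Ω := by
    intro z hz
    rw [hg.front] at hz ⊢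
    rw [neg_neg]
    exact ⟨hz.2, hz.1⟩
  set D := infDist (0 : EE n) K with hD
  have hD0 : 0 < D := (hK.isClosed.notMem_iff_infDist_pos hKne).1 hK0
  set r₁ : ℝ := D / 4 with hr₁
  have hr₁0 : 0 < r₁ := by positivity
  set K₁ := cthickening r₁ K with hK₁
  have hK₁c : IsCompact K₁ := hK.cthickening
  set K' := frontier Ω ∩ K₁ with hK'
  have hK'c : IsCompact K' := hK₁c.inter_left isClosed_frontier
  have hK'0 : ∀ z ∈ K', z ≠ 0 := by
    intro z hz h0
    have h1 := hz.2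
    rw [hK₁, hK.cthickening_eq_biUnion_closedBall hr₁0.le] at h1
    simp only [mem_iUnion, mem_closedBall, exists_prop] at h1
    obtain ⟨y, hy, hyd⟩ := h1
    rw [h0] at hyd
    have h2 : D ≤ dist 0 y := infDist_le_dist_of_mem hy
    linarith
  set K'' := K' ∪ {z | -z ∈ K'} with hK''
  have hK''c : IsCompact K'' := by
    refine hK'c.union ?_
    have : {z : EE n | -z ∈ K'} = (fun z => -z) '' K' := by
      ext z
      constructor
      · intro hz; exact ⟨-z, hz, neg_neg z⟩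
      · rintro ⟨w, hw, rfl⟩
        change - -w ∈ K'
        rw [neg_neg]; exact hw
    rw [this]
    exact hK'c.image continuous_neg
  have hK''s : K'' ⊆ frontier Ω \ {0} := by
    rintro z (hz | hz)
    · exact ⟨hz.1, hK'0 z hz⟩
    · refine ⟨?_, ?_⟩
      · have := hfneg _ hz.1
        rwa [neg_neg] at this
      · intro h0
        rw [mem_singleton_iff] at h0
        exact hK'0 (-z) hz (by rw [h0, neg_zero])
  obtain ⟨kmin, hkmin, hkm⟩ : ∃ kmin : ℝ, 0 < kmin ∧ ∀ z ∈ K'', kmin ≤ k z := by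
    rcases K''.eq_empty_or_nonempty with he | hne
    · exact ⟨1, one_pos, fun z hz => absurd (he ▸ hz) (notMem_empty z)⟩
    · obtain ⟨z₀, hz₀, hmin⟩ := hK''c.exists_isMinOn hne (hk.cont.mono hK''s)
      exact ⟨k z₀, hk.pos z₀ (hK''s hz₀).1 (hK''s hz₀).2, fun z hz => hmin hz⟩
  obtain ⟨Hm, hHm⟩ := hK'c.exists_bound_of_continuousOn hH.continuousOn
  obtain ⟨cJ, hcJ, hJ⟩ := J_pos (n := n) hn
  set I := ∫ y : EE n, |Δ (wt 3 : EE n → ℝ) y| with hI
  have hI0 : 0 ≤ I := integral_nonneg fun y => abs_nonneg _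
  set Hb := max Hm 0 with hHb
  have hHb0 : 0 ≤ Hb := le_max_right _ _
  obtain ⟨q₀, hq₀⟩ : ∃ q₀ : ℝ, q₀ = (64 / 39) ^ 3 := ⟨_, rfl⟩
  have hq₀0 : 0 < q₀ := by rw [hq₀]; norm_num
  set τ : ℝ := min (kmin * cJ / (4 * (I + 1))) (η * (kmin * cJ) / (8 * q₀ * (I + 1) * (1 + Hb)))
    with hτ
  have hτ0 : 0 < τ := by rw [hτ]; positivity
  have hτ1 : 2 * τ * I ≤ kmin * cJ / 2 := by
    have h1 : τ ≤ kmin * cJ / (4 * (I + 1)) := min_le_left _ _
    rw [le_div_iff₀ (by positivity)] at h1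
    nlinarith [mul_nonneg hτ0.le hI0]
  have hτ2 : 2 * τ * I * (1 + Hb) * (2 * q₀ / (kmin * cJ)) ≤ η / 2 := by
    have h1 : τ ≤ η * (kmin * cJ) / (8 * q₀ * (I + 1) * (1 + Hb)) := min_le_right _ _
    rw [le_div_iff₀ (by positivity)] at h1
    rw [← mul_div_assoc, div_le_iff₀ (by positivity)]
    have h2 : 0 ≤ τ * q₀ * (1 + Hb) := by positivity
    have h3 : 2 * τ * I * (1 + Hb) * (2 * q₀) =
        (τ * (8 * q₀ * (I + 1) * (1 + Hb))) / 2 - 4 * (τ * q₀ * (1 + Hb)) := by ring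
    rw [h3]
    linarith
  obtain ⟨r₂, hr₂0, hr₂⟩ := hk.exp K'' hK''s hK''c τ hτ0
  have huc := hK₁c.uniformContinuousOn_of_continuous hH.continuousOn
  rw [Metric.uniformContinuousOn_iff] at huc
  obtain ⟨δ, hδ0, hδ⟩ := huc (η / 2) (by positivity)
  refine ⟨min (min r₁ (r₂ / 8)) (min δ (1 / 4)), by positivity, ?_⟩
  intro r hr hrr x hx
  have hrr₁ : r < r₁ := hrr.trans_le ((min_le_left _ _).trans (min_le_left _ _))
  have hrr₂ : r < r₂ / 8 := hrr.trans_le ((min_le_left _ _).trans (min_le_right _ _))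
  have hrδ : r < δ := hrr.trans_le ((min_le_right _ _).trans (min_le_left _ _))
  have hr4 : r < 1 / 4 := hrr.trans_le ((min_le_right _ _).trans (min_le_right _ _))
  have hint : ∀ (s : ℝ), 0 < s → ∀ w : EE n, Integrable (phr s w) ω := fun s hs w =>
    (h3_cont s w).integrable_of_hasCompactSupport (h3_compact hs w)
  change |(∫ y, phr r x y ∂(ω.map (fun y => -y))) - H x * ∫ y, phr r x y ∂ω| ≤
    η * ∫ y, phr (8 * r) x y ∂ω
  rw [h3_reflect]
  set W := ∫ y, phr (8 * r) x y ∂ω with hW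
  have hW0 : 0 ≤ W := integral_nonneg fun y => h3_nonneg _ _ _
  by_cases hz : ∃ z ∈ frontier Ω, dist x z < r
  · obtain ⟨z, hzf, hxz⟩ := hz
    have hzK₁ : z ∈ K₁ := mem_cthickening_of_dist_le z x r₁ K hx (by rw [dist_comm]; linarith)
    have hxK₁ : x ∈ K₁ := self_subset_cthickening K hx
    have hzK' : z ∈ K' := ⟨hzf, hzK₁⟩
    have hzK'' : z ∈ K'' := Or.inl hzK'
    have hnzK'' : -z ∈ K'' := Or.inr (by change - -z ∈ K'; rw [neg_neg]; exact hzK')
    have hz0 : z ≠ 0 := hK'0 z hzK'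
    have hzn : 0 < ‖z‖ := norm_pos_iff.2 hz0
    have hν : ‖ν z‖ = 1 := (hg.flat_at z hzf hz0 (‖z‖ / 2) (by positivity) le_rfl).unit
    have hkz : 0 < k z := hk.pos z hzf hz0
    have hHz : H z = k (-z) / k z := by
      refine hHk z hzf hz0 ⟨x, hx, ?_⟩
      have h1 : D ≤ ‖x‖ := by
        have := infDist_le_dist_of_mem (x := (0 : EE n)) hx
        rwa [dist_zero_left] at this
      have h2 : ‖x‖ ≤ dist x z + ‖z‖ := by
        rw [dist_eq_norm]
        calc ‖x‖ = ‖(x - z) + z‖ := by rw [sub_add_cancel]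
          _ ≤ _ := norm_add_le _ _
      rw [hr₁] at hrr₁
      linarith
    have hkk : k (-z) = H z * k z := by rw [hHz]; field_simp
    have hH1 : |H z| ≤ Hb := by
      have := hHm z hzK'
      rw [Real.norm_eq_abs] at this
      exact this.trans (le_max_left _ _)
    have hH2 : |H z - H x| ≤ η / 2 := by
      have := hδ z hzK₁ x hxK₁ (by rw [dist_comm]; linarith)
      rw [Real.dist_eq] at this
      exact this.le
    have hR0 : 0 ≤ r ^ n * r⁻¹ := by positivity
    have E1 := h3_expand hG hrep hr (by linarith) (by linarith) hxz hzf hτ0.le (hr₂ z hzK'')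
    have E2 := h3_expand hG hrep (x := -x) hr (by linarith) (by linarith)
      (by rw [dist_neg_neg]; exact hxz) (hfneg z hzf) hτ0.le (hr₂ (-z) hnzK'')
    rw [hg.nu_neg] at E2
    have hq : r⁻¹ * ⟪-x - -z, ν z⟫ = -(r⁻¹ * ⟪x - z, ν z⟫) := by
      have : -x - -z = -(x - z) := by abel
      rw [this, inner_neg_left]; ring
    rw [hq, h3_J2 hn, hkk] at E2
    have E3 := h3_expand hG hrep (x := z) (r := 4 * r) (by linarith) (by linarith)
      (by linarith : 2 * (4 * r) < r₂) (by rw [dist_self]; linarith) hzf hτ0.le (hr₂ z hzK'')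
    have hz00 : (4 * r)⁻¹ * ⟪z - z, ν z⟫ = 0 := by rw [sub_self, inner_zero_left, mul_zero]
    simp only [hz00, add_zero] at E3
    have hJz := hJ (ν z) hν
    set J := ∫ y : EE n, max 0 (⟪y, ν z⟫ + r⁻¹ * ⟪x - z, ν z⟫) * Δ (wt 3 : EE n → ℝ) y with hJd
    set J0 := ∫ y : EE n, max 0 ⟪y, ν z⟫ * Δ (wt 3 : EE n → ℝ) y with hJ0
    set R := r ^ n * r⁻¹ with hR
    set R4 := (4 * r) ^ n * (4 * r)⁻¹ with hR4
    have hR40 : 0 < R4 := by rw [hR4]; positivity
    have hRR : R ≤ R4 := by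
      obtain ⟨m, rfl⟩ : ∃ m, n = m + 1 := ⟨n - 1, by omega⟩
      have e1 : R = r ^ m := by rw [hR, pow_succ]; field_simp
      have e2 : R4 = (4 * r) ^ m := by rw [hR4, pow_succ]; field_simp
      rw [e1, e2]
      exact pow_le_pow_left₀ hr.le (by linarith) m
    -- lower bound for the measure
    have hlow : R4 * (kmin * cJ / 2) ≤ c * ∫ y, phr (4 * r) z y ∂ω := by
      have h1 := (abs_le.1 E3).1
      have h2 : kmin * cJ ≤ k z * J0 :=
        mul_le_mul (hkm z hzK'') hJz hcJ.le hkz.le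
      have h3 : R4 * (kmin * cJ) ≤ R4 * (k z * J0) := mul_le_mul_of_nonneg_left h2 hR40.le
      have h4 : R4 * (2 * τ * I) ≤ R4 * (kmin * cJ / 2) := mul_le_mul_of_nonneg_left hτ1 hR40.le
      linarith
    have hlow2 : ∫ y, phr (4 * r) z y ∂ω ≤ q₀ * W := by
      rw [hW, ← integral_const_mul]
      exact integral_mono (hint _ (by linarith) _) ((hint _ (by linarith) _).const_mul _)
        fun y => hq₀ ▸ h3_lower hr hxz
    have hR5 : R * (kmin * cJ / 2) ≤ c * (q₀ * W) := by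
      calc R * (kmin * cJ / 2) ≤ R4 * (kmin * cJ / 2) :=
            mul_le_mul_of_nonneg_right hRR (by positivity)
        _ ≤ c * ∫ y, phr (4 * r) z y ∂ω := hlow
        _ ≤ c * (q₀ * W) := mul_le_mul_of_nonneg_left hlow2 hc.le
    have hR6 : R ≤ c * W * (2 * q₀ / (kmin * cJ)) := by
      rw [← mul_div_assoc, le_div_iff₀ (by positivity)]
      linarith
    have hphW : ∫ y, phr r x y ∂ω ≤ W :=
      integral_mono (hint _ hr _) (hint _ (by linarith) _) fun y => h3_mono hr x y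
    have hph0 : 0 ≤ ∫ y, phr r x y ∂ω := integral_nonneg fun y => h3_nonneg _ _ _
    set X := ∫ y, phr r x y ∂ω with hX
    set Y := ∫ y, phr r (-x) y ∂ω with hY
    have hmain : c * |Y - H z * X| ≤ c * (η / 2 * W) := by
      have h1 : c * (Y - H z * X) = (c * Y - R * (H z * k z * J)) - H z * (c * X - R * (k z * J)) := by
        ring
      have h2 : |c * (Y - H z * X)| ≤ R * (2 * τ * I) + Hb * (R * (2 * τ * I)) := by
        rw [h1]
        refine (abs_sub _ _).trans (add_le_add E2 ?_)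
        rw [abs_mul]
        exact mul_le_mul hH1 E1 (abs_nonneg _) hHb0
      rw [abs_mul, abs_of_pos hc] at h2
      calc c * |Y - H z * X| ≤ R * (2 * τ * I) + Hb * (R * (2 * τ * I)) := h2
        _ = R * (2 * τ * I * (1 + Hb)) := by ring
        _ ≤ c * W * (2 * q₀ / (kmin * cJ)) * (2 * τ * I * (1 + Hb)) :=
          mul_le_mul_of_nonneg_right hR6 (by positivity)
        _ = c * W * (2 * τ * I * (1 + Hb) * (2 * q₀ / (kmin * cJ))) := by ring
        _ ≤ c * W * (η / 2) := mul_le_mul_of_nonneg_left hτ2 (by positivity)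
        _ = c * (η / 2 * W) := by ring
    have hmain2 := le_of_mul_le_mul_left hmain hc
    calc |Y - H x * X| = |(Y - H z * X) + (H z - H x) * X| := by congr 1; ring
      _ ≤ |Y - H z * X| + |(H z - H x) * X| := abs_add_le _ _
      _ ≤ η / 2 * W + η / 2 * W := by
        refine add_le_add hmain2 ?_
        rw [abs_mul, abs_of_nonneg hph0]
        exact mul_le_mul hH2 hphW hph0 (by positivity)
      _ = η * W := by ring
  · push Not at hz
    have hae : ∀ᵐ y ∂ω, y ∈ frontier Ω := by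
      rw [ae_iff]; exact hsupp
    have h1 : ∫ y, phr r x y ∂ω = 0 := by
      refine integral_eq_zero_of_ae ?_
      filter_upwards [hae] with y hy
      exact h3_zero hr (by rw [dist_comm]; exact hz y hy)
    have h2 : ∫ y, phr r (-x) y ∂ω = 0 := by
      refine integral_eq_zero_of_ae ?_
      filter_upwards [hae] with y hy
      refine h3_zero hr ?_
      have := hz (-y) (hfneg y hy)
      rw [← dist_neg_neg, neg_neg, dist_comm] at this
      exact this
    rw [h1, h2]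
    simp only [mul_zero, sub_zero, abs_zero]
    positivity

end Pool.Agent.Lib.MP_47b33c_an
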