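import Pool.Agent.Lib.MP_47b33c_an.Defs

/-!
# Real sequences of the iteration, finite version
-/

set_option autoImplicit false

open MeasureTheory Metric Set Filter Topology InnerProductSpace
open scoped RealInnerProductSpace Laplacian

namespace Pool.Agent.Lib.MP_47b33c_an

variable {n : ℕ}

theorem seq_finite {c C : ℝ} (hc : 0 < c) (hc1 : c ≤ 1 / 2) (hC : 1 ≤ C) (C₀ η : ℝ)
    (hC₀ : 1 ≤ C₀) (hη : 0 < η) : ∃ (J : ℕ) (τ₀ : ℝ), 0 < τ₀ ∧ ∀ α β τ : ℕ → ℝ,
      (∀ j, 0 ≤ α j) → (∀ j, α j ≤ β j) → (∀ j, 0 ≤ τ j) → (∀ j, τ j ≤ τ₀) → 0 < α 0 →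
      β 0 ≤ C₀ * α 0 → (∀ j < J, α j * (1 - C * τ j) ≤ α (j + 1)) →
      (∀ j < J, β (j + 1) ≤ β j * (1 + C * τ j)) →
      (∀ j < J, β (j + 1) - α (j + 1) ≤ (1 - c) * (β j - α j) + C * τ j * β j) →
      0 < α J ∧ β J ≤ (1 + η) * α J := by
  have hC0 : 0 < C₀ := by linarith
  have hCp : 0 < C := by linarith
  obtain ⟨J, hJ⟩ : ∃ J : ℕ, (1 - c) ^ J < η / (4 * C₀) :=
    exists_pow_lt_of_lt_one (by positivity) (by linarith)
  set m : ℝ := min (1 / 2) (η / (8 * C₀)) with hm
  have hm0 : 0 < m := by rw [hm]; exact lt_min (by norm_num) (by positivity)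
  have hm1 : m ≤ 1 / 2 := min_le_left _ _
  have hm2 : m ≤ η / (8 * C₀) := min_le_right _ _
  have hJ1 : (0 : ℝ) < (J : ℝ) + 1 := by positivity
  refine ⟨J, m / (C * (J + 1)), by positivity, ?_⟩
  intro α β τ hα hαβ hτ hτ0 hα0 hβ0 h1 h2 h3
  set x : ℝ := m / (J + 1) with hx
  have hx0 : 0 < x := by positivity
  have hCτ : ∀ j, C * τ j ≤ x := by
    intro j
    calc C * τ j ≤ C * (m / (C * (J + 1))) := mul_le_mul_of_nonneg_left (hτ0 j) hCp.le
      _ = x := by rw [hx]; field_simp
  have hCτ0 : ∀ j, 0 ≤ C * τ j := fun j => mul_nonneg hCp.le (hτ j)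
  have hJx : (J : ℝ) * x ≤ m := by
    have : (J : ℝ) * x = m * (J / (J + 1)) := by rw [hx]; field_simp
    rw [this]
    have h4 : (J : ℝ) / (J + 1) ≤ 1 := by rw [div_le_one hJ1]; linarith
    nlinarith
  have hjx : ∀ j : ℕ, j ≤ J → (j : ℝ) * x ≤ m := by
    intro j hj
    have : (j : ℝ) ≤ J := by exact_mod_cast hj
    nlinarith
  have hβp : 0 < β 0 := lt_of_lt_of_le hα0 (hαβ 0)
  -- lower bound for `α`
  have ha : ∀ j : ℕ, j ≤ J → α 0 * (1 - j * x) ≤ α j := by
    intro j
    induction j with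
    | zero => intro _; simp
    | succ j ih =>
      intro hj
      have ih' := ih (by omega)
      have h4 := h1 j (by omega)
      have h5 := hCτ j
      have h6 := hjx j (by omega)
      have h7 := hα j
      have h8 : α j * (1 - x) ≤ α (j + 1) := by
        refine le_trans ?_ h4
        exact mul_le_mul_of_nonneg_left (by linarith) h7
      have hx1 : x ≤ 1 / 2 := by
        have := hjx (j + 1) hj
        push_cast at this
        have h9 : (0 : ℝ) ≤ (j : ℝ) * x := by positivity
        linarith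
      have h9 : α 0 * (1 - j * x) * (1 - x) ≤ α j * (1 - x) :=
        mul_le_mul_of_nonneg_right ih' (by linarith)
      push_cast
      have h10 : α 0 * (1 - (j + 1) * x) ≤ α 0 * (1 - j * x) * (1 - x) := by
        have : α 0 * (1 - j * x) * (1 - x) - α 0 * (1 - (j + 1) * x) = α 0 * (j * x * x) := by ring
        have h11 : 0 ≤ α 0 * (j * x * x) := by positivity
        linarith
      linarith
  -- upper bound for `β`
  have hb : ∀ j : ℕ, j ≤ J → β j ≤ β 0 * (1 + 2 * (j * x)) := by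
    intro j
    induction j with
    | zero => intro _; simp
    | succ j ih =>
      intro hj
      have ih' := ih (by omega)
      have h4 := h2 j (by omega)
      have h6 := hjx j (by omega)
      have h7 : 0 ≤ β j := (hα j).trans (hαβ j)
      have h8 : β (j + 1) ≤ β j * (1 + x) := by
        refine h4.trans ?_
        exact mul_le_mul_of_nonneg_left (by linarith [hCτ j]) h7
      have h9 : β j * (1 + x) ≤ β 0 * (1 + 2 * (j * x)) * (1 + x) :=
        mul_le_mul_of_nonneg_right ih' (by linarith)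
      push_cast
      have h10 : β 0 * (1 + 2 * (j * x)) * (1 + x) ≤ β 0 * (1 + 2 * ((j + 1) * x)) := by
        have e : β 0 * (1 + 2 * ((j + 1) * x)) - β 0 * (1 + 2 * (j * x)) * (1 + x)
            = β 0 * (x * (1 - 2 * (j * x))) := by ring
        have h11 : 0 ≤ β 0 * (x * (1 - 2 * (j * x))) := by
          have : 0 ≤ 1 - 2 * ((j : ℝ) * x) := by linarith
          positivity
        linarith
      linarith
  have hb2 : ∀ j : ℕ, j ≤ J → β j ≤ 2 * β 0 := by
    intro j hj
    have h4 := hb j hj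
    have h5 := hjx j hj
    have : β 0 * (1 + 2 * (j * x)) ≤ β 0 * 2 := mul_le_mul_of_nonneg_left (by linarith) hβp.le
    linarith
  -- the gap
  have hg : ∀ j : ℕ, j ≤ J → β j - α j ≤ ((1 - c) ^ j + 2 * (j * x)) * β 0 := by
    intro j
    induction j with
    | zero => intro _; simp; exact hα 0
    | succ j ih =>
      intro hj
      have ih' := ih (by omega)
      have h4 := h3 j (by omega)
      have h5 := hb2 j (by omega)
      have h6 : C * τ j * β j ≤ x * (2 * β 0) := by
        have : 0 ≤ β j := (hα j).trans (hαβ j)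
        exact mul_le_mul (hCτ j) h5 this hx0.le
      have h7 : (1 - c) * (β j - α j) ≤ (1 - c) * (((1 - c) ^ j + 2 * (j * x)) * β 0) :=
        mul_le_mul_of_nonneg_left ih' (by linarith)
      have h8 : (1 - c) * (((1 - c) ^ j + 2 * (j * x)) * β 0)
          ≤ ((1 - c) ^ (j + 1) + 2 * (j * x)) * β 0 := by
        have e : ((1 - c) ^ (j + 1) + 2 * (j * x)) * β 0
            - (1 - c) * (((1 - c) ^ j + 2 * (j * x)) * β 0) = c * (2 * (j * x)) * β 0 := by ring
        have : 0 ≤ c * (2 * ((j : ℝ) * x)) * β 0 := by positivity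
        linarith
      push_cast
      have e2 : ((1 - c) ^ (j + 1) + 2 * ((j + 1) * x)) * β 0
          = ((1 - c) ^ (j + 1) + 2 * (j * x)) * β 0 + x * (2 * β 0) := by ring
      rw [e2]
      linarith
  have hαJ : α 0 / 2 ≤ α J := by
    have h4 := ha J le_rfl
    have : α 0 * (1 / 2) ≤ α 0 * (1 - J * x) := mul_le_mul_of_nonneg_left (by linarith) hα0.le
    linarith
  refine ⟨by linarith, ?_⟩
  have h4 := hg J le_rfl
  have h5 : ((1 - c) ^ J + 2 * (J * x)) * β 0 ≤ (η / (4 * C₀) + 2 * (η / (8 * C₀))) * (C₀ * α 0) := by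
    apply mul_le_mul _ hβ0 hβp.le (by positivity)
    linarith
  have h6 : (η / (4 * C₀) + 2 * (η / (8 * C₀))) * (C₀ * α 0) = η * (α 0 / 2) := by
    field_simp; ring
  have h7 : η * (α 0 / 2) ≤ η * α J := mul_le_mul_of_nonneg_left hαJ hη.le
  linarith

end Pool.Agent.Lib.MP_47b33c_an
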