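import Pool.Agent.Lib.MP_47b33c_an.Step
import Pool.Agent.Lib.MP_47b33c_an.Base
import Pool.Agent.Lib.MP_47b33c_an.SeqF

set_option autoImplicit false

open MeasureTheory Metric Set Filter Topology InnerProductSpace
open scoped RealInnerProductSpace Laplacian

namespace Pool.Agent.Lib.MP_47b33c_an

variable {n : ℕ}

theorem e13_locPos_mono {Ω : Set (EE n)} {u : EE n → ℝ} {z : EE n} {r r' : ℝ}
    (h : LocPos Ω u z r) (hr : r' ≤ r) : LocPos Ω u z r' where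
  cont := h.cont.mono (ball_subset_ball hr)
  nonneg := fun x hx => h.nonneg x (ball_subset_ball hr hx)
  zero := fun x hx => h.zero x (ball_subset_ball hr hx)
  harm := h.harm.mono (inter_subset_inter_right _ (ball_subset_ball hr))

/-- dependent choice -/
theorem e13_seq {X : Type} {Inv : ℕ → X → Prop} {Rel : ℕ → X → X → Prop} (x0 : X)
    (h0 : Inv 0 x0) (hs : ∀ j x, Inv j x → ∃ y, Inv (j + 1) y ∧ Rel j x y) :
    ∃ s : ℕ → X, s 0 = x0 ∧ (∀ j, Inv j (s j)) ∧ ∀ j, Rel j (s j) (s (j + 1)) := by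
  choose g hg hg' using hs
  let t : ∀ j, {x // Inv j x} := fun j =>
    Nat.rec ⟨x0, h0⟩ (fun j p => ⟨g j p.1 p.2, hg j p.1 p.2⟩) j
  exact ⟨fun j => (t j).1, rfl, fun j => (t j).2, fun j => hg' j (t j).1 (t j).2⟩

/-- almost linear profiles at the origin at small scales -/
theorem prof_zero (hn : 2 ≤ n) {Ω : Set (EE n)} {ν : EE n → EE n} {d : ℝ → EE n} {ε : ℝ → ℝ}
    {P : EE n} (hg : GoodDom Ω ν d ε P) {u : EE n → ℝ} (hu : LocPos Ω u 0 8)
    (hpos : ∀ x ∈ Ω ∩ ball 0 8, 0 < u x) (η : ℝ) (hη : 0 < η) : ∃ s₀ : ℝ, 0 < s₀ ∧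
      ∀ s : ℝ, 0 < s → s < s₀ → ∃ α β : ℝ, 0 < α ∧ α ≤ β ∧ β ≤ (1 + η) * α ∧
        Prof Ω u 0 s (d s) (ε s) α β := by
  obtain ⟨c, C, hc, hc1, hC, hstep⟩ := prof_step (n := n) hn
  obtain ⟨c₁, C₁, hc₁, hc₁1, hC₁, hbase⟩ := base_prof (n := n) hn
  have hC₀ : 1 ≤ C₁ / c₁ := by
    rw [one_le_div hc₁]; linarith
  obtain ⟨J, τ₀, hτ₀, hseq⟩ := seq_finite hc hc1 hC (C₁ / c₁) η hC₀ hη
  obtain ⟨s₁, hs₁, hεs⟩ : ∃ s₁ : ℝ, 0 < s₁ ∧ ∀ r, 0 < r → r < s₁ → ε r ≤ τ₀ / 2 := by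
    have h1 := hg.eps_tendsto.eventually_le_const (half_pos hτ₀)
    rw [eventually_nhdsWithin_iff, Metric.eventually_nhds_iff] at h1
    obtain ⟨s₁, hs₁, h2⟩ := h1
    refine ⟨s₁, hs₁, fun r hr hr' => h2 ?_ hr⟩
    rw [Real.dist_eq, sub_zero, abs_of_pos hr]; exact hr'
  set m : ℝ := min s₁ (1 / 2) with hm
  have hmpos : 0 < m := lt_min hs₁ (by norm_num)
  refine ⟨m / 64 ^ J, by positivity, fun s hs hsm => ?_⟩
  set R : ℝ := 64 ^ J * s with hR
  have hRpos : 0 < R := by positivity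
  have hRm : R < m := by
    rw [lt_div_iff₀ (by positivity)] at hsm
    rw [hR]; linarith
  have hRJ : R / 64 ^ J = s := by
    rw [hR]; field_simp
  have hRs₁ : R < s₁ := hRm.trans_le (min_le_left _ _)
  have hR2 : R < 1 / 2 := hRm.trans_le (min_le_right _ _)
  have hrj : ∀ j : ℕ, 0 < R / 64 ^ j := fun j => by positivity
  have hrjle : ∀ j : ℕ, R / 64 ^ j ≤ R := fun j => div_le_self hRpos.le (one_le_pow₀ (by norm_num))
  have hrs : ∀ j : ℕ, R / 64 ^ j / 64 = R / 64 ^ (j + 1) := fun j => by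
    rw [pow_succ, div_div]
  have hε : ∀ j : ℕ, ε (R / 64 ^ j) ≤ τ₀ / 2 := fun j => hεs _ (hrj j) ((hrjle j).trans_lt hRs₁)
  -- the starting profile
  have hfl := hg.flat_zero R hRpos
  have hbase' := hbase Ω u 0 (d R) R (ε R) hg.isOpen hg.allFlat hg.zero_mem hRpos (hg.eps_nonneg R)
    (hg.eps_le R) hfl (e13_locPos_mono hu (by linarith))
  set N : ℝ := u (0 + (R / 2) • d R) with hN
  have hNpos : 0 < N := by
    have hnorm : ‖(R / 2) • d R‖ = R / 2 := by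
      rw [norm_smul, hfl.unit, Real.norm_of_nonneg (by linarith), mul_one]
    refine hpos _ ⟨hfl.inn _ ?_ ?_, ?_⟩
    · rw [zero_add, mem_ball_zero_iff, hnorm]; linarith
    · rw [zero_add, sub_zero, inner_smul_left, real_inner_self_eq_norm_sq, hfl.unit]
      have h1 : ε R ≤ 1 / 10000 := hg.eps_le R
      simp
      nlinarith
    · rw [zero_add, mem_ball_zero_iff, hnorm]; linarith
  have hNR : 0 < N / R := div_pos hNpos hRpos
  obtain ⟨t, ht0, ht1, ht2⟩ := e13_seq (X := ℝ × ℝ)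
    (Inv := fun j p => Prof Ω u 0 (R / 64 ^ j) (d (R / 64 ^ j)) (ε (R / 64 ^ j)) p.1 p.2 ∧
      0 ≤ p.1 ∧ p.1 ≤ p.2)
    (Rel := fun _ p q => p.1 * (1 - C * τ₀) ≤ q.1 ∧
      q.2 ≤ p.2 * (1 + C * τ₀) ∧
      q.2 - q.1 ≤ (1 - c) * (p.2 - p.1) + C * τ₀ * p.2)
    (c₁ * (N / R), C₁ * (N / R)) (by
      simp only [pow_zero, div_one]
      refine ⟨hbase', by positivity, ?_⟩
      exact mul_le_mul_of_nonneg_right (by linarith) hNR.le) (by
      rintro j ⟨a, b⟩ ⟨hp, ha, hab⟩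
      simp only at hp ha hab ⊢
      have hf' := hg.flat_zero (R / 64 ^ (j + 1)) (hrj _)
      rw [← hrs j] at hf'
      obtain ⟨a', b', hp', ha', hab', h1, h2, h3⟩ := hstep Ω u 0 (d (R / 64 ^ j))
        (d (R / 64 ^ j / 64)) (R / 64 ^ j) (ε (R / 64 ^ j)) (ε (R / 64 ^ j / 64)) a b hg.isOpen
        (hrj j) (hg.eps_nonneg _) (hg.eps_le _) (hg.eps_nonneg _) (hg.eps_le _)
        (hg.flat_zero _ (hrj j)) hf' (e13_locPos_mono hu (by linarith [hrjle j])) ha hab hp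
      rw [hrs j] at hp' h1 h2 h3
      have hb : 0 ≤ b := ha.trans hab
      have h4 : C * (ε (R / 64 ^ j) + ε (R / 64 ^ (j + 1))) ≤ C * τ₀ := by
        have := hε j
        have := hε (j + 1)
        have hC0 : 0 ≤ C := by linarith
        gcongr
        linarith
      refine ⟨(a', b'), ⟨hp', ha', hab'⟩, ?_, ?_, ?_⟩
      · refine le_trans ?_ h1
        exact mul_le_mul_of_nonneg_left (by linarith) ha
      · refine h2.trans ?_
        exact mul_le_mul_of_nonneg_left (by linarith) hb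
      · refine h3.trans ?_
        have := mul_le_mul_of_nonneg_right h4 hb
        linarith)
  obtain ⟨h1, h2⟩ := hseq (fun j => (t j).1) (fun j => (t j).2) (fun _ => τ₀)
    (fun j => (ht1 j).2.1) (fun j => (ht1 j).2.2) (fun _ => hτ₀.le) (fun _ => le_rfl)
    (by simp only [ht0]; positivity)
    (by
      simp only [ht0]
      refine le_of_eq ?_
      field_simp)
    (fun j _ => (ht2 j).1) (fun j _ => (ht2 j).2.1) (fun j _ => (ht2 j).2.2)
  have h3 := (ht1 J).1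
  rw [hRJ] at h3
  exact ⟨(t J).1, (t J).2, h1, (ht1 J).2.2, h2, h3⟩

end Pool.Agent.Lib.MP_47b33c_an
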