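import Pool.Agent.Lib.MP_47b33c_an.Rad
import Pool.Agent.Lib.MP_47b33c_an.Sub
import Pool.Agent.Lib.MP_47b33c_an.BarUp

set_option autoImplicit false

open MeasureTheory Metric Set Filter Topology InnerProductSpace
open scoped RealInnerProductSpace Laplacian

namespace Pool.Agent.Lib.MP_47b33c_an

variable {n : ℕ}

/-- a linear function is nonnegative on the closure of the set where it is positive -/
theorem e5_frontier_nonneg {V : Set (EE n)} {z e : EE n} {b : ℝ}
    (hL : ∀ x ∈ V, 0 < ⟪x - z, e⟫ + b) {ζ : EE n} (hζ : ζ ∈ frontier V) :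
    0 ≤ ⟪ζ - z, e⟫ + b := by
  have hcl : IsClosed {x : EE n | 0 ≤ ⟪x - z, e⟫ + b} :=
    isClosed_le continuous_const (by fun_prop)
  have : closure V ⊆ {x : EE n | 0 ≤ ⟪x - z, e⟫ + b} :=
    closure_minimal (fun x hx => (hL x hx).le) hcl
  exact this (frontier_subset_closure hζ)

/-- upper limits of functions continuous at the point -/
theorem e5_bdLe {V : Set (EE n)} {v : EE n → ℝ} {b : ℝ} {ζ : EE n} (hv : ContinuousAt v ζ)
    (hb : v ζ ≤ b) : BdLe V v b ζ := by
  intro η hη
  have h1 : ∀ᶠ w in 𝓝 ζ, v w < b + η := hv.eventually_lt_const (by linarith)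
  exact (h1.filter_mono nhdsWithin_le_nhds).mono fun w hw => hw.le

theorem e5_harm {S V : Set (EE n)} {u : EE n → ℝ} {z e : EE n} {α b : ℝ}
    (hu : HarmonicOnNhd u S) (hV : V ⊆ S) :
    HarmonicOnNhd (fun x => u x - α * (⟪x - z, e⟫ + b)) V := by
  have h1 : HarmonicOnNhd (fun x : EE n => ⟪x - z, α • e⟫ + α * b) V := harmonic_affine _ _ _ _
  have h2 := (hu.mono hV).sub h1
  convert h2 using 2
  simp only [Pi.sub_apply, real_inner_smul_right]
  ring

theorem e5_harm' {S V : Set (EE n)} {u : EE n → ℝ} {z e : EE n} {α b : ℝ}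
    (hu : HarmonicOnNhd u S) (hV : V ⊆ S) :
    HarmonicOnNhd (fun x => α * (⟪x - z, e⟫ + b) - u x) V := by
  have h1 : HarmonicOnNhd (fun x : EE n => ⟪x - z, α • e⟫ + α * b) V := harmonic_affine _ _ _ _
  have h2 := h1.sub (hu.mono hV)
  convert h2 using 2
  simp only [Pi.sub_apply, real_inner_smul_right]
  ring

/-- a profile from additive bounds -/
theorem prof_of_add (hn : 2 ≤ n) : ∃ C : ℝ, 1 ≤ C ∧ ∀ (Ω : Set (EE n)) (u : EE n → ℝ)
    (z e : EE n) (r θ σ α β : ℝ), IsOpen Ω → 0 < r → 0 ≤ θ → θ ≤ th0 → 0 ≤ σ →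
    Flat Ω z r e θ → LocPos Ω u z r → 0 ≤ α → 0 ≤ β →
    (∀ x ∈ ball z r, x ∈ Ω → u x ≤ β * (⟪x - z, e⟫ + σ * r)) →
    (∀ x ∈ ball z r, α * (⟪x - z, e⟫ - σ * r) ≤ u x) →
    Prof Ω u z r e θ (α * (1 - C * (σ + θ))) (β * (1 + C * (σ + θ))) := by
  obtain ⟨C, hC1, hC⟩ := bar_up hn
  refine ⟨C, hC1, ?_⟩
  intro Ω u z e r θ σ α β hΩ hr hθ0 hθ hσ hf hu hα hβ hup hlow
  have hth : th0 = 1 / 10000 := rfl
  have hθr : 0 ≤ θ * r := by positivity
  have hθr' : θ * r ≤ r / 100 := by
    rw [hth] at hθ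
    nlinarith
  have hsub : ball z (r / 8) ⊆ ball z (r / 4) := ball_subset_ball (by linarith)
  have hsub' : ball z (r / 8) ⊆ ball z r := ball_subset_ball (by linarith)
  refine ⟨?_, ?_⟩
  · -- lower bound
    intro x hx hxL
    set V : Set (EE n) := {y : EE n | θ * r < ⟪y - z, e⟫} ∩ ball z r with hV
    have hVo : IsOpen V := (isOpen_lt continuous_const (by fun_prop)).inter isOpen_ball
    have hVΩ : V ⊆ Ω ∩ ball z r := fun y hy => ⟨hf.inn y hy.2 hy.1, hy.2⟩
    have hVL : ∀ y ∈ V, 0 < ⟪y - z, e⟫ + -(θ * r) := by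
      intro y hy
      have : θ * r < ⟪y - z, e⟫ := hy.1
      linarith
    have key := hC V z e r (-(θ * r)) (α * σ * r) (fun y => α * (⟪y - z, e⟫ + -(θ * r)) - u y)
      hVo hr hf.unit (by rw [abs_neg, abs_of_nonneg hθr]; exact hθr') (by positivity)
      (fun y hy => hy.2) hVL (harmonic_subH hn (e5_harm' hu.harm hVΩ))
      (by
        intro y hy
        have h1 := hlow y hy.2
        have h2 : α * (⟪y - z, e⟫ + -(θ * r)) - u y ≤
            α * (⟪y - z, e⟫ + -(θ * r)) - α * (⟪y - z, e⟫ - σ * r) := by linarith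
        have h3 : 0 ≤ α * (θ * r) := by positivity
        have h4 : α * (⟪y - z, e⟫ + -(θ * r)) - α * (⟪y - z, e⟫ - σ * r) =
            α * σ * r - α * (θ * r) := by ring
        linarith)
      (by
        intro ζ hζ
        have hζr : ζ ∈ ball z r := hζ.2
        have h1 := e5_frontier_nonneg hVL hζ.1
        have h2 : ⟪ζ - z, e⟫ + -(θ * r) ≤ 0 := by
          by_contra hcon
          push Not at hcon
          have : ζ ∈ V := ⟨by have : θ * r < ⟪ζ - z, e⟫ := by linarith
                              exact this, hζr⟩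
          have h3 := hζ.1
          rw [hVo.frontier_eq] at h3
          exact h3.2 this
        have h3 : ⟪ζ - z, e⟫ + -(θ * r) = 0 := le_antisymm h2 h1
        apply e5_bdLe
        · have : ContinuousAt u ζ := hu.cont.continuousAt (isOpen_ball.mem_nhds hζr)
          fun_prop
        · show α * (⟪ζ - z, e⟫ + -(θ * r)) - u ζ ≤ 0
          rw [h3]
          have := hu.nonneg ζ hζr
          linarith)
    have hxV : x ∈ V := ⟨hxL, hsub' hx⟩
    have h1 := key x hxV (hsub hx)
    have h2 := hVL x hxV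
    have h3 : C * (α * σ * r / r) = C * α * σ := by field_simp
    rw [h3] at h1
    have h4 : 0 ≤ C * α * θ * (⟪x - z, e⟫ + -(θ * r)) := by positivity
    nlinarith
  · -- upper bound
    intro x hx hxΩ
    set V : Set (EE n) := Ω ∩ ball z r with hV
    have hVo : IsOpen V := hΩ.inter isOpen_ball
    have hVL : ∀ y ∈ V, 0 < ⟪y - z, e⟫ + θ * r := by
      intro y hy
      have := hf.out y hy.2 hy.1
      linarith
    have key := hC V z e r (θ * r) (β * σ * r) (fun y => u y - β * (⟪y - z, e⟫ + θ * r))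
      hVo hr hf.unit (by rw [abs_of_nonneg hθr]; exact hθr') (by positivity)
      (fun y hy => hy.2) hVL (harmonic_subH hn (e5_harm hu.harm Subset.rfl))
      (by
        intro y hy
        have h1 := hup y hy.2 hy.1
        have h3 : 0 ≤ β * (θ * r) := by positivity
        have h4 : β * (⟪y - z, e⟫ + σ * r) - β * (⟪y - z, e⟫ + θ * r) =
            β * σ * r - β * (θ * r) := by ring
        linarith)
      (by
        intro ζ hζ
        have hζr : ζ ∈ ball z r := hζ.2
        have h1 := e5_frontier_nonneg hVL hζ.1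
        have hζΩ : ζ ∉ Ω := by
          intro hcon
          have h3 := hζ.1
          rw [hVo.frontier_eq] at h3
          exact h3.2 ⟨hcon, hζr⟩
        apply e5_bdLe
        · have : ContinuousAt u ζ := hu.cont.continuousAt (isOpen_ball.mem_nhds hζr)
          fun_prop
        · show u ζ - β * (⟪ζ - z, e⟫ + θ * r) ≤ 0
          rw [hu.zero ζ hζr hζΩ]
          have : 0 ≤ β * (⟪ζ - z, e⟫ + θ * r) := by positivity
          linarith)
    have hxV : x ∈ V := ⟨hxΩ, hsub' hx⟩
    have h1 := key x hxV (hsub hx)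
    have h2 := hVL x hxV
    have h3 : C * (β * σ * r / r) = C * β * σ := by field_simp
    rw [h3] at h1
    have h4 : 0 ≤ C * β * θ * (⟪x - z, e⟫ + θ * r) := by positivity
    nlinarith

end Pool.Agent.Lib.MP_47b33c_an
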