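import Pool.Agent.Lib.MP_47b33c_an.Planes
import Pool.Agent.Lib.MP_47b33c_an.ProfAdd

set_option autoImplicit false

open MeasureTheory Metric Set Filter Topology InnerProductSpace
open scoped RealInnerProductSpace Laplacian

namespace Pool.Agent.Lib.MP_47b33c_an

variable {n : ℕ}

/-- the change of centre from the origin to a boundary point of norm `s` -/
theorem prof_transfer (hn : 2 ≤ n) : ∃ C : ℝ, 1 ≤ C ∧ ∀ (Ω : Set (EE n)) (u : EE n → ℝ)
    (z e e' : EE n) (s θ θ' α β : ℝ), IsOpen Ω → z ∈ frontier Ω → ‖z‖ = s → 0 < s → 0 ≤ θ →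
    θ ≤ th0 → 0 ≤ θ' → θ' ≤ th0 → Flat Ω 0 (64 * s) e θ → Flat Ω z (s / 2) e' θ' →
    LocPos Ω u 0 (64 * s) → 0 ≤ α → α ≤ β → Prof Ω u 0 (64 * s) e θ α β →
    Prof Ω u z (s / 2) e' θ' (α * (1 - C * (θ + θ'))) (β * (1 + C * (θ + θ'))) := by
  obtain ⟨C, hC1, hC⟩ := prof_of_add hn
  refine ⟨1000 * C, by linarith, ?_⟩
  intro Ω u z e e' s θ θ' α β hΩ hz hzs hs hθ0 hθ hθ'0 hθ' hf hf' hu hα hαβ hprof
  have hβ : 0 ≤ β := hα.trans hαβ
  have hth : th0 = 1 / 10000 := rfl
  have hθe : θ * (64 * s) = 64 * θ * s := by ring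
  have hzb : z ∈ ball (0 : EE n) (64 * s) := by
    rw [mem_ball_zero_iff, hzs]; linarith
  have hzΩ : z ∉ Ω := by
    rw [hΩ.frontier_eq] at hz; exact hz.2
  have hz1 : ⟪z, e⟫ ≤ 64 * θ * s := by
    by_contra hcon
    push Not at hcon
    exact hzΩ (hf.inn z hzb (by rw [sub_zero, hθe]; exact hcon))
  have hz2 : -(64 * θ * s) ≤ ⟪z, e⟫ := by
    by_contra hcon
    push Not at hcon
    have hopen : IsOpen ({w : EE n | ⟪w, e⟫ < -(64 * θ * s)} ∩ ball 0 (64 * s)) :=
      (isOpen_lt (by fun_prop) continuous_const).inter isOpen_ball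
    have hzc : z ∈ closure Ω := by
      rw [hΩ.frontier_eq] at hz; exact hz.1
    obtain ⟨w, ⟨hw1, hw2⟩, hw3⟩ := mem_closure_iff.1 hzc _ hopen ⟨hcon, hzb⟩
    have := hf.out w hw2 hw3
    rw [sub_zero, hθe] at this
    have h4 : ⟪w, e⟫ < -(64 * θ * s) := hw1
    linarith
  -- points near z
  have hnear : ∀ x ∈ ball z (s / 2), ‖x‖ < 3 / 2 * s := by
    intro x hx
    have h1 : dist x z < s / 2 := hx
    have h2 := norm_le_norm_add_norm_sub' x z
    rw [← dist_eq_norm, hzs] at h2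
    linarith
  have hflat : Flat Ω z (s / 2) e (256 * θ) := by
    refine ⟨hf.unit, ?_, ?_⟩
    · intro x hx h1
      have h2 := hnear x hx
      apply hf.inn x (by rw [mem_ball_zero_iff]; linarith)
      rw [sub_zero, hθe]
      have e1 : ⟪x, e⟫ = ⟪x - z, e⟫ + ⟪z, e⟫ := by rw [inner_sub_left]; ring
      rw [e1]; linarith
    · intro x hx hxΩ
      have h2 := hnear x hx
      have h3 := hf.out x (by rw [mem_ball_zero_iff]; linarith) hxΩ
      rw [sub_zero, hθe] at h3
      rw [inner_sub_left]; linarith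
  have hee : ‖e - e'‖ ≤ 2 * max (256 * θ) θ' := by
    have := two_planes (by positivity) le_rfl hflat hf'
    rwa [mul_div_assoc, div_self (by positivity), mul_one] at this
  have hee2 : ‖e - e'‖ ≤ 512 * θ + 2 * θ' := by
    refine hee.trans ?_
    have : max (256 * θ) θ' ≤ 256 * θ + θ' := max_le (by linarith) (by linarith)
    linarith
  set σ : ℝ := ‖e - e'‖ + 256 * θ with hσ
  have hσ0 : 0 ≤ σ := by positivity
  have hdiff : ∀ x ∈ ball z (s / 2), |⟪x - z, e - e'⟫| ≤ s / 2 * ‖e - e'‖ := by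
    intro x hx
    have h1 : dist x z < s / 2 := hx
    have h2 := abs_real_inner_le_norm (x - z) (e - e')
    rw [← dist_eq_norm] at h2
    refine h2.trans ?_
    gcongr
  have hu' : LocPos Ω u z (s / 2) := by
    have hsub : ball z (s / 2) ⊆ ball (0 : EE n) (64 * s) := by
      intro x hx
      rw [mem_ball_zero_iff]
      have := hnear x hx
      linarith
    exact ⟨hu.cont.mono hsub, fun x hx => hu.nonneg x (hsub hx),
      fun x hx => hu.zero x (hsub hx), hu.harm.mono (inter_subset_inter_right _ hsub)⟩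
  have hdec : ∀ x : EE n, ⟪x, e⟫ = ⟪x - z, e'⟫ + ⟪x - z, e - e'⟫ + ⟪z, e⟫ := by
    intro x
    simp only [inner_sub_left, inner_sub_right]
    ring
  have key := hC Ω u z e' (s / 2) θ' σ α β hΩ (by positivity) hθ'0 hθ' hσ0 hf' hu' hα hβ
    (by
      intro x hx hxΩ
      have h2 := hnear x hx
      have h3 := hprof.upper x (by rw [mem_ball_zero_iff]; linarith) hxΩ
      rw [sub_zero, hθe] at h3
      refine h3.trans ?_
      apply mul_le_mul_of_nonneg_left _ hβ
      rw [hdec x, hσ]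
      have h4 := (abs_le.1 (hdiff x hx)).2
      linarith)
    (by
      intro x hx
      have h2 := hnear x hx
      have h5 : α * (⟪x, e⟫ - 64 * θ * s) ≤ u x := by
        rcases lt_or_ge (64 * θ * s) ⟪x, e⟫ with h | h
        · have h3 := hprof.lower x (by rw [mem_ball_zero_iff]; linarith)
            (by rw [sub_zero, hθe]; exact h)
          rw [sub_zero, hθe] at h3
          exact h3
        · have h6 : α * (⟪x, e⟫ - 64 * θ * s) ≤ 0 :=
            mul_nonpos_of_nonneg_of_nonpos hα (by linarith)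
          exact h6.trans (hu.nonneg x (by rw [mem_ball_zero_iff]; linarith))
      refine le_trans ?_ h5
      apply mul_le_mul_of_nonneg_left _ hα
      rw [hdec x, hσ]
      have h4 := (abs_le.1 (hdiff x hx)).1
      linarith)
  have hcmp : C * (σ + θ') ≤ 1000 * C * (θ + θ') := by
    have h1 : σ + θ' ≤ 1000 * (θ + θ') := by
      rw [hσ]; linarith
    calc C * (σ + θ') ≤ C * (1000 * (θ + θ')) := by gcongr
      _ = 1000 * C * (θ + θ') := by ring
  refine ⟨?_, ?_⟩
  · intro x hx hxL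
    refine le_trans ?_ (key.lower x hx hxL)
    have h1 : 0 ≤ ⟪x - z, e'⟫ - θ' * (s / 2) := by linarith
    gcongr
  · intro x hx hxΩ
    refine (key.upper x hx hxΩ).trans ?_
    have h2 := hf'.out x (ball_subset_ball (by linarith) hx) hxΩ
    have h1 : 0 ≤ ⟪x - z, e'⟫ + θ' * (s / 2) := by linarith
    gcongr

end Pool.Agent.Lib.MP_47b33c_an
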