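import Pool.Agent.Lib.MP_47b33c_an.ExpAt
import Pool.Agent.Lib.MP_47b33c_an.ProfZero
import Pool.Agent.Lib.MP_47b33c_an.Transfer
import Pool.Agent.Lib.MP_47b33c_an.KExp

set_option autoImplicit false

open MeasureTheory Metric Set Filter Topology InnerProductSpace
open scoped RealInnerProductSpace Laplacian

namespace Pool.Agent.Lib.MP_47b33c_an

variable {n : ℕ}

theorem e16_locPos_mono {Ω : Set (EE n)} {u : EE n → ℝ} {z : EE n} {r r' : ℝ}
    (h : LocPos Ω u z r) (hr : r' ≤ r) : LocPos Ω u z r' where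
  cont := h.cont.mono (ball_subset_ball hr)
  nonneg := fun x hx => h.nonneg x (ball_subset_ball hr hx)
  zero := fun x hx => h.zero x (ball_subset_ball hr hx)
  harm := h.harm.mono (inter_subset_inter_right _ (ball_subset_ball hr))

/-- uniqueness of the slope -/
theorem e16_unique {u : EE n → ℝ} {z e : EE n} {k k' C μ β r : ℝ} (he : ‖e‖ = 1)
    (hr : 0 < r) (hμ : 0 < μ) (hμ1 : μ < 1)
    (hk : ∀ η : ℝ, 0 < η → ∃ r₀ : ℝ, 0 < r₀ ∧
      ∀ x ∈ ball z r₀, |u x - k * max 0 ⟪x - z, e⟫| ≤ η * ‖x - z‖)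
    (hk' : ∀ j : ℕ, ∀ x ∈ ball z (r / 64 ^ j / 8),
        |u x - k' * max 0 ⟪x - z, e⟫| ≤ C * μ ^ j * β * (r / 64 ^ j)) : k = k' := by
  have key : ∀ η : ℝ, 0 < η → |k - k'| ≤ 2 * η := by
    intro η hη
    obtain ⟨r₀, hr₀, h1⟩ := hk η hη
    have h2 : Tendsto (fun j : ℕ => C * μ ^ j * β * 16) atTop (𝓝 (C * 0 * β * 16)) :=
      (((tendsto_pow_atTop_nhds_zero_of_lt_one hμ.le hμ1).const_mul C).mul_const β).mul_const 16
    have h3 : C * 0 * β * 16 < η := by simpa using hη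
    have h4 := h2.eventually_le_const h3
    have h5 : Tendsto (fun j : ℕ => r / 16 * (1 / 64 : ℝ) ^ j) atTop (𝓝 (r / 16 * 0)) :=
      (tendsto_pow_atTop_nhds_zero_of_lt_one (by norm_num) (by norm_num)).const_mul _
    rw [mul_zero] at h5
    obtain ⟨j, hj1, hj2⟩ := (h4.and (h5.eventually_lt_const hr₀)).exists
    set t : ℝ := r / 16 * (1 / 64 : ℝ) ^ j with ht
    have htpos : 0 < t := by positivity
    have htr : r / 64 ^ j = 16 * t := by
      rw [ht, one_div, inv_pow]; ring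
    have hn1 : ‖(z + t • e) - z‖ = t := by
      rw [add_sub_cancel_left, norm_smul, he, Real.norm_of_nonneg htpos.le, mul_one]
    have hi1 : max 0 ⟪(z + t • e) - z, e⟫ = t := by
      rw [add_sub_cancel_left, inner_smul_left, real_inner_self_eq_norm_sq, he]
      simp [htpos.le]
    have h6 := h1 (z + t • e) (by rw [mem_ball, dist_eq_norm, hn1]; exact hj2)
    have h7 := hk' j (z + t • e) (by rw [mem_ball, dist_eq_norm, hn1, htr]; linarith)
    rw [hi1] at h6 h7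
    rw [hn1] at h6
    rw [htr] at h7
    have h8 : C * μ ^ j * β * (16 * t) ≤ η * t := by
      have : C * μ ^ j * β * 16 * t ≤ η * t := by gcongr
      linarith
    have h9 : |k - k'| * t ≤ 2 * η * t := by
      have h10 : |(k - k') * t| ≤ 2 * η * t := by
        rw [abs_le] at h6 h7 ⊢
        constructor <;> nlinarith
      rwa [abs_mul, abs_of_pos htpos] at h10
    exact le_of_mul_le_mul_right h9 htpos
  have h1 : |k - k'| ≤ 0 := by
    refine le_of_forall_pos_le_add fun ε hε => ?_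
    have := key (ε / 2) (half_pos hε)
    linarith
  exact sub_eq_zero.mp (abs_nonpos_iff.mp h1)

theorem kfun_ratio (hn : 2 ≤ n) {Ω : Set (EE n)} {ν : EE n → EE n} {d : ℝ → EE n}
    {ε : ℝ → ℝ} {P : EE n} (hg : GoodDom Ω ν d ε P) {u k : EE n → ℝ} (hc : Continuous u)
    (hu : ∀ z ∈ frontier Ω, LocPos Ω u z 8) (hpos : ∀ x ∈ Ω, 0 < u x)
    (hk0 : ∀ z ∈ frontier Ω, z ≠ 0 → 0 < k z)
    (hk : ∀ z ∈ frontier Ω, z ≠ 0 → ∀ η : ℝ, 0 < η → ∃ r₀ : ℝ, 0 < r₀ ∧
      ∀ x ∈ ball z r₀, |u x - k z * max 0 ⟪x - z, ν z⟫| ≤ η * ‖x - z‖) (η : ℝ) (hη : 0 < η) :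
    ∃ s : ℝ, 0 < s ∧ ∀ z ∈ frontier Ω, z ≠ 0 → ‖z‖ < s → |k (-z) / k z - 1| ≤ η := by
  obtain ⟨C, μ, hC, hμ, hμ1, hexp⟩ := exp_at (n := n) hn
  obtain ⟨C₂, hC₂, htr⟩ := prof_transfer (n := n) hn
  -- a small parameter
  obtain ⟨q, hq0, hq1, hqη⟩ : ∃ q : ℝ, 0 < q ∧ q ≤ 1 / 2 ∧
      (1 + q) * ((1 + q) * (1 + q)) ≤ (1 + η) * ((1 - q) * (1 - q)) := by
    have h1 : Tendsto (fun q : ℝ => (1 + η) * ((1 - q) * (1 - q)) - (1 + q) * ((1 + q) * (1 + q)))
        (𝓝[>] 0) (𝓝 ((1 + η) * ((1 - 0) * (1 - 0)) - (1 + 0) * ((1 + 0) * (1 + 0)))) := by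
      refine Tendsto.mono_left ?_ nhdsWithin_le_nhds
      refine Continuous.tendsto (by fun_prop) 0
    have h2 : (0 : ℝ) < (1 + η) * ((1 - 0) * (1 - 0)) - (1 + 0) * ((1 + 0) * (1 + 0)) := by
      linarith
    have h3 := h1.eventually_const_le h2
    have h4 : ∀ᶠ q : ℝ in 𝓝[>] 0, q ≤ 1 / 2 :=
      mem_nhdsWithin_of_mem_nhds (Iic_mem_nhds (by norm_num))
    obtain ⟨q, ⟨hq1, hq2⟩, hq3⟩ := ((h3.and h4).and self_mem_nhdsWithin).exists
    exact ⟨q, hq3, hq2, by linarith⟩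
  obtain ⟨s₀, hs₀, hprof⟩ := prof_zero hn hg (hu 0 hg.zero_mem) (fun x hx => hpos x hx.1) q hq0
  -- smallness of the flatness
  set τ : ℝ := q / (2 * C₂ + C) with hτ
  have hτpos : 0 < τ := by positivity
  obtain ⟨s₁, hs₁, hεs⟩ : ∃ s₁ : ℝ, 0 < s₁ ∧ ∀ r, 0 < r → r < s₁ → ε r ≤ τ := by
    have h1 := hg.eps_tendsto.eventually_le_const hτpos
    rw [eventually_nhdsWithin_iff, Metric.eventually_nhds_iff] at h1
    obtain ⟨s₁, hs₁, h2⟩ := h1
    refine ⟨s₁, hs₁, fun r hr hr' => h2 ?_ hr⟩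
    rw [Real.dist_eq, sub_zero, abs_of_pos hr]; exact hr'
  refine ⟨min s₀ (min s₁ 8) / 64, by positivity, fun z hz hz0 hzs => ?_⟩
  set s : ℝ := ‖z‖ with hs
  have hspos : 0 < s := norm_pos_iff.mpr hz0
  have h64 : 64 * s < min s₀ (min s₁ 8) := by
    rw [lt_div_iff₀ (by norm_num)] at hzs; linarith
  have h64s₀ : 64 * s < s₀ := h64.trans_le (min_le_left _ _)
  have h64s₁ : 64 * s < s₁ := h64.trans_le ((min_le_right _ _).trans (min_le_left _ _))
  have h648 : 64 * s ≤ 8 := (h64.trans_le ((min_le_right _ _).trans (min_le_right _ _))).le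
  obtain ⟨α, β, hα, hαβ, hβα, hP⟩ := hprof (64 * s) (by positivity) h64s₀
  set θ : ℝ := ε (64 * s) with hθ
  have hθ0 : 0 ≤ θ := hg.eps_nonneg _
  have hθτ : θ ≤ τ := hεs _ (by positivity) h64s₁
  set κ : ℝ := ε s * (1 / 2) with hκ
  have hεs0 : 0 ≤ ε s := hg.eps_nonneg _
  have hεsτ : ε s ≤ τ := hεs _ hspos (by linarith)
  have hκ0 : 0 ≤ κ := by positivity
  have hκτ : κ ≤ τ := by linarith
  have hκth : κ ≤ th0 := by
    have := hg.eps_le s
    linarith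
  have hsum : C₂ * (θ + κ) + C * κ ≤ q := by
    have h1 : C₂ * (θ + κ) + C * κ ≤ C₂ * (τ + τ) + C * τ := by gcongr
    have h2 : C₂ * (τ + τ) + C * τ = q := by
      rw [hτ]; field_simp; ring
    linarith
  have hCκ0 : 0 ≤ C * κ := by positivity
  have hC₂0 : 0 ≤ C₂ * (θ + κ) := by positivity
  have hβ0 : 0 < β := hα.trans_le hαβ
  set a : ℝ := α * (1 - C₂ * (θ + κ)) with ha
  set b : ℝ := β * (1 + C₂ * (θ + κ)) with hb
  have ha0 : 0 ≤ a := mul_nonneg hα.le (by linarith)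
  have hab : a ≤ b := by
    calc a ≤ α * 1 := by
          rw [ha]
          gcongr
          linarith
      _ ≤ β * 1 := by gcongr
      _ ≤ b := by
          rw [hb]
          gcongr
          linarith
  -- bounds for the slope at points of norm s
  have hslope : ∀ w ∈ frontier Ω, ‖w‖ = s → a * (1 - C * κ) ≤ k w ∧ k w ≤ b * (1 + C * κ) := by
    intro w hw hws
    have hw0 : w ≠ 0 := by
      rintro rfl
      rw [norm_zero] at hws
      linarith
    have hflw : ∀ r : ℝ, 0 < r → r ≤ s / 2 → Flat Ω w r (ν w) (ε s * (r / s)) := by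
      intro r hr hrs
      have := hg.flat_at w hw hw0 r hr (by rw [hws]; exact hrs)
      rwa [hws] at this
    have hfl0 : Flat Ω w (s / 2) (ν w) κ := by
      have h1 := hflw (s / 2) (by positivity) le_rfl
      have h2 : ε s * (s / 2 / s) = κ := by
        rw [hκ]; field_simp
      rwa [h2] at h1
    have hPw := htr Ω u w (d (64 * s)) (ν w) s θ κ α β hg.isOpen hw hws hspos hθ0 (hg.eps_le _)
      hκ0 hκth (hg.flat_zero _ (by positivity)) hfl0
      (e16_locPos_mono (hu 0 hg.zero_mem) h648) hα.le hαβ hP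
    have hflj : ∀ j : ℕ, Flat Ω w (s / 2 / 64 ^ j) (ν w) (κ / 64 ^ j) := by
      intro j
      have hle : s / 2 / 64 ^ j ≤ s / 2 := div_le_self (by positivity) (one_le_pow₀ (by norm_num))
      have h1 := hflw (s / 2 / 64 ^ j) (by positivity) hle
      have h2 : ε s * (s / 2 / 64 ^ j / s) = κ / 64 ^ j := by
        rw [hκ]; field_simp
      rwa [h2] at h1
    obtain ⟨k', hk1, hk2, hk3⟩ := hexp Ω u w (ν w) (s / 2) κ a b hg.isOpen (by positivity) hκ0
      hκth hflj (e16_locPos_mono (hu w hw) (by linarith)) ha0 hab hPw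
    have hunit : ‖ν w‖ = 1 := hfl0.unit
    have heq : k w = k' := e16_unique hunit (by positivity : (0:ℝ) < s / 2) hμ hμ1 (hk w hw hw0) hk3
    rw [heq]
    exact ⟨hk1, hk2⟩
  have hnegz : -z ∈ frontier Ω := by
    rw [hg.front] at hz ⊢
    rw [neg_neg]
    exact ⟨hz.2, hz.1⟩
  obtain ⟨h1, h2⟩ := hslope z hz rfl
  obtain ⟨h3, h4⟩ := hslope (-z) hnegz (norm_neg z)
  have hkz := hk0 z hz hz0
  set lo : ℝ := a * (1 - C * κ) with hlo
  set hi : ℝ := b * (1 + C * κ) with hhi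
  have hlo' : α * ((1 - q) * (1 - q)) ≤ lo := by
    rw [hlo, ha, mul_assoc]
    have h5 : 1 - q ≤ 1 - C₂ * (θ + κ) := by linarith
    have h6 : 1 - q ≤ 1 - C * κ := by linarith
    have h7 : 0 ≤ 1 - q := by linarith
    have h8 : 0 ≤ 1 - C₂ * (θ + κ) := h7.trans h5
    gcongr
  have hhi' : hi ≤ α * ((1 + q) * ((1 + q) * (1 + q))) := by
    rw [hhi, hb, mul_assoc]
    have h5 : 1 + C₂ * (θ + κ) ≤ 1 + q := by linarith
    have h6 : 1 + C * κ ≤ 1 + q := by linarith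
    calc β * ((1 + C₂ * (θ + κ)) * (1 + C * κ)) ≤ ((1 + q) * α) * ((1 + q) * (1 + q)) := by gcongr
      _ = _ := by ring
  have hlohi : hi ≤ (1 + η) * lo := by
    calc hi ≤ α * ((1 + q) * ((1 + q) * (1 + q))) := hhi'
      _ ≤ α * ((1 + η) * ((1 - q) * (1 - q))) := by gcongr
      _ = (1 + η) * (α * ((1 - q) * (1 - q))) := by ring
      _ ≤ (1 + η) * lo := by gcongr
  have hlopos : 0 < lo := by
    refine lt_of_lt_of_le ?_ hlo'
    have : 0 < 1 - q := by linarith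
    positivity
  rw [abs_le]
  have hkz2 : 0 < k (-z) := hk0 (-z) hnegz (neg_ne_zero.mpr hz0)
  constructor
  · -- k (-z) / k z ≥ 1 - η
    have h5 : k z ≤ (1 + η) * k (-z) := by
      calc k z ≤ hi := h2
        _ ≤ (1 + η) * lo := hlohi
        _ ≤ (1 + η) * k (-z) := by gcongr
    have h6 : 1 - η ≤ k (-z) / k z := by
      rw [le_div_iff₀ hkz]
      rcases le_total η 1 with hη1 | hη1
      · calc (1 - η) * k z ≤ (1 - η) * ((1 + η) * k (-z)) := by gcongr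
          _ = (1 - η ^ 2) * k (-z) := by ring
          _ ≤ 1 * k (-z) := by gcongr; nlinarith
          _ = k (-z) := one_mul _
      · nlinarith
    linarith
  · have h5 : k (-z) ≤ (1 + η) * k z := by
      calc k (-z) ≤ hi := h4
        _ ≤ (1 + η) * lo := hlohi
        _ ≤ (1 + η) * k z := by gcongr
    have h6 : k (-z) / k z ≤ 1 + η := by
      rw [div_le_iff₀ hkz]; exact h5
    linarith

theorem exists_bdryExp (hn : 2 ≤ n) {Ω : Set (EE n)} {ν : EE n → EE n} {d : ℝ → EE n}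
    {ε : ℝ → ℝ} {P : EE n} (hg : GoodDom Ω ν d ε P) {u : EE n → ℝ} (hc : Continuous u)
    (hu : ∀ z ∈ frontier Ω, LocPos Ω u z 8) (hpos : ∀ x ∈ Ω, 0 < u x) :
    ∃ k : EE n → ℝ, BdryExp Ω ν u k := by
  obtain ⟨k, hk0, hk⟩ := kfun_exists hn hg hc hu hpos
  refine ⟨k, hk0, kfun_cont hg hc hk, hk, ?_⟩
  refine kfun_ratio hn hg hc hu hpos hk0 fun z hz hz0 η hη => ?_
  obtain ⟨r₀, hr₀, h⟩ := hk {z} (by
    rintro w hw
    rw [mem_singleton_iff] at hw
    subst hw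
    exact ⟨hz, hz0⟩) isCompact_singleton η hη
  exact ⟨r₀, hr₀, h z rfl⟩

end Pool.Agent.Lib.MP_47b33c_an
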