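import Pool.Agent.Lib.MP_47b33c_an.Wt
import Pool.Agent.Lib.MP_47b33c_an.WDeriv
import Pool.Agent.Lib.MP_47b33c_an.Sub
import Pool.Agent.Lib.MP_47b33c_an.Vanish
import Pool.Agent.Lib.MP_47b33c_an.Cut

set_option autoImplicit false

open MeasureTheory Metric Set Filter Topology InnerProductSpace
open scoped RealInnerProductSpace Laplacian

namespace Pool.Agent.Lib.MP_47b33c_an

variable {n : ℕ}

/-- the Laplacian vanishes off the support -/
theorem d6_lap_zero {F : EE n → ℝ} {x : EE n} (hx : x ∉ tsupport F) : Δ F x = 0 := by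
  have h1 : F =ᶠ[𝓝 x] fun _ => (0 : ℝ) := notMem_tsupport_iff_eventuallyEq.mp hx
  have h2 := (laplacian_congr_nhds h1).eq_of_nhds
  rw [h2, laplacian_const]; rfl

theorem d6_lap_cont {F : EE n → ℝ} (hF : ContDiff ℝ 2 F) : Continuous (Δ F) := by
  have h1 : ContDiff ℝ 1 (fderiv ℝ F) := hF.fderiv_right (by norm_num)
  have h2 : Continuous (fderiv ℝ (fderiv ℝ F)) := h1.continuous_fderiv (by norm_num)
  have h3 : Δ F = fun x => ∑ i, fderiv ℝ (fderiv ℝ F) x (EuclideanSpace.basisFun (Fin n) ℝ i)
      (EuclideanSpace.basisFun (Fin n) ℝ i) := by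
    rw [laplacian_eq_iteratedFDeriv_orthonormalBasis F (EuclideanSpace.basisFun (Fin n) ℝ)]
    simp only [iteratedFDeriv_two_apply]
    rfl
  rw [h3]
  fun_prop

/-- smallness of the difference between the data and the solution near the boundary -/
theorem d6_close (hn : 2 ≤ n) {Ω : Set (EE n)} (hΩ : IsOpen Ω) {P : EE n} (hP : ‖P‖ = 1)
    (hhalf : ∀ x ∈ Ω, 1 ≤ ‖x‖ → 0 < ⟪x, P⟫) {A : EE n} {G : EE n → ℝ} (hG : GreenPot Ω A G)
    {φ u : EE n → ℝ} (hφ : Continuous φ) (hc : HasCompactSupport φ) (hu : IsDir Ω φ u) (η : ℝ)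
    (hη : 0 < η) : ∃ m : ℝ, 0 < m ∧ ∀ x ∈ Ω, G x < m → |φ x - u x| ≤ η := by
  obtain ⟨M, hM⟩ := hu.bdd
  -- at infinity
  have hφi : ∀ η : ℝ, 0 < η → ∃ R : ℝ, ∀ x : EE n, R ≤ ‖x‖ → |φ x| ≤ η := by
    intro η hη
    obtain ⟨R, hR⟩ := hc.isCompact.isBounded.subset_closedBall (0 : EE n)
    refine ⟨R + 1, fun x hx => ?_⟩
    have : x ∉ tsupport φ := by
      intro h
      have := hR h
      rw [mem_closedBall_zero_iff] at this
      linarith
    rw [image_eq_zero_of_notMem_tsupport this, abs_zero]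
    exact hη.le
  have hbd : ∀ ζ ∈ frontier Ω, BdLe Ω u (φ ζ) ζ := by
    intro ζ hζ η hη
    have h1 : Tendsto u (𝓝[Ω] ζ) (𝓝 (u ζ)) :=
      (hu.cont ζ (frontier_subset_closure hζ)).mono subset_closure
    rw [hu.eq ζ hζ] at h1
    filter_upwards [h1.eventually_lt_const (lt_add_of_pos_right (φ ζ) hη)] with x hx
    exact hx.le
  have hbd' : ∀ ζ ∈ frontier Ω, BdLe Ω (-u) ((-φ) ζ) ζ := by
    intro ζ hζ η hη
    have h1 : Tendsto (-u) (𝓝[Ω] ζ) (𝓝 (-u ζ)) :=
      ((hu.cont ζ (frontier_subset_closure hζ)).mono subset_closure).neg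
    rw [hu.eq ζ hζ] at h1
    filter_upwards [h1.eventually_lt_const (lt_add_of_pos_right (-φ ζ) hη)] with x hx
    exact hx.le
  obtain ⟨R1, hR1⟩ := vanish_infty hn hΩ hP hhalf (harmonic_subH hn hu.harm)
    (fun x hx => (le_abs_self _).trans (hM x hx)) hφi hbd (η / 4) (by positivity)
  obtain ⟨R2, hR2⟩ := vanish_infty hn hΩ hP hhalf (harmonic_subH hn hu.harm.neg)
    (M := M) (fun x hx => (neg_le_abs _).trans (hM x hx)) (f := -φ)
    (fun η hη => by simpa using hφi η hη) hbd' (η / 4) (by positivity)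
  obtain ⟨R3, hR3⟩ := hφi (η / 4) (by positivity)
  set R := max R1 (max R2 R3) with hR
  have hfar : ∀ x ∈ Ω, R ≤ ‖x‖ → |φ x - u x| < η := by
    intro x hx hxR
    have h1 := hR1 x hx ((le_max_left _ _).trans hxR)
    have h2 := hR2 x hx (((le_max_left _ _).trans (le_max_right _ _)).trans hxR)
    have h3 := hR3 x (((le_max_right _ _).trans (le_max_right _ _)).trans hxR)
    rw [Pi.neg_apply] at h2
    rw [abs_le] at h3
    rw [abs_lt]
    constructor <;> linarith
  -- the bad set
  set E : Set (EE n) := {x | x ∈ closure Ω ∧ η ≤ |φ x - u x|} with hE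
  have hEcl : IsClosed E := by
    have h1 : ContinuousOn (fun x => |φ x - u x|) (closure Ω) :=
      (hφ.continuousOn.sub hu.cont).abs
    exact h1.preimage_isClosed_of_isClosed isClosed_closure (isClosed_Ici (a := η))
  have hEΩ : E ⊆ Ω := by
    intro x hx
    by_contra hx'
    have h1 : x ∈ frontier Ω := by
      rw [hΩ.frontier_eq]; exact ⟨hx.1, hx'⟩
    have h2 := hx.2
    rw [hu.eq x h1, sub_self, abs_zero] at h2
    linarith
  have hEc : IsCompact E := by
    refine (isCompact_closedBall (0 : EE n) R).of_isClosed_subset hEcl ?_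
    intro x hx
    by_contra hx'
    rw [mem_closedBall_zero_iff, not_le] at hx'
    have := hfar x (hEΩ hx) hx'.le
    linarith [hx.2]
  rcases E.eq_empty_or_nonempty with hEe | hEn
  · refine ⟨1, one_pos, fun x hx _ => ?_⟩
    by_contra h
    have : x ∈ E := ⟨subset_closure hx, (not_le.mp h).le⟩
    rw [hEe] at this
    exact this
  · obtain ⟨y, hy, hymin⟩ := hEc.exists_isMinOn hEn hG.cont.continuousOn
    refine ⟨G y, hG.pos y (hEΩ hy), fun x hx hxm => ?_⟩
    by_contra h
    have h1 : x ∈ E := ⟨subset_closure hx, (not_le.mp h).le⟩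
    have h2 : G y ≤ G x := hymin h1
    linarith

theorem green_rep (hn : 2 ≤ n) {Ω : Set (EE n)} (hΩ : IsOpen Ω) {P : EE n} (hP : ‖P‖ = 1)
    (hhalf : ∀ x ∈ Ω, 1 ≤ ‖x‖ → 0 < ⟪x, P⟫) {A : EE n} (hA : closedBall A 1 ⊆ Ω)
    {G : EE n → ℝ} (hG : GreenPot Ω A G) {ω : Measure (EE n)} (hω : IsHarmonicMeasure Ω A ω)
    {φ : EE n → ℝ} (hφ : ContDiff ℝ 2 φ) (hc : HasCompactSupport φ) :
    (∫ y : EE n, wt 1 y) * ∫ x, φ x ∂ω =
      (∫ x, G x * Δ φ x) + ∫ x, φ x * max 0 (1 - ‖x - A‖ ^ 2) := by
  have hφb : ∃ M : ℝ, ∀ x, |φ x| ≤ M := by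
    obtain ⟨M, hM⟩ := hc.exists_bound_of_continuous hφ.continuous
    exact ⟨M, hM⟩
  obtain ⟨u, hu⟩ := hω.exist φ hφ.continuous hφb
  rw [← hω.eq φ u hφ.continuous hφb hu]
  set c : ℝ := ∫ y : EE n, wt 1 y with hcd
  have hc0 : 0 < c := wt_integral_pos hn 1 le_rfl
  set bump : EE n → ℝ := fun x => max 0 (1 - ‖x - A‖ ^ 2) with hbump
  have hbc : Continuous bump := by simp only [hbump]; fun_prop
  have hb0 : ∀ x, x ∉ closedBall A 1 → bump x = 0 := by
    intro x hx
    rw [mem_closedBall, dist_eq_norm, not_le] at hx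
    simp only [hbump]
    refine max_eq_left ?_
    nlinarith
  -- change of variables
  have hshift : ∀ w : EE n → ℝ, ∫ x, w x * bump x = ∫ y, w (A + (1 : ℝ) • y) * wt 1 y := by
    intro w
    rw [← integral_add_left_eq_self (fun x => w x * bump x) A]
    refine integral_congr_ae (Eventually.of_forall fun y => ?_)
    simp [hbump, wt]
  have hub : ∫ x, u x * bump x = u A * c := by
    rw [hshift u]
    exact mvp hn 1 le_rfl zero_le_one (hu.harm.mono hA)
  have h1b : ∫ x, bump x = c := by
    have := hshift fun _ => (1 : ℝ)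
    simpa using this
  obtain ⟨δ₀, hδ₀, hcut⟩ := cut_green hΩ hA hG
  set L : ℝ := ∫ x, |Δ φ x| with hL
  have hL0 : 0 ≤ L := integral_nonneg fun x => abs_nonneg _
  have hΔφ : Continuous (Δ φ) := d6_lap_cont hφ
  have hΔφs : HasCompactSupport (Δ φ) :=
    HasCompactSupport.intro hc.isCompact fun x hx => d6_lap_zero hx
  -- the main estimate
  have key : ∀ η : ℝ, 0 < η → |(∫ x, G x * Δ φ x) + (∫ x, φ x * bump x) - c * u A| ≤
      η * (L + c) := by
    intro η hη
    obtain ⟨m, hm, hclose⟩ := d6_close hn hΩ hP hhalf hG hφ.continuous hc hu η hη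
    obtain ⟨δ, hδ, hδ1, hδ2, hδ3⟩ : ∃ δ : ℝ, 0 < δ ∧ δ < δ₀ ∧ 2 * δ < m ∧ 2 * δ ≤ η := by
      refine ⟨min (δ₀ / 2) (min (m / 4) (η / 2)), by positivity, ?_, ?_, ?_⟩
      · exact (min_le_left _ _).trans_lt (by linarith)
      · have := (min_le_right (δ₀ / 2) (min (m / 4) (η / 2))).trans (min_le_left _ _)
        linarith
      · have := (min_le_right (δ₀ / 2) (min (m / 4) (η / 2))).trans (min_le_right _ _)
        linarith
    obtain ⟨F, ν, hF, hFs, hFΩ, hν, hνs, hν0, hνG, hΔF, hFG⟩ := hcut δ hδ hδ1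
    set K : Set (EE n) := tsupport F ∪ closedBall A 1 with hK
    have hKc : IsCompact K := hFs.isCompact.union (isCompact_closedBall A 1)
    have hKΩ : K ⊆ Ω := union_subset hFΩ hA
    have hνK : ∀ x, x ∉ K → ν x = 0 := by
      intro x hx
      rw [hK, mem_union, not_or] at hx
      have h1 := hΔF x
      rw [d6_lap_zero hx.1] at h1
      have h2 := hb0 x hx.2
      simp only [hbump] at h2
      linarith
    -- integrability of products with functions continuous on K
    have hint : ∀ w g : EE n → ℝ, ContinuousOn w K → Continuous g → (∀ x, x ∉ K → g x = 0) →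
        Integrable fun x => w x * g x := by
      intro w g hw hg hgK
      have h1 : IntegrableOn (fun x => w x * g x) K :=
        (hw.mul hg.continuousOn).integrableOn_compact hKc
      have h2 : (fun x => w x * g x) = K.indicator fun x => w x * g x := by
        funext x
        by_cases hx : x ∈ K
        · rw [indicator_of_mem hx]
        · rw [indicator_of_notMem hx, hgK x hx, mul_zero]
      rw [h2, integrable_indicator_iff hKc.measurableSet]
      exact h1
    have hbK : ∀ x, x ∉ K → bump x = 0 := fun x hx => hb0 x fun h => hx (Or.inr h)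
    have huK : ContinuousOn u K := hu.cont.mono (hKΩ.trans subset_closure)
    -- integral of u against ν
    have hlapF : ∀ w : EE n → ℝ, ContinuousOn w K → ∫ x, w x * Δ F x =
        (∫ x, w x * ν x) - ∫ x, w x * bump x := by
      intro w hw
      rw [← integral_sub (hint w ν hw hν hνK) (hint w bump hw hbc hbK)]
      refine integral_congr_ae (Eventually.of_forall fun x => ?_)
      simp only [hΔF x, hbump]
      ring
    have hharm : ∀ w : EE n → ℝ, HarmonicOnNhd w Ω → ∫ x, w x * Δ F x = 0 := by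
      intro w hw
      rw [green_ibp hΩ (fun x hx => (hw x hx).1) hF hFs hFΩ]
      rw [← integral_zero (EE n) ℝ]
      refine integral_congr_ae (Eventually.of_forall fun x => ?_)
      by_cases hx : x ∈ tsupport F
      · simp [(hw x (hFΩ hx)).2.eq_of_nhds]
      · simp [image_eq_zero_of_notMem_tsupport hx]
    have h1 : ∫ x, u x * ν x = u A * c := by
      have := hlapF u huK
      rw [hharm u hu.harm, hub] at this
      linarith
    have h2 : ∫ x, ν x = c := by
      have h3 := hlapF (fun _ => (1 : ℝ)) continuousOn_const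
      rw [hharm (fun _ => (1 : ℝ)) (harmonicOnNhd_const 1)] at h3
      simp only [one_mul] at h3
      rw [h1b] at h3
      linarith
    have h4 : ∫ x, φ x * Δ F x = ∫ x, F x * Δ φ x :=
      green_ibp isOpen_univ (fun x _ => hφ.contDiffAt) hF hFs (subset_univ _)
    have h5 : ∫ x, φ x * ν x = (∫ x, F x * Δ φ x) + ∫ x, φ x * bump x := by
      have := hlapF φ hφ.continuous.continuousOn
      rw [h4] at this
      linarith
    -- error terms
    have hiF : Integrable fun x => F x * Δ φ x :=
      (hF.continuous.mul hΔφ).integrable_of_hasCompactSupport hΔφs.mul_left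
    have hiG : Integrable fun x => G x * Δ φ x :=
      (hG.cont.mul hΔφ).integrable_of_hasCompactSupport hΔφs.mul_left
    have e1 : |(∫ x, F x * Δ φ x) - ∫ x, G x * Δ φ x| ≤ η * L := by
      rw [← integral_sub hiF hiG, hL, ← integral_const_mul]
      refine (abs_integral_le_integral_abs).trans ?_
      refine integral_mono_of_nonneg (Eventually.of_forall fun x => abs_nonneg _)
        ((hΔφ.abs.integrable_of_hasCompactSupport hΔφs.abs).const_mul η)
        (Eventually.of_forall fun x => ?_)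
      simp only
      rw [← sub_mul, abs_mul]
      exact mul_le_mul_of_nonneg_right ((hFG x).trans hδ3) (abs_nonneg _)
    have e2 : |(∫ x, φ x * ν x) - ∫ x, u x * ν x| ≤ η * c := by
      rw [← integral_sub (hint φ ν hφ.continuous.continuousOn hν hνK) (hint u ν huK hν hνK),
        ← h2, ← integral_const_mul]
      refine (abs_integral_le_integral_abs).trans ?_
      refine integral_mono_of_nonneg (Eventually.of_forall fun x => abs_nonneg _)
        ((hν.integrable_of_hasCompactSupport hνs).const_mul η)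
        (Eventually.of_forall fun x => ?_)
      simp only
      rw [← sub_mul, abs_mul, abs_of_nonneg (hν0 x)]
      by_cases hx : ν x = 0
      · rw [hx, mul_zero, mul_zero]
      · obtain ⟨hxΩ, hxG⟩ := hνG x hx
        exact mul_le_mul_of_nonneg_right (hclose x hxΩ (by linarith)) (hν0 x)
    have h6 : (∫ x, G x * Δ φ x) + (∫ x, φ x * bump x) - c * u A =
        ((∫ x, φ x * ν x) - ∫ x, u x * ν x) - ((∫ x, F x * Δ φ x) - ∫ x, G x * Δ φ x) := by
      rw [h5, h1]; ring
    rw [h6]
    refine (abs_sub _ _).trans ?_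
    linarith
  have h7 : |(∫ x, G x * Δ φ x) + (∫ x, φ x * bump x) - c * u A| ≤ 0 := by
    refine le_of_forall_pos_le_add fun ε hε => ?_
    have hLc : 0 < L + c := by linarith
    have := key (ε / (L + c)) (by positivity)
    rw [div_mul_cancel₀ _ hLc.ne'] at this
    linarith
  have h8 := abs_nonpos_iff.mp h7
  simp only [hbump] at h8
  linarith

end Pool.Agent.Lib.MP_47b33c_an
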