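import Pool.Agent.Lib.MP_47b33c_an.Defs
import Pool.Agent.Lib.MP_47b33c_an.Normals
import Pool.Agent.Lib.MP_47b33c_an.DomA

/-!
# The tangent sets of the boundary at the origin
-/

set_option autoImplicit false

open MeasureTheory Metric Set Filter Topology InnerProductSpace
open scoped RealInnerProductSpace Laplacian

namespace Pool.Agent.Lib.MP_47b33c_an

variable {n : ℕ}

theorem f11_lip {e : ℝ → EE n} {δ : ℝ → ℝ} {P : EE n} (h : GoodCurve e δ P) {a s t : ℝ}
    (hs : a ≤ s) (ht : a ≤ t) : ‖e t - e s‖ ≤ δ a * |t - s| := by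
  have h1 := Convex.norm_image_sub_le_of_norm_deriv_le (f := e) (s := Ici a) (C := δ a)
    (fun x _ => (h.smooth.differentiable (by norm_num)).differentiableAt)
    (fun x hx => (h.deriv1 x).trans (h.anti hx)) (convex_Ici a) (mem_Ici.2 hs) (mem_Ici.2 ht)
  simpa only [Real.norm_eq_abs] using h1

theorem f11_key {e : ℝ → EE n} {δ : ℝ → ℝ} {P : EE n} (h : GoodCurve e δ P) {r R : ℝ}
    (hr : 0 < r) (hR : 0 < R) {y : EE n} (hy : ‖y‖ ≤ R) :
    |Ff e (r • y) - r * ⟪y, e (-Real.log (R * r))⟫| ≤ r * (R * δ (-Real.log (R * r))) := by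
  set t : ℝ := -Real.log (R * r) with ht
  have hδ := h.nonneg t
  by_cases h0 : y = 0
  · subst h0
    simp only [Ff, smul_zero, inner_zero_left, mul_zero, sub_zero, abs_zero]
    positivity
  · have hy0 : 0 < ‖y‖ := norm_pos_iff.2 h0
    have e1 : Ff e (r • y) = r * ⟪y, e (-Real.log (r * ‖y‖))⟫ := by
      simp only [Ff, norm_smul, Real.norm_eq_abs, abs_of_pos hr, real_inner_smul_left]
    have e2 : Ff e (r • y) - r * ⟪y, e t⟫ = r * ⟪y, e (-Real.log (r * ‖y‖)) - e t⟫ := by
      rw [e1, inner_sub_right]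
      ring
    have e3 : t ≤ -Real.log (r * ‖y‖) := by
      rw [ht]
      apply neg_le_neg
      apply Real.log_le_log (by positivity)
      rw [mul_comm R r]
      gcongr
    have e4 := f11_lip h (le_refl t) e3
    have e5 : |-Real.log (r * ‖y‖) - t| ≤ R / ‖y‖ := by
      rw [abs_of_nonneg (by linarith), ht, Real.log_mul hR.ne' hr.ne',
        Real.log_mul hr.ne' hy0.ne']
      have e6 : -(Real.log r + Real.log ‖y‖) - -(Real.log R + Real.log r) =
          Real.log (R / ‖y‖) := by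
        rw [Real.log_div hR.ne' hy0.ne']
        ring
      rw [e6]
      have := Real.log_le_sub_one_of_pos (show 0 < R / ‖y‖ by positivity)
      linarith
    rw [e2, abs_mul, abs_of_pos hr]
    gcongr
    calc |⟪y, e (-Real.log (r * ‖y‖)) - e t⟫| ≤ ‖y‖ * ‖e (-Real.log (r * ‖y‖)) - e t‖ :=
          abs_real_inner_le_norm _ _
      _ ≤ ‖y‖ * (δ t * (R / ‖y‖)) := by
          gcongr
          exact e4.trans (mul_le_mul_of_nonneg_left e5 hδ)
      _ = R * δ t := by
          field_simp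

/-- convergence of the rescaled boundaries -/
theorem f11_aw (hn : 2 ≤ n) {e : ℝ → EE n} {δ : ℝ → ℝ} {P : EE n} (h : GoodCurve e δ P)
    {r : ℕ → ℝ} (hr : ∀ i, 0 < r i) (hr0 : Tendsto r atTop (𝓝 0)) {w : ℕ → EE n}
    (hw : ∀ i, ‖w i‖ = 1) {T : Set (EE n)} (hT : ∀ i, T = {x | ⟪x, w i⟫ = 0})
    (hlim : Tendsto (fun i => ‖e (-Real.log (r i)) - w i‖) atTop (𝓝 0)) :
    AWTendsto (fun i => {y | (0 : EE n) + r i • y ∈ frontier (Dom e)}) T := by
  intro R hR η hη
  set R2 : ℝ := 2 * R with hR2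
  have hR20 : 0 < R2 := by positivity
  set η' : ℝ := min (η / 2) R with hη'
  have hη'0 : 0 < η' := lt_min (by positivity) hR
  -- the parameter tends to infinity
  have hrpos : Tendsto r atTop (𝓝[>] 0) :=
    tendsto_nhdsWithin_iff.2 ⟨hr0, Eventually.of_forall fun i => hr i⟩
  have hlog : Tendsto (fun i => -Real.log (r i)) atTop atTop :=
    tendsto_neg_atBot_atTop.comp (Real.tendsto_log_nhdsGT_zero.comp hrpos)
  have hlog2 : ∀ i, -Real.log (R2 * r i) = -Real.log (r i) - Real.log R2 := by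
    intro i
    rw [Real.log_mul hR20.ne' (hr i).ne']
    ring
  have hlogm : Tendsto (fun i => -Real.log (r i) - |Real.log R2|) atTop atTop :=
    tendsto_atTop_add_const_right _ _ hlog
  have hδm : Tendsto (fun i => δ (-Real.log (r i) - |Real.log R2|)) atTop (𝓝 0) :=
    h.tendsto.comp hlogm
  have hτ : Tendsto (fun i => R2 * (δ (-Real.log (r i) - |Real.log R2|) +
      (δ (-Real.log (r i) - |Real.log R2|) * |Real.log R2| +
        ‖e (-Real.log (r i)) - w i‖))) atTop (𝓝 0) := by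
    have := ((hδm.add ((hδm.mul_const |Real.log R2|).add hlim)).const_mul R2)
    simpa using this
  filter_upwards [hτ.eventually (gt_mem_nhds hη'0)] with i hi
  -- the error for this index
  have hδ2 : δ (-Real.log (R2 * r i)) ≤ δ (-Real.log (r i) - |Real.log R2|) := by
    apply h.anti
    rw [hlog2]
    linarith [le_abs_self (Real.log R2)]
  have hew : ‖e (-Real.log (R2 * r i)) - w i‖ ≤
      δ (-Real.log (r i) - |Real.log R2|) * |Real.log R2| +
        ‖e (-Real.log (r i)) - w i‖ := by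
    have h1 := f11_lip h (a := -Real.log (r i) - |Real.log R2|) (s := -Real.log (r i))
      (t := -Real.log (R2 * r i)) (by linarith [abs_nonneg (Real.log R2)])
      (by rw [hlog2]; linarith [le_abs_self (Real.log R2)])
    have h2 : |-Real.log (R2 * r i) - -Real.log (r i)| = |Real.log R2| := by
      rw [hlog2, ← abs_neg]
      congr 1
      ring
    rw [h2] at h1
    calc ‖e (-Real.log (R2 * r i)) - w i‖ =
        ‖(e (-Real.log (R2 * r i)) - e (-Real.log (r i))) + (e (-Real.log (r i)) - w i)‖ := by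
          congr 1
          abel
      _ ≤ _ := (norm_add_le _ _).trans (add_le_add h1 le_rfl)
  have hτi : R2 * (δ (-Real.log (R2 * r i)) + ‖e (-Real.log (R2 * r i)) - w i‖) < η' :=
    lt_of_le_of_lt (mul_le_mul_of_nonneg_left (add_le_add hδ2 hew) hR20.le) hi
  set t : ℝ := -Real.log (R2 * r i) with htdef
  have hri := hr i
  have hfr : ∀ y : EE n, y ∈ {y | (0 : EE n) + r i • y ∈ frontier (Dom e)} ↔
      Ff e (r i • y) = 0 := by
    intro y
    rw [mem_ofPred_eq, zero_add, dom_frontier hn h]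
    rfl
  have hwi : ⟪w i, w i⟫ = (1 : ℝ) := by
    rw [real_inner_self_eq_norm_sq, hw i]
    norm_num
  have herr : ∀ y : EE n, ‖y‖ ≤ R2 →
      |Ff e (r i • y) - r i * ⟪y, w i⟫| < r i * η' := by
    intro y hy
    have h1 := f11_key h hri hR20 hy
    have h2 : |⟪y, e t - w i⟫| ≤ R2 * ‖e t - w i‖ :=
      (abs_real_inner_le_norm _ _).trans (mul_le_mul_of_nonneg_right hy (norm_nonneg _))
    calc |Ff e (r i • y) - r i * ⟪y, w i⟫|
        = |(Ff e (r i • y) - r i * ⟪y, e t⟫) + r i * ⟪y, e t - w i⟫| := by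
          rw [inner_sub_right]
          congr 1
          ring
      _ ≤ r i * (R2 * δ t) + r i * (R2 * ‖e t - w i‖) := by
          refine (abs_add_le _ _).trans (add_le_add h1 ?_)
          rw [abs_mul, abs_of_pos hri]
          gcongr
      _ = r i * (R2 * (δ t + ‖e t - w i‖)) := by ring
      _ < r i * η' := mul_lt_mul_of_pos_left hτi hri
  constructor
  · intro x hx hxR
    have hx0 := (hfr x).1 hx
    have h1 := herr x (by linarith)
    rw [hx0, zero_sub, abs_neg, abs_mul, abs_of_pos hri] at h1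
    have h2 : |⟪x, w i⟫| < η' := lt_of_mul_lt_mul_left h1 hri.le
    refine ⟨x - ⟪x, w i⟫ • w i, ?_, ?_⟩
    · rw [hT i]
      show ⟪x - ⟪x, w i⟫ • w i, w i⟫ = 0
      rw [inner_sub_left, real_inner_smul_left, hwi]
      ring
    · rw [dist_eq_norm, sub_sub_cancel, norm_smul, hw i, mul_one, Real.norm_eq_abs]
      have h3 : η' ≤ η / 2 := min_le_left _ _
      linarith
  · intro y hy hyR
    rw [hT i] at hy
    have hy0 : ⟪y, w i⟫ = 0 := hy
    have hcont : Continuous fun s : ℝ => Ff e (r i • (y + s • w i)) :=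
      (Ff_continuous h).comp (by fun_prop)
    have hnorm : ∀ s : ℝ, |s| ≤ η' → ‖y + s • w i‖ ≤ R2 := by
      intro s hs
      have h1 : ‖s • w i‖ = |s| := by rw [norm_smul, hw i, mul_one, Real.norm_eq_abs]
      have h2 := norm_add_le y (s • w i)
      have h3 : η' ≤ R := min_le_right _ _
      rw [h1] at h2
      linarith
    have hin : ∀ s : ℝ, ⟪y + s • w i, w i⟫ = s := by
      intro s
      rw [inner_add_left, real_inner_smul_left, hwi, hy0]
      ring
    have h1 := herr (y + η' • w i) (hnorm η' (by rw [abs_of_pos hη'0]))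
    have h2 := herr (y + (-η') • w i) (hnorm (-η') (by rw [abs_neg, abs_of_pos hη'0]))
    rw [hin, abs_lt] at h1 h2
    have hivt := intermediate_value_Icc (show -η' ≤ η' by linarith) hcont.continuousOn
    have h3 : (0 : ℝ) ∈ Icc (Ff e (r i • (y + (-η') • w i))) (Ff e (r i • (y + η' • w i))) := by
      constructor
      · have := h2.2
        nlinarith
      · have := h1.1
        nlinarith
    obtain ⟨s, hs, hs0⟩ := hivt h3
    refine ⟨y + s • w i, (hfr _).2 hs0, ?_⟩
    rw [dist_eq_norm, add_sub_cancel_left, norm_smul, hw i, mul_one, Real.norm_eq_abs]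
    have h4 : |s| ≤ η' := abs_le.2 hs
    have h5 : η' ≤ η / 2 := min_le_left _ _
    linarith

/-- one half of the uniqueness of the limit -/
theorem f11_unique {S : ℕ → Set (EE n)} {T T' : Set (EE n)} (h : AWTendsto S T)
    (h' : AWTendsto S T') (hT' : IsClosed T') : T ⊆ T' := by
  intro y hy
  rw [← hT'.closure_eq]
  rw [Metric.mem_closure_iff]
  intro ε hε
  set η : ℝ := min (ε / 2) 1 with hη
  have hη0 : 0 < η := lt_min (by positivity) one_pos
  have hR : 0 < ‖y‖ + 1 := by positivity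
  obtain ⟨i, h1, h2⟩ := ((h (‖y‖ + 1) hR η hη0).and (h' (‖y‖ + 1) hR η hη0)).exists
  obtain ⟨x, hx, hxy⟩ := h1.2 y hy (by linarith)
  have hxn : ‖x‖ ≤ ‖y‖ + 1 := by
    have h3 := norm_sub_norm_le x y
    rw [← dist_eq_norm] at h3
    have h4 : η ≤ 1 := min_le_right _ _
    linarith
  obtain ⟨z, hz, hxz⟩ := h2.1 x hx hxn
  refine ⟨z, hz, ?_⟩
  have h5 : dist y z ≤ dist x y + dist x z := by
    rw [dist_comm x y]
    exact dist_triangle y x z
  have h6 : η ≤ ε / 2 := min_le_left _ _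
  linarith

theorem tan_dom (hn : 2 ≤ n) {C : Set (Hyp n)} (hC : IsCompact C) {p : ℕ → EE n} {δ : ℕ → ℝ}
    (hp : ∀ j, ‖p j‖ = 1) (hδ : Tendsto δ atTop (𝓝 0))
    (hpC : ∀ j, ∃ H ∈ C, (H.1 : Set (EE n)) = {x | ⟪x, p j⟫ = 0})
    (hdense : ∀ H ∈ C, ∀ η : ℝ, 0 < η → ∀ N : ℕ, ∃ j, N ≤ j ∧ ∃ v : EE n, ‖v‖ = 1 ∧
        (H.1 : Set (EE n)) = {x | ⟪x, v⟫ = 0} ∧ ‖p j - v‖ ≤ η)
    {e : ℝ → EE n} {δ' : ℝ → ℝ} {P : EE n} (he : GoodCurve e δ' P) {K : ℝ}
    (hej : ∀ j : ℕ, e j = p j)
    (hep : ∀ j : ℕ, ∀ t : ℝ, (j : ℝ) ≤ t → t ≤ j + 1 → ‖e t - p j‖ ≤ K * δ j) :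
    Tan (frontier (Dom e)) 0 = (fun H : Hyp n => (H.1 : Set (EE n))) '' C := by
  ext T
  constructor
  · rintro ⟨hTc, r, hr, -, hr0, hAW⟩
    have hrpos : Tendsto r atTop (𝓝[>] 0) :=
      tendsto_nhdsWithin_iff.2 ⟨hr0, Eventually.of_forall fun i => hr i⟩
    have hlog : Tendsto (fun i => -Real.log (r i)) atTop atTop :=
      tendsto_neg_atBot_atTop.comp (Real.tendsto_log_nhdsGT_zero.comp hrpos)
    set j : ℕ → ℕ := fun i => ⌊-Real.log (r i)⌋₊ with hj
    have hjt : Tendsto j atTop atTop := tendsto_nat_floor_atTop.comp hlog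
    obtain ⟨w, hw, φ, hφ, hφw⟩ := (isCompact_sphere (0 : EE n) 1).tendsto_subseq
      (x := fun i => p (j i)) (fun i => by rw [mem_sphere_zero_iff_norm]; exact hp _)
    rw [mem_sphere_zero_iff_norm] at hw
    obtain ⟨H, hHC, hH⟩ := normals_closed hC (v := fun i => p (j (φ i))) (w := w)
      (fun i => hp _) (fun i => hpC _) hφw
    have h1 : Tendsto (fun i => ‖e (-Real.log (r (φ i))) - w‖) atTop (𝓝 0) := by
      have h2 : Tendsto (fun i => K * δ (j (φ i)) + ‖p (j (φ i)) - w‖) atTop (𝓝 0) := by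
        have h3 : Tendsto (fun i => K * δ (j (φ i))) atTop (𝓝 (K * 0)) :=
          (hδ.comp (hjt.comp hφ.tendsto_atTop)).const_mul K
        have h4 : Tendsto (fun i => ‖p (j (φ i)) - w‖) atTop (𝓝 0) := by
          have := (hφw.sub_const w).norm
          simpa using this
        simpa using h3.add h4
      refine squeeze_zero' (Eventually.of_forall fun i => norm_nonneg _) ?_ h2
      have h5 : ∀ᶠ i in atTop, 0 ≤ -Real.log (r (φ i)) :=
        (hlog.comp hφ.tendsto_atTop).eventually (eventually_ge_atTop 0)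
      filter_upwards [h5] with i hi
      have h6 := hep (j (φ i)) (-Real.log (r (φ i))) (Nat.floor_le hi)
        (Nat.lt_floor_add_one _).le
      calc ‖e (-Real.log (r (φ i))) - w‖ =
          ‖(e (-Real.log (r (φ i))) - p (j (φ i))) + (p (j (φ i)) - w)‖ := by
            congr 1
            abel
        _ ≤ _ := (norm_add_le _ _).trans (add_le_add h6 le_rfl)
    have h7 := f11_aw hn he (r := fun i => r (φ i)) (fun i => hr _)
      (hr0.comp hφ.tendsto_atTop) (w := fun _ => w) (fun _ => hw)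
      (T := {x | ⟪x, w⟫ = 0}) (fun _ => rfl) h1
    have h8 : AWTendsto (fun i => {y | (0 : EE n) + r (φ i) • y ∈ frontier (Dom e)}) T :=
      fun R hR η hη => hφ.tendsto_atTop.eventually (hAW R hR η hη)
    have hcl : IsClosed {x : EE n | ⟪x, w⟫ = 0} :=
      isClosed_eq (by fun_prop) continuous_const
    refine ⟨H, hHC, ?_⟩
    show (H.1 : Set (EE n)) = T
    rw [hH]
    exact Subset.antisymm (f11_unique h7 h8 hTc) (f11_unique h8 h7 hcl)
  · rintro ⟨H, hHC, rfl⟩
    refine ⟨Submodule.closed_of_finiteDimensional H.1, ?_⟩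
    have h1 : ∀ k : ℕ, ∃ᶠ j in atTop, ∃ v : EE n, ‖v‖ = 1 ∧
        (H.1 : Set (EE n)) = {x | ⟪x, v⟫ = 0} ∧ ‖p j - v‖ ≤ 1 / ((k : ℝ) + 1) := by
      intro k
      rw [frequently_atTop]
      intro N
      obtain ⟨j, hj, hv⟩ := hdense H hHC (1 / ((k : ℝ) + 1)) Nat.one_div_pos_of_nat N
      exact ⟨j, hj, hv⟩
    obtain ⟨φ, hφ, hφv⟩ := extraction_forall_of_frequently h1
    choose v hv1 hv2 hv3 using hφv
    refine ⟨fun i => Real.exp (-(φ i : ℝ)), fun i => Real.exp_pos _, ?_, ?_, ?_⟩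
    · intro a b hab
      apply Real.exp_lt_exp.2
      apply neg_lt_neg
      exact_mod_cast hφ hab
    · exact Real.tendsto_exp_neg_atTop_nhds_zero.comp
        (tendsto_natCast_atTop_atTop.comp hφ.tendsto_atTop)
    · refine f11_aw hn he (fun i => Real.exp_pos _) ?_ hv1 hv2 ?_
      · exact Real.tendsto_exp_neg_atTop_nhds_zero.comp
          (tendsto_natCast_atTop_atTop.comp hφ.tendsto_atTop)
      · refine squeeze_zero (fun i => norm_nonneg _) (fun i => ?_)
          (tendsto_one_div_add_atTop_nhds_zero_nat (𝕜 := ℝ))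
        rw [Real.log_exp, neg_neg, hej]
        exact hv3 i

end Pool.Agent.Lib.MP_47b33c_an
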