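import Pool.Agent.Lib.MP_47b33c_an.HMeas
import Pool.Agent.Lib.MP_47b33c_an.Green
import Pool.Agent.Lib.MP_47b33c_an.Rep
import Pool.Agent.Lib.MP_47b33c_an.Ratio
import Pool.Agent.Lib.MP_47b33c_an.Chain
import Pool.Agent.Lib.MP_47b33c_an.Curve
import Pool.Agent.Lib.MP_47b33c_an.DomC
import Pool.Agent.Lib.MP_47b33c_an.Tang
import Pool.Agent.Lib.MP_47b33c_an.Ident

set_option autoImplicit false

open MeasureTheory Metric Set Filter Topology InnerProductSpace
open scoped RealInnerProductSpace Laplacian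

namespace Pool.Agent.Lib.MP_47b33c_an

variable {n : ℕ}

theorem x_flat_neg {Ω : Set (EE n)} {z e : EE n} {r θ : ℝ} (h : Flat Ω (-z) r e θ) :
    Flat {x | -x ∈ Ω} z r (-e) θ := by
  refine ⟨by rw [norm_neg]; exact h.unit, ?_, ?_⟩
  · intro x hx hl
    refine h.inn (-x) ?_ ?_
    · rw [mem_ball, dist_neg_neg]; exact hx
    · have : -x - -z = -(x - z) := by abel
      rw [this, inner_neg_left]
      rw [inner_neg_right] at hl
      exact hl
  · intro x hx hl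
    have h2 := h.out (-x) (by rw [mem_ball, dist_neg_neg]; exact hx) hl
    have : -x - -z = -(x - z) := by abel
    rw [this, inner_neg_left] at h2
    rw [inner_neg_right]
    exact h2

theorem x_frontier_neg (Ω : Set (EE n)) : frontier {x | -x ∈ Ω} = {x | -x ∈ frontier Ω} := by
  have := (Homeomorph.neg (EE n)).preimage_frontier Ω
  exact this.symm

theorem x_flat_mono {Ω : Set (EE n)} {z e : EE n} {r θ θ' : ℝ} (hr : 0 < r)
    (h : Flat Ω z r e θ) (hθ : θ ≤ θ') : Flat Ω z r e θ' := by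
  have hm : θ * r ≤ θ' * r := mul_le_mul_of_nonneg_right hθ hr.le
  refine ⟨h.unit, fun x hx hl => h.inn x hx (lt_of_le_of_lt hm hl), fun x hx hl => ?_⟩
  have := h.out x hx hl
  linarith

/-- distance from the pole to the boundary -/
theorem x_dist_pole {Ω : Set (EE n)} {ν : EE n → EE n} {d : ℝ → EE n} {ε : ℝ → ℝ} {P : EE n}
    (hg : GoodDom Ω ν d ε P) {z : EE n} (hz : z ∈ frontier Ω) :
    9 < dist z ((10 : ℝ) • P) := by
  have hP := hg.unit
  have hA : ‖(10 : ℝ) • P‖ = 10 := by rw [norm_smul, hP]; norm_num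
  rcases lt_or_ge ‖z‖ 1 with h1 | h1
  · rw [dist_eq_norm]
    have h2 : ‖(10 : ℝ) • P‖ ≤ ‖z‖ + ‖z - (10 : ℝ) • P‖ := by
      calc ‖(10 : ℝ) • P‖ = ‖z - (z - (10 : ℝ) • P)‖ := by congr 1; abel
        _ ≤ _ := norm_sub_le _ _
    linarith
  · have h2 := (hg.front z).1 hz
    have h3 := h2.1
    have h4 := h2.2
    rw [hg.half z h1] at h3
    rw [hg.half (-z) (by rw [norm_neg]; exact h1), inner_neg_left] at h4
    have h5 : ⟪z, P⟫ = 0 := by linarith [not_lt.1 h3, not_lt.1 h4]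
    rw [dist_eq_norm]
    have h6 : ‖z - (10 : ℝ) • P‖ ^ 2 = ‖z‖ ^ 2 + 100 := by
      rw [norm_sub_sq_real, inner_smul_right, h5, hA]; ring
    nlinarith [norm_nonneg (z - (10 : ℝ) • P), norm_nonneg z]

theorem main (n : ℕ) (hn : 2 ≤ n) (C : Set (Hyp n)) (hC : IsCompact C) (hC' : IsConnected C) :
    ∃ (Ωp Ωm : Set (EE n)) (A B : EE n) (ωp ωm : Measure (EE n)) (Q : EE n),
      IsNTA Ωp ∧ IsNTA Ωm ∧ Ωm = (closure Ωp)ᶜ ∧ frontier Ωm = frontier Ωp ∧ A ∈ Ωp ∧ B ∈ Ωm ∧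
      IsHarmonicMeasure Ωp A ωp ∧ IsHarmonicMeasure Ωm B ωm ∧
      LogContDensity (frontier Ωp) ωp ωm ∧ Q ∈ frontier Ωp ∧
      Tan (frontier Ωp) Q = (fun H : Hyp n => (H.1 : Set (EE n))) '' C := by
  obtain ⟨Cc, hCc, hcurve⟩ := exists_curve (n := n)
  have hCc0 : 0 < Cc := by linarith
  obtain ⟨p, δ, hp, hpd, hanti, hpos, hle, htend, hpC, hdense⟩ :=
    exists_chain hC hC' (min (1 / 2) (1 / (100000000 * Cc))) (by positivity)
  obtain ⟨e, δ', he, hej, hep⟩ := hcurve p δ hp hpd hanti hpos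
    (fun j => (hle j).trans (min_le_left _ _)) htend (by
      have := (hle 0).trans (min_le_right _ _)
      calc Cc * δ 0 ≤ Cc * (1 / (100000000 * Cc)) := mul_le_mul_of_nonneg_left this hCc0.le
        _ = 1 / 100000000 := by field_simp)
  obtain ⟨ν, ε, hg⟩ := goodDom hn he
  set Ω : Set (EE n) := Dom e with hΩ
  set P : EE n := p 0 with hPdef
  have hP : ‖P‖ = 1 := hg.unit
  set A : EE n := (10 : ℝ) • P with hAdef
  have hAn : ‖A‖ = 10 := by rw [hAdef, norm_smul, hP]; norm_num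
  have hPP : ⟪P, P⟫ = 1 := by rw [real_inner_self_eq_norm_sq, hP]; norm_num
  have hAP : ⟪A, P⟫ = 10 := by rw [hAdef, real_inner_smul_left, hPP]; norm_num
  have hAΩ : A ∈ Ω := (hg.half A (by rw [hAn]; norm_num)).2 (by rw [hAP]; norm_num)
  have hAball : closedBall A 1 ⊆ Ω := by
    intro x hx
    rw [mem_closedBall, dist_eq_norm] at hx
    have h1 : ‖A‖ ≤ ‖x‖ + ‖x - A‖ := by
      calc ‖A‖ = ‖x - (x - A)‖ := by congr 1; abel
        _ ≤ _ := norm_sub_le _ _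
    refine (hg.half x (by linarith)).2 ?_
    have h2 : ⟪x, P⟫ = ⟪A, P⟫ + ⟪x - A, P⟫ := by rw [← inner_add_left]; congr 1; abel
    have h3 : |⟪x - A, P⟫| ≤ 1 := by
      calc |⟪x - A, P⟫| ≤ ‖x - A‖ * ‖P‖ := abs_real_inner_le_norm _ _
        _ ≤ 1 := by rw [hP]; linarith
    rw [h2, hAP]
    linarith [(abs_le.1 h3).1]
  have hBfar : ∀ x ∈ Ω, 1 ≤ ‖x - (-A)‖ := by
    intro x hx
    by_contra hlt
    push Not at hlt
    have h1 : ‖A‖ ≤ ‖x‖ + ‖x - (-A)‖ := by
      calc ‖A‖ = ‖(x - (-A)) - x‖ := by congr 1; abel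
        _ ≤ ‖x - (-A)‖ + ‖x‖ := norm_sub_le _ _
        _ = _ := by ring
    have h2 := (hg.half x (by linarith)).1 hx
    have h3 : ⟪x, P⟫ = -⟪A, P⟫ + ⟪x - (-A), P⟫ := by
      rw [← inner_neg_left, ← inner_add_left]; congr 1; abel
    have h4 : |⟪x - (-A), P⟫| ≤ 1 := by
      calc |⟪x - (-A), P⟫| ≤ ‖x - (-A)‖ * ‖P‖ := abs_real_inner_le_norm _ _
        _ ≤ 1 := by rw [hP]; linarith
    rw [h3, hAP] at h2
    linarith [(abs_le.1 h4).2]
  have hne : (frontier Ω).Nonempty := ⟨0, hg.zero_mem⟩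
  have hext : ∀ z ∈ frontier Ω, ∀ r : ℝ, 0 < r → ExtAt (1 / 4) Ω z r := by
    intro z hz r hr
    obtain ⟨e', he'⟩ := hg.allFlat z hz r hr
    exact extAt_of_flat hr he'
  have hhalf : ∀ x ∈ Ω, 1 ≤ ‖x‖ → 0 < ⟪x, P⟫ := fun x hx h1 => (hg.half x h1).1 hx
  obtain ⟨ω, hω⟩ := exists_harmonicMeasure hn hg.isOpen (by norm_num : (0 : ℝ) < 1 / 4) hne hext
    hAΩ
  haveI := hω.prob
  obtain ⟨G, hG⟩ := exists_greenPot hn hg.isOpen hg.preconn (by norm_num : (0 : ℝ) < 1 / 4) hext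
    hP hhalf hAball hBfar
  have hfar : ∀ z ∈ frontier Ω, 9 < dist z A := fun z hz => x_dist_pole hg hz
  have hloc : ∀ z ∈ frontier Ω, LocPos Ω G z 8 := by
    intro z hz
    refine ⟨hG.cont.continuousOn, ?_, fun x _ hx => hG.zero x hx, ?_⟩
    · intro x _
      by_cases hx : x ∈ Ω
      · exact (hG.pos x hx).le
      · exact (hG.zero x hx).symm.le
    · intro x hx
      refine ⟨hG.diff x hx.1, ?_⟩
      have hopen : IsOpen (Ω ∩ ball z 8) := hg.isOpen.inter isOpen_ball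
      filter_upwards [hopen.mem_nhds hx] with y hy
      rw [hG.lap y hy.1]
      have h1 : 1 < ‖y - A‖ := by
        have h2 := hfar z hz
        have h3 : dist z A ≤ dist z y + dist y A := dist_triangle _ _ _
        have h4 := hy.2
        rw [mem_ball, dist_comm] at h4
        rw [← dist_eq_norm]
        linarith
      have h5 : 1 - ‖y - A‖ ^ 2 ≤ 0 := by nlinarith
      rw [max_eq_left h5]
      simp
  obtain ⟨k, hk⟩ := exists_bdryExp hn hg hG.cont hloc hG.pos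
  have hc : 0 < ∫ y : EE n, wt 1 y := wt_integral_pos hn 1 le_rfl
  have hrep : ∀ φ : EE n → ℝ, ContDiff ℝ 2 φ → HasCompactSupport φ →
      (∀ x ∈ tsupport φ, infDist x (frontier Ω) ≤ 2) →
      (∫ y : EE n, wt 1 y) * ∫ x, φ x ∂ω = ∫ x, G x * Δ φ x := by
    intro φ hφ hφc hφs
    rw [green_rep hn hg.isOpen hP hhalf hAball hG hω hφ hφc]
    have h0 : ∀ x, φ x * max 0 (1 - ‖x - A‖ ^ 2) = 0 := by
      intro x
      by_cases hx : x ∈ tsupport φ
      · have h1 := hφs x hx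
        obtain ⟨z, hz, hzd⟩ := (infDist_lt_iff hne).1 (lt_of_le_of_lt h1 (by norm_num : (2:ℝ) < 3))
        have h2 := hfar z hz
        have h3 : dist z A ≤ dist z x + dist x A := dist_triangle _ _ _
        rw [dist_comm z x] at h3
        have h4 : 1 < ‖x - A‖ := by rw [← dist_eq_norm]; linarith
        have h5 : 1 - ‖x - A‖ ^ 2 ≤ 0 := by nlinarith
        rw [max_eq_left h5, mul_zero]
      · rw [image_eq_zero_of_notMem_tsupport hx, zero_mul]
    simp only [h0, integral_zero, add_zero]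
  have hlog := identify hn hg hG.cont hG.zero hk hω.supp hc hrep
  have hcl : (closure Ω)ᶜ = {x | -x ∈ Ω} := dom_closure_compl hn he
  have hfr : frontier {x | -x ∈ Ω} = frontier Ω := by
    rw [x_frontier_neg]
    ext x
    rw [mem_setOf_eq, hg.front, hg.front, neg_neg]
    exact and_comm
  have hneg := harmonicMeasure_neg hω
  refine ⟨Ω, {x | -x ∈ Ω}, A, -A, ω, ω.map (fun x => -x), 0, ?_, ?_, hcl.symm, hfr, hAΩ, ?_, hω,
    hneg, hlog, hg.zero_mem, ?_⟩
  · exact nta_of_allFlat hn hg.isOpen ⟨A, hAΩ⟩ hne hg.allFlat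
  · refine nta_of_allFlat hn (hg.isOpen.preimage continuous_neg) ⟨-A, ?_⟩ (hfr ▸ hne) ?_
    · change - -A ∈ Ω
      rw [neg_neg]; exact hAΩ
    · intro z hz r hr
      rw [x_frontier_neg] at hz
      obtain ⟨e', he'⟩ := hg.allFlat (-z) hz r hr
      exact ⟨-e', x_flat_neg he'⟩
  · change - -A ∈ Ω
    rw [neg_neg]; exact hAΩ
  · exact tan_dom hn hC hp htend hpC hdense he hej hep

end Pool.Agent.Lib.MP_47b33c_an
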