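import Pool.Agent.Lib.MP_47b33c_an.Planes
import Pool.Agent.Lib.MP_47b33c_an.Improve
import Pool.Agent.Lib.MP_47b33c_an.ProfAdd

set_option autoImplicit false

open MeasureTheory Metric Set Filter Topology InnerProductSpace
open scoped RealInnerProductSpace Laplacian

namespace Pool.Agent.Lib.MP_47b33c_an

variable {n : ℕ}

theorem e6_inner_sub (x e e' : EE n) {ρ : ℝ} (hx : ‖x‖ ≤ ρ) :
    |⟪x, e⟫ - ⟪x, e'⟫| ≤ ρ * ‖e - e'‖ := by
  rw [← inner_sub_right]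
  exact (abs_real_inner_le_norm _ _).trans (mul_le_mul_of_nonneg_right hx (norm_nonneg _))

/-- one step of the iteration -/
theorem prof_step (hn : 2 ≤ n) : ∃ c C : ℝ, 0 < c ∧ c ≤ 1 / 2 ∧ 1 ≤ C ∧ ∀ (Ω : Set (EE n))
    (u : EE n → ℝ) (z e e' : EE n) (r θ θ' α β : ℝ), IsOpen Ω → 0 < r → 0 ≤ θ → θ ≤ th0 →
    0 ≤ θ' → θ' ≤ th0 → Flat Ω z r e θ → Flat Ω z (r / 64) e' θ' → LocPos Ω u z r → 0 ≤ α →
    α ≤ β → Prof Ω u z r e θ α β →
    ∃ α' β' : ℝ, Prof Ω u z (r / 64) e' θ' α' β' ∧ 0 ≤ α' ∧ α' ≤ β' ∧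
      α * (1 - C * (θ + θ')) ≤ α' ∧ β' ≤ β * (1 + C * (θ + θ')) ∧
      β' - α' ≤ (1 - c) * (β - α) + C * (θ + θ') * β := by
  obtain ⟨c, hc, hc2, H1⟩ := od_improve hn
  obtain ⟨C0, hC0, H2⟩ := prof_of_add hn
  refine ⟨c, 400 * C0, hc, hc2, by linarith, ?_⟩
  intro Ω u z e e' r θ θ' α β hΩ hr hθ0 hθ1 hθ'0 hθ'1 hF hF' hu hα hαβ hP
  obtain ⟨α1, β1, h1, h2, h3, h4, h5, h6⟩ := H1 Ω u z e r θ α β hΩ hr hθ0 hθ1 hF hu hα hαβ hP
  have hr' : 0 < r / 64 := by linarith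
  have hα1 : 0 ≤ α1 := hα.trans h1
  have hβ1 : 0 ≤ β1 := hα1.trans h2
  have hβ : 0 ≤ β := hα.trans hαβ
  -- the angle
  have hang : ‖e - e'‖ ≤ 128 * θ + 2 * θ' := by
    have h := two_planes hr' (by linarith : r / 64 ≤ r) hF hF'
    have e1 : θ * r / (r / 64) = 64 * θ := by field_simp
    rw [e1] at h
    have : max (64 * θ) θ' ≤ 64 * θ + θ' := max_le (by linarith) (by linarith)
    linarith
  have hang0 : 0 ≤ ‖e - e'‖ := norm_nonneg _
  set σ : ℝ := ‖e - e'‖ + 64 * θ with hσ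
  have hσ0 : 0 ≤ σ := by positivity
  have hu' : LocPos Ω u z (r / 64) := by
    have hsub : ball z (r / 64) ⊆ ball z r := ball_subset_ball (by linarith)
    exact ⟨hu.cont.mono hsub, fun x hx => hu.nonneg x (hsub hx), fun x hx => hu.zero x (hsub hx),
      fun x hx => hu.harm x ⟨hx.1, hsub hx.2⟩⟩
  have hdiff : ∀ x ∈ ball z (r / 64), |⟪x - z, e⟫ - ⟪x - z, e'⟫| ≤ r / 64 * ‖e - e'‖ := by
    intro x hx
    rw [mem_ball, dist_eq_norm] at hx
    exact e6_inner_sub _ _ _ hx.le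
  have hup : ∀ x ∈ ball z (r / 64), x ∈ Ω → u x ≤ β1 * (⟪x - z, e'⟫ + σ * (r / 64)) := by
    intro x hx hxΩ
    refine (h6 x hx hxΩ).trans (mul_le_mul_of_nonneg_left ?_ hβ1)
    have := (abs_le.1 (hdiff x hx)).2
    rw [hσ]
    linarith
  have hlow : ∀ x ∈ ball z (r / 64), α1 * (⟪x - z, e'⟫ - σ * (r / 64)) ≤ u x := by
    intro x hx
    have hd := (abs_le.1 (hdiff x hx)).1
    have hle : ⟪x - z, e'⟫ - σ * (r / 64) ≤ ⟪x - z, e⟫ - θ * r := by
      rw [hσ]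
      linarith
    refine (mul_le_mul_of_nonneg_left hle hα1).trans ?_
    by_cases hcase : θ * r < ⟪x - z, e⟫
    · exact h5 x hx hcase
    · push Not at hcase
      exact (mul_nonpos_of_nonneg_of_nonpos hα1 (by linarith)).trans (hu'.nonneg x hx)
  have hprof := H2 Ω u z e' (r / 64) θ' σ α1 β1 hΩ hr' hθ'0 hθ'1 hσ0 hF' hu' hα1 hβ1 hup hlow
  set s : ℝ := θ + θ' with hs
  have hs0 : 0 ≤ s := by positivity
  set τ : ℝ := C0 * (σ + θ') with hτ
  have hτ0 : 0 ≤ τ := mul_nonneg (by linarith) (by linarith)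
  have hτs : τ ≤ 195 * (C0 * s) := by
    have : σ + θ' ≤ 195 * s := by rw [hσ, hs]; linarith
    calc τ ≤ C0 * (195 * s) := mul_le_mul_of_nonneg_left this (by linarith)
      _ = 195 * (C0 * s) := by ring
  have hCs : 0 ≤ C0 * s := mul_nonneg (by linarith) hs0
  refine ⟨max 0 (α1 * (1 - τ)), β1 * (1 + τ), ⟨?_, hprof.upper⟩, le_max_left _ _, ?_, ?_, ?_, ?_⟩
  · intro x hx hxe
    rcases max_cases 0 (α1 * (1 - τ)) with ⟨h, _⟩ | ⟨h, _⟩
    · rw [h, zero_mul]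
      exact hu'.nonneg x (ball_subset_ball (by linarith) hx)
    · rw [h]
      exact hprof.lower x hx hxe
  · apply max_le
    · exact mul_nonneg hβ1 (by linarith)
    · have : α1 * (1 - τ) ≤ α1 * 1 := mul_le_mul_of_nonneg_left (by linarith) hα1
      have : β1 * 1 ≤ β1 * (1 + τ) := mul_le_mul_of_nonneg_left (by linarith) hβ1
      linarith
  · by_cases hcase : 1 - 400 * C0 * s ≤ 0
    · exact (mul_nonpos_of_nonneg_of_nonpos hα hcase).trans (le_max_left _ _)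
    · push Not at hcase
      refine le_trans ?_ (le_max_right _ _)
      calc α * (1 - 400 * C0 * s) ≤ α1 * (1 - 400 * C0 * s) :=
            mul_le_mul_of_nonneg_right h1 hcase.le
        _ ≤ α1 * (1 - τ) := mul_le_mul_of_nonneg_left (by nlinarith) hα1
  · calc β1 * (1 + τ) ≤ β * (1 + τ) := mul_le_mul_of_nonneg_right h3 (by linarith)
      _ ≤ β * (1 + 400 * C0 * s) := mul_le_mul_of_nonneg_left (by nlinarith) hβ
  · have e1 : α1 * (1 - τ) ≤ max 0 (α1 * (1 - τ)) := le_max_right _ _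
    have e2 : τ * (α1 + β1) ≤ τ * (2 * β) := mul_le_mul_of_nonneg_left (by linarith) hτ0
    have e3 : τ * (2 * β) ≤ 195 * (C0 * s) * (2 * β) :=
      mul_le_mul_of_nonneg_right hτs (by linarith)
    have e4 : 0 ≤ C0 * s * β := mul_nonneg hCs hβ
    nlinarith

end Pool.Agent.Lib.MP_47b33c_an
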